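import Pool.Agent.Lib.MP_2da099_lc.R2.B10
import Pool.Agent.Lib.MP_2da099_lc.C11

/-!
# B11: machines
-/

set_option autoImplicit false

namespace Pool.Agent.WPR

open Pool.Agent.Lib.PolyTime Pool.Agent.WPM Function

open Classical in
theorem Quad.machine {r : ℕ} {Z : List (Letter r) → Prop} (h : Quad Z) :
    ∃ (M : Turing.TM2ComputableInTime (fun w : List (Letter r) => w) (fun b : Bool => [b])
      (fun w => decide (Z w))) (C : ℕ), (∀ k, Finite (M.tm.Γ k)) ∧
      ∀ n : ℕ, M.time n ≤ C * (n + 1) ^ 2 := by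
  obtain ⟨f, T, C, hf, hfz, hT⟩ := h
  have hfe : f = fun w => decide (Z w) := by
    funext w
    rw [Bool.eq_iff_iff, hfz, decide_eq_true_iff]
  rw [← hfe]
  obtain ⟨κ, hκ⟩ := size_list_fin (Letter r)
  have hrev : CT (fun w : List (Letter r) => f w.reverse) (fun w => size w + T w.reverse) :=
    hf.comp CT.reverse
  obtain ⟨M, C', hfin, hM⟩ := CT.machine f _ hrev (fun n => κ * (n + 1) + C * (n + 1) ^ 2) (by
    intro w
    have e1 := hκ w
    have e2 := hT w.reverse
    rw [List.length_reverse] at e2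
    exact Nat.add_le_add e1 e2)
  refine ⟨M, C' * (κ + C + 1), hfin, fun n => (hM n).trans ?_⟩
  rw [Nat.mul_assoc]
  refine Nat.mul_le_mul_left _ ?_
  nlinarith [Nat.zero_le n, Nat.zero_le κ, Nat.zero_le (κ * n)]

end Pool.Agent.WPR
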