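import Pool.Agent.Lib.MP_2da099_lc.R2.Defs
import Pool.Agent.Lib.MP_2da099_lc.C02
import Pool.Agent.Lib.MP_2da099_lc.C07
import Pool.Agent.Lib.MP_2da099_lc.C09
import Pool.Agent.Lib.MP_2da099_lc.C10

/-!
# P05: maps over lists

HINTS.  `ct_map`: `CT.foldl` with the state `acc : List β` and the step `(a, acc) ↦ (f a, acc)` (`CT.first h`,
cost `T a`), which has the same encoding as `f a :: acc` (`CT.of_enc_eq`, as in `CT.appendRev` in C08); then
`CT.reverse`, whose cost is the size of the result, at most `size l + C * (sum of T + length)` by `CT.size_le`.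
`ct_mapEnv`: `CT.foldlEnv` in the same way.  `ct_zipWith`: `CT.zip`, then `ct_map`.  `ct_all`: fold with a
Boolean state.  `ct_flatten`: reverse, then `CT.foldl` with the step `(a, s) ↦ a ++ s` (`CT.append`, cost
`size a`).  `ct_flatMapFin`: `ct_map` with `CT.fin`, then `ct_flatten` (sizes with `size_list_fin`).
-/

set_option autoImplicit false

namespace Pool.Agent.WPR

open Pool.Agent.Lib.PolyTime Pool.Agent.WPM Function

variable {α β γ ε : Type} [Enc α] [Enc β] [Enc γ] [Enc ε]

theorem p05_foldCost_fst {τ ρ : Type} (T : τ → ℕ) (step : τ × ρ → ρ) (l : List τ) (s : ρ) :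
    foldCost (fun y => T y.1) step l s = (l.map T).sum := by
  induction l generalizing s with
  | nil => rfl
  | cons a l ih => simp only [foldCost, List.map_cons, List.sum_cons, ih]

theorem p05_length_le (l : List α) : l.length + 1 ≤ size l := by
  induction l with
  | nil => simp
  | cons a l ih => rw [size_cons, List.length_cons]; omega

theorem p05_sum_size_le (l : List α) : (l.map (fun a => size a)).sum ≤ size l := by
  induction l with
  | nil => simp
  | cons a l ih => rw [size_cons, List.map_cons, List.sum_cons]; omega

theorem p05_size_map_le {f : α → β} {T : α → ℕ} (D C : ℕ)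
    (hC : ∀ a, size (f a) ≤ size a + D + C * (T a + 1)) (l : List α) :
    size (l.map f) + (l.length + 1) * C ≤ size l + l.length * D + 2 * (l.length + 1) * C +
      C * (l.map T).sum := by
  induction l with
  | nil => simp; omega
  | cons a l ih =>
    rw [List.map_cons, size_cons, size_cons, List.length_cons, List.map_cons, List.sum_cons]
    have h1 := hC a
    have e1 : (l.length + 1 + 1) * C = (l.length + 1) * C + C := by ring
    have e2 : 2 * (l.length + 1 + 1) * C = 2 * (l.length + 1) * C + 2 * C := by ring
    have e3 : C * (T a + (l.map T).sum) = C * T a + C * (l.map T).sum := by ring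
    have e4 : C * (T a + 1) = C * T a + C := by ring
    have e5 : (l.length + 1) * D = l.length * D + D := by ring
    rw [e1, e2, e3, e5]
    omega

theorem p05_input (s : β) : CT (fun a : α => (a, s)) (fun a => size a) := by
  have h1 : CT (fun a : α => (s, a)) (fun _ => 0) := CT.pushConst s
  have h2 : CT (fun x : β × α => (x.2, x.1)) _ := CT.swap
  refine ((h2.comp h1).mono (size s + 1) (fun a => ?_)).congr (fun _ => rfl)
  show 0 + (size s + size a) ≤ (size s + 1) * (size a + 1)
  have : (size s + 1) * (size a + 1) = size s * size a + size s + size a + 1 := by ring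
  omega

theorem ct_map {f : α → β} {T : α → ℕ} (h : CT f T) :
    CT (fun l : List α => l.map f) (fun l => size l + (l.map T).sum) := by
  obtain ⟨C, hC⟩ := h.size_le
  have h1 : CT (fun x : α × List β => f x.1 :: x.2) (fun x => T x.1) := by
    have a1 : CT (fun x : β × List β => x.1 :: x.2) (fun _ => 0) := CT.of_enc_eq (fun _ => rfl)
    exact ((a1.comp (CT.first h)).mono 1 (fun x => by
      show T x.1 + 0 ≤ 1 * (T x.1 + 1)
      omega)).congr (fun _ => rfl)
  have h2 := CT.foldl h1
  have h3 : CT (fun l : List α => (l, ([] : List β))) (fun l => size l) := p05_input []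
  have h4 := CT.reverse (α := β)
  have key : ∀ (l : List α) (s : List β), l.foldl (fun s a => f a :: s) s =
      (l.map f).reverse ++ s := by
    intro l
    induction l with
    | nil => intro s; rfl
    | cons a l ih => intro s; simp [ih]
  refine ((h4.comp (h2.comp h3)).mono (3 * (C + 1)) (fun l => ?_)).congr (fun l => ?_)
  · show size l + (size l + foldCost (fun x : α × List β => T x.1) _ l []) +
      size (l.foldl (fun s a => f a :: s) []) ≤ 3 * (C + 1) * (size l + (l.map T).sum + 1)
    rw [p05_foldCost_fst, key, List.append_nil, size_reverse]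
    have h5 := p05_size_map_le (f := f) (T := T) 0 C (fun a => by simpa using hC a) l
    have h6 := p05_length_le l
    have h7 : (l.length + 1) * C ≤ size l * C := Nat.mul_le_mul_right _ h6
    have e1 : 3 * (C + 1) * (size l + (l.map T).sum + 1) = 3 * (size l * C) + 3 * (C * (l.map T).sum)
      + 3 * C + 3 * size l + 3 * (l.map T).sum + 3 := by ring
    have e2 : 2 * (l.length + 1) * C = 2 * ((l.length + 1) * C) := by ring
    rw [e1]
    rw [e2] at h5
    omega
  · show (l.foldl (fun s a => f a :: s) []).reverse = l.map f
    rw [key, List.append_nil, List.reverse_reverse]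

theorem ct_mapEnv {f : α × ε → β} {T : α × ε → ℕ} (h : CT f T) :
    CT (fun x : List α × ε => x.1.map (fun a => f (a, x.2)))
      (fun x => size x.1 + (x.1.length + 1) * size x.2 +
        (x.1.map (fun a => T (a, x.2))).sum) := by
  obtain ⟨C, hC⟩ := h.size_le
  have h1 : CT (fun x : (α × ε) × List β => f x.1 :: x.2) (fun x => T x.1) := by
    have a1 : CT (fun x : β × List β => x.1 :: x.2) (fun _ => 0) := CT.of_enc_eq (fun _ => rfl)
    exact ((a1.comp (CT.first h)).mono 1 (fun x => by
      show T x.1 + 0 ≤ 1 * (T x.1 + 1)
      omega)).congr (fun _ => rfl)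
  have h2 := CT.foldlEnv h1
  have h3 : CT (fun x : List α × ε => (x.1, (x.2, ([] : List β))))
      (fun x => size x.1 + size x.2) := by
    have a1 : CT (fun x : List α × ε => (x, ([] : List β))) (fun x => size x) := p05_input []
    have a2 : CT (fun x : (List α × ε) × List β => (x.1.1, (x.1.2, x.2))) (fun x => size x.1.1) :=
      CT.assocR
    refine ((a2.comp a1).mono 2 (fun x => ?_)).congr (fun _ => rfl)
    show size x + size x.1 ≤ 2 * (size x.1 + size x.2 + 1)
    rw [size_prod]
    omega
  have h4 := CT.reverse (α := β)
  have key : ∀ (e : ε) (l : List α) (s : List β), l.foldl (fun s a => f (a, e) :: s) s =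
      (l.map (fun a => f (a, e))).reverse ++ s := by
    intro e l
    induction l with
    | nil => intro s; rfl
    | cons a l ih => intro s; simp [ih]
  refine ((h4.comp (h2.comp h3)).mono (3 * (C + 1)) (fun x => ?_)).congr (fun x => ?_)
  · obtain ⟨l, e⟩ := x
    show size l + size e + (size l + (l.length + 1) * size e +
      foldCost (fun y : α × List β => T (y.1, e)) _ l []) +
      size (l.foldl (fun s a => f (a, e) :: s) []) ≤
      3 * (C + 1) * (size l + (l.length + 1) * size e + (l.map (fun a => T (a, e))).sum + 1)
    have e0 : foldCost (fun y : α × List β => T (y.1, e))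
        (fun y : α × List β => f (y.1, e) :: y.2) l [] = (l.map (fun a => T (a, e))).sum :=
      p05_foldCost_fst (fun a => T (a, e)) _ l []
    rw [e0, key, List.append_nil, size_reverse]
    have h5 := p05_size_map_le (f := fun a => f (a, e)) (T := fun a => T (a, e)) (size e + 1) C
      (fun a => by
        have := hC (a, e)
        rw [size_prod] at this
        simp only at this
        show size (f (a, e)) ≤ size a + (size e + 1) + C * (T (a, e) + 1)
        omega) l
    have h6 := p05_length_le l
    have h7 : (l.length + 1) * C ≤ size l * C := Nat.mul_le_mul_right _ h6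
    have e3 : 1 ≤ size e := size_pos e
    have e6 : l.length ≤ l.length * size e := Nat.le_mul_of_pos_right _ e3
    set S := (l.map (fun a => T (a, e))).sum with hS
    have e1 : 3 * (C + 1) * (size l + (l.length + 1) * size e + S + 1) =
      3 * (size l * C) + 3 * (C * S) + 3 * (C * ((l.length + 1) * size e)) + 3 * C + 3 * size l +
        3 * ((l.length + 1) * size e) + 3 * S + 3 := by ring
    have e2 : 2 * (l.length + 1) * C = 2 * ((l.length + 1) * C) := by ring
    have e4 : (l.length + 1) * size e = l.length * size e + size e := by ring
    have e5 : l.length * (size e + 1) = l.length * size e + l.length := by ring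
    rw [e1]
    rw [e2, e5] at h5
    omega
  · show (x.1.foldl (fun s a => f (a, x.2) :: s) []).reverse = x.1.map (fun a => f (a, x.2))
    rw [key, List.append_nil, List.reverse_reverse]

theorem p05_size_zip (l : List α) (l' : List β) : size (l.zip l') ≤ size l + size l' := by
  induction l generalizing l' with
  | nil =>
    have := size_pos l'
    simp
  | cons a l ih =>
    cases l' with
    | nil => simp
    | cons b l' =>
      have := ih l'
      rw [List.zip_cons_cons, size_cons, size_cons, size_cons, size_prod]
      simp only
      omega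

theorem ct_zipWith {f : α × β → γ} {T : α × β → ℕ} (h : CT f T) :
    CT (fun x : List α × List β => List.zipWith (fun a b => f (a, b)) x.1 x.2)
      (fun x => size x.1 + size x.2 + ((x.1.zip x.2).map T).sum) := by
  refine (((ct_map h).comp CT.zip).mono 2 (fun x => ?_)).congr (fun x => ?_)
  · show size x.1 + size x.2 + (size (x.1.zip x.2) + ((x.1.zip x.2).map T).sum) ≤
      2 * (size x.1 + size x.2 + ((x.1.zip x.2).map T).sum + 1)
    have := p05_size_zip x.1 x.2
    omega
  · show (x.1.zip x.2).map f = List.zipWith (fun a b => f (a, b)) x.1 x.2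
    rw [List.zip, List.map_zipWith]

theorem ct_all {p : α → Bool} {T : α → ℕ} (h : CT p T) :
    CT (fun l : List α => l.all p) (fun l => size l + (l.map T).sum) := by
  have h1 : CT (fun x : α × Bool => p x.1 && x.2) (fun x => T x.1) := by
    have a1 : CT (fun x : Bool × Bool => x.1 && x.2) (fun _ => 0) := CT.fin _
    exact ((a1.comp (CT.first h)).mono 1 (fun x => by
      show T x.1 + 0 ≤ 1 * (T x.1 + 1)
      omega)).congr (fun _ => rfl)
  have h2 := CT.foldl h1
  have h3 : CT (fun l : List α => (l, true)) (fun l => size l) := p05_input true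
  have key : ∀ (l : List α) (s : Bool), l.foldl (fun s a => p a && s) s = (l.all p && s) := by
    intro l
    induction l with
    | nil => intro s; simp
    | cons a l ih =>
      intro s
      rw [List.foldl_cons, ih, List.all_cons]
      cases p a <;> cases l.all p <;> cases s <;> rfl
  refine ((h2.comp h3).mono 2 (fun l => ?_)).congr (fun l => ?_)
  · show size l + (size l + foldCost (fun x : α × Bool => T x.1) _ l true) ≤
      2 * (size l + (l.map T).sum + 1)
    rw [p05_foldCost_fst]
    omega
  · show l.foldl (fun s a => p a && s) true = l.all p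
    rw [key, Bool.and_true]

theorem ct_flatten : CT (fun l : List (List α) => l.flatten) (fun l => size l) := by
  have h2 := CT.foldr (α := List α) (σ := List α) (CT.append (α := α))
  have h3 : CT (fun l : List (List α) => (l, ([] : List α))) (fun l => size l) := p05_input []
  refine ((h2.comp h3).mono 3 (fun l => ?_)).congr (fun l => ?_)
  · show size l + (size l + foldCost (fun x : List α × List α => size x.1) _ l.reverse []) ≤
      3 * (size l + 1)
    rw [p05_foldCost_fst (fun a : List α => size a)]
    have h1 := p05_sum_size_le l.reverse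
    rw [size_reverse] at h1
    omega
  · show l.foldr (fun a s => a ++ s) [] = l.flatten
    induction l with
    | nil => rfl
    | cons a l ih => simp [ih]

theorem ct_flatMapFin [Finite α] (g : α → List β) :
    CT (fun w : List α => w.flatMap g) (fun w => w.length) := by
  classical
  obtain ⟨κ, hκ⟩ := size_list_fin α
  obtain ⟨κ', hκ'⟩ : ∃ κ', ∀ a, size (g a) ≤ κ' := by
    let _ := Fintype.ofFinite α
    exact ⟨Finset.univ.sup (fun a : α => size (g a)), fun a =>
      Finset.le_sup (f := fun a : α => size (g a)) (Finset.mem_univ a)⟩
  have h1 : CT (fun w : List α => w.map g) _ := ct_map (CT.fin g)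
  refine ((ct_flatten.comp h1).mono (κ + κ' + 1) (fun w => ?_)).congr (fun w => ?_)
  · show size w + (w.map (fun _ => 0)).sum + size (w.map g) ≤ (κ + κ' + 1) * (w.length + 1)
    have e1 : (w.map (fun _ => 0)).sum = 0 := by simp
    have e2 := hκ w
    have e3 := size_list_le_of κ' (w.map g) (fun x hx => by
      obtain ⟨a, _, rfl⟩ := List.mem_map.1 hx
      exact hκ' a)
    rw [List.length_map] at e3
    have e4 : (κ + κ' + 1) * (w.length + 1) = κ * (w.length + 1) + (κ' + 1) * (w.length + 1) := by
      ring
    rw [e1, e4]
    omega
  · show (w.map g).flatten = w.flatMap g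
    rw [List.flatMap_def]

end Pool.Agent.WPR
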