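import Pool.Agent.Lib.MP_2da099_lc.R2.Defs
import Pool.Agent.Lib.MP_2da099_lc.C02
import Pool.Agent.Lib.MP_2da099_lc.C05
import Pool.Agent.Lib.MP_2da099_lc.C07
import Pool.Agent.Lib.MP_2da099_lc.C08
import Pool.Agent.Lib.MP_2da099_lc.C09
import Pool.Agent.Lib.MP_2da099_lc.C10

/-!
# P07: unary numbers

HINTS.  The encoding of `n : ℕ` (`encNatInst`, `Derived.lean` line 338) is the one of a list of `n` units
(`enc (n + 1)` is the encoding of `((), n)`; check it first, `size n = 2 * n + 1`).  So `n ↦ replicate n ()`
and its inverse cost 0 (`CT.of_enc_eq`), and folds over `List Unit` are recursions over `ℕ`.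
`ct_length`: fold with `n ↦ n + 1`.  `ct_add`: `CT.append` for lists of units.  `ct_sub`: `ct_drop`.
`ct_mul`: `x.1` times append `x.2` (`CT.foldlEnv` over the units of `x.1`, the accumulator on top is only
extended: `CT.append`, cost `size x.2`).  `ct_replicate`: `CT.foldlEnv`.  `ct_drop`: fold over the units with
the step `l ↦ l.tail` (`CT.lcase`, its cost at a step is the size of the removed element; total at most
`size x.2`).  `ct_take`: `CT.zip` of the units and the list, then map `snd` (write the map as a fold:
`((), a) ↦ a` costs O(1) because the first component has constant size).  `ct_le`: `x.1 ≤ x.2` iff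
`x.1 - x.2 = 0`, test with `CT.lcase`.  `ct_range`: from `replicate`, by a fold with the state `(i, acc)`,
or `List.range (n+1) = 0 :: (List.range n).map (· + 1)`; any way with total cost `O((n+1)^2)`.
-/

set_option autoImplicit false

namespace Pool.Agent.WPR

open Pool.Agent.Lib.PolyTime Pool.Agent.WPM Function

variable {α : Type} [Enc α]

theorem p07_input {β : Type} [Enc β] (s : β) : CT (fun a : α => (a, s)) (fun a => size a) := by
  have h1 : CT (fun a : α => (s, a)) (fun _ => 0) := CT.pushConst s
  have h2 : CT (fun x : β × α => (x.2, x.1)) _ := CT.swap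
  refine ((h2.comp h1).mono (size s + 1) (fun a => ?_)).congr (fun _ => rfl)
  show 0 + (size s + size a) ≤ (size s + 1) * (size a + 1)
  have : (size s + 1) * (size a + 1) = size s * size a + size s + size a + 1 := by ring
  omega

theorem p07_foldCost_fst {τ ρ : Type} (T : τ → ℕ) (step : τ × ρ → ρ) (l : List τ) (s : ρ) :
    foldCost (fun y => T y.1) step l s = (l.map T).sum := by
  induction l generalizing s with
  | nil => rfl
  | cons a l ih => simp only [foldCost, List.map_cons, List.sum_cons, ih]

theorem p07_sum_size_le (l : List α) : (l.map (fun a => size a)).sum ≤ size l := by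
  induction l with
  | nil => simp
  | cons a l ih => rw [size_cons, List.map_cons, List.sum_cons]; omega

theorem p07_size_units (n : ℕ) : size (List.replicate n ()) = 2 * n + 1 := by
  have h : enc (List.replicate n ()) = enc n := enc_replicate_unit n
  have : size (List.replicate n ()) = size n := by unfold size; rw [h]
  rw [this, size_nat]

theorem ct_units : CT (fun n : ℕ => List.replicate n ()) (fun _ => 0) :=
  CT.of_enc_eq enc_replicate_unit

theorem p07_count : CT (fun l : List Unit => l.length) (fun _ => 0) := by
  refine CT.of_enc_eq (fun l => ?_)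
  rw [← enc_replicate_unit]
  congr 1
  exact (List.eq_replicate_of_mem (fun _ _ => rfl)).symm

theorem ct_succ : CT (fun n : ℕ => n + 1) (fun _ => 0) := by
  have h1 : CT (fun n : ℕ => ((), n)) (fun _ => 0) := CT.pushConst ()
  exact CT.congr_enc h1 (fun _ => rfl)

theorem ct_length : CT (fun l : List α => l.length) (fun l => size l) := by
  have h1 : CT (fun x : α × ℕ => x.2 + 1) (fun x => size x.1) := by
    refine ((ct_succ.comp (CT.snd (α := α) (β := ℕ))).mono 1 (fun x => ?_)).congr (fun _ => rfl)
    show size x.1 + 0 ≤ 1 * (size x.1 + 1)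
    omega
  have h2 := CT.foldl h1
  have h3 : CT (fun l : List α => (l, 0)) (fun l => size l) := p07_input 0
  refine ((h2.comp h3).mono 3 (fun l => ?_)).congr (fun l => ?_)
  · show size l + (size l + foldCost (fun x : α × ℕ => size x.1) _ l 0) ≤ 3 * (size l + 1)
    rw [p07_foldCost_fst (fun a : α => size a)]
    have := p07_sum_size_le l
    omega
  · show l.foldl (fun s _ => s + 1) 0 = l.length
    have key : ∀ (l : List α) (s : ℕ), l.foldl (fun s _ => s + 1) s = s + l.length := by
      intro l
      induction l with
      | nil => intro s; rfl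
      | cons a l ih => intro s; rw [List.foldl_cons, ih, List.length_cons]; ring
    rw [key, Nat.zero_add]

theorem ct_add : CT (fun x : ℕ × ℕ => x.1 + x.2) (fun x => x.1) := by
  have h0 : CT (fun x : ℕ × ℕ => (List.replicate x.1 (), List.replicate x.2 ())) (fun _ => 0) := by
    refine CT.of_enc_eq (fun x => ?_)
    rw [enc_prod, enc_prod, enc_replicate_unit, enc_replicate_unit]
  have h1 := (CT.append (α := Unit)).comp h0
  refine (h1.mono 3 (fun x => ?_)).congr_enc (fun x => ?_)
  · show 0 + size (List.replicate x.1 ()) ≤ 3 * (x.1 + 1)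
    rw [p07_size_units]
    omega
  · show enc (x.1 + x.2) = enc (List.replicate x.1 () ++ List.replicate x.2 ())
    rw [← enc_replicate_unit, List.replicate_add]

theorem ct_mul : CT (fun x : ℕ × ℕ => x.1 * x.2) (fun x => (x.1 + 1) * (x.2 + 1)) := by
  have h1 : CT (fun x : (Unit × ℕ) × ℕ => x.1.2 + x.2) (fun x => x.1.2) := by
    have a1 : CT (fun x : (Unit × ℕ) × ℕ => (x.1.2, x.2)) (fun x => size x.1.1) :=
      CT.first (CT.snd (α := Unit) (β := ℕ))
    refine ((ct_add.comp a1).mono 2 (fun x => ?_)).congr (fun _ => rfl)
    show size x.1.1 + x.1.2 ≤ 2 * (x.1.2 + 1)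
    have : size x.1.1 = 1 := rfl
    omega
  have h2 := CT.foldlEnv h1
  have h3 : CT (fun x : ℕ × ℕ => (List.replicate x.1 (), (x.2, 0))) (fun x => x.1 + x.2) := by
    have a1 : CT (fun x : ℕ × ℕ => (x, 0)) (fun x => size x) := p07_input 0
    have a2 : CT (fun x : (ℕ × ℕ) × ℕ => (x.1.1, (x.1.2, x.2))) (fun x => size x.1.1) := CT.assocR
    have a3 : CT (fun x : ℕ × (ℕ × ℕ) => (List.replicate x.1 (), x.2)) (fun _ => 0) :=
      CT.first ct_units
    refine ((a3.comp (a2.comp a1)).mono 5 (fun x => ?_)).congr (fun _ => rfl)
    show size x + size x.1 + 0 ≤ 5 * (x.1 + x.2 + 1)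
    rw [size_prod, size_nat, size_nat]
    omega
  have key : ∀ (m n s : ℕ), (List.replicate n ()).foldl (fun s _ => m + s) s = n * m + s := by
    intro m n
    induction n with
    | zero => intro s; simp
    | succ n ih => intro s; rw [List.replicate_succ, List.foldl_cons, ih]; ring
  refine ((h2.comp h3).mono 20 (fun x => ?_)).congr (fun x => ?_)
  · obtain ⟨n, m⟩ := x
    show n + m + (size (List.replicate n ()) + ((List.replicate n ()).length + 1) * size m +
      foldCost (fun y : Unit × ℕ => m) _ (List.replicate n ()) 0) ≤ 20 * ((n + 1) * (m + 1) + 1)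
    have e0 : foldCost (fun y : Unit × ℕ => m) (fun y : Unit × ℕ => m + y.2)
        (List.replicate n ()) 0 = n * m := by
      rw [p07_foldCost_fst (fun _ : Unit => m)]
      simp
    rw [e0, p07_size_units, List.length_replicate, size_nat]
    have e1 : (n + 1) * (2 * m + 1) = 2 * (n * m) + n + 2 * m + 1 := by ring
    have e2 : (n + 1) * (m + 1) = n * m + n + m + 1 := by ring
    rw [e1, e2]
    omega
  · show (List.replicate x.1 ()).foldl (fun s _ => x.2 + s) 0 = x.1 * x.2
    rw [key, Nat.add_zero]

theorem ct_replicate : CT (fun x : ℕ × α => List.replicate x.1 x.2)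
    (fun x => (x.1 + 1) * size x.2) := by
  have h1 : CT (fun x : (Unit × α) × List α => x.1.2 :: x.2) (fun _ => 0) := by
    have a1 : CT (fun x : (Unit × α) × List α => (x.1.2, x.2)) (fun x => size x.1.1) :=
      CT.first (CT.snd (α := Unit) (β := α))
    have a2 : CT (fun x : α × List α => x.1 :: x.2) (fun _ => 0) := CT.of_enc_eq (fun _ => rfl)
    refine ((a2.comp a1).mono 2 (fun x => ?_)).congr (fun _ => rfl)
    show size x.1.1 + 0 ≤ 2 * (0 + 1)
    have : size x.1.1 = 1 := rfl
    omega
  have h2 := CT.foldlEnv h1
  have h3 : CT (fun x : ℕ × α => (List.replicate x.1 (), (x.2, ([] : List α))))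
      (fun x => x.1 + size x.2) := by
    have a1 : CT (fun x : ℕ × α => (x, ([] : List α))) (fun x => size x) := p07_input []
    have a2 : CT (fun x : (ℕ × α) × List α => (x.1.1, (x.1.2, x.2))) (fun x => size x.1.1) :=
      CT.assocR
    have a3 : CT (fun x : ℕ × (α × List α) => (List.replicate x.1 (), x.2)) (fun _ => 0) :=
      CT.first ct_units
    refine ((a3.comp (a2.comp a1)).mono 5 (fun x => ?_)).congr (fun _ => rfl)
    show size x + size x.1 + 0 ≤ 5 * (x.1 + size x.2 + 1)
    rw [size_prod, size_nat]
    omega
  have key : ∀ (a : α) (n : ℕ) (s : List α), (List.replicate n ()).foldl (fun s _ => a :: s) s =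
      List.replicate n a ++ s := by
    intro a n
    induction n with
    | zero => intro s; simp
    | succ n ih =>
      intro s
      rw [List.replicate_succ, List.foldl_cons, ih, List.replicate_succ', List.append_assoc]
      rfl
  refine ((h2.comp h3).mono 10 (fun x => ?_)).congr (fun x => ?_)
  · obtain ⟨n, a⟩ := x
    show n + size a + (size (List.replicate n ()) + ((List.replicate n ()).length + 1) * size a +
      foldCost (fun y : Unit × List α => 0) _ (List.replicate n ()) []) ≤
      10 * ((n + 1) * size a + 1)
    have e0 : foldCost (fun y : Unit × List α => 0) (fun y : Unit × List α => a :: y.2)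
        (List.replicate n ()) [] = 0 := by
      rw [p07_foldCost_fst (fun _ : Unit => 0)]
      simp
    rw [e0, p07_size_units, List.length_replicate]
    have e3 : 1 ≤ size a := size_pos a
    have e4 : n ≤ n * size a := Nat.le_mul_of_pos_right _ e3
    have e1 : (n + 1) * size a = n * size a + size a := by ring
    rw [e1]
    omega
  · show (List.replicate x.1 ()).foldl (fun s _ => x.2 :: s) [] = List.replicate x.1 x.2
    rw [key, List.append_nil]

/-- one step of dropping -/
theorem p07_tail : CT (fun x : Unit × (List α × Unit) => (x.2.1.tail, x.2.2))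
    (fun x => (x.2.1.head?.map (fun a => size a)).getD 0) := by
  have hf : CT (fun u : Unit => (([] : List α), u)) (fun _ => 0) := CT.pushConst []
  have hg : CT (fun x : (α × List α) × Unit => (x.1.2, x.2)) (fun x => size x.1.1) :=
    CT.first (CT.snd (α := α) (β := List α))
  have h1 := CT.lcase hf hg
  have h2 : CT (fun x : Unit × (List α × Unit) => x.2) (fun x => size x.1) := CT.snd
  refine ((h1.comp h2).mono 2 (fun x => ?_)).congr (fun x => ?_)
  · obtain ⟨⟨⟩, l, ⟨⟩⟩ := x
    cases l with
    | nil =>
      show size () + 0 ≤ 2 * (0 + 1)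
      have : size () = 1 := rfl
      omega
    | cons a l =>
      show size () + size a ≤ 2 * (size a + 1)
      have : size () = 1 := rfl
      omega
  · obtain ⟨⟨⟩, l, ⟨⟩⟩ := x
    cases l <;> rfl

theorem ct_drop : CT (fun x : ℕ × List α => x.2.drop x.1) (fun x => x.1 + size x.2) := by
  have h2 := CT.foldl (p07_tail (α := α))
  have h3 : CT (fun x : ℕ × List α => (List.replicate x.1 (), (x.2, ())))
      (fun x => x.1 + size x.2) := by
    have a1 : CT (fun x : ℕ × List α => (x, ())) (fun x => size x) := p07_input ()
    have a2 : CT (fun x : (ℕ × List α) × Unit => (x.1.1, (x.1.2, x.2))) (fun x => size x.1.1) :=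
      CT.assocR
    have a3 : CT (fun x : ℕ × (List α × Unit) => (List.replicate x.1 (), x.2)) (fun _ => 0) :=
      CT.first ct_units
    refine ((a3.comp (a2.comp a1)).mono 5 (fun x => ?_)).congr (fun _ => rfl)
    show size x + size x.1 + 0 ≤ 5 * (x.1 + size x.2 + 1)
    rw [size_prod, size_nat]
    omega
  have h4 : CT (fun x : List α × Unit => x.1) (fun x => size x.1 + size x.2) := CT.fst
  have key : ∀ (n : ℕ) (l : List α),
      (List.replicate n ()).foldl (fun (s : List α × Unit) _ => (s.1.tail, s.2)) (l, ()) =
      (l.drop n, ()) := by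
    intro n
    induction n with
    | zero => intro l; rfl
    | succ n ih =>
      intro l
      rw [List.replicate_succ, List.foldl_cons, ih]
      cases l <;> simp
  have hcost : ∀ (n : ℕ) (l : List α),
      foldCost (fun x : Unit × (List α × Unit) => (x.2.1.head?.map (fun a => size a)).getD 0)
        (fun x => (x.2.1.tail, x.2.2)) (List.replicate n ()) (l, ()) ≤ size l := by
    intro n
    induction n with
    | zero => intro l; simp [foldCost]
    | succ n ih =>
      intro l
      rw [List.replicate_succ]
      cases l with
      | nil =>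
        have := ih ([] : List α)
        simpa [foldCost] using this
      | cons a l =>
        have := ih l
        rw [size_cons]
        simp only [foldCost, List.head?_cons, Option.map_some, Option.getD_some, List.tail_cons]
        omega
  have hdrop : ∀ (n : ℕ) (l : List α), size (l.drop n) ≤ size l := by
    intro n
    induction n with
    | zero => intro l; simp
    | succ n ih =>
      intro l
      cases l with
      | nil => simp
      | cons a l =>
        rw [List.drop_succ_cons, size_cons]
        have := ih l
        omega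
  refine ((h4.comp (h2.comp h3)).mono 5 (fun x => ?_)).congr (fun x => ?_)
  · obtain ⟨n, l⟩ := x
    show n + size l + (size (List.replicate n ()) + foldCost (fun x : Unit × (List α × Unit) =>
      (x.2.1.head?.map (fun a => size a)).getD 0) (fun x => (x.2.1.tail, x.2.2))
      (List.replicate n ()) (l, ())) +
      (size ((List.replicate n ()).foldl (fun (s : List α × Unit) _ => (s.1.tail, s.2))
        (l, ())).1 + size ((List.replicate n ()).foldl (fun (s : List α × Unit) _ =>
          (s.1.tail, s.2)) (l, ())).2) ≤ 5 * (n + size l + 1)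
    rw [key, p07_size_units]
    have h5 := hcost n l
    have h6 := hdrop n l
    have h7 : size () = 1 := rfl
    simp only
    omega
  · show ((List.replicate x.1 ()).foldl (fun (s : List α × Unit) _ => (s.1.tail, s.2))
      (x.2, ())).1 = x.2.drop x.1
    rw [key]

theorem p07_size_zip {β : Type} [Enc β] (l : List α) (l' : List β) :
    size (l.zip l') ≤ size l + size l' := by
  induction l generalizing l' with
  | nil =>
    have := size_pos l'
    simp
  | cons a l ih =>
    cases l' with
    | nil => simp
    | cons b l' =>
      have := ih l'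
      rw [List.zip_cons_cons, size_cons, size_cons, size_cons, size_prod]
      simp only
      omega

theorem ct_take : CT (fun x : ℕ × List α => x.2.take x.1) (fun x => x.1 + size x.2) := by
  have h1 : CT (fun x : (Unit × α) × List α => x.1.2 :: x.2) (fun _ => 0) := by
    have a1 : CT (fun x : (Unit × α) × List α => (x.1.2, x.2)) (fun x => size x.1.1) :=
      CT.first (CT.snd (α := Unit) (β := α))
    have a2 : CT (fun x : α × List α => x.1 :: x.2) (fun _ => 0) := CT.of_enc_eq (fun _ => rfl)
    refine ((a2.comp a1).mono 2 (fun x => ?_)).congr (fun _ => rfl)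
    show size x.1.1 + 0 ≤ 2 * (0 + 1)
    have : size x.1.1 = 1 := rfl
    omega
  have h2 := CT.foldl h1
  have h3 : CT (fun x : ℕ × List α => (List.replicate x.1 (), x.2)) (fun _ => 0) :=
    CT.first ct_units
  have h4 : CT (fun x : List Unit × List α => x.1.zip x.2) _ := CT.zip
  have h5 : CT (fun l : List (Unit × α) => (l, ([] : List α))) (fun l => size l) := p07_input []
  have h6 := CT.reverse (α := α)
  have key : ∀ (l : List (Unit × α)) (s : List α), l.foldl (fun s a => a.2 :: s) s =
      (l.map Prod.snd).reverse ++ s := by
    intro l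
    induction l with
    | nil => intro s; rfl
    | cons a l ih => intro s; simp [ih]
  have key2 : ∀ (n : ℕ) (l : List α), ((List.replicate n ()).zip l).map Prod.snd = l.take n := by
    intro n
    induction n with
    | zero => intro l; simp
    | succ n ih =>
      intro l
      cases l with
      | nil => simp
      | cons a l =>
        rw [List.replicate_succ, List.zip_cons_cons, List.map_cons, ih, List.take_succ_cons]
  have htake : ∀ (n : ℕ) (l : List α), size (l.take n) ≤ size l := by
    intro n
    induction n with
    | zero =>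
      intro l
      have := size_pos l
      simp
      omega
    | succ n ih =>
      intro l
      cases l with
      | nil => simp
      | cons a l =>
        rw [List.take_succ_cons, size_cons, size_cons]
        have := ih l
        omega
  refine ((h6.comp (h2.comp (h5.comp (h4.comp h3)))).mono 10 (fun x => ?_)).congr (fun x => ?_)
  · obtain ⟨n, l⟩ := x
    show 0 + (size (List.replicate n ()) + size l) + size ((List.replicate n ()).zip l) +
      (size ((List.replicate n ()).zip l) + foldCost (fun _ : (Unit × α) × List α => 0) _
        ((List.replicate n ()).zip l) []) +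
      size (((List.replicate n ()).zip l).foldl (fun s a => a.2 :: s) []) ≤
      10 * (n + size l + 1)
    have e0 : foldCost (fun _ : (Unit × α) × List α => 0)
        (fun x : (Unit × α) × List α => x.1.2 :: x.2) ((List.replicate n ()).zip l) [] = 0 :=
      c08_foldCost_zero _ _ _
    have e1 := p07_size_zip (List.replicate n ()) l
    rw [e0, key, key2, List.append_nil, size_reverse]
    rw [p07_size_units] at e1 ⊢
    have e2 := htake n l
    omega
  · show (((List.replicate x.1 ()).zip x.2).foldl (fun s a => a.2 :: s) []).reverse =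
      x.2.take x.1
    rw [key, List.append_nil, List.reverse_reverse, key2]

theorem ct_sub : CT (fun x : ℕ × ℕ => x.1 - x.2) (fun x => x.1 + x.2) := by
  have h1 : CT (fun x : ℕ × ℕ => (x.2, x.1)) (fun x => size x.1 + size x.2) := CT.swap
  have h2 : CT (fun x : ℕ × ℕ => (x.1, List.replicate x.2 ())) (fun _ => 0) := by
    refine CT.of_enc_eq (fun x => ?_)
    rw [enc_prod, enc_prod, enc_replicate_unit]
  have h3 := ct_drop (α := Unit)
  refine ((h3.comp (h2.comp h1)).mono 5 (fun x => ?_)).congr_enc (fun x => ?_)
  · show size x.1 + size x.2 + 0 + (x.2 + size (List.replicate x.1 ())) ≤ 5 * (x.1 + x.2 + 1)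
    rw [p07_size_units, size_nat, size_nat]
    omega
  · show enc (x.1 - x.2) = enc ((List.replicate x.1 ()).drop x.2)
    rw [← enc_replicate_unit, List.drop_replicate]

theorem ct_le : CT (fun x : ℕ × ℕ => decide (x.1 ≤ x.2)) (fun x => x.1 + x.2) := by
  have h2 : CT (fun n : ℕ => (List.replicate n (), ())) (fun n => n) := by
    have a1 : CT (fun l : List Unit => (l, ())) (fun l => size l) := p07_input ()
    refine ((a1.comp ct_units).mono 2 (fun n => ?_)).congr (fun _ => rfl)
    show 0 + size (List.replicate n ()) ≤ 2 * (n + 1)
    rw [p07_size_units]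
    omega
  have hf : CT (fun _ : Unit => true) (fun _ => 0) := CT.fin _
  have hg : CT (fun _ : (Unit × List Unit) × Unit => false) (fun x => size x) := CT.const false
  have h3 := CT.lcase hf hg
  refine ((h3.comp (h2.comp ct_sub)).mono 10 (fun x => ?_)).congr (fun x => ?_)
  · obtain ⟨n, m⟩ := x
    have h4 : n - m ≤ n := Nat.sub_le _ _
    rcases hk : n - m with _ | k
    · simp only [hk, List.replicate_zero]
      omega
    · simp only [hk, List.replicate_succ]
      rw [size_prod, size_prod]
      simp only
      rw [p07_size_units]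
      have : size () = 1 := rfl
      omega
  · obtain ⟨n, m⟩ := x
    rcases hk : n - m with _ | k
    · simp only [hk, List.replicate_zero]
      symm
      simp only [decide_eq_true_eq]
      omega
    · simp only [hk, List.replicate_succ]
      symm
      simp only [decide_eq_false_iff_not]
      omega

theorem ct_range : CT (fun n : ℕ => List.range n) (fun n => (n + 1) ^ 2) := by
  have hstep : CT (fun x : Unit × (ℕ × List ℕ) => (x.2.1 + 1, x.2.1 :: x.2.2))
      (fun x => x.2.1) := by
    have a0 : CT (fun x : Unit × (ℕ × List ℕ) => x.2) (fun x => size x.1) := CT.snd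
    have a1 : CT (fun x : ℕ × List ℕ => ((x.1, x.1), x.2)) (fun x => size x.1) :=
      CT.first CT.dup
    have a2 : CT (fun x : (ℕ × ℕ) × List ℕ => (x.1.1, (x.1.2, x.2))) (fun x => size x.1.1) :=
      CT.assocR
    have a3 : CT (fun x : ℕ × (ℕ × List ℕ) => (x.1, x.2.1 :: x.2.2)) (fun _ => 0) :=
      CT.of_enc_eq (fun _ => rfl)
    have a4 : CT (fun x : ℕ × List ℕ => (x.1 + 1, x.2)) (fun _ => 0) := CT.first ct_succ
    refine ((a4.comp (a3.comp (a2.comp (a1.comp a0)))).mono 5 (fun x => ?_)).congr (fun _ => rfl)
    show size x.1 + size x.2.1 + size x.2.1 + 0 + 0 ≤ 5 * (x.2.1 + 1)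
    rw [size_nat]
    have : size x.1 = 1 := rfl
    omega
  have hfold := CT.foldl hstep
  have hin : CT (fun n : ℕ => (List.replicate n (), ((0 : ℕ), ([] : List ℕ)))) (fun n => n) := by
    have a1 : CT (fun l : List Unit => (l, ((0 : ℕ), ([] : List ℕ)))) (fun l => size l) :=
      p07_input _
    refine ((a1.comp ct_units).mono 2 (fun n => ?_)).congr (fun _ => rfl)
    show 0 + size (List.replicate n ()) ≤ 2 * (n + 1)
    rw [p07_size_units]
    omega
  have hout : CT (fun x : ℕ × List ℕ => x.2.reverse) (fun x => size x.1 + size x.2) := by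
    have a1 : CT (fun x : ℕ × List ℕ => x.2) (fun x => size x.1) := CT.snd
    refine ((CT.reverse.comp a1).mono 1 (fun x => ?_)).congr (fun _ => rfl)
    show size x.1 + size x.2 ≤ 1 * (size x.1 + size x.2 + 1)
    omega
  have key : ∀ (n i : ℕ) (acc : List ℕ),
      (List.replicate n ()).foldl (fun (s : ℕ × List ℕ) _ => (s.1 + 1, s.1 :: s.2)) (i, acc) =
      (i + n, (List.range' i n).reverse ++ acc) := by
    intro n
    induction n with
    | zero => intro i acc; simp
    | succ n ih =>
      intro i acc
      rw [List.replicate_succ, List.foldl_cons, ih, List.range'_succ]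
      simp
      omega
  have hcost : ∀ (n i : ℕ) (acc : List ℕ),
      foldCost (fun x : Unit × (ℕ × List ℕ) => x.2.1)
        (fun x => (x.2.1 + 1, x.2.1 :: x.2.2)) (List.replicate n ()) (i, acc) ≤ n * (i + n) := by
    intro n
    induction n with
    | zero => intro i acc; simp [foldCost]
    | succ n ih =>
      intro i acc
      rw [List.replicate_succ]
      have := ih (i + 1) (i :: acc)
      simp only [foldCost]
      have e : (n + 1) * (i + (n + 1)) = n * (i + 1 + n) + i + (n + 1) := by ring
      omega
  refine ((hout.comp (hfold.comp hin)).mono 10 (fun n => ?_)).congr (fun n => ?_)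
  · show n + (size (List.replicate n ()) + foldCost (fun x : Unit × (ℕ × List ℕ) => x.2.1)
        (fun x => (x.2.1 + 1, x.2.1 :: x.2.2)) (List.replicate n ()) (0, [])) +
      (size ((List.replicate n ()).foldl (fun (s : ℕ × List ℕ) _ => (s.1 + 1, s.1 :: s.2))
        (0, [])).1 + size ((List.replicate n ()).foldl (fun (s : ℕ × List ℕ) _ =>
          (s.1 + 1, s.1 :: s.2)) (0, [])).2) ≤ 10 * ((n + 1) ^ 2 + 1)
    rw [key, p07_size_units]
    have h5 := hcost n 0 []
    have h6 : size (List.range' 0 n) ≤ (2 * n + 1 + 1) * (n + 1) := by
      have := size_list_le_of (2 * n + 1) (List.range' 0 n) (fun a ha => by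
        rw [size_nat]
        have := List.mem_range'_1.1 ha
        omega)
      rwa [List.length_range'] at this
    simp only [List.append_nil, size_reverse, size_nat]
    have e1 : (2 * n + 1 + 1) * (n + 1) = 2 * n ^ 2 + 4 * n + 2 := by ring
    have e2 : (n + 1) ^ 2 = n ^ 2 + 2 * n + 1 := by ring
    have e3 : n * (0 + n) = n ^ 2 := by ring
    rw [e1] at h6
    rw [e3] at h5
    rw [e2]
    omega
  · show ((List.replicate n ()).foldl (fun (s : ℕ × List ℕ) _ => (s.1 + 1, s.1 :: s.2))
      (0, [])).2.reverse = List.range n
    rw [key, List.append_nil, List.reverse_reverse, List.range_eq_range']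

end Pool.Agent.WPR
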