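import Pool.Agent.Lib.MP_2da099_lc.R2.P02
import Pool.Agent.Lib.MP_2da099_lc.R2.P05
import Pool.Agent.Lib.MP_2da099_lc.R2.P07
import Pool.Agent.Lib.MP_2da099_lc.C09

/-!
# P10: quadratic time

HINTS.  `quad_of_ct`: `T` is a bound, `CT.mono`.  `Quad.and`: `CT.pair`, then `and` (`CT.fin`), costs
`size w = O(n + 1)` (`size_list_fin`).  `quad_forall`: induction on `m` (`Fin.forall_fin_succ`).
`Quad.comp`: `CT.comp`.  `quad_of_clock`: let `C₀, g` be from `ct_clock hf`; the length of the clock is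
`C₀ * (C * (n + 1) ^ 2 + 1)`, it is computed in time `O((n+1)^2)` with `ct_length`, `ct_succ`, `ct_mul`,
`ct_units`; then `g (clock, w)`, and the answer is `decide (g (clock, w) = some true)` (`CT.fin` on
`Option Bool`).  If `Z w` then `T w` is small, so `g = some (f w) = some true`.  If the answer is `true` then
`g = some (f w)` and `f w = true`.

-/

set_option autoImplicit false

namespace Pool.Agent.WPR

open Pool.Agent.Lib.PolyTime Pool.Agent.WPM Function

variable {ι ι' : Type} [Enc ι] [Finite ι] [Enc ι'] [Finite ι']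

theorem quad_of_ct {f : List ι → Bool} {T : List ι → ℕ} (hf : CT f T) (C : ℕ)
    (hT : ∀ w, T w ≤ C * (w.length + 1) ^ 2) : Quad (fun w => f w = true) :=
  ⟨f, T, C, hf, fun _ => Iff.rfl, hT⟩

theorem Quad.congr {Z Z' : List ι → Prop} (h : Quad Z) (e : ∀ w, Z w ↔ Z' w) : Quad Z' := by
  obtain ⟨f, T, C, h1, h2, h3⟩ := h
  exact ⟨f, T, C, h1, fun w => (h2 w).trans (e w), h3⟩

theorem p10_lin_le_sq (κ n : ℕ) : κ * (n + 1) ≤ κ * (n + 1) ^ 2 := by
  refine Nat.mul_le_mul_left _ ?_
  exact Nat.le_self_pow (by norm_num) _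

theorem quad_true : Quad (fun _ : List ι => True) := by
  obtain ⟨κ, hκ⟩ := size_list_fin ι
  exact ⟨fun _ => true, _, κ, CT.const true, fun w => by simp, fun w =>
    (hκ w).trans (p10_lin_le_sq _ _)⟩

theorem Quad.and {Z Z' : List ι → Prop} (h : Quad Z) (h' : Quad Z') :
    Quad (fun w => Z w ∧ Z' w) := by
  obtain ⟨f, T, C, h1, h2, h3⟩ := h
  obtain ⟨f', T', C', h1', h2', h3'⟩ := h'
  obtain ⟨κ, hκ⟩ := size_list_fin ι
  have hp : CT (fun w => (f w, f' w)) (fun w => size w + T w + T' w) := CT.pair h1 h1'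
  have hc : CT (fun x : Bool × Bool => x.1 && x.2) (fun _ => 0) := CT.fin _
  have := hc.comp hp
  refine ⟨fun w => f w && f' w, _, κ + C + C', this, fun w => ?_, fun w => ?_⟩
  · show (f w && f' w) = true ↔ _
    rw [Bool.and_eq_true, h2 w, h2' w]
  · have a1 := (hκ w).trans (p10_lin_le_sq κ w.length)
    have a2 := h3 w
    have a3 := h3' w
    show size w + T w + T' w + 0 ≤ (κ + C + C') * (w.length + 1) ^ 2
    have e : (κ + C + C') * (w.length + 1) ^ 2 = κ * (w.length + 1) ^ 2 +
      C * (w.length + 1) ^ 2 + C' * (w.length + 1) ^ 2 := by ring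
    omega

theorem quad_forall (m : ℕ) (Z : Fin m → List ι → Prop) (h : ∀ i, Quad (Z i)) :
    Quad (fun w => ∀ i, Z i w) := by
  induction m with
  | zero => exact quad_true.congr (fun w => ⟨fun _ i => i.elim0, fun _ => trivial⟩)
  | succ m ih =>
    have h1 := ih (fun i => Z i.succ) (fun i => h i.succ)
    exact ((h 0).and h1).congr (fun w => (Fin.forall_fin_succ (P := fun i => Z i w)).symm)

theorem Quad.comp {Z : List ι → Prop} (h : Quad Z) {f : List ι' → List ι} (C : ℕ)
    (hf : CT f (fun w => (w.length + 1) ^ 2)) (hl : ∀ w, (f w).length ≤ C * (w.length + 1)) :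
    Quad (fun w => Z (f w)) := by
  obtain ⟨f₀, T, C₀, h1, h2, h3⟩ := h
  refine ⟨fun w => f₀ (f w), _, 1 + C₀ * (C + 1) ^ 2, h1.comp hf, fun w => h2 (f w), fun w => ?_⟩
  have a1 := h3 (f w)
  have a2 := hl w
  have a3 : ((f w).length + 1) ^ 2 ≤ ((C + 1) * (w.length + 1)) ^ 2 := by
    refine Nat.pow_le_pow_left ?_ 2
    have e : (C + 1) * (w.length + 1) = C * (w.length + 1) + (w.length + 1) := by ring
    omega
  have a4 : C₀ * ((f w).length + 1) ^ 2 ≤ C₀ * ((C + 1) * (w.length + 1)) ^ 2 :=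
    Nat.mul_le_mul_left _ a3
  show (w.length + 1) ^ 2 + T (f w) ≤ (1 + C₀ * (C + 1) ^ 2) * (w.length + 1) ^ 2
  have e : (1 + C₀ * (C + 1) ^ 2) * (w.length + 1) ^ 2 = (w.length + 1) ^ 2 +
    C₀ * ((C + 1) * (w.length + 1)) ^ 2 := by ring
  omega

theorem Quad.flatMap {Z : List ι → Prop} (h : Quad Z) (g : ι' → List ι) :
    Quad (fun w => Z (w.flatMap g)) := by
  obtain ⟨κ, hκ⟩ : ∃ κ : ℕ, ∀ i, (g i).length ≤ κ := by
    classical
    let _ := Fintype.ofFinite ι'
    exact ⟨Finset.univ.sup (fun i : ι' => (g i).length), fun i =>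
      Finset.le_sup (f := fun i : ι' => (g i).length) (Finset.mem_univ i)⟩
  have hf : CT (fun w : List ι' => w.flatMap g) (fun w => (w.length + 1) ^ 2) := by
    refine (ct_flatMapFin g).mono 1 (fun w => ?_)
    show w.length ≤ 1 * ((w.length + 1) ^ 2 + 1)
    have : w.length + 1 ≤ (w.length + 1) ^ 2 := Nat.le_self_pow (by norm_num) _
    omega
  refine h.comp κ hf (fun w => ?_)
  have : ∀ w : List ι', (w.flatMap g).length ≤ κ * w.length := by
    intro w
    induction w with
    | nil => simp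
    | cons a w ih =>
      rw [List.flatMap_cons, List.length_append, List.length_cons]
      have := hκ a
      have e : κ * (w.length + 1) = κ * w.length + κ := by ring
      omega
  exact (this w).trans (Nat.mul_le_mul_left _ (Nat.le_succ _))

/-- the length of the clock -/
def p10_len (C₀ C n : ℕ) : ℕ := C₀ * (C * ((n + 1) * (n + 1)) + 1)

theorem p10_clock (C₀ C : ℕ) :
    CT (fun w : List ι => List.replicate (p10_len C₀ C w.length) ())
      (fun w => (w.length + 1) ^ 2) := by
  obtain ⟨κ, hκ⟩ := size_list_fin ι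
  have h0 : CT (fun w : List ι => w.length + 1) (fun w => size w) :=
    ((ct_succ.comp (ct_length (α := ι))).mono 1 (fun w => by
      show size w + 0 ≤ 1 * (size w + 1)
      omega))
  have h1 : CT (fun w : List ι => (w.length + 1, w.length + 1)) _ := CT.pair h0 h0
  have h2 : CT (fun w : List ι => (w.length + 1) * (w.length + 1)) _ := ct_mul.comp h1
  have h3 : CT (fun w : List ι => C * ((w.length + 1) * (w.length + 1))) _ :=
    ct_mul.comp ((CT.pushConst C).comp h2)
  have h4 : CT (fun w : List ι => C₀ * (C * ((w.length + 1) * (w.length + 1)) + 1)) _ :=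
    ct_mul.comp ((CT.pushConst C₀).comp (ct_succ.comp h3))
  have h5 := ct_units.comp h4
  refine h5.mono (3 * κ + 4 + (C + 1) * 2 + (C₀ + 1) * (C + 2)) (fun w => ?_)
  have a1 := (hκ w).trans (p10_lin_le_sq κ w.length)
  obtain ⟨N, hN⟩ : ∃ N, N = (w.length + 1) ^ 2 := ⟨_, rfl⟩
  have hN1 : (w.length + 1) * (w.length + 1) = N := by rw [hN]; ring
  have hN0 : 1 ≤ N := by rw [hN]; exact Nat.one_le_pow _ _ (Nat.succ_pos _)
  have a2 : (w.length + 1 + 1) * (w.length + 1 + 1) ≤ 4 * N := by
    rw [hN]; nlinarith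
  show size w + size w + size w + (w.length + 1 + 1) * (w.length + 1 + 1) +
    0 + (C + 1) * ((w.length + 1) * (w.length + 1) + 1) + 0 + 0 +
    (C₀ + 1) * (C * ((w.length + 1) * (w.length + 1)) + 1 + 1) + 0 ≤
    (3 * κ + 4 + (C + 1) * 2 + (C₀ + 1) * (C + 2)) * ((w.length + 1) ^ 2 + 1)
  rw [← hN] at a1 ⊢
  rw [hN1]
  have a3 : (C + 1) * (N + 1) ≤ (C + 1) * 2 * N := by
    rw [Nat.mul_assoc]
    exact Nat.mul_le_mul_left _ (by omega)
  have a4 : (C₀ + 1) * (C * N + 1 + 1) ≤ (C₀ + 1) * (C + 2) * N := by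
    rw [Nat.mul_assoc]
    refine Nat.mul_le_mul_left _ ?_
    rw [Nat.add_mul]
    omega
  have e : (3 * κ + 4 + (C + 1) * 2 + (C₀ + 1) * (C + 2)) * (N + 1) = 3 * (κ * N) + 4 * N +
    (C + 1) * 2 * N + (C₀ + 1) * (C + 2) * N + (3 * κ + 4 + (C + 1) * 2 + (C₀ + 1) * (C + 2)) := by
    ring
  omega

theorem quad_of_clock {Z : List ι → Prop} {f : List ι → Bool} {T : List ι → ℕ} (hf : CT f T)
    (hZ : ∀ w, f w = true ↔ Z w) (C : ℕ) (hT : ∀ w, Z w → T w ≤ C * (w.length + 1) ^ 2) :
    Quad Z := by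
  obtain ⟨C₀, g, hg, hg1, hg2⟩ := ct_clock hf
  obtain ⟨κ, hκ⟩ := size_list_fin ι
  obtain ⟨κ', hκ'⟩ := size_list_fin Unit
  have h1 : CT (fun w : List ι => (List.replicate (p10_len C₀ C w.length) (), w)) _ :=
    CT.pair (p10_clock C₀ C) (CT.of_enc_eq (f := fun w : List ι => w) (fun _ => rfl))
  have h2 := hg.comp h1
  have h3 : CT (fun x : Option Bool => decide (x = some true)) (fun _ => 0) := CT.fin _
  refine ⟨_, _, κ + 1 + (κ' * (C₀ * (C + 1) + 1)) + κ, h3.comp h2, fun w => ?_, fun w => ?_⟩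
  · show decide (g (List.replicate (p10_len C₀ C w.length) (), w) = some true) = true ↔ Z w
    rw [decide_eq_true_iff]
    constructor
    · intro h
      rcases hg1 (List.replicate (p10_len C₀ C w.length) (), w) with h4 | h4
      · rw [h] at h4; exact absurd h4 (by simp)
      · rw [h] at h4
        have h5 : f w = true := (Option.some_injective _ h4).symm
        exact (hZ w).1 h5
    · intro h
      have h4 := hg2 (List.replicate (p10_len C₀ C w.length) (), w) (by
        show C₀ * (T w + 1) ≤ (List.replicate (p10_len C₀ C w.length) ()).length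
        rw [List.length_replicate]
        unfold p10_len
        refine Nat.mul_le_mul_left _ ?_
        have := hT w h
        have e : (w.length + 1) * (w.length + 1) = (w.length + 1) ^ 2 := by ring
        rw [e]
        omega)
      rw [h4]
      show some (f w) = some true
      rw [(hZ w).2 h]
  · have a1 := (hκ w).trans (p10_lin_le_sq κ w.length)
    have a2 := hκ' (List.replicate (p10_len C₀ C w.length) ())
    rw [List.length_replicate] at a2
    obtain ⟨N, hN⟩ : ∃ N, N = (w.length + 1) ^ 2 := ⟨_, rfl⟩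
    have hN1 : (w.length + 1) * (w.length + 1) = N := by rw [hN]; ring
    have hN0 : 1 ≤ N := by rw [hN]; exact Nat.one_le_pow _ _ (Nat.succ_pos _)
    show size w + (w.length + 1) ^ 2 + 0 +
      (size (List.replicate (p10_len C₀ C w.length) ()) + size w) + 0 ≤ _
    rw [← hN] at a1 ⊢
    have a3 : κ' * (p10_len C₀ C w.length + 1) ≤ κ' * (C₀ * (C + 1) + 1) * N := by
      rw [Nat.mul_assoc]
      refine Nat.mul_le_mul_left _ ?_
      unfold p10_len
      rw [hN1]
      have b1 : C₀ * (C * N + 1) ≤ C₀ * (C + 1) * N := by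
        rw [Nat.mul_assoc]
        refine Nat.mul_le_mul_left _ ?_
        rw [Nat.add_mul]
        omega
      rw [Nat.add_mul]
      omega
    have e : (κ + 1 + (κ' * (C₀ * (C + 1) + 1)) + κ) * N = κ * N + N +
      κ' * (C₀ * (C + 1) + 1) * N + κ * N := by ring
    omega

end Pool.Agent.WPR
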