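import Pool.Agent.Lib.MP_2da099_lc.R2.Defs
import Mathlib.Analysis.Complex.Polynomial.Basic
import Mathlib.Analysis.Complex.Circle
import Mathlib.RingTheory.RootsOfUnity.Complex
import Mathlib.Algebra.Field.GeomSum
import Mathlib.Tactic

/-!
# M01: coefficients of factors, one variable

HINTS.  `root_factor`: `P = (X - C α) * B`.  If `‖α‖ ≤ 1`: comparing coefficients from the top,
`B.coeff k = Σ_{i > k} α ^ (i - k - 1) * P.coeff i`; if `‖α‖ ≥ 1`: from the bottom,
`B.coeff k = - Σ_{i ≤ k} α ^ (-(k + 1 - i)) * P.coeff i`.  Prove by induction: (case `‖α‖ ≤ 1`)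
`‖B.coeff k‖ ≤ Σ_{i > k, i ≤ m} ‖P.coeff i‖` by downward induction on `k` from
`P.coeff (k+1) = B.coeff k - α * B.coeff (k+1)`; (case `‖α‖ > 1`) `‖α‖ * ‖B.coeff k‖ ≤ Σ_{i ≤ k} ‖P.coeff i‖` by
upward induction from `P.coeff k = B.coeff (k-1) - α * B.coeff k`.
`factor_bound`: `Q` splits over `ℂ`; induction on the degree of `Q` (take out a root,
`Complex.exists_root`); `natDegree B ≤ m` always, sum over `k ≤ m` of the bounds.
`coeff_le_sup`: for a polynomial `A ∈ ℂ[X]` with `‖A.eval z‖ ≤ B` for all `‖z‖ = 1`: every coefficient is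
`≤ B`: average over the `N`-th roots of unity, `N > deg`:
`A.coeff k = (1/N) Σ_{ζ ^ N = 1} ζ ^ (-k) A(ζ)` (finite geometric sums; `IsPrimitiveRoot` lemmas such as
`IsPrimitiveRoot.geom_sum_eq_zero`), no integrals needed.
-/

set_option autoImplicit false

namespace Pool.Agent.WPR

open Polynomial

theorem m01_coeff_succ (α : ℂ) (B : ℂ[X]) (k : ℕ) :
    ((X - C α) * B).coeff (k + 1) = B.coeff k - α * B.coeff (k + 1) := by
  rw [sub_mul, coeff_sub, coeff_X_mul, coeff_C_mul]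

theorem m01_coeff_zero (α : ℂ) (B : ℂ[X]) :
    ((X - C α) * B).coeff 0 = - (α * B.coeff 0) := by
  rw [sub_mul, coeff_sub, coeff_X_mul_zero, coeff_C_mul, zero_sub]

theorem m01_natDegree (α : ℂ) (B : ℂ[X]) (hB : B ≠ 0) :
    ((X - C α) * B).natDegree = B.natDegree + 1 := by
  rw [natDegree_mul (X_sub_C_ne_zero α) hB, natDegree_X_sub_C, add_comm]

theorem root_factor (α : ℂ) (P B : ℂ[X]) (m : ℕ) (hm : P.natDegree ≤ m)
    (h : P = (X - C α) * B) (k : ℕ) :
    ‖B.coeff k‖ ≤ ∑ i ∈ Finset.range (m + 1), ‖P.coeff i‖ := by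
  have hS : 0 ≤ ∑ i ∈ Finset.range (m + 1), ‖P.coeff i‖ :=
    Finset.sum_nonneg fun _ _ => norm_nonneg _
  by_cases hB : B = 0
  · simp only [hB, coeff_zero, norm_zero]; exact hS
  have hdeg : B.natDegree + 1 ≤ m := by
    rw [← m01_natDegree α B hB, ← h]; exact hm
  by_cases hkm : m ≤ k
  · rw [coeff_eq_zero_of_natDegree_lt (by omega), norm_zero]; exact hS
  push Not at hkm
  by_cases hα : ‖α‖ ≤ 1
  · have key : ∀ j k : ℕ, k + j = m → ‖B.coeff k‖ ≤ ∑ i ∈ Finset.Ico (k + 1) (m + 1), ‖P.coeff i‖ := by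
      intro j
      induction j with
      | zero =>
        intro k hk
        rw [coeff_eq_zero_of_natDegree_lt (by omega), norm_zero]
        exact Finset.sum_nonneg fun _ _ => norm_nonneg _
      | succ j ih =>
        intro k hk
        have h1 := ih (k + 1) (by omega)
        have h2 : B.coeff k = P.coeff (k + 1) + α * B.coeff (k + 1) := by
          rw [h, m01_coeff_succ]; ring
        have h3 : ∑ i ∈ Finset.Ico (k + 1) (m + 1), ‖P.coeff i‖ =
            ‖P.coeff (k + 1)‖ + ∑ i ∈ Finset.Ico (k + 1 + 1) (m + 1), ‖P.coeff i‖ := by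
          rw [Finset.sum_eq_sum_Ico_succ_bot (by omega)]
        rw [h3, h2]
        refine (norm_add_le _ _).trans (add_le_add_right ?_ _)
        rw [norm_mul]
        calc ‖α‖ * ‖B.coeff (k + 1)‖ ≤ 1 * ‖B.coeff (k + 1)‖ :=
              mul_le_mul_of_nonneg_right hα (norm_nonneg _)
          _ = ‖B.coeff (k + 1)‖ := one_mul _
          _ ≤ _ := h1
    refine (key (m - k) k (by omega)).trans ?_
    refine Finset.sum_le_sum_of_subset_of_nonneg ?_ fun _ _ _ => norm_nonneg _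
    intro i hi
    simp only [Finset.mem_Ico, Finset.mem_range] at hi ⊢
    omega
  · push Not at hα
    have key : ∀ k : ℕ, ‖B.coeff k‖ ≤ ∑ i ∈ Finset.range (k + 1), ‖P.coeff i‖ := by
      intro k
      induction k with
      | zero =>
        have h1 : ‖P.coeff 0‖ = ‖α‖ * ‖B.coeff 0‖ := by
          rw [h, m01_coeff_zero, norm_neg, norm_mul]
        rw [Finset.sum_range_one, h1]
        nlinarith [norm_nonneg (B.coeff 0)]
      | succ k ih =>
        have h2 : α * B.coeff (k + 1) = B.coeff k - P.coeff (k + 1) := by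
          rw [h, m01_coeff_succ]; ring
        have h3 : ‖α‖ * ‖B.coeff (k + 1)‖ ≤ ‖B.coeff k‖ + ‖P.coeff (k + 1)‖ := by
          rw [← norm_mul, h2]; exact norm_sub_le _ _
        rw [Finset.sum_range_succ]
        nlinarith [norm_nonneg (B.coeff (k + 1))]
    refine (key k).trans ?_
    refine Finset.sum_le_sum_of_subset_of_nonneg ?_ fun _ _ _ => norm_nonneg _
    intro i hi
    simp only [Finset.mem_range] at hi ⊢
    omega

theorem factor_bound (P Q A : ℂ[X]) (m : ℕ) (hm : P.natDegree ≤ m) (h : P = Q * A) :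
    ‖Q.leadingCoeff‖ * ∑ i ∈ Finset.range (m + 1), ‖A.coeff i‖ ≤
      ((m : ℝ) + 1) ^ Q.natDegree * ∑ i ∈ Finset.range (m + 1), ‖P.coeff i‖ := by
  by_cases hQ0 : Q = 0
  · subst hQ0
    rw [leadingCoeff_zero, norm_zero, zero_mul]
    exact mul_nonneg (by positivity) (Finset.sum_nonneg fun _ _ => norm_nonneg _)
  obtain ⟨n, hn⟩ : ∃ n, Q.natDegree = n := ⟨_, rfl⟩
  rw [hn]
  induction n generalizing P Q with
  | zero =>
    rw [pow_zero, one_mul, Finset.mul_sum]
    refine Finset.sum_le_sum fun i _ => ?_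
    have hQ : Q = C (Q.coeff 0) := eq_C_of_natDegree_eq_zero hn
    have h1 : P.coeff i = Q.leadingCoeff * A.coeff i := by
      rw [h]
      conv_lhs => rw [hQ]
      rw [coeff_C_mul, leadingCoeff, hn]
    rw [h1, norm_mul]
  | succ n ih =>
    obtain ⟨α, hα⟩ := Complex.exists_root (f := Q) (by
      rw [degree_eq_natDegree hQ0, hn]; exact_mod_cast Nat.succ_pos n)
    obtain ⟨Q', hQ'⟩ := dvd_iff_isRoot.mpr hα
    have hQ'0 : Q' ≠ 0 := by
      rintro rfl; rw [mul_zero] at hQ'; exact hQ0 hQ'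
    have hdeg : Q'.natDegree = n := by
      have := m01_natDegree α Q' hQ'0
      rw [← hQ', hn] at this; omega
    have hlc : Q.leadingCoeff = Q'.leadingCoeff := by
      rw [hQ', leadingCoeff_mul, leadingCoeff_X_sub_C, one_mul]
    have hP : P = (X - C α) * (Q' * A) := by rw [h, hQ', mul_assoc]
    have hB : (Q' * A).natDegree ≤ m := by
      by_cases h0 : Q' * A = 0
      · rw [h0, natDegree_zero]; exact Nat.zero_le _
      · have := m01_natDegree α (Q' * A) h0
        rw [← hP] at this; omega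
    have h1 := ih (Q' * A) Q' hB rfl hQ'0 hdeg
    rw [hlc]
    refine h1.trans ?_
    have h2 : ∑ i ∈ Finset.range (m + 1), ‖(Q' * A).coeff i‖ ≤
        ((m : ℝ) + 1) * ∑ i ∈ Finset.range (m + 1), ‖P.coeff i‖ := by
      refine (Finset.sum_le_card_nsmul _ _ _ fun i _ => root_factor α P (Q' * A) m hm hP i).trans ?_
      rw [Finset.card_range, nsmul_eq_mul]
      push_cast
      exact le_rfl
    rw [pow_succ, mul_assoc]
    exact mul_le_mul_of_nonneg_left h2 (by positivity)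

theorem coeff_le_sup (A : ℂ[X]) (B : ℝ) (h : ∀ z : ℂ, ‖z‖ = 1 → ‖A.eval z‖ ≤ B) (k : ℕ) :
    ‖A.coeff k‖ ≤ B := by
  obtain ⟨N, hN⟩ : ∃ N, N = A.natDegree + k + 1 := ⟨_, rfl⟩
  have hN0 : N ≠ 0 := by omega
  obtain ⟨ζ, hζ⟩ : ∃ ζ : ℂ, IsPrimitiveRoot ζ N := ⟨_, Complex.isPrimitiveRoot_exp N hN0⟩
  have hζ0 : ζ ≠ 0 := hζ.ne_zero hN0
  have hζn : ‖ζ‖ = 1 := hζ.norm'_eq_one hN0
  have hsum : ∑ j ∈ Finset.range N, ((ζ ^ k)⁻¹) ^ j * A.eval (ζ ^ j) = N * A.coeff k := by
    have h1 : ∀ j ∈ Finset.range N, ((ζ ^ k)⁻¹) ^ j * A.eval (ζ ^ j) =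
        ∑ i ∈ Finset.range N, A.coeff i * (ζ ^ i * (ζ ^ k)⁻¹) ^ j := by
      intro j _
      rw [eval_eq_sum_range' (n := N) (by omega), Finset.mul_sum]
      refine Finset.sum_congr rfl fun i _ => ?_
      rw [mul_pow, ← pow_mul, ← pow_mul, mul_comm i j]
      ring
    rw [Finset.sum_congr rfl h1, Finset.sum_comm]
    rw [Finset.sum_eq_single k]
    · rw [← Finset.mul_sum, mul_inv_cancel₀ (pow_ne_zero _ hζ0)]
      simp [mul_comm]
    · intro i hi hik
      rw [← Finset.mul_sum]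
      have hw : ζ ^ i * (ζ ^ k)⁻¹ ≠ 1 := by
        intro hw
        have h2 : ζ ^ i = ζ ^ k := by
          field_simp at hw; exact hw
        exact hik (hζ.pow_inj (Finset.mem_range.mp hi) (by omega) h2)
      have hwN : (ζ ^ i * (ζ ^ k)⁻¹) ^ N = 1 := by
        rw [mul_pow, inv_pow, ← pow_mul, ← pow_mul, mul_comm i, mul_comm k, pow_mul, pow_mul,
          hζ.pow_eq_one]
        simp
      rw [geom_sum_eq hw, hwN, sub_self, zero_div, mul_zero]
    · intro hk
      exact absurd (Finset.mem_range.mpr (by omega)) hk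
  have h3 : ‖∑ j ∈ Finset.range N, ((ζ ^ k)⁻¹) ^ j * A.eval (ζ ^ j)‖ ≤ N * B := by
    refine (norm_sum_le_of_le _ (f := fun j => ((ζ ^ k)⁻¹) ^ j * A.eval (ζ ^ j)) (n := fun _ => B) ?_).trans ?_
    · intro j _
      rw [norm_mul, norm_pow, norm_inv, norm_pow, hζn, one_pow, inv_one, one_pow, one_mul]
      exact h _ (by rw [norm_pow, hζn, one_pow])
    · rw [Finset.sum_const, Finset.card_range, nsmul_eq_mul]
  rw [hsum, norm_mul, Complex.norm_natCast] at h3
  have hNpos : (0 : ℝ) < N := by exact_mod_cast Nat.pos_of_ne_zero hN0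
  exact le_of_mul_le_mul_left h3 hNpos

end Pool.Agent.WPR
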