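import Pool.Agent.Lib.MP_2da099_lc.R2.Defs
import Pool.Agent.Lib.MP_2da099_lc.C09
import Mathlib.Data.Nat.Log

/-!
# N01: sizes of integers in base `β`

HINTS.  `zdig β x` is a sign and the list of the base `β` digits of `n` for `x = n` or `x = -(n + 1)`.  The
number of digits of `n` is at most `k + 1` if `n < β ^ (k + 1)` (`Nat.digits_lt_base_pow_iff`,
`Nat.digits_len`), every digit has bounded size (`size_fin`), `size_list_le_of`.
`size_zb_log`: take `k = Nat.log 2 (natAbs x) + 1`.  `size_zb_zero` is a corollary (a constant).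
-/

set_option autoImplicit false

namespace Pool.Agent.WPR

open Pool.Agent.Lib.PolyTime Pool.Agent.WPM Function

theorem n01_len (β : ℕ) [hβ : Fact (2 ≤ β)] (x : ZB β) (k : ℕ) (h : x.val.natAbs ≤ β ^ k) :
    (zdig β x).2.length ≤ k + 1 := by
  have hβ1 : 1 < β := lt_of_lt_of_le Nat.one_lt_two hβ.out
  have key : ∀ n : ℕ, n ≤ β ^ k → (Nat.digits β n).length ≤ k + 1 := by
    intro n hn
    rw [Nat.digits_length_le_iff hβ1]
    exact lt_of_le_of_lt hn (Nat.pow_lt_pow_right hβ1 (Nat.lt_succ_self k))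
  cases x with
  | ofNat n =>
    have h' : n ≤ β ^ k := h
    simp only [zdig, List.length_map]
    exact key n h'
  | negSucc n =>
    have h' : n + 1 ≤ β ^ k := h
    simp only [zdig, List.length_map]
    exact key n (by omega)

theorem size_zb_le (β : ℕ) [Fact (2 ≤ β)] : ∃ C : ℕ, ∀ (x : ZB β) (k : ℕ),
    x.val.natAbs ≤ β ^ k → size x ≤ C * (k + 1) := by
  obtain ⟨κ, hκ⟩ := size_list_fin (Fin β)
  obtain ⟨κ', hκ'⟩ := size_fin Bool
  refine ⟨2 * κ + κ' + 1, fun x k h => ?_⟩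
  have h1 : size x = size (zdig β x) := rfl
  have h2 := n01_len β x k h
  have h3 := hκ (zdig β x).2
  have h4 := hκ' (zdig β x).1
  rw [h1, size_prod]
  have h5 : κ * ((zdig β x).2.length + 1) ≤ κ * (k + 2) := Nat.mul_le_mul_left _ (by omega)
  have e : (2 * κ + κ' + 1) * (k + 1) = κ * (k + 2) + κ * k + κ' * k + κ' + k + 1 := by ring
  omega

theorem size_zb_log (β : ℕ) [Fact (2 ≤ β)] : ∃ C : ℕ, ∀ x : ZB β,
    size x ≤ C * (Nat.log 2 x.val.natAbs + 1) := by
  obtain ⟨C, hC⟩ := size_zb_le β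
  refine ⟨2 * C, fun x => ?_⟩
  have h1 : x.val.natAbs ≤ β ^ (Nat.log 2 x.val.natAbs + 1) :=
    (Nat.lt_pow_succ_log_self Nat.one_lt_two _).le.trans
      (Nat.pow_le_pow_left (Fact.out (p := 2 ≤ β)) _)
  have h2 := hC x _ h1
  have e : 2 * C * (Nat.log 2 x.val.natAbs + 1) = C * (Nat.log 2 x.val.natAbs + 1 + 1) +
      C * Nat.log 2 x.val.natAbs := by ring
  omega

/-- Lists of small numbers. -/
theorem size_zblist_le (β : ℕ) [Fact (2 ≤ β)] : ∃ C : ℕ, ∀ (l : List (ZB β)) (k : ℕ),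
    (∀ x ∈ l, x.val.natAbs ≤ β ^ k) → size l ≤ C * (l.length + 1) * (k + 1) := by
  obtain ⟨C, hC⟩ := size_zb_le β
  refine ⟨C + 1, fun l k h => ?_⟩
  have h1 := size_list_le_of (C * (k + 1)) l (fun x hx => hC x k (h x hx))
  refine h1.trans ?_
  have e : (C + 1) * (l.length + 1) * (k + 1) = (C * (k + 1) + 1) * (l.length + 1) +
      (l.length + 1) * k := by ring
  omega

end Pool.Agent.WPR
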