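import Pool.Agent.Lib.MP_2da099_lc.R2.N03

/-!
# N04: test for zero, division by the base

HINTS.  `ct_zbzero`: `x = 0` iff `zdig β x = (false, [])`.  `ct_zbdiv`: floor division by `β` is dropping the
lowest signed digit: for `x = n`: `n / β`; for `x = -(n + 1)`: `-(n + 1) / β = -(n / β + 1)` (floor division,
`Int.ediv`), so in both cases `zdig (x / β)` is `zdig x` without the first digit (`Nat.digits` of `n / β` is
the tail).  `β ∣ x` iff `x = 0` or the first digit is `0` (nonnegative) resp. `β - 1` (negative), so it is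
decided by the sign and the head (`CT.lcase`, `CT.fin`).  `ct_zbdivlc`: if `|lc| ≥ 2` then `β = |lc|`, and
`x / lc = ± (x / β)`, the sign by `ct_zbsmul (-1)`; if `|lc| = 1` then every `x` is divisible.
`ct_zbpow`: the digits of `β ^ n` are `n` zeros and a one.
-/

set_option autoImplicit false

namespace Pool.Agent.WPR

open Pool.Agent.Lib.PolyTime Pool.Agent.WPM Function

section basics

variable {α β γ : Type} [Enc α] [Enc β] [Enc γ]

theorem n04_some : n03_LT (fun a : α => some a) := by
  have h1 : n03_LT (fun x : α × Unit => some x.1) :=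
    n03_of 0 (CT.of_enc_eq (fun _ => rfl)) (fun _ => Nat.zero_le _)
  exact n03_comp2 (h := fun x : α × Unit => some x.1) h1 n03_id (n03_const ())

theorem n04_tail : n03_LT (fun l : List α => l.tail) := by
  have h1 : n03_LT (fun x : (α × List α) × Unit => x.1.2) :=
    n03_comp (g := fun x : α × List α => x.2) n03_snd n03_fst
  have h2 : CT (fun x : List α × Unit => match x.1 with
      | [] => ([] : List α)
      | _ :: l => l) (fun x => match x.1 with
      | [] => size x.2
      | a :: l => size ((a, l), x.2)) :=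
    CT.lcase (f := fun _ : Unit => ([] : List α)) (g := fun x : (α × List α) × Unit => x.1.2)
      (n03_const _) h1
  have h3 : n03_LT (fun x : List α × Unit => match x.1 with
      | [] => ([] : List α)
      | _ :: l => l) := by
    refine n03_of 2 h2 (fun x => ?_)
    rcases x with ⟨_ | ⟨a, l⟩, u⟩
    · simp only [size_prod, size_nil]
      omega
    · simp only [size_prod, size_cons]
      omega
  refine CT.congr (n03_comp2 (h := fun x : List α × Unit => match x.1 with
      | [] => ([] : List α)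
      | _ :: l => l) h3 n03_id (n03_const ())) (fun l => ?_)
  cases l <;> rfl

theorem n04_isEmpty [Finite α] : n03_LT (fun l : List α => l.isEmpty) := by
  refine CT.congr (n03_foldl (fun (_ : Bool) (_ : α) => false) true) (fun l => ?_)
  cases l with
  | nil => rfl
  | cons a l =>
    rw [List.foldl_cons]
    have : ∀ l : List α, l.foldl (fun (_ : Bool) (_ : α) => false) false = false := by
      intro l
      induction l with
      | nil => rfl
      | cons b l ih => rw [List.foldl_cons, ih]
    rw [this]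
    rfl

theorem n04_head [Finite α] : n03_LT (fun l : List α => l.head?) := by
  refine CT.congr (n03_foldl (fun (s : Option α) (a : α) => s.or (some a)) none) (fun l => ?_)
  cases l with
  | nil => rfl
  | cons a l =>
    rw [List.foldl_cons]
    have : ∀ l : List α, l.foldl (fun (s : Option α) (a : α) => s.or (some a)) (some a) =
        some a := by
      intro l
      induction l with
      | nil => rfl
      | cons b l ih => rw [List.foldl_cons]; exact ih
    exact this l

end basics

section num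

variable (β : ℕ) [hβ : Fact (2 ≤ β)]

/-- the digits as elements of `Fin β` -/
def n04_dg (n : ℕ) : List (Fin β) := (Nat.digits β n).map
      (fun d => ⟨d % β, Nat.mod_lt _ (lt_of_lt_of_le Nat.two_pos hβ.out)⟩)

theorem n04_dg_zero : n04_dg β 0 = [] := by simp [n04_dg]

theorem n04_dg_pos {n : ℕ} (hn : 0 < n) : n04_dg β n =
    ⟨n % β, Nat.mod_lt _ (lt_of_lt_of_le Nat.two_pos hβ.out)⟩ :: n04_dg β (n / β) := by
  have h := hβ.out
  unfold n04_dg
  rw [Nat.digits_def' (by omega) hn, List.map_cons]
  congr 1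
  apply Fin.ext
  simp

theorem n04_dg_tail (n : ℕ) : (n04_dg β n).tail = n04_dg β (n / β) := by
  rcases Nat.eq_zero_or_pos n with rfl | hn
  · rw [Nat.zero_div, n04_dg_zero]
    rfl
  · rw [n04_dg_pos β hn]
    rfl

theorem n04_zdig_nat (n : ℕ) : zdig β (n : ℤ) = (false, n04_dg β n) := rfl

theorem n04_zdig_neg (n : ℕ) : zdig β (Int.negSucc n) = (true, n04_dg β n) := rfl

theorem n04_zdig_zero_iff (x : ℤ) :
    (!(zdig β x).1 && (zdig β x).2.isEmpty) = decide (x = 0) := by
  cases x with
  | ofNat n =>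
    have h1 : zdig β (Int.ofNat n) = (false, n04_dg β n) := rfl
    rw [h1]
    rcases Nat.eq_zero_or_pos n with rfl | hn
    · rw [n04_dg_zero]; rfl
    · rw [n04_dg_pos β hn]
      simp
      omega
  | negSucc n =>
    rw [n04_zdig_neg]
    simp

theorem n04_zdig_div (x : ℤ) : zdig β (x / (β : ℤ)) = ((zdig β x).1, (zdig β x).2.tail) := by
  have h := hβ.out
  cases x with
  | ofNat n =>
    have h1 : zdig β (Int.ofNat n) = (false, n04_dg β n) := rfl
    have h2 : (Int.ofNat n) / (β : ℤ) = ((n / β : ℕ) : ℤ) := rfl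
    rw [h1, h2, n04_zdig_nat, n04_dg_tail]
  | negSucc n =>
    have h2 : (Int.negSucc n) / (β : ℤ) = Int.negSucc (n / β) := by
      obtain ⟨b, rfl⟩ : ∃ b, β = b + 1 := ⟨β - 1, by omega⟩
      rfl
    rw [h2, n04_zdig_neg, n04_zdig_neg, n04_dg_tail]

/-- divisibility read off the sign and the first digit -/
def n04_dv (x : Bool × Option (Fin β)) : Bool :=
  if x.1 then (match x.2 with
    | none => false
    | some d => decide (d.val + 1 = β)) else (match x.2 with
    | none => true
    | some d => decide (d.val = 0))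

theorem n04_dv_eq (x : ℤ) : n04_dv β ((zdig β x).1, (zdig β x).2.head?) = decide ((β : ℤ) ∣ x) := by
  have h := hβ.out
  cases x with
  | ofNat n =>
    have h1 : zdig β (Int.ofNat n) = (false, n04_dg β n) := rfl
    rw [h1]
    have h3 : ((β : ℤ) ∣ Int.ofNat n) ↔ n % β = 0 := by
      show ((β : ℤ) ∣ (n : ℤ)) ↔ n % β = 0
      rw [Int.natCast_dvd_natCast, Nat.dvd_iff_mod_eq_zero]
    rw [Bool.eq_iff_iff, decide_eq_true_iff, h3]
    rcases Nat.eq_zero_or_pos n with rfl | hn
    · rw [n04_dg_zero]; simp [n04_dv]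
    · rw [n04_dg_pos β hn]
      simp [n04_dv]
  | negSucc n =>
    rw [n04_zdig_neg]
    have h3 : ((β : ℤ) ∣ Int.negSucc n) ↔ (n + 1) % β = 0 := by
      rw [Int.negSucc_eq, dvd_neg]
      have : ((n : ℤ) + 1) = ((n + 1 : ℕ) : ℤ) := by push_cast; rfl
      rw [this, Int.natCast_dvd_natCast, Nat.dvd_iff_mod_eq_zero]
    rw [Bool.eq_iff_iff, decide_eq_true_iff, h3]
    rcases Nat.eq_zero_or_pos n with rfl | hn
    · rw [n04_dg_zero]
      have h4 : (0 + 1) % β = 1 := Nat.mod_eq_of_lt (by omega)
      rw [h4]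
      simp [n04_dv]
    · rw [n04_dg_pos β hn]
      simp only [n04_dv, List.head?_cons, if_true]
      rw [decide_eq_true_iff]
      have h5 := Nat.mod_lt n (show 0 < β by omega)
      have h6 := Nat.add_mod n 1 β
      have h7 : 1 % β = 1 := Nat.mod_eq_of_lt (by omega)
      rw [h7] at h6
      constructor
      · intro h8
        rw [h6, h8, Nat.mod_self]
      · intro h8
        rw [h6] at h8
        by_contra h9
        rw [Nat.mod_eq_of_lt (by omega)] at h8
        omega

theorem n04_dg_pow (n : ℕ) : n04_dg β (β ^ n) =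
    List.replicate n (⟨0, lt_of_lt_of_le Nat.two_pos hβ.out⟩ : Fin β) ++
      [⟨1, lt_of_lt_of_le Nat.one_lt_two hβ.out⟩] := by
  have h := hβ.out
  induction n with
  | zero =>
    rw [pow_zero, n04_dg_pos β one_pos, Nat.div_eq_of_lt (by omega), n04_dg_zero]
    simp [Nat.mod_eq_of_lt (show 1 < β by omega)]
  | succ n ih =>
    have h1 : 0 < β ^ (n + 1) := by positivity
    rw [n04_dg_pos β h1]
    have h2 : β ^ (n + 1) % β = 0 := by
      rw [pow_succ]; exact Nat.mul_mod_left _ _
    have h3 : β ^ (n + 1) / β = β ^ n := by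
      rw [pow_succ]; exact Nat.mul_div_cancel _ (by omega)
    rw [h3, ih, List.replicate_succ, List.cons_append]
    congr 1
    apply Fin.ext
    exact h2

theorem n04_LT_zdig1 : n03_LT (fun x : ZB β => (zdig β x.val).1) :=
  n03_comp (g := fun d : Bool × List (Fin β) => d.1) n03_fst (n03_zdig β)

theorem n04_LT_zdig2 : n03_LT (fun x : ZB β => (zdig β x.val).2) :=
  n03_comp (g := fun d : Bool × List (Fin β) => d.2) n03_snd (n03_zdig β)

end num

theorem ct_zbzero (β : ℕ) [Fact (2 ≤ β)] : CT (fun x : ZB β => decide (x = 0)) (fun x => size x) := by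
  have h1 : n03_LT (fun x : ZB β => (zdig β x.val).2.isEmpty) :=
    n03_comp (g := fun l : List (Fin β) => l.isEmpty) n04_isEmpty (n04_LT_zdig2 β)
  have h2 : n03_LT (fun x : ZB β => (!(zdig β x.val).1 && (zdig β x.val).2.isEmpty)) :=
    n03_comp2 (h := fun x : Bool × Bool => (!x.1 && x.2)) (n03_fin _) (n04_LT_zdig1 β) h1
  refine CT.congr h2 (fun x => ?_)
  exact n04_zdig_zero_iff β x.val

theorem ct_zbdiv (β : ℕ) [Fact (2 ≤ β)] :
    CT (fun x : ZB β => (ZB.mk (x.val / (β : ℤ)) : ZB β)) (fun x => size x) := by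
  have h1 : n03_LT (fun x : ZB β => (zdig β x.val).2.tail) :=
    n03_comp (g := fun l : List (Fin β) => l.tail) n04_tail (n04_LT_zdig2 β)
  have h2 : n03_LT (fun x : ZB β => ((zdig β x.val).1, (zdig β x.val).2.tail)) :=
    n03_pair (n04_LT_zdig1 β) h1
  refine CT.congr_enc h2 (fun x => ?_)
  show enc (zdig β (x.val / (β : ℤ))) = _
  rw [n04_zdig_div]

theorem ct_zbdivlc (β : ℕ) [Fact (2 ≤ β)] (lc : ℤ) (hlc : lc ≠ 0) (hβ : β = max 2 lc.natAbs) :
    CT (fun x : ZB β => if lc ∣ x.val then some (ZB.mk (x.val / lc) : ZB β) else none)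
      (fun x => size x) := by
  by_cases h2 : 2 ≤ lc.natAbs
  · have hb : β = lc.natAbs := by rw [hβ, max_eq_right h2]
    have h3 : n03_LT (fun x : ZB β => (ZB.mk (x.val / (β : ℤ)) : ZB β)) := ct_zbdiv β
    have h4 : n03_LT (fun x : ZB β => lc.sign • (ZB.mk (x.val / (β : ℤ)) : ZB β)) :=
      n03_comp (g := fun x : ZB β => lc.sign • x) (ct_zbsmul β lc.sign) h3
    have h5 : n03_LT (fun x : ZB β => some (lc.sign • (ZB.mk (x.val / (β : ℤ)) : ZB β))) :=
      n03_comp (g := fun x : ZB β => some x) n04_some h4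
    have h6 : n03_LT (fun x : ZB β => n04_dv β ((zdig β x.val).1, (zdig β x.val).2.head?)) :=
      n03_comp2 (h := n04_dv β) (n03_fin _) (n04_LT_zdig1 β)
        (n03_comp (g := fun l : List (Fin β) => l.head?) n04_head (n04_LT_zdig2 β))
    refine CT.congr (n03_ite h6 h5 (n03_const (none : Option (ZB β)))) (fun x => ?_)
    rw [n04_dv_eq]
    have h7 : ((β : ℤ) ∣ x.val) ↔ lc ∣ x.val := by
      rw [hb, Int.natAbs_dvd]
    by_cases h8 : lc ∣ x.val
    · rw [if_pos h8, if_pos (by simpa using h7.2 h8)]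
      congr 1
      show (lc.sign • (x.val / (β : ℤ)) : ℤ) = x.val / lc
      rw [smul_eq_mul]
      rcases lt_trichotomy lc 0 with h9 | h9 | h9
      · have e : lc = -(β : ℤ) := by omega
        rw [Int.sign_eq_neg_one_of_neg h9, e, Int.ediv_neg]
        ring
      · exact absurd h9 hlc
      · have e : lc = (β : ℤ) := by omega
        rw [Int.sign_eq_one_of_pos h9, e]
        ring
    · rw [if_neg h8, if_neg (by simpa using fun h => h8 (h7.1 h))]
  · have h3 : lc = 1 ∨ lc = -1 := by omega
    have h4 : n03_LT (fun x : ZB β => lc • x) := ct_zbsmul β lc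
    have h5 : n03_LT (fun x : ZB β => some (lc • x)) :=
      n03_comp (g := fun x : ZB β => some x) n04_some h4
    refine CT.congr h5 (fun x => ?_)
    have h6 : lc ∣ x.val := by
      rcases h3 with rfl | rfl <;> simp
    rw [if_pos h6]
    congr 1
    show (lc • (x.val : ℤ) : ℤ) = x.val / lc
    rw [smul_eq_mul]
    rcases h3 with rfl | rfl
    · rw [Int.ediv_one]; ring
    · rw [Int.ediv_neg, Int.ediv_one]; ring

theorem ct_zbpow (β : ℕ) [Fact (2 ≤ β)] : CT (fun n : ℕ => (ZB.mk ((β : ℤ) ^ n) : ZB β))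
    (fun n => n) := by
  have hβ := (inferInstance : Fact (2 ≤ β)).out
  have h0 : n03_LT (fun n : ℕ => List.replicate n ()) :=
    n03_of 0 ct_units (fun _ => Nat.zero_le _)
  have h1 : n03_LT (fun n : ℕ => (List.replicate n ()).map
      (fun _ => (⟨0, lt_of_lt_of_le Nat.two_pos hβ⟩ : Fin β))) :=
    n03_comp (g := fun l : List Unit => l.map
      (fun _ => (⟨0, lt_of_lt_of_le Nat.two_pos hβ⟩ : Fin β))) (n03_map _) h0
  have h2 : n03_LT (fun n : ℕ => (List.replicate n ()).map
      (fun _ => (⟨0, lt_of_lt_of_le Nat.two_pos hβ⟩ : Fin β)) ++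
        [⟨1, lt_of_lt_of_le Nat.one_lt_two hβ⟩]) :=
    n03_comp2 (h := fun x : List (Fin β) × List (Fin β) => x.1 ++ x.2) n03_append h1 (n03_const _)
  have h3 : n03_LT (fun n : ℕ => (false, (List.replicate n ()).map
      (fun _ => (⟨0, lt_of_lt_of_le Nat.two_pos hβ⟩ : Fin β)) ++
        [⟨1, lt_of_lt_of_le Nat.one_lt_two hβ⟩])) := n03_pair (n03_const false) h2
  refine CT.congr_enc (h3.mono 3 (fun n => ?_)) (fun n => ?_)
  · show size n ≤ 3 * (n + 1)
    rw [size_nat]
    omega
  · show enc (zdig β ((β : ℤ) ^ n)) = _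
    have e : ((β : ℤ) ^ n) = ((β ^ n : ℕ) : ℤ) := by push_cast; rfl
    rw [e, n04_zdig_nat, n04_dg_pow, List.map_replicate]

end Pool.Agent.WPR
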