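import Pool.Agent.Lib.MP_2da099_lc.R2.Defs
import Pool.Agent.Lib.MP_2da099_lc.C02
import Pool.Agent.Lib.MP_2da099_lc.C05
import Pool.Agent.Lib.MP_2da099_lc.C09
import Pool.Agent.Lib.MP_2da099_lc.C10

/-!
# P08: case distinction over a finite type

HINTS.  Let `L` be a list of all elements of `ι`.  By induction on a list `L`: the function
`x ↦ if x.1 ∈ L then f x.1 x.2 else b x.2`-style chain is computable: `(i, a) ↦ ((decide (i = i0), i), a)`
(`CT.first (CT.fin _)`, cost 0), `CT.assocR`, then `CT.bcase` with `(i, a) ↦ f i0 a` (`CT.snd` costs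
`size i`, bounded by `size_fin`, then `h i0`) and the rest of the chain.  The cost of `CT.bcase` is the cost
of the branch taken, so altogether `T i a` up to constants.  If `ι` is empty, there is nothing to compute:
the statement is about a function on an empty type (`CT` is trivially true, any program).
-/

set_option autoImplicit false

namespace Pool.Agent.WPR

open Pool.Agent.Lib.PolyTime Pool.Agent.WPM Function

open Classical in
theorem p08_chain {ι α β : Type} [Enc ι] [Finite ι] [Enc α] [Enc β] {f : ι → α → β}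
    {T : ι → α → ℕ} (h : ∀ i, CT (f i) (T i)) (i0 : ι) : ∀ L : List ι,
    CT (fun x : ι × α => if x.1 ∈ L then f x.1 x.2 else f i0 x.2)
      (fun x => if x.1 ∈ L then T x.1 x.2 else T i0 x.2) := by
  obtain ⟨κ, hκ⟩ := size_fin ι
  intro L
  induction L with
  | nil =>
    refine (((h i0).comp (CT.snd (α := ι) (β := α))).mono (κ + 1) (fun x => ?_)).congr
      (fun x => ?_)
    · show size x.1 + T i0 x.2 ≤ _
      rw [if_neg (by simp)]
      have := hκ x.1
      have e : (κ + 1) * (T i0 x.2 + 1) = κ * T i0 x.2 + κ + T i0 x.2 + 1 := by ring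
      omega
    · show f i0 x.2 = _
      rw [if_neg (by simp)]
  | cons j L ih =>
    have a1 : CT (fun x : ι × α => ((decide (x.1 = j), x.1), x.2)) (fun _ => 0) :=
      CT.first (CT.fin (fun i : ι => (decide (i = j), i)))
    have a2 : CT (fun x : (Bool × ι) × α => (x.1.1, (x.1.2, x.2))) (fun x => size x.1.1) :=
      CT.assocR
    have a3 : CT (fun x : ι × α => f j x.2) (fun x => size x.1 + T j x.2) :=
      (h j).comp (CT.snd (α := ι) (β := α))
    have a4 := CT.bcase a3 ih
    refine ((a4.comp (a2.comp a1)).mono (κ + 4) (fun x => ?_)).congr (fun x => ?_)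
    · show 0 + size (decide (x.1 = j)) + (if decide (x.1 = j) = true then size x.1 + T j x.2
        else if x.1 ∈ L then T x.1 x.2 else T i0 x.2) ≤ _
      have hb : size (decide (x.1 = j)) ≤ 3 := by cases decide (x.1 = j) <;> decide
      have hk := hκ x.1
      by_cases hx : x.1 = j
      · rw [if_pos (by simp [hx]), if_pos (by simp [hx]), ← hx]
        have e : (κ + 4) * (T x.1 x.2 + 1) = κ * T x.1 x.2 + κ + 4 * T x.1 x.2 + 4 := by ring
        rw [hx] at hb hk e ⊢
        omega
      · rw [if_neg (by simp [hx])]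
        by_cases hL : x.1 ∈ L
        · rw [if_pos hL, if_pos (by simp [hL])]
          have e : (κ + 4) * (T x.1 x.2 + 1) = κ * T x.1 x.2 + κ + 4 * T x.1 x.2 + 4 := by ring
          omega
        · rw [if_neg hL, if_neg (by simp [hL, hx])]
          have e : (κ + 4) * (T i0 x.2 + 1) = κ * T i0 x.2 + κ + 4 * T i0 x.2 + 4 := by ring
          omega
    · show (if decide (x.1 = j) = true then f j x.2 else if x.1 ∈ L then f x.1 x.2 else f i0 x.2)
        = _
      by_cases hx : x.1 = j
      · rw [if_pos (by simp [hx]), if_pos (by simp [hx]), ← hx]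
      · rw [if_neg (by simp [hx])]
        by_cases hL : x.1 ∈ L
        · rw [if_pos hL, if_pos (by simp [hL])]
        · rw [if_neg hL, if_neg (by simp [hL, hx])]

theorem ct_fincase {ι α β : Type} [Enc ι] [Finite ι] [Enc α] [Enc β] {f : ι → α → β}
    {T : ι → α → ℕ} (h : ∀ i, CT (f i) (T i)) :
    CT (fun x : ι × α => f x.1 x.2) (fun x => T x.1 x.2) := by
  classical
  by_cases hι : Nonempty ι
  · obtain ⟨i0⟩ := hι
    let _ := Fintype.ofFinite ι
    have h1 := p08_chain h i0 (Finset.univ : Finset ι).toList
    have hm : ∀ i : ι, i ∈ (Finset.univ : Finset ι).toList := fun i => by simp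
    refine (h1.mono 1 (fun x => ?_)).congr (fun x => ?_)
    · rw [if_pos (hm x.1)]
      omega
    · rw [if_pos (hm x.1)]
  · exact ⟨Unit, inferInstance, inferInstance, .skip, (), 0, fun x => absurd ⟨x.1⟩ hι⟩

end Pool.Agent.WPR
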