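import Pool.Agent.Lib.MP_2da099_lc.R2.N05
import Pool.Agent.Lib.MP_2da099_lc.R2.N04
import Pool.Agent.Lib.MP_2da099_lc.R2.P08
import Pool.Agent.Lib.MP_2da099_lc.R2.P10
import Pool.Agent.Lib.MP_2da099_lc.R2.N01
import Mathlib.Data.Matrix.Mul
import Mathlib.LinearAlgebra.Matrix.ToLin

/-!
# Z01: products of matrices

HINTS.  Base `β = 2` (`Fact (2 ≤ 2)`).  The state is the list `List.ofFn x : List (ZB 2)`, the step on the
letter `a` is `linMap (rows a)` with `rows a = List.ofFn (fun i => List.ofFn (A a i))` (`ct_linMap`, and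
`ct_fincase` over the finite alphabet `ι`), `CT.foldl`.  All entries after `t` steps are at most
`B * (M + 1) ^ t` with `M = Σ |entries|` (induction), so the size of the state is at most `C * (t + 1)`
(`size_zblist_le`), `foldCost ≤ C * (n + 1) ^ 2`.  At the end: test `∀ i ∈ S, x i = 0`: e.g. `linMap` with
the rows `e_i`, `i ∈ S`, then `ct_all ct_zbzero`.  The start `(w, x0)` is `CT.pushConst`, `CT.swap` (the size
of `w` is `O(n + 1)` by `size_list_fin`).  Correctness: `linMap (rows a) (ofFn x) = ofFn (A a *ᵥ x)`.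
-/

set_option autoImplicit false

namespace Pool.Agent.WPR

open Pool.Agent.Lib.PolyTime Pool.Agent.WPM Function

theorem z01_fact : Fact (2 ≤ 2) := ⟨le_rfl⟩

/-- a vector as a list of numbers in base two -/
def z01_l {N : ℕ} (x : Fin N → ℤ) : List (ZB 2) := List.ofFn (fun i => (ZB.mk (x i) : ZB 2))

/-- the rows of a matrix -/
def z01_rows {N : ℕ} (M : Matrix (Fin N) (Fin N) ℤ) : List (List ℤ) :=
  List.ofFn (fun i => List.ofFn (M i))

theorem z01_zipWith {α β γ : Type} {N : ℕ} (f : α → β → γ) (u : Fin N → α) (v : Fin N → β) :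
    List.zipWith f (List.ofFn u) (List.ofFn v) = List.ofFn (fun i => f (u i) (v i)) := by
  apply List.ext_getElem
  · simp
  · intro i h1 h2
    simp

theorem z01_linMap {N : ℕ} (M : Matrix (Fin N) (Fin N) ℤ) (x : Fin N → ℤ) :
    linMap (z01_rows M) (z01_l x) = z01_l (M.mulVec x) := by
  unfold linMap z01_rows z01_l
  rw [List.map_ofFn]
  congr 1
  funext i
  simp only [comp]
  rw [z01_zipWith, List.sum_ofFn]
  rfl

theorem z01_mem {N : ℕ} (x : Fin N → ℤ) (y : ZB 2) : y ∈ z01_l x ↔ ∃ i, (ZB.mk (x i) : ZB 2) = y := by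
  unfold z01_l
  rw [List.mem_ofFn]

theorem z01_length {N : ℕ} (x : Fin N → ℤ) : (z01_l x).length = N := by
  unfold z01_l
  rw [List.length_ofFn]

/-- bound for the entries after a product -/
theorem z01_mul {N : ℕ} (M : Matrix (Fin N) (Fin N) ℤ) (K : ℕ) (hK : ∀ i j, (M i j).natAbs ≤ K)
    (x : Fin N → ℤ) (B : ℕ) (hx : ∀ i, (x i).natAbs ≤ B) (i : Fin N) :
    (M.mulVec x i).natAbs ≤ N * K * B := by
  have h1 : (M.mulVec x i).natAbs ≤ ∑ j, (M i j * x j).natAbs := by
    unfold Matrix.mulVec dotProduct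
    exact Int.natAbs_sum_le _ _
  refine h1.trans ?_
  have h2 : ∀ j ∈ Finset.univ, (M i j * x j).natAbs ≤ K * B := fun j _ => by
    rw [Int.natAbs_mul]
    exact Nat.mul_le_mul (hK i j) (hx j)
  refine (Finset.sum_le_card_nsmul _ _ _ h2).trans ?_
  rw [Finset.card_univ, Fintype.card_fin, smul_eq_mul, mul_assoc]

theorem z01_size_sum {α : Type} [Enc α] (l : List α) : (l.map (fun a => size a)).sum ≤ size l := by
  induction l with
  | nil => simp
  | cons a l ih =>
    rw [List.map_cons, List.sum_cons, size_cons]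
    omega

theorem quad_matrix {ι : Type} [Enc ι] [Finite ι] {N : ℕ} (A : ι → Matrix (Fin N) (Fin N) ℤ)
    (x0 : Fin N → ℤ) (S : Set (Fin N)) :
    Quad (fun w : List ι => ∀ i ∈ S, (w.foldl (fun x a => (A a).mulVec x) x0) i = 0) := by
  classical
  have : Fact (2 ≤ 2) := z01_fact
  have := Fintype.ofFinite ι
  -- the step
  let step : ι × List (ZB 2) → List (ZB 2) := fun x => linMap (z01_rows (A x.1)) x.2
  have hstep : CT step (fun x => size x.2) :=
    ct_fincase (f := fun (a : ι) (l : List (ZB 2)) => linMap (z01_rows (A a)) l)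
      (T := fun _ l => size l) (fun a => ct_linMap 2 (z01_rows (A a)))
  have hfold := CT.foldl hstep
  -- bounds
  obtain ⟨K, hK⟩ : ∃ K : ℕ, ∀ a i j, (A a i j).natAbs ≤ K := by
    refine ⟨∑ a, ∑ i, ∑ j, (A a i j).natAbs, fun a i j => ?_⟩
    refine le_trans ?_ (Finset.single_le_sum (f := fun a => ∑ i, ∑ j, (A a i j).natAbs)
      (fun _ _ => Nat.zero_le _) (Finset.mem_univ a))
    refine le_trans ?_ (Finset.single_le_sum (f := fun i => ∑ j, (A a i j).natAbs)
      (fun _ _ => Nat.zero_le _) (Finset.mem_univ i))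
    exact Finset.single_le_sum (f := fun j => (A a i j).natAbs)
      (fun _ _ => Nat.zero_le _) (Finset.mem_univ j)
  obtain ⟨B0, hB0⟩ : ∃ B : ℕ, ∀ i, (x0 i).natAbs ≤ B :=
    ⟨∑ i, (x0 i).natAbs, fun i => Finset.single_le_sum (f := fun i => (x0 i).natAbs)
      (fun _ _ => Nat.zero_le _) (Finset.mem_univ i)⟩
  obtain ⟨C, hC⟩ := size_zblist_le 2
  obtain ⟨κ, hκ⟩ := size_list_fin ι
  set k0 : ℕ := B0 with hk0
  set k1 : ℕ := N * K with hk1
  have hB0' : ∀ i, (x0 i).natAbs ≤ 2 ^ k0 := fun i => (hB0 i).trans (Nat.lt_two_pow_self).le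
  have hmul : ∀ (a : ι) (x : Fin N → ℤ) (k : ℕ), (∀ i, (x i).natAbs ≤ 2 ^ k) →
      ∀ i, ((A a).mulVec x i).natAbs ≤ 2 ^ (k + k1) := by
    intro a x k hx i
    refine (z01_mul (A a) K (hK a) x (2 ^ k) hx i).trans ?_
    rw [pow_add, mul_comm (2 ^ k)]
    exact Nat.mul_le_mul_right _ (Nat.lt_two_pow_self).le
  have hsize : ∀ (x : Fin N → ℤ) (k : ℕ), (∀ i, (x i).natAbs ≤ 2 ^ k) →
      size (z01_l x) ≤ C * (N + 1) * (k + 1) := by
    intro x k hx
    have h := hC (z01_l x) k (fun y hy => by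
      obtain ⟨i, rfl⟩ := (z01_mem x y).1 hy
      exact hx i)
    rwa [z01_length] at h
  have hval : ∀ (w : List ι) (x : Fin N → ℤ), w.foldl (fun s a => step (a, s)) (z01_l x) =
      z01_l (w.foldl (fun x a => (A a).mulVec x) x) := by
    intro w
    induction w with
    | nil => intro x; rfl
    | cons a w ih =>
      intro x
      rw [List.foldl_cons, List.foldl_cons, ← ih]
      congr 1
      exact z01_linMap (A a) x
  have hbd : ∀ (w : List ι) (x : Fin N → ℤ) (k : ℕ), (∀ i, (x i).natAbs ≤ 2 ^ k) →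
      (∀ i, ((w.foldl (fun x a => (A a).mulVec x) x) i).natAbs ≤ 2 ^ (k + k1 * w.length)) ∧
      foldCost (fun x => size x.2) step w (z01_l x) ≤
        w.length * (C * (N + 1) * (k + k1 * w.length + 1)) := by
    intro w
    induction w with
    | nil =>
      intro x k hx
      refine ⟨fun i => by simpa using hx i, ?_⟩
      simp [foldCost]
    | cons a w ih =>
      intro x k hx
      obtain ⟨h1, h2⟩ := ih ((A a).mulVec x) (k + k1) (hmul a x k hx)
      have e1 : k + k1 + k1 * w.length = k + k1 * (a :: w).length := by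
        rw [List.length_cons]; ring
      rw [e1] at h1 h2
      refine ⟨h1, ?_⟩
      have h3 := hsize x k hx
      have h4 : step (a, z01_l x) = z01_l ((A a).mulVec x) := z01_linMap (A a) x
      show size (z01_l x) + foldCost (fun x => size x.2) step w (step (a, z01_l x)) ≤ _
      rw [h4]
      have h5 : C * (N + 1) * (k + 1) ≤ C * (N + 1) * (k + k1 * (a :: w).length + 1) :=
        Nat.mul_le_mul_left _ (by omega)
      have h6 : (a :: w).length * (C * (N + 1) * (k + k1 * (a :: w).length + 1)) =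
          w.length * (C * (N + 1) * (k + k1 * (a :: w).length + 1)) +
            C * (N + 1) * (k + k1 * (a :: w).length + 1) := Nat.succ_mul _ _
      rw [h6]
      omega
  -- the fold
  have hF : CT (fun w : List ι => w.foldl (fun s a => step (a, s)) (z01_l x0))
      (fun w => (w.length + 1) ^ 2) := by
    have a1 : CT (fun w : List ι => (z01_l x0, w)) (fun _ => 0) := CT.pushConst _
    have a2 : CT (fun x : List (ZB 2) × List ι => (x.2, x.1)) _ := CT.swap
    refine (hfold.comp (a2.comp a1)).mono (size (z01_l x0) + 2 * κ +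
      C * (N + 1) * (k0 + k1 + 1)) (fun w => ?_)
    have h1 := hκ w
    have h2 := (hbd w x0 k0 hB0').2
    show 0 + (size (z01_l x0) + size w) + (size w + foldCost (fun x => size x.2) step w (z01_l x0)) ≤ _
    set n := w.length with hn
    set D := C * (N + 1) with hD
    have h3 : n * (D * (k0 + k1 * n + 1)) ≤ D * (k0 + k1 + 1) * (n + 1) ^ 2 := by
      have h4 : k0 + k1 * n + 1 ≤ (k0 + k1 + 1) * (n + 1) := by nlinarith
      calc n * (D * (k0 + k1 * n + 1)) ≤ (n + 1) * (D * ((k0 + k1 + 1) * (n + 1))) :=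
            Nat.mul_le_mul (Nat.le_succ n) (Nat.mul_le_mul_left _ h4)
        _ = D * (k0 + k1 + 1) * (n + 1) ^ 2 := by ring
    have h5 : κ * (n + 1) ≤ κ * (n + 1) ^ 2 :=
      Nat.mul_le_mul_left _ (by nlinarith)
    have h6 : size (z01_l x0) ≤ size (z01_l x0) * ((n + 1) ^ 2 + 1) :=
      Nat.le_mul_of_pos_right _ (by positivity)
    have h7 : (size (z01_l x0) + 2 * κ + D * (k0 + k1 + 1)) * ((n + 1) ^ 2 + 1) =
        size (z01_l x0) * ((n + 1) ^ 2 + 1) + 2 * (κ * (n + 1) ^ 2) + 2 * κ +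
          D * (k0 + k1 + 1) * (n + 1) ^ 2 + D * (k0 + k1 + 1) := by ring
    rw [h7]
    omega
  -- the test
  let Dg : Matrix (Fin N) (Fin N) ℤ := Matrix.diagonal (fun i => if i ∈ S then (1 : ℤ) else 0)
  have hG : CT (fun l : List (ZB 2) => (linMap (z01_rows Dg) l).all (fun x => decide (x = 0)))
      (fun l => size l) := by
    have b1 := ct_linMap 2 (z01_rows Dg)
    have b2 := ct_all (ct_zbzero 2)
    obtain ⟨C', hC'⟩ := b1.size_le
    refine (b2.comp b1).mono (2 * C' + 3) (fun l => ?_)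
    have h1 := hC' l
    have h2 := z01_size_sum (linMap (z01_rows Dg) l)
    show size l + (size (linMap (z01_rows Dg) l) +
      ((linMap (z01_rows Dg) l).map (fun a => size a)).sum) ≤ _
    have h3 : (2 * C' + 3) * (size l + 1) = 2 * (C' * (size l + 1)) + 3 * size l + 3 := by ring
    rw [h3]
    omega
  refine ⟨_, _, 2 + C * (N + 1) * (k0 + k1 + 1), hG.comp hF, ?_, ?_⟩
  · intro w
    show (linMap (z01_rows Dg) (w.foldl (fun s a => step (a, s)) (z01_l x0))).all
      (fun x => decide (x = 0)) = true ↔ _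
    rw [hval, z01_linMap, List.all_eq_true]
    set v := w.foldl (fun x a => (A a).mulVec x) x0 with hv
    have h1 : ∀ i, Dg.mulVec v i = if i ∈ S then v i else 0 := by
      intro i
      rw [Matrix.mulVec_diagonal]
      split_ifs <;> simp
    constructor
    · intro h i hi
      have h2 := h (ZB.mk (Dg.mulVec v i)) ((z01_mem _ _).2 ⟨i, rfl⟩)
      rw [decide_eq_true_eq, h1, if_pos hi] at h2
      exact h2
    · intro h y hy
      obtain ⟨i, rfl⟩ := (z01_mem _ _).1 hy
      rw [decide_eq_true_eq, h1]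
      by_cases hi : i ∈ S
      · rw [if_pos hi, show v i = 0 from h i hi]
        rfl
      · rw [if_neg hi]
        rfl
  · intro w
    show (w.length + 1) ^ 2 + size (w.foldl (fun s a => step (a, s)) (z01_l x0)) ≤ _
    rw [hval]
    have h1 := hsize _ _ (hbd w x0 k0 hB0').1
    set n := w.length with hn
    set D := C * (N + 1) with hD
    have h4 : k0 + k1 * n + 1 ≤ (k0 + k1 + 1) * (n + 1) ^ 2 := by
      have h7 : k0 + k1 * n + 1 ≤ (k0 + k1 + 1) * (n + 1) := by nlinarith
      refine h7.trans (Nat.mul_le_mul_left _ ?_)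
      nlinarith
    have h5 : D * (k0 + k1 * n + 1) ≤ D * ((k0 + k1 + 1) * (n + 1) ^ 2) :=
      Nat.mul_le_mul_left _ h4
    have h6 : (2 + D * (k0 + k1 + 1)) * (n + 1) ^ 2 =
        2 * (n + 1) ^ 2 + D * ((k0 + k1 + 1) * (n + 1) ^ 2) := by ring
    rw [h6]
    omega

end Pool.Agent.WPR
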