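import Pool.Agent.Lib.MP_2da099_lc.R2.N03
import Pool.Agent.Lib.MP_2da099_lc.R2.N04

/-!
# N05: linear maps with constant coefficients

HINTS.  `linMap rows x`: for every row `w` (finitely many rows, all constant) the sum of the
`w_i • x_i`.  `ct_dot` by induction on `w`: `w = []`: constant `0` (`CT.const`); `a :: w`: `CT.lcase`: for
`x = y :: x'`: compute the pair `(dot w x', y)` and apply `ct_zblin a`.  Sizes: `size` of the partial sums is
at most `C * (size x + 1)` by `CT.size_le`.  Then `CT.mapConst`.
-/

set_option autoImplicit false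

namespace Pool.Agent.WPR

open Pool.Agent.Lib.PolyTime Pool.Agent.WPM Function

theorem ct_dot (β : ℕ) [Fact (2 ≤ β)] (w : List ℤ) :
    CT (fun x : List (ZB β) => (List.zipWith (fun (a : ℤ) y => a • y) w x).sum)
      (fun x => size x) := by
  induction w with
  | nil => exact CT.congr (CT.const (0 : ZB β)) (fun x => by simp)
  | cons a w ih =>
    have ih' : n03_LT (fun x : List (ZB β) =>
        (List.zipWith (fun (a : ℤ) y => a • y) w x).sum) := ih
    have h0 : n03_LT (fun x : ZB β × ZB β => x.1 + a • x.2) :=
      n03_of 1 (ct_zblin β a) (fun x => by rw [size_prod]; omega)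
    have h1 : n03_LT (fun x : (ZB β × List (ZB β)) × Unit => x.1.2) :=
      n03_comp (g := fun x : ZB β × List (ZB β) => x.2) n03_snd n03_fst
    have h1' : n03_LT (fun x : (ZB β × List (ZB β)) × Unit => x.1.1) :=
      n03_comp (g := fun x : ZB β × List (ZB β) => x.1) n03_fst n03_fst
    have h2 : n03_LT (fun x : (ZB β × List (ZB β)) × Unit =>
        (List.zipWith (fun (a : ℤ) y => a • y) w x.1.2).sum) :=
      n03_comp (g := fun x : List (ZB β) =>
        (List.zipWith (fun (a : ℤ) y => a • y) w x).sum) ih' h1
    have h3 : n03_LT (fun x : (ZB β × List (ZB β)) × Unit =>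
        (List.zipWith (fun (a : ℤ) y => a • y) w x.1.2).sum + a • x.1.1) :=
      n03_comp2 (h := fun x : ZB β × ZB β => x.1 + a • x.2) h0 h2 h1'
    have h4 := CT.lcase (f := fun _ : Unit => (0 : ZB β)) (n03_const (0 : ZB β)) h3
    have h5 : n03_LT (fun x : List (ZB β) × Unit =>
        (List.zipWith (fun (a : ℤ) y => a • y) (a :: w) x.1).sum) := by
      refine n03_of 2 (h4.congr (fun x => ?_)) (fun x => ?_)
      · rcases x with ⟨_ | ⟨b, l⟩, u⟩
        · simp
        · simp only [List.zipWith_cons_cons, List.sum_cons]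
          exact add_comm _ _
      · rcases x with ⟨_ | ⟨b, l⟩, u⟩
        · simp only [size_prod, size_nil]
          omega
        · simp only [size_prod, size_cons]
          omega
    exact n03_comp2 (h := fun x : List (ZB β) × Unit =>
        (List.zipWith (fun (a : ℤ) y => a • y) (a :: w) x.1).sum) h5 n03_id (n03_const ())

theorem ct_linMap (β : ℕ) [Fact (2 ≤ β)] (rows : List (List ℤ)) :
    CT (fun x : List (ZB β) => linMap rows x) (fun x => size x) := by
  have h := CT.mapConst rows (f := fun w (x : List (ZB β)) =>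
    (List.zipWith (fun (a : ℤ) y => a • y) w x).sum) (T := fun x => size x)
    (fun w _ => ct_dot β w)
  refine h.mono 2 (fun x => ?_)
  omega

theorem n05_sum_size {α : Type} [Enc α] (l : List α) : (l.map (fun a => size a)).sum ≤ size l := by
  induction l with
  | nil => simp
  | cons a l ih => rw [List.map_cons, List.sum_cons, size_cons]; omega

theorem ct_map_zbdiv (β : ℕ) [Fact (2 ≤ β)] :
    CT (fun x : List (ZB β) => x.map (fun y => (ZB.mk (y.val / (β : ℤ)) : ZB β)))
      (fun x => size x) := by
  refine (ct_map (ct_zbdiv β)).mono 2 (fun x => ?_)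
  have := n05_sum_size x
  omega

theorem n05_sum_zip {α β : Type} [Enc α] [Enc β] (l : List α) : ∀ l' : List β,
    ((l.zip l').map (fun x => size x.1 + size x.2)).sum ≤ size l + size l' := by
  induction l with
  | nil => intro l'; simp
  | cons a l ih =>
    intro l'
    cases l' with
    | nil => simp
    | cons b l' =>
      have := ih l'
      rw [List.zip_cons_cons, List.map_cons, List.sum_cons, size_cons, size_cons]
      simp only
      omega

theorem ct_map_zblin (β : ℕ) [Fact (2 ≤ β)] (w : ℤ) :
    CT (fun x : List (ZB β) × List (ZB β) => List.zipWith (fun a b => a + w • b) x.1 x.2)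
      (fun x => size x.1 + size x.2) := by
  refine (ct_zipWith (ct_zblin β w)).mono 2 (fun x => ?_)
  have := n05_sum_zip x.1 x.2
  omega

theorem n05_dot_bound (β : ℕ) (w : List ℤ) : ∀ (x : List (ZB β)) (B : ℕ),
    (∀ y ∈ x, y.val.natAbs ≤ B) →
    (List.zipWith (fun (a : ℤ) (y : ZB β) => a • y) w x).sum.val.natAbs ≤
      (w.map Int.natAbs).sum * B := by
  induction w with
  | nil =>
    intro x B _
    have : (List.zipWith (fun (a : ℤ) (y : ZB β) => a • y) [] x).sum = 0 := by simp
    rw [this]
    exact Nat.zero_le _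
  | cons a w ih =>
    intro x B h
    cases x with
    | nil =>
      have : (List.zipWith (fun (a : ℤ) (y : ZB β) => a • y) (a :: w) []).sum = 0 := by simp
      rw [this]
      exact Nat.zero_le _
    | cons y x =>
      have h1 := ih x B (fun z hz => h z (by simp [hz]))
      have h2 := h y (by simp)
      rw [List.zipWith_cons_cons, List.sum_cons, List.map_cons, List.sum_cons]
      have h3 : (a • y + (List.zipWith (fun (a : ℤ) (y : ZB β) => a • y) w x).sum).val =
          a * y.val + (List.zipWith (fun (a : ℤ) (y : ZB β) => a • y) w x).sum.val := by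
        show (a • (y.val : ℤ) + _ : ℤ) = _
        rw [smul_eq_mul]
        rfl
      rw [h3]
      refine (Int.natAbs_add_le _ _).trans ?_
      rw [Int.natAbs_mul, Nat.add_mul]
      exact Nat.add_le_add (Nat.mul_le_mul_left _ h2) h1

/-- the entries of `linMap` -/
theorem linMap_bound (β : ℕ) (rows : List (List ℤ)) : ∃ M : ℕ, ∀ (x : List (ZB β)) (B : ℕ),
    (∀ y ∈ x, y.val.natAbs ≤ B) → ∀ y ∈ linMap rows x, y.val.natAbs ≤ M * B := by
  refine ⟨(rows.map (fun w => (w.map Int.natAbs).sum)).sum, fun x B h y hy => ?_⟩
  unfold linMap at hy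
  obtain ⟨w, hw, rfl⟩ := List.mem_map.1 hy
  refine (n05_dot_bound β w x B h).trans (Nat.mul_le_mul_right _ ?_)
  exact List.single_le_sum (fun _ _ => Nat.zero_le _) _
    (List.mem_map.2 ⟨w, hw, rfl⟩)

end Pool.Agent.WPR
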