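import Pool.Agent.Lib.MP_2da099_lc.R2.Defs
import Pool.Agent.Lib.MP_2da099_lc.C08
import Pool.Agent.Lib.MP_2da099_lc.C10

/-!
# P06: scanning a list with a state

HINTS.  `CT.foldl` with the state `(s, acc) : σ × List β` and the step
`(a, (s, acc)) ↦ ((s, a), acc) ↦ (f (s, a), acc) = ((s', b), acc) ↦ (s', (b, acc)) = (s', b :: acc)`:
`CT.assocL` (cost `size a`), `CT.first CT.swap`, `CT.first h`, `CT.assocR` (cost `size s'`), last step by
`CT.of_enc_eq`.  All these costs are in `scanCost`.  Afterwards the list is reversed (`CT.second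
CT.reverse`): its size is at most the sum of the `size b + 1`, the size of the final state is in `scanCost`
(the `nil` case).  The lemma about lists: `l.foldl (fun y a => ((f (y.1, a)).1, (f (y.1, a)).2 :: y.2)) (s, acc)
= ((scan f s l).1, (scan f s l).2.reverse ++ acc)`.
-/

set_option autoImplicit false

namespace Pool.Agent.WPR

open Pool.Agent.Lib.PolyTime Pool.Agent.WPM Function

variable {α β σ : Type} [Enc α] [Enc β] [Enc σ]

theorem length_scan (f : σ × α → σ × β) (s : σ) (l : List α) : (scan f s l).2.length = l.length := by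
  induction l generalizing s with
  | nil => rfl
  | cons a l ih => simp [scan, ih]

/-- the outputs and the final state are not larger than the cost -/
theorem size_scan_le (T : σ × α → ℕ) (f : σ × α → σ × β) (s : σ) (l : List α) :
    size (scan f s l).1 + size (scan f s l).2 ≤ scanCost T f s l + 1 := by
  induction l generalizing s with
  | nil =>
    show size s + size ([] : List β) ≤ size s + 1
    rw [size_nil]
  | cons a l ih =>
    have h1 := ih (f (s, a)).1
    have h2 := size_pos s
    show size (scan f (f (s, a)).1 l).1 + size ((f (s, a)).2 :: (scan f (f (s, a)).1 l).2) ≤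
      size s + size a + T (s, a) + size (f (s, a)).1 + size (f (s, a)).2 +
      scanCost T f (f (s, a)).1 l + 1
    rw [size_cons]
    omega

theorem p06_input (s : β) : CT (fun a : α => (a, s)) (fun a => size a) := by
  have h1 : CT (fun a : α => (s, a)) (fun _ => 0) := CT.pushConst s
  have h2 : CT (fun x : β × α => (x.2, x.1)) _ := CT.swap
  refine ((h2.comp h1).mono (size s + 1) (fun a => ?_)).congr (fun _ => rfl)
  show 0 + (size s + size a) ≤ (size s + 1) * (size a + 1)
  have : (size s + 1) * (size a + 1) = size s * size a + size s + size a + 1 := by ring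
  omega

theorem ct_scan {f : σ × α → σ × β} {T : σ × α → ℕ} (h : CT f T) :
    CT (fun x : σ × List α => scan f x.1 x.2)
      (fun x => size x.1 + size x.2 + scanCost T f x.1 x.2) := by
  have h1 : CT (fun x : α × (σ × List β) => ((x.1, x.2.1), x.2.2)) (fun x => size x.1) := CT.assocL
  have h2 : CT (fun x : (α × σ) × List β => ((x.1.2, x.1.1), x.2)) (fun x => size x.1.1 + size x.1.2) :=
    CT.first CT.swap
  have h3 : CT (fun x : (σ × α) × List β => (f x.1, x.2)) (fun x => T x.1) := CT.first h
  have h4 : CT (fun x : (σ × β) × List β => (x.1.1, (x.1.2, x.2))) (fun x => size x.1.1) :=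
    CT.assocR
  have h5 : CT (fun x : σ × (β × List β) => (x.1, x.2.1 :: x.2.2)) (fun _ => 0) :=
    CT.of_enc_eq (fun _ => rfl)
  have hstep : CT (fun x : α × (σ × List β) =>
      ((f (x.2.1, x.1)).1, (f (x.2.1, x.1)).2 :: x.2.2))
      (fun x => size x.1 + size x.2.1 + T (x.2.1, x.1) + size (f (x.2.1, x.1)).1) := by
    refine ((h5.comp (h4.comp (h3.comp (h2.comp h1)))).mono 2 (fun x => ?_)).congr (fun _ => rfl)
    show size x.1 + (size x.1 + size x.2.1) + T (x.2.1, x.1) + size (f (x.2.1, x.1)).1 + 0 ≤
      2 * (size x.1 + size x.2.1 + T (x.2.1, x.1) + size (f (x.2.1, x.1)).1 + 1)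
    omega
  have hfold := CT.foldl hstep
  have hin : CT (fun x : σ × List α => (x.2, (x.1, ([] : List β)))) (fun x => size x.1 + size x.2) := by
    have a1 : CT (fun x : σ × List α => (x.2, x.1)) (fun x => size x.1 + size x.2) := CT.swap
    have a2 : CT (fun x : List α × σ => (x, ([] : List β))) (fun x => size x) := p06_input []
    have a3 : CT (fun x : (List α × σ) × List β => (x.1.1, (x.1.2, x.2))) (fun x => size x.1.1) :=
      CT.assocR
    refine ((a3.comp (a2.comp a1)).mono 3 (fun x => ?_)).congr (fun _ => rfl)
    show size x.1 + size x.2 + size (x.2, x.1) + size x.2 ≤ 3 * (size x.1 + size x.2 + 1)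
    rw [size_prod]
    simp only
    omega
  have hout : CT (fun x : σ × List β => (x.1, x.2.reverse)) (fun x => size x.1 + size x.2) :=
    CT.second CT.reverse
  have key : ∀ (l : List α) (s : σ) (acc : List β),
      l.foldl (fun (y : σ × List β) a => ((f (y.1, a)).1, (f (y.1, a)).2 :: y.2)) (s, acc)
        = ((scan f s l).1, (scan f s l).2.reverse ++ acc) := by
    intro l
    induction l with
    | nil => intro s acc; rfl
    | cons a l ih =>
      intro s acc
      rw [List.foldl_cons, ih]
      simp [scan]
  have hcost : ∀ (l : List α) (s : σ) (acc : List β),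
      foldCost (fun x : α × (σ × List β) =>
          size x.1 + size x.2.1 + T (x.2.1, x.1) + size (f (x.2.1, x.1)).1)
        (fun x => ((f (x.2.1, x.1)).1, (f (x.2.1, x.1)).2 :: x.2.2)) l (s, acc)
        ≤ scanCost T f s l := by
    intro l
    induction l with
    | nil => intro s acc; simp [foldCost]
    | cons a l ih =>
      intro s acc
      have h1 := ih (f (s, a)).1 ((f (s, a)).2 :: acc)
      simp only [foldCost, scanCost]
      omega
  refine ((hout.comp (hfold.comp hin)).mono 3 (fun x => ?_)).congr (fun x => ?_)
  · obtain ⟨s, l⟩ := x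
    show size s + size l + (size l + foldCost (fun x : α × (σ × List β) =>
          size x.1 + size x.2.1 + T (x.2.1, x.1) + size (f (x.2.1, x.1)).1)
        (fun x => ((f (x.2.1, x.1)).1, (f (x.2.1, x.1)).2 :: x.2.2)) l (s, [])) +
        (size (l.foldl (fun (y : σ × List β) a => ((f (y.1, a)).1, (f (y.1, a)).2 :: y.2))
          (s, [])).1 + size (l.foldl (fun (y : σ × List β) a =>
          ((f (y.1, a)).1, (f (y.1, a)).2 :: y.2)) (s, [])).2) ≤
      3 * (size s + size l + scanCost T f s l + 1)
    have h6 := hcost l s []
    have h7 := size_scan_le T f s l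
    rw [key, List.append_nil]
    show size s + size l + (size l + _) + (size (scan f s l).1 + size (scan f s l).2.reverse) ≤ _
    rw [size_reverse]
    omega
  · obtain ⟨s, l⟩ := x
    show ((l.foldl (fun (y : σ × List β) a => ((f (y.1, a)).1, (f (y.1, a)).2 :: y.2))
          (s, [])).1, (l.foldl (fun (y : σ × List β) a =>
          ((f (y.1, a)).1, (f (y.1, a)).2 :: y.2)) (s, [])).2.reverse) = scan f s l
    rw [key]
    simp

end Pool.Agent.WPR
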