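import Pool.Agent.Lib.MP_2da099_lc.R2.N02
import Pool.Agent.Lib.MP_2da099_lc.R2.P05
import Pool.Agent.Lib.MP_2da099_lc.R2.P06
import Pool.Agent.Lib.MP_2da099_lc.R2.P07

/-!
# N03: linear combinations of integers in linear time

HINTS.  `size (x : ZB β)` is the size of `zdig β x : Bool × List (Fin β)` (by definition of `encZB`), so a
function between such types may be computed on `zdig` (`CT.congr_enc`, `CT.of_enc_eq`).
Algorithm for `x + w y` (N02): `x ↦ (sign, signed digits)`; both lists are padded to the same length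
(longer one plus `k0`): e.g. append to each list the sign digit `k0 + length of the other list` times
(`ct_length`, `ct_replicate`), then both have length `len x + len y + k0` (`sdig β i x` with
`i = k0 + len y`); `CT.zip`; transduce with the carry: the carry is bounded (`saddT_carry`), use `ct_scan`
with the state in the finite type `Fin (2 * (|w| + 1) + 1)` (carry plus `|w| + 1`) and `CT.fin` for the step,
or `CT.foldl`; final carry gives the sign (`sadd_spec`, `CT.fin`); flip the digits if negative, remove the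
zeros at the end: reverse, `dropWhile` (`ct_dropWhile`), reverse (`zdig_ofSdig`; `List.rdropWhile` is defined
that way).  `ct_dropWhile` (finite alphabet): `CT.foldr`/`CT.foldl` of the reversed list, or directly: fold
with the state `(flag, acc)`; total cost `O(length)`: the state is only changed at the top.
`ct_zblin` is for a fixed integer `w`.
-/

set_option autoImplicit false

namespace Pool.Agent.WPR

open Pool.Agent.Lib.PolyTime Pool.Agent.WPM Function

section calculus

variable {α β γ δ ε : Type} [Enc α] [Enc β] [Enc γ] [Enc δ] [Enc ε]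

/-- linear time -/
def n03_LT (f : α → β) : Prop := CT f (fun a => size a)

theorem n03_comp {g : β → γ} {f : α → β} (hg : n03_LT g) (hf : n03_LT f) :
    n03_LT (fun a => g (f a)) := by
  unfold n03_LT at *
  obtain ⟨C, hC⟩ := hf.size_le
  refine (CT.comp hg hf).mono (C + 2) (fun a => ?_)
  have h := hC a
  have e : (C + 2) * (size a + 1) = C * (size a + 1) + 2 * (size a + 1) := by ring
  show size a + size (f a) ≤ _
  omega

theorem n03_pair {g : α → γ} {f : α → β} (hf : n03_LT f) (hg : n03_LT g) :
    n03_LT (fun a => (f a, g a)) := by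
  unfold n03_LT at *
  refine (hf.pair hg).mono 3 (fun a => ?_)
  show size a + size a + size a ≤ 3 * (size a + 1)
  omega

theorem n03_comp2 {h : β × γ → δ} {g : α → γ} {f : α → β} (hh : n03_LT h) (hf : n03_LT f)
    (hg : n03_LT g) : n03_LT (fun a => h (f a, g a)) :=
  n03_comp hh (n03_pair hf hg)

theorem n03_of {f : α → β} {T : α → ℕ} (C : ℕ) (h : CT f T) (hT : ∀ a, T a ≤ C * (size a + 1)) :
    n03_LT f := h.mono C hT

theorem n03_const (b : β) : n03_LT (fun _ : α => b) := CT.const b

theorem n03_id : n03_LT (fun a : α => a) :=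
  n03_of 0 (CT.of_enc_eq (fun _ => rfl)) (fun _ => Nat.zero_le _)

theorem n03_fst : n03_LT (fun x : α × β => x.1) :=
  n03_of 1 CT.fst (fun x => by rw [size_prod]; omega)

theorem n03_snd : n03_LT (fun x : α × β => x.2) :=
  n03_of 1 CT.snd (fun x => by rw [size_prod]; omega)

theorem n03_fin [Finite α] (f : α → β) : n03_LT f :=
  n03_of 0 (CT.fin f) (fun _ => Nat.zero_le _)

theorem n03_ite {c : α → Bool} {f g : α → β} (hc : n03_LT c) (hf : n03_LT f) (hg : n03_LT g) :
    n03_LT (fun a => if c a then f a else g a) := by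
  have h1 : n03_LT (fun x : Bool × α => if x.1 then f x.2 else g x.2) := by
    unfold n03_LT at *
    refine (CT.bcase hf hg).mono 1 (fun x => ?_)
    show (if x.1 then size x.2 else size x.2) ≤ _
    rw [size_prod, ite_self]
    omega
  exact n03_comp2 (h := fun x : Bool × α => if x.1 then f x.2 else g x.2) h1 hc n03_id

theorem n03_append : n03_LT (fun x : List α × List α => x.1 ++ x.2) :=
  n03_of 1 CT.append (fun x => by rw [size_prod]; omega)

theorem n03_reverse : n03_LT (fun x : List α => x.reverse) :=
  n03_of 1 CT.reverse (fun x => by omega)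

theorem n03_zip : n03_LT (fun x : List α × List β => x.1.zip x.2) :=
  n03_of 1 CT.zip (fun x => by rw [size_prod]; omega)

theorem n03_length_le (l : List α) : l.length ≤ size l := by
  induction l with
  | nil => simp
  | cons a l ih => rw [List.length_cons, size_cons]; omega

theorem n03_trans [Finite α] [Finite β] [Finite γ] (f : γ → α → γ × β) (s : γ) :
    n03_LT (fun l : List α => WPM.trans f s l) :=
  n03_of 1 (CT.transduce f s) (fun x => by have := n03_length_le x; omega)

theorem n03_map [Finite α] [Finite β] (f : α → β) :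
    n03_LT (fun l : List α => l.map f) := by
  have h : n03_LT (fun l : List α => WPM.trans (fun (_ : Unit) a => ((), f a)) () l) := n03_trans _ _
  refine CT.congr h (fun l => ?_)
  induction l with
  | nil => rfl
  | cons a l ih => simp only [WPM.trans, List.map_cons, ih]

theorem n03_foldl [Finite γ] [Finite α] (f : γ → α → γ) (s : γ) :
    n03_LT (fun l : List α => l.foldl f s) := by
  have hstep : CT (fun x : α × γ => f x.2 x.1) (fun _ => 0) := CT.fin _
  have h1 := CT.foldl hstep
  have h2 : n03_LT (fun x : List α × γ => x.1.foldl (fun s a => f s a) x.2) := by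
    refine n03_of 1 h1 (fun x => ?_)
    rw [c08_foldCost_zero, size_prod]
    omega
  exact n03_comp2 (h := fun x : List α × γ => x.1.foldl (fun s a => f s a) x.2) h2 n03_id
    (n03_const s)

end calculus

theorem ct_dropWhile {α : Type} [Enc α] [Finite α] (q : α → Bool) :
    CT (fun l : List α => l.dropWhile q) (fun l => l.length) := by
  obtain ⟨κ1, hκ1⟩ := size_fin α
  obtain ⟨κ3, hκ3⟩ := size_list_fin α
  have hb : ∀ b : Bool, size b ≤ 3 := by
    intro b
    cases b <;> decide
  have h1 : CT (fun x : α × (Bool × List α) => ((x.1, x.2.1), x.2.2)) (fun x => size x.1) :=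
    CT.assocL
  have h2 : CT (fun x : (α × Bool) × List α => (((x.1.2 && q x.1.1),
      if (x.1.2 && q x.1.1) then (none : Option α) else some x.1.1), x.2)) (fun _ => 0) :=
    CT.first (CT.fin (fun y : α × Bool => ((y.2 && q y.1),
      if (y.2 && q y.1) then (none : Option α) else some y.1)))
  have h3 : CT (fun x : (Bool × Option α) × List α => (x.1.1, (x.1.2, x.2)))
      (fun x => size x.1.1) := CT.assocR
  have h4a : CT (fun x : Option α × List α => match x.1 with
      | none => x.2
      | some b => b :: x.2) (fun x => match x.1 with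
      | none => 0
      | some b => size b + 0) :=
    CT.ocase (CT.of_enc_eq (f := fun l : List α => l) (fun _ => rfl))
      (CT.of_enc_eq (f := fun x : α × List α => x.1 :: x.2) (fun _ => rfl))
  have h4b : CT (fun x : Option α × List α => match x.1 with
      | none => x.2
      | some b => b :: x.2) (fun _ => 0) := by
    refine h4a.mono κ1 (fun x => ?_)
    rcases x with ⟨_ | b, l⟩
    · simp
    · have := hκ1 b
      simp only
      omega
  have h4 : CT (fun x : Bool × (Option α × List α) => (x.1, match x.2.1 with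
      | none => x.2.2
      | some b => b :: x.2.2)) (fun x => size x.1 + 0) := CT.second h4b
  have hstep : CT (fun x : α × (Bool × List α) => ((x.2.1 && q x.1),
      if (x.2.1 && q x.1) then x.2.2 else x.1 :: x.2.2)) (fun _ => 0) := by
    refine ((h4.comp (h3.comp (h2.comp h1))).mono (κ1 + 6) (fun x => ?_)).congr (fun x => ?_)
    · have a1 := hκ1 x.1
      have a2 := hb (x.2.1 && q x.1)
      show size x.1 + 0 + size (x.2.1 && q x.1) + (size (x.2.1 && q x.1) + 0) ≤
        (κ1 + 6) * (0 + 1)
      omega
    · simp only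
      cases h : (x.2.1 && q x.1) <;> simp
  have hfold := CT.foldl hstep
  have hin : CT (fun l : List α => (l, (true, ([] : List α)))) (fun l => l.length) := by
    have a1 : CT (fun l : List α => ((true, ([] : List α)), l)) (fun _ => 0) := CT.pushConst _
    have a2 : CT (fun x : (Bool × List α) × List α => (x.2, x.1)) _ := CT.swap
    refine (a2.comp a1).mono (κ3 + size (true, ([] : List α))) (fun l => ?_)
    have := hκ3 l
    show 0 + (size (true, ([] : List α)) + size l) ≤
      (κ3 + size (true, ([] : List α))) * (l.length + 1)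
    have e : (κ3 + size (true, ([] : List α))) * (l.length + 1) = κ3 * (l.length + 1) +
      size (true, ([] : List α)) * l.length + size (true, ([] : List α)) := by ring
    omega
  have hout : CT (fun x : Bool × List α => x.2.reverse) (fun x => x.2.length) := by
    have a1 : CT (fun x : Bool × List α => x.2) _ := CT.snd
    refine ((CT.reverse (α := α)).comp a1).mono (κ3 + 3) (fun x => ?_)
    have a1 := hb x.1
    have a2 := hκ3 x.2
    show size x.1 + size x.2 ≤ (κ3 + 3) * (x.2.length + 1)
    have e : (κ3 + 3) * (x.2.length + 1) = κ3 * (x.2.length + 1) + 3 * x.2.length + 3 := by ring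
    omega
  have key : ∀ (l : List α) (b : Bool) (acc : List α),
      (l.foldl (fun (s : Bool × List α) a => ((s.1 && q a),
        if (s.1 && q a) then s.2 else a :: s.2)) (b, acc)).2 =
      (if b then l.dropWhile q else l).reverse ++ acc := by
    intro l
    induction l with
    | nil => intro b acc; cases b <;> simp
    | cons a l ih =>
      intro b acc
      rw [List.foldl_cons, ih]
      cases b
      · simp
      · cases h : q a
        · simp [h]
        · simp [h]
  refine ((hout.comp (hfold.comp hin)).mono (κ3 + 2) (fun l => ?_)).congr (fun l => ?_)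
  · have a1 := hκ3 l
    have a2 : (l.foldl (fun (s : Bool × List α) a => ((s.1 && q a),
        if (s.1 && q a) then s.2 else a :: s.2)) (true, [])).2.length ≤ l.length := by
      rw [key, List.append_nil, List.length_reverse, if_pos rfl]
      exact (List.dropWhile_sublist q).length_le
    show l.length + (size l + foldCost (fun _ => 0) _ l (true, [])) +
      (l.foldl (fun (s : Bool × List α) a => ((s.1 && q a),
        if (s.1 && q a) then s.2 else a :: s.2)) (true, [])).2.length ≤ _
    rw [c08_foldCost_zero]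
    have e : (κ3 + 2) * (l.length + 1) = κ3 * (l.length + 1) + 2 * (l.length + 1) := by ring
    omega
  · show (l.foldl (fun (s : Bool × List α) a => ((s.1 && q a),
        if (s.1 && q a) then s.2 else a :: s.2)) (true, [])).2.reverse = l.dropWhile q
    rw [key, List.append_nil, List.reverse_reverse, if_pos rfl]

section lin

variable (β : ℕ) [hβ : Fact (2 ≤ β)]

theorem n03_zdig : n03_LT (fun x : ZB β => zdig β x.val) :=
  n03_of 0 (CT.of_enc_eq (fun _ => rfl)) (fun _ => Nat.zero_le _)

theorem n03_of_zdig {A : Type} [Enc A] {f : A → ZB β} (h : n03_LT (fun a => zdig β (f a).val)) :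
    n03_LT f :=
  CT.congr_enc h (fun _ => rfl)

/-- the signed digits of a pair sign, digits -/
def n03_sd (d : Bool × List (Fin β)) : List (Fin β) :=
  if d.1 then d.2.map (flipD β) else d.2

theorem n03_lt_sd : n03_LT (n03_sd β) :=
  n03_ite n03_fst (n03_comp (g := fun l : List (Fin β) => l.map (flipD β))
    (n03_map (flipD β)) n03_snd) n03_snd

/-- the padding -/
def n03_pad (k0 : ℕ) (x : Bool × List (Fin β)) : List (Fin β) :=
  if x.1 then x.2.map (fun _ => signD β true) ++ List.replicate k0 (signD β true)
    else x.2.map (fun _ => signD β false) ++ List.replicate k0 (signD β false)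

theorem n03_lt_pad (k0 : ℕ) : n03_LT (n03_pad β k0) := by
  have h1 : ∀ c : Fin β, n03_LT (fun x : Bool × List (Fin β) =>
      x.2.map (fun _ => c) ++ List.replicate k0 c) := by
    intro c
    have h2 : n03_LT (fun x : Bool × List (Fin β) => x.2.map (fun _ => c)) :=
      n03_comp (g := fun l : List (Fin β) => l.map (fun _ => c)) (n03_map _) n03_snd
    exact n03_comp2 (h := fun x : List (Fin β) × List (Fin β) => x.1 ++ x.2) n03_append h2
      (n03_const _)
  exact n03_ite n03_fst (h1 _) (h1 _)

/-- the padded signed digits of the first number -/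
def n03_long (k0 : ℕ) (x : (Bool × List (Fin β)) × (Bool × List (Fin β))) : List (Fin β) :=
  n03_sd β x.1 ++ n03_pad β k0 (x.1.1, x.2.2)

theorem n03_lt_long (k0 : ℕ) : n03_LT (n03_long β k0) := by
  have h1 : n03_LT (fun x : (Bool × List (Fin β)) × (Bool × List (Fin β)) => n03_sd β x.1) :=
    n03_comp (n03_lt_sd β) n03_fst
  have h2 : n03_LT (fun x : (Bool × List (Fin β)) × (Bool × List (Fin β)) => x.1.1) :=
    n03_comp (g := fun x : Bool × List (Fin β) => x.1) n03_fst n03_fst
  have h3 : n03_LT (fun x : (Bool × List (Fin β)) × (Bool × List (Fin β)) => x.2.2) :=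
    n03_comp (g := fun x : Bool × List (Fin β) => x.2) n03_snd n03_snd
  have h4 : n03_LT (fun x : (Bool × List (Fin β)) × (Bool × List (Fin β)) =>
      n03_pad β k0 (x.1.1, x.2.2)) := n03_comp (n03_lt_pad β k0) (n03_pair h2 h3)
  exact n03_comp2 (h := fun x : List (Fin β) × List (Fin β) => x.1 ++ x.2) n03_append h1 h4

theorem n03_long_eq (k0 : ℕ) (x y : ℤ) : n03_long β k0 (zdig β x, zdig β y) =
    sdig β ((zdig β y).2.length + k0) x := by
  unfold n03_long n03_sd n03_pad sdig
  cases (zdig β x).1
  · simp [List.map_const', List.replicate_append_replicate]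
  · simp [List.map_const', List.replicate_append_replicate]

theorem n03_long_length (k0 : ℕ) (x : (Bool × List (Fin β)) × (Bool × List (Fin β))) :
    (n03_long β k0 x).length = x.1.2.length + (x.2.2.length + k0) := by
  obtain ⟨⟨b, l⟩, c, l'⟩ := x
  unfold n03_long n03_sd n03_pad
  cases b <;> simp

/-- carry states -/
abbrev n03_St (N : ℕ) : Type := Fin (2 * N + 1)

/-- the carry of a state -/
def n03_toInt (N : ℕ) (s : n03_St N) : ℤ := (s : ℤ) - N

/-- the state of a carry -/
def n03_ofInt (N : ℕ) (c : ℤ) : n03_St N :=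
  ⟨min (c + N).toNat (2 * N), by omega⟩

theorem n03_to_of (N : ℕ) (c : ℤ) (h : |c| ≤ N) : n03_toInt N (n03_ofInt N c) = c := by
  unfold n03_toInt n03_ofInt
  rw [abs_le] at h
  simp only
  omega

/-- the digit -/
def n03_dig (w c : ℤ) (x : Fin β × Fin β) : Fin β :=
  ⟨(((x.1 : ℤ) + w * (x.2 : ℤ) + c) % (β : ℤ)).toNat, by
      have h := hβ.out
      have h1 := Int.emod_lt_of_pos ((x.1 : ℤ) + w * (x.2 : ℤ) + c) (b := (β : ℤ)) (by omega)
      have h2 := Int.emod_nonneg ((x.1 : ℤ) + w * (x.2 : ℤ) + c) (b := (β : ℤ)) (by omega)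
      omega⟩

/-- one step -/
def n03_step (w : ℤ) (s : n03_St (w.natAbs + 1)) (x : Fin β × Fin β) :
    n03_St (w.natAbs + 1) × Fin β :=
  (n03_ofInt (w.natAbs + 1)
    (((x.1 : ℤ) + w * (x.2 : ℤ) + n03_toInt (w.natAbs + 1) s) / (β : ℤ)),
    n03_dig β w (n03_toInt (w.natAbs + 1) s) x)

theorem n03_carry (w : ℤ) (x : Fin β × Fin β) (c : ℤ) (hc : |c| ≤ ((w.natAbs + 1 : ℕ) : ℤ)) :
    |((x.1 : ℤ) + w * (x.2 : ℤ) + c) / (β : ℤ)| ≤ ((w.natAbs + 1 : ℕ) : ℤ) := by
  have e : ((w.natAbs + 1 : ℕ) : ℤ) = |w| + 1 := by push_cast; rfl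
  rw [e] at hc ⊢
  exact saddT_carry β w [x] c hc

theorem n03_trans_eq (w : ℤ) (l : List (Fin β × Fin β)) : ∀ (c : ℤ),
    |c| ≤ ((w.natAbs + 1 : ℕ) : ℤ) →
    WPM.trans (n03_step β w) (n03_ofInt (w.natAbs + 1) c) l = (saddT β w c l).1 ∧
    n03_toInt (w.natAbs + 1) (l.foldl (fun s x => (n03_step β w s x).1)
      (n03_ofInt (w.natAbs + 1) c)) = (saddT β w c l).2 := by
  induction l with
  | nil =>
    intro c hc
    exact ⟨rfl, n03_to_of _ c hc⟩
  | cons x l ih =>
    intro c hc
    have h1 := n03_carry β w x c hc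
    obtain ⟨h2, h3⟩ := ih _ h1
    have h4 : n03_step β w (n03_ofInt (w.natAbs + 1) c) x =
        (n03_ofInt (w.natAbs + 1) (((x.1 : ℤ) + w * (x.2 : ℤ) + c) / (β : ℤ)),
          n03_dig β w c x) := by
      unfold n03_step
      rw [n03_to_of _ c hc]
    constructor
    · rw [WPM.trans, h4, h2]
      rfl
    · rw [List.foldl_cons, h4, h3]
      rfl

/-- the final flag -/
def n03_flag (w : ℤ) (x : n03_St (w.natAbs + 1) × (Bool × Bool)) : Bool :=
  decide (n03_toInt (w.natAbs + 1) x.1 - (if x.2.1 then 1 else 0) -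
      w * (if x.2.2 then 1 else 0) = -1)

/-- remove zeros -/
def n03_fin' (x : Bool × List (Fin β)) : Bool × List (Fin β) :=
  (x.1, (n03_sd β x).rdropWhile (fun d : Fin β => decide (d.val = 0)))

theorem n03_lt_fin' : n03_LT (n03_fin' β) := by
  refine n03_pair n03_fst ?_
  have h1 : n03_LT (fun l : List (Fin β) => l.rdropWhile (fun d : Fin β => decide (d.val = 0))) := by
    have h2 : n03_LT (fun l : List (Fin β) =>
        (l.dropWhile (fun d : Fin β => decide (d.val = 0)))) :=
      n03_of 1 (ct_dropWhile _) (fun x => by have := n03_length_le x; omega)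
    have h3 : n03_LT (fun l : List (Fin β) =>
        (l.reverse.dropWhile (fun d : Fin β => decide (d.val = 0)))) :=
      n03_comp h2 n03_reverse
    exact n03_comp (g := fun l : List (Fin β) => l.reverse) n03_reverse h3
  exact n03_comp h1 (n03_lt_sd β)

/-- the whole computation on digits -/
def n03_main (w : ℤ) (k0 : ℕ) (x : (Bool × List (Fin β)) × (Bool × List (Fin β))) :
    Bool × List (Fin β) :=
  n03_fin' β (n03_flag w
    (((n03_long β k0 x).zip (n03_long β k0 (x.2, x.1))).foldl (fun s x => (n03_step β w s x).1)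
      (n03_ofInt (w.natAbs + 1) 0), (x.1.1, x.2.1)),
    WPM.trans (n03_step β w) (n03_ofInt (w.natAbs + 1) 0)
      ((n03_long β k0 x).zip (n03_long β k0 (x.2, x.1))))

theorem n03_lt_main (w : ℤ) (k0 : ℕ) : n03_LT (n03_main β w k0) := by
  have hz1 : n03_LT (fun x : (Bool × List (Fin β)) × (Bool × List (Fin β)) =>
      n03_long β k0 (x.2, x.1)) := n03_comp (n03_lt_long β k0) (n03_pair n03_snd n03_fst)
  have hz : n03_LT (fun x : (Bool × List (Fin β)) × (Bool × List (Fin β)) =>
      (n03_long β k0 x).zip (n03_long β k0 (x.2, x.1))) :=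
    n03_comp2 (h := fun x : List (Fin β) × List (Fin β) => x.1.zip x.2) n03_zip
      (n03_lt_long β k0) hz1
  have h1 : n03_LT (fun x : (Bool × List (Fin β)) × (Bool × List (Fin β)) =>
      ((n03_long β k0 x).zip (n03_long β k0 (x.2, x.1))).foldl (fun s x => (n03_step β w s x).1)
      (n03_ofInt (w.natAbs + 1) 0)) :=
    n03_comp (g := fun l : List (Fin β × Fin β) => l.foldl (fun s x => (n03_step β w s x).1)
      (n03_ofInt (w.natAbs + 1) 0)) (n03_foldl _ _) hz
  have h2 : n03_LT (fun x : (Bool × List (Fin β)) × (Bool × List (Fin β)) =>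
      WPM.trans (n03_step β w) (n03_ofInt (w.natAbs + 1) 0)
      ((n03_long β k0 x).zip (n03_long β k0 (x.2, x.1)))) :=
    n03_comp (g := fun l : List (Fin β × Fin β) => WPM.trans (n03_step β w)
      (n03_ofInt (w.natAbs + 1) 0) l) (n03_trans _ _) hz
  have h3 : n03_LT (fun x : (Bool × List (Fin β)) × (Bool × List (Fin β)) => x.1.1) :=
    n03_comp (g := fun x : Bool × List (Fin β) => x.1) n03_fst n03_fst
  have h4 : n03_LT (fun x : (Bool × List (Fin β)) × (Bool × List (Fin β)) => x.2.1) :=
    n03_comp (g := fun x : Bool × List (Fin β) => x.1) n03_fst n03_snd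
  have h5 := n03_comp (n03_fin (n03_flag w)) (n03_pair h1 (n03_pair h3 h4))
  have h6 := n03_comp (n03_lt_fin' β) (n03_pair h5 h2)
  exact h6

theorem n03_main_eq (w : ℤ) : ∃ k0 : ℕ, ∀ x y : ℤ,
    n03_main β w k0 (zdig β x, zdig β y) = zdig β (x + w * y) := by
  obtain ⟨k0, hk0⟩ := sadd_spec β w
  refine ⟨k0, fun x y => ?_⟩
  have hlen : (n03_long β k0 (zdig β x, zdig β y)).length =
      (n03_long β k0 (zdig β y, zdig β x)).length := by
    rw [n03_long_length, n03_long_length]
    simp only
    omega
  obtain ⟨h1, h2⟩ := hk0 k0 le_rfl x y (n03_long β k0 (zdig β x, zdig β y))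
    (n03_long β k0 (zdig β y, zdig β x)) hlen
    ⟨_, Nat.le_add_left _ _, n03_long_eq β k0 x y⟩ ⟨_, Nat.le_add_left _ _, n03_long_eq β k0 y x⟩
  obtain ⟨h3, h4⟩ := n03_trans_eq β w ((n03_long β k0 (zdig β x, zdig β y)).zip
    (n03_long β k0 (zdig β y, zdig β x))) 0 (by
      rw [abs_zero]
      exact Int.natCast_nonneg _)
  unfold n03_main n03_fin' n03_sd n03_flag
  simp only
  rw [h3, h4, h2, zdig_ofSdig]

end lin

theorem ct_zblin (β : ℕ) [Fact (2 ≤ β)] (w : ℤ) :
    CT (fun x : ZB β × ZB β => x.1 + w • x.2) (fun x => size x.1 + size x.2) := by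
  obtain ⟨k0, hk0⟩ := n03_main_eq β w
  have h0 : n03_LT (fun x : ZB β × ZB β => zdig β x.1.val) :=
    n03_comp (g := fun x : ZB β => zdig β x.val) (n03_zdig β) n03_fst
  have h0' : n03_LT (fun x : ZB β × ZB β => zdig β x.2.val) :=
    n03_comp (g := fun x : ZB β => zdig β x.val) (n03_zdig β) n03_snd
  have h1 : n03_LT (fun x : ZB β × ZB β => n03_main β w k0 (zdig β x.1.val, zdig β x.2.val)) :=
    n03_comp (n03_lt_main β w k0) (n03_pair h0 h0')
  have h2 : n03_LT (fun x : ZB β × ZB β => x.1 + w • x.2) := by
    refine CT.congr_enc h1 (fun x => ?_)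
    rw [hk0]
    show enc (zdig β ((x.1.val : ℤ) + w • (x.2.val : ℤ))) = _
    rw [smul_eq_mul]
  refine h2.mono 2 (fun x => ?_)
  rw [size_prod]
  omega

theorem ct_zbsmul (β : ℕ) [Fact (2 ≤ β)] (w : ℤ) :
    CT (fun x : ZB β => w • x) (fun x => size x) := by
  have h1 : CT (fun x : ZB β => ((0 : ZB β), x)) (fun _ => 0) := CT.pushConst 0
  refine (((ct_zblin β w).comp h1).mono (size (0 : ZB β) + 1) (fun x => ?_)).congr (fun x => ?_)
  · show 0 + (size (0 : ZB β) + size x) ≤ _
    have e : (size (0 : ZB β) + 1) * (size x + 1) =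
      size (0 : ZB β) * size x + size (0 : ZB β) + size x + 1 := by ring
    omega
  · show (0 : ZB β) + w • x = w • x
    rw [zero_add]

end Pool.Agent.WPR
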