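import Pool.Agent.Lib.MP_2da099_lc.R2.Defs
import Mathlib.GroupTheory.QuotientGroup.Basic

/-!
# B01: a faithful derivation, integral version

HINTS.  Copy `A01.lean` (`exists_derivation`) with `ℤ` instead of `ZMod p`: `M = G ⧸ A → Additive A × ℤ`.
-/

set_option autoImplicit false

namespace Pool.Agent.WPR

universe u

theorem exists_derivationZ {G : Type u} [Group G] (A : Subgroup G) [A.Normal]
    (hcomm : ∀ a ∈ A, ∀ b ∈ A, a * b = b * a) :
    ∃ (M : Type u) (_ : AddCommGroup M) (ρ : G →* AddMonoid.End M) (D : G → M),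
      (∀ a ∈ A, ρ a = 1) ∧ (∀ x y, D (x * y) = D x + ρ x (D y)) ∧ ∀ x, D x = 0 ↔ x = 1 := by
  classical
  let iA : CommGroup A :=
    { (inferInstance : Group A) with mul_comm := fun a b => Subtype.ext (hcomm a a.2 b b.2) }
  let s : G ⧸ A → G := Quotient.out
  have hs : ∀ x : G ⧸ A, ((s x : G) : G ⧸ A) = x := fun x => Quotient.out_eq' x
  have hA : ∀ (g : G) (x : G ⧸ A), (s x)⁻¹ * g * s ((g : G ⧸ A)⁻¹ * x) ∈ A := by
    intro g x
    rw [← QuotientGroup.eq_one_iff]
    rw [QuotientGroup.mk_mul, QuotientGroup.mk_mul, QuotientGroup.mk_inv, hs, hs]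
    group
  let ρ : G →* AddMonoid.End (G ⧸ A → Additive A × ℤ) :=
    { toFun := fun g =>
        { toFun := fun f x => f ((g : G ⧸ A)⁻¹ * x)
          map_zero' := rfl
          map_add' := fun f f' => rfl }
      map_one' := by
        apply AddMonoidHom.ext
        intro f
        funext x
        change f (((1 : G) : G ⧸ A)⁻¹ * x) = f x
        rw [QuotientGroup.mk_one, inv_one, one_mul]
      map_mul' := by
        intro g h
        apply AddMonoidHom.ext
        intro f
        funext x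
        change f (((g * h : G) : G ⧸ A)⁻¹ * x) = f ((h : G ⧸ A)⁻¹ * ((g : G ⧸ A)⁻¹ * x))
        rw [QuotientGroup.mk_mul, mul_inv_rev, mul_assoc] }
  let D : G → (G ⧸ A → Additive A × ℤ) := fun g x =>
    (Additive.ofMul ⟨_, hA g x⟩, (if x = (g : G ⧸ A) then 1 else 0) - (if x = 1 then 1 else 0))
  have hD : ∀ x y, D (x * y) = D x + ρ x (D y) := by
    intro g h
    funext x
    change D (g * h) x = D g x + D h ((g : G ⧸ A)⁻¹ * x)
    apply Prod.ext
    · apply Additive.toMul.injective
      apply Subtype.ext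
      change (s x)⁻¹ * (g * h) * s (((g * h : G) : G ⧸ A)⁻¹ * x)
        = ((s x)⁻¹ * g * s ((g : G ⧸ A)⁻¹ * x))
          * ((s ((g : G ⧸ A)⁻¹ * x))⁻¹ * h * s ((h : G ⧸ A)⁻¹ * ((g : G ⧸ A)⁻¹ * x)))
      rw [QuotientGroup.mk_mul, mul_inv_rev, mul_assoc (h : G ⧸ A)⁻¹]
      group
    · change ((if x = ((g * h : G) : G ⧸ A) then (1 : ℤ) else 0) - (if x = 1 then 1 else 0))
        = ((if x = (g : G ⧸ A) then 1 else 0) - (if x = 1 then 1 else 0))
          + ((if (g : G ⧸ A)⁻¹ * x = (h : G ⧸ A) then 1 else 0)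
            - (if (g : G ⧸ A)⁻¹ * x = 1 then 1 else 0))
      have e1 : ((g : G ⧸ A)⁻¹ * x = (h : G ⧸ A)) ↔ (x = ((g * h : G) : G ⧸ A)) := by
        rw [QuotientGroup.mk_mul]
        constructor
        · intro hh
          rw [← hh]
          group
        · intro hh
          rw [hh]
          group
      have e2 : ((g : G ⧸ A)⁻¹ * x = 1) ↔ (x = (g : G ⧸ A)) := by
        constructor
        · intro hh
          exact (inv_mul_eq_one.mp hh).symm
        · intro hh
          rw [hh]
          group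
      simp only [e1, e2]
      ring
  have hρ : ∀ a ∈ A, ρ a = 1 := by
    intro a ha
    apply AddMonoidHom.ext
    intro f
    funext x
    change f ((a : G ⧸ A)⁻¹ * x) = f x
    rw [(QuotientGroup.eq_one_iff a).mpr ha, inv_one, one_mul]
  refine ⟨G ⧸ A → Additive A × ℤ, inferInstance, ρ, D, hρ, hD, ?_⟩
  intro g
  constructor
  · intro h
    have h1 : (g : G ⧸ A) = 1 := by
      by_contra hne
      have h2 := congrArg Prod.snd (congrFun h (g : G ⧸ A))
      change ((if (g : G ⧸ A) = (g : G ⧸ A) then (1 : ℤ) else 0)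
        - (if (g : G ⧸ A) = 1 then 1 else 0)) = 0 at h2
      rw [if_pos rfl, if_neg hne, sub_zero] at h2
      exact one_ne_zero h2
    have h3 := congrArg Prod.fst (congrFun h (1 : G ⧸ A))
    have h4 : (s 1)⁻¹ * g * s ((g : G ⧸ A)⁻¹ * 1) = 1 :=
      congrArg (fun z : Additive A => ((Additive.toMul z : A) : G)) h3
    rw [h1, inv_one, one_mul] at h4
    have h5 : g = (s 1) * ((s 1)⁻¹ * g * s 1) * (s 1)⁻¹ := by group
    rw [h5, h4]
    group
  · rintro rfl
    have h1 := hD 1 1
    rw [mul_one, map_one] at h1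
    have h2 : D 1 = D 1 + D 1 := h1
    exact (left_eq_add.mp h2)

end Pool.Agent.WPR
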