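import Pool.Agent.Lib.MP_2da099_lc.R2.Defs

/-!
# I01: lists of instructions and their vectors

HINTS.  Inductions on the list.  `AddMonoidAlgebra` is a structure with the coefficient function
`F.coeff : (ℤ × ℤ) →₀ ℤ` (`AddMonoidAlgebra.single`, `AddMonoidAlgebra.coeff_single`, ext lemmas in
`Mathlib/Algebra/MonoidAlgebra/Defs.lean`).  `ipos_add`: `ipos (c + d) l` are the positions of `ipos c l`
moved by `d`.  `sum_vec_smul`: both sides are additive in the list.  `ipos_bound`: every move changes a
coordinate by at most one.
-/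

set_option autoImplicit false

namespace Pool.Agent.WPR

open Pool.Agent.Lib.PolyTime Pool.Agent.WPM Function

variable {k : ℕ}

theorem ipos_append (c : ℤ × ℤ) (I J : List (Ins k)) :
    ipos c (I ++ J) = ipos c I ++ ipos (endp c I) J := by
  induction I generalizing c with
  | nil => rfl
  | cons a I ih =>
    cases a with
    | inl m => exact ih _
    | inr κ =>
      show (c, κ) :: ipos c (I ++ J) = (c, κ) :: (ipos c I ++ ipos (endp c I) J)
      rw [ih]

theorem endp_append (c : ℤ × ℤ) (I J : List (Ins k)) : endp c (I ++ J) = endp (endp c I) J := by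
  induction I generalizing c with
  | nil => rfl
  | cons a I ih =>
    cases a with
    | inl m => exact ih _
    | inr κ => exact ih _

theorem ipos_add (c d : ℤ × ℤ) (I : List (Ins k)) :
    ipos (c + d) I = (ipos c I).map (fun x => (x.1 + d, x.2)) := by
  induction I generalizing c with
  | nil => rfl
  | cons a I ih =>
    cases a with
    | inl m =>
      show ipos (c + d + mvec m) I = (ipos (c + mvec m) I).map (fun x => (x.1 + d, x.2))
      rw [← ih, add_right_comm]
    | inr κ =>
      show (c + d, κ) :: ipos (c + d) I = (c + d, κ) :: (ipos c I).map (fun x => (x.1 + d, x.2))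
      rw [ih]

theorem endp_add (c d : ℤ × ℤ) (I : List (Ins k)) : endp (c + d) I = endp c I + d := by
  induction I generalizing c with
  | nil => rfl
  | cons a I ih =>
    cases a with
    | inl m =>
      show endp (c + d + mvec m) I = endp (c + mvec m) I + d
      rw [← ih, add_right_comm]
    | inr κ => exact ih _

theorem mm_add (v w : ℤ × ℤ) : mm (v + w) = mm v * mm w := by
  unfold mm
  rw [AddMonoidAlgebra.single_mul_single, one_mul]

theorem mm_zero : mm 0 = 1 := rfl

theorem i01_single_sum (c : ℤ × ℤ) (l : List ((ℤ × ℤ) × Fin k)) :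
    ((l.map (fun x => (x.1 + c, x.2))).map
      (fun x => (Pi.single x.2 (mm x.1) : Fin k → L2))).sum =
    mm c • (l.map (fun x => (Pi.single x.2 (mm x.1) : Fin k → L2))).sum := by
  induction l with
  | nil => simp
  | cons x l ih =>
    simp only [List.map_cons, List.sum_cons]
    rw [ih, smul_add]
    congr 1
    rw [mm_add, mul_comm, ← smul_eq_mul, Pi.single_smul]

theorem vec_append (I J : List (Ins k)) : vec (I ++ J) = vec I + mm (endp 0 I) • vec J := by
  unfold vec
  rw [ipos_append, List.map_append, List.sum_append, ← i01_single_sum, ← ipos_add, zero_add]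

/-- The value of a linear combination. -/
theorem sum_vec_smul {M : Type*} [AddCommGroup M] [Module L2 M] (b : Fin k → M)
    (I : List (Ins k)) :
    ∑ κ, vec I κ • b κ = ((ipos 0 I).map (fun x => mm x.1 • b x.2)).sum := by
  unfold vec
  generalize ipos 0 I = l
  induction l with
  | nil => simp
  | cons x l ih =>
    simp only [List.map_cons, List.sum_cons, Pi.add_apply, add_smul, Finset.sum_add_distrib]
    rw [ih]
    congr 1
    rw [Finset.sum_eq_single x.2]
    · rw [Pi.single_eq_same]
    · intro κ _ hκ
      rw [Pi.single_eq_of_ne hκ, zero_smul]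
    · intro h
      exact absurd (Finset.mem_univ _) h

theorem i01_coeff (l : List ((ℤ × ℤ) × Fin k)) (κ : Fin k) (c : ℤ × ℤ) :
    (((l.map (fun x => (Pi.single x.2 (mm x.1) : Fin k → L2))).sum κ).coeff c) =
      ((l.filter (fun x => x.1 = c)).map (fun x => if x.2 = κ then (1 : ℤ) else 0)).sum := by
  induction l with
  | nil => simp
  | cons x l ih =>
    simp only [List.map_cons, List.sum_cons, Pi.add_apply]
    have e1 : ((Pi.single x.2 (mm x.1) : Fin k → L2) κ).coeff c =
        if x.1 = c then (if x.2 = κ then (1 : ℤ) else 0) else 0 := by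
      by_cases h1 : x.2 = κ
      · rw [← h1, Pi.single_eq_same]
        unfold mm
        rw [AddMonoidAlgebra.coeff_single, Finsupp.single_apply]
        simp
      · rw [Pi.single_eq_of_ne (fun h => h1 h.symm)]
        simp [h1]
    rw [AddMonoidAlgebra.coeff_add, Finsupp.add_apply, ih, e1]
    by_cases h2 : x.1 = c
    · simp [h2]
    · simp [h2]

/-- The coefficients. -/
theorem vec_coeff (I : List (Ins k)) (κ : Fin k) (c : ℤ × ℤ) :
    (vec I κ).coeff c = fcoef (fun κ' => if κ' = κ then (1 : ℤ) else 0) I c :=
  i01_coeff _ _ _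

theorem i01_sub (l : List ((ℤ × ℤ) × Fin k)) (u v : Fin k → ℤ) :
    (l.map (fun x => u x.2)).sum - (l.map (fun x => v x.2)).sum =
      (l.map (fun x => u x.2 - v x.2)).sum := by
  induction l with
  | nil => simp
  | cons x l ih =>
    simp only [List.map_cons, List.sum_cons]
    rw [← ih]
    ring

theorem spoly_coeff (I : List (Ins 2)) (c : ℤ × ℤ) :
    (spoly I).coeff c = fcoef (fun κ => if κ = 0 then (1 : ℤ) else -1) I c := by
  have h1 : (spoly I).coeff c = (vec I 0).coeff c - (vec I 1).coeff c := by
    unfold spoly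
    rw [AddMonoidAlgebra.coeff_sub, Finsupp.sub_apply]
  rw [h1, vec_coeff, vec_coeff]
  refine (i01_sub ((ipos 0 I).filter (fun x => x.1 = c)) (fun κ' => if κ' = 0 then (1 : ℤ) else 0)
    (fun κ' => if κ' = 1 then (1 : ℤ) else 0)).trans ?_
  unfold fcoef
  congr 2
  funext x
  have : x.2 = 0 ∨ x.2 = 1 := by omega
  rcases this with h | h <;> simp [h]

theorem i01_bound (I : List (Ins k)) : ∀ c : ℤ × ℤ, ∀ x ∈ ipos c I,
    |x.1.1 - c.1| ≤ I.length ∧ |x.1.2 - c.2| ≤ I.length := by
  induction I with
  | nil =>
    intro c x hx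
    simp [ipos] at hx
  | cons a I ih =>
    intro c x hx
    cases a with
    | inl m =>
      have hx' : x ∈ ipos (c + mvec m) I := hx
      obtain ⟨h1, h2⟩ := ih _ x hx'
      have hm : |(mvec m).1| ≤ 1 ∧ |(mvec m).2| ≤ 1 := by
        unfold mvec
        split_ifs <;> simp
      rw [Prod.fst_add] at h1
      rw [Prod.snd_add] at h2
      simp only [List.length_cons, Nat.cast_add, Nat.cast_one]
      rw [abs_le] at h1 h2 ⊢
      rw [abs_le]
      have hm1 := abs_le.1 hm.1
      have hm2 := abs_le.1 hm.2
      omega
    | inr κ =>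
      have hx' : x ∈ (c, κ) :: ipos c I := hx
      simp only [List.length_cons, Nat.cast_add, Nat.cast_one]
      rcases List.mem_cons.1 hx' with h | h
      · rw [h]
        simp only [sub_self, abs_zero]
        omega
      · obtain ⟨h1, h2⟩ := ih c x h
        omega

theorem ipos_bound (I : List (Ins k)) : ∀ x ∈ ipos 0 I, |x.1.1| ≤ I.length ∧ |x.1.2| ≤ I.length := by
  intro x hx
  have h := i01_bound I 0 x hx
  simpa using h

theorem length_ipos (c : ℤ × ℤ) (I : List (Ins k)) : (ipos c I).length ≤ I.length := by
  induction I generalizing c with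
  | nil => exact le_rfl
  | cons a I ih =>
    cases a with
    | inl m =>
      show (ipos (c + mvec m) I).length ≤ I.length + 1
      exact (ih _).trans (Nat.le_succ _)
    | inr κ =>
      show (ipos c I).length + 1 ≤ I.length + 1
      exact Nat.succ_le_succ (ih _)

theorem i01_norm (u : Fin k → ℤ) (hu : ∀ κ, (u κ).natAbs ≤ 1) (s : Finset (ℤ × ℤ))
    (l : List ((ℤ × ℤ) × Fin k)) :
    ∑ c ∈ s, (((l.filter (fun x => x.1 = c)).map (fun x => u x.2)).sum).natAbs ≤ l.length := by
  induction l with
  | nil => simp
  | cons x l ih =>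
    have h1 : ∀ c ∈ s, ((((x :: l).filter (fun x => x.1 = c)).map (fun x => u x.2)).sum).natAbs ≤
        (if c = x.1 then 1 else 0) +
          (((l.filter (fun x => x.1 = c)).map (fun x => u x.2)).sum).natAbs := by
      intro c _
      by_cases h : x.1 = c
      · have e : (x :: l).filter (fun x => x.1 = c) = x :: l.filter (fun x => x.1 = c) := by
          rw [List.filter_cons, if_pos (by simpa using h)]
        rw [e, List.map_cons, List.sum_cons, if_pos h.symm]
        exact (Int.natAbs_add_le _ _).trans (Nat.add_le_add_right (hu _) _)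
      · have e : (x :: l).filter (fun x => x.1 = c) = l.filter (fun x => x.1 = c) := by
          rw [List.filter_cons, if_neg (by simpa using h)]
        rw [e, if_neg (fun h' => h h'.symm), zero_add]
    refine (Finset.sum_le_sum h1).trans ?_
    rw [Finset.sum_add_distrib, List.length_cons, add_comm]
    refine Nat.add_le_add ih ?_
    rw [Finset.sum_ite_eq']
    split_ifs <;> omega

theorem norm1_spoly (I : List (Ins 2)) : norm1 (spoly I) ≤ I.length := by
  unfold norm1
  refine le_trans ?_ (length_ipos 0 I)
  refine le_trans (le_of_eq ?_) (i01_norm (fun κ => if κ = 0 then (1 : ℤ) else -1) ?_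
    (spoly I).coeff.support (ipos 0 I))
  · refine Finset.sum_congr rfl fun c _ => ?_
    rw [spoly_coeff]
    rfl
  · intro κ
    split_ifs <;> simp

theorem spoly_support (I : List (Ins 2)) : ∀ c ∈ (spoly I).coeff.support,
    ∃ x ∈ ipos 0 I, x.1 = c := by
  intro c hc
  rw [Finsupp.mem_support_iff, spoly_coeff] at hc
  by_contra hcon
  push Not at hcon
  apply hc
  unfold fcoef
  have : (ipos 0 I).filter (fun x => x.1 = c) = [] := by
    rw [List.filter_eq_nil_iff]
    intro x hx
    simpa using hcon x hx
  rw [this]
  rfl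

end Pool.Agent.WPR
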