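import Pool.Agent.Lib.MP_2da099_lc.R2.B01
import Pool.Agent.Lib.MP_2da099_lc.R2.P05
import Pool.Agent.Lib.MP_2da099_lc.R2.I01
import Pool.Agent.Lib.MP_2da099_lc.C09
import Mathlib.GroupTheory.FiniteAbelian.Basic
import Mathlib.Algebra.Module.Hom

/-!
# B02: from words to instructions

HINTS.  `Q = G ⧸ A` is abelian and generated by the classes of the `g i`; `X = ⟨x̄ 0, x̄ 1⟩ ≤ Q`; `Q ⧸ X` is finitely
generated, abelian and torsion, hence finite.  Let `f̂ : Q ⧸ X → G` be representatives, `f̂ 1 = 1`.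
For a coset `f` and a letter `l` (group element `γ l = g i` or `(g i)⁻¹`) there are the coset `f' = f * l` and
`v (f, l) = (v0, v1) ∈ ℤ ^ 2` with `f̂ f * γ l ∈ x 0 ^ v0 * x 1 ^ v1 * f̂ f' * A`.
`M, ρ, D` from `exists_derivationZ`; `ρ` factors through `Q`, which is commutative, so all `ρ` commute.  `M` is a
module over `L2`: `mm v` acts as `ρ (x 0) ^ v.1 * ρ (x 1) ^ v.2` (ring homomorphism `L2 → AddMonoid.End M`
by `AddMonoidAlgebra.lift`, `Module.compHom`).
`k = |Q ⧸ X| * |Letter r|`, colours `κ = (f, l)` via a bijection with `Fin k`; `b κ = ρ (f̂ f) (D (γ l))`,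
`N = {F | Σ F κ • b κ = 0}`.
`tr w = (trans (fun f l => (f', (f, l))) 1 w).flatMap out`, `out (f, l)` = the token `(f, l)` followed by `|v0| + |v1|`
unit moves with the sum `v (f, l)`.
Claim (induction on `w`, for all starts): if `y ∈ x ^ c * f̂ f * A` then
`ρ y (D (value g w))` is the sum of `mm z.1 • b z.2` over `ipos c (tr f w)`; `D (γ l * y') = D (γ l) + ρ (γ l) (D y')`.
For `y = 1`: `D (value g w) = Σ vec (tr w) κ • b κ` (`sum_vec_smul`), and `D y = 0 ↔ y = 1`.
Cost: `CT.transduce`, `ct_flatMapFin`; `length ≤ C * (n + 1)`, the constant is the maximal length of an output.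
-/

set_option autoImplicit false

namespace Pool.Agent.WPR

open Pool.Agent.Lib.PolyTime Pool.Agent.WPM Function

universe u

/-- the group element of a letter -/
def b02_let {G : Type u} [Group G] {r : ℕ} (g : Fin r → G) (l : Letter r) : G :=
  if l.2 then g l.1 else (g l.1)⁻¹

theorem b02_value_cons {G : Type u} [Group G] {r : ℕ} (g : Fin r → G) (l : Letter r)
    (w : List (Letter r)) : value g (l :: w) = b02_let g l * value g w := by
  simp [value, b02_let]

/-- the finite automaton of the cosets -/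
theorem b02_cosets {G : Type u} [Group G] (A : Subgroup G) [A.Normal]
    (hquot : ∀ x y : G, x * y * x⁻¹ * y⁻¹ ∈ A) {r : ℕ} (g : Fin r → G)
    (hg : Subgroup.closure (Set.range g) = ⊤) (x : Fin 2 → G)
    (hx : ∀ h : G, ∃ k, 0 < k ∧ h ^ k ∈ Subgroup.closure (Set.range x) ⊔ A) :
    ∃ (m : ℕ) (s₀ : Fin m) (rep : Fin m → G) (nx : Fin m → Letter r → Fin m)
      (v : Fin m → Letter r → ℤ × ℤ), rep s₀ = 1 ∧
      ∀ s l, ((rep s * b02_let g l : G) : G ⧸ A) =
        ((x 0 ^ (v s l).1 * x 1 ^ (v s l).2 * rep (nx s l) : G) : G ⧸ A) := by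
  classical
  let iQ : CommGroup (G ⧸ A) :=
    { (inferInstance : Group (G ⧸ A)) with
      mul_comm := by
        intro a b
        induction a using QuotientGroup.induction_on with
        | H a =>
          induction b using QuotientGroup.induction_on with
          | H b =>
            rw [← QuotientGroup.mk_mul, ← QuotientGroup.mk_mul, QuotientGroup.eq]
            have h := hquot b⁻¹ a⁻¹
            rw [inv_inv, inv_inv] at h
            have e : (a * b)⁻¹ * (b * a) = b⁻¹ * a⁻¹ * b * a := by group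
            rw [e]
            exact h }
  let π : G →* G ⧸ A := QuotientGroup.mk' A
  have hπ : Function.Surjective π := QuotientGroup.mk'_surjective A
  let X : Subgroup (G ⧸ A) := Subgroup.closure {π (x 0), π (x 1)}
  have hrange : Set.range x = {x 0, x 1} := by
    ext z
    constructor
    · rintro ⟨i, rfl⟩
      fin_cases i
      · exact Or.inl rfl
      · exact Or.inr rfl
    · rintro (rfl | rfl)
      · exact ⟨0, rfl⟩
      · exact ⟨1, rfl⟩
  have hXpow : ∀ q : G ⧸ A, ∃ k, 0 < k ∧ q ^ k ∈ X := by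
    intro q
    obtain ⟨h, rfl⟩ := hπ q
    obtain ⟨k, hk, hm⟩ := hx h
    refine ⟨k, hk, ?_⟩
    have h1 : Subgroup.closure (Set.range x) ⊔ A ≤ X.comap π := by
      refine sup_le ?_ ?_
      · rw [Subgroup.closure_le, hrange]
        rintro z (rfl | rfl)
        · exact Subgroup.subset_closure (Or.inl rfl)
        · exact Subgroup.subset_closure (Or.inr rfl)
      · intro a ha
        have : π a = 1 := (QuotientGroup.eq_one_iff a).mpr ha
        show π a ∈ X
        rw [this]
        exact X.one_mem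
    have h2 := h1 hm
    rw [Subgroup.mem_comap, map_pow] at h2
    exact h2
  have hGfg : Group.FG G := Group.fg_iff.mpr ⟨Set.range g, hg, Set.finite_range g⟩
  have hFfg : Group.FG ((G ⧸ A) ⧸ X) :=
    Group.fg_of_surjective (f := (QuotientGroup.mk' X).comp π)
      ((QuotientGroup.mk'_surjective X).comp hπ)
  have htor : IsMulTorsion ((G ⧸ A) ⧸ X) := by
    intro f
    obtain ⟨q, rfl⟩ := QuotientGroup.mk'_surjective X f
    obtain ⟨k, hk, hm⟩ := hXpow q
    rw [isOfFinOrder_iff_pow_eq_one]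
    refine ⟨k, hk, ?_⟩
    rw [← map_pow]
    exact (QuotientGroup.eq_one_iff _).mpr hm
  have hfin : Finite ((G ⧸ A) ⧸ X) := CommGroup.finite_of_fg_isMulTorsion _ htor
  let φ : G →* (G ⧸ A) ⧸ X := (QuotientGroup.mk' X).comp π
  have hφ : Function.Surjective φ := (QuotientGroup.mk'_surjective X).comp hπ
  obtain ⟨m, ⟨e⟩⟩ := Finite.exists_equiv_fin ((G ⧸ A) ⧸ X)
  choose out hout using hφ
  let rep : Fin m → G := fun s => if e.symm s = 1 then 1 else out (e.symm s)
  have hrep : ∀ s, φ (rep s) = e.symm s := by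
    intro s
    by_cases h : e.symm s = 1
    · show φ (if e.symm s = 1 then 1 else out (e.symm s)) = e.symm s
      rw [if_pos h, map_one, h]
    · show φ (if e.symm s = 1 then 1 else out (e.symm s)) = e.symm s
      rw [if_neg h, hout]
  let nx : Fin m → Letter r → Fin m := fun s l => e (e.symm s * φ (b02_let g l))
  have hex : ∀ (s : Fin m) (l : Letter r), ∃ v : ℤ × ℤ,
      ((rep s * b02_let g l : G) : G ⧸ A) =
        ((x 0 ^ v.1 * x 1 ^ v.2 * rep (nx s l) : G) : G ⧸ A) := by
    intro s l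
    have h1 : φ (rep s * b02_let g l) = φ (rep (nx s l)) := by
      rw [map_mul, hrep, hrep]
      show _ = e.symm (e (e.symm s * φ (b02_let g l)))
      rw [Equiv.symm_apply_apply]
    have h2 : (π (rep (nx s l)))⁻¹ * π (rep s * b02_let g l) ∈ X := by
      rw [← QuotientGroup.eq]
      exact h1.symm
    obtain ⟨a, b, hab⟩ := Subgroup.mem_closure_pair.mp h2
    refine ⟨(a, b), ?_⟩
    show π (rep s * b02_let g l) = π (x 0 ^ a * x 1 ^ b * rep (nx s l))
    rw [map_mul π (x 0 ^ a * x 1 ^ b), map_mul π (x 0 ^ a), map_zpow, map_zpow, hab, mul_comm,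
      mul_inv_cancel_left]
  choose v hv using hex
  refine ⟨m, e 1, rep, nx, v, ?_, hv⟩
  show (if e.symm (e 1) = 1 then 1 else out (e.symm (e 1))) = 1
  rw [if_pos (Equiv.symm_apply_apply e 1)]

/-- moves with the sum `v` -/
def b02_moves {k : ℕ} (v : ℤ × ℤ) : List (Ins k) :=
  List.replicate v.1.natAbs (Sum.inl (0, decide (0 ≤ v.1))) ++
    List.replicate v.2.natAbs (Sum.inl (1, decide (0 ≤ v.2)))

theorem b02_ipos_replicate {k : ℕ} (m : Fin 2 × Bool) (L : List (Ins k)) :
    ∀ (n : ℕ) (c : ℤ × ℤ), ipos c (List.replicate n (Sum.inl m) ++ L) =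
      ipos (c + n • mvec m) L := by
  intro n
  induction n with
  | zero => intro c; simp
  | succ n ih =>
    intro c
    rw [List.replicate_succ, List.cons_append]
    show ipos (c + mvec m) (List.replicate n (Sum.inl m) ++ L) = _
    rw [ih, succ_nsmul, add_assoc, add_comm (mvec m)]

theorem b02_mvec (v : ℤ × ℤ) : v.1.natAbs • mvec (0, decide (0 ≤ v.1)) +
    v.2.natAbs • mvec (1, decide (0 ≤ v.2)) = v := by
  have h1 : (0 ≤ v.1 → |v.1| = v.1) ∧ (¬ 0 ≤ v.1 → |v.1| = -v.1) :=
    ⟨fun h => abs_of_nonneg h, fun h => abs_of_neg (by omega)⟩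
  have h2 : (0 ≤ v.2 → |v.2| = v.2) ∧ (¬ 0 ≤ v.2 → |v.2| = -v.2) :=
    ⟨fun h => abs_of_nonneg h, fun h => abs_of_neg (by omega)⟩
  by_cases a1 : 0 ≤ v.1 <;> by_cases a2 : 0 ≤ v.2
  · apply Prod.ext <;> simp [mvec, a1, a2, h1.1 a1, h2.1 a2]
  · apply Prod.ext <;> simp [mvec, a1, a2, h1.1 a1, h2.2 a2]
  · apply Prod.ext <;> simp [mvec, a1, a2, h1.2 a1, h2.1 a2]
  · apply Prod.ext <;> simp [mvec, a1, a2, h1.2 a1, h2.2 a2]

theorem b02_ipos_moves {k : ℕ} (c v : ℤ × ℤ) (L : List (Ins k)) :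
    ipos c (b02_moves v ++ L) = ipos (c + v) L := by
  rw [b02_moves, List.append_assoc, b02_ipos_replicate, b02_ipos_replicate, add_assoc, b02_mvec]

/-- the output of the transducer -/
def b02_out {k m r : ℕ} (e : Fin m × Letter r → Fin k) (v : Fin m → Letter r → ℤ × ℤ)
    (q : Fin m × Letter r) : List (Ins k) := Sum.inr (e q) :: b02_moves (v q.1 q.2)

/-- the translation -/
def b02_tr {k m r : ℕ} (e : Fin m × Letter r → Fin k) (nx : Fin m → Letter r → Fin m)
    (v : Fin m → Letter r → ℤ × ℤ) (s : Fin m) (w : List (Letter r)) : List (Ins k) :=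
  (trans (fun s l => (nx s l, (s, l))) s w).flatMap (b02_out e v)

theorem b02_ct {k m r : ℕ} (e : Fin m × Letter r → Fin k) (nx : Fin m → Letter r → Fin m)
    (v : Fin m → Letter r → ℤ × ℤ) (s : Fin m) :
    CT (b02_tr e nx v s) (fun w => (w.length + 1) ^ 2) := by
  have h1 := CT.transduce (fun (s : Fin m) (l : Letter r) => (nx s l, (s, l))) s
  have h2 := ct_flatMapFin (α := Fin m × Letter r) (b02_out e v)
  refine (h2.comp h1).mono 2 (fun w => ?_)
  show w.length + (trans (fun (s : Fin m) (l : Letter r) => (nx s l, (s, l))) s w).length ≤ _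
  rw [c09_length_trans]
  nlinarith

theorem b02_length {k m r : ℕ} (e : Fin m × Letter r → Fin k) (nx : Fin m → Letter r → Fin m)
    (v : Fin m → Letter r → ℤ × ℤ) (s : Fin m) : ∃ C : ℕ, ∀ w : List (Letter r),
      (b02_tr e nx v s w).length ≤ C * (w.length + 1) := by
  classical
  refine ⟨Finset.univ.sup (fun q : Fin m × Letter r => (b02_out e v q).length), fun w => ?_⟩
  have h : ∀ L : List (Fin m × Letter r), (L.flatMap (b02_out e v)).length ≤
      Finset.univ.sup (fun q : Fin m × Letter r => (b02_out e v q).length) * L.length := by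
    intro L
    induction L with
    | nil => simp
    | cons q L ih =>
      rw [List.flatMap_cons, List.length_append, List.length_cons, Nat.mul_add, mul_one]
      have := Finset.le_sup (f := fun q : Fin m × Letter r => (b02_out e v q).length)
        (Finset.mem_univ q)
      omega
  refine (h _).trans ?_
  rw [c09_length_trans]
  exact Nat.mul_le_mul_left _ (Nat.le_succ _)

theorem exists_instr {G : Type u} [Group G] (A : Subgroup G) [A.Normal]
    (hcomm : ∀ a ∈ A, ∀ b ∈ A, a * b = b * a)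
    (hquot : ∀ x y : G, x * y * x⁻¹ * y⁻¹ ∈ A) {r : ℕ} (g : Fin r → G)
    (hg : Subgroup.closure (Set.range g) = ⊤) (x : Fin 2 → G)
    (hx : ∀ h : G, ∃ k, 0 < k ∧ h ^ k ∈ Subgroup.closure (Set.range x) ⊔ A) :
    ∃ (k : ℕ) (N : Submodule L2 (Fin k → L2)) (tr : List (Letter r) → List (Ins k)) (C : ℕ),
      CT tr (fun w => (w.length + 1) ^ 2) ∧ (∀ w, (tr w).length ≤ C * (w.length + 1)) ∧
      ∀ w, value g w = 1 ↔ vec (tr w) ∈ N := by
  classical
  obtain ⟨m, s₀, rep, nx, v, hrep0, hrep⟩ := b02_cosets A hquot g hg x hx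
  obtain ⟨M, iM, ρ, D, hρA, hD, hD0⟩ := exists_derivationZ A hcomm
  -- `ρ` factors through the quotient
  have hρ : ∀ y z : G, (y : G ⧸ A) = (z : G ⧸ A) → ρ y = ρ z := by
    intro y z h
    have h1 : y⁻¹ * z ∈ A := QuotientGroup.eq.mp h
    have h2 : z = y * (y⁻¹ * z) := by group
    rw [h2, map_mul, hρA _ h1, mul_one]
  have hρc : ∀ y z : G, ρ y * ρ z = ρ z * ρ y := by
    intro y z
    have h2 : y * z = (y * z * y⁻¹ * z⁻¹) * (z * y) := by group
    rw [← map_mul, ← map_mul, h2, map_mul, hρA _ (hquot y z), one_mul]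
  let θ : Multiplicative (ℤ × ℤ) →* AddMonoid.End M :=
    { toFun := fun c => ρ (x 0 ^ (Multiplicative.toAdd c).1 * x 1 ^ (Multiplicative.toAdd c).2)
      map_one' := by
        show ρ (x 0 ^ (0 : ℤ) * x 1 ^ (0 : ℤ)) = 1
        rw [zpow_zero, zpow_zero, mul_one, map_one]
      map_mul' := by
        intro a b
        show ρ (x 0 ^ ((Multiplicative.toAdd a).1 + (Multiplicative.toAdd b).1) *
          x 1 ^ ((Multiplicative.toAdd a).2 + (Multiplicative.toAdd b).2)) = _
        rw [zpow_add, zpow_add, map_mul, map_mul, map_mul, map_mul, map_mul]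
        rw [mul_assoc, mul_assoc, ← mul_assoc (ρ (x 0 ^ (Multiplicative.toAdd b).1)),
          hρc (x 0 ^ (Multiplicative.toAdd b).1), mul_assoc] }
  let Φ : L2 →+* AddMonoid.End M :=
    (AddMonoidAlgebra.lift ℤ (AddMonoid.End M) (ℤ × ℤ) θ : L2 →ₐ[ℤ] AddMonoid.End M).toRingHom
  let iMod : Module L2 M := Module.compHom M Φ
  have hmm : ∀ (c : ℤ × ℤ) (y : M), mm c • y = ρ (x 0 ^ c.1 * x 1 ^ c.2) y := by
    intro c y
    show (Φ (mm c)) y = _
    have h1 : Φ (mm c) = ρ (x 0 ^ c.1 * x 1 ^ c.2) := by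
      show AddMonoidAlgebra.lift ℤ (AddMonoid.End M) (ℤ × ℤ) θ (AddMonoidAlgebra.single c 1) = _
      rw [AddMonoidAlgebra.lift_single, one_smul]
      rfl
    rw [h1]
  obtain ⟨k, ⟨e⟩⟩ := Finite.exists_equiv_fin (Fin m × Letter r)
  let b : Fin k → M := fun κ => ρ (rep (e.symm κ).1) (D (b02_let g (e.symm κ).2))
  obtain ⟨C, hC⟩ := b02_length e nx v s₀
  refine ⟨k, LinearMap.ker (Fintype.linearCombination L2 b), b02_tr e nx v s₀, C,
    b02_ct e nx v s₀, hC, ?_⟩
  have hclaim : ∀ (w : List (Letter r)) (s : Fin m) (c : ℤ × ℤ) (y : G),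
      (y : G ⧸ A) = ((x 0 ^ c.1 * x 1 ^ c.2 * rep s : G) : G ⧸ A) →
      ρ y (D (value g w)) =
        ((ipos c (b02_tr e nx v s w)).map (fun z => mm z.1 • b z.2)).sum := by
    intro w
    induction w with
    | nil =>
      intro s c y _
      have h1 : D (value g ([] : List (Letter r))) = 0 := (hD0 _).mpr (by simp [value])
      rw [h1, map_zero]
      rfl
    | cons l w ih =>
      intro s c y hy
      have e1 : b02_tr e nx v s (l :: w) =
          Sum.inr (e (s, l)) :: (b02_moves (v s l) ++ b02_tr e nx v (nx s l) w) := by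
        rw [b02_tr]
        show (b02_out e v (s, l)) ++ _ = _
        rfl
      have hnext : ((y * b02_let g l : G) : G ⧸ A) =
          ((x 0 ^ (c + v s l).1 * x 1 ^ (c + v s l).2 * rep (nx s l) : G) : G ⧸ A) := by
        have h2 : ((y * b02_let g l : G) : G ⧸ A) =
            ((x 0 ^ c.1 * x 1 ^ c.2 * rep s : G) : G ⧸ A) * ((b02_let g l : G) : G ⧸ A) := by
          rw [QuotientGroup.mk_mul, hy]
        rw [h2, ← QuotientGroup.mk_mul, mul_assoc, QuotientGroup.mk_mul, hrep s l,
          ← QuotientGroup.mk_mul, QuotientGroup.eq]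
        have h3 : (x 0 ^ c.1 * x 1 ^ c.2 * (x 0 ^ (v s l).1 * x 1 ^ (v s l).2 * rep (nx s l)))⁻¹ *
            (x 0 ^ (c + v s l).1 * x 1 ^ (c + v s l).2 * rep (nx s l)) =
            (rep (nx s l))⁻¹ * ((x 1 ^ (v s l).2)⁻¹ * ((x 0 ^ (v s l).1)⁻¹ *
              (x 1 ^ c.2)⁻¹ * ((x 0 ^ (v s l).1)⁻¹)⁻¹ * ((x 1 ^ c.2)⁻¹)⁻¹) *
              ((x 1 ^ (v s l).2)⁻¹)⁻¹) * ((rep (nx s l))⁻¹)⁻¹ := by
          rw [Prod.fst_add, Prod.snd_add, zpow_add, zpow_add]
          group
        rw [h3]
        exact Subgroup.Normal.conj_mem inferInstance _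
          (Subgroup.Normal.conj_mem inferInstance _ (hquot _ _) _) _
      rw [b02_value_cons, hD, map_add, e1]
      show ρ y (D (b02_let g l)) + ρ y (ρ (b02_let g l) (D (value g w))) =
        mm c • b (e (s, l)) + _
      congr 1
      · rw [hmm, hρ y _ hy, map_mul]
        show _ = ρ (x 0 ^ c.1 * x 1 ^ c.2) (ρ (rep (e.symm (e (s, l))).1)
          (D (b02_let g (e.symm (e (s, l))).2)))
        rw [Equiv.symm_apply_apply]
        rfl
      · have h4 := ih (nx s l) (c + v s l) (y * b02_let g l) hnext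
        rw [map_mul] at h4
        rw [b02_ipos_moves]
        exact h4
  intro w
  have h1 := hclaim w s₀ 0 1 (by
    rw [hrep0]
    simp)
  have h2 : ρ 1 (D (value g w)) = D (value g w) := by rw [map_one]; rfl
  rw [h2] at h1
  rw [LinearMap.mem_ker, Fintype.linearCombination_apply, sum_vec_smul, ← h1]
  exact (hD0 _).symm

end Pool.Agent.WPR
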