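import Pool.Agent.Lib.MP_2da099_lc.R2.R07
import Pool.Agent.Lib.MP_2da099_lc.R2.I01

/-!
# B03: components killed by an integer

HINTS.  `mod E : L2-vectors → functions`: for `F : Fin k → L2` let `red F : (ℤ × ℤ) →₀ (Fin k → ZMod E)`,
`red F c κ = ((F κ).coeff c : ZMod E)` (an additive map, surjective, kernel = the vectors divisible by `E`).
`N = {R | ∃ F ∈ Q, red F = R}` (an additive subgroup, translation invariant: `red (mm v • F) = sh v (red F)`).
`red (vec I) = ftok (Pi.single κ 1) I` and `F ∈ Q ↔ red F ∈ N` because `E • x ∈ Q` for all `x`: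
if `red F = red F'`, `F' ∈ Q`, then `F - F' = E • x`.
-/

set_option autoImplicit false

namespace Pool.Agent.WPR

open Pool.Agent.Lib.PolyTime Pool.Agent.WPM Function

theorem b03_coeff (v : ℤ × ℤ) (F : L2) (c : ℤ × ℤ) : (mm v * F).coeff c = F.coeff (c - v) := by
  rw [mm, AddMonoidAlgebra.coeff_single_mul_eq_mul_coeff (c - v), one_mul]
  intro m' _
  constructor
  · intro h
    rw [← h]; abel
  · intro h
    rw [h]; abel

theorem b03_sh {V : Type} [AddCommGroup V] (v : ℤ × ℤ) (R : (ℤ × ℤ) →₀ V) (c : ℤ × ℤ) :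
    sh v R c = R (c - v) := by
  have h : c = (fun c : ℤ × ℤ => c + v) (c - v) := by simp
  rw [sh]
  conv_lhs => rw [h]
  exact Finsupp.mapDomain_apply (add_left_injective v) R (c - v)

theorem b03_fcoef {k E : ℕ} (I : List (Ins k)) (c : ℤ × ℤ) (κ : Fin k) :
    fcoef (fun κ => (Pi.single κ 1 : Fin k → ZMod E)) I c κ =
      ((fcoef (fun κ' => if κ' = κ then (1 : ℤ) else 0) I c : ℤ) : ZMod E) := by
  rw [fcoef, fcoef]
  generalize (ipos 0 I).filter (fun x => x.1 = c) = L
  induction L with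
  | nil => simp
  | cons x L ih =>
    rw [List.map_cons, List.map_cons, List.sum_cons, List.sum_cons, Pi.add_apply, ih, Int.cast_add]
    congr 1
    by_cases h : x.2 = κ
    · rw [if_pos h, h, Pi.single_eq_same, Int.cast_one]
    · rw [if_neg h, Pi.single_eq_of_ne (Ne.symm h), Int.cast_zero]

/-- the reductions of the elements of `Q` -/
def b03_N {k : ℕ} (E : ℕ) (Q : Submodule L2 (Fin k → L2)) :
    AddSubgroup ((ℤ × ℤ) →₀ (Fin k → ZMod E)) where
  carrier := {R | ∃ F ∈ Q, ∀ c κ, (((F κ).coeff c : ℤ) : ZMod E) = R c κ}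
  zero_mem' := ⟨0, Q.zero_mem, fun c κ => by simp⟩
  add_mem' := by
    rintro R R' ⟨F, hF, h⟩ ⟨F', hF', h'⟩
    refine ⟨F + F', Q.add_mem hF hF', fun c κ => ?_⟩
    show (((F κ).coeff c + (F' κ).coeff c : ℤ) : ZMod E) = R c κ + R' c κ
    rw [Int.cast_add, h, h']
  neg_mem' := by
    rintro R ⟨F, hF, h⟩
    refine ⟨-F, Q.neg_mem hF, fun c κ => ?_⟩
    show ((-(F κ).coeff c : ℤ) : ZMod E) = -R c κ
    rw [Int.cast_neg, h]

theorem b03_div (E : ℕ) (y : L2) (h : ∀ c, ((y.coeff c : ℤ) : ZMod E) = 0) :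
    ∃ x : L2, (E : L2) * x = y := by
  refine ⟨AddMonoidAlgebra.ofCoeff (y.coeff.mapRange (fun z => z / (E : ℤ)) (by simp)), ?_⟩
  rw [← nsmul_eq_mul]
  apply AddMonoidAlgebra.coeff_injective
  rw [AddMonoidAlgebra.coeff_smul]
  ext c
  rw [Finsupp.smul_apply, AddMonoidAlgebra.coeff_ofCoeff, Finsupp.mapRange_apply, nsmul_eq_mul]
  exact Int.mul_ediv_cancel' ((ZMod.intCast_zmod_eq_zero_iff_dvd _ _).mp (h c))

theorem quad_comp_torsion {k : ℕ} (Q : Submodule L2 (Fin k → L2)) (E : ℕ) (hE : E ≠ 0)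
    (hQ : ∀ x : Fin k → L2, (E : L2) • x ∈ Q) : Quad (fun I : List (Ins k) => vec I ∈ Q) := by
  have hne : NeZero E := ⟨hE⟩
  refine (quad_torsion (b03_N E Q) ?_).congr (fun I => ?_)
  · rintro v R ⟨F, hF, h⟩
    refine ⟨mm v • F, Q.smul_mem _ hF, fun c κ => ?_⟩
    rw [Pi.smul_apply, smul_eq_mul, b03_coeff, h, b03_sh]
  · have key : ∀ c κ, (((vec I κ).coeff c : ℤ) : ZMod E) =
        ftok (fun κ => (Pi.single κ 1 : Fin k → ZMod E)) I c κ := by
      intro c κ
      rw [ftok_apply, b03_fcoef, vec_coeff]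
    constructor
    · rintro ⟨F, hF, h⟩
      have hd : ∀ κ, ∃ x : L2, (E : L2) * x = vec I κ - F κ := by
        intro κ
        refine b03_div E _ (fun c => ?_)
        have h1 : (vec I κ - F κ).coeff c = (vec I κ).coeff c - (F κ).coeff c := rfl
        rw [h1, Int.cast_sub, key, h, sub_self]
      choose x hx using hd
      have h2 : vec I = F + (E : L2) • x := by
        funext κ
        rw [Pi.add_apply, Pi.smul_apply, smul_eq_mul, hx]
        ring
      show vec I ∈ Q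
      rw [h2]
      exact Q.add_mem hF (hQ x)
    · intro hI
      exact ⟨vec I, hI, key⟩

end Pool.Agent.WPR
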