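import Pool.Agent.Lib.MP_2da099_lc.R2.Z02
import Pool.Agent.Lib.MP_2da099_lc.R2.I01
import Mathlib.LinearAlgebra.TensorProduct.Basic
import Mathlib.RingTheory.TensorProduct.Basic
import Mathlib.Algebra.Module.LocalizedModule.Basic
import Mathlib.RingTheory.Localization.BaseChange
import Mathlib.RingTheory.Algebraic.Integral
import Mathlib.RingTheory.Finiteness.Subalgebra
import Mathlib.Algebra.Polynomial.Reverse
import Mathlib.LinearAlgebra.FiniteDimensional.Basic

/-!
# B04: components of finite rank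

HINTS.  `W = (Fin k → L2) ⧸ Q` is torsion-free over `ℤ` by `hsat`.  `V = ℚ ⊗[ℤ] W` (or the localisation); `W → V`
is injective.  `V` is finite-dimensional over `ℚ`: it is spanned by the classes of `mm (i, j) • e_κ`, and modulo `Q`
it suffices to take `0 ≤ i < d1`, `0 ≤ j < d2`: `g1 = φ(Y1)` with `embX φ • x ∈ Q` for all `x`; `φ = X ^ a φ'` with
`φ'(0) ≠ 0`, and `embX φ' • x ∈ Q` too since `mm` is a unit; over `ℚ` the leading and the lowest coefficients are
invertible, so `Y1 ^ {d1}` and `Y1 ^ {-1}` are linear combinations of `1, ..., Y1 ^ {d1 - 1}` modulo `Q`; the span of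
the classes with bounded exponents is invariant under `Y1 ^ {± 1}`, `Y2 ^ {± 1}`, hence everything.
`T v` = multiplication by `mm v` (`LinearMap.lTensor`/`Module.End`), `u κ = 1 ⊗ e_κ`; then the sum in `quad_fin` is the
class of `vec I` (`vec I` is the sum of the `Pi.single x.2 (mm x.1)`).
If the bookkeeping with `⊗` is unpleasant: any `ℚ`-vector space `V` with an additive injective map from `W` whose
image spans `V` will do.
-/

set_option autoImplicit false

namespace Pool.Agent.WPR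

open Pool.Agent.Lib.PolyTime Pool.Agent.WPM Function

open scoped TensorProduct

/-- The action of the Laurent polynomials on the rational space of a module. -/
noncomputable def b04_Phi (W : Type) [AddCommGroup W] [Module L2 W] :
    L2 →+* Module.End ℚ (ℚ ⊗[ℤ] W) :=
  (Module.End.baseChangeHom ℤ ℚ W).toRingHom.comp (Module.toModuleEnd ℤ W)

theorem b04_Phi_tmul (W : Type) [AddCommGroup W] [Module L2 W] (F : L2) (q : ℚ) (w : W) :
    b04_Phi W F (q ⊗ₜ[ℤ] w) = q ⊗ₜ[ℤ] (F • w) := rfl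

theorem b04_Phi_zero (W : Type) [AddCommGroup W] [Module L2 W] (F : L2)
    (h : ∀ w : W, F • w = 0) : b04_Phi W F = 0 := by
  refine LinearMap.ext fun x => ?_
  rw [LinearMap.zero_apply]
  induction x using TensorProduct.induction_on with
  | zero => exact map_zero _
  | tmul q w => rw [b04_Phi_tmul, h, TensorProduct.tmul_zero]
  | add x y hx hy => rw [map_add, hx, hy, add_zero]

theorem b04_int (W : Type) [AddCommGroup W] [Module L2 W] (g : L2) (p : Polynomial ℤ)
    (hp : p ≠ 0) (h : ∀ w : W, Polynomial.eval₂ (Int.castRingHom L2) g p • w = 0) :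
    IsIntegral ℚ (b04_Phi W g) := by
  rw [← isAlgebraic_iff_isIntegral]
  refine ⟨p.map (Int.castRingHom ℚ), ?_, ?_⟩
  · rw [Ne, Polynomial.map_eq_zero_iff (Int.castRingHom ℚ).injective_int]
    exact hp
  · rw [Polynomial.aeval_def, Polynomial.eval₂_map]
    have h1 : ((algebraMap ℚ (Module.End ℚ (ℚ ⊗[ℤ] W))).comp (Int.castRingHom ℚ)) =
        (b04_Phi W).comp (Int.castRingHom L2) := RingHom.ext_int _ _
    rw [h1, ← Polynomial.hom_eval₂]
    exact b04_Phi_zero W _ h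

theorem b04_mm_pow (v : ℤ × ℤ) (n : ℕ) : mm (n • v) = mm v ^ n := by
  induction n with
  | zero => rw [zero_smul, pow_zero, mm_zero]
  | succ n ih => rw [succ_nsmul, mm_add, ih, pow_succ]

theorem b04_rev (W : Type) [AddCommGroup W] [Module L2 W] (v : ℤ × ℤ) (p : Polynomial ℤ)
    (h : ∀ w : W, Polynomial.eval₂ (Int.castRingHom L2) (mm v) p • w = 0) :
    ∀ w : W, Polynomial.eval₂ (Int.castRingHom L2) (mm (-v)) p.reverse • w = 0 := by
  intro w
  have e1 : mm (-v) * mm v = 1 := by rw [← mm_add, neg_add_cancel, mm_zero]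
  have e2 : mm v * mm (-v) = 1 := by rw [← mm_add, add_neg_cancel, mm_zero]
  let inst : Invertible (mm v) := ⟨mm (-v), e1, e2⟩
  have h1 := Polynomial.eval₂_reverse_mul_pow (Int.castRingHom L2) (mm v) p
  have h2 : (⅟(mm v) : L2) = mm (-v) := rfl
  rw [h2] at h1
  have h3 : Polynomial.eval₂ (Int.castRingHom L2) (mm (-v)) p.reverse =
      mm (-v) ^ p.natDegree * Polynomial.eval₂ (Int.castRingHom L2) (mm v) p := by
    rw [← h1, mul_comm (mm (-v) ^ p.natDegree), mul_assoc, ← mul_pow, e2, one_pow, mul_one]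
  rw [h3, mul_smul, h w, smul_zero]

theorem b04_axis (W : Type) [AddCommGroup W] [Module L2 W] (v : ℤ × ℤ) (p : Polynomial ℤ)
    (hp : p ≠ 0) (h : ∀ w : W, Polynomial.eval₂ (Int.castRingHom L2) (mm v) p • w = 0) :
    ∃ M : Submodule ℚ (Module.End ℚ (ℚ ⊗[ℤ] W)), M.FG ∧ ∀ a : ℤ, b04_Phi W (mm (a • v)) ∈ M := by
  have h1 := (b04_int W (mm v) p hp h).fg_adjoin_singleton
  have h2 := (b04_int W (mm (-v)) p.reverse (by rwa [Ne, Polynomial.reverse_eq_zero])
    (b04_rev W v p h)).fg_adjoin_singleton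
  refine ⟨_, h1.mul h2, ?_⟩
  intro a
  rcases Int.eq_nat_or_neg a with ⟨n, rfl | rfl⟩
  · have h3 : b04_Phi W (mm ((n : ℤ) • v)) = (b04_Phi W (mm v)) ^ n * 1 := by
      rw [natCast_zsmul, b04_mm_pow, map_pow, mul_one]
    rw [h3]
    refine Submodule.mul_mem_mul ?_ ?_
    · exact (Subalgebra.mem_toSubmodule _).2
        (pow_mem (Algebra.subset_adjoin (Set.mem_singleton (b04_Phi W (mm v)))) n)
    · exact (Subalgebra.mem_toSubmodule _).2 (one_mem _)
  · have h3 : b04_Phi W (mm (-(n : ℤ) • v)) = 1 * (b04_Phi W (mm (-v))) ^ n := by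
      rw [neg_smul, natCast_zsmul, ← smul_neg, b04_mm_pow, map_pow, one_mul]
    rw [h3]
    refine Submodule.mul_mem_mul ?_ ?_
    · exact (Subalgebra.mem_toSubmodule _).2 (one_mem _)
    · exact (Subalgebra.mem_toSubmodule _).2
        (pow_mem (Algebra.subset_adjoin (Set.mem_singleton (b04_Phi W (mm (-v))))) n)

theorem b04_fd {k : ℕ} (W : Type) [AddCommGroup W] [Module L2 W] (e : Fin k → W)
    (he : ∀ w : W, ∃ F : Fin k → L2, w = ∑ κ, F κ • e κ)
    (φ ψ : Polynomial ℤ) (hφ : φ ≠ 0) (hψ : ψ ≠ 0) (h1 : ∀ w : W, embX φ • w = 0)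
    (h2 : ∀ w : W, embY ψ • w = 0) : FiniteDimensional ℚ (ℚ ⊗[ℤ] W) := by
  obtain ⟨M, hM1, hM2⟩ := b04_axis W (1, 0) φ hφ h1
  obtain ⟨M', hM1', hM2'⟩ := b04_axis W (0, 1) ψ hψ h2
  have hall : ∀ v : ℤ × ℤ, b04_Phi W (mm v) ∈ M * M' := by
    intro v
    have h3 : v = v.1 • ((1 : ℤ), (0 : ℤ)) + v.2 • ((0 : ℤ), (1 : ℤ)) := by
      ext <;> simp
    rw [h3, mm_add, map_mul]
    exact Submodule.mul_mem_mul (hM2 _) (hM2' _)
  have hfg : (M * M').FG := hM1.mul hM1'
  set S : Submodule ℚ (ℚ ⊗[ℤ] W) := ⨆ κ : Fin k,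
    (M * M').map (LinearMap.applyₗ ((1 : ℚ) ⊗ₜ[ℤ] e κ)) with hS
  have hSfg : S.FG := Submodule.fg_iSup _ fun κ => hfg.map _
  have hG : ∀ (κ : Fin k) (G : L2), (1 : ℚ) ⊗ₜ[ℤ] (G • e κ) ∈ S := by
    intro κ G
    induction G using AddMonoidAlgebra.induction_on with
    | of m =>
      refine Submodule.mem_iSup_of_mem κ ?_
      exact ⟨b04_Phi W (mm m), hall m, b04_Phi_tmul W _ _ _⟩
    | add x y hx hy =>
      rw [add_smul, TensorProduct.tmul_add]
      exact S.add_mem hx hy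
    | smul r x hx =>
      have h3 : (1 : ℚ) ⊗ₜ[ℤ] ((r • x) • e κ) = (r : ℚ) • ((1 : ℚ) ⊗ₜ[ℤ] (x • e κ)) := by
        rw [smul_assoc, TensorProduct.tmul_smul, Int.cast_smul_eq_zsmul]
      rw [h3]
      exact S.smul_mem _ hx
  have htop : S = ⊤ := by
    rw [eq_top_iff]
    intro x _
    induction x using TensorProduct.induction_on with
    | zero => exact S.zero_mem
    | tmul q w =>
      obtain ⟨F, hF⟩ := he w
      have h3 : q ⊗ₜ[ℤ] w = q • ((1 : ℚ) ⊗ₜ[ℤ] w) := by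
        rw [TensorProduct.smul_tmul', smul_eq_mul, mul_one]
      rw [h3, hF, TensorProduct.tmul_sum]
      exact S.smul_mem _ (S.sum_mem fun κ _ => hG κ _)
    | add x y hx hy => exact S.add_mem (hx trivial) (hy trivial)
  rw [FiniteDimensional, Module.finite_def, ← htop]
  exact hSfg

theorem quad_comp_fin {k : ℕ} (Q : Submodule L2 (Fin k → L2))
    (hsat : ∀ (n : ℤ) (x : Fin k → L2), n ≠ 0 → n • x ∈ Q → x ∈ Q)
    (φ ψ : Polynomial ℤ) (hφ : φ ≠ 0) (hψ : ψ ≠ 0) (h1 : ∀ x : Fin k → L2, embX φ • x ∈ Q)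
    (h2 : ∀ x : Fin k → L2, embY ψ • x ∈ Q) : Quad (fun I : List (Ins k) => vec I ∈ Q) := by
  classical
  set W : Type := (Fin k → L2) ⧸ Q with hW
  let e : Fin k → W := fun κ => Submodule.Quotient.mk (Pi.single κ 1)
  have hmk : ∀ F : Fin k → L2, (Submodule.Quotient.mk F : W) = ∑ κ, F κ • e κ := by
    intro F
    have h3 : F = ∑ κ, F κ • (Pi.single κ (1 : L2) : Fin k → L2) := pi_eq_sum_univ' F
    conv_lhs => rw [h3]
    rw [← Submodule.mkQ_apply, map_sum]
    refine Finset.sum_congr rfl fun κ _ => ?_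
    rw [map_smul]
    rfl
  have hfd : FiniteDimensional ℚ (ℚ ⊗[ℤ] W) := by
    refine b04_fd W e ?_ φ ψ hφ hψ ?_ ?_
    · intro w
      obtain ⟨F, rfl⟩ := Submodule.Quotient.mk_surjective Q w
      exact ⟨F, hmk F⟩
    · intro w
      obtain ⟨F, rfl⟩ := Submodule.Quotient.mk_surjective Q w
      rw [← Submodule.Quotient.mk_smul, Submodule.Quotient.mk_eq_zero]
      exact h1 F
    · intro w
      obtain ⟨F, rfl⟩ := Submodule.Quotient.mk_surjective Q w
      rw [← Submodule.Quotient.mk_smul, Submodule.Quotient.mk_eq_zero]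
      exact h2 F
  have hinj : ∀ w : W, (1 : ℚ) ⊗ₜ[ℤ] w = 0 → w = 0 := by
    intro w hw
    have h3 : IsLocalizedModule (nonZeroDivisors ℤ) (TensorProduct.mk ℤ ℚ W 1) :=
      (isLocalizedModule_iff_isBaseChange (nonZeroDivisors ℤ) ℚ _).2
        (TensorProduct.isBaseChange ℤ W ℚ)
    obtain ⟨c, hc⟩ := (IsLocalizedModule.eq_zero_iff (nonZeroDivisors ℤ)
      (TensorProduct.mk ℤ ℚ W 1)).1 hw
    obtain ⟨F, rfl⟩ := Submodule.Quotient.mk_surjective Q w
    rw [Submodule.Quotient.mk_eq_zero]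
    refine hsat (c : ℤ) F (nonZeroDivisors.coe_ne_zero c) ?_
    rw [← Submodule.Quotient.mk_eq_zero]
    exact hc
  obtain ⟨f, T, C, hf1, hf2, hf3⟩ := quad_fin (k := k) (ℚ ⊗[ℤ] W)
    (fun v => b04_Phi W (mm v)) (by rw [mm_zero, map_one])
    (fun v w => by rw [mm_add, map_mul]) (fun κ => (1 : ℚ) ⊗ₜ[ℤ] e κ)
  refine ⟨f, T, C, hf1, fun I => (hf2 I).trans ?_, hf3⟩
  have h4 : ((ipos 0 I).map (fun x => b04_Phi W (mm x.1) ((1 : ℚ) ⊗ₜ[ℤ] e x.2))).sum =
      (1 : ℚ) ⊗ₜ[ℤ] (Submodule.Quotient.mk (vec I) : W) := by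
    rw [hmk (vec I), sum_vec_smul e I]
    generalize ipos 0 I = l
    induction l with
    | nil => rw [List.map_nil, List.map_nil, List.sum_nil, List.sum_nil, TensorProduct.tmul_zero]
    | cons x l ih =>
      rw [List.map_cons, List.map_cons, List.sum_cons, List.sum_cons, TensorProduct.tmul_add, ih,
        b04_Phi_tmul]
  change ((ipos 0 I).map (fun x => b04_Phi W (mm x.1) ((1 : ℚ) ⊗ₜ[ℤ] e x.2))).sum = 0 ↔ vec I ∈ Q
  rw [h4]
  constructor
  · intro h
    rw [← Submodule.Quotient.mk_eq_zero]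
    exact hinj _ h
  · intro h
    rw [← Submodule.Quotient.mk_eq_zero] at h
    rw [h, TensorProduct.tmul_zero]

end Pool.Agent.WPR
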