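import Mathlib.Algebra.Module.PID
import Mathlib.Algebra.Polynomial.FieldDivision

/-!
# B05: submodules over `K[X]`

HINTS.  `M = (Fin k → K[X]) ⧸ Q`, finitely generated over the principal ideal domain `K[X]`:
`Module.equiv_free_prod_directSum`: `M ≃ (Fin n →₀ K[X]) × ⨁ i, K[X] ⧸ (p i ^ e i)` with `p i` irreducible.
The coordinates of the class of `F = Σ F κ • e_κ` are `K[X]`-linear in `F`: the free ones are `Σ F κ * α i κ`, the
torsion ones are the classes of `Σ F κ * β i κ` (choose representatives `β i κ` of the coordinate of `e_κ`), so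
`F ∈ Q` iff the first are zero and the second are divisible by `p i ^ e i`.
Only the indices with `e i > 0` are kept.  If `e i > 0` and `p i ∣ X` then `X = p i * unit` and the element with
the coordinate `p i ^ (e i - 1)` at `i` (not zero) is killed by `X`, which contradicts `hX`.
-/

set_option autoImplicit false

namespace Pool.Agent.WPR

open Polynomial

theorem b05_mem {K : Type} [Field K] (a b : K[X]) : a ∈ (K[X] ∙ b) ↔ b ∣ a := by
  rw [Submodule.mem_span_singleton]
  constructor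
  · rintro ⟨c, hc⟩
    exact ⟨c, by rw [← hc, smul_eq_mul, mul_comm]⟩
  · rintro ⟨c, hc⟩
    exact ⟨c, by rw [hc, smul_eq_mul, mul_comm]⟩

theorem pid_tests {K : Type} [Field K] {k : ℕ} (Q : Submodule K[X] (Fin k → K[X]))
    (hX : ∀ F : Fin k → K[X], (X : K[X]) • F ∈ Q → F ∈ Q) :
    ∃ (a : ℕ) (α : Fin a → Fin k → K[X]) (b : ℕ) (p : Fin b → K[X]) (e : Fin b → ℕ)
      (β : Fin b → Fin k → K[X]), (∀ i, Irreducible (p i) ∧ ¬ p i ∣ X) ∧
      ∀ F : Fin k → K[X], F ∈ Q ↔ (∀ i, ∑ κ, F κ * α i κ = 0) ∧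
        ∀ i, p i ^ e i ∣ ∑ κ, F κ * β i κ := by
  classical
  obtain ⟨n, ι, _, p, hp, e, ⟨φ⟩⟩ :=
    Module.equiv_free_prod_directSum (R := K[X]) (M := (Fin k → K[X]) ⧸ Q)
  let G : (Fin k → K[X]) →ₗ[K[X]]
      (Fin n →₀ K[X]) × DirectSum ι (fun i => K[X] ⧸ (K[X] ∙ (p i ^ e i))) :=
    φ.toLinearMap.comp Q.mkQ
  have hG : ∀ F, F ∈ Q ↔ G F = 0 := by
    intro F
    have h1 : G F = φ (Q.mkQ F) := rfl
    rw [h1, LinearEquiv.map_eq_zero_iff, Submodule.mkQ_apply, Submodule.Quotient.mk_eq_zero]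
  have hGs : Function.Surjective G := φ.surjective.comp Q.mkQ_surjective
  let G1 : Fin n → (Fin k → K[X]) →ₗ[K[X]] K[X] := fun i =>
    (Finsupp.lapply i).comp ((LinearMap.fst _ _ _).comp G)
  let G2 : (i : ι) → (Fin k → K[X]) →ₗ[K[X]] (K[X] ⧸ (K[X] ∙ (p i ^ e i))) := fun i =>
    (DirectSum.component K[X] ι _ i).comp ((LinearMap.snd _ _ _).comp G)
  have hG1 : ∀ i F, G1 i F = (G F).1 i := fun i F => rfl
  have hG2 : ∀ i F, G2 i F = (G F).2 i := fun i F => rfl
  have hcoord : ∀ F, G F = 0 ↔ (∀ i, G1 i F = 0) ∧ ∀ i, G2 i F = 0 := by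
    intro F
    constructor
    · intro h
      refine ⟨fun i => ?_, fun i => ?_⟩
      · rw [hG1, h]; rfl
      · rw [hG2, h]; rfl
    · rintro ⟨h1, h2⟩
      refine Prod.ext ?_ ?_
      · ext1 i
        exact (hG1 i F).symm.trans (h1 i)
      · refine DFinsupp.ext fun i => ?_
        exact (hG2 i F).symm.trans (h2 i)
  have hrep : ∀ (i : ι) (κ : Fin k), ∃ r : K[X],
      (Submodule.Quotient.mk r : K[X] ⧸ (K[X] ∙ (p i ^ e i))) = G2 i (Pi.single κ 1) :=
    fun i κ => Submodule.Quotient.mk_surjective _ _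
  choose β hβ using hrep
  have hlin1 : ∀ i F, G1 i F = ∑ κ, F κ * G1 i (Pi.single κ 1) := by
    intro i F
    rw [LinearMap.pi_apply_eq_sum_univ (G1 i) F]
    refine Finset.sum_congr rfl fun κ _ => ?_
    rw [smul_eq_mul]
    congr 2
    funext j
    rw [Pi.single_apply]
    simp only [eq_comm]
  have hlin2 : ∀ i F, G2 i F =
      (Submodule.Quotient.mk (∑ κ, F κ * β i κ) : K[X] ⧸ (K[X] ∙ (p i ^ e i))) := by
    intro i F
    rw [LinearMap.pi_apply_eq_sum_univ (G2 i) F]
    have h3 : (Submodule.Quotient.mk (∑ κ, F κ * β i κ) : K[X] ⧸ (K[X] ∙ (p i ^ e i))) =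
        (K[X] ∙ (p i ^ e i)).mkQ (∑ κ, F κ • β i κ) := rfl
    rw [h3, map_sum]
    refine Finset.sum_congr rfl fun κ _ => ?_
    rw [map_smul]
    congr 1
    rw [Submodule.mkQ_apply, hβ]
    congr 1
    funext j
    rw [Pi.single_apply]
    simp only [eq_comm]
  have hzero2 : ∀ i F, G2 i F = 0 ↔ p i ^ e i ∣ ∑ κ, F κ * β i κ := by
    intro i F
    rw [hlin2, Submodule.Quotient.mk_eq_zero, b05_mem]
  let ι' := {i : ι // 0 < e i}
  let eq : ι' ≃ Fin (Fintype.card ι') := Fintype.equivFin ι'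
  refine ⟨n, fun i κ => G1 i (Pi.single κ 1), Fintype.card ι', fun j => p (eq.symm j).1,
    fun j => e (eq.symm j).1, fun j κ => β (eq.symm j).1 κ, ?_, ?_⟩
  · intro j
    refine ⟨hp _, ?_⟩
    intro hdiv
    set i : ι := (eq.symm j).1 with hi
    have hei : 0 < e i := (eq.symm j).2
    obtain ⟨u, hu⟩ := hdiv
    change (X : K[X]) = p i * u at hu
    obtain ⟨F, hF⟩ := hGs (0, DirectSum.lof K[X] ι (fun i => K[X] ⧸ (K[X] ∙ (p i ^ e i))) i
      (Submodule.Quotient.mk (p i ^ (e i - 1))))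
    have h1 : (X : K[X]) • F ∈ Q := by
      rw [hG, map_smul, hF]
      refine Prod.ext ?_ ?_
      · show (X : K[X]) • (0 : Fin n →₀ K[X]) = 0
        rw [smul_zero]
      · show (X : K[X]) • DirectSum.lof K[X] ι (fun i => K[X] ⧸ (K[X] ∙ (p i ^ e i))) i
          (Submodule.Quotient.mk (p i ^ (e i - 1))) = 0
        rw [← map_smul, ← Submodule.Quotient.mk_smul]
        have h2 : (Submodule.Quotient.mk ((X : K[X]) • p i ^ (e i - 1)) :
            K[X] ⧸ (K[X] ∙ (p i ^ e i))) = 0 := by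
          rw [Submodule.Quotient.mk_eq_zero, b05_mem, smul_eq_mul, hu]
          refine ⟨u, ?_⟩
          have h3 : p i ^ e i = p i * p i ^ (e i - 1) := by
            rw [← pow_succ']
            congr 1
            omega
          rw [h3]
          ring
        rw [h2, map_zero]
    have h4 := (hG F).1 (hX F h1)
    rw [hF] at h4
    have h5 : DirectSum.lof K[X] ι (fun i => K[X] ⧸ (K[X] ∙ (p i ^ e i))) i
        (Submodule.Quotient.mk (p i ^ (e i - 1))) = 0 := (Prod.ext_iff.1 h4).2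
    have h6 : (Submodule.Quotient.mk (p i ^ (e i - 1)) : K[X] ⧸ (K[X] ∙ (p i ^ e i))) = 0 := by
      have h7 := congrArg (DirectSum.component K[X] ι
        (fun i => K[X] ⧸ (K[X] ∙ (p i ^ e i))) i) h5
      rw [DirectSum.component.lof_self, map_zero] at h7
      exact h7
    rw [Submodule.Quotient.mk_eq_zero, b05_mem] at h6
    have h8 := (pow_dvd_pow_iff (hp i).ne_zero (hp i).not_isUnit).1 h6
    omega
  · intro F
    rw [hG, hcoord]
    refine and_congr ?_ ?_
    · refine forall_congr' fun i => ?_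
      rw [hlin1 i F]
    · constructor
      · intro h j
        exact (hzero2 _ _).1 (h _)
      · intro h i
        rw [hzero2]
        by_cases hei : 0 < e i
        · have := h (eq ⟨i, hei⟩)
          simpa using this
        · have : e i = 0 := by omega
          rw [this, pow_zero]
          exact one_dvd _

end Pool.Agent.WPR
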