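import Pool.Agent.Lib.MP_2da099_lc.R2.B05
import Mathlib.RingTheory.Polynomial.GaussLemma
import Mathlib.RingTheory.Localization.FractionRing
import Mathlib.RingTheory.Localization.Integral

/-!
# B06: submodules over `R[X]`, `R` a factorial domain

HINTS.  `K = FractionRing R`, `Q_K = {F : Fin k → K[X] | ∃ d : R, d ≠ 0 ∧ d F = image of an element of Q}`, a
`K[X]`-submodule; `F ∈ R[X] ^ k` is in `Q` iff its image is in `Q_K` (`hC`); `Q_K` satisfies `hX` of `pid_tests`.
Take the tests `α, p, e, β` over `K[X]`; multiply `α i`, `β i` by common denominators in `R` (this does not change the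
conditions: nonzero constants of `K` are units of `K[X]`); replace `p i` by the primitive part `f i ∈ R[X]` of a
multiple (`IsLocalization.integerNormalization`, `Polynomial.primPart`), `p i = unit * f i` in `K[X]`.
By Gauss (`IsPrimitive.dvd_iff_fraction_map_dvd_fraction_map` or similar) for `G ∈ R[X]`: `p i ^ e i ∣ G` in `K[X]` iff
`f i ^ e i ∣ G` in `R[X]` (`f i ^ e i` is primitive).  `f i` is irreducible in `R[X]`
(`IsPrimitive.irreducible_iff_irreducible_map_fraction_map`), hence prime (`UniqueFactorizationMonoid`), of positive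
degree.
-/

set_option autoImplicit false

namespace Pool.Agent.WPR

open Polynomial

section

variable {R : Type} [CommRing R] [IsDomain R]

/-- one denominator -/
theorem b06_den1 (p : (FractionRing R)[X]) : ∃ (c : R) (P : R[X]), c ≠ 0 ∧
    P.map (algebraMap R (FractionRing R)) = C (algebraMap R (FractionRing R) c) * p := by
  obtain ⟨c, c0, hc⟩ := IsLocalization.integerNormalization_spec (nonZeroDivisors R) p
  refine ⟨c, _, nonZeroDivisors.ne_zero c0, hc.trans ?_⟩
  rw [Algebra.smul_def, algebraMap_apply]

/-- common denominators -/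
theorem b06_den {k : ℕ} (G : Fin k → (FractionRing R)[X]) :
    ∃ (c : R) (H : Fin k → R[X]), c ≠ 0 ∧ ∀ κ, (H κ).map (algebraMap R (FractionRing R)) =
      C (algebraMap R (FractionRing R) c) * G κ := by
  classical
  choose c P hc hP using fun κ => b06_den1 (G κ)
  refine ⟨∏ κ, c κ, fun κ => C (∏ κ' ∈ Finset.univ.erase κ, c κ') * P κ,
    Finset.prod_ne_zero_iff.2 (fun κ _ => hc κ), fun κ => ?_⟩
  rw [Polynomial.map_mul, map_C, hP κ, ← mul_assoc, ← C_mul, ← map_mul,
    Finset.prod_erase_mul _ _ (Finset.mem_univ κ)]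

theorem b06_inj : Function.Injective
    (fun P : R[X] => P.map (algebraMap R (FractionRing R))) :=
  map_injective _ (IsFractionRing.injective R (FractionRing R))

theorem b06_C_ne {c : R} (hc : c ≠ 0) : (C (algebraMap R (FractionRing R) c)) ≠ 0 := by
  rw [Ne, C_eq_zero]
  intro h
  exact hc ((injective_iff_map_eq_zero (algebraMap R (FractionRing R))).1
    (IsFractionRing.injective _ _) _ h)

theorem b06_C_unit {c : R} (hc : c ≠ 0) :
    IsUnit (C (algebraMap R (FractionRing R) c) : (FractionRing R)[X]) := by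
  rw [Polynomial.isUnit_C]
  refine isUnit_iff_ne_zero.2 ?_
  intro h
  exact hc ((injective_iff_map_eq_zero (algebraMap R (FractionRing R))).1
    (IsFractionRing.injective _ _) _ h)

/-- the extension of a submodule -/
noncomputable def b06_ext {k : ℕ} (Q : Submodule R[X] (Fin k → R[X])) :
    Submodule (FractionRing R)[X] (Fin k → (FractionRing R)[X]) where
  carrier := {G | ∃ d : R, d ≠ 0 ∧ ∃ F ∈ Q, ∀ κ,
    C (algebraMap R (FractionRing R) d) * G κ = (F κ).map (algebraMap R (FractionRing R))}
  add_mem' := by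
    rintro G G' ⟨d, hd, F, hF, h⟩ ⟨d', hd', F', hF', h'⟩
    refine ⟨d * d', mul_ne_zero hd hd', (C d' : R[X]) • F + (C d : R[X]) • F',
      Q.add_mem (Q.smul_mem _ hF) (Q.smul_mem _ hF'), fun κ => ?_⟩
    simp only [Pi.add_apply, Pi.smul_apply, smul_eq_mul, Polynomial.map_add, Polynomial.map_mul,
      map_C]
    rw [← h κ, ← h' κ, map_mul, C_mul]
    ring
  zero_mem' := ⟨1, one_ne_zero, 0, Q.zero_mem, fun κ => by simp⟩
  smul_mem' := by
    rintro p G ⟨d, hd, F, hF, h⟩
    obtain ⟨c, P, hc, hP⟩ := b06_den1 p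
    refine ⟨c * d, mul_ne_zero hc hd, P • F, Q.smul_mem _ hF, fun κ => ?_⟩
    simp only [Pi.smul_apply, smul_eq_mul, Polynomial.map_mul]
    rw [← h κ, hP, map_mul, C_mul]
    ring

theorem b06_mem_ext {k : ℕ} (Q : Submodule R[X] (Fin k → R[X]))
    (hC : ∀ (d : R) (F : Fin k → R[X]), d ≠ 0 → (C d : R[X]) • F ∈ Q → F ∈ Q)
    (F : Fin k → R[X]) :
    (fun κ => (F κ).map (algebraMap R (FractionRing R))) ∈ b06_ext Q ↔ F ∈ Q := by
  constructor
  · rintro ⟨d, hd, F', hF', h⟩
    refine hC d F hd ?_
    have : (C d : R[X]) • F = F' := by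
      funext κ
      refine b06_inj ?_
      simp only [Pi.smul_apply, smul_eq_mul, Polynomial.map_mul, map_C]
      exact h κ
    rw [this]
    exact hF'
  · intro hF
    exact ⟨1, one_ne_zero, F, hF, fun κ => by simp⟩

end

theorem poly_tests {R : Type} [CommRing R] [IsDomain R] [UniqueFactorizationMonoid R]
    [NormalizedGCDMonoid R] {k : ℕ} (Q : Submodule R[X] (Fin k → R[X]))
    (hX : ∀ F : Fin k → R[X], (X : R[X]) • F ∈ Q → F ∈ Q)
    (hC : ∀ (d : R) (F : Fin k → R[X]), d ≠ 0 → (C d : R[X]) • F ∈ Q → F ∈ Q) :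
    ∃ (a : ℕ) (α : Fin a → Fin k → R[X]) (b : ℕ) (f : Fin b → R[X]) (e : Fin b → ℕ)
      (β : Fin b → Fin k → R[X]),
      (∀ i, Prime (f i) ∧ (f i).IsPrimitive ∧ 0 < (f i).natDegree ∧ ¬ f i ∣ X) ∧
      ∀ F : Fin k → R[X], F ∈ Q ↔ (∀ i, ∑ κ, F κ * α i κ = 0) ∧
        ∀ i, f i ^ e i ∣ ∑ κ, F κ * β i κ := by
  classical
  have hX' : ∀ G : Fin k → (FractionRing R)[X], (X : (FractionRing R)[X]) • G ∈ b06_ext Q →
      G ∈ b06_ext Q := by
    rintro G ⟨d, hd, F, hF, h⟩
    obtain ⟨c, H, hc, hH⟩ := b06_den G
    refine ⟨c, hc, H, ?_, fun κ => (hH κ).symm⟩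
    refine hC d H hd (hX _ ?_)
    have : (X : R[X]) • (C d : R[X]) • H = (C c : R[X]) • F := by
      funext κ
      refine b06_inj ?_
      have h1 := h κ
      simp only [Pi.smul_apply, smul_eq_mul, Polynomial.map_mul, map_C, map_X] at h1 ⊢
      rw [← h1, hH κ]
      ring
    rw [this]
    exact Q.smul_mem _ hF
  obtain ⟨a, α, b, p, e, β, hp, hmem⟩ := pid_tests (b06_ext Q) hX'
  choose ca A hca hA using fun i => b06_den (α i)
  choose cb B hcb hB using fun i => b06_den (β i)
  choose cp P hcp hP using fun i => b06_den1 (p i)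
  have hP0 : ∀ i, P i ≠ 0 := by
    intro i h
    have h1 := hP i
    rw [h, Polynomial.map_zero] at h1
    exact mul_ne_zero (b06_C_ne (hcp i)) (hp i).1.ne_zero h1.symm
  have hass : ∀ i, Associated ((P i).primPart.map (algebraMap R (FractionRing R))) (p i) := by
    intro i
    have h1 : C (algebraMap R (FractionRing R) (P i).content) *
        (P i).primPart.map (algebraMap R (FractionRing R)) =
        C (algebraMap R (FractionRing R) (cp i)) * p i := by
      rw [← hP i]
      conv_rhs => rw [(P i).eq_C_content_mul_primPart]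
      rw [Polynomial.map_mul, map_C]
    have h2 : (P i).content ≠ 0 := by
      rw [Ne, content_eq_zero_iff]
      exact hP0 i
    have h3 := associated_unit_mul_left
      ((P i).primPart.map (algebraMap R (FractionRing R))) _ (b06_C_unit h2)
    have h4 := associated_unit_mul_left (p i) _ (b06_C_unit (hcp i))
    rw [h1] at h3
    exact h3.symm.trans h4
  have hirr : ∀ i, Irreducible (P i).primPart := fun i =>
    ((isPrimitive_primPart (P i)).irreducible_iff_irreducible_map_fraction_map
      (K := FractionRing R)).2 ((hass i).irreducible_iff.2 (hp i).1)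
  have hdvd : ∀ i (G : R[X]), (P i).primPart ^ e i ∣ G ↔
      p i ^ e i ∣ G.map (algebraMap R (FractionRing R)) := by
    intro i G
    have h1 : ((P i).primPart ^ e i).IsPrimitive := by
      induction e i with
      | zero => simpa using isPrimitive_one
      | succ n ih =>
        rw [pow_succ]
        exact ih.mul (isPrimitive_primPart (P i))
    rw [h1.dvd_iff_fraction_map_dvd_fraction_map (FractionRing R), Polynomial.map_pow]
    exact ((hass i).pow_pow (n := e i)).dvd_iff_dvd_left
  refine ⟨a, A, b, fun i => (P i).primPart, e, B, fun i => ⟨?_, ?_, ?_, ?_⟩, fun F => ?_⟩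
  · exact (hirr i).prime
  · exact isPrimitive_primPart (P i)
  · have h1 : 0 < ((P i).primPart.map (algebraMap R (FractionRing R))).natDegree :=
      natDegree_pos_iff_degree_pos.2 (degree_pos_of_irreducible ((hass i).irreducible_iff.2 (hp i).1))
    exact lt_of_lt_of_le h1 natDegree_map_le
  · intro h
    have h1 := (isPrimitive_primPart (P i)).dvd_iff_fraction_map_dvd_fraction_map (FractionRing R)
      (q := X)
    rw [h1, map_X, (hass i).dvd_iff_dvd_left] at h
    exact (hp i).2 h
  · rw [← b06_mem_ext Q hC F, hmem]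
    refine and_congr (forall_congr' fun i => ?_) (forall_congr' fun i => ?_)
    · have h1 : (∑ κ, F κ * A i κ).map (algebraMap R (FractionRing R)) =
          C (algebraMap R (FractionRing R) (ca i)) *
            ∑ κ, (F κ).map (algebraMap R (FractionRing R)) * α i κ := by
        rw [Polynomial.map_sum, Finset.mul_sum]
        refine Finset.sum_congr rfl fun κ _ => ?_
        rw [Polynomial.map_mul, hA i κ]
        ring
      constructor
      · intro h
        refine b06_inj ?_
        simp only
        rw [h1, h, mul_zero, Polynomial.map_zero]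
      · intro h
        rw [h, Polynomial.map_zero] at h1
        exact (mul_eq_zero.1 h1.symm).resolve_left (b06_C_ne (hca i))
    · have h1 : (∑ κ, F κ * B i κ).map (algebraMap R (FractionRing R)) =
          C (algebraMap R (FractionRing R) (cb i)) *
            ∑ κ, (F κ).map (algebraMap R (FractionRing R)) * β i κ := by
        rw [Polynomial.map_sum, Finset.mul_sum]
        refine Finset.sum_congr rfl fun κ _ => ?_
        rw [Polynomial.map_mul, hB i κ]
        ring
      rw [hdvd i, h1, (b06_C_unit (hcb i)).dvd_mul_left]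

end Pool.Agent.WPR
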