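import Pool.Agent.Lib.MP_2da099_lc.R2.M02
import Pool.Agent.Lib.MP_2da099_lc.R2.I01
import Mathlib.Algebra.MonoidAlgebra.NoZeroDivisors
import Mathlib.Data.Prod.Lex

/-!
# M03: bounds for quotients in `L2`

HINTS.  `emb2 P` is the Laurent polynomial with the coefficient `(P.coeff i).coeff j` at `(i, j)`
(`emb2_coeff`: by induction on `P`, or both sides additive and monomials).  `exists_poly`: every Laurent
polynomial is a monomial times a polynomial, with a shift by `(n, n)` if the exponents are `≤ n` in absolute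
value.  `quot_supp`: if `F = h * G`, `F ≠ 0`, then for both coordinates the maximum over `supp F` is the sum of the
maxima over `supp h` and `supp G` (look at the extreme row/column: they are nonzero Laurent polynomials in one
variable, whose product is the extreme row/column of `F`), and the same for minima; so the exponents of `G` are
at most `n + C` in absolute value, with `C ≥` the exponents of `h`.
`quot_bound`: multiply by monomials to get polynomials, apply `bound2` with `m = 2 n + C'`.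
-/

set_option autoImplicit false

namespace Pool.Agent.WPR

open Polynomial

theorem M03_mm_mul (v c : ℤ × ℤ) (F : L2) : (mm v * F).coeff c = F.coeff (c - v) := by
  unfold mm
  rw [AddMonoidAlgebra.coeff_single_mul_apply, one_mul]
  congr 1
  abel

theorem M03_mm_pow (v : ℤ × ℤ) (n : ℕ) : mm v ^ n = mm (n • v) := by
  unfold mm
  rw [AddMonoidAlgebra.single_pow, one_pow]

theorem M03_embY_coeff (p : Polynomial ℤ) (i j : ℤ) : (embY p).coeff (i, j) =
    if i = 0 ∧ 0 ≤ j then p.coeff j.toNat else 0 := by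
  induction p using Polynomial.induction_on' with
  | add p q hp hq =>
    rw [map_add, AddMonoidAlgebra.coeff_add, Finsupp.add_apply, hp, hq, Polynomial.coeff_add]
    split_ifs
    · rfl
    · simp
  | monomial n a =>
    have h1 : embY (Polynomial.monomial n a) = AddMonoidAlgebra.single ((0 : ℤ), (n : ℤ)) a := by
      unfold embY
      rw [Polynomial.coe_eval₂RingHom, Polynomial.eval₂_monomial, M03_mm_pow, eq_intCast,
        AddMonoidAlgebra.intCast_def]
      unfold mm
      rw [AddMonoidAlgebra.single_mul_single]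
      simp
    rw [h1, AddMonoidAlgebra.coeff_single, Finsupp.single_apply, Polynomial.coeff_monomial]
    by_cases h2 : i = 0 ∧ 0 ≤ j
    · rw [if_pos h2]
      obtain ⟨rfl, hj⟩ := h2
      by_cases h3 : n = j.toNat
      · rw [if_pos h3, if_pos]
        rw [Prod.mk.injEq]
        exact ⟨rfl, by omega⟩
      · rw [if_neg h3, if_neg]
        rw [Prod.mk.injEq]
        rintro ⟨_, h4⟩
        omega
    · rw [if_neg h2, if_neg]
      rw [Prod.mk.injEq]
      rintro ⟨h3, h4⟩
      apply h2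
      exact ⟨h3.symm, by omega⟩

theorem emb2_coeff (P : Polynomial (Polynomial ℤ)) (i j : ℤ) : (emb2 P).coeff (i, j) =
    if 0 ≤ i ∧ 0 ≤ j then (P.coeff i.toNat).coeff j.toNat else 0 := by
  induction P using Polynomial.induction_on' with
  | add p q hp hq =>
    rw [map_add, AddMonoidAlgebra.coeff_add, Finsupp.add_apply, hp, hq, Polynomial.coeff_add,
      Polynomial.coeff_add]
    split_ifs
    · rfl
    · simp
  | monomial n a =>
    have h1 : emb2 (Polynomial.monomial n a) = mm ((n : ℤ), 0) * embY a := by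
      unfold emb2
      rw [Polynomial.coe_eval₂RingHom, Polynomial.eval₂_monomial, M03_mm_pow, mul_comm]
      congr 2
      ext <;> simp
    rw [h1, M03_mm_mul, Prod.mk_sub_mk, M03_embY_coeff, Polynomial.coeff_monomial]
    by_cases h2 : 0 ≤ i ∧ 0 ≤ j
    · rw [if_pos h2]
      obtain ⟨hi, hj⟩ := h2
      by_cases h3 : n = i.toNat
      · rw [if_pos h3, if_pos (by omega), sub_zero]
      · rw [if_neg h3, if_neg (by omega), Polynomial.coeff_zero]
    · rw [if_neg h2]
      by_cases h3 : i - n = 0 ∧ 0 ≤ j - 0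
      · exfalso
        apply h2
        omega
      · rw [if_neg h3]

theorem exists_poly (F : L2) (n : ℕ) (hn : ∀ c ∈ F.coeff.support, |c.1| ≤ n ∧ |c.2| ≤ n) :
    ∃ P : Polynomial (Polynomial ℤ), emb2 P = mm ((n : ℤ), (n : ℤ)) * F ∧
      P.natDegree ≤ 2 * n ∧ ∀ i, (P.coeff i).natDegree ≤ 2 * n := by
  classical
  set q : ℕ → Polynomial ℤ := fun i => ∑ j ∈ Finset.range (2 * n + 1),
    Polynomial.monomial j (F.coeff ((i : ℤ) - n, (j : ℤ) - n)) with hq
  set P : Polynomial (Polynomial ℤ) := ∑ i ∈ Finset.range (2 * n + 1), Polynomial.monomial i (q i)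
    with hP
  have hqc : ∀ i j, (q i).coeff j = if j < 2 * n + 1 then F.coeff ((i : ℤ) - n, (j : ℤ) - n)
      else 0 := by
    intro i j
    rw [hq]
    simp only [Polynomial.finsetSum_coeff, Polynomial.coeff_monomial]
    rw [Finset.sum_ite_eq' (Finset.range (2 * n + 1)) j]
    simp only [Finset.mem_range]
  have hPc : ∀ i, P.coeff i = if i < 2 * n + 1 then q i else 0 := by
    intro i
    rw [hP]
    simp only [Polynomial.finsetSum_coeff, Polynomial.coeff_monomial]
    rw [Finset.sum_ite_eq' (Finset.range (2 * n + 1)) i]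
    simp only [Finset.mem_range]
  refine ⟨P, ?_, ?_, ?_⟩
  · apply AddMonoidAlgebra.coeff_injective
    ext ⟨i, j⟩
    rw [emb2_coeff, M03_mm_mul, Prod.mk_sub_mk]
    by_cases h0 : F.coeff (i - n, j - n) = 0
    · rw [h0]
      split_ifs with h1
      · rw [hPc]
        split_ifs with h2
        · rw [hqc]
          split_ifs with h3
          · have h4 : ((i.toNat : ℤ) - n, (j.toNat : ℤ) - n) = (i - n, j - n) := by
              rw [Int.toNat_of_nonneg h1.1, Int.toNat_of_nonneg h1.2]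
            rw [h4, h0]
          · rfl
        · rw [Polynomial.coeff_zero]
      · rfl
    · have h1 := hn (i - n, j - n) (Finsupp.mem_support_iff.2 h0)
      simp only [abs_le] at h1
      have hi : 0 ≤ i ∧ 0 ≤ j := by
        constructor <;> linarith [h1.1.1, h1.2.1]
      rw [if_pos hi, hPc, if_pos (by omega), hqc, if_pos (by omega),
        Int.toNat_of_nonneg hi.1, Int.toNat_of_nonneg hi.2]
  · rw [Polynomial.natDegree_le_iff_coeff_eq_zero]
    intro i hi
    rw [hPc, if_neg (by omega)]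
  · intro i
    rw [Polynomial.natDegree_le_iff_coeff_eq_zero]
    intro j hj
    rw [hPc]
    split_ifs
    · rw [hqc, if_neg (by omega)]
    · rw [Polynomial.coeff_zero]

theorem M03_ext (u v : ℤ × ℤ → ℤ) (hu : ∀ c c', u (c + c') = u c + u c')
    (hv : ∀ c c', v (c + c') = v c + v c')
    (hinj : ∀ c c', u c = u c' → v c = v c' → c = c') (h G : L2) (hh : h ≠ 0) (hG : G ≠ 0) :
    ∃ d ∈ h.coeff.support, ∃ c ∈ G.coeff.support, (∀ c' ∈ G.coeff.support, u c' ≤ u c) ∧
      d + c ∈ (h * G).coeff.support := by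
  classical
  have hhs : h.coeff.support.Nonempty := by
    rw [Finsupp.support_nonempty_iff]
    exact fun h0 => hh (AddMonoidAlgebra.coeff_eq_zero.1 h0)
  have hGs : G.coeff.support.Nonempty := by
    rw [Finsupp.support_nonempty_iff]
    exact fun h0 => hG (AddMonoidAlgebra.coeff_eq_zero.1 h0)
  obtain ⟨d, hd, hdm⟩ := Finset.exists_max_image h.coeff.support (fun c => toLex (u c, v c)) hhs
  obtain ⟨c, hc, hcm⟩ := Finset.exists_max_image G.coeff.support (fun c => toLex (u c, v c)) hGs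
  have hle : ∀ x y : ℤ × ℤ, toLex (u x, v x) ≤ toLex (u y, v y) →
      u x < u y ∨ (u x = u y ∧ v x ≤ v y) := by
    intro x y hxy
    rw [Prod.Lex.le_iff] at hxy
    exact hxy
  refine ⟨d, hd, c, hc, ?_, ?_⟩
  · intro c' hc'
    rcases hle c' c (hcm c' hc') with h1 | h1
    · exact le_of_lt h1
    · exact le_of_eq h1.1
  · rw [Finsupp.mem_support_iff]
    have huniq : UniqueAdd h.coeff.support G.coeff.support d c := by
      intro a b ha hb hab
      have h1 := hle a d (hdm a ha)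
      have h2 := hle b c (hcm b hb)
      have h3 : u a + u b = u d + u c := by rw [← hu, ← hu, hab]
      have h4 : v a + v b = v d + v c := by rw [← hv, ← hv, hab]
      constructor
      · apply hinj
        · omega
        · omega
      · apply hinj
        · omega
        · omega
    rw [AddMonoidAlgebra.coeff_mul_add_of_uniqueAdd huniq]
    exact mul_ne_zero (Finsupp.mem_support_iff.1 hd) (Finsupp.mem_support_iff.1 hc)

theorem M03_exp (h : L2) : ∃ C : ℕ, ∀ c ∈ h.coeff.support, |c.1| ≤ C ∧ |c.2| ≤ C := by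
  refine ⟨∑ c ∈ h.coeff.support, (c.1.natAbs + c.2.natAbs), fun c hc => ?_⟩
  have h1 : c.1.natAbs + c.2.natAbs ≤ ∑ c ∈ h.coeff.support, (c.1.natAbs + c.2.natAbs) :=
    Finset.single_le_sum (f := fun c : ℤ × ℤ => c.1.natAbs + c.2.natAbs)
      (fun _ _ => Nat.zero_le _) hc
  constructor
  · rw [← Int.natCast_natAbs]
    exact_mod_cast (by omega : c.1.natAbs ≤ _)
  · rw [← Int.natCast_natAbs]
    exact_mod_cast (by omega : c.2.natAbs ≤ _)

theorem quot_supp (h : L2) (hh : h ≠ 0) : ∃ C : ℕ, ∀ (n : ℕ) (F G : L2), F = h * G →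
    (∀ c ∈ F.coeff.support, |c.1| ≤ n ∧ |c.2| ≤ n) →
    ∀ c ∈ G.coeff.support, |c.1| ≤ n + C ∧ |c.2| ≤ n + C := by
  obtain ⟨C, hC⟩ := M03_exp h
  refine ⟨C, ?_⟩
  intro n F G hF hn c hc
  have hG : G ≠ 0 := by
    rintro rfl
    simp at hc
  have key : ∀ (u v : ℤ × ℤ → ℤ), (∀ c c', u (c + c') = u c + u c') →
      (∀ c c', v (c + c') = v c + v c') → (∀ c c', u c = u c' → v c = v c' → c = c') →
      (∀ c : ℤ × ℤ, c ∈ F.coeff.support → u c ≤ n) →
      (∀ c : ℤ × ℤ, c ∈ h.coeff.support → -(C : ℤ) ≤ u c) → u c ≤ n + C := by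
    intro u v hu hv hinj h1 h2
    obtain ⟨d, hd, c1, hc1, h3, h4⟩ := M03_ext u v hu hv hinj h G hh hG
    rw [← hF] at h4
    have h5 := h1 _ h4
    rw [hu] at h5
    have h6 := h2 d hd
    have h7 := h3 c hc
    linarith
  have k1 := key (fun c => c.1) (fun c => c.2) (fun _ _ => rfl) (fun _ _ => rfl)
    (fun c c' h1 h2 => Prod.ext h1 h2) (fun c hc => (abs_le.1 (hn c hc).1).2)
    (fun c hc => (abs_le.1 (hC c hc).1).1)
  have k2 := key (fun c => -c.1) (fun c => c.2) (fun _ _ => by simp [add_comm])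
    (fun _ _ => rfl) (fun c c' h1 h2 => Prod.ext (neg_injective h1) h2)
    (fun c hc => by linarith [(abs_le.1 (hn c hc).1).1])
    (fun c hc => by linarith [(abs_le.1 (hC c hc).1).2])
  have k3 := key (fun c => c.2) (fun c => c.1) (fun _ _ => rfl) (fun _ _ => rfl)
    (fun c c' h1 h2 => Prod.ext h2 h1) (fun c hc => (abs_le.1 (hn c hc).2).2)
    (fun c hc => (abs_le.1 (hC c hc).2).1)
  have k4 := key (fun c => -c.2) (fun c => c.1) (fun _ _ => by simp [add_comm])
    (fun _ _ => rfl) (fun c c' h1 h2 => Prod.ext h2 (neg_injective h1))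
    (fun c hc => by linarith [(abs_le.1 (hn c hc).2).1])
    (fun c hc => by linarith [(abs_le.1 (hC c hc).2).2])
  rw [abs_le, abs_le]
  exact ⟨⟨by linarith, k1⟩, ⟨by linarith, k3⟩⟩

theorem M03_sum (F : L2) (m N : ℕ) (P : Polynomial (Polynomial ℤ))
    (hP : emb2 P = mm ((m : ℤ), (m : ℤ)) * F) :
    ∑ i ∈ Finset.range N, ∑ j ∈ Finset.range N, ((P.coeff i).coeff j).natAbs ≤ norm1 F := by
  classical
  have h1 : ∀ i j : ℕ, (P.coeff i).coeff j = F.coeff ((i : ℤ) - m, (j : ℤ) - m) := by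
    intro i j
    have h2 := emb2_coeff P i j
    rw [if_pos ⟨by omega, by omega⟩, Int.toNat_natCast, Int.toNat_natCast, hP, M03_mm_mul,
      Prod.mk_sub_mk] at h2
    exact h2.symm
  have h3 : ∑ i ∈ Finset.range N, ∑ j ∈ Finset.range N, ((P.coeff i).coeff j).natAbs =
      ∑ x ∈ Finset.range N ×ˢ Finset.range N,
        (F.coeff ((x.1 : ℤ) - m, (x.2 : ℤ) - m)).natAbs := by
    rw [Finset.sum_product]
    refine Finset.sum_congr rfl (fun i _ => Finset.sum_congr rfl (fun j _ => ?_))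
    rw [h1]
  rw [h3]
  set T := (Finset.range N ×ˢ Finset.range N).filter
    (fun x : ℕ × ℕ => F.coeff ((x.1 : ℤ) - m, (x.2 : ℤ) - m) ≠ 0) with hT
  have h4 : ∑ x ∈ Finset.range N ×ˢ Finset.range N,
      (F.coeff ((x.1 : ℤ) - m, (x.2 : ℤ) - m)).natAbs =
      ∑ x ∈ T, (F.coeff ((x.1 : ℤ) - m, (x.2 : ℤ) - m)).natAbs := by
    symm
    apply Finset.sum_subset (Finset.filter_subset _ _)
    intro x hx hxT
    by_contra h5
    apply hxT
    rw [Finset.mem_filter]
    refine ⟨hx, fun h6 => h5 ?_⟩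
    rw [h6]
    rfl
  rw [h4]
  unfold norm1
  have hinj : Set.InjOn (fun x : ℕ × ℕ => ((x.1 : ℤ) - m, (x.2 : ℤ) - m)) (T : Set (ℕ × ℕ)) := by
    rintro ⟨a, b⟩ _ ⟨a', b'⟩ _ h5
    simp only [Prod.mk.injEq] at h5
    ext
    · simp only
      omega
    · simp only
      omega
  rw [← Finset.sum_image (s := T) (g := fun x : ℕ × ℕ => ((x.1 : ℤ) - m, (x.2 : ℤ) - m))
    (f := fun c : ℤ × ℤ => (F.coeff c).natAbs) hinj]
  apply Finset.sum_le_sum_of_subset
  intro c hc
  obtain ⟨x, hx, rfl⟩ := Finset.mem_image.1 hc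
  rw [Finsupp.mem_support_iff]
  exact (Finset.mem_filter.1 hx).2

theorem quot_bound (h : L2) (hh : h ≠ 0) : ∃ C : ℕ, ∀ (n : ℕ) (F G : L2), F = h * G →
    (∀ c ∈ F.coeff.support, |c.1| ≤ n ∧ |c.2| ≤ n) →
    ∀ c, (G.coeff c).natAbs ≤ C * (n + 1) ^ C * norm1 F := by
  obtain ⟨C0, hC0⟩ := quot_supp h hh
  obtain ⟨C1, hC1⟩ := M03_exp h
  obtain ⟨H, hH, hHd, hHc⟩ := exists_poly h C1 hC1
  have hH0 : H ≠ 0 := by
    rintro rfl
    rw [map_zero] at hH
    apply hh
    have h1 : mm (-((C1 : ℤ)), -((C1 : ℤ))) * (mm ((C1 : ℤ), (C1 : ℤ)) * h) = h := by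
      rw [← mul_assoc, ← mm_add]
      have : ((-(C1 : ℤ), -(C1 : ℤ)) + ((C1 : ℤ), (C1 : ℤ)) : ℤ × ℤ) = 0 := by
        ext <;> simp
      rw [this, mm_zero, one_mul]
    rw [← hH, mul_zero] at h1
    exact h1.symm
  obtain ⟨C2, hC2⟩ := bound2 H hH0
  set K := 2 * C1 + 2 * C0 + 3 with hK
  refine ⟨C2 * K ^ C2 + C2, ?_⟩
  intro n F G hF hn c
  have hGs := hC0 n F G hF hn
  obtain ⟨P, hP, hPd, hPc⟩ := exists_poly G (n + C0) (by
    intro c hc
    have := hGs c hc
    push_cast
    exact this)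
  have hHP : emb2 (H * P) = mm (((C1 + (n + C0) : ℕ) : ℤ), ((C1 + (n + C0) : ℕ) : ℤ)) * F := by
    rw [map_mul, hH, hP, hF]
    have : (((C1 + (n + C0) : ℕ) : ℤ), ((C1 + (n + C0) : ℕ) : ℤ)) =
        ((C1 : ℤ), (C1 : ℤ)) + (((n + C0 : ℕ) : ℤ), ((n + C0 : ℕ) : ℤ)) := by
      ext <;> simp
    rw [this, mm_add]
    ring
  set m := 2 * (C1 + (n + C0)) with hm
  have hd1 : (H * P).natDegree ≤ m := by
    refine (Polynomial.natDegree_mul_le).trans ?_
    omega
  have hd2 : ∀ i, ((H * P).coeff i).natDegree ≤ m := by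
    intro i
    rw [Polynomial.coeff_mul]
    apply Polynomial.natDegree_sum_le_of_forall_le
    intro x _
    refine (Polynomial.natDegree_mul_le).trans ?_
    have h1 := hHc x.1
    have h2 := hPc x.2
    omega
  have hd3 : ∀ i, (P.coeff i).natDegree ≤ m := by
    intro i
    have h2 := hPc i
    omega
  have hb := hC2 m (H * P) P rfl hd1 hd2 hd3
  have hsum := M03_sum F (C1 + (n + C0)) (m + 1) (H * P) hHP
  have hPcoef : ∀ i j : ℕ, ((P.coeff i).coeff j).natAbs ≤
      (C2 * K ^ C2 + C2) * (n + 1) ^ (C2 * K ^ C2 + C2) * norm1 F := by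
    intro i j
    refine (hb i j).trans ?_
    refine Nat.mul_le_mul ?_ hsum
    have h1 : m + 1 ≤ K * (n + 1) := by
      rw [hm, hK]
      nlinarith
    calc C2 * (m + 1) ^ C2 ≤ C2 * (K * (n + 1)) ^ C2 :=
          Nat.mul_le_mul_left _ (Nat.pow_le_pow_left h1 _)
      _ = (C2 * K ^ C2) * (n + 1) ^ C2 := by rw [mul_pow]; ring
      _ ≤ (C2 * K ^ C2 + C2) * (n + 1) ^ (C2 * K ^ C2 + C2) := by
          refine Nat.mul_le_mul (by omega) (Nat.pow_le_pow_right (by omega) (by omega))
  by_cases hc0 : G.coeff c = 0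
  · rw [hc0]
    exact Nat.zero_le _
  · have h1 := hGs c (Finsupp.mem_support_iff.2 hc0)
    rw [abs_le, abs_le] at h1
    have h2 := emb2_coeff P (c.1 + (n + C0 : ℕ)) (c.2 + (n + C0 : ℕ))
    push_cast at h2
    rw [if_pos ⟨by linarith [h1.1.1], by linarith [h1.2.1]⟩, hP, M03_mm_mul] at h2
    have h3 : ((c.1 + ((n : ℤ) + C0), c.2 + ((n : ℤ) + C0)) -
        (((n + C0 : ℕ) : ℤ), ((n + C0 : ℕ) : ℤ)) : ℤ × ℤ) = c := by
      ext <;> simp
    rw [h3] at h2
    rw [h2]
    exact hPcoef _ _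

end Pool.Agent.WPR
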