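import Pool.Agent.Lib.MP_2da099_lc.R2.B06
import Pool.Agent.Lib.MP_2da099_lc.R2.M03
import Mathlib.RingTheory.UniqueFactorizationDomain.GCDMonoid
import Mathlib.RingTheory.Polynomial.UniqueFactorization

/-!
# B07: saturated submodules of `L2 ^ k`

HINTS.  `R = ℤ[Y]` (`Polynomial ℤ`), `Q' = {F : Fin k → R[X] | (emb2 (F κ))_κ ∈ Q}`, a submodule over `R[X]`; it satisfies
`hX` (`emb2 X = mm (1, 0)` is a unit) and `hC` (`emb2 (C d) = embY d`, `hsat`).  Take the tests `α, f, e, β` of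
`poly_tests` and apply `emb2` to them.
`emb2_dvd`: for `f ∈ R[X]` prime, `f ∤ X`, `f ∤ C Y` (here `C X`; a primitive polynomial of positive degree does not
divide a nonzero constant of `R`): for `G ∈ R[X]`: `emb2 (f ^ e) ∣ emb2 G` in `L2` iff `f ^ e ∣ G`: the quotient times
a monomial is a polynomial (`exists_poly`; `emb2` is injective by `emb2_coeff`), `X ^ a Y ^ b G = f ^ e * H`,
and `f` is a prime not dividing `X`, `Y`.  The same argument with `e = 1` and products shows that `emb2 f` is prime in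
`L2` (it is not a unit: else `f ∣ X ^ a Y ^ b`).
`emb2 f ∤ n` for integers `n ≠ 0`: else `f ∣ n X ^ a Y ^ b`, so `f ∣ C n`, but the degree is positive.
For `F ∈ L2 ^ k` choose a common monomial `mm (n, n)` with `mm (n, n) • F = emb2 ∘ F'` (`exists_poly` with a common
`n`); all conditions are invariant under multiplication by the unit `mm (n, n)`.
-/

set_option autoImplicit false

namespace Pool.Agent.WPR

open Polynomial

theorem B07_inj : Function.Injective emb2 := by
  rw [injective_iff_map_eq_zero]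
  intro P hP
  ext i j
  have h1 := emb2_coeff P i j
  rw [if_pos ⟨by omega, by omega⟩, Int.toNat_natCast, Int.toNat_natCast, hP] at h1
  rw [← h1]
  simp

theorem B07_mm_unit (v : ℤ × ℤ) : IsUnit (mm v) := by
  refine IsUnit.of_mul_eq_one (mm (-v)) ?_
  rw [← mm_add, add_neg_cancel, mm_zero]

theorem B07_X : emb2 X = mm (1, 0) := by
  unfold emb2
  simp

theorem B07_C (d : Polynomial ℤ) : emb2 (C d) = embY d := by
  unfold emb2
  simp

theorem B07_mono (n : ℕ) : emb2 (X ^ n * (C X) ^ n) = mm ((n : ℤ), (n : ℤ)) := by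
  rw [map_mul, map_pow, map_pow, B07_X, B07_C]
  have h1 : embY X = mm (0, 1) := by
    unfold embY
    simp
  rw [h1, M03_mm_pow, M03_mm_pow, ← mm_add]
  congr 1
  ext <;> simp

theorem emb2_dvd (f : Polynomial (Polynomial ℤ)) (hf : Prime f) (h1 : ¬ f ∣ X)
    (h2 : ∀ d : Polynomial ℤ, d ≠ 0 → ¬ f ∣ C d) (e : ℕ) (G : Polynomial (Polynomial ℤ)) :
    emb2 f ^ e ∣ emb2 G ↔ f ^ e ∣ G := by
  constructor
  · rintro ⟨H, hH⟩
    obtain ⟨n, hn⟩ := M03_exp H
    obtain ⟨P, hP, -, -⟩ := exists_poly H n hn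
    have h3 : X ^ n * (C X) ^ n * G = f ^ e * P := by
      apply B07_inj
      rw [map_mul, B07_mono, map_mul, map_pow, hH, hP]
      ring
    have h4 : ¬ f ∣ X ^ n * (C X) ^ n := by
      intro h5
      rcases hf.dvd_or_dvd h5 with h6 | h6
      · exact h1 (hf.dvd_of_dvd_pow h6)
      · exact h2 X Polynomial.X_ne_zero (hf.dvd_of_dvd_pow h6)
    exact hf.pow_dvd_of_dvd_mul_left e h4 ⟨P, h3⟩
  · rintro ⟨H, rfl⟩
    rw [map_mul, map_pow]
    exact ⟨emb2 H, rfl⟩

theorem B07_exists (F : L2) : ∃ (n : ℕ) (P : Polynomial (Polynomial ℤ)),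
    emb2 P = mm ((n : ℤ), (n : ℤ)) * F := by
  obtain ⟨n, hn⟩ := M03_exp F
  obtain ⟨P, hP, -, -⟩ := exists_poly F n hn
  exact ⟨n, P, hP⟩

theorem B07_dvd_unit (a x : L2) (v : ℤ × ℤ) : a ∣ mm v * x ↔ a ∣ x :=
  (B07_mm_unit v).dvd_mul_left

theorem emb2_prime (f : Polynomial (Polynomial ℤ)) (hf : Prime f) (h1 : ¬ f ∣ X)
    (h2 : ∀ d : Polynomial ℤ, d ≠ 0 → ¬ f ∣ C d) :
    Prime (emb2 f) ∧ ∀ n : ℤ, n ≠ 0 → ¬ emb2 f ∣ (n : L2) := by
  have key : ∀ G, emb2 f ∣ emb2 G → f ∣ G := by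
    intro G hG
    have h3 := (emb2_dvd f hf h1 h2 1 G).1 (by rw [pow_one]; exact hG)
    rwa [pow_one] at h3
  refine ⟨⟨?_, ?_, ?_⟩, ?_⟩
  · intro h3
    apply hf.ne_zero
    apply B07_inj
    rw [h3, map_zero]
  · intro h3
    apply hf.not_isUnit
    apply isUnit_of_dvd_one
    apply key
    rw [map_one]
    exact h3.dvd
  · intro a b hab
    obtain ⟨n, A, hA⟩ := B07_exists a
    obtain ⟨m, B, hB⟩ := B07_exists b
    have h3 : emb2 f ∣ emb2 (A * B) := by
      rw [map_mul, hA, hB]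
      have : mm ((n : ℤ), (n : ℤ)) * a * (mm ((m : ℤ), (m : ℤ)) * b) =
          (mm ((n : ℤ), (n : ℤ)) * mm ((m : ℤ), (m : ℤ))) * (a * b) := by ring
      rw [this]
      exact Dvd.dvd.mul_left hab _
    rcases hf.dvd_or_dvd (key _ h3) with h4 | h4
    · left
      have h5 := map_dvd emb2 h4
      rw [hA, B07_dvd_unit] at h5
      exact h5
    · right
      have h5 := map_dvd emb2 h4
      rw [hB, B07_dvd_unit] at h5
      exact h5
  · intro n hn h3
    have h4 : (n : L2) = emb2 (C (C n)) := by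
      rw [B07_C]
      unfold embY
      simp
    rw [h4] at h3
    refine h2 (C n) ?_ (key _ h3)
    rw [Ne, Polynomial.C_eq_zero]
    exact hn

theorem B07_mem_unit {k : ℕ} (Q : Submodule L2 (Fin k → L2)) (v : ℤ × ℤ) (F : Fin k → L2) :
    mm v • F ∈ Q ↔ F ∈ Q := by
  constructor
  · intro h
    have h1 := Q.smul_mem (mm (-v)) h
    rw [smul_smul, ← mm_add, neg_add_cancel, mm_zero, one_smul] at h1
    exact h1
  · intro h
    exact Q.smul_mem _ h

theorem sat_tests {k : ℕ} (Q : Submodule L2 (Fin k → L2))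
    (hsat : ∀ (d : Polynomial ℤ) (x : Fin k → L2), d ≠ 0 → embY d • x ∈ Q → x ∈ Q) :
    ∃ (a : ℕ) (α : Fin a → Fin k → L2) (b : ℕ) (f : Fin b → L2) (e : Fin b → ℕ)
      (β : Fin b → Fin k → L2),
      (∀ i, Prime (f i) ∧ ∀ n : ℤ, n ≠ 0 → ¬ f i ∣ (n : L2)) ∧
      ∀ F : Fin k → L2, F ∈ Q ↔ (∀ i, ∑ κ, F κ * α i κ = 0) ∧
        ∀ i, f i ^ e i ∣ ∑ κ, F κ * β i κ := by
  classical
  let _ : NormalizedGCDMonoid (Polynomial ℤ) := Nonempty.some inferInstance
  let Q' : Submodule (Polynomial (Polynomial ℤ)) (Fin k → Polynomial (Polynomial ℤ)) :=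
    { carrier := {F | (fun κ => emb2 (F κ)) ∈ Q}
      add_mem' := by
        intro F G hF hG
        have h1 := Q.add_mem hF hG
        have h2 : (fun κ => emb2 ((F + G) κ)) = (fun κ => emb2 (F κ)) + fun κ => emb2 (G κ) := by
          funext κ
          simp
        show (fun κ => emb2 ((F + G) κ)) ∈ Q
        rw [h2]
        exact h1
      zero_mem' := by
        have h2 : (fun κ : Fin k => emb2 ((0 : Fin k → Polynomial (Polynomial ℤ)) κ)) = 0 := by
          funext κ
          simp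
        show (fun κ : Fin k => emb2 ((0 : Fin k → Polynomial (Polynomial ℤ)) κ)) ∈ Q
        rw [h2]
        exact Q.zero_mem
      smul_mem' := by
        intro c F hF
        have h1 := Q.smul_mem (emb2 c) hF
        have h2 : (fun κ => emb2 ((c • F) κ)) = emb2 c • fun κ => emb2 (F κ) := by
          funext κ
          simp
        show (fun κ => emb2 ((c • F) κ)) ∈ Q
        rw [h2]
        exact h1 }
  have hmem : ∀ F, F ∈ Q' ↔ (fun κ => emb2 (F κ)) ∈ Q := fun F => Iff.rfl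
  have hX : ∀ F : Fin k → Polynomial (Polynomial ℤ),
      (X : Polynomial (Polynomial ℤ)) • F ∈ Q' → F ∈ Q' := by
    intro F hF
    rw [hmem] at hF ⊢
    have h2 : (fun κ => emb2 (((X : Polynomial (Polynomial ℤ)) • F) κ)) = mm (1, 0) • fun κ => emb2 (F κ) := by
      funext κ
      simp [B07_X]
    rw [h2, B07_mem_unit] at hF
    exact hF
  have hC : ∀ (d : Polynomial ℤ) (F : Fin k → Polynomial (Polynomial ℤ)), d ≠ 0 →
      (C d : Polynomial (Polynomial ℤ)) • F ∈ Q' → F ∈ Q' := by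
    intro d F hd hF
    rw [hmem] at hF ⊢
    have h2 : (fun κ => emb2 (((C d : Polynomial (Polynomial ℤ)) • F) κ)) =
        embY d • fun κ => emb2 (F κ) := by
      funext κ
      simp [B07_C]
    rw [h2] at hF
    exact hsat d _ hd hF
  obtain ⟨a, α, b, f, e, β, hf, htest⟩ := poly_tests Q' hX hC
  have hf2 : ∀ i, ∀ d : Polynomial ℤ, d ≠ 0 → ¬ f i ∣ C d := by
    intro i d hd h1
    have h2 := Polynomial.natDegree_le_of_dvd h1 (by rwa [Ne, Polynomial.C_eq_zero])
    rw [Polynomial.natDegree_C] at h2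
    have h3 := (hf i).2.2.1
    omega
  refine ⟨a, fun i κ => emb2 (α i κ), b, fun i => emb2 (f i), e, fun i κ => emb2 (β i κ), ?_, ?_⟩
  · intro i
    exact emb2_prime (f i) (hf i).1 (hf i).2.2.2 (hf2 i)
  · intro F
    choose m hm using fun κ => M03_exp (F κ)
    set n := ∑ κ, m κ with hn
    have hmn : ∀ κ, m κ ≤ n := fun κ =>
      Finset.single_le_sum (f := m) (fun _ _ => Nat.zero_le _) (Finset.mem_univ κ)
    have hex : ∀ κ, ∃ P : Polynomial (Polynomial ℤ), emb2 P = mm ((n : ℤ), (n : ℤ)) * F κ := by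
      intro κ
      obtain ⟨P, hP, -, -⟩ := exists_poly (F κ) n (by
        intro c hc
        have h1 := hm κ c hc
        have h2 : (m κ : ℤ) ≤ n := by exact_mod_cast hmn κ
        exact ⟨h1.1.trans h2, h1.2.trans h2⟩)
      exact ⟨P, hP⟩
    choose F' hF' using hex
    have h1 : F ∈ Q ↔ F' ∈ Q' := by
      rw [hmem]
      have h2 : (fun κ => emb2 (F' κ)) = mm ((n : ℤ), (n : ℤ)) • F := by
        funext κ
        rw [hF']
        rfl
      rw [h2, B07_mem_unit]
    have h3 : ∀ γ : Fin k → Polynomial (Polynomial ℤ), emb2 (∑ κ, F' κ * γ κ) =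
        mm ((n : ℤ), (n : ℤ)) * ∑ κ, F κ * emb2 (γ κ) := by
      intro γ
      rw [map_sum, Finset.mul_sum]
      refine Finset.sum_congr rfl (fun κ _ => ?_)
      rw [map_mul, hF', mul_assoc]
    rw [h1, htest]
    refine and_congr (forall_congr' fun i => ?_) (forall_congr' fun i => ?_)
    · rw [← (B07_mm_unit ((n : ℤ), (n : ℤ))).mul_right_eq_zero, ← h3]
      rw [map_eq_zero_iff emb2 B07_inj]
    · show f i ^ e i ∣ ∑ κ, F' κ * β i κ ↔ emb2 (f i) ^ e i ∣ ∑ κ, F κ * emb2 (β i κ)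
      rw [← emb2_dvd (f i) (hf i).1 (hf i).2.2.2 (hf2 i), h3, B07_dvd_unit]

end Pool.Agent.WPR
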