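import Pool.Agent.Lib.MP_2da099_lc.R2.G03
import Pool.Agent.Lib.MP_2da099_lc.R2.N04
import Pool.Agent.Lib.MP_2da099_lc.R2.P10

/-!
# G04: the zero test
-/

set_option autoImplicit false

namespace Pool.Agent.WPR

open Pool.Agent.Lib.PolyTime Pool.Agent.WPM Function

/-- signs -/
def usg (β : ℕ) (κ : Fin 2) : ZB β := if κ = 0 then ZB.mk 1 else ZB.mk (-1)

theorem g04_val_sum (β : ℕ) (l : List (Fin 2)) :
    (l.map (usg β)).sum.val = (l.map (fun κ => if κ = 0 then (1 : ℤ) else -1)).sum := by
  induction l with
  | nil => rfl
  | cons κ l ih =>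
    rw [List.map_cons, List.sum_cons, List.map_cons, List.sum_cons, ← ih]
    show (usg β κ).val + (l.map (usg β)).sum.val = _
    refine congrArg (· + (l.map (usg β)).sum.val) ?_
    by_cases h : κ = 0
    · rw [usg, if_pos h, if_pos h]
      rfl
    · rw [usg, if_neg h, if_neg h]
      rfl

theorem g04_natAbs (l : List (Fin 2)) :
    (l.map (fun κ => if κ = 0 then (1 : ℤ) else -1)).sum.natAbs ≤ l.length := by
  induction l with
  | nil => simp
  | cons κ l ih =>
    rw [List.map_cons, List.sum_cons, List.length_cons]
    by_cases h : κ = 0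
    · rw [if_pos h]
      omega
    · rw [if_neg h]
      omega

theorem ct_vgridZ (β : ℕ) [Fact (2 ≤ β)] :
    CT (fun x : (ℕ × ℕ) × List (Ins 2) => vgrid (usg β) x.1.1 x.1.2 x.2)
      (fun x => (x.1.1 + x.1.2 + x.2.length + 1) ^ 2) := by
  obtain ⟨C, hC⟩ := size_zb_log β
  refine ct_vgrid (usg β) (fun κ => ?_) C (fun l => ?_)
  · have h1 : CT (fun v : ZB β => (usg β κ, v)) (fun _ => 0) := CT.pushConst _
    refine (((ct_zblin β 1).comp h1).mono (size (usg β κ) + 1) (fun v => ?_)).congr (fun v => ?_)
    · show 0 + (size (usg β κ) + size v) ≤ (size (usg β κ) + 1) * (size v + 1)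
      have e : (size (usg β κ) + 1) * (size v + 1) =
        size (usg β κ) * size v + size (usg β κ) + size v + 1 := by ring
      omega
    · show usg β κ + (1 : ℤ) • v = usg β κ + v
      rw [one_smul]
  · have h1 := hC (l.map (usg β)).sum
    rw [g04_val_sum] at h1
    refine h1.trans (Nat.mul_le_mul_left _ ?_)
    have h2 := g04_natAbs l
    have h3 := Nat.log_le_self 2 (l.map (fun κ => if κ = 0 then (1 : ℤ) else -1)).sum.natAbs
    omega

theorem g04_fcoef (β : ℕ) (I : List (Ins 2)) (c : ℤ × ℤ) :
    (fcoef (usg β) I c).val = fcoef (fun κ => if κ = 0 then (1 : ℤ) else -1) I c := by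
  have h := g04_val_sum β (((ipos 0 I).filter (fun x => x.1 = c)).map Prod.snd)
  rw [List.map_map, List.map_map] at h
  exact h

theorem g04_fcoef_none {V : Type} [AddCommMonoid V] {k : ℕ} (u : Fin k → V) (I : List (Ins k))
    (c : ℤ × ℤ) (h : ∀ x ∈ ipos 0 I, x.1 ≠ c) : fcoef u I c = 0 := by
  have e : (ipos 0 I).filter (fun x => x.1 = c) = [] := by
    rw [List.filter_eq_nil_iff]
    intro x hx
    simpa using h x hx
  rw [fcoef, e, List.map_nil, List.sum_nil]

/-- the test -/
def g04_test (I : List (Ins 2)) : Bool :=
  (vgrid (usg 2) I.length (2 * I.length + 1) I).all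
    (fun row => row.all (fun x => decide (x = 0)))

theorem g04_spec (I : List (Ins 2)) : g04_test I = true ↔ spoly I = 0 := by
  obtain ⟨s0, h1, h2, h3, h4⟩ := vgrid_spec (usg 2) I.length (2 * I.length + 1) I (le_refl _)
    (by omega)
  obtain ⟨l1, l2, l3⟩ := length_vgrid (usg 2) I.length (2 * I.length + 1) I
  rw [g04_test, List.all_eq_true]
  constructor
  · intro h
    have hz : ∀ c, (spoly I).coeff c = 0 := by
      intro c
      rw [spoly_coeff]
      by_cases hc : ∀ x ∈ ipos 0 I, x.1 ≠ c
      · exact g04_fcoef_none _ I c hc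
      · push Not at hc
        obtain ⟨x, hx, hxc⟩ := hc
        obtain ⟨s, t, hs, ht, hst⟩ := h4 x hx
        have h5 := h3 s t hs ht
        rw [← hst, hxc] at h5
        have hrow := h _ (List.getElem_mem hs)
        rw [List.all_eq_true] at hrow
        have hlen := l3 _ (List.getElem_mem hs)
        have ht' : t < ((vgrid (usg 2) I.length (2 * I.length + 1) I)[s]).length := by
          rw [hlen]
          exact ht
        have hx0 := of_decide_eq_true (hrow _ (List.getElem_mem ht'))
        have e1 : ((vgrid (usg 2) I.length (2 * I.length + 1) I).getD s []).getD t 0 =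
            ((vgrid (usg 2) I.length (2 * I.length + 1) I)[s])[t] := by
          rw [List.getD_eq_getElem?_getD, List.getD_eq_getElem?_getD,
            List.getElem?_eq_getElem hs, Option.getD_some, List.getElem?_eq_getElem ht',
            Option.getD_some]
        rw [e1, hx0] at h5
        rw [← g04_fcoef 2, ← h5]
        rfl
    ext c
    simpa using hz c
  · intro h row hrow
    rw [List.all_eq_true]
    intro x hx
    obtain ⟨s, hs, rfl⟩ := List.getElem_of_mem hrow
    obtain ⟨t, ht, rfl⟩ := List.getElem_of_mem hx
    have hlen := l3 _ (List.getElem_mem hs)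
    have ht' : t < 2 * I.length + 1 := by
      rw [← hlen]
      exact ht
    have h5 := h3 s t hs ht'
    have e1 : ((vgrid (usg 2) I.length (2 * I.length + 1) I).getD s []).getD t 0 =
        ((vgrid (usg 2) I.length (2 * I.length + 1) I)[s])[t] := by
      rw [List.getD_eq_getElem?_getD, List.getD_eq_getElem?_getD,
        List.getElem?_eq_getElem hs, Option.getD_some, List.getElem?_eq_getElem ht,
        Option.getD_some]
    rw [e1] at h5
    have h6 := g04_fcoef 2 I ((t : ℤ) - I.length, s0 + s)
    rw [← spoly_coeff, h] at h6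
    apply decide_eq_true
    rw [h5]
    exact h6

theorem g04_fact : Fact (2 ≤ 2) := ⟨le_refl 2⟩

attribute [local instance] g04_fact

theorem g04_ct : CT g04_test (fun I => (I.length + 1) ^ 2) := by
  obtain ⟨κ, hκ⟩ := size_list_fin (Ins 2)
  obtain ⟨D, hD⟩ := (ct_vgridZ 2).size_le
  have clen : CT (fun I : List (Ins 2) => I.length) (fun I => size I) := ct_length
  have cadd : CT (fun x : ℕ × ℕ => x.1 + x.2) (fun x => size x) :=
    ct_add.mono 1 (fun x => by rw [size_prod, size_nat]; omega)
  have csucc : CT (fun n : ℕ => n + 1) (fun n => size n) :=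
    ct_succ.mono 1 (fun _ => Nat.zero_le _)
  have cL := g02_lcomp csucc (g02_lcomp cadd (g02_lpair clen clen))
  have cid : CT (fun I : List (Ins 2) => I) (fun I => size I) :=
    (CT.of_enc_eq (fun _ => rfl)).mono 1 (fun _ => Nat.zero_le _)
  have cin := g02_lpair (g02_lpair clen cL) cid
  have h1 := (ct_vgridZ 2).comp cin
  have h2 := ct_all (ct_all (ct_zbzero 2))
  have h3 := h2.comp h1
  refine (h3.mono (200 * (κ + D + 1)) (fun I => ?_)).congr (fun I => ?_)
  · have a1 := hκ I
    have a2 := hD ((I.length, I.length + I.length + 1), I)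
    dsimp only at a2
    set g := vgrid (usg 2) I.length (I.length + I.length + 1) I with hg
    have a3 : size (((I.length, I.length + I.length + 1), I) : (ℕ × ℕ) × List (Ins 2)) =
        2 * I.length + 1 + (2 * (I.length + I.length + 1) + 1) + 1 + size I + 1 := by
      rw [size_prod, size_prod, size_nat, size_nat]
    rw [a3] at a2
    have a4 : (g.map (fun row => size row + (row.map (fun x => size x)).sum)).sum ≤
        2 * size g := by
      clear_value g
      clear hg a2
      induction g with
      | nil => exact Nat.zero_le _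
      | cons r g ih =>
        rw [List.map_cons, List.sum_cons, size_cons]
        have := g03_sum_size r
        omega
    show size I + (I.length + (I.length + I.length + 1) + I.length + 1) ^ 2 +
      (size g + (g.map (fun row => size row + (row.map (fun x => size x)).sum)).sum) ≤
      200 * (κ + D + 1) * ((I.length + 1) ^ 2 + 1)
    refine le_trans (b := κ * (I.length + 1) + (I.length + (I.length + I.length + 1) +
      I.length + 1) ^ 2 + 3 * (2 * I.length + 1 + (2 * (I.length + I.length + 1) + 1) + 1 +
      κ * (I.length + 1) + 1 + D * ((I.length + (I.length + I.length + 1) + I.length + 1) ^ 2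
      + 1))) (by omega) ?_
    generalize I.length = n
    nlinarith [Nat.zero_le (κ * n * n), Nat.zero_le (D * n * n), Nat.zero_le (n * n),
      Nat.zero_le (κ * n), Nat.zero_le (D * n)]
  · show (vgrid (usg 2) I.length (I.length + I.length + 1) I).all _ = g04_test I
    rw [g04_test, Nat.two_mul]

theorem quad_zero : Quad (fun I : List (Ins 2) => spoly I = 0) :=
  ⟨g04_test, _, 1, g04_ct, g04_spec, fun w => by rw [Nat.one_mul]⟩

end Pool.Agent.WPR
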