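import Pool.Agent.Lib.MP_2da099_lc.R2.I01

/-!
# I02: substitutions

HINTS.  `path v : List (Ins k)` (any `k`): a list of moves with the end `v`, without tokens
(`List.replicate` of unit moves, or by existence: `∀ v, ∃ l, ipos c l = [] ∧ endp c l = c + v`).
`exists_token`: for `b : L2` there is a closed list (end = start) of instructions with two colours with
`vec T 0 - vec T 1 = b`: by induction on `b` (`AddMonoidAlgebra` induction: sums: append; `single v n`: go to
`v`, put `|n|` tokens of the colour `0` or `1`, go back).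
`exists_subst`: `g (inl m) = [inl m]`, `g (inr κ) = exists_token (b κ)`; by induction on `I` (for all starts
`c`): the signed vector of `I.flatMap g` from the start `c` is the sum of `mm x.1 * b x.2` over `ipos c I`,
and the ends agree; then `sum_vec_smul`.
`exists_act`: `g (inl m) = path (A (mvec m))`, `g (inr κ) = [inr κ]`; `ipos (A c) (I.flatMap g)` is
`ipos c I` with `A` applied to the positions; `act A (mm v) = mm (A v)`.
-/

set_option autoImplicit false

namespace Pool.Agent.WPR

open Pool.Agent.Lib.PolyTime Pool.Agent.WPM Function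

theorem i02_rep {k : ℕ} (m : Fin 2 × Bool) (n : ℕ) : ∀ c : ℤ × ℤ,
    ipos c (List.replicate n (Sum.inl m : Ins k)) = [] ∧
    endp c (List.replicate n (Sum.inl m : Ins k)) = c + n • mvec m := by
  induction n with
  | zero => intro c; simp [ipos, endp]
  | succ n ih =>
    intro c
    rw [List.replicate_succ]
    refine ⟨(ih _).1, ?_⟩
    rw [endp, (ih _).2, succ_nsmul']
    abel

/-- a path without tokens -/
theorem i02_path {k : ℕ} (v : ℤ × ℤ) :
    ∃ l : List (Ins k), ∀ c, ipos c l = [] ∧ endp c l = c + v := by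
  have hadd : ∀ v w : ℤ × ℤ, (∃ l : List (Ins k), ∀ c, ipos c l = [] ∧ endp c l = c + v) →
      (∃ l : List (Ins k), ∀ c, ipos c l = [] ∧ endp c l = c + w) →
      ∃ l : List (Ins k), ∀ c, ipos c l = [] ∧ endp c l = c + (v + w) := by
    rintro v w ⟨l, hl⟩ ⟨l', hl'⟩
    refine ⟨l ++ l', fun c => ⟨?_, ?_⟩⟩
    · rw [ipos_append, (hl c).1, (hl' _).1, List.nil_append]
    · rw [endp_append, (hl c).2, (hl' _).2, add_assoc]
  have h1 : ∀ a : ℤ, ∃ l : List (Ins k), ∀ c, ipos c l = [] ∧ endp c l = c + (a, 0) := by
    intro a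
    rcases le_or_gt 0 a with ha | ha
    · refine ⟨List.replicate a.toNat (Sum.inl (0, true)), fun c => ?_⟩
      have h := i02_rep (k := k) (0, true) a.toNat c
      refine ⟨h.1, h.2.trans ?_⟩
      congr 1
      simp [mvec, ha]
    · refine ⟨List.replicate (-a).toNat (Sum.inl (0, false)), fun c => ?_⟩
      have h := i02_rep (k := k) (0, false) (-a).toNat c
      refine ⟨h.1, h.2.trans ?_⟩
      congr 1
      have h2 : (((-a).toNat : ℕ) : ℤ) = -a := Int.toNat_of_nonneg (by omega)
      ext <;> simp [mvec, h2]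
  have h2 : ∀ a : ℤ, ∃ l : List (Ins k), ∀ c, ipos c l = [] ∧ endp c l = c + (0, a) := by
    intro a
    rcases le_or_gt 0 a with ha | ha
    · refine ⟨List.replicate a.toNat (Sum.inl (1, true)), fun c => ?_⟩
      have h := i02_rep (k := k) (1, true) a.toNat c
      refine ⟨h.1, h.2.trans ?_⟩
      congr 1
      simp [mvec, ha]
    · refine ⟨List.replicate (-a).toNat (Sum.inl (1, false)), fun c => ?_⟩
      have h := i02_rep (k := k) (1, false) (-a).toNat c
      refine ⟨h.1, h.2.trans ?_⟩
      congr 1
      have h2 : (((-a).toNat : ℕ) : ℤ) = -a := Int.toNat_of_nonneg (by omega)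
      ext <;> simp [mvec, h2]
  have h3 := hadd (v.1, 0) (0, v.2) (h1 v.1) (h2 v.2)
  have h4 : ((v.1, 0) : ℤ × ℤ) + (0, v.2) = v := by ext <;> simp
  rwa [h4] at h3

/-- the value of the colours -/
noncomputable def i02_sg (κ : Fin 2) : L2 := if κ = 0 then 1 else -1

/-- signed sum -/
noncomputable def i02_ss (l : List ((ℤ × ℤ) × Fin 2)) : L2 :=
  (l.map (fun x => mm x.1 * i02_sg x.2)).sum

theorem i02_ss_append (l l' : List ((ℤ × ℤ) × Fin 2)) :
    i02_ss (l ++ l') = i02_ss l + i02_ss l' := by
  unfold i02_ss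
  rw [List.map_append, List.sum_append]

theorem i02_spoly (I : List (Ins 2)) : spoly I = i02_ss (ipos 0 I) := by
  have h := sum_vec_smul (M := L2) i02_sg I
  rw [Fin.sum_univ_two] at h
  simp only [smul_eq_mul] at h
  unfold i02_ss
  rw [← h]
  unfold spoly i02_sg
  simp
  ring

/-- closed list with given signed vector -/
theorem i02_token (b : L2) : ∃ T : List (Ins 2), ∀ c, endp c T = c ∧
    i02_ss (ipos c T) = mm c * b := by
  have hzero : ∃ T : List (Ins 2), ∀ c, endp c T = c ∧ i02_ss (ipos c T) = mm c * 0 :=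
    ⟨[], fun c => ⟨rfl, by simp [ipos, i02_ss]⟩⟩
  have hadd : ∀ b b' : L2, (∃ T : List (Ins 2), ∀ c, endp c T = c ∧
      i02_ss (ipos c T) = mm c * b) → (∃ T : List (Ins 2), ∀ c, endp c T = c ∧
      i02_ss (ipos c T) = mm c * b') → ∃ T : List (Ins 2), ∀ c, endp c T = c ∧
      i02_ss (ipos c T) = mm c * (b + b') := by
    rintro b b' ⟨T, hT⟩ ⟨T', hT'⟩
    refine ⟨T ++ T', fun c => ⟨?_, ?_⟩⟩
    · rw [endp_append, (hT c).1, (hT' c).1]
    · rw [ipos_append, i02_ss_append, (hT c).1, (hT c).2, (hT' c).2, mul_add]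
  have hmono : ∀ (v : ℤ × ℤ) (κ : Fin 2), ∃ T : List (Ins 2), ∀ c, endp c T = c ∧
      i02_ss (ipos c T) = mm c * (mm v * i02_sg κ) := by
    intro v κ
    obtain ⟨l, hl⟩ := i02_path (k := 2) v
    obtain ⟨l', hl'⟩ := i02_path (k := 2) (-v)
    refine ⟨l ++ (Sum.inr κ :: l'), fun c => ⟨?_, ?_⟩⟩
    · rw [endp_append, endp, (hl c).2, (hl' _).2]
      abel
    · rw [ipos_append, ipos, (hl c).1, (hl c).2, (hl' _).1]
      simp only [i02_ss, List.nil_append, List.map_cons, List.map_nil, List.sum_cons,
        List.sum_nil, add_zero]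
      rw [mm_add, mul_assoc]
  have hint : ∀ (v : ℤ × ℤ) (n : ℤ), ∃ T : List (Ins 2), ∀ c, endp c T = c ∧
      i02_ss (ipos c T) = mm c * (n • mm v) := by
    intro v n
    induction n using Int.induction_on with
    | zero => simpa using hzero
    | succ n ih =>
      have h1 := hmono v 0
      have h2 : mm v * i02_sg 0 = mm v := by simp [i02_sg]
      rw [h2] at h1
      have h3 := hadd _ _ ih h1
      rwa [← add_one_zsmul] at h3
    | pred n ih =>
      have h1 := hmono v 1
      have h2 : mm v * i02_sg 1 = -mm v := by simp [i02_sg]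
      rw [h2] at h1
      have h3 := hadd _ _ ih h1
      have e : (-(n : ℤ) - 1) • mm v = -(n : ℤ) • mm v + -mm v := by
        rw [sub_smul, one_smul, sub_eq_add_neg]
      rw [e]
      exact h3
  induction b using AddMonoidAlgebra.induction_linear with
  | zero => exact hzero
  | add f g hf hg => exact hadd f g hf hg
  | single v n =>
    have h1 := hint v n
    have h2 : n • mm v = AddMonoidAlgebra.single v n := by
      unfold mm
      rw [AddMonoidAlgebra.smul_single]
      simp
    rwa [h2] at h1

theorem exists_subst {k : ℕ} (b : Fin k → L2) :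
    ∃ g : Ins k → List (Ins 2), ∀ I, spoly (I.flatMap g) = ∑ κ, vec I κ * b κ := by
  choose T hT using fun κ => i02_token (b κ)
  refine ⟨fun i => match i with
    | Sum.inl m => [Sum.inl m]
    | Sum.inr κ => T κ, fun I => ?_⟩
  set g : Ins k → List (Ins 2) := fun i => match i with
    | Sum.inl m => [Sum.inl m]
    | Sum.inr κ => T κ with hg
  have key : ∀ (I : List (Ins k)) (c : ℤ × ℤ), i02_ss (ipos c (I.flatMap g)) =
      ((ipos c I).map (fun x => mm x.1 * b x.2)).sum := by
    intro I
    induction I with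
    | nil => intro c; simp [ipos, i02_ss]
    | cons i I ih =>
      intro c
      cases i with
      | inl m =>
        rw [List.flatMap_cons]
        exact ih (c + mvec m)
      | inr κ =>
        rw [List.flatMap_cons]
        change i02_ss (ipos c (T κ ++ I.flatMap g)) = _
        rw [ipos_append, i02_ss_append, (hT κ c).1, (hT κ c).2, ih c]
        simp [ipos]
  rw [i02_spoly, key I 0]
  have h := sum_vec_smul (M := L2) b I
  simp only [smul_eq_mul] at h
  exact h.symm

theorem i02_act_mm (A : (ℤ × ℤ) ≃+ (ℤ × ℤ)) (v : ℤ × ℤ) : act A (mm v) = mm (A v) := by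
  unfold act mm
  simp

theorem exists_act {k : ℕ} (A : (ℤ × ℤ) ≃+ (ℤ × ℤ)) :
    ∃ g : Ins k → List (Ins k), ∀ I κ, vec (I.flatMap g) κ = act A (vec I κ) := by
  choose P hP using fun v : ℤ × ℤ => i02_path (k := k) v
  refine ⟨fun i => match i with
    | Sum.inl m => P (A (mvec m))
    | Sum.inr κ => [Sum.inr κ], fun I κ => ?_⟩
  set g : Ins k → List (Ins k) := fun i => match i with
    | Sum.inl m => P (A (mvec m))
    | Sum.inr κ => [Sum.inr κ] with hg
  have key : ∀ (I : List (Ins k)) (c : ℤ × ℤ), ipos (A c) (I.flatMap g) =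
      (ipos c I).map (fun x => (A x.1, x.2)) := by
    intro I
    induction I with
    | nil => intro c; simp [ipos]
    | cons i I ih =>
      intro c
      cases i with
      | inl m =>
        rw [List.flatMap_cons]
        change ipos (A c) (P (A (mvec m)) ++ I.flatMap g) = _
        rw [ipos_append, (hP _ _).1, (hP _ _).2, ← map_add, ih (c + mvec m), List.nil_append]
        rfl
      | inr κ =>
        rw [List.flatMap_cons]
        change (A c, κ) :: ipos (A c) (I.flatMap g) = _
        rw [ih c]
        simp [ipos]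
  have h0 := key I 0
  rw [map_zero] at h0
  have hv : ∀ (l : List ((ℤ × ℤ) × Fin k)),
      ((l.map (fun x => (A x.1, x.2))).map
        (fun x => (Pi.single x.2 (mm x.1) : Fin k → L2))).sum κ =
      act A ((l.map (fun x => (Pi.single x.2 (mm x.1) : Fin k → L2))).sum κ) := by
    intro l
    induction l with
    | nil => simp
    | cons x l ih =>
      simp only [List.map_cons, List.sum_cons, Pi.add_apply, map_add]
      rw [ih]
      congr 1
      by_cases h : κ = x.2
      · subst h
        rw [Pi.single_eq_same, Pi.single_eq_same, i02_act_mm]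
      · rw [Pi.single_eq_of_ne h, Pi.single_eq_of_ne h, map_zero]
  unfold vec
  rw [h0]
  exact hv (ipos 0 I)

end Pool.Agent.WPR
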