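import Pool.Agent.Lib.MP_2da099_lc.R2.NB02
import Pool.Agent.Lib.MP_2da099_lc.R2.M03
import Mathlib.RingTheory.Polynomial.Content

/-!
# NB04: flat primes

HINTS.  `f` prime in `L2`, `A` such that all exponents of `act A f` have the same second coordinate.  Then
`act A f = mm v * embX φ` with `φ.coeff 0 ≠ 0` (shift by the smallest first coordinate).  `φ = C c * φ'` with `φ'`
primitive, `c = content`.  In `L2`: `act A f` is prime and divides `mm v * c * embX φ'`, so it divides the
integer `c` or `embX φ'`; the first is excluded by `hint`: (`act A f ∣ c` implies `f ∣ c`, since `act A` fixes the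
integers; `c ≠ 0`).  If `act A f ∣ embX φ'`: `embX φ' = act A f * k = mm v * c * embX φ' * k`, cancel
(`embX φ' ≠ 0`): `c` is a unit of `L2`, so `c = ± 1` (augmentation `L2 → ℤ` or coefficients), and `φ` is primitive.
-/

set_option autoImplicit false

namespace Pool.Agent.WPR

open Polynomial

theorem nb04_act_single (A : (ℤ × ℤ) ≃+ (ℤ × ℤ)) (c : ℤ × ℤ) (a : ℤ) :
    act A (AddMonoidAlgebra.single c a) = AddMonoidAlgebra.single (A c) a := by
  unfold act
  simp

theorem nb04_act (A : (ℤ × ℤ) ≃+ (ℤ × ℤ)) (f : L2) :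
    act A f = ∑ c ∈ f.coeff.support, AddMonoidAlgebra.single (A c) (f.coeff c) := by
  conv_lhs => rw [← AddMonoidAlgebra.sum_coeff_single f]
  rw [Finsupp.sum, map_sum]
  exact Finset.sum_congr rfl fun c _ => nb04_act_single A c _

theorem nb04_embX_monomial (n : ℕ) (a : ℤ) :
    embX (monomial n a) = AddMonoidAlgebra.single ((n : ℤ), (0 : ℤ)) a := by
  unfold embX mm
  rw [Polynomial.coe_eval₂RingHom, Polynomial.eval₂_monomial, AddMonoidAlgebra.single_pow]
  have h1 : (Int.castRingHom L2) a = AddMonoidAlgebra.single (0 : ℤ × ℤ) a := by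
    rw [eq_intCast, ← zsmul_one, AddMonoidAlgebra.one_def, AddMonoidAlgebra.smul_single]
    simp
  rw [h1, AddMonoidAlgebra.single_mul_single]
  congr 1
  · ext <;> simp
  · simp

theorem nb04_mul (v c : ℤ × ℤ) (a : ℤ) :
    mm v * AddMonoidAlgebra.single c a = AddMonoidAlgebra.single (v + c) a := by
  unfold mm
  rw [AddMonoidAlgebra.single_mul_single, one_mul]

theorem flat_prime (f : L2) (hf : Prime f) (hint : ∀ n : ℤ, n ≠ 0 → ¬ f ∣ (n : L2))
    (hflat : Flat f.coeff.support) :
    ∃ (A : (ℤ × ℤ) ≃+ (ℤ × ℤ)) (φ : Polynomial ℤ) (v : ℤ × ℤ), φ.IsPrimitive ∧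
      φ.coeff 0 ≠ 0 ∧ act A f = mm v * embX φ := by
  classical
  obtain ⟨A, hA⟩ := hflat
  have hne : f.coeff.support.Nonempty := by
    rw [Finsupp.support_nonempty_iff]
    intro h
    exact hf.ne_zero (AddMonoidAlgebra.coeff_eq_zero.1 h)
  obtain ⟨c0, hc0, hmin⟩ := Finset.exists_min_image f.coeff.support (fun c => (A c).1) hne
  set P : Polynomial ℤ := ∑ c ∈ f.coeff.support, monomial ((A c).1 - (A c0).1).toNat (f.coeff c)
    with hP
  have hact : act A f = mm (A c0) * embX P := by
    rw [nb04_act, hP, map_sum, Finset.mul_sum]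
    refine Finset.sum_congr rfl fun c hc => ?_
    rw [nb04_embX_monomial, nb04_mul]
    congr 1
    have h1 := hmin c hc
    have h2 := hA c hc c0 hc0
    have h3 : ((((A c).1 - (A c0).1).toNat : ℕ) : ℤ) = (A c).1 - (A c0).1 :=
      Int.toNat_of_nonneg (by omega)
    ext
    · simp only [Prod.fst_add]
      omega
    · simp only [Prod.snd_add]
      omega
  have hP0 : P.coeff 0 = f.coeff c0 := by
    rw [hP, finsetSum_coeff]
    rw [Finset.sum_eq_single c0]
    · rw [coeff_monomial]
      simp
    · intro c hc hcc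
      rw [coeff_monomial, if_neg]
      intro h
      have h1 := hmin c hc
      have h2 := hA c hc c0 hc0
      have h3 : (A c).1 = (A c0).1 := by
        have : ((((A c).1 - (A c0).1).toNat : ℕ) : ℤ) = (A c).1 - (A c0).1 :=
          Int.toNat_of_nonneg (by omega)
        omega
      exact hcc (A.injective (Prod.ext h3 h2))
    · intro h
      exact absurd hc0 h
  have hP00 : P.coeff 0 ≠ 0 := by
    rw [hP0]
    exact Finsupp.mem_support_iff.1 hc0
  have hPne : P ≠ 0 := by
    intro h
    rw [h] at hP00
    exact hP00 (by simp)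
  have hf' : Prime (act A f) := (MulEquiv.prime_iff (act A : L2 ≃* L2)).2 hf
  have hfix : ∀ n : ℤ, act A f ∣ (n : L2) → f ∣ (n : L2) := by
    intro n h
    have h1 := map_dvd (act A).symm h
    rwa [RingEquiv.symm_apply_apply, map_intCast] at h1
  set c := P.content with hc
  have hc00 : c ≠ 0 := by
    rw [hc, Ne, content_eq_zero_iff]
    exact hPne
  have e1 : act A f = (c : L2) * (mm (A c0) * embX P.primPart) := by
    rw [hact]
    conv_lhs => rw [P.eq_C_content_mul_primPart]
    rw [map_mul]
    have : embX (C P.content) = (c : L2) := by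
      unfold embX
      rw [Polynomial.coe_eval₂RingHom, Polynomial.eval₂_C, eq_intCast]
    rw [this]
    ring
  have hunit : IsUnit c := by
    rcases hf'.dvd_or_dvd (dvd_of_eq e1) with h | h
    · exact absurd (hfix c h) (hint c hc00)
    · obtain ⟨k, hk⟩ := h
      have h1 : mm (A c0) * embX P.primPart ≠ 0 := by
        intro h0
        rw [h0, mul_zero] at e1
        exact hf'.ne_zero e1
      have h2 : (mm (A c0) * embX P.primPart) * 1 =
          (mm (A c0) * embX P.primPart) * ((c : L2) * k) := by
        rw [mul_one]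
        calc mm (A c0) * embX P.primPart = act A f * k := hk
          _ = _ := by rw [e1]; ring
      have h3 := mul_left_cancel₀ h1 h2
      have h4 : (1 : L2).coeff 0 = ((c : L2) * k).coeff 0 := congrArg (fun x : L2 => x.coeff 0) h3
      rw [← zsmul_eq_mul, AddMonoidAlgebra.coeff_smul_apply, AddMonoidAlgebra.coeff_one_zero,
        smul_eq_mul] at h4
      exact isUnit_iff_dvd_one.2 ⟨_, h4⟩
  refine ⟨A, P, A c0, ?_, hP00, hact⟩
  intro r hr
  exact isUnit_of_dvd_unit (dvd_content_iff_C_dvd.2 hr) hunit

end Pool.Agent.WPR
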