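import Pool.Agent.Lib.MP_2da099_lc.R2.Z04
import Mathlib.RingTheory.Polynomial.Content
import Mathlib.RingTheory.Polynomial.GaussLemma
import Mathlib.RingTheory.AdjoinRoot

/-!
# Z05: divisibility by a polynomial in one variable

HINTS.  `V = AdjoinRoot (φ.map (algebraMap ℤ ℚ))` (or `ℚ[X] ⧸ (φ)`), finite-dimensional (`φ ≠ 0`), `X` =
multiplication by the root, invertible because `φ(0) ≠ 0` (`φ = c + X ψ`, `c ≠ 0`, so the inverse of the
root is `-ψ(root) / c`).  `u 0 = 1`, `u 1 = -1`.
Claim: `embX φ ∣ F` iff for every `b` the row `F_b(Y1) = Σ_a F(a, b) Y1 ^ a` is zero in `V`.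
The row `b` of `F`: multiply by `Y1 ^ m` to get a polynomial `P_b ∈ ℤ[X]` for `m` large (independent of `b`,
finite support); `P_b` is zero in `V` iff `φ ∣ P_b` in `ℚ[X]` iff `φ ∣ P_b` in `ℤ[X]` (`φ` primitive:
`Polynomial.IsPrimitive.Int.dvd_iff_map_cast_dvd_map_cast` or `IsPrimitive.dvd_iff_fraction_map_dvd_fraction_map`)
then `F = Σ_b mm (-m, b) * embX P_b` is divisible by `embX φ`.  Conversely, if `F = embX φ * G` then each row of
`F` is `φ` times the row of `G`.  The sum in `V` over the tokens in the row `b` with the signs `u` is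
`Σ_a F(a, b) root ^ a`, `F = spoly I` (`spoly_coeff`).
-/

set_option autoImplicit false

namespace Pool.Agent.WPR

open Pool.Agent.Lib.PolyTime Pool.Agent.WPM Function

theorem z05_mm_pow (n : ℕ) : (mm (1, 0) : L2) ^ n = AddMonoidAlgebra.single ((n : ℤ), 0) 1 := by
  unfold mm
  rw [AddMonoidAlgebra.single_pow, one_pow]
  congr 1
  ext <;> simp

theorem z05_embX_monomial (n : ℕ) (c : ℤ) :
    embX (Polynomial.monomial n c) = AddMonoidAlgebra.single ((n : ℤ), 0) c := by
  unfold embX
  rw [Polynomial.coe_eval₂RingHom, Polynomial.eval₂_monomial, z05_mm_pow]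
  have h : (Int.castRingHom L2) c = (AddMonoidAlgebra.single (0 : ℤ × ℤ) c : L2) := by
    rw [eq_intCast, AddMonoidAlgebra.intCast_def]
    simp
  rw [h, AddMonoidAlgebra.single_mul_single, zero_add, mul_one]

theorem z05_coeff (m b' : ℤ) (P : Polynomial ℤ) (a b : ℤ) :
    (mm (-m, b') * embX P).coeff (a, b) =
      if b = b' ∧ 0 ≤ a + m then P.coeff (a + m).toNat else 0 := by
  induction P using Polynomial.induction_on' with
  | add p q hp hq =>
    rw [map_add, mul_add, AddMonoidAlgebra.coeff_add, Finsupp.add_apply, hp, hq,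
      Polynomial.coeff_add]
    split_ifs <;> simp
  | monomial n c =>
    rw [z05_embX_monomial, mm, AddMonoidAlgebra.single_mul_single, one_mul,
      AddMonoidAlgebra.coeff_single, Finsupp.single_apply, Polynomial.coeff_monomial]
    by_cases h1 : b = b' ∧ 0 ≤ a + m
    · rw [if_pos h1]
      obtain ⟨h2, h3⟩ := h1
      by_cases h4 : n = (a + m).toNat
      · rw [if_pos h4, if_pos]
        have h5 : (n : ℤ) = a + m := by rw [h4]; exact Int.toNat_of_nonneg h3
        ext
        · show -m + (n : ℤ) = a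
          omega
        · show b' + 0 = b
          omega
      · rw [if_neg h4, if_neg]
        intro h5
        have h6 : -m + (n : ℤ) = a := congrArg Prod.fst h5
        apply h4
        omega
    · rw [if_neg h1, if_neg]
      intro h5
      have h6 : -m + (n : ℤ) = a := congrArg Prod.fst h5
      have h7 : b' + 0 = b := congrArg Prod.snd h5
      apply h1
      constructor <;> omega

theorem z05_decomp (G : L2) : ∃ (m : ℕ) (Q : ℤ → Polynomial ℤ) (S : Finset ℤ),
    G = ∑ b ∈ S, mm (-(m : ℤ), b) * embX (Q b) := by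
  classical
  obtain ⟨m, hm⟩ : ∃ m : ℕ, ∀ c ∈ G.coeff.support, 0 ≤ c.1 + m := by
    refine ⟨∑ c ∈ G.coeff.support, c.1.natAbs, fun c hc => ?_⟩
    have h1 : c.1.natAbs ≤ ∑ c ∈ G.coeff.support, c.1.natAbs :=
      Finset.single_le_sum (f := fun c : ℤ × ℤ => c.1.natAbs) (fun _ _ => Nat.zero_le _) hc
    omega
  refine ⟨m, fun b => ∑ c ∈ G.coeff.support.filter (fun c => c.2 = b),
    Polynomial.monomial (c.1 + m).toNat (G.coeff c), G.coeff.support.image Prod.snd, ?_⟩
  have h2 : G = ∑ a ∈ G.coeff.support, (AddMonoidAlgebra.single a (G.coeff a) : L2) :=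
    (AddMonoidAlgebra.sum_coeff_single G).symm
  conv_lhs => rw [h2]
  rw [← Finset.sum_fiberwise_of_maps_to
    (fun c hc => Finset.mem_image_of_mem Prod.snd hc) (fun a => (AddMonoidAlgebra.single a (G.coeff a) : L2))]
  refine Finset.sum_congr rfl (fun b _ => ?_)
  rw [map_sum, Finset.mul_sum]
  refine Finset.sum_congr rfl (fun c hc => ?_)
  rw [Finset.mem_filter] at hc
  rw [z05_embX_monomial, mm, AddMonoidAlgebra.single_mul_single, one_mul]
  congr 1
  have h3 := hm c hc.1
  have h4 := hc.2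
  ext
  · show c.1 = -(m : ℤ) + ((c.1 + m).toNat : ℤ)
    rw [Int.toNat_of_nonneg h3]
    ring
  · show c.2 = b + 0
    omega

theorem z05_coeff_sum (m : ℤ) (S : Finset ℤ) (Q : ℤ → Polynomial ℤ) (a b : ℤ) :
    (∑ b' ∈ S, mm (-m, b') * embX (Q b')).coeff (a, b) =
      if b ∈ S ∧ 0 ≤ a + m then (Q b).coeff (a + m).toNat else 0 := by
  classical
  rw [AddMonoidAlgebra.coeff_sum, Finsupp.finsetSum_apply]
  simp_rw [z05_coeff]
  by_cases hb : b ∈ S
  · rw [Finset.sum_eq_single b]
    · simp [hb]
    · intro b' _ hne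
      rw [if_neg]
      intro h
      exact hne h.1.symm
    · intro h
      exact absurd hb h
  · rw [if_neg (fun h => hb h.1)]
    refine Finset.sum_eq_zero (fun b' hb' => ?_)
    rw [if_neg]
    intro h
    exact hb (h.1 ▸ hb')

theorem dvd_embX_iff (φ : Polynomial ℤ) (hφ : φ.IsPrimitive) (F : L2) :
    embX φ ∣ F ↔ ∀ b : ℤ, ∃ (m : ℕ) (P : Polynomial ℤ), φ ∣ P ∧
      ∀ a : ℤ, F.coeff (a, b) = if 0 ≤ a + m then P.coeff (a + m).toNat else 0 := by
  classical
  constructor
  · rintro ⟨G, rfl⟩ b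
    obtain ⟨m, Q, S, hG⟩ := z05_decomp G
    have h1 : embX φ * G = ∑ b ∈ S, mm (-(m : ℤ), b) * embX (φ * Q b) := by
      rw [hG, Finset.mul_sum]
      refine Finset.sum_congr rfl (fun b _ => ?_)
      rw [map_mul]
      ring
    refine ⟨m, if b ∈ S then φ * Q b else 0, ?_, fun a => ?_⟩
    · split_ifs
      · exact dvd_mul_right _ _
      · exact dvd_zero _
    · rw [h1, z05_coeff_sum]
      by_cases hb : b ∈ S
      · simp [hb]
      · simp [hb]
  · intro h
    choose m P hP hF using h
    choose Q hQ using hP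
    set S : Finset ℤ := F.coeff.support.image Prod.snd with hS
    have h1 : F = embX φ * ∑ b ∈ S, mm (-(m b : ℤ), b) * embX (Q b) := by
      have h2 : embX φ * ∑ b ∈ S, mm (-(m b : ℤ), b) * embX (Q b)
          = ∑ b ∈ S, mm (-(m b : ℤ), b) * embX (P b) := by
        rw [Finset.mul_sum]
        refine Finset.sum_congr rfl (fun b _ => ?_)
        rw [hQ b, map_mul]
        ring
      rw [h2]
      apply AddMonoidAlgebra.coeff_injective
      ext c
      obtain ⟨a, b⟩ := c
      rw [AddMonoidAlgebra.coeff_sum, Finsupp.finsetSum_apply]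
      simp_rw [z05_coeff]
      by_cases hb : b ∈ S
      · rw [Finset.sum_eq_single b]
        · rw [hF b a]
          simp
        · intro b' _ hne
          rw [if_neg]
          intro h
          exact hne h.1.symm
        · intro h
          exact absurd hb h
      · have h3 : F.coeff (a, b) = 0 := by
          by_contra h4
          exact hb (Finset.mem_image_of_mem Prod.snd (Finsupp.mem_support_iff.2 h4))
        rw [h3]
        symm
        refine Finset.sum_eq_zero (fun b' hb' => ?_)
        rw [if_neg]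
        intro h
        exact hb (h.1 ▸ hb')
    exact ⟨_, h1⟩

section

variable {V : Type} [CommRing V]

/-- The substitution of a unit for the first variable. -/
noncomputable def z05_hom (r : Vˣ) : Multiplicative (ℤ × ℤ) →* AddMonoidAlgebra V ℤ where
  toFun v := AddMonoidAlgebra.single v.toAdd.2 ((r ^ v.toAdd.1 : Vˣ) : V)
  map_one' := by
    rw [AddMonoidAlgebra.one_def]
    simp
  map_mul' v w := by
    rw [AddMonoidAlgebra.single_mul_single]
    simp [zpow_add]

/-- The substitution of a unit for the first variable. -/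
noncomputable def z05_sub (r : Vˣ) : L2 →+* AddMonoidAlgebra V ℤ :=
  AddMonoidAlgebra.liftNCRingHom (Int.castRingHom (AddMonoidAlgebra V ℤ)) (z05_hom r)
    (fun _ _ => Commute.all _ _)

theorem z05_sub_mm (r : Vˣ) (v : ℤ × ℤ) :
    z05_sub r (mm v) = AddMonoidAlgebra.single v.2 ((r ^ v.1 : Vˣ) : V) := by
  unfold z05_sub mm
  have h := AddMonoidAlgebra.liftNC_single
    ((Int.castRingHom (AddMonoidAlgebra V ℤ)) : ℤ →+ AddMonoidAlgebra V ℤ) (z05_hom r) v 1
  refine h.trans ?_
  simp [z05_hom]

theorem z05_sub_embX (r : Vˣ) (P : Polynomial ℤ) :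
    z05_sub r (embX P) = AddMonoidAlgebra.single 0 (P.eval₂ (Int.castRingHom V) (r : V)) := by
  have h1 : (z05_sub r).comp embX = (AddMonoidAlgebra.singleZeroRingHom).comp
      (Polynomial.eval₂RingHom (Int.castRingHom V) (r : V)) := by
    refine Polynomial.ringHom_ext' (RingHom.ext_int _ _) ?_
    have h2 : embX Polynomial.X = mm (1, 0) := by
      unfold embX
      simp
    rw [RingHom.comp_apply, h2, z05_sub_mm]
    simp
  exact congrArg (fun f : Polynomial ℤ →+* AddMonoidAlgebra V ℤ => f P) h1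

/-- the signs -/
def z05_u (V : Type) [CommRing V] : Fin 2 → V := fun κ => if κ = 0 then 1 else -1

theorem z05_list (r : Vˣ) (L : List ((ℤ × ℤ) × Fin 2)) :
    z05_sub r ((L.map (fun x => (Pi.single x.2 (mm x.1) : Fin 2 → L2))).sum 0
      - (L.map (fun x => (Pi.single x.2 (mm x.1) : Fin 2 → L2))).sum 1)
      = (L.map (fun x => (AddMonoidAlgebra.single x.1.2 (((r ^ x.1.1 : Vˣ) : V) * z05_u V x.2) :
        AddMonoidAlgebra V ℤ))).sum := by
  induction L with
  | nil => simp
  | cons x L ih =>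
    rw [List.map_cons, List.sum_cons, List.map_cons, List.sum_cons, ← ih]
    obtain ⟨v, κ⟩ := x
    have h1 : ((Pi.single κ (mm v) : Fin 2 → L2) + (L.map (fun x => (Pi.single x.2 (mm x.1) :
        Fin 2 → L2))).sum) 0 - ((Pi.single κ (mm v) : Fin 2 → L2) + (L.map (fun x =>
        (Pi.single x.2 (mm x.1) : Fin 2 → L2))).sum) 1
        = ((Pi.single κ (mm v) : Fin 2 → L2) 0 - (Pi.single κ (mm v) : Fin 2 → L2) 1)
          + ((L.map (fun x => (Pi.single x.2 (mm x.1) : Fin 2 → L2))).sum 0
            - (L.map (fun x => (Pi.single x.2 (mm x.1) : Fin 2 → L2))).sum 1) := by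
      rw [Pi.add_apply, Pi.add_apply]
      ring
    show z05_sub r (((Pi.single κ (mm v) : Fin 2 → L2) + (L.map (fun x => (Pi.single x.2 (mm x.1) :
        Fin 2 → L2))).sum) 0 - ((Pi.single κ (mm v) : Fin 2 → L2) + (L.map (fun x =>
        (Pi.single x.2 (mm x.1) : Fin 2 → L2))).sum) 1) = _
    rw [h1, map_add]
    congr 1
    fin_cases κ
    · simp [z05_sub_mm, z05_u]
    · simp [z05_sub_mm, z05_u]

theorem z05_filter (r : Vˣ) (L : List ((ℤ × ℤ) × Fin 2)) (b : ℤ) :
    (L.map (fun x => (AddMonoidAlgebra.single x.1.2 (((r ^ x.1.1 : Vˣ) : V) * z05_u V x.2) :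
        AddMonoidAlgebra V ℤ))).sum.coeff b
      = ((L.filter (fun x => x.1.2 = b)).map (fun x => ((r ^ x.1.1 : Vˣ) : V) * z05_u V x.2)).sum := by
  induction L with
  | nil => simp
  | cons x L ih =>
    rw [List.map_cons, List.sum_cons, AddMonoidAlgebra.coeff_add, Finsupp.add_apply, ih,
      AddMonoidAlgebra.coeff_single, Finsupp.single_apply, List.filter_cons]
    by_cases h : x.1.2 = b
    · simp [h]
    · simp [h]

end

theorem z05_main (V : Type) [CommRing V] [Algebra ℚ V] [FiniteDimensional ℚ V] (r : Vˣ)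
    (φ : Polynomial ℤ)
    (hr : ∀ P : Polynomial ℤ, P.eval₂ (Int.castRingHom V) (r : V) = 0 ↔ φ ∣ P) :
    Quad (fun I : List (Ins 2) => embX φ ∣ spoly I) := by
  classical
  have key : (fun I : List (Ins 2) => embX φ ∣ spoly I) = (fun I : List (Ins 2) => ∀ b : ℤ,
      (((ipos 0 I).filter (fun x => x.1.2 = b)).map
      (fun x => ((DistribMulAction.toModuleAut ℚ V r) ^ x.1.1) (z05_u V x.2))).sum = 0) := by
    funext I
    apply propext
    have hI : ∀ b : ℤ, (((ipos 0 I).filter (fun x => x.1.2 = b)).map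
        (fun x => ((DistribMulAction.toModuleAut ℚ V r) ^ x.1.1) (z05_u V x.2))).sum
          = (z05_sub r (spoly I)).coeff b := by
      intro b
      have h1 : z05_sub r (spoly I) = ((ipos 0 I).map (fun x => (AddMonoidAlgebra.single x.1.2
          (((r ^ x.1.1 : Vˣ) : V) * z05_u V x.2) : AddMonoidAlgebra V ℤ))).sum := z05_list r _
      rw [h1, z05_filter]
      congr 1
      refine List.map_congr_left (fun x _ => ?_)
      rw [← map_zpow]
      rfl
    simp_rw [hI]
    constructor
    · rintro ⟨G, hG⟩ b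
      rw [hG, map_mul, z05_sub_embX, (hr φ).2 (dvd_refl φ)]
      simp
    · intro h
      obtain ⟨m, Q, S, hF⟩ := z05_decomp (spoly I)
      have h1 : ∀ b ∈ S, φ ∣ Q b := by
        intro b hb
        have h2 := h b
        rw [hF, map_sum, AddMonoidAlgebra.coeff_sum, Finsupp.finsetSum_apply,
          Finset.sum_eq_single b] at h2
        · rw [map_mul, z05_sub_mm, z05_sub_embX, AddMonoidAlgebra.single_mul_single, add_zero,
            AddMonoidAlgebra.coeff_single, Finsupp.single_eq_same] at h2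
          rw [← hr]
          rwa [Units.mul_right_eq_zero] at h2
        · intro b' _ hne
          rw [map_mul, z05_sub_mm, z05_sub_embX, AddMonoidAlgebra.single_mul_single, add_zero,
            AddMonoidAlgebra.coeff_single, Finsupp.single_apply, if_neg hne]
        · intro h4
          exact absurd hb h4
      rw [hF]
      refine Finset.dvd_sum (fun b hb => ?_)
      exact Dvd.dvd.mul_left ((map_dvd embX (h1 b hb))) _
  rw [key]
  exact quad_zip V (DistribMulAction.toModuleAut ℚ V r) (z05_u V)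

theorem quad_div1 (φ : Polynomial ℤ) (hφ : φ.IsPrimitive) (h0 : φ.coeff 0 ≠ 0) :
    Quad (fun I : List (Ins 2) => embX φ ∣ spoly I) := by
  classical
  set f : Polynomial ℚ := φ.map (Int.castRingHom ℚ) with hf
  have hφ0 : φ ≠ 0 := by
    rintro rfl
    exact h0 (Polynomial.coeff_zero 0)
  have hf0 : f ≠ 0 := by
    rw [hf, Ne, Polynomial.map_eq_zero_iff (Int.cast_injective)]
    exact hφ0
  have hc : f.coeff 0 ≠ 0 := by
    rw [hf, Polynomial.coeff_map]
    simpa using h0
  have hfin : FiniteDimensional ℚ (AdjoinRoot f) := (AdjoinRoot.powerBasis hf0).finite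
  -- evaluation at the root
  have hev : ∀ P : Polynomial ℤ, P.eval₂ (Int.castRingHom (AdjoinRoot f)) (AdjoinRoot.root f)
      = AdjoinRoot.mk f (P.map (Int.castRingHom ℚ)) := by
    intro P
    rw [← AdjoinRoot.aeval_eq, Polynomial.aeval_def, Polynomial.eval₂_map]
    congr 1
  -- the root is a unit
  obtain ⟨r, hr⟩ : ∃ r : (AdjoinRoot f)ˣ, (r : AdjoinRoot f) = AdjoinRoot.root f := by
    have h1 : AdjoinRoot.mk f f.divX * AdjoinRoot.root f + AdjoinRoot.of f (f.coeff 0) = 0 := by
      have h2 := congrArg (AdjoinRoot.mk f) (Polynomial.divX_mul_X_add f)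
      rw [map_add, map_mul, AdjoinRoot.mk_X, AdjoinRoot.mk_C, AdjoinRoot.mk_self] at h2
      exact h2
    have h3 : (AdjoinRoot.root f) * (-(AdjoinRoot.of f (f.coeff 0)⁻¹) * AdjoinRoot.mk f f.divX)
        = 1 := by
      have h4 : AdjoinRoot.of f (f.coeff 0)⁻¹ * AdjoinRoot.of f (f.coeff 0) = 1 := by
        rw [← map_mul, inv_mul_cancel₀ hc, map_one]
      linear_combination (-(AdjoinRoot.of f (f.coeff 0)⁻¹)) * h1 + h4
    exact ⟨Units.mkOfMulEqOne _ _ h3, rfl⟩
  refine z05_main (AdjoinRoot f) r φ (fun P => ?_)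
  rw [hr, hev, AdjoinRoot.mk_eq_zero, hf,
    Polynomial.IsPrimitive.Int.dvd_iff_map_cast_dvd_map_cast φ P hφ]

end Pool.Agent.WPR
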