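import Pool.Agent.Lib.MP_2da099_lc.R2.D04
import Pool.Agent.Lib.MP_2da099_lc.R2.NB04
import Pool.Agent.Lib.MP_2da099_lc.R2.Z05
import Pool.Agent.Lib.MP_2da099_lc.R2.I02
import Pool.Agent.Lib.MP_2da099_lc.R2.G04
import Pool.Agent.Lib.MP_2da099_lc.R2.B07

/-!
# B08: saturated components

HINTS.  `quad_prime`: if `f` is not flat: `quad_div2`.  If it is flat: `A, φ, v` from `flat_prime`; `act A (f ^ e) =
mm (..) * embX (φ ^ e)`, so `f ^ e ∣ F` iff `embX (φ ^ e) ∣ act A F`; `exists_act A` (for `k = 2`) gives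
`spoly (I.flatMap g) = act A (spoly I)`; `quad_div1 (φ ^ e)` (`φ ^ e` is primitive with nonzero constant
coefficient) and `Quad.flatMap`.
`quad_sat`: tests from `sat_tests`; each of them is `Quad`: `Σ vec I κ * α κ = spoly (I.flatMap g)`
(`exists_subst`), `quad_zero` or `quad_prime` with `Quad.flatMap`; then `quad_forall`, `Quad.and`.
`quad_sat'`: the same with the two variables exchanged: `A = AddEquiv.prodComm`, `act A (embX d) = embY d`,
`Q' = {F | act A⁻¹ F ∈ Q}` is a submodule (semilinear image), `vec I ∈ Q ↔ vec (I.flatMap g) ∈ Q'`.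
-/

set_option autoImplicit false

namespace Pool.Agent.WPR

open Pool.Agent.Lib.PolyTime Pool.Agent.WPM Function

theorem b08_unit (v : ℤ × ℤ) : IsUnit (mm v) := by
  refine IsUnit.of_mul_eq_one (mm (-v)) ?_
  rw [← mm_add, add_neg_cancel, mm_zero]

theorem b08_act_mm (A : (ℤ × ℤ) ≃+ (ℤ × ℤ)) (v : ℤ × ℤ) : act A (mm v) = mm (A v) := by
  simp [act, mm]

theorem b08_embX_pow (φ : Polynomial ℤ) (e : ℕ) : embX (φ ^ e) = embX φ ^ e := map_pow _ _ _

theorem b08_prim {φ : Polynomial ℤ} (h : φ.IsPrimitive) (e : ℕ) : (φ ^ e).IsPrimitive := by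
  induction e with
  | zero => rw [pow_zero]; exact Polynomial.isPrimitive_one
  | succ e ih => rw [pow_succ]; exact ih.mul h

theorem quad_prime (f : L2) (hf : Prime f) (hint : ∀ n : ℤ, n ≠ 0 → ¬ f ∣ (n : L2)) (e : ℕ) :
    Quad (fun I : List (Ins 2) => f ^ e ∣ spoly I) := by
  by_cases hflat : Flat f.coeff.support
  · obtain ⟨A, φ, v, hφ, h0, hA⟩ := flat_prime f hf hint hflat
    obtain ⟨g, hg⟩ := exists_act (k := 2) A
    have h0e : (φ ^ e).coeff 0 ≠ 0 := by
      rw [Polynomial.coeff_zero_eq_eval_zero, Polynomial.eval_pow,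
        ← Polynomial.coeff_zero_eq_eval_zero]
      exact pow_ne_zero e h0
    refine ((quad_div1 (φ ^ e) (b08_prim hφ e) h0e).flatMap g).congr (fun I => ?_)
    have h1 : spoly (I.flatMap g) = act A (spoly I) := by
      rw [spoly, spoly, hg, hg, map_sub]
    have h2 : (f ^ e ∣ spoly I) ↔ (act A (f ^ e) ∣ act A (spoly I)) := (map_dvd_iff (act A)).symm
    have h3 : act A (f ^ e) = mm v ^ e * embX φ ^ e := by rw [map_pow, hA, mul_pow]
    rw [h1, h2, h3, b08_embX_pow]
    exact ((b08_unit v).pow e).mul_left_dvd.symm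
  · exact quad_div2 f hf hflat e

theorem quad_sat {k : ℕ} (Q : Submodule L2 (Fin k → L2))
    (hsat : ∀ (d : Polynomial ℤ) (x : Fin k → L2), d ≠ 0 → embY d • x ∈ Q → x ∈ Q) :
    Quad (fun I : List (Ins k) => vec I ∈ Q) := by
  obtain ⟨a, α, b, f, e, β, hf, hQ⟩ := sat_tests Q hsat
  have h1 : Quad (fun I : List (Ins k) => ∀ i, ∑ κ, vec I κ * α i κ = 0) := by
    refine quad_forall a _ (fun i => ?_)
    obtain ⟨g, hg⟩ := exists_subst (α i)
    exact (quad_zero.flatMap g).congr (fun I => by rw [hg])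
  have h2 : Quad (fun I : List (Ins k) => ∀ i, f i ^ e i ∣ ∑ κ, vec I κ * β i κ) := by
    refine quad_forall b _ (fun i => ?_)
    obtain ⟨g, hg⟩ := exists_subst (β i)
    exact ((quad_prime (f i) (hf i).1 (hf i).2 (e i)).flatMap g).congr (fun I => by rw [hg])
  exact (h1.and h2).congr (fun I => (hQ (vec I)).symm)

/-- the exchange of the two variables -/
def b08_A : (ℤ × ℤ) ≃+ (ℤ × ℤ) := AddEquiv.prodComm

theorem b08_act_embX (d : Polynomial ℤ) : act b08_A (embX d) = embY d := by
  have h : ((act b08_A : L2 ≃+* L2) : L2 →+* L2).comp embX = embY := by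
    apply Polynomial.ringHom_ext
    · intro n
      simp [embX, embY]
    · show act b08_A (embX Polynomial.X) = embY Polynomial.X
      have e1 : embX Polynomial.X = mm (1, 0) := by simp [embX]
      have e2 : embY Polynomial.X = mm (0, 1) := by simp [embY]
      rw [e1, e2, b08_act_mm]
      rfl
  exact RingHom.congr_fun h d

/-- the submodule with exchanged variables -/
noncomputable def b08_Q {k : ℕ} (Q : Submodule L2 (Fin k → L2)) : Submodule L2 (Fin k → L2) where
  carrier := {F | (fun κ => (act b08_A).symm (F κ)) ∈ Q}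
  zero_mem' := by
    show (fun κ => (act b08_A).symm ((0 : Fin k → L2) κ)) ∈ Q
    have : (fun κ => (act b08_A).symm ((0 : Fin k → L2) κ)) = 0 := by
      funext κ
      exact map_zero _
    rw [this]
    exact Q.zero_mem
  add_mem' := by
    intro F G hF hG
    show (fun κ => (act b08_A).symm ((F + G) κ)) ∈ Q
    have : (fun κ => (act b08_A).symm ((F + G) κ)) =
        (fun κ => (act b08_A).symm (F κ)) + (fun κ => (act b08_A).symm (G κ)) := by
      funext κ
      exact map_add _ _ _
    rw [this]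
    exact Q.add_mem hF hG
  smul_mem' := by
    intro c F hF
    show (fun κ => (act b08_A).symm ((c • F) κ)) ∈ Q
    have : (fun κ => (act b08_A).symm ((c • F) κ)) =
        (act b08_A).symm c • (fun κ => (act b08_A).symm (F κ)) := by
      funext κ
      exact map_mul _ _ _
    rw [this]
    exact Q.smul_mem _ hF

theorem quad_sat' {k : ℕ} (Q : Submodule L2 (Fin k → L2))
    (hsat : ∀ (d : Polynomial ℤ) (x : Fin k → L2), d ≠ 0 → embX d • x ∈ Q → x ∈ Q) :
    Quad (fun I : List (Ins k) => vec I ∈ Q) := by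
  obtain ⟨g, hg⟩ := exists_act (k := k) b08_A
  have h1 : Quad (fun I : List (Ins k) => vec I ∈ b08_Q Q) := by
    refine quad_sat (b08_Q Q) (fun d x hd hx => ?_)
    refine hsat d _ hd ?_
    have h2 : (fun κ => (act b08_A).symm ((embY d • x) κ)) ∈ Q := hx
    have h3 : (fun κ => (act b08_A).symm ((embY d • x) κ)) =
        embX d • (fun κ => (act b08_A).symm (x κ)) := by
      funext κ
      have h4 : (act b08_A).symm ((embY d • x) κ) =
          (act b08_A).symm (embY d) * (act b08_A).symm (x κ) := map_mul _ _ _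
      rw [h4, ← b08_act_embX, RingEquiv.symm_apply_apply]
      rfl
    rw [← h3]
    exact h2
  refine (h1.flatMap g).congr (fun I => ?_)
  show (fun κ => (act b08_A).symm (vec (I.flatMap g) κ)) ∈ Q ↔ _
  have h5 : (fun κ => (act b08_A).symm (vec (I.flatMap g) κ)) = vec I := by
    funext κ
    rw [hg, RingEquiv.symm_apply_apply]
  rw [h5]

end Pool.Agent.WPR
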