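import Pool.Agent.Lib.MP_2da099_lc.R2.B03
import Pool.Agent.Lib.MP_2da099_lc.R2.B04
import Pool.Agent.Lib.MP_2da099_lc.R2.B08
import Pool.Agent.Lib.MP_2da099_lc.A04

/-!
# B09: submodules of `L2 ^ k`

HINTS.  `L2` is Noetherian (like `isNoetherian_lam` in `A04.lean`).  `lasker` (A04, for `Λ = L2`, `ι = Fin k`):
`N = ∩ Q i`; by `quad_forall` consider one `Q = Q i`, with the prime `P`, `Q ≠ ⊤`,
`h1 : f ∉ P → f • x ∈ Q → x ∈ Q`, `h2 : P ^ m • everything ⊆ Q`.
Case 1: some integer `n ≠ 0` is in `P`: `E = |n| ^ m`, `quad_comp_torsion`.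
Case 2: no nonzero integer in `P`.  If `embY d ∉ P` for all `d ≠ 0`: `quad_sat`.  If `embX d ∉ P` for all `d ≠ 0`:
`quad_sat'`.  Otherwise `embX φ ∈ P`, `embY ψ ∈ P` with `φ, ψ ≠ 0`: `quad_comp_fin` with `φ ^ m`, `ψ ^ m`.
-/

set_option autoImplicit false

namespace Pool.Agent.WPR

open Pool.Agent.Lib.PolyTime Pool.Agent.WPM Function

theorem isNoetherian_L2 : IsNoetherianRing L2 := by
  have : AddMonoid.FG (ℤ × ℤ) := by
    have h : Module.Finite ℤ (ℤ × ℤ) := inferInstance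
    have h2 : AddGroup.FG (ℤ × ℤ) := by
      rw [← Module.Finite.iff_addGroup_fg]
      exact h
    exact AddGroup.fg_iff_addMonoid_fg.mp h2
  have : Algebra.FiniteType ℤ (AddMonoidAlgebra ℤ (ℤ × ℤ)) := inferInstance
  exact Algebra.FiniteType.isNoetherianRing ℤ _

theorem b09_component {k : ℕ} (Q : Submodule L2 (Fin k → L2)) (P : Ideal L2)
    (h1 : ∀ f, f ∉ P → ∀ x, f • x ∈ Q → x ∈ Q) (K : ℕ) (h2 : ∀ f ∈ P ^ K, ∀ x, f • x ∈ Q) :
    Quad (fun I : List (Ins k) => vec I ∈ Q) := by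
  by_cases hn : ∃ n : ℤ, n ≠ 0 ∧ (n : L2) ∈ P
  · obtain ⟨n, hn0, hnP⟩ := hn
    have hab : ((n.natAbs : ℕ) : L2) ∈ P := by
      rcases Int.natAbs_eq n with h | h
      · have h3 : ((n.natAbs : ℕ) : L2) = (n : L2) := by
          conv_rhs => rw [h]
          rw [Int.cast_natCast]
        rw [h3]
        exact hnP
      · have h3 : ((n.natAbs : ℕ) : L2) = -(n : L2) := by
          conv_rhs => rw [h]
          rw [Int.cast_neg, Int.cast_natCast, neg_neg]
        rw [h3]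
        exact P.neg_mem hnP
    refine quad_comp_torsion Q (n.natAbs ^ K) (pow_ne_zero K (Int.natAbs_ne_zero.mpr hn0))
      (fun x => h2 _ ?_ x)
    rw [Nat.cast_pow]
    exact Ideal.pow_mem_pow hab K
  · push Not at hn
    by_cases hY : ∀ d : Polynomial ℤ, d ≠ 0 → embY d ∉ P
    · exact quad_sat Q (fun d x hd hx => h1 _ (hY d hd) x hx)
    by_cases hX : ∀ d : Polynomial ℤ, d ≠ 0 → embX d ∉ P
    · exact quad_sat' Q (fun d x hd hx => h1 _ (hX d hd) x hx)
    push Not at hY hX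
    obtain ⟨ψ, hψ, hψP⟩ := hY
    obtain ⟨φ, hφ, hφP⟩ := hX
    refine quad_comp_fin Q (fun n x hn0 hx => ?_) (φ ^ K) (ψ ^ K) (pow_ne_zero K hφ)
      (pow_ne_zero K hψ) (fun x => ?_) (fun x => ?_)
    · refine h1 (n : L2) (hn n hn0) x ?_
      rw [Int.cast_smul_eq_zsmul]
      exact hx
    · refine h2 _ ?_ x
      rw [map_pow]
      exact Ideal.pow_mem_pow hφP K
    · refine h2 _ ?_ x
      rw [map_pow]
      exact Ideal.pow_mem_pow hψP K

theorem quad_submodule {k : ℕ} (N : Submodule L2 (Fin k → L2)) :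
    Quad (fun I : List (Ins k) => vec I ∈ N) := by
  have := isNoetherian_L2
  obtain ⟨m, Q, P, hN, hQ⟩ := lasker L2 (Fin k) N
  have h : Quad (fun I : List (Ins k) => ∀ i, vec I ∈ Q i) := by
    refine quad_forall m _ (fun i => ?_)
    obtain ⟨-, -, h1, K, h2⟩ := hQ i
    exact b09_component (Q i) (P i) h1 K h2
  exact h.congr (fun I => (hN (vec I)).symm)

end Pool.Agent.WPR
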