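import Pool.Agent.Lib.MP_2da099_lc.R2.B02
import Pool.Agent.Lib.MP_2da099_lc.R2.B09

/-!
# B10: the word problem of metabelian groups of rank at most two

HINTS.  `exists_instr`, `quad_submodule`, `Quad.comp`, `Quad.congr`.
-/

set_option autoImplicit false

namespace Pool.Agent.WPR

open Pool.Agent.Lib.PolyTime Pool.Agent.WPM Function

universe u

theorem quad_group {G : Type u} [Group G] (A : Subgroup G) [A.Normal]
    (hcomm : ∀ a ∈ A, ∀ b ∈ A, a * b = b * a)
    (hquot : ∀ x y : G, x * y * x⁻¹ * y⁻¹ ∈ A) {r : ℕ} (g : Fin r → G)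
    (hg : Subgroup.closure (Set.range g) = ⊤) (x : Fin 2 → G)
    (hx : ∀ h : G, ∃ k, 0 < k ∧ h ^ k ∈ Subgroup.closure (Set.range x) ⊔ A) :
    Quad (fun w : List (Letter r) => value g w = 1) := by
  obtain ⟨k, N, tr, C, h1, h2, h3⟩ := exists_instr A hcomm hquot g hg x hx
  exact ((quad_submodule N).comp C h1 h2).congr (fun w => (h3 w).symm)

end Pool.Agent.WPR
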