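import Pool.Agent.Lib.MP_2da099_lc.R2.Defs

/-!
# G05: arithmetic of grids

HINTS.  Inductions on lists, `List.getD`.  `gval_gmul`: `foldl` over the list of terms.
`glen`: the number of rows and the number of columns (`gcols g` = maximal length of a row) of the results:
`gsh x y g` has `y + rows` rows and at most `x + cols` columns, `gadd` the maxima.
-/

set_option autoImplicit false

namespace Pool.Agent.WPR

open Pool.Agent.Lib.PolyTime Pool.Agent.WPM Function

variable {β : ℕ}

theorem g05_smul (w : ℤ) (y : ZB β) : ZB.val (w • y : ZB β) = w * ZB.val y := rfl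

theorem g05_map_getD (w : ℤ) (l : List (ZB β)) (t : ℕ) :
    ZB.val ((l.map (fun y => w • y)).getD t 0) = w * ZB.val (l.getD t 0) := by
  induction l generalizing t with
  | nil =>
    simp only [List.map_nil, List.getD_nil]
    exact (mul_zero w).symm
  | cons y l ih =>
    cases t with
    | zero => rfl
    | succ t => exact ih t

theorem g05_ladd (w : ℤ) (l l' : List (ZB β)) (t : ℕ) :
    ZB.val ((ladd w l l').getD t 0) = ZB.val (l.getD t 0) + w * ZB.val (l'.getD t 0) := by
  induction l generalizing l' t with
  | nil =>
    have h1 : ladd w [] l' = l'.map (fun y => w • y) := by simp [ladd]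
    rw [h1, g05_map_getD]
    simp only [List.getD_nil]
    exact (zero_add _).symm
  | cons x l ih =>
    cases l' with
    | nil =>
      have h1 : ladd w (x :: l) [] = x :: l := by simp [ladd]
      rw [h1]
      simp only [List.getD_nil]
      have h2 : w * ZB.val (0 : ZB β) = 0 := mul_zero w
      rw [h2]
      exact (add_zero _).symm
    | cons y l' =>
      have h1 : ladd w (x :: l) (y :: l') = (x + w • y) :: ladd w l l' := by simp [ladd]
      rw [h1]
      cases t with
      | zero => rfl
      | succ t => exact ih l' t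

theorem g05_gval_nil (s t : ℕ) : gval ([] : List (List (ZB β))) s t = 0 := by
  unfold gval
  simp only [List.getD_nil]
  rfl

theorem g05_gval_cons_zero (r : List (ZB β)) (g : List (List (ZB β))) (t : ℕ) :
    gval (r :: g) 0 t = ZB.val (r.getD t 0) := rfl

theorem g05_gval_cons_succ (r : List (ZB β)) (g : List (List (ZB β))) (s t : ℕ) :
    gval (r :: g) (s + 1) t = gval g s t := rfl

theorem g05_gval_map (w : ℤ) (g : List (List (ZB β))) (s t : ℕ) :
    gval (g.map (fun r => r.map (fun y => w • y))) s t = w * gval g s t := by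
  induction g generalizing s with
  | nil =>
    simp only [List.map_nil]
    rw [g05_gval_nil, mul_zero]
  | cons r g ih =>
    rw [List.map_cons]
    cases s with
    | zero => exact g05_map_getD w r t
    | succ s => exact ih s

theorem gval_gadd (w : ℤ) (g g' : List (List (ZB β))) (s t : ℕ) :
    gval (gadd w g g') s t = gval g s t + w * gval g' s t := by
  induction g generalizing g' s with
  | nil =>
    have h1 : gadd w [] g' = g'.map (fun r => r.map (fun y => w • y)) := by simp [gadd]
    rw [h1, g05_gval_map, g05_gval_nil, zero_add]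
  | cons r g ih =>
    cases g' with
    | nil =>
      have h1 : gadd w (r :: g) [] = r :: g := by simp [gadd]
      rw [h1, g05_gval_nil, mul_zero, add_zero]
    | cons r' g' =>
      have h1 : gadd w (r :: g) (r' :: g') = ladd w r r' :: gadd w g g' := by simp [gadd]
      rw [h1]
      cases s with
      | zero =>
        rw [g05_gval_cons_zero, g05_gval_cons_zero, g05_gval_cons_zero]
        exact g05_ladd w r r' t
      | succ s =>
        rw [g05_gval_cons_succ, g05_gval_cons_succ, g05_gval_cons_succ]
        exact ih g' s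

theorem g05_rep (x : ℕ) (r : List (ZB β)) (t : ℕ) :
    ((List.replicate x (0 : ZB β) ++ r).getD t 0 : ZB β) = if x ≤ t then r.getD (t - x) 0 else 0 := by
  split_ifs with h
  · rw [List.getD_append_right _ _ _ _ (by rw [List.length_replicate]; exact h),
      List.length_replicate]
  · rw [List.getD_append _ _ _ _ (by rw [List.length_replicate]; omega),
      List.getD_eq_getElem _ _ (by rw [List.length_replicate]; omega), List.getElem_replicate]

theorem g05_gval_shx (x : ℕ) (g : List (List (ZB β))) (s t : ℕ) :
    gval (g.map (fun r => List.replicate x 0 ++ r)) s t = if x ≤ t then gval g s (t - x) else 0 := by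
  induction g generalizing s with
  | nil =>
    simp only [List.map_nil]
    rw [g05_gval_nil, g05_gval_nil, ite_self]
  | cons r g ih =>
    rw [List.map_cons]
    cases s with
    | zero =>
      rw [g05_gval_cons_zero, g05_gval_cons_zero, g05_rep x r t]
      split_ifs <;> rfl
    | succ s =>
      rw [g05_gval_cons_succ, g05_gval_cons_succ]
      exact ih s

theorem gval_gsh (x y : ℕ) (g : List (List (ZB β))) (s t : ℕ) :
    gval (gsh x y g) s t = if x ≤ t ∧ y ≤ s then gval g (s - y) (t - x) else 0 := by
  unfold gsh
  induction y generalizing s with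
  | zero =>
    rw [List.replicate_zero, List.nil_append, g05_gval_shx]
    simp
  | succ y ih =>
    rw [List.replicate_succ, List.cons_append]
    cases s with
    | zero =>
      rw [g05_gval_cons_zero, if_neg (by omega)]
      rfl
    | succ s =>
      rw [g05_gval_cons_succ, ih s]
      have h1 : s + 1 - (y + 1) = s - y := by omega
      rw [h1]
      by_cases h : x ≤ t ∧ y ≤ s
      · rw [if_pos h, if_pos (by omega)]
      · rw [if_neg h, if_neg (by omega)]

theorem g05_gmul_foldl (terms : List ((ℕ × ℕ) × ℤ)) (p : ℕ) (g acc : List (List (ZB β)))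
    (s t : ℕ) :
    gval (terms.foldl (fun acc τ => gadd τ.2 acc (gsh (τ.1.1 * p) (τ.1.2 * p) g)) acc) s t =
      gval acc s t + (terms.map (fun τ => τ.2 *
      (if τ.1.1 * p ≤ t ∧ τ.1.2 * p ≤ s then gval g (s - τ.1.2 * p) (t - τ.1.1 * p) else 0))).sum := by
  induction terms generalizing acc with
  | nil => simp
  | cons τ terms ih =>
    rw [List.foldl_cons, ih, gval_gadd, gval_gsh, List.map_cons, List.sum_cons]
    ring

theorem gval_gmul (terms : List ((ℕ × ℕ) × ℤ)) (p : ℕ) (g : List (List (ZB β))) (s t : ℕ) :
    gval (gmul terms p g) s t = (terms.map (fun τ => τ.2 *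
      (if τ.1.1 * p ≤ t ∧ τ.1.2 * p ≤ s then gval g (s - τ.1.2 * p) (t - τ.1.1 * p) else 0))).sum := by
  unfold gmul
  rw [g05_gmul_foldl, g05_gval_nil, zero_add]

/-- the largest exponents -/
def tmax (terms : List ((ℕ × ℕ) × ℤ)) : ℕ := (terms.map (fun τ => τ.1.1 + τ.1.2)).sum

theorem g05_gadd_length (w : ℤ) (g g' : List (List (ZB β))) (M : ℕ) (h : g.length ≤ M)
    (h' : g'.length ≤ M) : (gadd w g g').length ≤ M := by
  induction g generalizing g' M with
  | nil =>
    have h1 : gadd w [] g' = g'.map (fun r => r.map (fun y => w • y)) := by simp [gadd]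
    rw [h1, List.length_map]
    exact h'
  | cons r g ih =>
    cases g' with
    | nil =>
      have h1 : gadd w (r :: g) [] = r :: g := by simp [gadd]
      rw [h1]
      exact h
    | cons r' g' =>
      have h1 : gadd w (r :: g) (r' :: g') = ladd w r r' :: gadd w g g' := by simp [gadd]
      rw [h1]
      rw [List.length_cons] at h h' ⊢
      have := ih g' (M - 1) (by omega) (by omega)
      omega

theorem g05_ladd_length (w : ℤ) (l l' : List (ZB β)) (M : ℕ) (h : l.length ≤ M)
    (h' : l'.length ≤ M) : (ladd w l l').length ≤ M := by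
  induction l generalizing l' M with
  | nil =>
    have h1 : ladd w [] l' = l'.map (fun y => w • y) := by simp [ladd]
    rw [h1, List.length_map]
    exact h'
  | cons r g ih =>
    cases l' with
    | nil =>
      have h1 : ladd w (r :: g) [] = r :: g := by simp [ladd]
      rw [h1]
      exact h
    | cons r' l' =>
      have h1 : ladd w (r :: g) (r' :: l') = (r + w • r') :: ladd w g l' := by simp [ladd]
      rw [h1]
      rw [List.length_cons] at h h' ⊢
      have := ih l' (M - 1) (by omega) (by omega)
      omega

theorem g05_gadd_rows (w : ℤ) (g g' : List (List (ZB β))) (M : ℕ) (h : ∀ r ∈ g, r.length ≤ M)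
    (h' : ∀ r ∈ g', r.length ≤ M) : ∀ r ∈ gadd w g g', r.length ≤ M := by
  induction g generalizing g' with
  | nil =>
    have h1 : gadd w [] g' = g'.map (fun r => r.map (fun y => w • y)) := by simp [gadd]
    rw [h1]
    intro r hr
    obtain ⟨r', hr', rfl⟩ := List.mem_map.1 hr
    rw [List.length_map]
    exact h' r' hr'
  | cons r g ih =>
    cases g' with
    | nil =>
      have h1 : gadd w (r :: g) [] = r :: g := by simp [gadd]
      rw [h1]
      exact h
    | cons r' g' =>
      have h1 : gadd w (r :: g) (r' :: g') = ladd w r r' :: gadd w g g' := by simp [gadd]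
      rw [h1]
      intro x hx
      rcases List.mem_cons.1 hx with rfl | hx
      · exact g05_ladd_length w r r' M (h r (List.mem_cons_self ..)) (h' r' (List.mem_cons_self ..))
      · exact ih g' (fun y hy => h y (List.mem_cons_of_mem _ hy))
          (fun y hy => h' y (List.mem_cons_of_mem _ hy)) x hx

theorem g05_tmax (terms : List ((ℕ × ℕ) × ℤ)) (τ : (ℕ × ℕ) × ℤ) (h : τ ∈ terms) :
    τ.1.1 + τ.1.2 ≤ tmax terms := by
  induction terms with
  | nil => simp at h
  | cons σ terms ih =>
    have h1 : tmax (σ :: terms) = σ.1.1 + σ.1.2 + tmax terms := by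
      unfold tmax
      rw [List.map_cons, List.sum_cons]
    rw [h1]
    rcases List.mem_cons.1 h with rfl | h
    · omega
    · have := ih h
      omega

theorem g05_foldl_length (terms : List ((ℕ × ℕ) × ℤ)) (p M : ℕ) (g : List (List (ZB β)))
    (hM : ∀ τ ∈ terms, g.length + τ.1.2 * p ≤ M) (acc : List (List (ZB β))) (h : acc.length ≤ M) :
    (terms.foldl (fun acc τ => gadd τ.2 acc (gsh (τ.1.1 * p) (τ.1.2 * p) g)) acc).length ≤ M := by
  induction terms generalizing acc with
  | nil => exact h
  | cons τ terms ih =>
    rw [List.foldl_cons]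
    refine ih (fun σ hσ => hM σ (List.mem_cons_of_mem _ hσ)) _ ?_
    refine g05_gadd_length _ _ _ _ h ?_
    unfold gsh
    rw [List.length_append, List.length_replicate, List.length_map]
    have := hM τ (List.mem_cons_self ..)
    omega

theorem g05_foldl_rows (terms : List ((ℕ × ℕ) × ℤ)) (p M L : ℕ) (g : List (List (ZB β)))
    (hg : ∀ r ∈ g, r.length ≤ L)
    (hM : ∀ τ ∈ terms, L + τ.1.1 * p ≤ M) (acc : List (List (ZB β)))
    (h : ∀ r ∈ acc, r.length ≤ M) :
    ∀ r ∈ terms.foldl (fun acc τ => gadd τ.2 acc (gsh (τ.1.1 * p) (τ.1.2 * p) g)) acc,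
      r.length ≤ M := by
  induction terms generalizing acc with
  | nil => exact h
  | cons τ terms ih =>
    rw [List.foldl_cons]
    refine ih (fun σ hσ => hM σ (List.mem_cons_of_mem _ hσ)) _ ?_
    refine g05_gadd_rows _ _ _ _ h ?_
    unfold gsh
    intro r hr
    rcases List.mem_append.1 hr with hr | hr
    · rw [List.eq_of_mem_replicate hr]
      exact Nat.zero_le _
    · obtain ⟨r', hr', rfl⟩ := List.mem_map.1 hr
      rw [List.length_append, List.length_replicate]
      have h1 := hM τ (List.mem_cons_self ..)
      have h2 := hg r' hr'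
      omega

theorem gmul_length (terms : List ((ℕ × ℕ) × ℤ)) (p : ℕ) (g : List (List (ZB β))) :
    (gmul terms p g).length ≤ g.length + tmax terms * p := by
  unfold gmul
  refine g05_foldl_length terms p _ g (fun τ hτ => ?_) [] (Nat.zero_le _)
  have h1 := g05_tmax terms τ hτ
  have h2 : τ.1.2 * p ≤ tmax terms * p := Nat.mul_le_mul_right p (by omega)
  omega

theorem gmul_rows (terms : List ((ℕ × ℕ) × ℤ)) (p L : ℕ) (g : List (List (ZB β)))
    (hg : ∀ r ∈ g, r.length ≤ L) : ∀ r ∈ gmul terms p g, r.length ≤ L + tmax terms * p := by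
  unfold gmul
  refine g05_foldl_rows terms p _ L g hg (fun τ hτ => ?_) [] (by simp)
  have h1 := g05_tmax terms τ hτ
  have h2 : τ.1.1 * p ≤ tmax terms * p := Nat.mul_le_mul_right p (by omega)
  omega

end Pool.Agent.WPR
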