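import Pool.Agent.Lib.MP_2da099_lc.R2.P07
import Pool.Agent.Lib.MP_2da099_lc.C02
import Pool.Agent.Lib.MP_2da099_lc.C05
import Mathlib.NumberTheory.Bertrand

/-!
# P09: computing the prime `prm n`

HINTS.  `prm_le`: by `Nat.exists_prime_lt_and_le_two_mul` (Bertrand) applied to `Nat.sqrt n + 1` there is a
prime `p` with `Nat.sqrt n + 1 < p ≤ 2 * (Nat.sqrt n + 1)`, and `n < (Nat.sqrt n + 1) ^ 2 < p * p`.
`ct_prm` (ONE way; any way with total cost `O((n+1)^2)` is fine; the numbers are unary): fold over a list of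
`n + 2` units with the state `(found, p)`, start `(false, 2)`; the step needs `n` (`CT.foldlEnv`, or the list
itself consists of `n + 2` units and the state is `(found, (p, n))`): if `found` nothing is done (cost O(1):
`CT.bcase` or `CT.lcase` on the flag, the rest is not touched), otherwise test whether `n < p * p` and `p` is
prime; if so set the flag, else `p ↦ p + 1`.  The test costs `O(p ^ 2 + n)`: `n < p * p` by `ct_mul`,
`ct_le`; primality by trial division: for all `d` with `2 ≤ d < p`, `¬ d ∣ p`; this predicate on `p` alone may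
cost `O(p ^ 3)`, because only the candidates `p ≤ 2 * (Nat.sqrt n + 1)` are tested: there are `O(√n)` of them.
If every test costs `O(p ^ 2 + n + 1) = O(n + 1)` then the total is `O(n ^ 1.5)`; if you use a test with cost
`O(p ^ 3)` the total is `O(√n * n ^ 1.5) = O(n ^ 2)`, also fine.  A simple test: `p` is prime iff
`2 ≤ p` and for all `a < p`, `b < p`: `a * b ≠ p`, or: `(List.range p).all (fun d => d < 2 ∨ p % d ≠ 0)`;
`p % d` in unary by repeated subtraction costs `O(p ^ 2 / d)` or `O(p ^ 2)`.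
-/

set_option autoImplicit false

namespace Pool.Agent.WPR

open Pool.Agent.Lib.PolyTime Pool.Agent.WPM Function

theorem prm_prime (n : ℕ) : (prm n).Prime := by
  classical
  unfold prm
  exact (Nat.find_spec (exists_prm n)).1

theorem lt_prm_sq (n : ℕ) : n < prm n * prm n := by
  classical
  unfold prm
  exact (Nat.find_spec (exists_prm n)).2

theorem p09_min (n p : ℕ) (h1 : p.Prime) (h2 : n < p * p) : prm n ≤ p := by
  classical
  unfold prm
  exact Nat.find_min' (exists_prm n) ⟨h1, h2⟩

theorem prm_le (n : ℕ) : prm n ≤ 2 * (Nat.sqrt n + 1) := by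
  obtain ⟨p, h1, h2, h3⟩ := Nat.exists_prime_lt_and_le_two_mul (Nat.sqrt n + 1) (by omega)
  refine le_trans (p09_min n p h1 ?_) h3
  have h4 := Nat.lt_succ_sqrt n
  have h5 : (Nat.sqrt n + 1) * (Nat.sqrt n + 1) ≤ p * p := Nat.mul_le_mul h2.le h2.le
  exact lt_of_lt_of_le h4 h5

section calculus

variable {α β : Type} [Enc α] [Enc β]

theorem p09_id : CT (fun a : α => a) (fun _ => 0) := CT.of_enc_eq (fun _ => rfl)

theorem p09_ite {p : α → Bool} {f g : α → β} {Tp Tf Tg : α → ℕ} (hp : CT p Tp) (hf : CT f Tf)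
    (hg : CT g Tg) :
    CT (fun a => if p a then f a else g a) (fun a => size a + Tp a + Tf a + Tg a) := by
  have h1 : CT (fun a => (p a, a)) _ := hp.pair p09_id
  have h2 := CT.bcase hf hg
  refine (h2.comp h1).mono 1 (fun a => ?_)
  dsimp only
  split_ifs <;> omega

theorem p09_fc {ι σ : Type} {T : ι × σ → ℕ} {step : ι × σ → σ} (I : σ → Prop) (B : ℕ) :
    ∀ (l : List ι), (∀ a ∈ l, ∀ s, I s → I (step (a, s)) ∧ T (a, s) ≤ B) → ∀ s, I s →
      foldCost T step l s ≤ B * l.length := by
  intro l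
  induction l with
  | nil => intro _ s _; simp [foldCost]
  | cons a l ih =>
    intro h s hs
    have h1 := h a (by simp) s hs
    have h2 := ih (fun b hb => h b (by simp [hb])) (step (a, s)) h1.1
    rw [List.length_cons]
    show T (a, s) + foldCost T step l (step (a, s)) ≤ B * (l.length + 1)
    rw [Nat.mul_add, Nat.mul_one]
    omega

end calculus

/-- repeated subtraction -/
def p09_md (a p : ℕ) : ℕ :=
  (List.replicate p ()).foldl (fun r _ => if decide (a ≤ r) then r - a else r) p

theorem p09_md_lt (a : ℕ) : ∀ k r, r < a →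
    (List.replicate k ()).foldl (fun r _ => if decide (a ≤ r) then r - a else r) r = r := by
  intro k
  induction k with
  | zero => intro r _; rfl
  | succ k ih =>
    intro r hr
    rw [List.replicate_succ, List.foldl_cons]
    have h1 : (if decide (a ≤ r) then r - a else r) = r := by
      simp [Nat.not_le.mpr hr]
    rw [h1]
    exact ih r hr

theorem p09_md_aux (a : ℕ) (ha : 1 ≤ a) : ∀ k r, r ≤ k →
    (List.replicate k ()).foldl (fun r _ => if decide (a ≤ r) then r - a else r) r = r % a := by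
  intro k
  induction k with
  | zero =>
    intro r hr
    have : r = 0 := by omega
    subst this
    simp
  | succ k ih =>
    intro r hr
    by_cases h : a ≤ r
    · rw [List.replicate_succ, List.foldl_cons]
      have h1 : (if decide (a ≤ r) then r - a else r) = r - a := by simp [h]
      rw [h1, ih (r - a) (by omega), Nat.mod_eq_sub_mod h]
    · rw [p09_md_lt a (k + 1) r (by omega), Nat.mod_eq_of_lt (by omega)]

theorem p09_md_eq (a p : ℕ) (ha : 1 ≤ a) : p09_md a p = p % a := p09_md_aux a ha p p le_rfl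

theorem p09_ct_md : CT (fun x : ℕ × ℕ => p09_md x.1 x.2) (fun x => (x.1 + x.2 + 1) * (x.2 + 1)) := by
  have h1 : CT (fun y : ℕ × ℕ => decide (y.1 ≤ y.2)) _ := ct_le
  have h2 : CT (fun y : ℕ × ℕ => y.2 - y.1) _ := ct_sub.comp CT.swap
  have h3 : CT (fun y : ℕ × ℕ => y.2) _ := CT.snd
  have h4 : CT (fun y : ℕ × ℕ => if decide (y.1 ≤ y.2) then y.2 - y.1 else y.2)
      (fun y => y.1 + y.2) := by
    refine (p09_ite h1 h2 h3).mono 20 (fun y => ?_)
    simp only [size_prod, size_nat]
    omega
  have h5 : CT (fun x : (Unit × ℕ) × ℕ => (x.1.2, x.2)) _ := CT.first CT.snd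
  have h6 : CT (fun x : (Unit × ℕ) × ℕ => if decide (x.1.2 ≤ x.2) then x.2 - x.1.2 else x.2)
      (fun x => x.1.2 + x.2) := by
    refine (h4.comp h5).mono 4 (fun x => ?_)
    have e1 : size x.1.1 = 1 := rfl
    dsimp only
    rw [e1]
    omega
  have h7 := CT.foldlEnv h6
  have h8 : CT (fun x : ℕ × ℕ => (List.replicate x.2 (), x)) _ :=
    (ct_units.comp CT.snd).pair p09_id
  refine ((h7.comp h8).mono 40 (fun x => ?_)).congr (fun x => rfl)
  obtain ⟨a, p⟩ := x
  have hfc : foldCost (fun y : Unit × ℕ => a + y.2)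
      (fun y : Unit × ℕ => if decide (a ≤ y.2) then y.2 - a else y.2)
      (List.replicate p ()) p ≤ (a + p) * (List.replicate p ()).length := by
    apply p09_fc (fun s => s ≤ p)
    · intro _ _ s hs
      dsimp only
      constructor
      · split_ifs <;> omega
      · omega
    · exact le_rfl
  rw [List.length_replicate] at hfc
  have hsz : ∀ k : ℕ, size (List.replicate k ()) = 2 * k + 1 := by
    intro k
    induction k with
    | zero => rfl
    | succ k ih =>
      rw [List.replicate_succ, size_cons, ih]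
      have : size () = 1 := rfl
      omega
  dsimp only
  simp only [size_prod, size_nat, hsz, List.length_replicate]
  have e2 : (p + 1) * (2 * a + 1) = 2 * (a * p) + p + 2 * a + 1 := by ring
  have e3 : (a + p) * p = a * p + p * p := by ring
  have e4 : (a + p + 1) * (p + 1) = a * p + p * p + a + 2 * p + 1 := by ring
  rw [e3] at hfc
  rw [e4]
  have e5 : (p + 1) * (2 * a + 1) ≤ 2 * (a * p) + p + 2 * a + 1 := e2.le
  omega

/-- divisor test -/
def p09_t (a p : ℕ) : Bool := if decide (a ≤ 1) then true else decide (1 ≤ p09_md a p)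

theorem p09_ct_t : CT (fun x : ℕ × ℕ => p09_t x.1 x.2) (fun x => (x.1 + x.2 + 1) * (x.2 + 1)) := by
  obtain ⟨C, hC⟩ := p09_ct_md.size_le
  have h1 : CT (fun x : ℕ × ℕ => ((1 : ℕ), x.1)) _ := (CT.pushConst 1).comp CT.fst
  have h1' : CT (fun x : ℕ × ℕ => (x.1, (1 : ℕ))) _ := CT.swap.comp h1
  have h2 : CT (fun x : ℕ × ℕ => decide (x.1 ≤ 1)) _ := ct_le.comp h1'
  have h3 : CT (fun x : ℕ × ℕ => true) _ := CT.const true
  have h4 : CT (fun x : ℕ × ℕ => ((1 : ℕ), p09_md x.1 x.2)) _ := (CT.pushConst 1).comp p09_ct_md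
  have h5 : CT (fun x : ℕ × ℕ => decide (1 ≤ p09_md x.1 x.2)) _ := ct_le.comp h4
  refine (p09_ite h2 h3 h5).mono (40 + C) (fun x => ?_)
  obtain ⟨a, p⟩ := x
  have h6 := hC (a, p)
  simp only [size_prod, size_nat] at h6 ⊢
  have e4 : (a + p + 1) * (p + 1) = a * p + p * p + a + 2 * p + 1 := by ring
  rw [e4] at h6 ⊢
  have e6 : (40 + C) * (a * p + p * p + a + 2 * p + 1 + 1) =
      40 * (a * p + p * p + a + 2 * p + 1 + 1) + C * (a * p + p * p + a + 2 * p + 1 + 1) := by ring
  rw [e6]
  omega

/-- primality test -/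
def p09_all (p : ℕ) : Bool := (List.range p).foldl (fun b a => p09_t a p && b) true

theorem p09_ct_all : CT p09_all (fun p => (p + 1) ^ 3) := by
  have h1 : CT (fun x : (ℕ × ℕ) × Bool => (p09_t x.1.1 x.1.2, x.2)) _ := CT.first p09_ct_t
  have h2 : CT (fun y : Bool × Bool => y.1 && y.2) _ := CT.fin _
  have h3 : CT (fun x : (ℕ × ℕ) × Bool => p09_t x.1.1 x.1.2 && x.2) _ := h2.comp h1
  have h4 := CT.foldlEnv h3
  have h5 : CT (fun p : ℕ => (p, true)) _ := CT.swap.comp (CT.pushConst true)
  have h6 : CT (fun p : ℕ => (List.range p, (p, true))) _ := ct_range.pair h5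
  refine ((h4.comp h6).mono 60 (fun p => ?_)).congr (fun p => rfl)
  dsimp only
  have hfc : foldCost (fun y : ℕ × Bool => (y.1 + p + 1) * (p + 1) + 0)
      (fun y : ℕ × Bool => p09_t y.1 p && y.2)
      (List.range p) true ≤ (2 * (p + 1) ^ 2) * (List.range p).length := by
    apply p09_fc (fun _ => True)
    · intro a ha s _
      rw [List.mem_range] at ha
      refine ⟨trivial, ?_⟩
      dsimp only
      nlinarith
    · trivial
  rw [List.length_range] at hfc
  have hr := size_range p
  have hb : size true ≤ 3 := by decide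
  have hfc' := hfc
  simp only [size_prod, size_nat, List.length_range] at hfc' ⊢
  have e1 : 2 * (p + 1) ^ 2 * p ≤ 2 * (p + 1) ^ 3 := by nlinarith
  have e2 : (p + 1) ^ 2 ≤ (p + 1) ^ 3 := Nat.pow_le_pow_right (by omega) (by omega)
  have e3 : (p + 1) * (2 * p + 1) ≤ 2 * (p + 1) ^ 2 := by nlinarith
  have e4 : (2 * p + 2) * p + 1 ≤ 2 * (p + 1) ^ 2 := by nlinarith
  have e5 : p ≤ (p + 1) ^ 2 := by nlinarith
  omega

/-- the test of a candidate -/
def p09_ok (y : ℕ × ℕ) : Bool := decide (2 ≤ y.1) && (p09_all y.1 && decide (y.2 + 1 ≤ y.1 * y.1))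

theorem p09_ct_ok : CT p09_ok (fun y => (y.1 + 1) ^ 3 + y.2) := by
  have hA1 : CT (fun x : ℕ × ℕ => ((2 : ℕ), x.1)) _ := (CT.pushConst 2).comp CT.fst
  have hA : CT (fun x : ℕ × ℕ => decide (2 ≤ x.1)) _ := ct_le.comp hA1
  have hB : CT (fun x : ℕ × ℕ => p09_all x.1) _ := p09_ct_all.comp CT.fst
  have hC1 : CT (fun x : ℕ × ℕ => (x.1, x.1)) _ := CT.dup.comp CT.fst
  have hC2 : CT (fun x : ℕ × ℕ => x.1 * x.1) _ := ct_mul.comp hC1
  have hC3 : CT (fun x : ℕ × ℕ => x.2 + 1) _ := ct_succ.comp CT.snd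
  have hC4 : CT (fun x : ℕ × ℕ => (x.2 + 1, x.1 * x.1)) _ := hC3.pair hC2
  have hC : CT (fun x : ℕ × ℕ => decide (x.2 + 1 ≤ x.1 * x.1)) _ := ct_le.comp hC4
  have hD : CT (fun x : ℕ × ℕ => (decide (2 ≤ x.1), (p09_all x.1, decide (x.2 + 1 ≤ x.1 * x.1)))) _ :=
    hA.pair (hB.pair hC)
  have hE : CT (fun y : Bool × (Bool × Bool) => y.1 && (y.2.1 && y.2.2)) _ := CT.fin _
  refine ((hE.comp hD).mono 60 (fun x => ?_)).congr (fun x => rfl)
  obtain ⟨p, n⟩ := x
  simp only [size_prod, size_nat]
  have e2 : (p + 1) ^ 2 ≤ (p + 1) ^ 3 := Nat.pow_le_pow_right (by omega) (by omega)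
  have e3 : (p + 1) * (p + 1) = (p + 1) ^ 2 := by ring
  have e5 : p ≤ (p + 1) ^ 2 := by nlinarith
  have e6 : p * p ≤ (p + 1) ^ 2 := by nlinarith
  rw [e3]
  omega

theorem p09_foldl_and (p : ℕ) : ∀ (l : List ℕ) (b : Bool),
    l.foldl (fun b a => p09_t a p && b) b = true ↔ b = true ∧ ∀ a ∈ l, p09_t a p = true := by
  intro l
  induction l with
  | nil => intro b; simp
  | cons a l ih =>
    intro b
    rw [List.foldl_cons, ih]
    simp only [Bool.and_eq_true, List.mem_cons, forall_eq_or_imp]
    tauto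

theorem p09_ok_iff (p n : ℕ) : p09_ok (p, n) = true ↔ p.Prime ∧ n < p * p := by
  unfold p09_ok p09_all
  simp only [Bool.and_eq_true, decide_eq_true_eq, p09_foldl_and, List.mem_range, true_and]
  have key : ∀ a, a < p → (p09_t a p = true ↔ (2 ≤ a → ¬ a ∣ p)) := by
    intro a _
    unfold p09_t
    by_cases h : a ≤ 1
    · simp only [h, decide_true, if_true, true_iff]
      intro h2
      omega
    · simp only [h, decide_false, Bool.false_eq_true, if_false, decide_eq_true_eq]
      rw [p09_md_eq a p (by omega), Nat.dvd_iff_mod_eq_zero]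
      constructor
      · intro h2 _ h3
        omega
      · intro h2
        have := h2 (by omega)
        omega
  rw [Nat.prime_def_lt']
  constructor
  · rintro ⟨h1, h2, h3⟩
    exact ⟨⟨h1, fun m hm hm2 => (key m hm2).1 (h2 m hm2) hm⟩, h3⟩
  · rintro ⟨⟨h1, h2⟩, h3⟩
    exact ⟨h1, fun a ha => (key a ha).2 (fun h4 => h2 a h4 ha), h3⟩

/-- one step of the search -/
def p09_step (x : Unit × (Bool × (ℕ × ℕ))) : Bool × (ℕ × ℕ) :=
  if x.2.1 then (true, x.2.2) else
    if p09_ok x.2.2 then (true, x.2.2) else (false, (x.2.2.1 + 1, x.2.2.2))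

/-- its cost -/
def p09_T (x : Unit × (Bool × (ℕ × ℕ))) : ℕ :=
  if x.2.1 then 0 else (x.2.2.1 + 1) ^ 3 + x.2.2.2

theorem p09_ct_step : CT p09_step p09_T := by
  have h1 : CT (fun y : ℕ × ℕ => (true, y)) _ := CT.pushConst true
  have h2 : CT (fun y : ℕ × ℕ => (y.1 + 1, y.2)) _ := CT.first ct_succ
  have h3 : CT (fun y : ℕ × ℕ => (false, (y.1 + 1, y.2))) _ := (CT.pushConst false).comp h2
  have h4 := p09_ite p09_ct_ok h1 h3
  have h5 := CT.bcase h1 h4
  have h6 : CT (fun x : Unit × (Bool × (ℕ × ℕ)) => x.2) _ := CT.snd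
  refine ((h5.comp h6).mono 20 (fun x => ?_)).congr (fun x => rfl)
  obtain ⟨a, b, p, n⟩ := x
  have e1 : size a = 1 := rfl
  unfold p09_T
  dsimp only
  rw [e1]
  simp only [size_prod, size_nat]
  have e5 : p ≤ (p + 1) ^ 3 := by
    have := Nat.le_self_pow (n := 3) (by omega) (p + 1)
    omega
  split_ifs <;> omega

theorem p09_found (p n : ℕ) : ∀ k, (List.replicate k ()).foldl (fun s a => p09_step (a, s))
    (true, (p, n)) = (true, (p, n)) ∧
    foldCost p09_T p09_step (List.replicate k ()) (true, (p, n)) = 0 := by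
  intro k
  induction k with
  | zero => exact ⟨rfl, rfl⟩
  | succ k ih =>
    rw [List.replicate_succ]
    exact ⟨ih.1, by
      show p09_T ((), (true, (p, n))) + foldCost p09_T p09_step (List.replicate k ())
        (p09_step ((), (true, (p, n)))) = 0
      have e1 : p09_step ((), (true, (p, n))) = (true, (p, n)) := rfl
      have e2 : p09_T ((), (true, (p, n))) = 0 := rfl
      rw [e1, e2, ih.2]⟩

theorem p09_search (n B : ℕ) (hB : ∀ p, p ≤ prm n → (p + 1) ^ 3 + n ≤ B) : ∀ k p, p ≤ prm n →
    foldCost p09_T p09_step (List.replicate k ()) (false, (p, n)) ≤ B * (prm n + 1 - p) ∧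
    (prm n < p + k → (List.replicate k ()).foldl (fun s a => p09_step (a, s))
      (false, (p, n)) = (true, (prm n, n))) := by
  intro k
  induction k with
  | zero =>
    intro p hp
    refine ⟨by simp [foldCost], fun h => by omega⟩
  | succ k ih =>
    intro p hp
    rw [List.replicate_succ]
    have hT : p09_T ((), (false, (p, n))) = (p + 1) ^ 3 + n := rfl
    have hBp := hB p hp
    by_cases hok : p09_ok (p, n) = true
    · have hs : p09_step ((), (false, (p, n))) = (true, (p, n)) := by
        unfold p09_step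
        simp [hok]
      have hpe : p = prm n := by
        have h1 := (p09_ok_iff p n).1 hok
        have h2 := p09_min n p h1.1 h1.2
        omega
      have hf := p09_found p n k
      constructor
      · show p09_T ((), (false, (p, n))) + foldCost p09_T p09_step (List.replicate k ())
          (p09_step ((), (false, (p, n)))) ≤ _
        rw [hs, hf.2, hT, hpe]
        rw [hpe] at hBp
        have e1 : prm n + 1 - prm n = 1 := by omega
        rw [e1]
        omega
      · intro _
        rw [List.foldl_cons, hs, hf.1, hpe]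
    · have hs : p09_step ((), (false, (p, n))) = (false, (p + 1, n)) := by
        unfold p09_step
        simp [hok]
      have hlt : p < prm n := by
        rcases Nat.lt_or_ge p (prm n) with h | h
        · exact h
        · exfalso
          apply hok
          have hpe : p = prm n := by omega
          rw [hpe, p09_ok_iff]
          exact ⟨prm_prime n, lt_prm_sq n⟩
      obtain ⟨i1, i2⟩ := ih (p + 1) hlt
      constructor
      · show p09_T ((), (false, (p, n))) + foldCost p09_T p09_step (List.replicate k ())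
          (p09_step ((), (false, (p, n)))) ≤ _
        rw [hs, hT]
        have e1 : prm n + 1 - p = (prm n + 1 - (p + 1)) + 1 := by omega
        rw [e1, Nat.mul_add, Nat.mul_one]
        omega
      · intro h
        rw [List.foldl_cons, hs]
        exact i2 (by omega)

theorem ct_prm : CT (fun n : ℕ => prm n) (fun n => (n + 1) ^ 2) := by
  have h1 := CT.foldl p09_ct_step
  have h2 : CT (fun n : ℕ => List.replicate (n + 1 + 1) ()) _ :=
    ct_units.comp (ct_succ.comp ct_succ)
  have h3 : CT (fun n : ℕ => (false, ((2 : ℕ), n))) _ := (CT.pushConst false).comp (CT.pushConst 2)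
  have h4 : CT (fun n : ℕ => (List.replicate (n + 1 + 1) (), (false, ((2 : ℕ), n)))) _ := h2.pair h3
  have h5 : CT (fun x : Bool × (ℕ × ℕ) => x.2) _ := CT.snd
  have h6 : CT (fun x : Bool × (ℕ × ℕ) => x.2.1) _ := CT.fst.comp h5
  have hs0 : ∀ n : ℕ, (Nat.sqrt n + 1) ^ 2 ≤ 2 * (n + 1) := by
    intro n
    have h7 := Nat.sqrt_le n
    have h8 : 2 * Nat.sqrt n ≤ Nat.sqrt n * Nat.sqrt n + 1 := by
      rcases Nat.eq_zero_or_pos (Nat.sqrt n) with h | h
      · rw [h]; omega
      · have h9 : (Nat.sqrt n - 1) * (Nat.sqrt n - 1) + 2 * Nat.sqrt n =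
            Nat.sqrt n * Nat.sqrt n + 1 := by
          obtain ⟨m, hm⟩ : ∃ m, Nat.sqrt n = m + 1 := ⟨Nat.sqrt n - 1, by omega⟩
          rw [hm, Nat.add_sub_cancel]
          ring
        omega
    nlinarith
  have hsq : ∀ n : ℕ, prm n ≤ n + 3 := by
    intro n
    have h7 := prm_le n
    have h8 := hs0 n
    nlinarith
  have hcost : ∀ n : ℕ, foldCost p09_T p09_step (List.replicate (n + 1 + 1) ())
      (false, ((2 : ℕ), n)) ≤ 300 * (n + 1) ^ 2 ∧
      (List.replicate (n + 1 + 1) ()).foldl (fun s a => p09_step (a, s)) (false, ((2 : ℕ), n)) =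
        (true, (prm n, n)) := by
    intro n
    have h7 := prm_le n
    have h8 := hs0 n
    obtain ⟨s, hs⟩ : ∃ s, s = Nat.sqrt n + 1 := ⟨_, rfl⟩
    rw [← hs] at h7 h8
    have hs1 : 1 ≤ s := by omega
    have hpr : 2 ≤ prm n := (prm_prime n).two_le
    have h9 := p09_search n ((3 * s) ^ 3 + n) (fun p hp => by
      have : (p + 1) ^ 3 ≤ (3 * s) ^ 3 := Nat.pow_le_pow_left (by omega) 3
      omega) (n + 1 + 1) 2 hpr
    refine ⟨h9.1.trans ?_, h9.2 (by have := hsq n; omega)⟩
    have e1 : prm n + 1 - 2 ≤ 2 * s := by omega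
    calc ((3 * s) ^ 3 + n) * (prm n + 1 - 2) ≤ ((3 * s) ^ 3 + n) * (2 * s) :=
          Nat.mul_le_mul_left _ e1
      _ = 54 * (s ^ 2) ^ 2 + 2 * (n * s) := by ring
      _ ≤ 54 * (2 * (n + 1)) ^ 2 + 2 * (n * (2 * (n + 1))) := by
          have e2 : (s ^ 2) ^ 2 ≤ (2 * (n + 1)) ^ 2 := Nat.pow_le_pow_left h8 2
          have e3 : s ≤ 2 * (n + 1) := by nlinarith
          have e4 : n * s ≤ n * (2 * (n + 1)) := Nat.mul_le_mul_left _ e3
          omega
      _ ≤ 300 * (n + 1) ^ 2 := by nlinarith
  have hsz : ∀ k : ℕ, size (List.replicate k ()) = 2 * k + 1 := by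
    intro k
    induction k with
    | zero => rfl
    | succ k ih =>
      rw [List.replicate_succ, size_cons, ih]
      have : size () = 1 := rfl
      omega
  refine ((h6.comp (h1.comp h4)).mono 600 (fun n => ?_)).congr (fun n => ?_)
  · have h10 := (hcost n).1
    have h11 := (hcost n).2
    have h12 := hsq n
    have hb1 : size true ≤ 3 := by decide
    have hb2 : size false ≤ 3 := by decide
    dsimp only
    rw [h11]
    simp only [size_prod, size_nat, hsz]
    have e5 : n ≤ (n + 1) ^ 2 := by nlinarith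
    omega
  · dsimp only
    rw [(hcost n).2]

end Pool.Agent.WPR
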