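import Pool.Agent.Lib.MP_2da099_lc.R2.R02

/-!
# R03: the machine on all rows

HINTS.  Induction along the scan of the rows as in R02: after the rows `0 .. s - 1` the list in the state is the
list of the last `D` rows of symbols, last one first (rows of `g0` for negative numbers; all of length `L`,
the list has length `D`).  With `g s t = ` the entry of `gam R L rows`, `ccell` is `cval`.
-/

set_option autoImplicit false

namespace Pool.Agent.WPR

open Pool.Agent.Lib.PolyTime Pool.Agent.WPM Function

variable {V Γ : Type} [AddCommGroup V]

/-- the symbols as a function of the row and the column -/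
def gfun (g0 : Γ) (l : List (List Γ)) (s t : ℤ) : Γ :=
  if 0 ≤ s ∧ 0 ≤ t then (l.getD s.toNat []).getD t.toNat g0 else g0

/-- the contents as a function of the row and the column -/
def ffun (rows : List (List V)) (s t : ℤ) : V :=
  if 0 ≤ s ∧ 0 ≤ t then (rows.getD s.toNat []).getD t.toNat 0 else 0

theorem r03_gfun_nat (g0 : Γ) (l : List (List Γ)) (s : ℕ) (t : ℤ) :
    gfun g0 l s t = gz g0 (l.getD s []) t := by
  unfold gfun gz
  by_cases h : 0 ≤ t
  · rw [if_pos ⟨by omega, h⟩, if_pos h, Int.toNat_natCast]
  · rw [if_neg (fun h1 => h h1.2), if_neg h]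

theorem r03_offs_mem (D : ℕ) (o : ℕ × ℤ) (ho : o ∈ offs D) : 1 ≤ o.1 ∧ o.1 ≤ D :=
  r02_offs_mem D o ho

/-- All facts about the scan of the rows. -/
theorem r03_key (R : RData V Γ) (L : ℕ) (rows : List (List V)) (hL : ∀ r ∈ rows, r.length = L) :
    ∀ n ≤ rows.length,
      ((scan (runStep R L) (true, List.replicate R.D (List.replicate L R.g0))
        (((cls R.D rows.length).zip rows).take n)).1.2.length = R.D ∧
      (∀ r ∈ (scan (runStep R L) (true, List.replicate R.D (List.replicate L R.g0))
        (((cls R.D rows.length).zip rows).take n)).1.2, r.length = L) ∧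
      (∀ i < R.D, ∀ t : ℤ, gz R.g0 ((scan (runStep R L) (true, List.replicate R.D
        (List.replicate L R.g0)) (((cls R.D rows.length).zip rows).take n)).1.2.getD i []) t =
        gfun R.g0 (gam R L rows) ((n : ℤ) - ((i : ℤ) + 1)) t)) ∧
      (∀ s < n, ((gam R L rows).getD s []).length = L ∧ ∀ t < L,
        gfun R.g0 (gam R L rows) s t = (R.dec (cl R.D (rows.length - 1 - s)) (cl R.D (L - 1 - t))
          (cval R (ffun rows) (gfun R.g0 (gam R L rows)) s t)).getD R.g0) ∧
      ((scan (runStep R L) (true, List.replicate R.D (List.replicate L R.g0))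
        (((cls R.D rows.length).zip rows).take n)).1.1 = true ↔ ∀ s < n, ∀ t < L,
        (R.dec (cl R.D (rows.length - 1 - s)) (cl R.D (L - 1 - t))
          (cval R (ffun rows) (gfun R.g0 (gam R L rows)) s t)).isSome) := by
  have hcls : (cls R.D rows.length).length = rows.length := by simp [cls]
  set l := (cls R.D rows.length).zip rows with hl
  have hlen : l.length = rows.length := by rw [hl, List.length_zip, hcls, Nat.min_self]
  set f := runStep R L with hf
  set s0 : Bool × List (List Γ) := (true, List.replicate R.D (List.replicate L R.g0)) with hs0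
  have hgam : gam R L rows = (scan f s0 l).2 := rfl
  rw [hgam]
  set out := (scan f s0 l).2 with hout
  have hget : ∀ t (ht : t < l.length), l[t] = (cl R.D (rows.length - 1 - t), rows.getD t []) := by
    intro t ht
    have ht' : t < rows.length := by omega
    simp only [hl, List.getElem_zip]
    rw [List.getD_eq_getElem _ _ ht']
    congr 1
    simp [cls]
  intro n
  induction n with
  | zero =>
    intro _
    refine ⟨⟨by simp [scan, hs0], ?_, fun i hi t => ?_⟩, fun t ht => absurd ht (Nat.not_lt_zero t),
      ?_⟩
    · intro r hr
      simp only [List.take_zero, scan, hs0] at hr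
      rw [List.eq_of_mem_replicate hr, List.length_replicate]
    · simp only [List.take_zero, scan, hs0]
      unfold gfun
      rw [if_neg (by push_cast; omega), List.getD_eq_getElem?_getD, List.getElem?_replicate,
        if_pos hi]
      unfold gz
      simp only [Option.getD_some]
      split_ifs with h
      · rw [List.getD_eq_getElem?_getD, List.getElem?_replicate]
        split_ifs <;> rfl
      · rfl
    · simp [scan, hs0]
  | succ n ih =>
    intro hn
    obtain ⟨⟨ih0, ih0', ih1⟩, ih2, ih3⟩ := ih (by omega)
    have hn' : n < l.length := by omega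
    have hnr : n < rows.length := by omega
    have hrow : (rows.getD n []).length = L := by
      rw [List.getD_eq_getElem _ _ hnr]
      exact hL _ (List.getElem_mem hnr)
    obtain ⟨r1, r2, r3⟩ := rowStep_spec R L (cl R.D (rows.length - 1 - n)) (rows.getD n [])
      (scan f s0 (l.take n)).1.2 hrow ih0 ih0'
    have e1 := r02_scan_step f l s0 n hn'
    have e2 := r02_scan_out f l s0 n hn'
    rw [hget n hn'] at e1 e2
    rw [← hout] at e2
    set st := (scan f s0 (l.take n)).1 with hst
    set row := (rowStep R L (cl R.D (rows.length - 1 - n)) (rows.getD n []) st.2) with hrowd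
    have e1' : (scan f s0 (l.take (n + 1))).1 = (st.1 && row.1.1, (row.2 :: st.2).take R.D) := e1
    have e2' : out[n]? = some row.2 := e2
    have e3 : out.getD n [] = row.2 := by
      rw [List.getD_eq_getElem?_getD, e2']
      rfl
    -- the content of the cell
    have hcc : ∀ t < L, ccell R (rows.getD n []) st.2 row.2 t =
        cval R (ffun rows) (gfun R.g0 out) n t := by
      intro t ht
      unfold ccell cval
      have h1 : ffun rows n t = (rows.getD n []).getD t 0 := by
        unfold ffun
        rw [if_pos ⟨by omega, by omega⟩, Int.toNat_natCast, Int.toNat_natCast]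
      rw [h1]
      congr 2
      · congr 1
        refine List.map_congr_left (fun o ho => ?_)
        obtain ⟨h2, h3⟩ := r03_offs_mem _ _ ho
        rw [ih1 (o.1 - 1) (by omega)]
        congr 2
        omega
      · refine List.map_congr_left (fun j hj => ?_)
        rw [r03_gfun_nat, e3]
    refine ⟨⟨?_, ?_, ?_⟩, ?_, ?_⟩
    · rw [e1']
      simp only [List.length_take, List.length_cons, ih0]
      omega
    · rw [e1']
      intro r hr
      have hr' := List.mem_of_mem_take hr
      rcases List.mem_cons.mp hr' with h | h
      · rw [h]
        exact r1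
      · exact ih0' r h
    · intro i hi t
      rw [e1']
      simp only
      rw [List.getD_eq_getElem?_getD, List.getElem?_take, if_pos hi]
      cases i with
      | zero =>
        have h0 : ((n + 1 : ℕ) : ℤ) - (((0 : ℕ) : ℤ) + 1) = (n : ℤ) := by push_cast; ring
        rw [h0, r03_gfun_nat, e3]
        simp
      | succ i =>
        have h0 : ((n + 1 : ℕ) : ℤ) - (((i + 1 : ℕ) : ℤ) + 1) = (n : ℤ) - ((i : ℤ) + 1) := by
          push_cast; ring
        rw [h0, ← ih1 i (by omega), List.getElem?_cons_succ, List.getD_eq_getElem?_getD]
    · intro s hs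
      rcases Nat.lt_succ_iff_lt_or_eq.mp hs with h | h
      · exact ih2 s h
      · subst h
        refine ⟨by rw [e3]; exact r1, fun t ht => ?_⟩
        rw [← hcc t ht, r03_gfun_nat, e3]
        unfold gz
        rw [if_pos (by omega), Int.toNat_natCast]
        exact r2 t ht
    · rw [e1']
      simp only [Bool.and_eq_true]
      rw [ih3, r3]
      constructor
      · rintro ⟨h1, h2⟩ s hs t ht
        rcases Nat.lt_succ_iff_lt_or_eq.mp hs with h | h
        · exact h1 s h t ht
        · subst h
          rw [← hcc t ht]
          exact h2 t ht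
      · intro h
        refine ⟨fun s hs t ht => h s (by omega) t ht, fun t ht => ?_⟩
        rw [hcc t ht]
        exact h n (by omega) t ht

theorem length_gam (R : RData V Γ) (L : ℕ) (rows : List (List V)) (hL : ∀ r ∈ rows, r.length = L) :
    (gam R L rows).length = rows.length ∧ ∀ r ∈ gam R L rows, r.length = L := by
  have h1 : (gam R L rows).length = rows.length := by
    unfold gam runAll
    rw [r02_scan_length, List.length_zip]
    simp [cls]
  refine ⟨h1, fun r hr => ?_⟩
  obtain ⟨n, hn, rfl⟩ := List.getElem_of_mem hr
  obtain ⟨_, k2, _⟩ := r03_key R L rows hL rows.length le_rfl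
  have := (k2 n (by omega)).1
  rwa [List.getD_eq_getElem _ _ hn] at this

theorem run_spec (R : RData V Γ) (L : ℕ) (rows : List (List V)) (hL : ∀ r ∈ rows, r.length = L) :
    IsGam R (ffun rows) rows.length L (gfun R.g0 (gam R L rows)) ∧
    (runM R L rows = true ↔ ∀ s t : ℕ, s < rows.length → t < L →
      (R.dec (cl R.D (rows.length - 1 - s)) (cl R.D (L - 1 - t))
        (cval R (ffun rows) (gfun R.g0 (gam R L rows)) s t)).isSome) := by
  obtain ⟨g1, g2⟩ := length_gam R L rows hL
  obtain ⟨_, k2, k3⟩ := r03_key R L rows hL rows.length le_rfl
  refine ⟨⟨fun s t h => ?_, fun s t hs ht => (k2 s hs).2 t ht⟩, ?_⟩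
  · unfold gfun
    split_ifs with h1
    · by_cases h2 : s.toNat < (gam R L rows).length
      · rw [List.getD_eq_getElem _ _ h2]
        have h3 := g2 _ (List.getElem_mem h2)
        rw [List.getD_eq_getElem?_getD, List.getElem?_eq_none (by omega)]
        rfl
      · have h3 : (gam R L rows).getD s.toNat [] = [] := by
          rw [List.getD_eq_getElem?_getD, List.getElem?_eq_none (by omega)]
          rfl
        rw [h3]
        rfl
    · rfl
  · have htake : ((cls R.D rows.length).zip rows).take rows.length =
        (cls R.D rows.length).zip rows := by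
      have : ((cls R.D rows.length).zip rows).length = rows.length := by
        rw [List.length_zip]
        simp [cls]
      exact List.take_of_length_le (le_of_eq this)
    rw [htake] at k3
    have h1 : runM R L rows = (scan (runStep R L) (true, List.replicate R.D (List.replicate L R.g0))
        ((cls R.D rows.length).zip rows)).1.1 := rfl
    rw [h1, k3]
    exact ⟨fun h s t hs ht => h s hs t ht, fun h s hs t ht => h s t hs ht⟩

end Pool.Agent.WPR
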