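import Pool.Agent.Lib.MP_2da099_lc.R2.G04
import Pool.Agent.Lib.MP_2da099_lc.R2.G05
import Pool.Agent.Lib.MP_2da099_lc.R2.P09
import Pool.Agent.Lib.MP_2da099_lc.R2.R03

/-!
# D01: the grid of `(dil p h) ^ j * F`

`h = polyT terms` is a polynomial with exponents in `ℕ`.  `n = I.length`, `p = prm (n + n0)`,
`m = c * (n + n0 + 1)`: the columns are shifted by `m`, all rows are cut or filled up to the length `4 m`.

HINTS.  `exists_terms`: the coefficients of `mm v * h` for a shift `v` making the exponents nonnegative.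
`dil q (polyT terms)` is the sum of the `single (q x, q y) w`.
`dgrid_spec`: let `g0 = vgrid ..` with `s0` from `vgrid_spec` (`m ≥ n`, `3 m > m + n`), so
`gval g0 s t = (spoly I).coeff (t - m, s0 + s)` for ALL `s t : ℕ` (outside of the grid both are zero: the token
positions are all in the grid), and all exponents of `spoly I` have the form `(t - m, s0 + s)` with
`s < rows`, `m - n ≤ t ≤ m + n`.
`gval_gmul` says: if `gval g s t = F.coeff (t - m, s0 + s)` for all `s t : ℕ` and all exponents of `F` are of this form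
(`s, t` natural) then the same holds for `gmul terms p g` and `dil p h * F`: the coefficient of `dil p h * F` at
`c` is `Σ_τ w_τ F.coeff (c - p τ)`.  Iterate `j` times.  The number of rows grows by at most `tmax terms * p` each
time (`gmul_length`), the row lengths too (`gmul_rows`): they stay `≤ 3 m + j * tmax * p ≤ 4 m`, so nothing is cut
by `padTo`.  `p ≤ 2 * (sqrt (n + n0) + 1) ≤ 2 * (n + n0 + 1)` (`prm_le`).
With `H = (dgrid ..).length ≤ n + 1 + j * tmax * p ≤ (2 j tmax + 1)(n + n0 + 1)`:
`D * (H + 1) ≤ m - n` if `c ≥ D * (2 j tmax + 2) + 1`.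
The last statement: `FF (t, s)` := the value; it is the function `ffun` of R03.
-/

set_option autoImplicit false

namespace Pool.Agent.WPR

open Pool.Agent.Lib.PolyTime Pool.Agent.WPM Function

/-- The polynomial with given terms. -/
noncomputable def polyT (terms : List ((ℕ × ℕ) × ℤ)) : L2 :=
  (terms.map (fun τ => AddMonoidAlgebra.single ((τ.1.1 : ℤ), (τ.1.2 : ℤ)) τ.2)).sum

theorem exists_terms (h : L2) : ∃ (v : ℤ × ℤ) (terms : List ((ℕ × ℕ) × ℤ)),
    polyT terms = mm v * h := by
  classical
  set N : ℕ := h.coeff.support.sup (fun c => c.1.natAbs + c.2.natAbs) with hN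
  refine ⟨((N : ℤ), (N : ℤ)), h.coeff.support.toList.map
    (fun c : ℤ × ℤ => (((c.1 + (N : ℤ)).toNat, (c.2 + (N : ℤ)).toNat), h.coeff c)), ?_⟩
  unfold polyT
  rw [List.map_map, Finset.sum_map_toList]
  conv_rhs => rw [← AddMonoidAlgebra.sum_coeff_single h, Finsupp.sum, Finset.mul_sum]
  refine Finset.sum_congr rfl (fun c hc => ?_)
  have h1 : c.1.natAbs + c.2.natAbs ≤ N :=
    Finset.le_sup (f := fun c : ℤ × ℤ => c.1.natAbs + c.2.natAbs) hc
  unfold mm
  rw [AddMonoidAlgebra.single_mul_single, one_mul]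
  simp only [Function.comp]
  congr 1
  ext
  · simp only [Prod.fst_add]
    omega
  · simp only [Prod.snd_add]
    omega

/-- The grid. -/
noncomputable def dgrid (β : ℕ) (terms : List ((ℕ × ℕ) × ℤ)) (j c n0 : ℕ) (I : List (Ins 2)) :
    List (List (ZB β)) :=
  ((gmul terms (prm (I.length + n0)))^[j] (vgrid (usg β) (c * (I.length + n0 + 1))
    (3 * (c * (I.length + n0 + 1))) I)).map (padTo (4 * (c * (I.length + n0 + 1))) 0)

theorem d01_coeff_mul (p : ℕ) (terms : List ((ℕ × ℕ) × ℤ)) (F : L2) (c : ℤ × ℤ) :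
    (dil p (polyT terms) * F).coeff c = (terms.map (fun τ => τ.2 *
      F.coeff (c.1 - τ.1.1 * p, c.2 - τ.1.2 * p))).sum := by
  induction terms with
  | nil => simp [polyT]
  | cons τ terms ih =>
    have h1 : polyT (τ :: terms) = AddMonoidAlgebra.single ((τ.1.1 : ℤ), (τ.1.2 : ℤ)) τ.2 +
        polyT terms := by
      simp [polyT]
    rw [h1, map_add, add_mul, AddMonoidAlgebra.coeff_add, Finsupp.add_apply, ih, List.map_cons,
      List.sum_cons]
    congr 1
    have h2 : dil p (AddMonoidAlgebra.single ((τ.1.1 : ℤ), (τ.1.2 : ℤ)) τ.2) =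
        AddMonoidAlgebra.single (((τ.1.1 : ℤ) * p), ((τ.1.2 : ℤ) * p)) τ.2 := by
      have h3 : dil p (AddMonoidAlgebra.single ((τ.1.1 : ℤ), (τ.1.2 : ℤ)) τ.2) =
          AddMonoidAlgebra.mapDomain (p • AddMonoidHom.id (ℤ × ℤ))
            (AddMonoidAlgebra.single ((τ.1.1 : ℤ), (τ.1.2 : ℤ)) τ.2) := rfl
      rw [h3, AddMonoidAlgebra.mapDomain_single]
      congr 1
      ext
      · simp [mul_comm]
      · simp [mul_comm]
    rw [h2, AddMonoidAlgebra.coeff_single_mul_apply]
    congr 2
    ext
    · simp only [Prod.fst_add, Prod.fst_neg]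
      ring
    · simp only [Prod.snd_add, Prod.snd_neg]
      ring

/-- The grid `g` has the values of `F`. -/
def D01Rep {β : ℕ} (g : List (List (ZB β))) (F : L2) (m n : ℕ) (s0 : ℤ) : Prop :=
  (∀ s t : ℕ, gval g s t = F.coeff ((t : ℤ) - m, s0 + s)) ∧
    ∀ c, F.coeff c ≠ 0 → -(n : ℤ) ≤ c.1 ∧ s0 ≤ c.2

theorem d01_step {β : ℕ} (terms : List ((ℕ × ℕ) × ℤ)) (p : ℕ) (g : List (List (ZB β))) (F : L2)
    (m n : ℕ) (s0 : ℤ) (hmn : n ≤ m) (h : D01Rep g F m n s0) :
    D01Rep (gmul terms p g) (dil p (polyT terms) * F) m n s0 := by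
  obtain ⟨h1, h2⟩ := h
  refine ⟨fun s t => ?_, fun c hc => ?_⟩
  · rw [gval_gmul, d01_coeff_mul]
    congr 1
    refine List.map_congr_left (fun τ hτ => ?_)
    congr 1
    split_ifs with h3
    · rw [h1]
      congr 1
      ext
      · simp only
        push_cast [Nat.cast_sub h3.1]
        ring
      · simp only
        push_cast [Nat.cast_sub h3.2]
        ring
    · by_contra h4
      obtain ⟨h5, h6⟩ := h2 _ (Ne.symm h4)
      simp only at h5 h6
      apply h3
      constructor
      · zify
        omega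
      · zify
        omega
  · rw [d01_coeff_mul] at hc
    obtain ⟨τ, hτ, h3⟩ : ∃ τ ∈ terms, F.coeff (c.1 - τ.1.1 * p, c.2 - τ.1.2 * p) ≠ 0 := by
      by_contra h4
      push Not at h4
      apply hc
      apply List.sum_eq_zero
      intro x hx
      obtain ⟨τ, hτ, rfl⟩ := List.mem_map.mp hx
      rw [h4 τ hτ, mul_zero]
    obtain ⟨h5, h6⟩ := h2 _ h3
    simp only at h5 h6
    have h7 : (0 : ℤ) ≤ τ.1.1 * p := by positivity
    have h8 : (0 : ℤ) ≤ τ.1.2 * p := by positivity
    constructor <;> omega

theorem d01_iter {β : ℕ} (terms : List ((ℕ × ℕ) × ℤ)) (p : ℕ) (g : List (List (ZB β))) (F : L2)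
    (m n : ℕ) (s0 : ℤ) (hmn : n ≤ m) (h : D01Rep g F m n s0) (j : ℕ) :
    D01Rep ((gmul terms p)^[j] g) ((dil p (polyT terms)) ^ j * F) m n s0 := by
  induction j with
  | zero => simpa using h
  | succ j ih =>
    rw [iterate_succ_apply', pow_succ', mul_assoc]
    exact d01_step terms p _ _ m n s0 hmn ih

theorem d01_length {β : ℕ} (terms : List ((ℕ × ℕ) × ℤ)) (p : ℕ) (g : List (List (ZB β))) (j : ℕ) :
    ((gmul terms p)^[j] g).length ≤ g.length + j * (tmax terms * p) := by
  induction j with
  | zero => simp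
  | succ j ih =>
    rw [iterate_succ_apply']
    refine (gmul_length terms p _).trans ?_
    rw [Nat.succ_mul]
    omega

theorem d01_rows {β : ℕ} (terms : List ((ℕ × ℕ) × ℤ)) (p L : ℕ) (g : List (List (ZB β)))
    (hg : ∀ r ∈ g, r.length ≤ L) (j : ℕ) :
    ∀ r ∈ (gmul terms p)^[j] g, r.length ≤ L + j * (tmax terms * p) := by
  induction j with
  | zero => simpa using hg
  | succ j ih =>
    rw [iterate_succ_apply']
    intro r hr
    have := gmul_rows terms p _ _ ih r hr
    rw [Nat.succ_mul]
    omega

theorem d01_padTo {V : Type} (L : ℕ) (z : V) (r : List V) : (padTo L z r).length = L := by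
  unfold padTo
  simp

theorem d01_padTo_getD {V : Type} (L : ℕ) (z : V) (r : List V) (hr : r.length ≤ L) (t : ℕ) :
    (padTo L z r).getD t z = r.getD t z := by
  unfold padTo
  simp only [List.getD_eq_getElem?_getD]
  rw [List.getElem?_take]
  split_ifs with h
  · by_cases h1 : t < r.length
    · rw [List.getElem?_append_left h1]
    · rw [List.getElem?_append_right (by omega), List.getElem?_replicate,
        List.getElem?_eq_none (l := r) (by omega)]
      split_ifs <;> rfl
  · rw [List.getElem?_eq_none (l := r) (by omega)]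

theorem d01_usg (β : ℕ) (I : List (Ins 2)) (c : ℤ × ℤ) :
    (fcoef (usg β) I c : ZB β).val = (spoly I).coeff c := by
  rw [spoly_coeff]
  unfold fcoef
  generalize (ipos 0 I).filter (fun x => decide (x.1 = c)) = l
  induction l with
  | nil => rfl
  | cons x l ih =>
    simp only [List.map_cons, List.sum_cons]
    rw [← ih]
    have h1 : ∀ a b : ZB β, (a + b).val = a.val + b.val := fun _ _ => rfl
    rw [h1]
    have h2 : (usg β x.2).val = if x.2 = 0 then (1 : ℤ) else -1 := by
      unfold usg
      split_ifs <;> rfl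
    rw [h2]

theorem dgrid_spec (β : ℕ) (terms : List ((ℕ × ℕ) × ℤ)) (j D n0 : ℕ) :
    ∃ c0 : ℕ, ∀ c, c0 ≤ c → ∀ I : List (Ins 2),
      (dgrid β terms j c n0 I).length ≤ c * (I.length + n0 + 1) ∧
      (∀ r ∈ dgrid β terms j c n0 I, r.length = 4 * (c * (I.length + n0 + 1))) ∧
      ∃ s0 : ℤ, (∀ s t : ℤ, (ffun (dgrid β terms j c n0 I) s t).val =
        ((dil (prm (I.length + n0)) (polyT terms)) ^ j * spoly I).coeff
          (t - (c * (I.length + n0 + 1) : ℕ), s0 + s)) ∧
      ∀ s t : ℤ, ffun (dgrid β terms j c n0 I) s t ≠ 0 → 0 ≤ s ∧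
        s < (dgrid β terms j c n0 I).length ∧
        (D : ℤ) * ((dgrid β terms j c n0 I).length + 1) ≤ t ∧
        t < (4 * (c * (I.length + n0 + 1)) : ℕ) := by
  refine ⟨D * (2 * (j * tmax terms) + 2) + 2 * (j * tmax terms) + 2, fun c hc I => ?_⟩
  set n := I.length with hn
  set N := n + n0 + 1 with hN
  set m := c * N with hm
  set p := prm (n + n0) with hp
  have hp1 : p ≤ 2 * N := by
    have h1 := prm_le (n + n0)
    have h2 := Nat.sqrt_le_self (n + n0)
    omega
  set T := j * tmax terms with hT
  have hTp : j * (tmax terms * p) ≤ 2 * T * N := by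
    calc j * (tmax terms * p) = T * p := by rw [hT]; ring
      _ ≤ T * (2 * N) := Nat.mul_le_mul_left _ hp1
      _ = 2 * T * N := by ring
  have hm1 : (D * (2 * T + 2) + 2 * T + 2) * N ≤ m := Nat.mul_le_mul_right N hc
  have hm2 : (D * (2 * T + 2) + 2 * T + 2) * N =
      D * (2 * T + 2) * N + 2 * T * N + 2 * N := by ring
  have hnm : n ≤ m := by omega
  obtain ⟨v1, v2, v3⟩ := length_vgrid (usg β) m (3 * m) I
  obtain ⟨s0, -, -, w1, w2⟩ := vgrid_spec (usg β) m (3 * m) I hnm (by omega)
  set g0 := vgrid (usg β) m (3 * m) I with hg0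
  have hrep : D01Rep g0 (spoly I) m n s0 := by
    refine ⟨fun s t => ?_, fun d hd => ?_⟩
    · by_cases h1 : s < g0.length ∧ t < 3 * m
      · rw [← d01_usg β]
        unfold gval
        rw [w1 s t h1.1 h1.2]
        rfl
      · have h2 : (spoly I).coeff ((t : ℤ) - m, s0 + s) = 0 := by
          by_contra h3
          obtain ⟨x, hx, hx1⟩ := spoly_support I _ (Finsupp.mem_support_iff.mpr h3)
          obtain ⟨s', t', h4, h5, h6⟩ := w2 x hx
          rw [hx1] at h6
          simp only [Prod.mk.injEq] at h6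
          apply h1
          have h7 : t = t' := by omega
          have h8 : s = s' := by omega
          rw [h7, h8]
          exact ⟨h4, h5⟩
        rw [h2]
        unfold gval
        by_cases h3 : s < g0.length
        · rw [List.getD_eq_getElem _ _ h3]
          have h4 := v3 _ (List.getElem_mem h3)
          rw [List.getD_eq_getElem?_getD, List.getElem?_eq_none (by omega)]
          rfl
        · have h4 : g0.getD s [] = [] := by
            rw [List.getD_eq_getElem?_getD, List.getElem?_eq_none (by omega)]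
            rfl
          rw [h4]
          rfl
    · obtain ⟨x, hx, hx1⟩ := spoly_support I _ (Finsupp.mem_support_iff.mpr hd)
      obtain ⟨s', t', h4, h5, h6⟩ := w2 x hx
      have h7 := (ipos_bound I x hx).1
      rw [hx1] at h6 h7
      rw [abs_le] at h7
      refine ⟨h7.1, ?_⟩
      rw [h6]
      simp
  have hrepj := d01_iter terms p g0 (spoly I) m n s0 hnm hrep j
  have hlen := d01_length terms p g0 j
  have hrows := d01_rows terms p (3 * m) g0 (fun r hr => le_of_eq (v3 r hr)) j
  have hdg : dgrid β terms j c n0 I = ((gmul terms p)^[j] g0).map (padTo (4 * m) 0) := rfl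
  rw [hdg]
  set g := (gmul terms p)^[j] g0 with hg
  have hH : g.length ≤ N + 2 * T * N := by omega
  have hrow4 : ∀ r ∈ g, r.length ≤ 4 * m := by
    intro r hr
    have := hrows r hr
    omega
  have hval : ∀ s t : ℤ, 0 ≤ s → 0 ≤ t → (ffun (g.map (padTo (4 * m) 0)) s t : ZB β) =
      gval g s.toNat t.toNat := by
    intro s t hs ht
    unfold ffun gval
    rw [if_pos ⟨hs, ht⟩]
    by_cases h1 : s.toNat < g.length
    · have h2 : s.toNat < (g.map (padTo (4 * m) 0)).length := by
        rw [List.length_map]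
        exact h1
      rw [List.getD_eq_getElem _ _ h2, List.getElem_map, List.getD_eq_getElem _ _ h1]
      exact d01_padTo_getD _ _ _ (hrow4 _ (List.getElem_mem h1)) _
    · have h2 : g.getD s.toNat [] = [] := by
        rw [List.getD_eq_getElem?_getD, List.getElem?_eq_none (by omega)]
        rfl
      have h3 : (g.map (padTo (4 * m) 0)).getD s.toNat [] = [] := by
        rw [List.getD_eq_getElem?_getD, List.getElem?_eq_none (by rw [List.length_map]; omega)]
        rfl
      rw [h2, h3]
  obtain ⟨r1, r2⟩ := hrepj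
  have hcoeff : ∀ s t : ℤ, (ffun (g.map (padTo (4 * m) 0)) s t : ZB β).val =
      ((dil p (polyT terms)) ^ j * spoly I).coeff (t - (m : ℕ), s0 + s) := by
    intro s t
    by_cases h1 : 0 ≤ s ∧ 0 ≤ t
    · rw [hval s t h1.1 h1.2]
      have h2 := r1 s.toNat t.toNat
      rw [Int.toNat_of_nonneg h1.1, Int.toNat_of_nonneg h1.2] at h2
      rw [← h2]
      rfl
    · have h2 : ((dil p (polyT terms)) ^ j * spoly I).coeff (t - (m : ℕ), s0 + s) = 0 := by
        by_contra h3
        obtain ⟨h4, h5⟩ := r2 _ h3
        simp only at h4 h5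
        apply h1
        constructor <;> omega
      rw [h2]
      unfold ffun
      rw [if_neg h1]
      rfl
  refine ⟨?_, ?_, s0, hcoeff, ?_⟩
  · rw [List.length_map]
    omega
  · intro r hr
    obtain ⟨r', hr', rfl⟩ := List.mem_map.mp hr
    exact d01_padTo _ _ _
  · intro s t hst
    have h0 : 0 ≤ s ∧ 0 ≤ t := by
      by_contra h1
      apply hst
      unfold ffun
      rw [if_neg h1]
    have h1 : ((dil p (polyT terms)) ^ j * spoly I).coeff (t - (m : ℕ), s0 + s) ≠ 0 := by
      rw [← hcoeff]
      exact hst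
    obtain ⟨h2, h3⟩ := r2 _ h1
    simp only at h2 h3
    rw [List.length_map]
    refine ⟨h0.1, ?_, ?_, ?_⟩
    · by_contra h4
      apply hst
      unfold ffun
      rw [if_pos h0]
      have h5 : (g.map (padTo (4 * m) 0)).getD s.toNat [] = [] := by
        rw [List.getD_eq_getElem?_getD, List.getElem?_eq_none (by rw [List.length_map]; omega)]
        rfl
      rw [h5]
      rfl
    · have h4 : D * (g.length + 1) ≤ D * (2 * T + 2) * N := by
        rw [mul_assoc]
        refine Nat.mul_le_mul_left _ ?_
        have h5 : (2 * T + 2) * N = 2 * T * N + 2 * N := by ring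
        rw [h5]
        omega
      have h5 : D * (g.length + 1) + n ≤ m := by omega
      zify at h5
      linarith
    · by_contra h4
      apply hst
      unfold ffun
      rw [if_pos h0]
      by_cases h5 : s.toNat < (g.map (padTo (4 * m) 0)).length
      · rw [List.getD_eq_getElem _ _ h5, List.getElem_map]
        have h6 := d01_padTo (4 * m) (0 : ZB β) (g[s.toNat]'(by rwa [List.length_map] at h5))
        rw [List.getD_eq_getElem?_getD, List.getElem?_eq_none (by rw [h6]; omega)]
        rfl
      · have h6 : (g.map (padTo (4 * m) 0)).getD s.toNat [] = [] := by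
          rw [List.getD_eq_getElem?_getD, List.getElem?_eq_none (by omega)]
          rfl
        rw [h6]
        rfl

end Pool.Agent.WPR
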