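import Pool.Agent.Lib.MP_2da099_lc.R2.G05
import Pool.Agent.Lib.MP_2da099_lc.R2.N03
import Pool.Agent.Lib.MP_2da099_lc.R2.P05
import Pool.Agent.Lib.MP_2da099_lc.R2.P07

/-!
# G06: computing the product of a grid by a polynomial in `Y ^ p`

HINTS.  `ct_ladd` (for constant `w`): `ladd w l l' = zipWith (fun a b => a + w • b) (l padded with zeros)
(l' padded with zeros)`.  `ct_gadd` in the same way one level higher (rows instead of numbers, padding
with `[]`).  `ct_gsh` for `(a, b)` constant: `replicate (b * p) []` in front and
`replicate (a * p) 0 ++ r` for every row.  `ct_gmul`: induction on the list of terms (it is constant).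
-/

set_option autoImplicit false

namespace Pool.Agent.WPR

open Pool.Agent.Lib.PolyTime Pool.Agent.WPM Function

section

variable {α β γ : Type} [Enc α] [Enc β] [Enc γ]

theorem g06_fst : CT (fun x : α × β => x.1) (fun x => size x) := by
  refine CT.mono 1 CT.fst (fun x => ?_)
  rw [size_prod]
  omega

theorem g06_snd : CT (fun x : α × β => x.2) (fun x => size x) := by
  refine CT.mono 1 CT.snd (fun x => ?_)
  rw [size_prod]
  omega

/-- two functions and a function of the pair, all bounded by `T` -/
theorem g06_bin {δ : Type} [Enc δ] {f : α → β} {g : α → γ} {h : β × γ → δ} {T : α → ℕ}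
    {T' : β × γ → ℕ} (hf : CT f T) (hg : CT g T) (hh : CT h T') (C : ℕ)
    (hs : ∀ a, size a ≤ C * (T a + 1)) (hT : ∀ a, T' (f a, g a) ≤ C * (T a + 1)) :
    CT (fun a => h (f a, g a)) T := by
  refine CT.mono (2 * C + 2) (hh.comp (hf.pair hg)) (fun a => ?_)
  have h1 := hs a
  have h2 := hT a
  have e : (2 * C + 2) * (T a + 1) = C * (T a + 1) + C * (T a + 1) + 2 * (T a + 1) := by ring
  omega

theorem g06_sum_zip (l : List α) (l' : List β) :
    ((l.zip l').map (fun x : α × β => size x.1 + size x.2)).sum ≤ size l + size l' := by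
  induction l generalizing l' with
  | nil => simp
  | cons a l ih =>
    cases l' with
    | nil => simp
    | cons b l' =>
      rw [List.zip_cons_cons, List.map_cons, List.sum_cons, size_cons, size_cons]
      have := ih l'
      simp only
      omega

theorem g06_length_le (l : List α) : l.length ≤ size l := by
  induction l with
  | nil => simp
  | cons a l ih =>
    rw [size_cons, List.length_cons]
    omega

/-- padding to the length of another list -/
def g06_pad (z : α) (x : List α × List β) : List α :=
  x.1 ++ List.replicate (x.2.length - x.1.length) z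

theorem g06_ct_pad (z : α) : CT (g06_pad (β := β) z)
    (fun x : List α × List β => size x.1 + size x.2) := by
  have hs : ∀ x : List α × List β, size x ≤ 1 * ((size x.1 + size x.2) + 1) := fun x => by
    rw [size_prod]; omega
  have h1 : CT (fun x : List α × List β => x.1) (fun x => size x.1 + size x.2) := CT.fst
  have h2 : CT (fun x : List α × List β => x.2) (fun x => size x.1 + size x.2) :=
    CT.mono 1 CT.snd (fun x => by omega)
  have l1 : CT (fun x : List α × List β => x.1.length) (fun x => size x.1 + size x.2) :=
    CT.mono 2 (ct_length.comp h1) (fun x => by omega)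
  have l2 : CT (fun x : List α × List β => x.2.length) (fun x => size x.1 + size x.2) :=
    CT.mono 2 (ct_length.comp h2) (fun x => by omega)
  have d : CT (fun x : List α × List β => x.2.length - x.1.length)
      (fun x => size x.1 + size x.2) := by
    refine g06_bin l2 l1 ct_sub 1 hs (fun x => ?_)
    have a1 := g06_length_le x.1
    have a2 := g06_length_le x.2
    simp only
    omega
  have r : CT (fun x : List α × List β => List.replicate (x.2.length - x.1.length) z)
      (fun x => size x.1 + size x.2) := by
    have hc : CT (fun _ : List α × List β => z) (fun x => size x.1 + size x.2) :=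
      CT.mono 1 (CT.const z) (fun x => by rw [size_prod]; omega)
    refine g06_bin d hc ct_replicate (size z + 1) (fun x => (hs x).trans
      (Nat.mul_le_mul_right _ (by omega))) (fun x => ?_)
    have a2 := g06_length_le x.2
    calc (x.2.length - x.1.length + 1) * size z ≤ (size x.1 + size x.2 + 1) * (size z + 1) :=
          Nat.mul_le_mul (by omega) (by omega)
      _ = (size z + 1) * (size x.1 + size x.2 + 1) := Nat.mul_comm _ _
  exact (g06_bin (h := fun y : List α × List α => y.1 ++ y.2) h1 r CT.append 1 hs
    (fun x => by simp only; omega)).congr (fun _ => rfl)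

end

section

variable {β : ℕ}

theorem g06_ladd_nil (w : ℤ) (l : List (ZB β)) : ladd w l [] = l := by
  cases l with
  | nil => rfl
  | cons x l => rfl

theorem g06_ladd (w : ℤ) (l l' : List (ZB β)) : ladd w l l' =
    List.zipWith (fun a b => a + w • b) (g06_pad (0 : ZB β) (l, l'))
      (g06_pad (0 : ZB β) (l', l)) := by
  induction l generalizing l' with
  | nil =>
    unfold g06_pad ladd
    simp only [List.length_nil, Nat.sub_zero, Nat.zero_sub, List.replicate_zero, List.append_nil,
      List.nil_append]
    induction l' with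
    | nil => rfl
    | cons y l' ih =>
      rw [List.length_cons, List.replicate_succ, List.zipWith_cons_cons, List.map_cons, ← ih,
        zero_add]
  | cons x l ih =>
    cases l' with
    | nil =>
      have key : ∀ k : List (ZB β), List.zipWith (fun a b : ZB β => a + w • b) k
          (List.replicate k.length (0 : ZB β)) = k := by
        intro k
        induction k with
        | nil => rfl
        | cons y k ihk =>
          rw [List.length_cons, List.replicate_succ, List.zipWith_cons_cons, ihk, smul_zero,
            add_zero]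
      unfold g06_pad
      simp only [List.length_nil, Nat.sub_zero, Nat.zero_sub, List.replicate_zero,
        List.append_nil, List.nil_append]
      rw [key]
      rfl
    | cons y l' =>
      have h := ih l'
      unfold g06_pad at h ⊢
      simp only [List.length_cons, Nat.add_sub_add_right, List.cons_append,
        List.zipWith_cons_cons]
      rw [← h]
      rfl

theorem g06_gadd (w : ℤ) (l l' : List (List (ZB β))) : gadd w l l' =
    List.zipWith (fun a b => ladd w a b) (g06_pad ([] : List (ZB β)) (l, l'))
      (g06_pad ([] : List (ZB β)) (l', l)) := by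
  induction l generalizing l' with
  | nil =>
    unfold g06_pad gadd
    simp only [List.length_nil, Nat.sub_zero, Nat.zero_sub, List.replicate_zero, List.append_nil,
      List.nil_append]
    induction l' with
    | nil => rfl
    | cons y l' ih =>
      rw [List.length_cons, List.replicate_succ, List.zipWith_cons_cons, List.map_cons, ← ih]
      rfl
  | cons x l ih =>
    cases l' with
    | nil =>
      have key : ∀ k : List (List (ZB β)), List.zipWith (fun a b => ladd w a b) k
          (List.replicate k.length ([] : List (ZB β))) = k := by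
        intro k
        induction k with
        | nil => rfl
        | cons y k ihk =>
          rw [List.length_cons, List.replicate_succ, List.zipWith_cons_cons, ihk, g06_ladd_nil]
      unfold g06_pad
      simp only [List.length_nil, Nat.sub_zero, Nat.zero_sub, List.replicate_zero,
        List.append_nil, List.nil_append]
      rw [key]
      rfl
    | cons y l' =>
      have h := ih l'
      unfold g06_pad at h ⊢
      simp only [List.length_cons, Nat.add_sub_add_right, List.cons_append,
        List.zipWith_cons_cons]
      rw [← h]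
      rfl

end

/-- common form of `ct_ladd` and `ct_gadd` -/
theorem g06_zip {α γ : Type} [Enc α] [Enc γ] (z : α) {f : α × α → γ}
    (hf : CT f (fun x => size x.1 + size x.2)) :
    CT (fun x : List α × List α => List.zipWith (fun a b => f (a, b)) (g06_pad z (x.1, x.2))
      (g06_pad z (x.2, x.1))) (fun x => size x.1 + size x.2) := by
  have p1 : CT (fun x : List α × List α => g06_pad z (x.1, x.2))
      (fun x => size x.1 + size x.2) := g06_ct_pad z
  have p2 : CT (fun x : List α × List α => g06_pad z (x.2, x.1))
      (fun x => size x.1 + size x.2) :=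
    CT.mono 2 ((g06_ct_pad (β := α) z).comp CT.swap) (fun x => by simp only; omega)
  obtain ⟨C1, hC1⟩ := p1.size_le
  obtain ⟨C2, hC2⟩ := p2.size_le
  refine g06_bin p1 p2 (ct_zipWith hf) (4 * (C1 + C2 + 2)) (fun x => ?_) (fun x => ?_)
  · rw [size_prod]
    have : 1 * (size x.1 + size x.2 + 1) ≤ 4 * (C1 + C2 + 2) * (size x.1 + size x.2 + 1) :=
      Nat.mul_le_mul_right _ (by omega)
    omega
  · have h1 := hC1 x
    have h2 := hC2 x
    have h3 := g06_sum_zip (g06_pad z (x.1, x.2)) (g06_pad z (x.2, x.1))
    rw [size_prod] at h1 h2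
    simp only at h1 h2 h3 ⊢
    have e : 4 * (C1 + C2 + 2) * (size x.1 + size x.2 + 1) =
      4 * (C1 * (size x.1 + size x.2 + 1)) + 4 * (C2 * (size x.1 + size x.2 + 1)) +
        8 * (size x.1 + size x.2 + 1) := by ring
    rw [e]
    omega

theorem ct_ladd (β : ℕ) [Fact (2 ≤ β)] (w : ℤ) :
    CT (fun x : List (ZB β) × List (ZB β) => ladd w x.1 x.2)
      (fun x => size x.1 + size x.2) :=
  (g06_zip (0 : ZB β) (ct_zblin β w)).congr (fun x => (g06_ladd w x.1 x.2).symm)

theorem ct_gadd (β : ℕ) [Fact (2 ≤ β)] (w : ℤ) :
    CT (fun x : List (List (ZB β)) × List (List (ZB β)) => gadd w x.1 x.2)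
      (fun x => size x.1 + size x.2) :=
  (g06_zip ([] : List (ZB β)) (ct_ladd β w)).congr (fun x => (g06_gadd w x.1 x.2).symm)

/-- multiplication by a constant -/
theorem g06_mulc (b : ℕ) : CT (fun p : ℕ => b * p) (fun p => p) := by
  have h1 : CT (fun p : ℕ => (b, p)) (fun _ => 0) := CT.pushConst b
  refine CT.mono (b + 1) (ct_mul.comp h1) (fun p => ?_)
  simp only
  omega

theorem ct_gsh (β : ℕ) [Fact (2 ≤ β)] (a b : ℕ) :
    CT (fun x : ℕ × List (List (ZB β)) => gsh (a * x.1) (b * x.1) x.2)
      (fun x => (x.1 + 1) * (x.2.length + 1) + size x.2) := by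
  set T : ℕ × List (List (ZB β)) → ℕ := fun x => (x.1 + 1) * (x.2.length + 1) + size x.2 with hT
  have hp : ∀ x : ℕ × List (List (ZB β)), x.1 + 1 ≤ (x.1 + 1) * (x.2.length + 1) :=
    fun x => Nat.le_mul_of_pos_right _ (Nat.succ_pos _)
  have hs : ∀ x : ℕ × List (List (ZB β)), size x ≤ 3 * (T x + 1) := fun x => by
    have := hp x
    simp only [hT]
    rw [size_prod, size_nat]
    omega
  have h1 : CT (fun x : ℕ × List (List (ZB β)) => x.1) T :=
    CT.mono 3 g06_fst hs
  have h2 : CT (fun x : ℕ × List (List (ZB β)) => x.2) T :=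
    CT.mono 3 g06_snd hs
  have zr : ∀ (c : ℕ) (δ : Type) [Enc δ] (z : δ), CT (fun x : ℕ × List (List (ZB β)) =>
      List.replicate (c * x.1) z) T := by
    intro c δ _ z
    have m1 : CT (fun x : ℕ × List (List (ZB β)) => c * x.1) T :=
      CT.mono 2 ((g06_mulc c).comp h1) (fun x => by
        have := hp x
        simp only [hT]
        omega)
    have m2 : CT (fun _ : ℕ × List (List (ZB β)) => z) T :=
      CT.mono 3 (CT.const z) hs
    refine g06_bin (h := fun y : ℕ × δ => List.replicate y.1 y.2) m1 m2 ct_replicate
      (3 + (c + 1) * (size z + 1)) (fun x => (hs x).trans (Nat.mul_le_mul_right _ (by omega)))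
      (fun x => ?_)
    have := hp x
    simp only [hT]
    calc (c * x.1 + 1) * size z ≤ ((c + 1) * (x.1 + 1)) * (size z + 1) :=
          Nat.mul_le_mul (by nlinarith) (by omega)
      _ = (c + 1) * (size z + 1) * (x.1 + 1) := by ring
      _ ≤ (3 + (c + 1) * (size z + 1)) * ((x.1 + 1) * (x.2.length + 1) + size x.2 + 1) :=
          Nat.mul_le_mul (by omega) (by omega)
  have z0 := zr b (List (ZB β)) ([] : List (ZB β))
  have z1 := zr a (ZB β) (0 : ZB β)
  have hf : CT (fun y : List (ZB β) × List (ZB β) => y.2 ++ y.1)
      (fun y => size y.1 + size y.2) := by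
    refine CT.mono 2 (CT.append.comp CT.swap) (fun y => ?_)
    simp only
    omega
  have hm := ct_mapEnv hf
  -- the rows
  have rows : CT (fun x : ℕ × List (List (ZB β)) =>
      x.2.map (fun r => List.replicate (a * x.1) (0 : ZB β) ++ r)) T := by
    set c0 := size (0 : ZB β) with hc0
    have szr : ∀ k : ℕ, size (List.replicate k (0 : ZB β)) ≤ (c0 + 1) * (k + 1) := fun k => by
      have := size_list_le_of c0 (List.replicate k (0 : ZB β)) (fun y hy => by
        rw [List.eq_of_mem_replicate hy])
      rwa [List.length_replicate] at this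
    refine (g06_bin (h := fun y : List (List (ZB β)) × List (ZB β) =>
      y.1.map (fun r => y.2 ++ r)) h2 z1 hm (3 + 2 * ((c0 + 1) * (a + 1)))
      (fun x => (hs x).trans (Nat.mul_le_mul_right _ (by omega))) (fun x => ?_)).congr
      (fun _ => rfl)
    have h3 := szr (a * x.1)
    have h4 : size (List.replicate (a * x.1) (0 : ZB β)) ≤ (c0 + 1) * (a + 1) * (x.1 + 1) := by
      refine h3.trans ?_
      calc (c0 + 1) * (a * x.1 + 1) ≤ (c0 + 1) * ((a + 1) * (x.1 + 1)) :=
            Nat.mul_le_mul_left _ (by nlinarith)
        _ = _ := by ring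
    set E := size (List.replicate (a * x.1) (0 : ZB β)) with hE
    have h5 : (x.2.map (fun r => size r + E)).sum ≤ size x.2 + x.2.length * E := by
      clear h3 h4
      induction x.2 with
      | nil => simp
      | cons r l ih =>
        rw [List.map_cons, List.sum_cons, List.length_cons, size_cons, Nat.succ_mul]
        omega
    have h6 : (x.2.length + 1) * E ≤ (c0 + 1) * (a + 1) * ((x.1 + 1) * (x.2.length + 1)) := by
      calc (x.2.length + 1) * E ≤ (x.2.length + 1) * ((c0 + 1) * (a + 1) * (x.1 + 1)) :=
            Nat.mul_le_mul_left _ h4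
        _ = _ := by ring
    have h7 : x.2.length * E ≤ (x.2.length + 1) * E := Nat.mul_le_mul_right _ (by omega)
    change size x.2 + (x.2.length + 1) * E + (x.2.map (fun r => size r + E)).sum ≤
      (3 + 2 * ((c0 + 1) * (a + 1))) * ((x.1 + 1) * (x.2.length + 1) + size x.2 + 1)
    set K := (c0 + 1) * (a + 1) with hK
    set M := (x.1 + 1) * (x.2.length + 1) with hM
    have e : (3 + 2 * K) * (M + size x.2 + 1) = 3 * (M + size x.2 + 1) + 2 * (K * M) +
      2 * (K * (size x.2 + 1)) := by ring
    rw [e]
    omega
  obtain ⟨C, hC⟩ := z0.size_le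
  refine (g06_bin (h := fun y : List (List (ZB β)) × List (List (ZB β)) => y.1 ++ y.2) z0 rows
    CT.append (3 + C) (fun x => (hs x).trans (Nat.mul_le_mul_right _ (by omega)))
    (fun x => ?_)).congr (fun _ => rfl)
  have h3 := hC x
  have h4 := hs x
  have e : (3 + C) * (T x + 1) = 3 * (T x + 1) + C * (T x + 1) := by ring
  simp only
  omega

/-- the cost bound -/
noncomputable def g06_T {β : ℕ} [Fact (2 ≤ β)] (x : ℕ × List (List (ZB β))) : ℕ :=
  (x.1 + 1) * (x.1 + x.2.length + 1) + size x.2

theorem g06_size_T {β : ℕ} [Fact (2 ≤ β)] (x : ℕ × List (List (ZB β))) :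
    size x ≤ 3 * (g06_T x + 1) := by
  unfold g06_T
  have h1 : x.1 + 1 ≤ (x.1 + 1) * (x.1 + x.2.length + 1) :=
    Nat.le_mul_of_pos_right _ (Nat.succ_pos _)
  rw [size_prod, size_nat]
  omega

theorem g06_fold (β : ℕ) [Fact (2 ≤ β)] (terms : List ((ℕ × ℕ) × ℤ)) :
    ∀ acc : ℕ × List (List (ZB β)) → List (List (ZB β)), CT acc g06_T →
    CT (fun x : ℕ × List (List (ZB β)) =>
      terms.foldl (fun acc τ => gadd τ.2 acc (gsh (τ.1.1 * x.1) (τ.1.2 * x.1) x.2)) (acc x))
      g06_T := by
  induction terms with
  | nil =>
    intro acc h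
    exact h
  | cons τ terms ih =>
    intro acc h
    have hg : CT (fun x : ℕ × List (List (ZB β)) => gsh (τ.1.1 * x.1) (τ.1.2 * x.1) x.2)
        g06_T := by
      refine CT.mono 1 (ct_gsh β τ.1.1 τ.1.2) (fun x => ?_)
      unfold g06_T
      have : (x.1 + 1) * (x.2.length + 1) ≤ (x.1 + 1) * (x.1 + x.2.length + 1) :=
        Nat.mul_le_mul_left _ (by omega)
      omega
    obtain ⟨C1, hC1⟩ := h.size_le
    obtain ⟨C2, hC2⟩ := hg.size_le
    refine (ih (fun x => gadd τ.2 (acc x) (gsh (τ.1.1 * x.1) (τ.1.2 * x.1) x.2)) ?_).congr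
      (fun x => rfl)
    refine g06_bin (h := fun y : List (List (ZB β)) × List (List (ZB β)) => gadd τ.2 y.1 y.2)
      h hg (ct_gadd β τ.2) (6 + C1 + C2) (fun x => (g06_size_T x).trans
        (Nat.mul_le_mul_right _ (by omega))) (fun x => ?_)
    have h1 := hC1 x
    have h2 := hC2 x
    have h3 := g06_size_T x
    have e : (6 + C1 + C2) * (g06_T x + 1) = 6 * (g06_T x + 1) + C1 * (g06_T x + 1) +
      C2 * (g06_T x + 1) := by ring
    change size (acc x) + size (gsh (τ.1.1 * x.1) (τ.1.2 * x.1) x.2) ≤ _
    rw [e]
    omega

theorem ct_gmul (β : ℕ) [Fact (2 ≤ β)] (terms : List ((ℕ × ℕ) × ℤ)) :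
    CT (fun x : ℕ × List (List (ZB β)) => gmul terms x.1 x.2)
      (fun x => (x.1 + 1) * (x.1 + x.2.length + 1) + size x.2) := by
  have h0 : CT (fun _ : ℕ × List (List (ZB β)) => ([] : List (List (ZB β)))) g06_T :=
    CT.mono 3 (CT.const _) g06_size_T
  exact g06_fold β terms _ h0

/-- Repeated multiplication. -/
theorem ct_gmulIter (β : ℕ) [Fact (2 ≤ β)] (terms : List ((ℕ × ℕ) × ℤ)) (j : ℕ) :
    CT (fun x : ℕ × List (List (ZB β)) => (gmul terms x.1)^[j] x.2)
      (fun x => (x.1 + 1) * (x.1 + x.2.length + 1) + size x.2) := by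
  change CT (fun x : ℕ × List (List (ZB β)) => (gmul terms x.1)^[j] x.2) g06_T
  have len : ∀ (i : ℕ) (x : ℕ × List (List (ZB β))),
      ((gmul terms x.1)^[i] x.2).length ≤ x.2.length + i * (tmax terms * x.1) := by
    intro i x
    induction i with
    | zero => simp
    | succ i ih =>
      rw [Function.iterate_succ_apply']
      have := gmul_length terms x.1 ((gmul terms x.1)^[i] x.2)
      rw [Nat.succ_mul]
      omega
  have h1 : CT (fun x : ℕ × List (List (ZB β)) => x.1) g06_T :=
    CT.mono 3 g06_fst g06_size_T
  induction j with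
  | zero => exact CT.mono 3 g06_snd g06_size_T
  | succ j ih =>
    obtain ⟨C, hC⟩ := ih.size_le
    set D := j * tmax terms with hD
    have h2 := g06_bin (h := fun y : ℕ × List (List (ZB β)) => gmul terms y.1 y.2) h1 ih
      (ct_gmul β terms) (4 + D + C) (fun x => (g06_size_T x).trans
        (Nat.mul_le_mul_right _ (by omega))) (fun x => ?_)
    · exact h2.congr (fun x => (Function.iterate_succ_apply' _ _ _).symm)
    · have l1 := len j x
      have l2 := hC x
      have l3 := g06_size_T x
      simp only
      have l4 : j * (tmax terms * x.1) = D * x.1 := by rw [hD]; ring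
      rw [l4] at l1
      have l5 : (x.1 + 1) * (x.1 + ((gmul terms x.1)^[j] x.2).length + 1) ≤
          (D + 1) * ((x.1 + 1) * (x.1 + x.2.length + 1)) := by
        calc (x.1 + 1) * (x.1 + ((gmul terms x.1)^[j] x.2).length + 1) ≤
            (x.1 + 1) * ((D + 1) * (x.1 + x.2.length + 1)) := by
              refine Nat.mul_le_mul_left _ ?_
              nlinarith
          _ = _ := by ring
      have l6 : (x.1 + 1) * (x.1 + x.2.length + 1) ≤ g06_T x := by
        unfold g06_T
        omega
      have l7 : (D + 1) * ((x.1 + 1) * (x.1 + x.2.length + 1)) ≤ (D + 1) * (g06_T x + 1) :=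
        Nat.mul_le_mul_left _ (by omega)
      have e : (4 + D + C) * (g06_T x + 1) = (D + 1) * (g06_T x + 1) + C * (g06_T x + 1) +
        3 * (g06_T x + 1) := by ring
      omega

end Pool.Agent.WPR
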