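import Pool.Agent.Lib.MP_2da099_lc.R2.D01
import Pool.Agent.Lib.MP_2da099_lc.R2.G06

/-!
# D02: computing the grid

HINTS.  All steps cost `O((n + 1) ^ 2)`: `ct_length`, sums and products with constants (`ct_add`, `ct_mul`),
`ct_prm`, `ct_vgridZ` with `m, 3 m = O(n + 1)`, `ct_gmulIter`: here `p ≤ 2 * (n + n0 + 1)`, number of rows
`≤ n + 1`, size of the grid `O((n + 1) ^ 2)` by `CT.size_le`; padding: `padTo L 0 r = (r ++ replicate L 0).take L`
with `ct_mapEnv` (environment `L` or `replicate L 0`), number of rows `O(n + 1)` (`gmul_length`), cost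
`O(L + size r)` each.  Use `CT.pair`, `CT.comp`.
-/

set_option autoImplicit false

namespace Pool.Agent.WPR

open Pool.Agent.Lib.PolyTime Pool.Agent.WPM Function

theorem d02_addc (k : ℕ) : CT (fun n : ℕ => n + k) (fun _ => 0) := by
  induction k with
  | zero => exact CT.of_enc_eq (fun _ => rfl)
  | succ k ih => exact (ct_succ.comp ih).mono 1 (fun _ => by simp)

theorem d02_mulc (c : ℕ) : CT (fun n : ℕ => c * n) (fun n => n) := by
  refine ((ct_mul.comp (CT.pushConst (α := ℕ) c)).mono (c + 1) (fun n => ?_))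
  show 0 + (c + 1) * (n + 1) ≤ (c + 1) * (n + 1)
  omega

theorem d02_size_replicate {α : Type} [Enc α] (n : ℕ) (a : α) :
    size (List.replicate n a) = n * (size a + 1) + 1 := by
  induction n with
  | zero => simp
  | succ n ih =>
    rw [List.replicate_succ, size_cons, ih]
    ring

theorem d02_padTo (α : Type) [Enc α] (z : α) :
    CT (fun x : List α × ℕ => padTo x.2 z x.1) (fun x => size x.1 + x.2) := by
  have h1 : CT (fun x : List α × ℕ => x.2) (fun x => size x.1) := CT.snd
  have h2 : CT (fun x : List α × ℕ => x.1) (fun x => size x.1 + size x.2) := CT.fst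
  have h3 : CT (fun x : List α × ℕ => List.replicate x.2 z) (fun x => size x.1 + x.2) := by
    have a1 : CT (fun x : List α × ℕ => (x.2, z)) (fun x => size x.1 + x.2) := by
      refine (CT.pair h1 (CT.const z)).mono 4 (fun x => ?_)
      show size x + size x.1 + size x ≤ 4 * (size x.1 + x.2 + 1)
      rw [size_prod, size_nat]
      omega
    refine ((ct_replicate (α := α)).comp a1).mono (size z + 1) (fun x => ?_)
    show size x.1 + x.2 + (x.2 + 1) * size z ≤ (size z + 1) * (size x.1 + x.2 + 1)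
    have e : (size z + 1) * (size x.1 + x.2 + 1) = (x.2 + 1) * size z + size z * size x.1 +
      (size x.1 + x.2 + 1) := by ring
    omega
  have h4 : CT (fun x : List α × ℕ => x.1 ++ List.replicate x.2 z) (fun x => size x.1 + x.2) := by
    refine ((CT.append (α := α)).comp (CT.pair h2 h3)).mono 8 (fun x => ?_)
    show size x + (size x.1 + size x.2) + (size x.1 + x.2) + size x.1 ≤
      8 * (size x.1 + x.2 + 1)
    rw [size_prod, size_nat]
    omega
  refine ((ct_take (α := α)).comp (CT.pair h1 h4)).mono (size z + 9) (fun x => ?_)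
  show size x + size x.1 + (size x.1 + x.2) + (x.2 + size (x.1 ++ List.replicate x.2 z)) ≤
    (size z + 9) * (size x.1 + x.2 + 1)
  have a1 := size_append x.1 (List.replicate x.2 z)
  rw [d02_size_replicate] at a1
  rw [size_prod, size_nat]
  have e : (size z + 9) * (size x.1 + x.2 + 1) = x.2 * (size z + 1) + size z * size x.1 + size z +
    (9 * size x.1 + 8 * x.2 + 9) := by ring
  omega

theorem d02_sum_le {α : Type} [Enc α] (L : ℕ) (l : List α) :
    (l.map (fun r => size r + L)).sum ≤ size l + L * l.length := by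
  induction l with
  | nil => simp
  | cons a l ih =>
    rw [List.map_cons, List.sum_cons, size_cons, List.length_cons, Nat.mul_add]
    omega

theorem d02_iter_length {β : ℕ} (terms : List ((ℕ × ℕ) × ℤ)) (p j : ℕ)
    (g : List (List (ZB β))) :
    ((gmul terms p)^[j] g).length ≤ g.length + j * (tmax terms * p) := by
  induction j with
  | zero => simp
  | succ j ih =>
    rw [Function.iterate_succ_apply']
    have h1 := gmul_length terms p ((gmul terms p)^[j] g)
    have e : (j + 1) * (tmax terms * p) = j * (tmax terms * p) + tmax terms * p := by ring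
    omega

theorem d02_mapEnv (α : Type) [Enc α] (z : α) :
    CT (fun x : List (List α) × ℕ => x.1.map (padTo x.2 z))
      (fun x => size x.1 + (x.1.length + 1) * (x.2 + 1)) := by
  refine (ct_mapEnv (d02_padTo α z)).mono 4 (fun x => ?_)
  show size x.1 + (x.1.length + 1) * size x.2 + (x.1.map (fun a => size a + x.2)).sum ≤
    4 * (size x.1 + (x.1.length + 1) * (x.2 + 1) + 1)
  have h1 := d02_sum_le x.2 x.1
  rw [size_nat]
  have e : 4 * (size x.1 + (x.1.length + 1) * (x.2 + 1) + 1) = 4 * size x.1 +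
    (x.1.length + 1) * (2 * x.2 + 1) + x.2 * x.1.length + (x.1.length + 1) * 3 +
    x.1.length * x.2 + 2 * x.2 + 4 := by ring
  omega

theorem ct_dgrid (β : ℕ) [Fact (2 ≤ β)] (terms : List ((ℕ × ℕ) × ℤ)) (j c n0 : ℕ) :
    CT (fun I : List (Ins 2) => dgrid β terms j c n0 I) (fun I => (I.length + 1) ^ 2) := by
  obtain ⟨κ3, hκ3⟩ := size_list_fin (Ins 2)
  have hsq : ∀ K a n : ℕ, a ≤ K * (n + 1) → a ^ 2 ≤ K ^ 2 * (n + 1) ^ 2 := by
    intro K a n h
    rw [← mul_pow]
    exact Nat.pow_le_pow_left h 2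
  have hN : ∀ n : ℕ, n + 1 ≤ (n + 1) ^ 2 := fun n => by nlinarith
  have hn0 : ∀ n : ℕ, n + n0 + 1 ≤ (n0 + 1) * (n + 1) := fun n => by nlinarith [Nat.zero_le (n0 * n)]
  have hsize : ∀ I : List (Ins 2), size I ≤ κ3 * (I.length + 1) ^ 2 := fun I =>
    (hκ3 I).trans (Nat.mul_le_mul_left _ (hN _))
  have h1 : CT (fun I : List (Ins 2) => I.length) (fun I => I.length) := by
    refine (ct_length (α := Ins 2)).mono κ3 (fun I => ?_)
    exact hκ3 I
  have h2 : CT (fun I : List (Ins 2) => I.length + n0) (fun I => I.length) :=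
    ((d02_addc n0).comp h1).mono 1 (fun I => by
      show I.length + 0 ≤ 1 * (I.length + 1)
      omega)
  have h3 : CT (fun I : List (Ins 2) => prm (I.length + n0)) (fun I => (I.length + 1) ^ 2) := by
    refine (ct_prm.comp h2).mono ((n0 + 1) ^ 2 + 1) (fun I => ?_)
    have a1 := hsq (n0 + 1) (I.length + n0 + 1) I.length (hn0 _)
    have a2 := hN I.length
    show I.length + (I.length + n0 + 1) ^ 2 ≤ ((n0 + 1) ^ 2 + 1) * ((I.length + 1) ^ 2 + 1)
    have e : ((n0 + 1) ^ 2 + 1) * ((I.length + 1) ^ 2 + 1) =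
      (n0 + 1) ^ 2 * (I.length + 1) ^ 2 + (n0 + 1) ^ 2 + (I.length + 1) ^ 2 + 1 := by ring
    omega
  have h4 : CT (fun I : List (Ins 2) => c * (I.length + n0 + 1)) (fun I => I.length) := by
    refine ((d02_mulc c).comp ((d02_addc 1).comp h2)).mono (n0 + 2) (fun I => ?_)
    show I.length + 0 + (I.length + n0 + 1) ≤ (n0 + 2) * (I.length + 1)
    have a1 := hn0 I.length
    have e : (n0 + 2) * (I.length + 1) = (n0 + 1) * (I.length + 1) + I.length + 1 := by ring
    omega
  have hm : ∀ I : List (Ins 2), c * (I.length + n0 + 1) ≤ c * (n0 + 1) * (I.length + 1) := by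
    intro I
    rw [Nat.mul_assoc]
    exact Nat.mul_le_mul_left _ (hn0 _)
  have h5 : ∀ a : ℕ, CT (fun I : List (Ins 2) => a * (c * (I.length + n0 + 1)))
      (fun I => I.length) := by
    intro a
    refine ((d02_mulc a).comp h4).mono (c * (n0 + 1) + 1) (fun I => ?_)
    have a1 := hm I
    show I.length + c * (I.length + n0 + 1) ≤ (c * (n0 + 1) + 1) * (I.length + 1)
    have e : (c * (n0 + 1) + 1) * (I.length + 1) = c * (n0 + 1) * (I.length + 1) + I.length + 1 := by
      ring
    omega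
  have h6 : CT (fun I : List (Ins 2) => ((c * (I.length + n0 + 1),
      3 * (c * (I.length + n0 + 1))), I)) (fun I => I.length) := by
    have hid : CT (fun I : List (Ins 2) => I) (fun _ => 0) := CT.of_enc_eq (fun _ => rfl)
    refine (CT.pair (CT.pair h4 (h5 3)) hid).mono (2 * κ3 + 2) (fun I => ?_)
    have a1 := hκ3 I
    show size I + (size I + I.length + I.length) + 0 ≤ (2 * κ3 + 2) * (I.length + 1)
    have e : (2 * κ3 + 2) * (I.length + 1) = 2 * (κ3 * (I.length + 1)) + 2 * I.length + 2 := by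
      ring
    omega
  have h7 : CT (fun I : List (Ins 2) => vgrid (usg β) (c * (I.length + n0 + 1))
      (3 * (c * (I.length + n0 + 1))) I) (fun I => (I.length + 1) ^ 2) := by
    refine ((ct_vgridZ β).comp h6).mono ((4 * (c * (n0 + 1)) + 1) ^ 2 + 1) (fun I => ?_)
    have a1 := hm I
    have a2 := hsq (4 * (c * (n0 + 1)) + 1) (c * (I.length + n0 + 1) +
      3 * (c * (I.length + n0 + 1)) + I.length + 1) I.length (by
        have e : (4 * (c * (n0 + 1)) + 1) * (I.length + 1) =
          4 * (c * (n0 + 1) * (I.length + 1)) + I.length + 1 := by ring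
        omega)
    have a3 := hN I.length
    show I.length + (c * (I.length + n0 + 1) + 3 * (c * (I.length + n0 + 1)) + I.length + 1) ^ 2 ≤
      ((4 * (c * (n0 + 1)) + 1) ^ 2 + 1) * ((I.length + 1) ^ 2 + 1)
    have e : ((4 * (c * (n0 + 1)) + 1) ^ 2 + 1) * ((I.length + 1) ^ 2 + 1) =
      (4 * (c * (n0 + 1)) + 1) ^ 2 * (I.length + 1) ^ 2 + (4 * (c * (n0 + 1)) + 1) ^ 2 +
      (I.length + 1) ^ 2 + 1 := by ring
    omega
  obtain ⟨C7, hC7⟩ := h7.size_le
  have hprm : ∀ I : List (Ins 2), prm (I.length + n0) ≤ 2 * (n0 + 1) * (I.length + 1) := by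
    intro I
    have a1 := prm_le (I.length + n0)
    have a2 := Nat.sqrt_le_self (I.length + n0)
    have a3 := hn0 I.length
    have e : 2 * (n0 + 1) * (I.length + 1) = 2 * ((n0 + 1) * (I.length + 1)) := by ring
    omega
  have h8 : CT (fun I : List (Ins 2) => (gmul terms (prm (I.length + n0)))^[j]
      (vgrid (usg β) (c * (I.length + n0 + 1)) (3 * (c * (I.length + n0 + 1))) I))
      (fun I => (I.length + 1) ^ 2) := by
    refine ((ct_gmulIter β terms j).comp (CT.pair h3 h7)).mono
      (2 * κ3 + 2 + (2 * (n0 + 1) + 1) * (2 * (n0 + 1) + 2) + 2 * C7) (fun I => ?_)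
    have a1 := hprm I
    have a2 := (length_vgrid (usg β) (c * (I.length + n0 + 1))
      (3 * (c * (I.length + n0 + 1))) I).2.1
    have a3 := hC7 I
    have a4 := hsize I
    have a5 := hN I.length
    have a6 : (prm (I.length + n0) + 1) * (prm (I.length + n0) + (vgrid (usg β)
        (c * (I.length + n0 + 1)) (3 * (c * (I.length + n0 + 1))) I).length + 1) ≤
        ((2 * (n0 + 1) + 1) * (I.length + 1)) * ((2 * (n0 + 1) + 2) * (I.length + 1)) := by
      apply Nat.mul_le_mul
      · have e : (2 * (n0 + 1) + 1) * (I.length + 1) = 2 * (n0 + 1) * (I.length + 1) +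
          I.length + 1 := by ring
        omega
      · have e : (2 * (n0 + 1) + 2) * (I.length + 1) = 2 * (n0 + 1) * (I.length + 1) +
          2 * I.length + 2 := by ring
        omega
    have e1 : ((2 * (n0 + 1) + 1) * (I.length + 1)) * ((2 * (n0 + 1) + 2) * (I.length + 1)) =
      (2 * (n0 + 1) + 1) * (2 * (n0 + 1) + 2) * (I.length + 1) ^ 2 := by ring
    show size I + (I.length + 1) ^ 2 + (I.length + 1) ^ 2 + ((prm (I.length + n0) + 1) *
      (prm (I.length + n0) + (vgrid (usg β) (c * (I.length + n0 + 1))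
        (3 * (c * (I.length + n0 + 1))) I).length + 1) +
      size (vgrid (usg β) (c * (I.length + n0 + 1)) (3 * (c * (I.length + n0 + 1))) I)) ≤ _
    have e2 : (2 * κ3 + 2 + (2 * (n0 + 1) + 1) * (2 * (n0 + 1) + 2) + 2 * C7) *
      ((I.length + 1) ^ 2 + 1) = 2 * (κ3 * (I.length + 1) ^ 2) + 2 * (I.length + 1) ^ 2 +
      (2 * (n0 + 1) + 1) * (2 * (n0 + 1) + 2) * (I.length + 1) ^ 2 +
      C7 * ((I.length + 1) ^ 2 + 1) + C7 * ((I.length + 1) ^ 2 + 1) +
      (2 * κ3 + 2 + (2 * (n0 + 1) + 1) * (2 * (n0 + 1) + 2)) := by ring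
    rw [e2]
    omega
  obtain ⟨C8, hC8⟩ := h8.size_le
  have h9 := (d02_mapEnv (ZB β) (0 : ZB β)).comp (CT.pair h8 (h5 4))
  refine (h9.mono (2 * κ3 + 2 + 2 * C8 + (2 + j * (tmax terms * (2 * (n0 + 1)))) *
    (4 * (c * (n0 + 1)) + 1)) (fun I => ?_)).congr (fun I => rfl)
  have a1 := hprm I
  have a2 := (length_vgrid (usg β) (c * (I.length + n0 + 1))
      (3 * (c * (I.length + n0 + 1))) I).2.1
  have a3 := hC8 I
  have a4 := hsize I
  have a5 := hN I.length
  have a6 := hm I
  have a7 := d02_iter_length terms (prm (I.length + n0)) j (vgrid (usg β)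
    (c * (I.length + n0 + 1)) (3 * (c * (I.length + n0 + 1))) I)
  have a8 : j * (tmax terms * prm (I.length + n0)) ≤
      j * (tmax terms * (2 * (n0 + 1) * (I.length + 1))) :=
    Nat.mul_le_mul_left _ (Nat.mul_le_mul_left _ a1)
  have a9 : (((gmul terms (prm (I.length + n0)))^[j] (vgrid (usg β)
      (c * (I.length + n0 + 1)) (3 * (c * (I.length + n0 + 1))) I)).length + 1) *
      (4 * (c * (I.length + n0 + 1)) + 1) ≤
      ((2 + j * (tmax terms * (2 * (n0 + 1)))) * (I.length + 1)) *
      ((4 * (c * (n0 + 1)) + 1) * (I.length + 1)) := by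
    apply Nat.mul_le_mul
    · have e : (2 + j * (tmax terms * (2 * (n0 + 1)))) * (I.length + 1) =
        j * (tmax terms * (2 * (n0 + 1) * (I.length + 1))) + 2 * I.length + 2 := by ring
      omega
    · have e : (4 * (c * (n0 + 1)) + 1) * (I.length + 1) =
        4 * (c * (n0 + 1) * (I.length + 1)) + I.length + 1 := by ring
      omega
  have e1 : ((2 + j * (tmax terms * (2 * (n0 + 1)))) * (I.length + 1)) *
      ((4 * (c * (n0 + 1)) + 1) * (I.length + 1)) =
    (2 + j * (tmax terms * (2 * (n0 + 1)))) * (4 * (c * (n0 + 1)) + 1) * (I.length + 1) ^ 2 := by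
    ring
  show size I + (I.length + 1) ^ 2 + I.length + (size ((gmul terms (prm (I.length + n0)))^[j]
    (vgrid (usg β) (c * (I.length + n0 + 1)) (3 * (c * (I.length + n0 + 1))) I)) +
    (((gmul terms (prm (I.length + n0)))^[j] (vgrid (usg β)
      (c * (I.length + n0 + 1)) (3 * (c * (I.length + n0 + 1))) I)).length + 1) *
      (4 * (c * (I.length + n0 + 1)) + 1)) ≤ _
  have e2 : (2 * κ3 + 2 + 2 * C8 + (2 + j * (tmax terms * (2 * (n0 + 1)))) *
    (4 * (c * (n0 + 1)) + 1)) * ((I.length + 1) ^ 2 + 1) =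
    2 * (κ3 * (I.length + 1) ^ 2) + 2 * (I.length + 1) ^ 2 +
    C8 * ((I.length + 1) ^ 2 + 1) + C8 * ((I.length + 1) ^ 2 + 1) +
    (2 + j * (tmax terms * (2 * (n0 + 1)))) * (4 * (c * (n0 + 1)) + 1) * (I.length + 1) ^ 2 +
    (2 * κ3 + 2 + (2 + j * (tmax terms * (2 * (n0 + 1)))) * (4 * (c * (n0 + 1)) + 1)) := by ring
  rw [e2]
  omega

end Pool.Agent.WPR
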