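import Pool.Agent.Lib.MP_2da099_lc.R2.I01

/-!
# M06: the number of cells near a path

HINTS.  Let `q = ρ + 1`.  The positions of the path (all positions reached while processing `I`, not only those of
tokens) at the times `0, q, 2q, ...` are at most `I.length / q + 1` points; every position of a token is at
distance `≤ q` from one of them (every instruction moves by at most 1 in each coordinate); so every `c ∈ S` is at
distance `≤ ρ + q = 2 ρ + 1` from one of them; a square of this radius has `(4 ρ + 3) ^ 2` points.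
`(I.length / q + 1) * (4 ρ + 3) ^ 2 ≤ 16 * (I.length + ρ + 1) * (ρ + 1)`.
Induction is easy as well: split `I` into the first `q` instructions and the rest
(`ipos_append`, `ipos_add`), generalised over the start.
`log_sqrt`: `Nat.log 2 (n + 2) * (Nat.sqrt n + 1) ≤ 8 * (n + 1)`, e.g. from `Nat.log 2 m ≤ 2 * sqrt m`-type
inequalities (`2 ^ (k / 2) ≥ k / 2`, `Nat.lt_pow_self`).
-/

set_option autoImplicit false

namespace Pool.Agent.WPR

theorem M06_pos {k : ℕ} (I : List (Ins k)) (c0 : ℤ × ℤ) (x : (ℤ × ℤ) × Fin k)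
    (hx : x ∈ ipos c0 I) : |x.1.1 - c0.1| ≤ I.length ∧ |x.1.2 - c0.2| ≤ I.length := by
  have h1 := ipos_add 0 c0 I
  rw [zero_add] at h1
  rw [h1, List.mem_map] at hx
  obtain ⟨y, hy, rfl⟩ := hx
  have h2 := ipos_bound I y hy
  simpa using h2

theorem M06_box (c0 : ℤ × ℤ) (R : ℕ) (S : Finset (ℤ × ℤ))
    (hS : ∀ c ∈ S, |c.1 - c0.1| ≤ R ∧ |c.2 - c0.2| ≤ R) : S.card ≤ (2 * R + 1) ^ 2 := by
  have h1 : S ⊆ (Finset.Icc (c0.1 - R) (c0.1 + R)) ×ˢ (Finset.Icc (c0.2 - R) (c0.2 + R)) := by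
    intro c hc
    obtain ⟨h2, h3⟩ := hS c hc
    rw [abs_le] at h2 h3
    rw [Finset.mem_product, Finset.mem_Icc, Finset.mem_Icc]
    refine ⟨⟨?_, ?_⟩, ?_, ?_⟩ <;> linarith
  have h2 := Finset.card_le_card h1
  rw [Finset.card_product, Int.card_Icc, Int.card_Icc] at h2
  have h3 : (c0.1 + R + 1 - (c0.1 - R)).toNat = 2 * R + 1 := by omega
  have h4 : (c0.2 + R + 1 - (c0.2 - R)).toNat = 2 * R + 1 := by omega
  rw [h3, h4] at h2
  rw [pow_two]
  exact h2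

theorem M06_aux {k : ℕ} (ρ : ℕ) : ∀ (L : ℕ) (I : List (Ins k)), I.length = L →
    ∀ (c0 : ℤ × ℤ) (S : Finset (ℤ × ℤ)),
    (∀ c ∈ S, ∃ x ∈ ipos c0 I, |c.1 - x.1.1| ≤ ρ ∧ |c.2 - x.1.2| ≤ ρ) →
    S.card ≤ (L / (ρ + 1) + 1) * (4 * ρ + 3) ^ 2 := by
  classical
  intro L
  induction L using Nat.strong_induction_on with
  | _ L ih =>
  intro I hI c0 S hS
  by_cases hL : L < ρ + 1
  · have h1 : L / (ρ + 1) = 0 := Nat.div_eq_of_lt hL
    rw [h1, zero_add, one_mul]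
    have h2 := M06_box c0 (2 * ρ + 1) S (by
      intro c hc
      obtain ⟨x, hx, h3, h4⟩ := hS c hc
      obtain ⟨h5, h6⟩ := M06_pos I c0 x hx
      rw [hI] at h5 h6
      have hLz : (L : ℤ) < ρ + 1 := by exact_mod_cast hL
      rw [abs_le] at h3 h4 h5 h6
      rw [abs_le, abs_le]
      push_cast
      refine ⟨⟨?_, ?_⟩, ?_, ?_⟩ <;> linarith)
    have h3 : 2 * (2 * ρ + 1) + 1 = 4 * ρ + 3 := by ring
    rw [h3] at h2
    exact h2
  push Not at hL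
  set J := I.take (ρ + 1) with hJ
  set K := I.drop (ρ + 1) with hK
  have hIJK : I = J ++ K := (List.take_append_drop (ρ + 1) I).symm
  have hJl : J.length = ρ + 1 := by
    rw [hJ, List.length_take, hI]
    exact min_eq_left hL
  have hKl : K.length = L - (ρ + 1) := by
    rw [hK, List.length_drop, hI]
  set S1 := S.filter (fun c => ∃ x ∈ ipos c0 J, |c.1 - x.1.1| ≤ ρ ∧ |c.2 - x.1.2| ≤ ρ) with hS1
  set S2 := S.filter (fun c => ∃ x ∈ ipos (endp c0 J) K, |c.1 - x.1.1| ≤ ρ ∧ |c.2 - x.1.2| ≤ ρ)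
    with hS2
  have hsub : S ⊆ S1 ∪ S2 := by
    intro c hc
    obtain ⟨x, hx, h3⟩ := hS c hc
    rw [hIJK, ipos_append, List.mem_append] at hx
    rw [Finset.mem_union]
    rcases hx with hx | hx
    · exact Or.inl (Finset.mem_filter.2 ⟨hc, x, hx, h3⟩)
    · exact Or.inr (Finset.mem_filter.2 ⟨hc, x, hx, h3⟩)
  have h1 : S1.card ≤ (4 * ρ + 3) ^ 2 := by
    have h2 := M06_box c0 (2 * ρ + 1) S1 (by
      intro c hc
      obtain ⟨_, x, hx, h3, h4⟩ := Finset.mem_filter.1 hc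
      obtain ⟨h5, h6⟩ := M06_pos J c0 x hx
      rw [hJl] at h5 h6
      push_cast at h5 h6
      rw [abs_le] at h3 h4 h5 h6
      rw [abs_le, abs_le]
      push_cast
      refine ⟨⟨?_, ?_⟩, ?_, ?_⟩ <;> linarith)
    have h3 : 2 * (2 * ρ + 1) + 1 = 4 * ρ + 3 := by ring
    rw [h3] at h2
    exact h2
  have h2 : S2.card ≤ ((L - (ρ + 1)) / (ρ + 1) + 1) * (4 * ρ + 3) ^ 2 :=
    ih (L - (ρ + 1)) (by omega) K hKl (endp c0 J) S2
      (fun c hc => (Finset.mem_filter.1 hc).2)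
  have h3 : L / (ρ + 1) = (L - (ρ + 1)) / (ρ + 1) + 1 := by
    have h4 : L = (L - (ρ + 1)) + (ρ + 1) := by omega
    conv_lhs => rw [h4]
    exact Nat.add_div_right _ (by omega)
  rw [h3]
  calc S.card ≤ (S1 ∪ S2).card := Finset.card_le_card hsub
    _ ≤ S1.card + S2.card := Finset.card_union_le _ _
    _ ≤ (4 * ρ + 3) ^ 2 + ((L - (ρ + 1)) / (ρ + 1) + 1) * (4 * ρ + 3) ^ 2 := Nat.add_le_add h1 h2
    _ = ((L - (ρ + 1)) / (ρ + 1) + 1 + 1) * (4 * ρ + 3) ^ 2 := by ring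

theorem nbhd_card {k : ℕ} (I : List (Ins k)) (ρ : ℕ) (S : Finset (ℤ × ℤ))
    (hS : ∀ c ∈ S, ∃ x ∈ ipos 0 I, |c.1 - x.1.1| ≤ ρ ∧ |c.2 - x.1.2| ≤ ρ) :
    S.card ≤ 16 * (I.length + ρ + 1) * (ρ + 1) := by
  have h1 := M06_aux ρ I.length I rfl 0 S hS
  refine h1.trans ?_
  have h2 : (4 * ρ + 3) ^ 2 ≤ 16 * (ρ + 1) ^ 2 := by
    have h0 : 16 * (ρ + 1) ^ 2 = (4 * ρ + 4) ^ 2 := by ring
    rw [h0]
    exact Nat.pow_le_pow_left (by omega) 2
  have h3 : (ρ + 1) * (I.length / (ρ + 1)) ≤ I.length := Nat.mul_div_le _ _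
  calc (I.length / (ρ + 1) + 1) * (4 * ρ + 3) ^ 2
      ≤ (I.length / (ρ + 1) + 1) * (16 * (ρ + 1) ^ 2) := Nat.mul_le_mul_left _ h2
    _ = 16 * ((ρ + 1) * (I.length / (ρ + 1)) + (ρ + 1)) * (ρ + 1) := by ring
    _ ≤ 16 * (I.length + (ρ + 1)) * (ρ + 1) := by
        refine Nat.mul_le_mul_right _ (Nat.mul_le_mul_left _ ?_)
        exact Nat.add_le_add_right h3 _
    _ = 16 * (I.length + ρ + 1) * (ρ + 1) := by ring

theorem log_sqrt : ∃ C : ℕ, ∀ n : ℕ, (Nat.log 2 (n + 2) + 1) * (Nat.sqrt n + 1) ≤ C * (n + 1) := by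
  refine ⟨12, fun n => ?_⟩
  set s := Nat.sqrt n with hs
  set k := Nat.log 2 (n + 2) with hk
  have h1 : n < (s + 1) * (s + 1) := Nat.lt_succ_sqrt n
  have h2 : s * s ≤ n := Nat.sqrt_le n
  have h3 : 2 ^ k ≤ n + 2 := Nat.pow_log_le_self 2 (by omega)
  have h4 : 2 ^ (2 * (k / 2)) ≤ 2 ^ k := Nat.pow_le_pow_right (by norm_num) (by omega)
  have h5 : (2 ^ (k / 2)) ^ 2 ≤ (2 * (s + 1)) ^ 2 := by
    rw [← pow_mul, mul_comm (k / 2) 2]
    have : n + 2 ≤ (2 * (s + 1)) ^ 2 := by nlinarith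
    omega
  have h6 : 2 ^ (k / 2) ≤ 2 * (s + 1) := by
    by_contra h
    push Not at h
    have := Nat.pow_lt_pow_left h (n := 2) (by norm_num)
    omega
  have h7 : k / 2 < 2 ^ (k / 2) := Nat.lt_two_pow_self
  have h8 : k + 1 ≤ 4 * (s + 1) := by omega
  have h9 : s ≤ s * s := by nlinarith
  calc (k + 1) * (s + 1) ≤ (4 * (s + 1)) * (s + 1) := Nat.mul_le_mul_right _ h8
    _ ≤ 12 * (n + 1) := by nlinarith

end Pool.Agent.WPR
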