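import Pool.Agent.Lib.MP_2da099_lc.R2.M05
import Pool.Agent.Lib.MP_2da099_lc.R2.M06
import Pool.Agent.Lib.MP_2da099_lc.R2.N01
import Pool.Agent.Lib.MP_2da099_lc.R2.P09
import Pool.Agent.Lib.MP_2da099_lc.R2.P10

/-!
# D03: the total size of the quotient

HINTS.  Let `T = (dil p h) ^ j * G`, `p = prm (n + n0)`, `F = spoly I = h * G`.  The rows of symbols contain the
coefficients of `T` (up to the translation `(x0, y0)`).  By `quot_small` (with `norm1_spoly`, `ipos_bound`,
`spoly_support`) every nonzero coefficient of `T` lies at distance `≤ C p` from a token position, so there are at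
most `16 (n + C p + 1)(C p + 1) = O((n + 1) (sqrt n + 1))` of them (`nbhd_card`, `prm_le`; `sqrt (n + n0) ≤
sqrt n + sqrt n0 + 1`), each of size at most `C' * (log2 (n + 2) + 1)` (`size_zb_log`).  All other entries are `0`
and have a constant size.  So the total size is at most
`κ * (rows + 1) * (L + 1) + O((n + 1) (sqrt n + 1)(log2 (n + 2) + 1)) = O((n + 1) ^ 2)` (`log_sqrt`).
For the sum over the cells: `size` of a list of lists = sum over the cells of (size + 1) + rows + 1; write the sum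
as a `Finset` sum over `range rows ×ˢ range L` and split into zero and nonzero entries; the nonzero ones inject
into the support of `T`.
-/

set_option autoImplicit false

namespace Pool.Agent.WPR

open Pool.Agent.Lib.PolyTime Pool.Agent.WPM Function

theorem d03_size_list {α : Type} [Enc α] (d : α) (l : List α) :
    size l = 1 + ∑ t ∈ Finset.range l.length, (size (l.getD t d) + 1) := by
  induction l with
  | nil => simp
  | cons a l ih =>
    rw [size_cons, List.length_cons, Finset.sum_range_succ', ih]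
    have e : ∀ t, (a :: l).getD (t + 1) d = l.getD t d := fun t => rfl
    have e0 : (a :: l).getD 0 d = a := rfl
    simp only [e, e0]
    omega

theorem d03_sqrt (a b : ℕ) : Nat.sqrt (a + b) ≤ Nat.sqrt a + Nat.sqrt b + 1 := by
  have h1 := Nat.lt_succ_sqrt' a
  have h2 := Nat.lt_succ_sqrt' b
  have h3 : Nat.sqrt (a + b) < Nat.sqrt a + Nat.sqrt b + 2 := by
    rw [Nat.sqrt_lt']
    simp only [Nat.succ_eq_add_one] at h1 h2
    nlinarith [Nat.zero_le (Nat.sqrt a), Nat.zero_le (Nat.sqrt b)]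
  omega

theorem d03_log (C n : ℕ) : Nat.log 2 (C * (n + 1) ^ C) ≤ 2 * C * (Nat.log 2 (n + 2) + 1) := by
  have h1 : n + 1 ≤ 2 ^ (Nat.log 2 (n + 2) + 1) := by
    have := Nat.lt_pow_succ_log_self Nat.one_lt_two (n + 2)
    simp only [Nat.succ_eq_add_one] at this
    omega
  have h2 : C ≤ 2 ^ C := Nat.lt_two_pow_self.le
  have h3 : C * (n + 1) ^ C ≤ 2 ^ (C + (Nat.log 2 (n + 2) + 1) * C) := by
    rw [pow_add, pow_mul]
    exact Nat.mul_le_mul h2 (Nat.pow_le_pow_left h1 C)
  have h4 := Nat.log_mono_right (b := 2) h3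
  rw [Nat.log_pow Nat.one_lt_two] at h4
  refine h4.trans ?_
  have e : 2 * C * (Nat.log 2 (n + 2) + 1) = C + (Nat.log 2 (n + 2) + 1) * C +
    C * Nat.log 2 (n + 2) := by ring
  omega

/-- the size of a rectangular grid with few nonzero entries -/
theorem d03_size_grid {β : ℕ} [Fact (2 ≤ β)] (g : List (List (ZB β))) (L M : ℕ)
    (hg : ∀ r ∈ g, r.length = L)
    (hM : ∀ s t : ℕ, s < g.length → t < L → size ((g.getD s []).getD t 0) ≤ M) :
    size g ≤ 1 + g.length * (2 + L * (size (0 : ZB β) + 1)) +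
      ((Finset.range g.length ×ˢ Finset.range L).filter
        (fun x => (g.getD x.1 []).getD x.2 0 ≠ 0)).card * M := by
  classical
  have h1 : ∀ s ∈ Finset.range g.length, size (g.getD s []) + 1 ≤
      (2 + L * (size (0 : ZB β) + 1)) +
        ∑ t ∈ Finset.range L, (if (g.getD s []).getD t 0 ≠ 0 then M else 0) := by
    intro s hs
    rw [Finset.mem_range] at hs
    have h2 : (g.getD s []).length = L := by
      rw [List.getD_eq_getElem _ _ hs]
      exact hg _ (List.getElem_mem hs)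
    rw [d03_size_list (0 : ZB β) (g.getD s []), h2]
    have h3 : ∑ t ∈ Finset.range L, (size ((g.getD s []).getD t 0) + 1) ≤
        ∑ t ∈ Finset.range L, ((size (0 : ZB β) + 1) +
          (if (g.getD s []).getD t 0 ≠ 0 then M else 0)) := by
      apply Finset.sum_le_sum
      intro t ht
      rw [Finset.mem_range] at ht
      have h4 := hM s t hs ht
      by_cases h5 : (g.getD s []).getD t 0 = 0
      · rw [h5]
        omega
      · rw [if_pos h5]
        omega
    have e1 : ∑ t ∈ Finset.range L, ((size (0 : ZB β) + 1) +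
          (if (g.getD s []).getD t 0 ≠ 0 then M else 0)) = L * (size (0 : ZB β) + 1) +
        ∑ t ∈ Finset.range L, (if (g.getD s []).getD t 0 ≠ 0 then M else 0) := by
      rw [Finset.sum_add_distrib, Finset.sum_const, Finset.card_range, smul_eq_mul]
    rw [e1] at h3
    omega
  rw [d03_size_list ([] : List (ZB β)) g]
  have h2 := Finset.sum_le_sum h1
  have e2 : ∑ s ∈ Finset.range g.length, ((2 + L * (size (0 : ZB β) + 1)) +
        ∑ t ∈ Finset.range L, (if (g.getD s []).getD t 0 ≠ 0 then M else 0)) =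
      g.length * (2 + L * (size (0 : ZB β) + 1)) + ∑ s ∈ Finset.range g.length,
        ∑ t ∈ Finset.range L, (if (g.getD s []).getD t 0 ≠ 0 then M else 0) := by
    rw [Finset.sum_add_distrib, Finset.sum_const, Finset.card_range, smul_eq_mul]
  rw [e2] at h2
  have h3 : ∑ s ∈ Finset.range g.length, ∑ t ∈ Finset.range L,
      (if (g.getD s []).getD t 0 ≠ 0 then M else 0) =
      ((Finset.range g.length ×ˢ Finset.range L).filter
        (fun x => (g.getD x.1 []).getD x.2 0 ≠ 0)).card * M := by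
    rw [← Finset.sum_product', ← Finset.sum_filter, Finset.sum_const, smul_eq_mul]
  rw [h3] at h2
  omega

theorem size_quot (β : ℕ) [Fact (2 ≤ β)] (h : L2) (j n0 C : ℕ)
    (hq : ∀ (n p : ℕ) (F G : L2), p.Prime →
      n + n0 < p * p → norm1 F ≤ n → (∀ c ∈ F.coeff.support, |c.1| ≤ n ∧ |c.2| ≤ n) →
      F = h * G → ∀ c : ℤ × ℤ,
      (((dil p h) ^ j * G).coeff c ≠ 0 → ∃ a ∈ F.coeff.support, |c.1 - a.1| ≤ C * p ∧
        |c.2 - a.2| ≤ C * p) ∧
      (((dil p h) ^ j * G).coeff c).natAbs ≤ C * (n + 1) ^ C) (c1 : ℕ) :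
    ∃ C' : ℕ, ∀ (I : List (Ins 2)) (G : L2) (g : List (List (ZB β))) (x0 y0 : ℤ) (L : ℕ),
      spoly I = h * G → g.length ≤ c1 * (I.length + 1) → L ≤ c1 * (I.length + 1) →
      (∀ r ∈ g, r.length = L) →
      (∀ s t : ℕ, s < g.length → t < L → ((g.getD s []).getD t 0).val =
        ((dil (prm (I.length + n0)) h) ^ j * G).coeff ((t : ℤ) - x0, (s : ℤ) - y0)) →
      size g ≤ C' * (I.length + 1) ^ 2 := by
  classical
  obtain ⟨C1, hC1⟩ := size_zb_log β
  obtain ⟨C5, hC5⟩ := log_sqrt
  set b := Nat.sqrt n0 with hb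
  refine ⟨1 + 2 * c1 + c1 * c1 * (size (0 : ZB β) + 1) +
    16 * (2 * C * (b + 2) + 2) * (2 * C * (b + 2) + 1) * (C1 * (2 * C + 1)) * C5,
    fun I G g x0 y0 L hI hlen hL hrow hval => ?_⟩
  set n := I.length with hn
  set p := prm (n + n0) with hp
  set T := (dil p h) ^ j * G with hT
  have hqq := hq n p (spoly I) G (prm_prime _) (lt_prm_sq _) (norm1_spoly I) (fun c hc => by
    obtain ⟨x, hx, hxc⟩ := spoly_support I c hc
    have := ipos_bound I x hx
    rwa [hxc] at this) hI
  -- the sizes of the entries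
  set l := Nat.log 2 (n + 2) with hl
  have hM : ∀ s t : ℕ, s < g.length → t < L →
      size ((g.getD s []).getD t 0) ≤ C1 * (2 * C + 1) * (l + 1) := by
    intro s t hs ht
    have h1 := hC1 ((g.getD s []).getD t 0)
    rw [hval s t hs ht] at h1
    have h2 := (hqq ((t : ℤ) - x0, (s : ℤ) - y0)).2
    have h3 : Nat.log 2 (T.coeff ((t : ℤ) - x0, (s : ℤ) - y0)).natAbs ≤ 2 * C * (l + 1) :=
      (Nat.log_mono_right (b := 2) h2).trans (d03_log C n)
    refine h1.trans ?_
    rw [Nat.mul_assoc]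
    apply Nat.mul_le_mul_left
    have e : (2 * C + 1) * (l + 1) = 2 * C * (l + 1) + l + 1 := by ring
    omega
  have hsz := d03_size_grid g L _ hrow hM
  -- the number of nonzero entries
  set S := (Finset.range g.length ×ˢ Finset.range L).filter
        (fun x => (g.getD x.1 []).getD x.2 0 ≠ 0) with hS
  have hcard : S.card ≤ 16 * (n + C * p + 1) * (C * p + 1) := by
    have h1 : Function.Injective (fun x : ℕ × ℕ => (((x.2 : ℤ) - x0, (x.1 : ℤ) - y0) : ℤ × ℤ)) := by
      intro x y hxy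
      simp only [Prod.mk.injEq] at hxy
      ext
      · omega
      · omega
    rw [← Finset.card_image_of_injective S h1]
    apply nbhd_card I
    intro c hc
    rw [Finset.mem_image] at hc
    obtain ⟨x, hx, hxc⟩ := hc
    rw [hS, Finset.mem_filter, Finset.mem_product, Finset.mem_range, Finset.mem_range] at hx
    have h2 : T.coeff c ≠ 0 := by
      rw [← hxc, ← hval _ _ hx.1.1 hx.1.2]
      exact hx.2
    obtain ⟨a, ha, ha1, ha2⟩ := (hqq c).1 h2
    obtain ⟨y, hy, hya⟩ := spoly_support I a ha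
    refine ⟨y, hy, ?_, ?_⟩
    · rw [hya]
      push_cast
      exact ha1
    · rw [hya]
      push_cast
      exact ha2
  -- arithmetic
  set a := Nat.sqrt n with ha
  have hpa : p ≤ 2 * (a + b + 2) := by
    have h1 := prm_le (n + n0)
    have h2 := d03_sqrt n n0
    rw [← ha, ← hb] at h2
    rw [← hp] at h1
    omega
  have han : a ≤ n := Nat.sqrt_le_self n
  have hCp : C * p + 1 ≤ (2 * C * (b + 2) + 1) * (a + 1) := by
    have h1 : C * p ≤ C * (2 * (a + b + 2)) := Nat.mul_le_mul_left _ hpa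
    have e : (2 * C * (b + 2) + 1) * (a + 1) = C * (2 * (a + b + 2)) + 2 * C * (b * a) +
      2 * C * a + a + 1 := by ring
    omega
  have hCp2 : n + C * p + 1 ≤ (2 * C * (b + 2) + 2) * (n + 1) := by
    have h1 : (2 * C * (b + 2) + 1) * (a + 1) ≤ (2 * C * (b + 2) + 1) * (n + 1) :=
      Nat.mul_le_mul_left _ (by omega)
    have e : (2 * C * (b + 2) + 2) * (n + 1) = (2 * C * (b + 2) + 1) * (n + 1) + n + 1 := by ring
    omega
  have h5 := hC5 n
  have h6 : S.card * (C1 * (2 * C + 1) * (l + 1)) ≤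
      16 * (2 * C * (b + 2) + 2) * (2 * C * (b + 2) + 1) * (C1 * (2 * C + 1)) * C5 *
        (n + 1) ^ 2 := by
    calc S.card * (C1 * (2 * C + 1) * (l + 1))
        ≤ (16 * (n + C * p + 1) * (C * p + 1)) * (C1 * (2 * C + 1) * (l + 1)) :=
          Nat.mul_le_mul_right _ hcard
      _ ≤ (16 * ((2 * C * (b + 2) + 2) * (n + 1)) * ((2 * C * (b + 2) + 1) * (a + 1))) *
          (C1 * (2 * C + 1) * (l + 1)) :=
          Nat.mul_le_mul_right _ (Nat.mul_le_mul (Nat.mul_le_mul_left _ hCp2) hCp)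
      _ = 16 * (2 * C * (b + 2) + 2) * (2 * C * (b + 2) + 1) * (C1 * (2 * C + 1)) * (n + 1) *
          ((l + 1) * (a + 1)) := by ring
      _ ≤ 16 * (2 * C * (b + 2) + 2) * (2 * C * (b + 2) + 1) * (C1 * (2 * C + 1)) * (n + 1) *
          (C5 * (n + 1)) := Nat.mul_le_mul_left _ h5
      _ = _ := by ring
  have h7 : g.length * (2 + L * (size (0 : ZB β) + 1)) ≤
      (2 * c1 + c1 * c1 * (size (0 : ZB β) + 1)) * (n + 1) ^ 2 := by
    have a1 : g.length * 2 ≤ 2 * c1 * (n + 1) ^ 2 := by
      have : c1 * (n + 1) ≤ c1 * (n + 1) ^ 2 := Nat.mul_le_mul_left _ (by nlinarith)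
      have e : 2 * c1 * (n + 1) ^ 2 = 2 * (c1 * (n + 1) ^ 2) := by ring
      omega
    have a2 : g.length * L ≤ (c1 * (n + 1)) * (c1 * (n + 1)) := Nat.mul_le_mul hlen hL
    have a3 : g.length * (L * (size (0 : ZB β) + 1)) ≤
        c1 * c1 * (size (0 : ZB β) + 1) * (n + 1) ^ 2 := by
      calc g.length * (L * (size (0 : ZB β) + 1)) = (g.length * L) * (size (0 : ZB β) + 1) := by
            ring
        _ ≤ ((c1 * (n + 1)) * (c1 * (n + 1))) * (size (0 : ZB β) + 1) :=
            Nat.mul_le_mul_right _ a2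
        _ = _ := by ring
    calc g.length * (2 + L * (size (0 : ZB β) + 1)) =
        g.length * 2 + g.length * (L * (size (0 : ZB β) + 1)) := by ring
      _ ≤ 2 * c1 * (n + 1) ^ 2 + c1 * c1 * (size (0 : ZB β) + 1) * (n + 1) ^ 2 :=
          Nat.add_le_add a1 a3
      _ = _ := by ring
  have h8 : 1 ≤ (n + 1) ^ 2 := Nat.one_le_pow _ _ (by omega)
  calc size g ≤ _ := hsz
    _ ≤ (n + 1) ^ 2 + (2 * c1 + c1 * c1 * (size (0 : ZB β) + 1)) * (n + 1) ^ 2 +
        16 * (2 * C * (b + 2) + 2) * (2 * C * (b + 2) + 1) * (C1 * (2 * C + 1)) * C5 *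
        (n + 1) ^ 2 := Nat.add_le_add (Nat.add_le_add h8 h7) h6
    _ = _ := by ring

end Pool.Agent.WPR
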