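import Pool.Agent.Lib.MP_2da099_lc.R2.Defs
import Mathlib.Data.Int.GCD

/-!
# NB02: an edge of a finite set

HINTS.  `exists_unimodular`: for coprime integers `x, y` there is an automorphism `A` of `ℤ × ℤ` with
`(A c).1 = x * c.1 + y * c.2`: `A c = (x c.1 + y c.2, -v c.1 + u c.2)` with `u x + v y = 1` (Bezout; inverse
`(a, b) ↦ (u a - y b, v a + x b)`).
`exists_edge`: take `p0 ∈ S` minimal for the lexicographic order (`c.1` first, then `c.2`).  If another point of `S`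
has the same first coordinate: `A = id`; not all points have the same first coordinate, because `S` is not flat
(use the swap as `A` in the hypothesis).  Otherwise all other points have `c.1 > p0.1`; take `p1 ∈ S \ {p0}` with
minimal slope `(p1.2 - p0.2) / (p1.1 - p0.1)` (rational numbers), then
`λ(c) = (c.2 - p0.2)(p1.1 - p0.1) - (c.1 - p0.1)(p1.2 - p0.2) ≥ 0` on `S`, with equality for `p0, p1`.  Divide by the
gcd of the two numbers to get a functional `x c.1 + y c.2` with coprime `x, y`, `exists_unimodular`.  If it were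
constant on `S` then `S` would be flat (again with the swap).
-/

set_option autoImplicit false

namespace Pool.Agent.WPR

/-- all points are in one row after an automorphism -/
def Flat (S : Finset (ℤ × ℤ)) : Prop :=
  ∃ A : (ℤ × ℤ) ≃+ (ℤ × ℤ), ∀ c ∈ S, ∀ c' ∈ S, (A c).2 = (A c').2

theorem exists_unimodular (x y : ℤ) (h : IsCoprime x y) :
    ∃ A : (ℤ × ℤ) ≃+ (ℤ × ℤ), ∀ c, (A c).1 = x * c.1 + y * c.2 := by
  obtain ⟨u, v, huv⟩ := h
  refine ⟨{ toFun := fun c => (x * c.1 + y * c.2, -v * c.1 + u * c.2)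
            invFun := fun c => (u * c.1 - y * c.2, v * c.1 + x * c.2)
            left_inv := ?_
            right_inv := ?_
            map_add' := ?_ }, fun c => rfl⟩
  · rintro ⟨a, b⟩
    simp only [Prod.mk.injEq]
    constructor
    · linear_combination a * huv
    · linear_combination b * huv
  · rintro ⟨a, b⟩
    simp only [Prod.mk.injEq]
    constructor
    · linear_combination a * huv
    · linear_combination b * huv
  · rintro ⟨a, b⟩ ⟨a', b'⟩
    simp only [Prod.mk_add_mk, Prod.mk.injEq]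
    constructor <;> ring

theorem NB02_swap (S : Finset (ℤ × ℤ)) (hS : ¬ Flat S) (A : (ℤ × ℤ) ≃+ (ℤ × ℤ)) (v : ℤ) :
    ∃ c ∈ S, (A c).1 ≠ v := by
  by_contra hcon
  push Not at hcon
  apply hS
  refine ⟨A.trans (AddEquiv.prodComm), fun c hc c' hc' => ?_⟩
  show (A c).1 = (A c').1
  rw [hcon c hc, hcon c' hc']

theorem exists_edge (S : Finset (ℤ × ℤ)) (hS : ¬ Flat S) :
    ∃ (A : (ℤ × ℤ) ≃+ (ℤ × ℤ)) (v : ℤ), (∀ c ∈ S, v ≤ (A c).1) ∧
      (∃ c ∈ S, ∃ c' ∈ S, c ≠ c' ∧ (A c).1 = v ∧ (A c').1 = v) ∧ ∃ c ∈ S, (A c).1 ≠ v := by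
  classical
  suffices h : ∃ (A : (ℤ × ℤ) ≃+ (ℤ × ℤ)) (v : ℤ), (∀ c ∈ S, v ≤ (A c).1) ∧
      (∃ c ∈ S, ∃ c' ∈ S, c ≠ c' ∧ (A c).1 = v ∧ (A c').1 = v) by
    obtain ⟨A, v, h1, h2⟩ := h
    exact ⟨A, v, h1, h2, NB02_swap S hS A v⟩
  obtain ⟨c0, hc0, -⟩ := NB02_swap S hS (AddEquiv.refl _) 0
  obtain ⟨p0, hp0, hmin⟩ := Finset.exists_min_image S (fun c => c.1) ⟨c0, hc0⟩
  by_cases h1 : ∃ c ∈ S, c ≠ p0 ∧ c.1 = p0.1
  · obtain ⟨c, hc, hcp, hc1⟩ := h1
    exact ⟨AddEquiv.refl _, p0.1, fun c hc => hmin c hc, c, hc, p0, hp0, hcp, hc1, rfl⟩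
  push Not at h1
  have h2 : ∀ c ∈ S, c ≠ p0 → 0 < c.1 - p0.1 := by
    intro c hc hne
    have h3 := hmin c hc
    have h4 := h1 c hc hne
    have h5 : p0.1 ≤ c.1 := h3
    omega
  obtain ⟨d, hd, hd1⟩ := NB02_swap S hS (AddEquiv.refl _) p0.1
  have hdp : d ≠ p0 := by
    rintro rfl
    exact hd1 rfl
  obtain ⟨p1, hp1, hmin1⟩ := Finset.exists_min_image (S.erase p0)
    (fun c => ((c.2 - p0.2 : ℤ) : ℚ) / ((c.1 - p0.1 : ℤ) : ℚ)) ⟨d, Finset.mem_erase.2 ⟨hdp, hd⟩⟩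
  obtain ⟨hp1p, hp1S⟩ := Finset.mem_erase.1 hp1
  have ha := h2 p1 hp1S hp1p
  set a := p1.1 - p0.1 with hadef
  set b := p1.2 - p0.2 with hbdef
  have hlam : ∀ c ∈ S, 0 ≤ (c.2 - p0.2) * a - (c.1 - p0.1) * b := by
    intro c hc
    by_cases hcp : c = p0
    · subst hcp
      simp
    have h3 := hmin1 c (Finset.mem_erase.2 ⟨hcp, hc⟩)
    have h4 := h2 c hc hcp
    have h5 : (0 : ℚ) < ((c.1 - p0.1 : ℤ) : ℚ) := by exact_mod_cast h4
    have h6 : (0 : ℚ) < (a : ℚ) := by exact_mod_cast ha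
    rw [div_le_div_iff₀ h6 h5] at h3
    have h7 : b * (c.1 - p0.1) ≤ (c.2 - p0.2) * a := by exact_mod_cast h3
    linarith
  have hg : 0 < (Int.gcd a b : ℤ) := by
    have : 0 < Int.gcd a b := Int.gcd_pos_of_ne_zero_left b (ne_of_gt ha)
    exact_mod_cast this
  obtain ⟨a', ha'⟩ : ((Int.gcd a b : ℕ) : ℤ) ∣ a := Int.gcd_dvd_left a b
  obtain ⟨b', hb'⟩ : ((Int.gcd a b : ℕ) : ℤ) ∣ b := Int.gcd_dvd_right a b
  set g : ℤ := ((Int.gcd a b : ℕ) : ℤ) with hgdef
  have hcop : IsCoprime (-b') a' := by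
    have h3 := Int.gcd_eq_gcd_ab a b
    rw [← hgdef] at h3
    refine ⟨-(Int.gcdB a b), Int.gcdA a b, ?_⟩
    have h4 : g * (-(Int.gcdB a b) * -b' + Int.gcdA a b * a') = g * 1 := by
      rw [mul_one]
      have h5 : g = a * Int.gcdA a b + b * Int.gcdB a b := h3
      calc g * (-(Int.gcdB a b) * -b' + Int.gcdA a b * a')
          = (g * a') * Int.gcdA a b + (g * b') * Int.gcdB a b := by ring
        _ = a * Int.gcdA a b + b * Int.gcdB a b := by rw [← ha', ← hb']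
        _ = g := h5.symm
    exact mul_left_cancel₀ (ne_of_gt hg) h4
  obtain ⟨A, hA⟩ := exists_unimodular (-b') a' hcop
  have hkey : ∀ c, g * ((A c).1 - (-b' * p0.1 + a' * p0.2)) =
      (c.2 - p0.2) * a - (c.1 - p0.1) * b := by
    intro c
    rw [hA, ha', hb']
    ring
  refine ⟨A, -b' * p0.1 + a' * p0.2, ?_, p0, hp0, p1, hp1S, hp1p.symm, hA p0, ?_⟩
  · intro c hc
    have h3 := hlam c hc
    rw [← hkey] at h3
    have h4 := nonneg_of_mul_nonneg_right h3 hg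
    linarith
  · have h3 := hkey p1
    have h4 : (p1.2 - p0.2) * a - (p1.1 - p0.1) * b = 0 := by
      rw [← hadef, ← hbdef]
      ring
    rw [h4] at h3
    rcases mul_eq_zero.1 h3 with h5 | h5
    · exact absurd h5 (ne_of_gt hg)
    · linarith

end Pool.Agent.WPR
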