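import Pool.Agent.Lib.MP_2da099_lc.R2.NB01
import Pool.Agent.Lib.MP_2da099_lc.R2.NB02
import Pool.Agent.Lib.MP_2da099_lc.R2.M03
import Mathlib.RingTheory.Polynomial.GaussLemma
import Mathlib.FieldTheory.Minpoly.IsIntegrallyClosed
import Mathlib.Algebra.MonoidAlgebra.NoZeroDivisors
import Mathlib.RingTheory.Localization.Integral

/-!
# NB03: no divisibility after a dilation

HINTS.  Let `A, v` be as in `exists_edge` for the support of `f`.  `f' = mm w * act A f` with `w` such that the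
exponents of `f'` are nonnegative, the smallest first coordinate is `0` and the smallest second coordinate is
`0`; `f' = emb2 P` (`exists_poly`-style, `emb2_coeff`), `P.coeff 0 ≠ 0` has at least two monomials, so it has a
nonzero root `α ∈ ℂ` (after removing a power of `Y` it is not constant).  `P.coeff i ≠ 0` for some `i ≥ 1`, and not
all coefficients `P.coeff i` are divisible by `Y`.
(1) `C (X - C α) ∤ P` over `ℂ`: otherwise all `P.coeff i ∈ ℤ[Y]` vanish at `α`, `α` is algebraic, let `g ∈ ℤ[Y]` be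
the primitive polynomial proportional to its minimal polynomial over `ℚ`; by Gauss `g ∣ P.coeff i` for all `i`, so
`embY g ∣ emb2 P = f'`, and `f'` is prime, so `f'` divides `embY g` or is `embY g` times a unit...: write
`f' = embY g * k`; then `f' ∣ embY g` (impossible: look at the first coordinate of the exponents: those of the
multiples of `f'` have at least two different values, `f'` has terms with first coordinate `0` and `≥ 1`, use
extreme columns as in `quot_supp`) or `f' ∣ k`, `k = f' k'`, `1 = embY g * k'`, so `embY g` is a unit, a monomial up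
to sign; but `g(α) = 0`, `α ≠ 0`.
(2) Suppose `f ∣ dil N f`.  `act A (dil N f) = dil N (act A f)`, `dil N (mm w) = mm (N w)`, so
`f' ∣ dil N f' = emb2 (dilC ℤ N P)` in `L2`; multiply the quotient by a monomial: `X ^ a Y ^ b dilC N P = P * Q` in
`ℤ[Y][X]`, then over `ℂ` (`Polynomial.map`).  `X` and `Y` are primes of `ℂ[Y][X]` not dividing `P`, so
`P ∣ dilC ℂ N P`: contradiction to `local_nb` for `N ≥ N0`.
`nb_dvd` is the consequence that is used: `f ∤ dil p f` prime, so `f ∤ (dil p (f ^ e)) ^ j`, and `f ^ e` divides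
`(dil p (f ^ e * m)) ^ j * F` iff `f ^ e ∣ F` (`Prime.pow_dvd_of_dvd_mul_left`), where `m` is a monomial (a unit).
-/

set_option autoImplicit false

namespace Pool.Agent.WPR

open Polynomial

open Filter Topology Asymptotics in
/-- strong form of `local_nb`: a point of the curve which is moved off the curve -/
theorem nb03_strong (f : Polynomial (Polynomial ℂ)) (α : ℂ) (hα : α ≠ 0) (h0 : f.coeff 0 ≠ 0)
    (hroot : (f.coeff 0).eval α = 0) (h1 : ¬ C (X - C α) ∣ f) :
    ∃ N0 : ℕ, ∀ N, N0 ≤ N → ∃ x y : ℂ, x ≠ 0 ∧ y ≠ 0 ∧ nb01_ev x y f = 0 ∧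
      nb01_ev (x ^ N) (y ^ N) f ≠ 0 := by
  obtain ⟨c, K, δ, hK, hδ, hup⟩ := nb01_upper f α h1
  set μ := (f.coeff 0).natDegree with hμ
  refine ⟨c * μ + 1, ?_⟩
  intro N hN
  have hN0 : N ≠ 0 := by omega
  have hαp : 0 < ‖α‖ := norm_pos_iff.2 hα
  -- lower bound for `f0(y ^ N)`
  have hder : HasDerivAt (fun y : ℂ => y ^ N) ((N : ℂ) * α ^ (N - 1)) α := hasDerivAt_pow N α
  have hder0 : (N : ℂ) * α ^ (N - 1) ≠ 0 :=
    mul_ne_zero (Nat.cast_ne_zero.2 hN0) (pow_ne_zero _ hα)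
  have hlow := nb01_lower hder hder0 (f.coeff 0) h0
  obtain ⟨K2, hK2, hK2'⟩ := hlow.exists_pos
  rw [isBigOWith_iff] at hK2'
  obtain ⟨δ2, hδ2, hδ2'⟩ := Metric.eventually_nhds_iff.1 hK2'
  -- the bound for the other part
  obtain ⟨B, hB0, hB⟩ := nb01_bound f.divX ((‖α‖ + 1) ^ N)
  have hsplit : f = X * f.divX + C (f.coeff 0) := (X_mul_divX_add f).symm
  have hev : ∀ x y : ℂ, nb01_ev x y f = x * nb01_ev x y f.divX + (f.coeff 0).eval y := by
    intro x y
    conv_lhs => rw [hsplit]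
    rw [map_add, map_mul, nb01_ev_C, nb01_ev_X]
  -- the final constant
  set L : ℝ := K ^ μ * (K2 * B) with hL
  have hL0 : 0 ≤ L := by positivity
  set ε : ℝ := min (min (min δ δ2) (min 1 (1 / (L + 1)))) ‖α‖ with hε
  have hεpos : 0 < ε := by positivity
  obtain ⟨x, y, hx0, hx, hy', hf⟩ := nb01_points f α h0 hroot ε hεpos
  have hy0 : y ≠ 0 := by
    intro h
    rw [h, zero_sub, norm_neg] at hy'
    exact absurd (lt_of_lt_of_le hy' (min_le_right _ _)) (lt_irrefl _)
  have hx' : ‖x‖ < min (min δ δ2) (min 1 (1 / (L + 1))) := lt_of_lt_of_le hx (min_le_left _ _)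
  have hy : ‖y - α‖ < min (min δ δ2) (min 1 (1 / (L + 1))) :=
    lt_of_lt_of_le hy' (min_le_left _ _)
  refine ⟨x, y, hx0, hy0, hf, ?_⟩
  intro hdil
  have hxδ : ‖x‖ < δ := lt_of_lt_of_le hx' ((min_le_left _ _).trans (min_le_left _ _))
  have hyδ : ‖y - α‖ < δ := lt_of_lt_of_le hy ((min_le_left _ _).trans (min_le_left _ _))
  have hyδ2 : ‖y - α‖ < δ2 := lt_of_lt_of_le hy ((min_le_left _ _).trans (min_le_right _ _))
  have hx1 : ‖x‖ < 1 := lt_of_lt_of_le hx' ((min_le_right _ _).trans (min_le_left _ _))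
  have hy1 : ‖y - α‖ < 1 := lt_of_lt_of_le hy ((min_le_right _ _).trans (min_le_left _ _))
  have hxL : ‖x‖ < 1 / (L + 1) :=
    lt_of_lt_of_le hx' ((min_le_right _ _).trans (min_le_right _ _))
  have hxp : 0 < ‖x‖ := norm_pos_iff.2 hx0
  have hu := hup x y hxδ hyδ hf
  rw [hev] at hdil
  have hyR : ‖y‖ ≤ ‖α‖ + 1 := by
    have : ‖y‖ ≤ ‖y - α‖ + ‖α‖ := by
      calc ‖y‖ = ‖(y - α) + α‖ := by rw [sub_add_cancel]
        _ ≤ _ := norm_add_le _ _
    linarith
  have hb := hB (x ^ N) (y ^ N) (by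
      rw [norm_pow]
      exact pow_le_pow_left₀ (norm_nonneg _) (by linarith [norm_nonneg α]) N) (by
      rw [norm_pow]
      exact pow_le_pow_left₀ (norm_nonneg _) hyR N)
  have h3 : ‖(f.coeff 0).eval (y ^ N)‖ ≤ ‖x‖ ^ N * B := by
    have h4 : (f.coeff 0).eval (y ^ N) = -(x ^ N * nb01_ev (x ^ N) (y ^ N) f.divX) := by
      linear_combination hdil
    rw [h4, norm_neg, norm_mul, norm_pow]
    exact mul_le_mul_of_nonneg_left hb (by positivity)
  have h5 := hδ2' (y := y) (by rw [dist_eq_norm]; exact hyδ2)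
  rw [norm_pow] at h5
  -- combination
  have h6 : ‖x‖ ^ (c * μ) ≤ L * ‖x‖ ^ N := by
    calc ‖x‖ ^ (c * μ) = (‖x‖ ^ c) ^ μ := pow_mul _ _ _
      _ ≤ (K * ‖y - α‖) ^ μ := pow_le_pow_left₀ (by positivity) hu μ
      _ = K ^ μ * ‖y - α‖ ^ μ := mul_pow _ _ _
      _ ≤ K ^ μ * (K2 * (‖x‖ ^ N * B)) := by
          refine mul_le_mul_of_nonneg_left ?_ (by positivity)
          exact h5.trans (mul_le_mul_of_nonneg_left h3 hK2.le)
      _ = L * ‖x‖ ^ N := by rw [hL]; ring
  have h7 : ‖x‖ ^ N ≤ ‖x‖ ^ (c * μ) * ‖x‖ := by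
    rw [← pow_succ]
    exact pow_le_pow_of_le_one hxp.le hx1.le hN
  have h8 : 0 < ‖x‖ ^ (c * μ) := by positivity
  have h9 : ‖x‖ ^ (c * μ) ≤ ‖x‖ ^ (c * μ) * (L * ‖x‖) := by
    calc ‖x‖ ^ (c * μ) ≤ L * ‖x‖ ^ N := h6
      _ ≤ L * (‖x‖ ^ (c * μ) * ‖x‖) := mul_le_mul_of_nonneg_left h7 hL0
      _ = _ := by ring
  have h10 : 1 ≤ L * ‖x‖ := by
    by_contra hlt
    push Not at hlt
    have := mul_lt_mul_of_pos_left hlt h8
    linarith
  rw [lt_div_iff₀ (by linarith)] at hxL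
  nlinarith

/-! ### Evaluations of Laurent polynomials -/

/-- the character -/
noncomputable def nb03_chi (x y : ℂˣ) : Multiplicative (ℤ × ℤ) →* ℂ where
  toFun v := ((x ^ (Multiplicative.toAdd v).1 * y ^ (Multiplicative.toAdd v).2 : ℂˣ) : ℂ)
  map_one' := by simp
  map_mul' u v := by
    rw [← Units.val_mul]
    congr 1
    rw [toAdd_mul, Prod.fst_add, Prod.snd_add, zpow_add, zpow_add]
    exact mul_mul_mul_comm _ _ _ _

/-- evaluation -/
noncomputable def nb03_ev (x y : ℂˣ) : L2 →+* ℂ :=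
  (AddMonoidAlgebra.lift ℤ ℂ (ℤ × ℤ) (nb03_chi x y)).toRingHom

theorem nb03_ev_mm (x y : ℂˣ) (v : ℤ × ℤ) :
    nb03_ev x y (mm v) = ((x ^ v.1 * y ^ v.2 : ℂˣ) : ℂ) := by
  have h : nb03_ev x y (mm v) = (1 : ℤ) • nb03_chi x y (Multiplicative.ofAdd v) :=
    AddMonoidAlgebra.lift_single _ _ _
  rw [h, one_smul]
  rfl

theorem nb03_ev_mm_ne (x y : ℂˣ) (v : ℤ × ℤ) : nb03_ev x y (mm v) ≠ 0 := by
  rw [nb03_ev_mm]
  exact Units.ne_zero _

theorem nb03_int (r : ℤ) : (AddMonoidAlgebra.single 0 r : L2) = ((r : ℤ) : L2) := rfl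

theorem nb03_dil_mm (N : ℕ) (v : ℤ × ℤ) : dil N (mm v) = mm (N • v) := by
  show AddMonoidAlgebra.mapDomain _ (AddMonoidAlgebra.single v 1) = _
  rw [AddMonoidAlgebra.mapDomain_single]
  rfl

theorem nb03_act_mm (A : (ℤ × ℤ) ≃+ (ℤ × ℤ)) (v : ℤ × ℤ) : act A (mm v) = mm (A v) := by
  show AddMonoidAlgebra.mapDomain _ (AddMonoidAlgebra.single v 1) = _
  rw [AddMonoidAlgebra.mapDomain_single]
  rfl

theorem nb03_ext {S : Type*} [CommRing S] {f g : L2 →+* S} (h : ∀ v, f (mm v) = g (mm v)) :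
    f = g := by
  refine AddMonoidAlgebra.ringHom_ext (fun r => ?_) (fun v => h v)
  rw [nb03_int, map_intCast, map_intCast]

theorem nb03_ev_dil (N : ℕ) (x y : ℂˣ) (f : L2) :
    nb03_ev x y (dil N f) = nb03_ev (x ^ N) (y ^ N) f := by
  have h : (nb03_ev x y).comp (dil N) = nb03_ev (x ^ N) (y ^ N) := by
    refine nb03_ext fun v => ?_
    rw [RingHom.comp_apply, nb03_dil_mm, nb03_ev_mm, nb03_ev_mm]
    congr 1
    have e1 : (N • v).1 = (N : ℤ) * v.1 := by simp
    have e2 : (N • v).2 = (N : ℤ) * v.2 := by simp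
    rw [e1, e2, zpow_mul, zpow_mul, zpow_natCast, zpow_natCast]
  rw [← h]
  rfl

theorem nb03_act_dil (A : (ℤ × ℤ) ≃+ (ℤ × ℤ)) (N : ℕ) (f : L2) :
    act A (dil N f) = dil N (act A f) := by
  have h : (act A).toRingHom.comp (dil N) = (dil N).comp (act A).toRingHom := by
    refine nb03_ext fun v => ?_
    rw [RingHom.comp_apply, RingHom.comp_apply, nb03_dil_mm]
    show act A (mm (N • v)) = dil N (act A (mm v))
    rw [nb03_act_mm, nb03_act_mm, nb03_dil_mm, map_nsmul]
  exact RingHom.congr_fun h f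

theorem nb03_act_coeff (A : (ℤ × ℤ) ≃+ (ℤ × ℤ)) (f : L2) (c : ℤ × ℤ) :
    (act A f).coeff c = f.coeff (A.symm c) := by
  unfold act
  rw [AddMonoidAlgebra.coeff_mapDomainRingEquiv]
  rfl

theorem nb03_mm_coeff (w : ℤ × ℤ) (F : L2) (c : ℤ × ℤ) :
    (mm w * F).coeff c = F.coeff (c - w) := by
  unfold mm
  rw [AddMonoidAlgebra.coeff_single_mul_eq_mul_coeff (c - w), one_mul]
  intro m' _
  constructor
  · intro h
    rw [← h, add_sub_cancel_left]
  · intro h
    rw [h, add_sub_cancel]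

theorem nb03_embY_apply (x y : ℂˣ) (g : ℤ[X]) : nb03_ev x y (embY g) = aeval (y : ℂ) g := by
  have h : (nb03_ev x y).comp embY = (aeval (y : ℂ) : ℤ[X] →ₐ[ℤ] ℂ).toRingHom := by
    refine Polynomial.ringHom_ext' (Subsingleton.elim _ _) ?_
    show nb03_ev x y (embY X) = aeval (y : ℂ) X
    unfold embY
    rw [coe_eval₂RingHom, eval₂_X, nb03_ev_mm, aeval_X]
    simp
  have := RingHom.congr_fun h g
  exact this

/-- base change to the complex numbers -/
noncomputable def nb03_c : Polynomial (Polynomial ℤ) →+* Polynomial (Polynomial ℂ) :=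
  mapRingHom (mapRingHom (Int.castRingHom ℂ))

theorem nb03_emb2_apply (x y : ℂˣ) (P : Polynomial (Polynomial ℤ)) :
    nb03_ev x y (emb2 P) = nb01_ev x y (nb03_c P) := by
  have h : (nb03_ev x y).comp emb2 = (nb01_ev x y).comp nb03_c := by
    refine Polynomial.ringHom_ext' ?_ ?_
    · refine RingHom.ext fun g => ?_
      show nb03_ev x y (emb2 (C g)) = nb01_ev x y (nb03_c (C g))
      unfold emb2 nb03_c
      rw [coe_eval₂RingHom, eval₂_C, nb03_embY_apply, coe_mapRingHom, map_C, nb01_ev_C,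
        coe_mapRingHom, eval_map, aeval_def]
      rfl
    · show nb03_ev x y (emb2 X) = nb01_ev x y (nb03_c X)
      unfold emb2 nb03_c
      rw [coe_eval₂RingHom, eval₂_X, nb03_ev_mm, coe_mapRingHom, map_X, nb01_ev_X]
      simp
  exact RingHom.congr_fun h P

theorem nb03_emb2_C (g : ℤ[X]) : emb2 (C g) = embY g := by
  unfold emb2
  rw [coe_eval₂RingHom, eval₂_C]

theorem nb03_emb2_Xpow (n : ℕ) : emb2 (X ^ n) = mm ((n : ℤ), 0) := by
  rw [map_pow]
  have : emb2 X = mm (1, 0) := by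
    unfold emb2
    rw [coe_eval₂RingHom, eval₂_X]
  rw [this]
  induction n with
  | zero => rfl
  | succ n ih =>
    rw [pow_succ, ih, ← mm_add]
    congr 1

/-- polynomial representative with the first column given -/
theorem nb03_struct (f : L2) (v : ℤ) (hv : ∀ c ∈ f.coeff.support, v ≤ c.1) :
    ∃ (P : Polynomial (Polynomial ℤ)) (u : ℤ × ℤ) (n : ℕ), emb2 P = mm u * f ∧
      (∀ c ∈ f.coeff.support, 0 ≤ c.2 + n) ∧
      ∀ i j : ℕ, (P.coeff i).coeff j = f.coeff (v + i, (j : ℤ) - n) := by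
  set F0 : L2 := mm (-v, 0) * f with hF0
  have hF0c : ∀ c, F0.coeff c = f.coeff (c + (v, 0)) := by
    intro c
    rw [hF0, nb03_mm_coeff]
    congr 1
    ext <;> simp
  obtain ⟨n, hn⟩ : ∃ n : ℕ, ∀ c ∈ F0.coeff.support, |c.1| ≤ n ∧ |c.2| ≤ n := by
    refine ⟨F0.coeff.support.sup (fun c => max c.1.natAbs c.2.natAbs), fun c hc => ?_⟩
    have h1 := Finset.le_sup (f := fun c : ℤ × ℤ => max c.1.natAbs c.2.natAbs) hc
    have h2 : c.1.natAbs ≤ F0.coeff.support.sup (fun c => max c.1.natAbs c.2.natAbs) :=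
      (le_max_left _ _).trans h1
    have h3 : c.2.natAbs ≤ F0.coeff.support.sup (fun c => max c.1.natAbs c.2.natAbs) :=
      (le_max_right _ _).trans h1
    constructor
    · rw [Int.abs_eq_natAbs]; exact_mod_cast h2
    · rw [Int.abs_eq_natAbs]; exact_mod_cast h3
  obtain ⟨P0, hP0, _, _⟩ := exists_poly F0 n hn
  have hc0 : ∀ i j : ℕ, (P0.coeff i).coeff j = f.coeff ((i : ℤ) - n + v, (j : ℤ) - n) := by
    intro i j
    have h1 := emb2_coeff P0 i j
    rw [if_pos ⟨by positivity, by positivity⟩, Int.toNat_natCast, Int.toNat_natCast, hP0,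
      nb03_mm_coeff, hF0c] at h1
    rw [← h1]
    congr 1
    ext <;> simp
  have hX : (X : Polynomial (Polynomial ℤ)) ^ n ∣ P0 := by
    rw [X_pow_dvd_iff]
    intro d hd
    ext j
    rw [hc0, coeff_zero]
    by_contra hne
    have h2 := hv _ (Finsupp.mem_support_iff.2 hne)
    simp only at h2
    omega
  obtain ⟨P, hP⟩ := hX
  refine ⟨P, (-v, (n : ℤ)), n, ?_, ?_, ?_⟩
  · have h1 : emb2 P0 = mm ((n : ℤ), 0) * emb2 P := by
      rw [hP, map_mul, nb03_emb2_Xpow]
    have h2 : mm (-(n : ℤ), 0) * (mm ((n : ℤ), 0) * emb2 P) = emb2 P := by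
      rw [← mul_assoc, ← mm_add]
      have : ((-(n : ℤ), 0) + ((n : ℤ), 0) : ℤ × ℤ) = 0 := by ext <;> simp
      rw [this, mm_zero, one_mul]
    rw [← h2, ← h1, hP0, hF0, ← mul_assoc, ← mul_assoc, ← mm_add, ← mm_add]
    congr 2
    ext <;> simp
  · intro c hc
    have h1 : c - (v, 0) ∈ F0.coeff.support := by
      rw [Finsupp.mem_support_iff, hF0c, sub_add_cancel]
      exact Finsupp.mem_support_iff.1 hc
    have h2 := (hn _ h1).2
    have h3 : (c - (v, 0)).2 = c.2 := by simp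
    rw [h3] at h2
    linarith [(abs_le.1 h2).1]
  · intro i j
    have h1 : P.coeff i = P0.coeff (i + n) := by
      rw [hP, coeff_X_pow_mul]
    rw [h1, hc0]
    congr 1
    ext
    · simp; ring
    · simp

/-- a polynomial with two monomials has a nonzero root -/
theorem nb03_root (R : ℂ[X]) (j j' : ℕ) (hj : R.coeff j ≠ 0) (hj' : R.coeff j' ≠ 0)
    (hne : j ≠ j') : ∃ α : ℂ, α ≠ 0 ∧ R.eval α = 0 := by
  by_contra hcon
  push Not at hcon
  have hR : R ≠ 0 := by
    intro h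
    rw [h] at hj
    simp at hj
  have hs : Splits R := IsAlgClosed.splits R
  have hroots : R.roots = Multiset.replicate (Multiset.card R.roots) 0 := by
    rw [Multiset.eq_replicate]
    refine ⟨rfl, fun b hb => ?_⟩
    by_contra hb0
    exact hcon b hb0 (isRoot_of_mem_roots hb)
  have h1 := hs.eq_prod_roots
  rw [hroots, Multiset.map_replicate, Multiset.prod_replicate, C_0, sub_zero] at h1
  have h2 : ∀ k, R.coeff k ≠ 0 → k = Multiset.card R.roots := by
    intro k hk
    rw [h1, coeff_C_mul, coeff_X_pow] at hk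
    by_contra hne'
    rw [if_neg hne', mul_zero] at hk
    exact hk rfl
  exact hne ((h2 j hj).trans (h2 j' hj').symm)

/-- the integral minimal polynomial of an algebraic number -/
theorem nb03_minpoly (α : ℂ) (q0 : ℤ[X]) (hq0 : q0 ≠ 0) (h0 : aeval α q0 = 0) :
    ∃ g : ℤ[X], g ≠ 0 ∧ aeval α g = 0 ∧ ∀ q : ℤ[X], aeval α q = 0 → g ∣ q := by
  have hmap : ∀ q : ℤ[X], aeval α (q.map (Int.castRingHom ℚ)) = aeval α q := by
    intro q
    rw [← algebraMap_int_eq, aeval_map_algebraMap]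
  have hint : IsIntegral ℚ α := by
    rw [← isAlgebraic_iff_isIntegral]
    refine ⟨q0.map (Int.castRingHom ℚ), ?_, by rw [hmap]; exact h0⟩
    rw [Ne, Polynomial.map_eq_zero_iff (RingHom.injective_int _)]
    exact hq0
  set m := minpoly ℚ α with hm
  have hm0 : m ≠ 0 := minpoly.ne_zero hint
  obtain ⟨b, hb, hb'⟩ := IsLocalization.integerNormalization_spec (nonZeroDivisors ℤ) m
  set g0 := IsLocalization.integerNormalization (nonZeroDivisors ℤ) m with hg0
  have hb0 : (b : ℚ) ≠ 0 := by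
    exact_mod_cast nonZeroDivisors.ne_zero hb
  have hb'' : g0.map (Int.castRingHom ℚ) = C (b : ℚ) * m := by
    rw [← algebraMap_int_eq, hb', zsmul_eq_mul, map_intCast]
  have hg00 : g0 ≠ 0 := by
    intro h
    rw [h, Polynomial.map_zero] at hb''
    exact mul_ne_zero (C_ne_zero.2 hb0) hm0 hb''.symm
  have hcont : (g0.content : ℚ) ≠ 0 := by
    have : g0.content ≠ 0 := by rw [Ne, content_eq_zero_iff]; exact hg00
    exact_mod_cast this
  -- the primitive part is associated to the minimal polynomial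
  have hass : C ((g0.content : ℤ) : ℚ) * g0.primPart.map (Int.castRingHom ℚ) = C (b : ℚ) * m := by
    rw [← hb'']
    conv_rhs => rw [g0.eq_C_content_mul_primPart, Polynomial.map_mul, map_C]
    rfl
  refine ⟨g0.primPart, g0.primPart_ne_zero, ?_, ?_⟩
  · have h1 := congrArg (aeval α) hass
    rw [map_mul, map_mul, minpoly.aeval, mul_zero, aeval_C, hmap] at h1
    rcases mul_eq_zero.1 h1 with h2 | h2
    · exfalso
      apply hcont
      have : (algebraMap ℚ ℂ) ((g0.content : ℤ) : ℚ) = 0 := h2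
      rwa [map_eq_zero_iff _ (algebraMap ℚ ℂ).injective] at this
    · exact h2
  · intro q hq
    rw [IsPrimitive.Int.dvd_iff_map_cast_dvd_map_cast _ _ g0.isPrimitive_primPart]
    have h1 : m ∣ q.map (Int.castRingHom ℚ) := minpoly.dvd ℚ α (by rw [hmap]; exact hq)
    have h2 : g0.primPart.map (Int.castRingHom ℚ) =
        C (((g0.content : ℤ) : ℚ)⁻¹ * (b : ℚ)) * m := by
      rw [C_mul, mul_assoc, ← hass, ← mul_assoc, ← C_mul, inv_mul_cancel₀ hcont, C_1, one_mul]
    rw [h2, C_mul_dvd (mul_ne_zero (inv_ne_zero hcont) hb0)]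
    exact h1

/-- a common root of all coefficients contradicts primality -/
theorem nb03_not_dvd (P : Polynomial (Polynomial ℤ)) (hp : Prime (emb2 P)) (α : ℂ) (hα : α ≠ 0)
    (i : ℕ) (hi : i ≠ 0) (h0 : P.coeff 0 ≠ 0) (hi0 : P.coeff i ≠ 0) :
    ¬ C (X - C α) ∣ nb03_c P := by
  intro hdiv
  rw [C_dvd_iff_dvd_coeff] at hdiv
  have hco : ∀ k, aeval α (P.coeff k) = 0 := by
    intro k
    have h1 := hdiv k
    rw [dvd_iff_isRoot, IsRoot.def] at h1
    unfold nb03_c at h1
    rw [coe_mapRingHom, coeff_map, coe_mapRingHom, eval_map] at h1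
    rw [aeval_def]
    exact h1
  obtain ⟨g, hg0, hgα, hg⟩ := nb03_minpoly α (P.coeff 0) h0 (hco 0)
  have hgP : C g ∣ P := by
    rw [C_dvd_iff_dvd_coeff]
    exact fun k => hg _ (hco k)
  obtain ⟨K, hK⟩ := hgP
  have hPK : emb2 P = embY g * emb2 K := by
    rw [hK, map_mul, nb03_emb2_C]
  have hinj : Function.Injective (Polynomial.map (Int.castRingHom ℂ)) :=
    map_injective _ (RingHom.injective_int _)
  rcases hp.dvd_or_dvd (hPK ▸ dvd_rfl : emb2 P ∣ embY g * emb2 K) with ⟨r, hr⟩ | ⟨r, hr⟩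
  · -- evaluate at a good point
    have hprod : (X : ℂ[X]) * (g.map (Int.castRingHom ℂ)) * ((P.coeff 0).map (Int.castRingHom ℂ)) *
        ((P.coeff i).map (Int.castRingHom ℂ)) ≠ 0 := by
      have hz : ∀ q : ℤ[X], q ≠ 0 → q.map (Int.castRingHom ℂ) ≠ 0 := by
        intro q hq h
        apply hq
        apply hinj
        rw [h, Polynomial.map_zero]
      exact mul_ne_zero (mul_ne_zero (mul_ne_zero X_ne_zero (hz _ hg0)) (hz _ h0)) (hz _ hi0)
    obtain ⟨y, hy⟩ : ∃ y : ℂ, ((X : ℂ[X]) * (g.map (Int.castRingHom ℂ)) *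
        ((P.coeff 0).map (Int.castRingHom ℂ)) * ((P.coeff i).map (Int.castRingHom ℂ))).eval y ≠ 0 := by
      by_contra hcon
      push Not at hcon
      exact hprod (Polynomial.funext fun y => by rw [hcon y, eval_zero])
    rw [eval_mul, eval_mul, eval_mul, eval_X] at hy
    have hy3 := (mul_ne_zero_iff.1 hy).2
    have hy2 := (mul_ne_zero_iff.1 (mul_ne_zero_iff.1 hy).1).2
    have hy1 := (mul_ne_zero_iff.1 (mul_ne_zero_iff.1 (mul_ne_zero_iff.1 hy).1).1).2
    have hy0 := (mul_ne_zero_iff.1 (mul_ne_zero_iff.1 (mul_ne_zero_iff.1 hy).1).1).1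
    have hcoef : ∀ k, ((nb03_c P).map (evalRingHom y)).coeff k =
        ((P.coeff k).map (Int.castRingHom ℂ)).eval y := by
      intro k
      unfold nb03_c
      rw [coeff_map, coe_mapRingHom, coeff_map]
      rfl
    obtain ⟨x, hx0, hx⟩ := nb03_root ((nb03_c P).map (evalRingHom y)) 0 i
      (by rw [hcoef]; exact hy2) (by rw [hcoef]; exact hy3) (Ne.symm hi)
    have hev : nb01_ev x y (nb03_c P) = 0 := by
      rw [eval_map] at hx
      exact hx
    have h1 := congrArg (nb03_ev (Units.mk0 x hx0) (Units.mk0 y hy0)) hr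
    rw [map_mul, nb03_emb2_apply, nb03_embY_apply] at h1
    simp only [Units.val_mk0] at h1
    rw [hev, zero_mul] at h1
    apply hy1
    rw [eval_map]
    rw [aeval_def] at h1
    exact h1
  · have h1 : emb2 P * (1 - embY g * r) = 0 := by
      have : emb2 P = embY g * (emb2 P * r) := by
        rw [← hr]; exact hPK
      calc emb2 P * (1 - embY g * r) = emb2 P - embY g * (emb2 P * r) := by ring
        _ = 0 := by rw [← this, sub_self]
    rcases mul_eq_zero.1 h1 with h2 | h2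
    · exact hp.ne_zero h2
    · have h3 := congrArg (nb03_ev 1 (Units.mk0 α hα)) h2
      rw [map_sub, map_mul, map_one, nb03_embY_apply, Units.val_mk0, hgα, zero_mul, sub_zero,
        map_zero] at h3
      exact one_ne_zero h3

theorem nb (f : L2) (hf : Prime f) (hflat : ¬ Flat f.coeff.support) :
    ∃ N0 : ℕ, ∀ N, N0 ≤ N → ¬ f ∣ dil N f := by
  obtain ⟨A, v, hv, ⟨c, hc, c', hc', hne, hcv, hcv'⟩, ⟨d, hd, hdv⟩⟩ := exists_edge _ hflat
  set f1 := act A f with hf1
  have hsupp : ∀ e ∈ f1.coeff.support, v ≤ e.1 := by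
    intro e he
    rw [Finsupp.mem_support_iff, hf1, nb03_act_coeff] at he
    have := hv _ (Finsupp.mem_support_iff.2 he)
    rwa [AddEquiv.apply_symm_apply] at this
  have hmem : ∀ e ∈ f.coeff.support, f1.coeff (A e) ≠ 0 := by
    intro e he
    rw [hf1, nb03_act_coeff, AddEquiv.symm_apply_apply]
    exact Finsupp.mem_support_iff.1 he
  obtain ⟨P, u, n, hP, hn, hco⟩ := nb03_struct f1 v hsupp
  -- coefficients
  have hcoef : ∀ e ∈ f.coeff.support,
      (P.coeff ((A e).1 - v).toNat).coeff ((A e).2 + n).toNat ≠ 0 := by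
    intro e he
    have h1 := hmem e he
    have h2 := hsupp _ (Finsupp.mem_support_iff.2 h1)
    have h3 := hn _ (Finsupp.mem_support_iff.2 h1)
    rw [hco, Int.toNat_of_nonneg (by omega), Int.toNat_of_nonneg h3]
    have e1 : ((v + ((A e).1 - v), (A e).2 + n - n) : ℤ × ℤ) = A e := by
      ext <;> simp
    rw [e1]
    exact h1
  have hcc := hcoef c hc
  have hcc' := hcoef c' hc'
  have hdd := hcoef d hd
  rw [hcv, sub_self, Int.toNat_zero] at hcc
  rw [hcv', sub_self, Int.toNat_zero] at hcc'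
  have hj : ((A c).2 + n).toNat ≠ ((A c').2 + n).toNat := by
    intro h
    apply hne
    apply A.injective
    have h3 := hn _ (Finsupp.mem_support_iff.2 (hmem c hc))
    have h3' := hn _ (Finsupp.mem_support_iff.2 (hmem c' hc'))
    ext
    · rw [hcv, hcv']
    · omega
  have hi : ((A d).1 - v).toNat ≠ 0 := by
    have := hv d hd
    omega
  have hP0 : P.coeff 0 ≠ 0 := fun h => hcc (by rw [h, coeff_zero])
  have hPi : P.coeff ((A d).1 - v).toNat ≠ 0 := fun h => hdd (by rw [h, coeff_zero])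
  -- primality
  have hf1p : Prime f1 := by
    rw [hf1]
    exact (MulEquiv.prime_iff (act A)).2 hf
  have hunit : IsUnit (mm u) := by
    refine IsUnit.of_mul_eq_one (mm (-u)) ?_
    rw [← mm_add, add_neg_cancel, mm_zero]
  have hPp : Prime (emb2 P) := by
    rw [hP]
    have hass : Associated f1 (mm u * f1) := ⟨hunit.unit, by rw [mul_comm]; rfl⟩
    exact hass.prime hf1p
  -- the root
  have hc0 : (nb03_c P).coeff 0 = (P.coeff 0).map (Int.castRingHom ℂ) := by
    unfold nb03_c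
    rw [coe_mapRingHom, coeff_map]
    rfl
  have hcast : ∀ k, (P.coeff 0).coeff k ≠ 0 → ((nb03_c P).coeff 0).coeff k ≠ 0 := by
    intro k hk
    rw [hc0, coeff_map]
    simpa using hk
  obtain ⟨α, hα, hroot⟩ := nb03_root ((nb03_c P).coeff 0) _ _ (hcast _ hcc) (hcast _ hcc') hj
  have hc00 : (nb03_c P).coeff 0 ≠ 0 := fun h => hcast _ hcc (by rw [h, coeff_zero])
  obtain ⟨N0, hN0⟩ := nb03_strong (nb03_c P) α hα hc00 hroot
    (nb03_not_dvd P hPp α hα _ hi hP0 hPi)
  refine ⟨N0, fun N hN hdiv => ?_⟩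
  obtain ⟨x, y, hx0, hy0, h1, h2⟩ := hN0 N hN
  have hdiv1 : f1 ∣ dil N f1 := by
    rw [hf1, ← nb03_act_dil]
    exact map_dvd (act A) hdiv
  obtain ⟨r, hr⟩ := hdiv1
  have hz : ∀ x' y' : ℂˣ, nb03_ev x' y' f1 = 0 ↔ nb01_ev (x' : ℂ) (y' : ℂ) (nb03_c P) = 0 := by
    intro x' y'
    rw [← nb03_emb2_apply, hP, map_mul, mul_eq_zero]
    constructor
    · exact fun h => Or.inr h
    · rintro (h | h)
      · exact absurd h (nb03_ev_mm_ne _ _ _)
      · exact h
  apply h2
  have h3 : nb03_ev (Units.mk0 x hx0) (Units.mk0 y hy0) f1 = 0 := (hz _ _).2 h1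
  have h4 : nb03_ev (Units.mk0 x hx0 ^ N) (Units.mk0 y hy0 ^ N) f1 = 0 := by
    rw [← nb03_ev_dil, hr, map_mul, h3, zero_mul]
  have h5 := (hz _ _).1 h4
  simpa using h5

theorem nb_dvd (f : L2) (hf : Prime f) (hflat : ¬ Flat f.coeff.support) :
    ∃ N0 : ℕ, ∀ (N e j : ℕ) (v : ℤ × ℤ) (F : L2), N0 ≤ N →
      (f ^ e ∣ (dil N (mm v * f ^ e)) ^ j * F ↔ f ^ e ∣ F) := by
  obtain ⟨N0, hN0⟩ := nb f hf hflat
  refine ⟨N0, fun N e j v F hN => ?_⟩
  constructor
  · intro h
    refine hf.pow_dvd_of_dvd_mul_left e ?_ h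
    intro h1
    have h2 := hf.dvd_of_dvd_pow h1
    rw [map_mul, map_pow] at h2
    rcases hf.dvd_or_dvd h2 with h3 | h3
    · rw [nb03_dil_mm] at h3
      apply hf.not_isUnit
      refine isUnit_of_dvd_unit h3 (IsUnit.of_mul_eq_one (mm (-(N • v))) ?_)
      rw [← mm_add, add_neg_cancel, mm_zero]
    · exact hN0 N hN (hf.dvd_of_dvd_pow h3)
  · exact fun h => h.mul_left _

end Pool.Agent.WPR
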