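import Pool.Agent.Lib.MP_2da099_lc.R2.R02
import Pool.Agent.Lib.MP_2da099_lc.R2.P05
import Pool.Agent.Lib.MP_2da099_lc.R2.P06
import Pool.Agent.Lib.MP_2da099_lc.R2.P07
import Pool.Agent.Lib.MP_2da099_lc.R2.P08

/-!
# R04: the cost of the machine in one row

HINTS.  `R` is a constant.  `ct_shiftRow j`: `List.replicate` of a constant number of `g0` in front
(`CT.pushConst`, `CT.append`), or a constant number of `tail`s (`ct_drop` with a constant) and an append at
the end.  `ct_linRow`: induction on the (constant) list of offsets; step `(row, prev) ↦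
(zipWith .., prev)`: the element `prev.getD i []` for constant `i` is taken with `CT.lcase` `i` times (or
`ct_drop` with the constant, then the head); `ct_zipWith` with `hR.1`.  The size of the result of each
`zipWith` is `≤ C * (size row + size prev + 1)` (`CT.size_le`); number of offsets constant.
`ct_cellStep`: the state is `(flag, last D symbols)`; the sum over `j < D` is a constant number of
additions; `dec` by `ct_fincase` over the class `x.2.1` (`b` is a constant here), `CT.ocase` for the result,
`ct_take`.
`ct_rowStep`: `cls` is an input (a list of classes): `zip`, `ct_scan`.  In `scanCost` at a cell: state size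
`≤ C * Σ (sizes of the last D symbols + 1)`, cost of the step `≤ C * (state + size of the content + 1)`, new
symbol.  Summed over the cells every symbol is counted at most `D + 2` times, so the total is
`≤ C * (size row + size prev + size of the output + L)`.  `L` is bounded by the size of the list of classes.
Here `rowOut R b x = scan (cellStep R b) (true, replicate D g0) (x.1.zip (linRow R x.2.1 x.2.2))`.
-/

set_option autoImplicit false

namespace Pool.Agent.WPR

open Pool.Agent.Lib.PolyTime Pool.Agent.WPM Function

section General

variable {α β γ δ : Type} [Enc α] [Enc β] [Enc γ] [Enc δ]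

/-- Linear cost is preserved by composition. -/
theorem r04_comp {f : α → β} {g : β → γ} (hg : CT g (fun b => size b))
    (hf : CT f (fun a => size a)) : CT (fun a => g (f a)) (fun a => size a) := by
  obtain ⟨C, hC⟩ := hf.size_le
  refine (hg.comp hf).mono (C + 2) (fun a => ?_)
  have h1 := hC a
  have e : (C + 2) * (size a + 1) = C * (size a + 1) + 2 * (size a + 1) := by ring
  omega

theorem r04_pair {f : α → β} {g : α → γ} (hf : CT f (fun a => size a))
    (hg : CT g (fun a => size a)) : CT (fun a => (f a, g a)) (fun a => size a) :=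
  (hf.pair hg).mono 3 (fun a => by omega)

theorem r04_fst : CT (fun x : α × β => x.1) (fun x => size x) :=
  CT.fst.mono 1 (fun x => by rw [size_prod]; omega)

theorem r04_snd : CT (fun x : α × β => x.2) (fun x => size x) :=
  CT.snd.mono 1 (fun x => by rw [size_prod]; omega)

theorem r04_id : CT (fun x : α => x) (fun x => size x) :=
  (CT.of_enc_eq (f := fun x : α => x) (fun _ => rfl)).mono 1 (fun x => by omega)

theorem r04_const (b : β) : CT (fun _ : α => b) (fun a => size a) := CT.const b

theorem r04_cons {f : α → β} {g : α → List β} (hf : CT f (fun a => size a))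
    (hg : CT g (fun a => size a)) : CT (fun a => f a :: g a) (fun a => size a) := by
  have h : CT (fun x : β × List β => x.1 :: x.2) (fun x => size x) :=
    (CT.of_enc_eq (f := fun x : β × List β => x.1 :: x.2) (fun _ => rfl)).mono 1
      (fun x => by omega)
  exact r04_comp h (r04_pair hf hg)

theorem r04_drop (k : ℕ) : CT (fun l : List α => l.drop k) (fun l => size l) := by
  have h1 : CT (fun l : List α => (k, l)) (fun _ => 0) := CT.pushConst k
  refine (ct_drop.comp h1).mono (k + 1) (fun l => ?_)
  show 0 + (k + size l) ≤ (k + 1) * (size l + 1)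
  nlinarith [Nat.zero_le (k * size l)]

theorem r04_take (k : ℕ) : CT (fun l : List α => l.take k) (fun l => size l) := by
  have h1 : CT (fun l : List α => (k, l)) (fun _ => 0) := CT.pushConst k
  refine (ct_take.comp h1).mono (k + 1) (fun l => ?_)
  show 0 + (k + size l) ≤ (k + 1) * (size l + 1)
  nlinarith [Nat.zero_le (k * size l)]

theorem r04_headD (d : α) : CT (fun l : List α => l.headD d) (fun l => size l) := by
  have hf : CT (fun _ : Unit => d) (fun u => size u) := CT.const d
  have hg : CT (fun x : (α × List α) × Unit => x.1.1) (fun x => size x) :=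
    r04_comp r04_fst r04_fst
  have h1 : CT (fun l : List α => (l, ())) (fun l => size l) := r04_pair r04_id (r04_const ())
  refine (((CT.lcase hf hg).comp h1).mono 8 (fun l => ?_)).congr (fun l => ?_)
  · have hu : size () = 1 := rfl
    cases l with
    | nil => dsimp only; rw [hu, size_nil]; omega
    | cons a l =>
      dsimp only
      rw [size_prod, size_prod, size_cons, hu]
      dsimp only
      omega
  · cases l <;> rfl

theorem r04_getD (k : ℕ) (d : α) : CT (fun l : List α => l.getD k d) (fun l => size l) := by
  refine (r04_comp (r04_headD d) (r04_drop k)).congr (fun l => ?_)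
  rw [List.headD_eq_head?_getD, List.head?_drop, List.getD_eq_getElem?_getD]

theorem r04_ocase {f : β → γ} {g : α × β → γ} (hf : CT f (fun b => size b))
    (hg : CT g (fun b => size b)) :
    CT (fun x : Option α × β => match x.1 with
      | none => f x.2
      | some a => g (a, x.2)) (fun x => size x) := by
  refine (CT.ocase hf hg).mono 3 (fun x => ?_)
  obtain ⟨o, b⟩ := x
  cases o with
  | none => dsimp only; rw [size_prod]; dsimp only; omega
  | some a =>
    have e : size (some a) = size a + 2 := by
      show size [a] = size a + 2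
      rw [size_cons, size_nil]
    dsimp only
    rw [size_prod, size_prod, e]
    dsimp only
    omega

theorem r04_append {f : α → List β} {g : α → List β} (hf : CT f (fun a => size a))
    (hg : CT g (fun a => size a)) : CT (fun a => f a ++ g a) (fun a => size a) := by
  have h : CT (fun x : List β × List β => x.1 ++ x.2) (fun x => size x) :=
    CT.append.mono 1 (fun x => by rw [size_prod]; omega)
  exact r04_comp h (r04_pair hf hg)

theorem r04_zip_sum (l : List α) (l' : List β) :
    ((l.zip l').map (fun p => size p.1 + size p.2)).sum ≤ size l + size l' := by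
  induction l generalizing l' with
  | nil => simp
  | cons a l ih =>
    cases l' with
    | nil => simp
    | cons b l' =>
      have := ih l'
      simp only [List.zip_cons_cons, List.map_cons, List.sum_cons, size_cons]
      omega

/-- Potential of the list of the last symbols. -/
def r04_pot : ℕ → List α → ℕ
  | 0, _ => 0
  | _ + 1, [] => 0
  | n + 1, a :: l => (n + 1) * (size a + 1) + r04_pot n l

theorem r04_pot_take (n : ℕ) (l : List α) : r04_pot n (l.take n) = r04_pot n l := by
  induction n generalizing l with
  | zero => rfl
  | succ n ih =>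
    cases l with
    | nil => rfl
    | cons a l => rw [List.take_succ_cons, r04_pot, r04_pot, ih]

theorem r04_size_le_pot (n : ℕ) (l : List α) (h : l.length ≤ n) : size l ≤ r04_pot n l + 1 := by
  induction n generalizing l with
  | zero =>
    have : l = [] := List.eq_nil_of_length_eq_zero (by omega)
    subst this
    simp
  | succ n ih =>
    cases l with
    | nil => simp
    | cons a l =>
      rw [List.length_cons] at h
      have h1 := ih l (by omega)
      rw [size_cons, r04_pot]
      have e : (n + 1) * (size a + 1) = n * (size a + 1) + (size a + 1) := by ring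
      omega

theorem r04_pot_succ (n : ℕ) (l : List α) (h : l.length ≤ n + 1) :
    r04_pot n l + size l ≤ r04_pot (n + 1) l + 1 := by
  induction n generalizing l with
  | zero =>
    have h1 := r04_size_le_pot 1 l h
    show 0 + size l ≤ _
    rw [Nat.zero_add]
    exact h1
  | succ n ih =>
    cases l with
    | nil => simp [r04_pot]
    | cons a l =>
      rw [List.length_cons] at h
      have h1 := ih l (by omega)
      rw [size_cons, r04_pot, r04_pot]
      have e : (n + 1 + 1) * (size a + 1) = (n + 1) * (size a + 1) + (size a + 1) := by ring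
      omega

theorem r04_pot_step (n : ℕ) (a : α) (l : List α) (h : l.length ≤ n) :
    r04_pot n ((a :: l).take n) + size l ≤ n * (size a + 1) + r04_pot n l + 1 := by
  rw [r04_pot_take]
  cases n with
  | zero =>
    have : l = [] := List.eq_nil_of_length_eq_zero (by omega)
    subst this
    simp [r04_pot]
  | succ n =>
    rw [r04_pot]
    have := r04_pot_succ n l h
    omega

theorem r04_pot_replicate (n m : ℕ) (a : α) :
    r04_pot n (List.replicate m a) ≤ n * (m * (size a + 1)) := by
  induction n generalizing m with
  | zero => simp [r04_pot]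
  | succ n ih =>
    cases m with
    | zero => simp [r04_pot]
    | succ m =>
      rw [List.replicate_succ, r04_pot]
      have h1 := ih m
      have e : (n + 1) * ((m + 1) * (size a + 1)) = (n + 1) * (size a + 1) +
        (n + 1) * (m * (size a + 1)) := by ring
      have e2 : n * (m * (size a + 1)) ≤ (n + 1) * (m * (size a + 1)) :=
        Nat.mul_le_mul_right _ (by omega)
      omega

end General

variable {V Γ : Type} [AddCommGroup V] [Enc V] [Enc Γ]

theorem r04_shiftRow (g0 : Γ) (j : ℤ) : CT (fun l : List Γ => shiftRow g0 j l) (fun l => size l) := by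
  unfold shiftRow
  split_ifs
  · exact r04_append (r04_const _) r04_id
  · exact r04_append (r04_drop _) (r04_const _)

/-- one offset -/
theorem r04_step (R : RData V Γ) (hR : R.Fast) (i : ℕ) (j : ℤ) :
    CT (fun x : List V × List (List Γ) => List.zipWith (fun y g => y + R.w i j g) x.1
      (shiftRow R.g0 j (x.2.getD (i - 1) []))) (fun x => size x) := by
  have h1 : CT (fun x : List V × List (List Γ) => shiftRow R.g0 j (x.2.getD (i - 1) []))
      (fun x => size x) :=
    r04_comp (r04_shiftRow R.g0 j) (r04_comp (r04_getD (i - 1) []) r04_snd)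
  have h2 : CT (fun x : List V × List (List Γ) =>
      (x.1, shiftRow R.g0 j (x.2.getD (i - 1) []))) (fun x => size x) := r04_pair r04_fst h1
  have h3 : CT (fun x : List V × List Γ => List.zipWith (fun y g => y + R.w i j g) x.1 x.2)
      (fun x => size x) := by
    refine (ct_zipWith (hR.1 i j)).mono 2 (fun x => ?_)
    have := r04_zip_sum x.1 x.2
    rw [size_prod]
    omega
  exact r04_comp h3 h2

theorem r04_fold (R : RData V Γ) (hR : R.Fast) (os : List (ℕ × ℤ)) :
    CT (fun x : List V × List (List Γ) => os.foldl (fun acc o => List.zipWith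
      (fun y g => y + R.w o.1 o.2 g) acc (shiftRow R.g0 o.2 (x.2.getD (o.1 - 1) []))) x.1)
      (fun x => size x) := by
  induction os with
  | nil => exact r04_fst
  | cons o os ih =>
    have h1 : CT (fun x : List V × List (List Γ) => (List.zipWith (fun y g => y + R.w o.1 o.2 g)
        x.1 (shiftRow R.g0 o.2 (x.2.getD (o.1 - 1) [])), x.2)) (fun x => size x) :=
      r04_pair (r04_step R hR o.1 o.2) r04_snd
    exact r04_comp ih h1

theorem ct_linRow (R : RData V Γ) (hR : R.Fast) :
    CT (fun x : List V × List (List Γ) => linRow R x.1 x.2) (fun x => size x.1 + size x.2) :=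
  (r04_fold R hR (offs R.D)).mono 1 (fun x => by rw [size_prod]; omega)

/-- the content of a cell -/
theorem r04_content (R : RData V Γ) (hR : R.Fast) (js : List ℕ) :
    CT (fun x : V × List Γ => x.1 + (js.map (fun j : ℕ => R.w 0 ((j : ℤ) + 1)
      (x.2.getD j R.g0))).sum) (fun x => size x) := by
  induction js with
  | nil => exact r04_fst.congr (fun x => by simp)
  | cons j js ih =>
    have h1 : CT (fun x : V × List Γ => (x.1, x.2.getD j R.g0)) (fun x => size x) :=
      r04_pair r04_fst (r04_comp (r04_getD j R.g0) r04_snd)
    have h2 : CT (fun x : V × Γ => x.1 + R.w 0 ((j : ℤ) + 1) x.2) (fun x => size x) :=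
      (hR.1 0 ((j : ℤ) + 1)).mono 1 (fun x => by rw [size_prod]; omega)
    have h3 : CT (fun x : V × List Γ => (x.1 + R.w 0 ((j : ℤ) + 1) (x.2.getD j R.g0), x.2))
        (fun x => size x) := r04_pair (r04_comp h2 h1) r04_snd
    refine (r04_comp ih h3).congr (fun x => ?_)
    simp only [List.map_cons, List.sum_cons]
    abel

theorem r04_cellStep (R : RData V Γ) (hR : R.Fast) (b : Fin (R.D + 1)) :
    CT (cellStep R b) (fun x => size x) := by
  have h1 : CT (fun x : (Bool × List Γ) × (Fin (R.D + 1) × V) => (x.2.2, x.1.2))
      (fun x => size x) := r04_pair (r04_comp r04_snd r04_snd) (r04_comp r04_snd r04_fst)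
  have h2 := r04_comp (r04_content R hR (List.range R.D)) h1
  have h3 : CT (fun x : (Bool × List Γ) × (Fin (R.D + 1) × V) => x.2.1) (fun x => size x) :=
    r04_comp r04_fst r04_snd
  have h4 : CT (fun x : Fin (R.D + 1) × V => R.dec b x.1 x.2) (fun x => size x) :=
    (ct_fincase (fun a => hR.2 b a)).mono 1 (fun x => by rw [size_prod]; omega)
  have h5 := r04_comp h4 (r04_pair h3 h2)
  have h6 := r04_pair h5 (r04_fst (α := Bool × List Γ) (β := Fin (R.D + 1) × V))
  have hf : CT (fun y : Bool × List Γ => ((false, (R.g0 :: y.2).take R.D), R.g0))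
      (fun y => size y) :=
    r04_pair (r04_pair (r04_const _) (r04_comp (r04_take R.D) (r04_cons (r04_const _) r04_snd)))
      (r04_const _)
  have hg : CT (fun y : Γ × (Bool × List Γ) => ((y.2.1, (y.1 :: y.2.2).take R.D), y.1))
      (fun y => size y) :=
    r04_pair (r04_pair (r04_comp r04_fst r04_snd)
      (r04_comp (r04_take R.D) (r04_cons r04_fst (r04_comp r04_snd r04_snd)))) r04_fst
  have h7 := r04_comp (r04_ocase hf hg) h6
  refine h7.congr (fun x => ?_)
  unfold cellStep
  dsimp only
  cases R.dec b x.2.1 (x.2.2 + ((List.range R.D).map (fun j : ℕ => R.w 0 ((j : ℤ) + 1)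
      (x.1.2.getD j R.g0))).sum) <;> rfl

theorem ct_cellStep (R : RData V Γ) (hR : R.Fast) (b : Fin (R.D + 1)) :
    CT (cellStep R b) (fun x => size x.1 + size x.2) :=
  (r04_cellStep R hR b).mono 1 (fun x => by rw [size_prod]; omega)

/-- one row, with the list of the classes as an input -/
def rowOut (R : RData V Γ) (b : Fin (R.D + 1))
    (x : List (Fin (R.D + 1)) × (List V × List (List Γ))) : (Bool × List Γ) × List Γ :=
  scan (cellStep R b) (true, List.replicate R.D R.g0) (x.1.zip (linRow R x.2.1 x.2.2))

omit [Enc V] [Enc Γ] in
theorem r04_cellStep_state (R : RData V Γ) (b : Fin (R.D + 1))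
    (x : (Bool × List Γ) × (Fin (R.D + 1) × V)) :
    (cellStep R b x).1.2 = ((cellStep R b x).2 :: x.1.2).take R.D := by
  unfold cellStep
  split <;> rfl

theorem r04_size_bool (b : Bool) : size b ≤ 3 := by cases b <;> decide

theorem r04_scanCost (R : RData V Γ) (b : Fin (R.D + 1)) (l : List (Fin (R.D + 1) × V)) :
    ∀ s : Bool × List Γ, s.2.length ≤ R.D →
    scanCost (fun x : (Bool × List Γ) × (Fin (R.D + 1) × V) => size x.1 + size x.2)
      (cellStep R b) s l + size s ≤ 3 * r04_pot R.D s.2 + 10 + 15 * size l +
      (3 * R.D + 1) * size (scan (cellStep R b) s l).2 := by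
  induction l with
  | nil =>
    intro s hs
    have h1 := r04_size_le_pot R.D s.2 hs
    have h2 := r04_size_bool s.1
    rw [scanCost, scan, size_prod, size_nil]
    omega
  | cons a l ih =>
    intro s hs
    have hst := r04_cellStep_state R b (s, a)
    have hlen : (cellStep R b (s, a)).1.2.length ≤ R.D := by
      rw [hst, List.length_take]
      omega
    have h1 := ih _ hlen
    have h2 := r04_pot_step R.D (cellStep R b (s, a)).2 s.2 hs
    have h3 := r04_size_bool s.1
    have h4 : size s = size s.1 + size s.2 + 1 := size_prod s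
    rw [hst] at h1
    rw [scanCost, scan, size_cons, size_cons]
    dsimp only at h1 h2 ⊢
    generalize size (cellStep R b (s, a)).2 = G at *
    have e1 : (3 * R.D + 1) * (G + size (scan (cellStep R b) (cellStep R b (s, a)).1 l).2 + 1) =
        3 * (R.D * (G + 1)) + (G + 1) +
        (3 * R.D + 1) * size (scan (cellStep R b) (cellStep R b (s, a)).1 l).2 := by ring
    rw [e1]
    omega

theorem ct_rowOut (R : RData V Γ) (hR : R.Fast) (b : Fin (R.D + 1)) :
    CT (rowOut R b) (fun x => size x.1 + size x.2 + size (rowOut R b x).2) := by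
  have h1 : CT (fun x : List (Fin (R.D + 1)) × (List V × List (List Γ)) =>
      x.1.zip (linRow R x.2.1 x.2.2)) (fun x => size x) := by
    have a1 : CT (fun x : List V × List (List Γ) => linRow R x.1 x.2) (fun x => size x) :=
      (ct_linRow R hR).mono 1 (fun x => by rw [size_prod]; omega)
    have a2 : CT (fun x : List (Fin (R.D + 1)) × List V => x.1.zip x.2) (fun x => size x) :=
      CT.zip.mono 1 (fun x => by rw [size_prod]; omega)
    exact r04_comp a2 (r04_pair r04_fst (r04_comp a1 r04_snd))
  obtain ⟨C, hC⟩ := h1.size_le
  have h2 : CT (fun x : List (Fin (R.D + 1)) × (List V × List (List Γ)) =>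
      (((true, List.replicate R.D R.g0) : Bool × List Γ), x.1.zip (linRow R x.2.1 x.2.2)))
      (fun x => size x) := r04_pair (r04_const _) h1
  have h3 := (ct_scan (ct_cellStep R hR b)).comp h2
  obtain ⟨S, hS⟩ : ∃ S : ℕ, S = size ((true, List.replicate R.D R.g0) : Bool × List Γ) := ⟨_, rfl⟩
  obtain ⟨P, hP⟩ : ∃ P : ℕ, P = r04_pot R.D (List.replicate R.D R.g0) := ⟨_, rfl⟩
  refine h3.mono (28 + S + 32 * C + 3 * P + 3 * R.D) (fun x => ?_)
  have hc := r04_scanCost R b (x.1.zip (linRow R x.2.1 x.2.2)) (true, List.replicate R.D R.g0)
    (by simp)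
  have hs := hC x
  dsimp only at hc hs ⊢
  have e0 : rowOut R b x = scan (cellStep R b) (true, List.replicate R.D R.g0)
    (x.1.zip (linRow R x.2.1 x.2.2)) := rfl
  rw [← e0] at hc
  rw [← hS, ← hP] at hc
  rw [← hS]
  rw [size_prod] at hs ⊢
  generalize size (x.1.zip (linRow R x.2.1 x.2.2)) = Z at *
  generalize size (rowOut R b x).2 = O at *
  generalize size x.1 = A at *
  generalize size x.2 = B at *
  obtain ⟨N, hN⟩ : ∃ N : ℕ, N = A + B + O + 1 := ⟨_, rfl⟩
  rw [← hN]
  have hZ : Z ≤ N + C * (2 * N) := by
    have h5 : C * (A + B + 1 + 1) ≤ C * (2 * N) := Nat.mul_le_mul_left _ (by omega)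
    omega
  have hO : (3 * R.D + 1) * O ≤ (3 * R.D + 1) * N := Nat.mul_le_mul_left _ (by omega)
  have hSN : S ≤ S * N := Nat.le_mul_of_pos_right _ (by omega)
  have hPN : P ≤ P * N := Nat.le_mul_of_pos_right _ (by omega)
  have e1 : (28 + S + 32 * C + 3 * P + 3 * R.D) * N = 27 * N + S * N + 16 * (C * (2 * N)) +
      3 * (P * N) + (3 * R.D + 1) * N := by ring
  rw [e1]
  omega

end Pool.Agent.WPR
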