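import Pool.Agent.Lib.MP_2da099_lc.R2.R03
import Pool.Agent.Lib.MP_2da099_lc.R2.R04
import Pool.Agent.Lib.MP_2da099_lc.C09

/-!
# R05: the cost of the machine

HINTS.  Compute `cls D L` once (`ct_cls`: e.g. from `ct_range`: `cl D (L - 1 - t)` for `t` in the range; reverse
the range and map `n ↦ cl D n` — a function from unary numbers to a finite type, computed by looking at the
first `D` units (`CT.lcase` `D` times); total `O((L + 1) ^ 2)`).  `runAll` is a scan over the rows with the
state `(flag, prev)` but the classes of the columns are needed in every row: put them in the state, or use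
`CT.foldlEnv`: the step is `((class, row), cls), ((flag, prev), acc)`.  Cost of a row: `ct_rowOut` (with
`ct_fincase` over the class of the row) `≤ C * (L + 1 + size row + size prev + size new row of symbols)`, and
`prev` consists of the last `D` rows of symbols: summed over all rows this is
`≤ C * ((L + 1) * (rows + 1) + size rows + (D + 2) * size (gam R L rows))`.
The initial `prev` is `replicate D (replicate L g0)` of size `O(L + 1)`.
Note: nothing is assumed about the lengths of the rows here (if you need `rows` of length `L`, you may not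
assume it; the bounds above hold in general because `zip` cuts to the shorter list: the new rows of symbols
have at most `L` entries).
-/

set_option autoImplicit false

namespace Pool.Agent.WPR

open Pool.Agent.Lib.PolyTime Pool.Agent.WPM Function

section General

variable {α β γ : Type} [Enc α] [Enc β] [Enc γ]

theorem r05_comp {f : α → β} {g : β → γ} {M : α → ℕ} {K : ℕ} (hM : ∀ a, size a ≤ K * (M a + 1))
    (hg : CT g (fun b => size b)) (hf : CT f M) : CT (fun a => g (f a)) M := by
  obtain ⟨C, hC⟩ := hf.size_le
  refine (hg.comp hf).mono (K + C + 1) (fun a => ?_)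
  have h1 := hC a
  have h2 := hM a
  have e : (K + C + 1) * (M a + 1) = K * (M a + 1) + C * (M a + 1) + (M a + 1) := by ring
  omega

theorem r05_pair {f : α → β} {g : α → γ} {M : α → ℕ} {K : ℕ} (hM : ∀ a, size a ≤ K * (M a + 1))
    (hf : CT f M) (hg : CT g M) : CT (fun a => (f a, g a)) M := by
  refine (hf.pair hg).mono (K + 2) (fun a => ?_)
  have h2 := hM a
  have e : (K + 2) * (M a + 1) = K * (M a + 1) + 2 * (M a + 1) := by ring
  omega

theorem r05_lin {f : α → β} {M : α → ℕ} {K : ℕ} (hM : ∀ a, size a ≤ K * (M a + 1))
    (hf : CT f (fun a => size a)) : CT f M := hf.mono K hM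

theorem r05_min (N : ℕ) (F : ℕ → β) :
    CT (fun l : List Unit => F (min l.length N)) (fun l => size l) := by
  induction N generalizing F with
  | zero => exact (r04_const (F 0)).congr (fun l => by simp)
  | succ N ih =>
    have hf : CT (fun _ : Unit => F 0) (fun u => size u) := CT.const (F 0)
    have hg : CT (fun x : (Unit × List Unit) × Unit => F (min x.1.2.length N + 1))
        (fun x => size x) :=
      r04_comp (f := fun x : (Unit × List Unit) × Unit => x.1.2)
        (g := fun l : List Unit => F (min l.length N + 1)) (ih (fun k => F (k + 1)))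
        (r04_comp (f := fun x : (Unit × List Unit) × Unit => x.1)
          (g := fun x : Unit × List Unit => x.2) r04_snd r04_fst)
    have h1 : CT (fun l : List Unit => (l, ())) (fun l => size l) := r04_pair r04_id (r04_const ())
    refine (((CT.lcase hf hg).comp h1).mono 8 (fun l => ?_)).congr (fun l => ?_)
    · have hu : size () = 1 := rfl
      cases l with
      | nil => dsimp only; rw [hu, size_nil]; omega
      | cons a l =>
        dsimp only
        rw [size_prod, size_prod, size_cons, hu]
        dsimp only
        omega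
    · cases l with
      | nil => simp
      | cons a l => simp only [List.length_cons, Nat.add_min_add_right]

theorem r05_units (n : ℕ) : size (List.replicate n ()) = size n := by
  simp only [size, enc_replicate_unit]

theorem r05_cl (D : ℕ) : CT (fun n : ℕ => cl D n) (fun n => size n) := by
  refine (((r05_min D (cl D)).comp ct_units).mono 1 (fun n => ?_)).congr (fun n => ?_)
  · rw [r05_units]
    omega
  · apply Fin.ext
    show min (min (List.replicate n ()).length D) D = min n D
    rw [List.length_replicate, min_assoc, min_self]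

theorem r05_map_size (l : List α) : (l.map (fun a => size a)).sum ≤ size l := by
  induction l with
  | nil => simp
  | cons a l ih => rw [List.map_cons, List.sum_cons, size_cons]; omega

theorem r05_map {f : α → β} (h : CT f (fun a => size a)) :
    CT (fun l : List α => l.map f) (fun l => size l) :=
  (ct_map h).mono 2 (fun l => by
    have := r05_map_size l
    omega)

theorem r05_size_replicate (n : ℕ) (a : α) : size (List.replicate n a) = n * (size a + 1) + 1 := by
  induction n with
  | zero => simp
  | succ n ih => rw [List.replicate_succ, size_cons, ih]; ring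

omit [Enc α] [Enc β] in
theorem r05_scan_fst {σ : Type} (f : σ × α → σ × β) (l : List α) (s : σ) :
    (scan f s l).1 = l.foldl (fun s a => (f (s, a)).1) s := by
  induction l generalizing s with
  | nil => rfl
  | cons a l ih => rw [scan, List.foldl_cons, ← ih]

end General

theorem ct_cls (D : ℕ) : CT (fun L : ℕ => cls D L) (fun L => (L + 1) ^ 2) := by
  have h1 : CT (fun l : List ℕ => l.reverse.map (cl D)) (fun l => size l) :=
    r04_comp (r05_map (r05_cl D)) CT.reverse
  refine ((h1.comp ct_range).mono 4 (fun L => ?_)).congr (fun L => ?_)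
  · have := size_range L
    nlinarith
  · have e : (List.range L).reverse = (List.range L).map (fun t => L - 1 - t) := by
      rw [List.range_eq_range', List.reverse_range', ← List.range_eq_range']
      simp
    rw [cls, e, List.map_map]
    rfl

variable {V Γ : Type} [AddCommGroup V] [Enc V] [Enc Γ]

/-- one row -/
def r05_step (R : RData V Γ)
    (y : ((Fin (R.D + 1) × List V) × List (Fin (R.D + 1))) × (Bool × List (List Γ))) :
    Bool × List (List Γ) :=
  (y.2.1 && (rowOut R y.1.1.1 (y.1.2, (y.1.1.2, y.2.2))).1.1,
    ((rowOut R y.1.1.1 (y.1.2, (y.1.1.2, y.2.2))).2 :: y.2.2).take R.D)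

theorem r05_ct_step (R : RData V Γ) (hR : R.Fast) :
    CT (r05_step R) (fun y => size y + size (rowOut R y.1.1.1 (y.1.2, (y.1.1.2, y.2.2))).2) := by
  have hRow : CT (fun x : Fin (R.D + 1) × (List (Fin (R.D + 1)) × (List V × List (List Γ))) =>
      rowOut R x.1 x.2) (fun x => size x.2.1 + size x.2.2 + size (rowOut R x.1 x.2).2) :=
    ct_fincase (f := rowOut R) (fun b => ct_rowOut R hR b)
  have arr : CT (fun y : ((Fin (R.D + 1) × List V) × List (Fin (R.D + 1))) ×
      (Bool × List (List Γ)) => (y.1.1.1, (y.1.2, (y.1.1.2, y.2.2)))) (fun y => size y) :=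
    r04_pair (r04_comp r04_fst (r04_comp r04_fst r04_fst))
      (r04_pair (r04_comp r04_snd r04_fst)
        (r04_pair (r04_comp r04_snd (r04_comp r04_fst r04_fst)) (r04_comp r04_snd r04_snd)))
  have h1 : CT (fun y : ((Fin (R.D + 1) × List V) × List (Fin (R.D + 1))) ×
      (Bool × List (List Γ)) => rowOut R y.1.1.1 (y.1.2, (y.1.1.2, y.2.2)))
      (fun y => size y + size (rowOut R y.1.1.1 (y.1.2, (y.1.1.2, y.2.2))).2) := by
    refine (hRow.comp arr).mono 2 (fun y => ?_)
    simp only [size_prod]
    omega
  have hM : ∀ y : ((Fin (R.D + 1) × List V) × List (Fin (R.D + 1))) × (Bool × List (List Γ)),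
      size y ≤ 1 * (size y + size (rowOut R y.1.1.1 (y.1.2, (y.1.1.2, y.2.2))).2 + 1) := by
    intro y
    omega
  have h2 := r05_pair hM h1 (r05_lin hM r04_snd)
  have hand : CT (fun p : Bool × Bool => p.1 && p.2) (fun p => size p) :=
    (CT.fin (fun p : Bool × Bool => p.1 && p.2)).mono 1 (fun p => by omega)
  have h3 : CT (fun z : ((Bool × List Γ) × List Γ) × (Bool × List (List Γ)) =>
      (z.2.1 && z.1.1.1, (z.1.2 :: z.2.2).take R.D)) (fun z => size z) :=
    r04_pair (r04_comp hand (r04_pair (r04_comp r04_fst r04_snd)
        (r04_comp r04_fst (r04_comp r04_fst r04_fst))))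
      (r04_comp (r04_take R.D) (r04_cons (r04_comp r04_snd r04_fst) (r04_comp r04_snd r04_snd)))
  have h4 := r05_comp hM h3 h2
  exact h4

omit [Enc V] [Enc Γ] in
theorem r05_step_eq (R : RData V Γ) (L : ℕ) (s : Bool × List (List Γ))
    (a : Fin (R.D + 1) × List V) :
    r05_step R ((a, cls R.D L), s) = (runStep R L (s, a)).1 := rfl

omit [Enc V] [Enc Γ] in
theorem r05_out_eq (R : RData V Γ) (L : ℕ) (s : Bool × List (List Γ))
    (a : Fin (R.D + 1) × List V) :
    (rowOut R a.1 (cls R.D L, (a.2, s.2))).2 = (runStep R L (s, a)).2 := rfl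

theorem r05_foldCost (R : RData V Γ) (L : ℕ) (l : List (Fin (R.D + 1) × List V)) :
    ∀ s : Bool × List (List Γ), s.2.length ≤ R.D →
    foldCost (fun y : (Fin (R.D + 1) × List V) × (Bool × List (List Γ)) =>
        size (((y.1, cls R.D L), y.2) :
          ((Fin (R.D + 1) × List V) × List (Fin (R.D + 1))) × (Bool × List (List Γ))) +
        size (rowOut R y.1.1 (cls R.D L, (y.1.2, y.2.2))).2)
      (fun y => r05_step R ((y.1, cls R.D L), y.2)) l s ≤
      r04_pot R.D s.2 + 7 * size l + l.length * size (cls R.D L) +
        (R.D + 1) * size (scan (runStep R L) s l).2 := by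
  induction l with
  | nil =>
    intro s hs
    rw [foldCost]
    exact Nat.zero_le _
  | cons a l ih =>
    intro s hs
    have hst : (r05_step R ((a, cls R.D L), s)).2 = ((runStep R L (s, a)).2 :: s.2).take R.D := rfl
    have hlen : (r05_step R ((a, cls R.D L), s)).2.length ≤ R.D := by
      rw [hst, List.length_take]
      omega
    have h1 := ih _ hlen
    have h2 := r04_pot_step R.D (runStep R L (s, a)).2 s.2 hs
    have h3 := r04_size_bool s.1
    rw [hst] at h1
    rw [foldCost, scan, size_cons, size_cons, List.length_cons]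
    dsimp only at h1 h2 ⊢
    rw [size_prod, size_prod, size_prod s]
    dsimp only
    rw [r05_out_eq R L s a]
    rw [r05_step_eq] at h1 ⊢
    generalize size (runStep R L (s, a)).2 = G at *
    generalize size (scan (runStep R L) (runStep R L (s, a)).1 l).2 = O at *
    generalize size (cls R.D L) = E at *
    have e1 : (R.D + 1) * (G + O + 1) = R.D * (G + 1) + (G + 1) + (R.D + 1) * O := by ring
    have e2 : (l.length + 1) * E = l.length * E + E := by ring
    rw [e1, e2]
    omega

theorem ct_runM (R : RData V Γ) (hR : R.Fast) :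
    CT (fun x : ℕ × List (List V) => runM R x.1 x.2)
      (fun x => (x.1 + x.2.length + 1) ^ 2 + size x.2 + size (gam R x.1 x.2)) := by
  obtain ⟨M, hMd⟩ : ∃ M : ℕ × List (List V) → ℕ, M = fun x =>
    (x.1 + x.2.length + 1) ^ 2 + size x.2 + size (gam R x.1 x.2) := ⟨_, rfl⟩
  have hMge : ∀ x : ℕ × List (List V), (x.1 + x.2.length + 1) ^ 2 ≤ M x ∧ size x.2 ≤ M x ∧
      size (gam R x.1 x.2) ≤ M x := by
    intro x
    rw [hMd]
    dsimp only
    omega
  rw [← hMd]
  have hlin : ∀ x : ℕ × List (List V), x.1 + x.2.length + 1 ≤ M x := by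
    intro x
    have := (hMge x).1
    nlinarith
  have hM : ∀ x : ℕ × List (List V), size x ≤ 3 * (M x + 1) := by
    intro x
    have h1 := hlin x
    have h2 := (hMge x).2.1
    rw [size_prod, size_nat]
    omega
  obtain ⟨κ, hκ⟩ := size_list_fin (Fin (R.D + 1))
  have hcls : ∀ L, size (cls R.D L) ≤ κ * (L + 1) := by
    intro L
    have := hκ (cls R.D L)
    rwa [cls, List.length_map, List.length_range] at this
  -- preparation
  have i1 : CT (fun x : ℕ × List (List V) => (cls R.D x.2.length).zip x.2) M := by
    have a1 : CT (fun x : ℕ × List (List V) => x.2.length) (fun x => size x) :=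
      r04_comp ct_length r04_snd
    have a2 : CT (fun x : ℕ × List (List V) => cls R.D x.2.length) M := by
      refine ((ct_cls R.D).comp a1).mono 4 (fun x => ?_)
      have h1 := hM x
      have h2 := (hMge x).1
      have h3 : (x.2.length + 1) ^ 2 ≤ (x.1 + x.2.length + 1) ^ 2 :=
        Nat.pow_le_pow_left (by omega) 2
      omega
    have a3 : CT (fun x : List (Fin (R.D + 1)) × List (List V) => x.1.zip x.2)
        (fun x => size x) := CT.zip.mono 1 (fun x => by rw [size_prod]; omega)
    exact r05_comp hM a3 (r05_pair hM a2 (r05_lin hM r04_snd))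
  have i2 : CT (fun x : ℕ × List (List V) => cls R.D x.1) M := by
    refine ((ct_cls R.D).comp (r04_fst (α := ℕ) (β := List (List V)))).mono 4 (fun x => ?_)
    have h1 := hM x
    have h2 := (hMge x).1
    have h3 : (x.1 + 1) ^ 2 ≤ (x.1 + x.2.length + 1) ^ 2 := Nat.pow_le_pow_left (by omega) 2
    omega
  have i3 : CT (fun x : ℕ × List (List V) =>
      ((true, List.replicate R.D (List.replicate x.1 R.g0)) : Bool × List (List Γ))) M := by
    have a1 : CT (fun x : ℕ × List (List V) => (x.1, R.g0)) (fun x => size x) :=
      r04_pair r04_fst (r04_const _)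
    have a2 : CT (fun x : ℕ × List (List V) => List.replicate x.1 R.g0) M := by
      refine (ct_replicate.comp a1).mono (3 + size R.g0) (fun x => ?_)
      have h1 := hM x
      have h2 := hlin x
      dsimp only
      have h3 : (x.1 + 1) * size R.g0 ≤ (M x + 1) * size R.g0 :=
        Nat.mul_le_mul_right _ (by omega)
      have e : (3 + size R.g0) * (M x + 1) = 3 * (M x + 1) + (M x + 1) * size R.g0 := by ring
      omega
    have a3 : CT (fun r : List Γ => List.replicate R.D r) (fun r => size r) := by
      have b1 : CT (fun r : List Γ => (R.D, r)) (fun _ => 0) := CT.pushConst R.D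
      refine (ct_replicate.comp b1).mono (R.D + 1) (fun r => ?_)
      dsimp only
      have e : (R.D + 1) * (size r + 1) = (R.D + 1) * size r + (R.D + 1) := by ring
      omega
    have a4 : CT (fun r : List (List Γ) => (true, r)) (fun r => size r) :=
      (CT.pushConst true).mono 1 (fun r => by omega)
    exact r05_comp hM a4 (r05_comp hM a3 a2)
  have prep := r05_pair hM i1 (r05_pair hM i2 i3)
  obtain ⟨C, hC⟩ := prep.size_le
  have hfold := (CT.foldlEnv (r05_ct_step R hR)).comp prep
  have hfinal : CT (fun x : ℕ × List (List V) => (((cls R.D x.2.length).zip x.2).foldl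
      (fun s a => r05_step R ((a, cls R.D x.1), s))
      (true, List.replicate R.D (List.replicate x.1 R.g0)))) M := by
    refine hfold.mono (1 + 24 + 8 * C + 2 * κ + R.D * (R.D * (size R.g0 + 3)) + (R.D + 1))
      (fun x => ?_)
    have hc := r05_foldCost R x.1 ((cls R.D x.2.length).zip x.2)
      (true, List.replicate R.D (List.replicate x.1 R.g0)) (by simp)
    have hs := hC x
    have hx := hM x
    have hpot := r04_pot_replicate R.D R.D (List.replicate x.1 R.g0)
    rw [r05_size_replicate] at hpot
    have hlen : ((cls R.D x.2.length).zip x.2).length = x.2.length := by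
      rw [List.length_zip, cls, List.length_map, List.length_range, min_self]
    have hg : scan (runStep R x.1) (true, List.replicate R.D (List.replicate x.1 R.g0))
      ((cls R.D x.2.length).zip x.2) = runAll R x.1 x.2 := rfl
    rw [hg] at hc
    have hg2 : (runAll R x.1 x.2).2 = gam R x.1 x.2 := rfl
    rw [hg2] at hc
    rw [hlen] at hc
    dsimp only at hc hs hpot ⊢
    rw [hlen]
    rw [size_prod] at hs
    dsimp only at hs
    have h1 := hlin x
    have h2 := hMge x
    have hcl := hcls x.1
    have q1 : (x.2.length + 1) * size (cls R.D x.1) ≤ κ * (M x + 1) := by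
      calc (x.2.length + 1) * size (cls R.D x.1) ≤ (x.2.length + 1) * (κ * (x.1 + 1)) :=
            Nat.mul_le_mul_left _ hcl
        _ = κ * ((x.2.length + 1) * (x.1 + 1)) := by ring
        _ ≤ κ * (x.1 + x.2.length + 1) ^ 2 := Nat.mul_le_mul_left _ (by nlinarith)
        _ ≤ κ * (M x + 1) := Nat.mul_le_mul_left _ (by omega)
    have q2 : x.2.length * size (cls R.D x.1) ≤ (x.2.length + 1) * size (cls R.D x.1) :=
      Nat.mul_le_mul_right _ (by omega)
    have q3 : R.D * (R.D * (x.1 * (size R.g0 + 1) + 1 + 1)) ≤
        R.D * (R.D * (size R.g0 + 3)) * (M x + 1) := by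
      calc R.D * (R.D * (x.1 * (size R.g0 + 1) + 1 + 1)) ≤
          R.D * (R.D * ((size R.g0 + 3) * (M x + 1))) := by
            apply Nat.mul_le_mul_left
            apply Nat.mul_le_mul_left
            nlinarith
        _ = R.D * (R.D * (size R.g0 + 3)) * (M x + 1) := by ring
    have q4 : (R.D + 1) * size (gam R x.1 x.2) ≤ (R.D + 1) * (M x + 1) :=
      Nat.mul_le_mul_left _ (by omega)
    have e : (1 + 24 + 8 * C + 2 * κ + R.D * (R.D * (size R.g0 + 3)) + (R.D + 1)) * (M x + 1) =
        (M x + 1) + 24 * (M x + 1) + 8 * (C * (M x + 1)) + 2 * (κ * (M x + 1)) +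
        R.D * (R.D * (size R.g0 + 3)) * (M x + 1) + (R.D + 1) * (M x + 1) := by ring
    rw [e]
    omega
  refine (r05_comp hM r04_fst hfinal).congr (fun x => ?_)
  have e1 : runM R x.1 x.2 = (scan (runStep R x.1)
    (true, List.replicate R.D (List.replicate x.1 R.g0)) ((cls R.D x.2.length).zip x.2)).1.1 := rfl
  rw [e1, r05_scan_fst]
  rfl

end Pool.Agent.WPR
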