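import Pool.Agent.Lib.MP_2da099_lc.R2.R01
import Pool.Agent.Lib.MP_2da099_lc.R2.N04
import Pool.Agent.Lib.MP_2da099_lc.C10
import Mathlib.Algebra.MonoidAlgebra.NoZeroDivisors
import Mathlib.Algebra.MonoidAlgebra.Support
import Mathlib.Algebra.BigOperators.Intervals
import Mathlib.Data.Prod.Lex

/-!
# R08: reduction data for the multiples of a polynomial

`h` is normalised: its lowest term (lowest row, in it the lowest column) is at `(0, 0)`, with the coefficient
`lc`; `imax`, `jmax` are the highest row and the highest column of `h`.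

HINTS.  `toL` has the coefficients `(F c).val`.  Domain: `IsDomain L2` should be found by instances
(`AddMonoidAlgebra` over a group with unique sums), else prove it with the lexicographic order.
`supp_ext` (products): for nonzero `h, K` the highest row of `h * K` is the sum of the highest rows (look at the
coefficient: the top rows are nonzero Laurent polynomials in one variable, their product is not zero); use
`AddMonoidAlgebra` degree lemmas or prove: if `r1, r2` are the top rows and `c1, c2` the largest columns in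
them then the coefficient of `h * K` at `(c1 + c2, r1 + r2)` is the product of the two coefficients (unique way
of writing).  Same for highest columns (first look at the largest column, in it the highest row), lowest term.
`hdata_quot` (direct): let `toL F = h * K`.  All exponents of `K` are in rows `0 .. H - 1 - imax`, in columns
`≥ D (H + 1)` and `≤ L - 1 - jmax`.  By induction in scanning order `(g s t).val = K.coeff (t, s)`:
`cval = F (t, s) - Σ_{(j, i) ≠ (0, 0)} h (j, i) K (t - j, s - i) = lc * K (t, s)`.  If this is not zero then the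
classes are `≥ imax, jmax` and `dec` gives `K (t, s)`, if it is zero `dec` gives `0`.
`hdata_ok`: `sound`: `G = h * (v / lc)`; `complete`: if `G = h * K`, `G (0, 0) ≠ 0` and `G` has no lower terms,
the lowest term of `K` is at `(0, 0)` and `G (0, 0) = lc * K (0, 0)`, and the highest row (column) of `G` is
`imax` (`jmax`) plus that of `K`, so `b ≥ imax`, `a ≥ jmax`.
-/

set_option autoImplicit false

namespace Pool.Agent.WPR

open Pool.Agent.Lib.PolyTime Pool.Agent.WPM Function

/-- The Laurent polynomial with given coefficients. -/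
noncomputable def toL {β : ℕ} (F : (ℤ × ℤ) →₀ ZB β) : L2 :=
  ∑ c ∈ F.support, AddMonoidAlgebra.single c (F c).val

theorem toL_coeff {β : ℕ} (F : (ℤ × ℤ) →₀ ZB β) (c : ℤ × ℤ) : (toL F).coeff c = (F c).val := by
  classical
  unfold toL
  rw [AddMonoidAlgebra.coeff_sum, Finsupp.finsetSum_apply]
  simp only [AddMonoidAlgebra.coeff_single, Finsupp.single_apply]
  rw [Finset.sum_ite_eq' F.support c (fun x => (F x).val)]
  split_ifs with h
  · rfl
  · rw [Finsupp.notMem_support_iff.1 h]
    rfl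

/-- the value as a homomorphism -/
def r08_val (β : ℕ) : ZB β →+ ℤ where
  toFun := ZB.val
  map_zero' := rfl
  map_add' := fun _ _ => rfl

theorem r08_val_smul {β : ℕ} (w : ℤ) (x : ZB β) : (w • x).val = w * x.val := by
  have h := map_zsmul (r08_val β) w x
  rw [smul_eq_mul] at h
  exact h

theorem r08_ext {F G : L2} (h : ∀ c, F.coeff c = G.coeff c) : F = G :=
  AddMonoidAlgebra.ext (Finsupp.ext h)

/-- The multiples of `h`. -/
noncomputable def mulN (β : ℕ) (h : L2) : AddSubgroup ((ℤ × ℤ) →₀ ZB β) where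
  carrier := {F | h ∣ toL F}
  zero_mem' := by
    have h1 : toL (0 : (ℤ × ℤ) →₀ ZB β) = 0 := by
      refine r08_ext fun c => ?_
      rw [toL_coeff]
      rfl
    show h ∣ toL 0
    rw [h1]
    exact dvd_zero h
  add_mem' := by
    intro a b ha hb
    have h1 : toL (a + b) = toL a + toL b := by
      refine r08_ext fun c => ?_
      rw [AddMonoidAlgebra.coeff_add, Finsupp.add_apply, toL_coeff, toL_coeff, toL_coeff]
      rfl
    show h ∣ toL (a + b)
    rw [h1]
    exact dvd_add ha hb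
  neg_mem' := by
    intro a ha
    have h1 : toL (-a) = -toL a := by
      rw [eq_neg_iff_add_eq_zero]
      refine r08_ext fun c => ?_
      rw [AddMonoidAlgebra.coeff_add, Finsupp.add_apply, toL_coeff, toL_coeff]
      show -(a c).val + (a c).val = 0
      rw [neg_add_cancel]
    show h ∣ toL (-a)
    rw [h1]
    exact (dvd_neg).2 ha

/-- `h` is normalised. -/
structure HNorm (h : L2) (D imax jmax : ℕ) (lc : ℤ) : Prop where
  pos : 1 ≤ D
  hlc : lc ≠ 0
  low : h.coeff (0, 0) = lc
  supp : ∀ j i : ℤ, h.coeff (j, i) ≠ 0 → 0 ≤ i ∧ i ≤ imax ∧ j ≤ jmax ∧ -(D : ℤ) ≤ j ∧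
    (i = 0 → 0 ≤ j)
  row : ∃ j : ℤ, h.coeff (j, (imax : ℤ)) ≠ 0
  col : ∃ i : ℤ, h.coeff ((jmax : ℤ), i) ≠ 0
  hi : imax ≤ D
  hj : jmax ≤ D

/-- The reduction data. -/
noncomputable def hdata (β : ℕ) (h : L2) (D imax jmax : ℕ) (lc : ℤ) : RData (ZB β) (ZB β) where
  D := D
  w i j g := (-(h.coeff (j, (i : ℤ)))) • g
  dec b a v := if imax ≤ (b : ℕ) ∧ jmax ≤ (a : ℕ) then
      (if lc ∣ v.val then some (ZB.mk (v.val / lc)) else none)
    else if v = 0 then some 0 else none
  g0 := 0

/-- `c` is the highest term of `h` in the order given by `p`, then `q`. -/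
def r08_Top (p q : ℤ × ℤ → ℤ) (h : L2) (c : ℤ × ℤ) : Prop :=
  h.coeff c ≠ 0 ∧ ∀ a, h.coeff a ≠ 0 → p a < p c ∨ (p a = p c ∧ q a ≤ q c)

theorem r08_exists_top (p q : ℤ × ℤ → ℤ) (h : L2) (hh : h ≠ 0) : ∃ c, r08_Top p q h c := by
  have h1 : h.coeff.support.Nonempty := by
    rw [Finsupp.support_nonempty_iff]
    intro h2
    exact hh (AddMonoidAlgebra.coeff_eq_zero.1 h2)
  obtain ⟨c, hc1, hc2⟩ := Finset.exists_max_image h.coeff.support
    (fun c => toLex (p c, q c)) h1
  refine ⟨c, Finsupp.mem_support_iff.1 hc1, fun a ha => ?_⟩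
  have h3 := hc2 a (Finsupp.mem_support_iff.2 ha)
  rw [Prod.Lex.toLex_le_toLex] at h3
  exact h3

theorem r08_mul_top {p q : ℤ × ℤ → ℤ} (hp : ∀ a b, p (a + b) = p a + p b)
    (hq : ∀ a b, q (a + b) = q a + q b) (hinj : ∀ a b, p a = p b → q a = q b → a = b)
    {h K : L2} {c d : ℤ × ℤ} (hc : r08_Top p q h c) (hd : r08_Top p q K d) :
    (h * K).coeff (c + d) = h.coeff c * K.coeff d ∧ r08_Top p q (h * K) (c + d) := by
  classical
  have h1 : (h * K).coeff (c + d) = h.coeff c * K.coeff d := by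
    refine AddMonoidAlgebra.coeff_mul_add_of_uniqueAdd ?_
    intro a b ha hb hab
    have e1 := hc.2 a (Finsupp.mem_support_iff.1 ha)
    have e2 := hd.2 b (Finsupp.mem_support_iff.1 hb)
    have e3 : p a + p b = p c + p d := by rw [← hp, ← hp, hab]
    have e4 : q a + q b = q c + q d := by rw [← hq, ← hq, hab]
    exact ⟨hinj _ _ (by omega) (by omega), hinj _ _ (by omega) (by omega)⟩
  refine ⟨h1, ?_, ?_⟩
  · rw [h1]
    exact mul_ne_zero hc.1 hd.1
  · intro x hx
    have h2 := AddMonoidAlgebra.support_coeff_mul_subset h K (Finsupp.mem_support_iff.2 hx)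
    obtain ⟨a, ha, b, hb, rfl⟩ := Finset.mem_add.1 h2
    have e1 := hc.2 a (Finsupp.mem_support_iff.1 ha)
    have e2 := hd.2 b (Finsupp.mem_support_iff.1 hb)
    rw [hp, hp, hq, hq]
    omega

/-- The lowest term of a product. -/
theorem r08_low {h : L2} {D imax jmax : ℕ} {lc : ℤ} (H : HNorm h D imax jmax lc) {K : L2}
    (hK : K ≠ 0) : ∃ κ : ℤ × ℤ, K.coeff κ ≠ 0 ∧ (h * K).coeff κ = lc * K.coeff κ ∧
      (∀ c, K.coeff c ≠ 0 → κ.2 < c.2 ∨ (κ.2 = c.2 ∧ κ.1 ≤ c.1)) ∧
      (∀ c, (h * K).coeff c ≠ 0 → κ.2 < c.2 ∨ (κ.2 = c.2 ∧ κ.1 ≤ c.1)) := by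
  obtain ⟨κ, hκ⟩ := r08_exists_top (fun c => -c.2) (fun c => -c.1) K hK
  have h0 : r08_Top (fun c => -c.2) (fun c => -c.1) h (0, 0) := by
    refine ⟨?_, ?_⟩
    · rw [H.low]
      exact H.hlc
    · rintro ⟨j, i⟩ ha
      obtain ⟨h1, _, _, _, h2⟩ := H.supp j i ha
      show -i < -0 ∨ (-i = -0 ∧ -j ≤ -0)
      by_cases hi : i = 0
      · right
        have := h2 hi
        omega
      · left
        omega
  obtain ⟨h1, h2⟩ := r08_mul_top (p := fun c => -c.2) (q := fun c => -c.1)
    (fun a b => by show -(a.2 + b.2) = -a.2 + -b.2; ring)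
    (fun a b => by show -(a.1 + b.1) = -a.1 + -b.1; ring)
    (fun a b ha hb => Prod.ext (by simpa using hb) (by simpa using ha)) h0 hκ
  have e0 : ((0, 0) : ℤ × ℤ) + κ = κ := zero_add κ
  rw [e0] at h1 h2
  refine ⟨κ, hκ.1, ?_, ?_, ?_⟩
  · rw [h1, H.low]
  · intro c hc
    have h3 := hκ.2 c hc
    have h4 : -c.2 < -κ.2 ∨ (-c.2 = -κ.2 ∧ -c.1 ≤ -κ.1) := h3
    omega
  · intro c hc
    have h3 := h2.2 c hc
    have h4 : -c.2 < -κ.2 ∨ (-c.2 = -κ.2 ∧ -c.1 ≤ -κ.1) := h3
    omega

/-- The highest row of a product. -/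
theorem r08_row {h : L2} {D imax jmax : ℕ} {lc : ℤ} (H : HNorm h D imax jmax lc) {K : L2}
    (hK : K ≠ 0) : ∃ c κ : ℤ × ℤ, (h * K).coeff c ≠ 0 ∧ c.2 = imax + κ.2 ∧
      ∀ c', K.coeff c' ≠ 0 → c'.2 ≤ κ.2 := by
  obtain ⟨κ, hκ⟩ := r08_exists_top (fun c => c.2) (fun c => c.1) K hK
  have hh : h ≠ 0 := by
    rintro rfl
    exact H.hlc H.low.symm
  obtain ⟨c, hc⟩ := r08_exists_top (fun c => c.2) (fun c => c.1) h hh
  obtain ⟨_, h2⟩ := r08_mul_top (p := fun c => c.2) (q := fun c => c.1)
    (fun a b => rfl) (fun a b => rfl) (fun a b ha hb => Prod.ext hb ha) hc hκ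
  have h3 : c.2 = imax := by
    obtain ⟨j, hj⟩ := H.row
    have h4 : ((imax : ℤ)) < c.2 ∨ ((imax : ℤ) = c.2 ∧ j ≤ c.1) := hc.2 _ hj
    have h5 := (H.supp c.1 c.2 hc.1).2.1
    omega
  refine ⟨c + κ, κ, h2.1, ?_, ?_⟩
  · show c.2 + κ.2 = _
    rw [h3]
  · intro c' hc'
    have h4 : c'.2 < κ.2 ∨ (c'.2 = κ.2 ∧ c'.1 ≤ κ.1) := hκ.2 _ hc'
    omega

/-- The highest column of a product. -/
theorem r08_col {h : L2} {D imax jmax : ℕ} {lc : ℤ} (H : HNorm h D imax jmax lc) {K : L2}
    (hK : K ≠ 0) : ∃ c κ : ℤ × ℤ, (h * K).coeff c ≠ 0 ∧ c.1 = jmax + κ.1 ∧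
      ∀ c', K.coeff c' ≠ 0 → c'.1 ≤ κ.1 := by
  obtain ⟨κ, hκ⟩ := r08_exists_top (fun c => c.1) (fun c => c.2) K hK
  have hh : h ≠ 0 := by
    rintro rfl
    exact H.hlc H.low.symm
  obtain ⟨c, hc⟩ := r08_exists_top (fun c => c.1) (fun c => c.2) h hh
  obtain ⟨_, h2⟩ := r08_mul_top (p := fun c => c.1) (q := fun c => c.2)
    (fun a b => rfl) (fun a b => rfl) (fun a b ha hb => Prod.ext ha hb) hc hκ
  have h3 : c.1 = jmax := by
    obtain ⟨i, hi⟩ := H.col
    have h4 : ((jmax : ℤ)) < c.1 ∨ ((jmax : ℤ) = c.1 ∧ i ≤ c.2) := hc.2 _ hi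
    have h5 := (H.supp c.1 c.2 hc.1).2.2.1
    omega
  refine ⟨c + κ, κ, h2.1, ?_, ?_⟩
  · show c.1 + κ.1 = _
    rw [h3]
  · intro c' hc'
    have h4 : c'.1 < κ.1 ∨ (c'.1 = κ.1 ∧ c'.2 ≤ κ.2) := hκ.2 _ hc'
    omega

/-- The lowest column of a product. -/
theorem r08_lcol {h : L2} {D imax jmax : ℕ} {lc : ℤ} (H : HNorm h D imax jmax lc) {K : L2}
    (hK : K ≠ 0) : ∃ c κ : ℤ × ℤ, (h * K).coeff c ≠ 0 ∧ c.1 ≤ κ.1 ∧
      ∀ c', K.coeff c' ≠ 0 → κ.1 ≤ c'.1 := by
  obtain ⟨κ, hκ⟩ := r08_exists_top (fun c => -c.1) (fun c => c.2) K hK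
  have hh : h ≠ 0 := by
    rintro rfl
    exact H.hlc H.low.symm
  obtain ⟨c, hc⟩ := r08_exists_top (fun c => -c.1) (fun c => c.2) h hh
  obtain ⟨_, h2⟩ := r08_mul_top (p := fun c => -c.1) (q := fun c => c.2)
    (fun a b => by show -(a.1 + b.1) = -a.1 + -b.1; ring) (fun a b => rfl)
    (fun a b ha hb => Prod.ext (by simpa using ha) hb) hc hκ
  have h3 : c.1 ≤ 0 := by
    have h4 : h.coeff (0, 0) ≠ 0 := by
      rw [H.low]
      exact H.hlc
    have h5 : -(0 : ℤ) < -c.1 ∨ (-(0 : ℤ) = -c.1 ∧ (0 : ℤ) ≤ c.2) := hc.2 _ h4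
    omega
  refine ⟨c + κ, κ, h2.1, ?_, ?_⟩
  · show c.1 + κ.1 ≤ κ.1
    omega
  · intro c' hc'
    have h4 : -c'.1 < -κ.1 ∨ (-c'.1 = -κ.1 ∧ c'.2 ≤ κ.2) := hκ.2 _ hc'
    omega

theorem r08_flat {ι κ : Type} (l : List ι) (g : ι → List κ) (f : κ → ℤ) :
    ((l.flatMap g).map f).sum = (l.map (fun i => ((g i).map f).sum)).sum := by
  induction l with
  | nil => rfl
  | cons a l ih => rw [List.flatMap_cons, List.map_append, List.sum_append, ih, List.map_cons,
      List.sum_cons]

theorem r08_range (n : ℕ) (f : ℕ → ℤ) : ((List.range n).map f).sum = ∑ i ∈ Finset.range n, f i :=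
  rfl

theorem r08_conv {h : L2} {D imax jmax : ℕ} {lc : ℤ} (H : HNorm h D imax jmax lc) (K : L2)
    (s t : ℤ) : (h * K).coeff (t, s) = lc * K.coeff (t, s) +
      ((offs D).map (fun o => h.coeff (o.2, (o.1 : ℤ)) * K.coeff (t - o.2, s - o.1))).sum +
      ((List.range D).map (fun j : ℕ => h.coeff ((j : ℤ) + 1, 0) *
        K.coeff (t - ((j : ℤ) + 1), s))).sum := by
  classical
  set Φ : ℤ × ℤ → ℤ := fun c => h.coeff c * K.coeff (t - c.1, s - c.2) with hΦ
  have h1 : (h * K).coeff (t, s) = ∑ c ∈ h.coeff.support, Φ c := by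
    rw [AddMonoidAlgebra.coeff_mul_apply_left, Finsupp.sum]
    refine Finset.sum_congr rfl fun c _ => ?_
    have e : -c + (t, s) = (t - c.1, s - c.2) := by
      refine Prod.ext ?_ ?_
      · show -c.1 + t = t - c.1
        ring
      · show -c.2 + s = s - c.2
        ring
    rw [e]
  set e : ℕ × ℕ → ℤ × ℤ := fun x => ((x.2 : ℤ) - D, (x.1 : ℤ)) with he
  have hinj : Set.InjOn e (Finset.range (D + 1) ×ˢ Finset.range (2 * D + 1) : Finset (ℕ × ℕ)) := by
    intro x _ y _ hxy
    have h2 : (x.2 : ℤ) - D = (y.2 : ℤ) - D := congrArg Prod.fst hxy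
    have h3 : (x.1 : ℤ) = (y.1 : ℤ) := congrArg Prod.snd hxy
    exact Prod.ext (by omega) (by omega)
  have h2 : ∑ c ∈ h.coeff.support, Φ c =
      ∑ c ∈ (Finset.range (D + 1) ×ˢ Finset.range (2 * D + 1)).image e, Φ c := by
    refine Finset.sum_subset ?_ ?_
    · rintro ⟨j, i⟩ hc
      rw [Finsupp.mem_support_iff] at hc
      obtain ⟨a1, a2, a3, a4, a5⟩ := H.supp j i hc
      have b1 := H.hi
      have b2 := H.hj
      rw [Finset.mem_image]
      refine ⟨(i.toNat, (j + D).toNat), ?_, ?_⟩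
      · rw [Finset.mem_product, Finset.mem_range, Finset.mem_range]
        constructor
        · show i.toNat < D + 1
          omega
        · show (j + D).toNat < 2 * D + 1
          omega
      · show (((j + D).toNat : ℤ) - D, (i.toNat : ℤ)) = (j, i)
        refine Prod.ext ?_ ?_
        · show (((j + D).toNat : ℤ) - D) = j
          omega
        · show (i.toNat : ℤ) = i
          omega
    · intro c _ hc
      rw [Finsupp.notMem_support_iff] at hc
      simp only [hΦ, hc, zero_mul]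
  rw [h1, h2, Finset.sum_image hinj, Finset.sum_product, Finset.sum_range_succ', r08_range]
  have h3 : ((offs D).map (fun o => h.coeff (o.2, (o.1 : ℤ)) * K.coeff (t - o.2, s - o.1))).sum =
      ∑ i ∈ Finset.range D, ∑ j ∈ Finset.range (2 * D + 1), Φ (e (i + 1, j)) := by
    unfold offs
    rw [r08_flat, r08_range]
    refine Finset.sum_congr rfl fun i _ => ?_
    rw [List.map_map, r08_range]
    rfl
  have h4 : ∑ j ∈ Finset.range (2 * D + 1), Φ (e (0, j)) = lc * K.coeff (t, s) +
      ∑ j ∈ Finset.range D, h.coeff ((j : ℤ) + 1, 0) * K.coeff (t - ((j : ℤ) + 1), s) := by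
    have h5 : 2 * D + 1 = D + (D + 1) := by ring
    rw [h5, Finset.sum_range_add, Finset.sum_range_succ']
    have h6 : ∑ j ∈ Finset.range D, Φ (e (0, j)) = 0 := by
      refine Finset.sum_eq_zero fun j hj => ?_
      rw [Finset.mem_range] at hj
      show h.coeff ((j : ℤ) - D, ((0 : ℕ) : ℤ)) * _ = 0
      by_cases hz : h.coeff ((j : ℤ) - D, ((0 : ℕ) : ℤ)) = 0
      · rw [hz, zero_mul]
      · have h7 := (H.supp _ _ hz).2.2.2.2 rfl
        omega
    have h7 : Φ (e (0, D + 0)) = lc * K.coeff (t, s) := by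
      show h.coeff (((D + 0 : ℕ) : ℤ) - D, ((0 : ℕ) : ℤ)) *
        K.coeff (t - (((D + 0 : ℕ) : ℤ) - D), s - ((0 : ℕ) : ℤ)) = _
      have e1 : ((D + 0 : ℕ) : ℤ) - D = 0 := by simp
      rw [e1, Nat.cast_zero, sub_zero, sub_zero, H.low]
    have h8 : ∑ x ∈ Finset.range D, Φ (e (0, D + (x + 1))) =
        ∑ j ∈ Finset.range D, h.coeff ((j : ℤ) + 1, 0) * K.coeff (t - ((j : ℤ) + 1), s) := by
      refine Finset.sum_congr rfl fun j _ => ?_
      show h.coeff (((D + (j + 1) : ℕ) : ℤ) - D, ((0 : ℕ) : ℤ)) *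
        K.coeff (t - (((D + (j + 1) : ℕ) : ℤ) - D), s - ((0 : ℕ) : ℤ)) = _
      have e1 : ((D + (j + 1) : ℕ) : ℤ) - D = (j : ℤ) + 1 := by
        push_cast
        ring
      rw [e1, Nat.cast_zero, sub_zero]
    rw [h6, h7, h8]
    ring
  rw [h3, h4]
  ring

theorem r08_offs {D : ℕ} {o : ℕ × ℤ} (ho : o ∈ offs D) : 1 ≤ o.1 := by
  unfold offs at ho
  rw [List.mem_flatMap] at ho
  obtain ⟨i, _, hi⟩ := ho
  rw [List.mem_map] at hi
  obtain ⟨j, _, rfl⟩ := hi
  show 1 ≤ i + 1
  omega

theorem r08_cl {D n m : ℕ} (h1 : m ≤ n) (h2 : m ≤ D) : m ≤ (cl D n : ℕ) := le_min h1 h2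

theorem hdata_ok {β : ℕ} {h : L2} {D imax jmax : ℕ} {lc : ℤ} (H : HNorm h D imax jmax lc) :
    (hdata β h D imax jmax lc).Ok (mulN β h) := by
  classical
  constructor
  · exact H.pos
  · intro v F hF
    have h1 : toL (sh v F) = mm v * toL F := by
      refine r08_ext fun c => ?_
      rw [toL_coeff, sh_apply, mm, AddMonoidAlgebra.coeff_single_mul_apply, toL_coeff, one_mul,
        neg_add_eq_sub]
    show h ∣ toL (sh v F)
    rw [h1]
    exact Dvd.dvd.mul_left hF _
  · intro i j
    show (-(h.coeff (j, (i : ℤ)))) • (0 : ZB β) = 0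
    rw [smul_zero]
  · intro b a
    show (if imax ≤ (b : ℕ) ∧ jmax ≤ (a : ℕ) then
      (if lc ∣ (0 : ZB β).val then some (ZB.mk ((0 : ZB β).val / lc)) else none)
      else if (0 : ZB β) = 0 then some 0 else none) = some (0 : ZB β)
    have h0 : (0 : ZB β).val = 0 := rfl
    rw [h0, if_pos (dvd_zero lc), Int.zero_ediv, if_pos rfl]
    split_ifs
    · rfl
    · rfl
  · intro b a c g hg
    have hg' : (if imax ≤ (b : ℕ) ∧ jmax ≤ (a : ℕ) then
      (if lc ∣ c.val then some (ZB.mk (c.val / lc) : ZB β) else none)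
      else if c = 0 then some 0 else none) = some g := hg
    by_cases hba : imax ≤ (b : ℕ) ∧ jmax ≤ (a : ℕ)
    · rw [if_pos hba] at hg'
      by_cases hd : lc ∣ c.val
      · rw [if_pos hd, Option.some_inj] at hg'
        have hgc : lc * g.val = c.val := by
          rw [← hg']
          exact Int.mul_ediv_cancel' hd
        let G : (ℤ × ℤ) →₀ ZB β := h.coeff.mapRange (fun z : ℤ => (ZB.mk (z * g.val) : ZB β))
          (by show (0 : ℤ) * g.val = 0; rw [zero_mul])
        have hG : ∀ x, (G x).val = h.coeff x * g.val := fun x => rfl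
        have hG2 : ∀ x, G x ≠ 0 → h.coeff x ≠ 0 := by
          intro x hx h0
          apply hx
          show h.coeff x * g.val = 0
          rw [h0, zero_mul]
        refine ⟨G, ?_, ?_, ?_, ?_, ?_⟩
        · have h1 : toL G = h * AddMonoidAlgebra.single 0 g.val := by
            refine r08_ext fun x => ?_
            rw [toL_coeff, AddMonoidAlgebra.coeff_mul_single_apply, hG, neg_zero, add_zero]
          show h ∣ toL G
          rw [h1]
          exact dvd_mul_right _ _
        · show h.coeff (0, 0) * g.val = c.val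
          rw [H.low, hgc]
        · intro j i hji
          obtain ⟨a1, a2, a3, a4, a5⟩ := H.supp j i (hG2 _ hji)
          have b1 : ((imax : ℕ) : ℤ) ≤ ((b : ℕ) : ℤ) := by exact_mod_cast hba.1
          have b2 : ((jmax : ℕ) : ℤ) ≤ ((a : ℕ) : ℤ) := by exact_mod_cast hba.2
          exact ⟨a1, a2.trans b1, a3.trans b2, a4, a5⟩
        · intro i j _
          show ((-(h.coeff (j, (i : ℤ)))) • g).val = -(h.coeff (j, (i : ℤ)) * g.val)
          rw [r08_val_smul, neg_mul]
        · intro j _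
          show ((-(h.coeff (j, ((0 : ℕ) : ℤ)))) • g).val = -(h.coeff (j, 0) * g.val)
          rw [r08_val_smul, neg_mul]
          rfl
      · rw [if_neg hd] at hg'
        exact absurd hg' (by simp)
    · rw [if_neg hba] at hg'
      by_cases hc : c = 0
      · rw [if_pos hc, Option.some_inj] at hg'
        subst hg'
        refine ⟨0, (mulN β h).zero_mem, ?_, ?_, ?_, ?_⟩
        · rw [Finsupp.zero_apply, hc]
        · intro j i hji
          exact absurd (Finsupp.zero_apply) hji
        · intro i j _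
          show ((-(h.coeff (j, (i : ℤ)))) • (0 : ZB β)) = -(0 : ZB β)
          rw [smul_zero, neg_zero]
        · intro j _
          show ((-(h.coeff (j, ((0 : ℕ) : ℤ)))) • (0 : ZB β)) = -(0 : ZB β)
          rw [smul_zero, neg_zero]
      · rw [if_neg hc] at hg'
        exact absurd hg' (by simp)
  · intro G hG b a hreg
    obtain ⟨K, hK⟩ := hG
    show (if imax ≤ ((cl D b : Fin (D + 1)) : ℕ) ∧ jmax ≤ ((cl D a : Fin (D + 1)) : ℕ) then
      (if lc ∣ (G (0, 0)).val then some (ZB.mk ((G (0, 0)).val / lc) : ZB β) else none)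
      else if G (0, 0) = 0 then some 0 else none).isSome
    by_cases h0 : G (0, 0) = 0
    · rw [h0, if_pos rfl]
      have h1 : (0 : ZB β).val = 0 := rfl
      rw [h1, if_pos (dvd_zero lc)]
      split_ifs
      · rfl
      · rfl
    · have hcoef : ∀ c, (h * K).coeff c = (G c).val := fun c => by rw [← hK, toL_coeff]
      have hne : ∀ c, (h * K).coeff c ≠ 0 → G c ≠ 0 := by
        intro c hc h1
        apply hc
        rw [hcoef, h1]
        rfl
      have h00 : (h * K).coeff (0, 0) ≠ 0 := by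
        rw [hcoef]
        exact h0
      have hK0 : K ≠ 0 := by
        rintro rfl
        rw [mul_zero] at h00
        exact h00 rfl
      obtain ⟨κ, k1, k2, k3, k4⟩ := r08_low H hK0
      have hκ : κ = (0, 0) := by
        have e1 : (h * K).coeff κ ≠ 0 := by
          rw [k2]
          exact mul_ne_zero H.hlc k1
        obtain ⟨a1, _, _, a2⟩ := hreg κ.1 κ.2 (hne _ e1)
        have e2 : κ.2 < 0 ∨ (κ.2 = 0 ∧ κ.1 ≤ 0) := k4 (0, 0) h00
        have e3 : κ.2 = 0 := by omega
        have e4 := a2 e3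
        exact Prod.ext (by show κ.1 = 0; omega) e3
      rw [hκ] at k1 k2
      have hdvd : lc ∣ (G (0, 0)).val := by
        rw [← hcoef, k2]
        exact dvd_mul_right _ _
      obtain ⟨c1, κ1, r1, r2, r3⟩ := r08_row H hK0
      obtain ⟨c2, κ2, s1, s2, s3⟩ := r08_col H hK0
      have hb : imax ≤ b := by
        have e1 := (hreg c1.1 c1.2 (hne _ r1)).2.1
        have e2 : (0 : ℤ) ≤ κ1.2 := r3 (0, 0) k1
        omega
      have ha : jmax ≤ a := by
        have e1 := (hreg c2.1 c2.2 (hne _ s1)).2.2.1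
        have e2 : (0 : ℤ) ≤ κ2.1 := s3 (0, 0) k1
        omega
      rw [if_pos ⟨r08_cl hb H.hi, r08_cl ha H.hj⟩, if_pos hdvd]
      rfl

theorem hdata_fast {β : ℕ} [Fact (2 ≤ β)] (h : L2) (D imax jmax : ℕ) {lc : ℤ} (hlc : lc ≠ 0)
    (hβ : β = max 2 lc.natAbs) : (hdata β h D imax jmax lc).Fast := by
  refine ⟨fun i j => ct_zblin β (-(h.coeff (j, (i : ℤ)))), fun b a => ?_⟩
  by_cases hba : imax ≤ (b : ℕ) ∧ jmax ≤ (a : ℕ)
  · refine (ct_zbdivlc β lc hlc hβ).congr fun v => ?_
    show _ = (if imax ≤ (b : ℕ) ∧ jmax ≤ (a : ℕ) then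
      (if lc ∣ v.val then some (ZB.mk (v.val / lc) : ZB β) else none)
      else if v = 0 then some 0 else none)
    rw [if_pos hba]
  · have h1 := (CT.fin (fun x : Bool => if x then some (0 : ZB β) else none)).comp (ct_zbzero β)
    refine (h1.congr fun v => ?_).mono 1 (fun v => by omega)
    show _ = (if imax ≤ (b : ℕ) ∧ jmax ≤ (a : ℕ) then
      (if lc ∣ v.val then some (ZB.mk (v.val / lc) : ZB β) else none)
      else if v = 0 then some 0 else none)
    rw [if_neg hba]
    by_cases hv : v = 0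
    · simp [hv]
    · simp [hv]

theorem hdata_quot {β : ℕ} {h : L2} {D imax jmax : ℕ} {lc : ℤ} (hn : HNorm h D imax jmax lc)
    (F : (ℤ × ℤ) →₀ ZB β) (H L : ℕ)
    (hF : ∀ t s : ℤ, F (t, s) ≠ 0 → 0 ≤ s ∧ s < H ∧ (D : ℤ) * (H + 1) ≤ t ∧ t < L)
    (g : ℤ → ℤ → ZB β) (hg : IsGam (hdata β h D imax jmax lc) (fun s t => F (t, s)) H L g)
    (K : L2) (hK : toL F = h * K) (s t : ℤ) : (g s t).val = K.coeff (t, s) := by
  classical
  have hcoef : ∀ c, (h * K).coeff c = (F c).val := fun c => by rw [← hK, toL_coeff]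
  have hne : ∀ c, (h * K).coeff c ≠ 0 → F c ≠ 0 := by
    intro c hc h1
    apply hc
    rw [hcoef, h1]
    rfl
  -- the support of the quotient
  have hsupp : ∀ t s : ℤ, K.coeff (t, s) ≠ 0 → 0 ≤ s ∧ s + imax < H ∧ 0 ≤ t ∧ t + jmax < L := by
    intro t s hts
    have hK0 : K ≠ 0 := by
      rintro rfl
      exact hts rfl
    obtain ⟨κ, k1, k2, k3, k4⟩ := r08_low hn hK0
    obtain ⟨c1, κ1, r1, r2, r3⟩ := r08_row hn hK0
    obtain ⟨c2, κ2, s1, s2, s3⟩ := r08_col hn hK0
    obtain ⟨c3, κ3, u1, u2, u3⟩ := r08_lcol hn hK0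
    have e1 : (h * K).coeff κ ≠ 0 := by
      rw [k2]
      exact mul_ne_zero hn.hlc k1
    have f1 := hF κ.1 κ.2 (hne _ e1)
    have f2 := hF c1.1 c1.2 (hne _ r1)
    have f3 := hF c2.1 c2.2 (hne _ s1)
    have f4 := hF c3.1 c3.2 (hne _ u1)
    have g1 : κ.2 < s ∨ (κ.2 = s ∧ κ.1 ≤ t) := k3 _ hts
    have g2 : s ≤ κ1.2 := r3 _ hts
    have g3 : t ≤ κ2.1 := s3 _ hts
    have g4 : κ3.1 ≤ t := u3 _ hts
    have g5 : 0 ≤ (D : ℤ) * (H + 1) := by positivity
    refine ⟨by omega, by omega, by omega, by omega⟩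
  -- induction in the order of the scanning
  have main : ∀ (n : ℕ) (s : ℤ), s < n → ∀ t : ℤ, (g s t).val = K.coeff (t, s) := by
    intro n
    induction n with
    | zero =>
      intro s hs t
      rw [hg.out s t (Or.inl (by simpa using hs))]
      by_contra hcon
      have h1 : K.coeff (t, s) ≠ 0 := fun h0 => hcon (by rw [h0]; rfl)
      have h2 := (hsupp t s h1).1
      simp only [Nat.cast_zero] at hs
      omega
    | succ n ihn =>
      intro s hs
      have row : ∀ (m : ℕ) (t : ℤ), t < m → (g s t).val = K.coeff (t, s) := by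
        intro m
        induction m with
        | zero =>
          intro t ht
          rw [hg.out s t (Or.inr (Or.inr (Or.inl (by simpa using ht))))]
          by_contra hcon
          have h1 : K.coeff (t, s) ≠ 0 := fun h0 => hcon (by rw [h0]; rfl)
          have h2 := (hsupp t s h1).2.2.1
          simp only [Nat.cast_zero] at ht
          omega
        | succ m ihm =>
          intro t ht
          by_cases hout : s < 0 ∨ (H : ℤ) ≤ s ∨ t < 0 ∨ (L : ℤ) ≤ t
          · rw [hg.out s t hout]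
            by_contra hcon
            have h1 : K.coeff (t, s) ≠ 0 := fun h0 => hcon (by rw [h0]; rfl)
            have h2 := hsupp t s h1
            omega
          · push Not at hout
            obtain ⟨o1, o2, o3, o4⟩ := hout
            obtain ⟨s', rfl⟩ := Int.eq_ofNat_of_zero_le o1
            obtain ⟨t', rfl⟩ := Int.eq_ofNat_of_zero_le o3
            have hs' : s' < H := by exact_mod_cast o2
            have ht' : t' < L := by exact_mod_cast o4
            set cv := cval (hdata β h D imax jmax lc) (fun s t => F (t, s)) g s' t' with hcv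
            have hval : cv.val = lc * K.coeff ((t' : ℤ), (s' : ℤ)) := by
              have h1 := r08_conv hn K (s' : ℤ) (t' : ℤ)
              rw [hcoef] at h1
              have h2 : cv.val = (F ((t' : ℤ), (s' : ℤ))).val +
                  ((offs D).map (fun o => -(h.coeff (o.2, (o.1 : ℤ)) *
                    K.coeff ((t' : ℤ) - o.2, (s' : ℤ) - o.1)))).sum +
                  ((List.range D).map (fun j : ℕ => -(h.coeff ((j : ℤ) + 1, 0) *
                    K.coeff ((t' : ℤ) - ((j : ℤ) + 1), (s' : ℤ))))).sum := by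
                have e0 : ∀ x : ZB β, x.val = r08_val β x := fun x => rfl
                rw [hcv, e0]
                unfold cval
                rw [map_add, map_add, map_list_sum, map_list_sum, List.map_map, List.map_map]
                congr 1
                · congr 1
                  refine congrArg List.sum (List.map_congr_left fun o ho => ?_)
                  have ho1 := r08_offs ho
                  have e1 := ihn ((s' : ℤ) - o.1) (by push_cast at hs; omega) ((t' : ℤ) - o.2)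
                  show ((-(h.coeff (o.2, (o.1 : ℤ)))) • g ((s' : ℤ) - o.1) ((t' : ℤ) - o.2)).val = _
                  rw [r08_val_smul, e1, neg_mul]
                · refine congrArg List.sum (List.map_congr_left fun j _ => ?_)
                  have e1 := ihm ((t' : ℤ) - ((j : ℤ) + 1)) (by push_cast at ht; omega)
                  show ((-(h.coeff ((j : ℤ) + 1, ((0 : ℕ) : ℤ)))) •
                    g (s' : ℤ) ((t' : ℤ) - ((j : ℤ) + 1))).val = _
                  rw [r08_val_smul, e1, neg_mul]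
                  rfl
              rw [h2, h1]
              have e3 : ∀ (l : List (ℕ × ℤ)) (f : ℕ × ℤ → ℤ),
                  (l.map (fun o => -(f o))).sum = -(l.map f).sum := by
                intro l f
                induction l with
                | nil => simp
                | cons a l ih => simp only [List.map_cons, List.sum_cons, ih]; ring
              have e4 : ∀ (l : List ℕ) (f : ℕ → ℤ),
                  (l.map (fun o => -(f o))).sum = -(l.map f).sum := by
                intro l f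
                induction l with
                | nil => simp
                | cons a l ih => simp only [List.map_cons, List.sum_cons, ih]; ring
              rw [e3, e4]
              ring
            have hgv := hg.inn s' t' hs' ht'
            rw [← hcv] at hgv
            have hdec : (hdata β h D imax jmax lc).dec
                (cl (hdata β h D imax jmax lc).D (H - 1 - s'))
                (cl (hdata β h D imax jmax lc).D (L - 1 - t')) cv =
                (if imax ≤ ((cl D (H - 1 - s') : Fin (D + 1)) : ℕ) ∧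
                  jmax ≤ ((cl D (L - 1 - t') : Fin (D + 1)) : ℕ) then
                (if lc ∣ cv.val then some (ZB.mk (cv.val / lc) : ZB β) else none)
                else if cv = 0 then some 0 else none) := rfl
            rw [hdec] at hgv
            by_cases hz : K.coeff ((t' : ℤ), (s' : ℤ)) = 0
            · rw [hz, mul_zero] at hval
              have hcv0 : cv = 0 := hval
              rw [hval, if_pos (dvd_zero lc), if_pos hcv0, Int.zero_ediv] at hgv
              rw [hz, hgv]
              split_ifs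
              · rfl
              · rfl
            · have h2 := hsupp _ _ hz
              have h3 : imax ≤ H - 1 - s' := by omega
              have h4 : jmax ≤ L - 1 - t' := by omega
              rw [if_pos ⟨r08_cl h3 hn.hi, r08_cl h4 hn.hj⟩, hval,
                if_pos (dvd_mul_right _ _), Int.mul_ediv_cancel_left _ hn.hlc] at hgv
              rw [hgv]
              rfl
      intro t
      exact row (t.toNat + 1) t (by push_cast; omega)
  exact main (s.toNat + 1) s (by push_cast; omega) t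

/-- Every nonzero Laurent polynomial is normalised up to a monomial. -/
theorem exists_hnorm (h : L2) (hh : h ≠ 0) :
    ∃ (v : ℤ × ℤ) (D imax jmax : ℕ) (lc : ℤ), HNorm (mm v * h) D imax jmax lc := by
  obtain ⟨c0, h0⟩ := r08_exists_top (fun c => -c.2) (fun c => -c.1) h hh
  obtain ⟨cR, hR⟩ := r08_exists_top (fun c => c.2) (fun c => c.1) h hh
  obtain ⟨cC, hC⟩ := r08_exists_top (fun c => c.1) (fun c => c.2) h hh
  obtain ⟨cL, hL⟩ := r08_exists_top (fun c => -c.1) (fun c => c.2) h hh
  have hco : ∀ j i : ℤ, (mm (-c0) * h).coeff (j, i) = h.coeff (j + c0.1, i + c0.2) := by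
    intro j i
    rw [mm, AddMonoidAlgebra.coeff_single_mul_apply, one_mul, neg_neg]
    congr 1
    refine Prod.ext ?_ ?_
    · show c0.1 + j = j + c0.1
      ring
    · show c0.2 + i = i + c0.2
      ring
  have f0 : ∀ a, h.coeff a ≠ 0 → -a.2 < -c0.2 ∨ (-a.2 = -c0.2 ∧ -a.1 ≤ -c0.1) := h0.2
  have fR : ∀ a, h.coeff a ≠ 0 → a.2 < cR.2 ∨ (a.2 = cR.2 ∧ a.1 ≤ cR.1) := hR.2
  have fC : ∀ a, h.coeff a ≠ 0 → a.1 < cC.1 ∨ (a.1 = cC.1 ∧ a.2 ≤ cC.2) := hC.2
  have fL : ∀ a, h.coeff a ≠ 0 → -a.1 < -cL.1 ∨ (-a.1 = -cL.1 ∧ a.2 ≤ cL.2) := hL.2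
  have g1 := fR _ h0.1
  have g2 := fC _ h0.1
  have g3 := fL _ h0.1
  set D : ℕ := 1 + (cR.2 - c0.2).toNat + (cC.1 - c0.1).toNat + (c0.1 - cL.1).toNat with hD
  refine ⟨-c0, D, (cR.2 - c0.2).toNat, (cC.1 - c0.1).toNat, h.coeff c0, ?_⟩
  constructor
  · omega
  · exact h0.1
  · rw [hco, zero_add, zero_add]
  · intro j i hji
    rw [hco] at hji
    have e0 : -(i + c0.2) < -c0.2 ∨ (-(i + c0.2) = -c0.2 ∧ -(j + c0.1) ≤ -c0.1) := f0 _ hji
    have eR : i + c0.2 < cR.2 ∨ (i + c0.2 = cR.2 ∧ j + c0.1 ≤ cR.1) := fR _ hji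
    have eC : j + c0.1 < cC.1 ∨ (j + c0.1 = cC.1 ∧ i + c0.2 ≤ cC.2) := fC _ hji
    have eL : -(j + c0.1) < -cL.1 ∨ (-(j + c0.1) = -cL.1 ∧ i + c0.2 ≤ cL.2) := fL _ hji
    refine ⟨by omega, by omega, by omega, by omega, fun hi => by omega⟩
  · refine ⟨cR.1 - c0.1, ?_⟩
    rw [hco]
    have e1 : cR.1 - c0.1 + c0.1 = cR.1 := by ring
    have e2 : ((cR.2 - c0.2).toNat : ℤ) + c0.2 = cR.2 := by omega
    rw [e1, e2]
    exact hR.1
  · refine ⟨cC.2 - c0.2, ?_⟩
    rw [hco]
    have e1 : cC.2 - c0.2 + c0.2 = cC.2 := by ring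
    have e2 : ((cC.1 - c0.1).toNat : ℤ) + c0.1 = cC.1 := by omega
    rw [e1, e2]
    exact hC.1
  · omega
  · omega

end Pool.Agent.WPR
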