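import Pool.Agent.Lib.MP_2da099_lc.R2.D02
import Pool.Agent.Lib.MP_2da099_lc.R2.D03
import Pool.Agent.Lib.MP_2da099_lc.R2.R05
import Pool.Agent.Lib.MP_2da099_lc.R2.R08
import Pool.Agent.Lib.MP_2da099_lc.R2.NB03
import Pool.Agent.Lib.MP_2da099_lc.R2.P10
import Mathlib.Algebra.MonoidAlgebra.NoZeroDivisors

/-!
# D04: divisibility by powers of a prime which is not flat
-/

set_option autoImplicit false

namespace Pool.Agent.WPR

open Pool.Agent.Lib.PolyTime Pool.Agent.WPM Function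

theorem d04_mm_coeff (v c : ℤ × ℤ) (F : L2) : (mm v * F).coeff c = F.coeff (c - v) := by
  unfold mm
  rw [AddMonoidAlgebra.coeff_single_mul_apply, one_mul]
  congr 1
  abel

theorem d04_affine (a b : ℕ) : CT (fun n : ℕ => a * (b + n)) (fun n => n) := by
  have h1 : CT (fun n : ℕ => (b, n)) (fun _ => 0) := CT.pushConst b
  have h2 : CT (fun n : ℕ => b + n) _ := ct_add.comp h1
  have h3 : CT (fun n : ℕ => (a, n)) (fun _ => 0) := CT.pushConst a
  have h4 : CT (fun n : ℕ => a * (b + n)) _ := ct_mul.comp (h3.comp h2)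
  refine h4.mono ((a + 1) * (b + 2) + b) (fun n => ?_)
  show 0 + b + 0 + (a + 1) * (b + n + 1) ≤ ((a + 1) * (b + 2) + b) * (n + 1)
  have e : ((a + 1) * (b + 2) + b) * (n + 1) = (a + 1) * (b + n + 1) + (a + 1) +
    (a + 1) * (b * n) + (a + 1) * n + b * n + b := by ring
  rw [e]
  generalize (a + 1) * (b * n) = u
  generalize (a + 1) * n = v
  generalize (a + 1) * (b + n + 1) = w
  generalize b * n = z
  omega

theorem d04_mm_unit (v : ℤ × ℤ) : mm v * mm (-v) = 1 := by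
  rw [← mm_add, add_neg_cancel, mm_zero]

theorem d04_dvd_mm (v : ℤ × ℤ) (a b : L2) : a ∣ mm v * b ↔ a ∣ b := by
  constructor
  · rintro ⟨c, hc⟩
    refine ⟨mm (-v) * c, ?_⟩
    calc b = (mm v * mm (-v)) * b := by rw [d04_mm_unit, one_mul]
      _ = mm (-v) * (mm v * b) := by ring
      _ = mm (-v) * (a * c) := by rw [hc]
      _ = a * (mm (-v) * c) := by ring
  · intro h
    exact h.mul_left _

theorem d04_mm_dvd (v : ℤ × ℤ) (a b : L2) : mm v * a ∣ b ↔ a ∣ b := by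
  constructor
  · rintro ⟨c, hc⟩
    exact ⟨mm v * c, by rw [hc]; ring⟩
  · rintro ⟨c, hc⟩
    refine ⟨mm (-v) * c, ?_⟩
    calc b = a * c := hc
      _ = (mm v * mm (-v)) * (a * c) := by rw [d04_mm_unit, one_mul]
      _ = mm v * a * (mm (-v) * c) := by ring

/-- The function of the contents, as a finitely supported function. -/
theorem d04_ff {β : ℕ} (G0 : List (List (ZB β))) (H L : ℕ)
    (hs : ∀ s t : ℤ, ffun G0 s t ≠ 0 → 0 ≤ s ∧ s < H ∧ 0 ≤ t ∧ t < L) :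
    ∃ FF : (ℤ × ℤ) →₀ ZB β, ∀ t s : ℤ, FF (t, s) = ffun G0 s t := by
  refine ⟨Finsupp.onFinset ((Finset.Ico (0 : ℤ) L) ×ˢ (Finset.Ico (0 : ℤ) H))
    (fun c => ffun G0 c.2 c.1) (fun c hc => ?_), fun t s => rfl⟩
  obtain ⟨h1, h2, h3, h4⟩ := hs c.2 c.1 hc
  rw [Finset.mem_product, Finset.mem_Ico, Finset.mem_Ico]
  exact ⟨⟨h3, h4⟩, ⟨h1, h2⟩⟩

theorem d04_corr {β : ℕ} {h : L2} {D imax jmax : ℕ} {lc : ℤ} (hN : HNorm h D imax jmax lc)
    (G0 : List (List (ZB β))) (L : ℕ) (m s0 : ℤ) (X : L2) (hrow : ∀ r ∈ G0, r.length = L)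
    (hval : ∀ s t : ℤ, (ffun G0 s t).val = X.coeff (t - m, s0 + s))
    (hsup : ∀ s t : ℤ, ffun G0 s t ≠ 0 → 0 ≤ s ∧ s < G0.length ∧
      (D : ℤ) * (G0.length + 1) ≤ t ∧ t < L) :
    (runM (hdata β h D imax jmax lc) L G0 = true ↔ h ∣ X) ∧
    ∀ K : L2, X = h * K → ∀ s t : ℕ, (((gam (hdata β h D imax jmax lc) L G0).getD s []).getD t
      0).val = K.coeff ((t : ℤ) - m, s0 + s) := by
  obtain ⟨FF, hFF⟩ := d04_ff G0 G0.length L
    (fun s t h => ⟨(hsup s t h).1, (hsup s t h).2.1,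
      le_trans (by positivity) (hsup s t h).2.2.1, (hsup s t h).2.2.2⟩)
  have hfun : (fun s t => FF (t, s)) = ffun G0 := by
    funext s t
    exact hFF t s
  have htoL : toL FF = mm (m, -s0) * X := by
    refine AddMonoidAlgebra.coeff_injective (Finsupp.ext (fun x => ?_))
    rw [toL_coeff, d04_mm_coeff]
    have h1 := hFF x.1 x.2
    rw [show (x.1, x.2) = x from rfl] at h1
    rw [h1, hval]
    congr 1
    refine Prod.ext rfl ?_
    show s0 + x.2 = x.2 - -s0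
    ring
  obtain ⟨hg, hrun⟩ := run_spec (hdata β h D imax jmax lc) L G0 hrow
  have hsup' : ∀ t s : ℤ, FF (t, s) ≠ 0 → 0 ≤ s ∧ s < G0.length ∧
      (D : ℤ) * (G0.length + 1) ≤ t ∧ t < L := by
    intro t s h
    rw [hFF] at h
    exact hsup s t h
  rw [← hfun] at hg hrun
  have hred := red_iff (hdata β h D imax jmax lc) (mulN β h) (hdata_ok hN) FF _ L hsup' _ hg
  constructor
  · rw [hrun, hred]
    show h ∣ toL FF ↔ _
    rw [htoL, d04_dvd_mm]
  · intro K hK s t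
    have hK2 : toL FF = h * (mm (m, -s0) * K) := by
      rw [htoL, hK]
      ring
    have h1 := hdata_quot hN FF _ L hsup' _ hg _ hK2 (s : ℤ) (t : ℤ)
    rw [gfun, if_pos ⟨Int.natCast_nonneg s, Int.natCast_nonneg t⟩, Int.toNat_natCast,
      Int.toNat_natCast, d04_mm_coeff] at h1
    refine h1.trans ?_
    congr 1
    refine Prod.ext rfl ?_
    show (s : ℤ) - -s0 = s0 + s
    ring

theorem d04_size {κ : ℕ} (n a : ℕ) (h : a ≤ κ * (n + 1)) : a + n ≤ (κ + 1) * ((n + 1) ^ 2 + 1) := by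
  nlinarith [Nat.zero_le n, Nat.zero_le κ, Nat.zero_le (κ * n), Nat.zero_le (κ * n * n),
    Nat.zero_le (n * n)]

theorem d04_len (c n0 n : ℕ) : 4 * (c * (n + n0 + 1)) ≤ 4 * c * (n0 + 1) * (n + 1) := by
  have : c * (n + n0 + 1) ≤ c * ((n0 + 1) * (n + 1)) :=
    Nat.mul_le_mul_left _ (by nlinarith [Nat.zero_le (n0 * n)])
  calc 4 * (c * (n + n0 + 1)) ≤ 4 * (c * ((n0 + 1) * (n + 1))) := by omega
    _ = 4 * c * (n0 + 1) * (n + 1) := by ring

theorem d04_total (n sI d r sd sg C1 C2 κ c4 : ℕ) (h1 : sI ≤ κ * (n + 1)) (h2 : r ≤ c4 * (n + 1))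
    (h3 : sd ≤ sI + C2 * ((n + 1) ^ 2 + 1)) (h4 : sg ≤ C1 * (n + 1) ^ 2) (h5 : d ≤ c4 * (n + 1)) :
    sI + (n + 1) ^ 2 + (n + 1) ^ 2 + ((d + r + 1) ^ 2 + sd + sg) ≤
      (2 * κ + 2 + (2 * c4 + 1) ^ 2 + 2 * C2 + C1) * (n + 1) ^ 2 := by
  have e1 : d + r + 1 ≤ (2 * c4 + 1) * (n + 1) := by nlinarith
  have e2 : (d + r + 1) ^ 2 ≤ (2 * c4 + 1) ^ 2 * (n + 1) ^ 2 := by
    rw [← mul_pow]
    exact Nat.pow_le_pow_left e1 2
  have e3 : n + 1 ≤ (n + 1) ^ 2 := by nlinarith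
  have e4 : κ * (n + 1) ≤ κ * (n + 1) ^ 2 := Nat.mul_le_mul_left _ e3
  have e5 : C2 * ((n + 1) ^ 2 + 1) ≤ 2 * C2 * (n + 1) ^ 2 := by
    have : 1 ≤ (n + 1) ^ 2 := by nlinarith
    nlinarith
  nlinarith

theorem d04_ct {α V Γ : Type} [Enc α] [AddCommGroup V] [Enc V] [Enc Γ] (R : RData V Γ)
    (hR : R.Fast) {L : α → ℕ} {G : α → List (List V)} {T1 T2 : α → ℕ} (h1 : CT L T1)
    (h2 : CT G T2) : CT (fun a => runM R (L a) (G a)) (fun a => size a + T1 a + T2 a +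
      ((L a + (G a).length + 1) ^ 2 + size (G a) + size (gam R (L a) (G a)))) := by
  have h3 : CT (fun a => (L a, G a)) (fun a => size a + T1 a + T2 a) := h1.pair h2
  have h4 := ct_runM R hR
  have h5 := h4.comp h3
  exact h5

theorem quad_div2 (f : L2) (hf : Prime f) (hflat : ¬ Flat f.coeff.support) (e : ℕ) :
    Quad (fun I : List (Ins 2) => f ^ e ∣ spoly I) := by
  classical
  obtain ⟨v2, terms, hT⟩ := exists_terms (f ^ e)
  have hh : f ^ e ≠ 0 := pow_ne_zero _ hf.ne_zero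
  obtain ⟨v1, D, imax, jmax, lc, hN⟩ := exists_hnorm (f ^ e) hh
  obtain ⟨β, hβ⟩ : ∃ β, β = max 2 lc.natAbs := ⟨_, rfl⟩
  have hfact : Fact (2 ≤ β) := ⟨by omega⟩
  have hT0 : polyT terms ≠ 0 := by
    intro h0
    apply hh
    have h1 : mm (-v2) * (mm v2 * f ^ e) = 0 := by rw [← hT, h0, mul_zero]
    calc f ^ e = (mm v2 * mm (-v2)) * f ^ e := by rw [d04_mm_unit, one_mul]
      _ = mm (-v2) * (mm v2 * f ^ e) := by ring
      _ = 0 := h1
  obtain ⟨j, n1, C, hq⟩ := quot_small (polyT terms) hT0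
  obtain ⟨N0, hnb⟩ := nb_dvd f hf hflat
  obtain ⟨n0, hn0⟩ : ∃ n0, n0 = max n1 (N0 * N0) := ⟨_, rfl⟩
  obtain ⟨c, hc0⟩ := dgrid_spec β terms j D n0
  have hc := hc0 c le_rfl
  have hfast := hdata_fast (β := β) (mm v1 * f ^ e) D imax jmax hN.hlc hβ
  -- the prime
  have hp : ∀ I : List (Ins 2), N0 ≤ prm (I.length + n0) := by
    intro I
    have h1 := lt_prm_sq (I.length + n0)
    by_contra h2
    push Not at h2
    have h3 : prm (I.length + n0) * prm (I.length + n0) ≤ N0 * N0 := Nat.mul_le_mul h2.le h2.le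
    have h4 : N0 * N0 ≤ n0 := by rw [hn0]; exact le_max_right _ _
    omega
  have hq' : ∀ (n p : ℕ) (F G : L2), p.Prime →
      n + n0 < p * p → norm1 F ≤ n → (∀ c ∈ F.coeff.support, |c.1| ≤ n ∧ |c.2| ≤ n) →
      F = polyT terms * G → ∀ c : ℤ × ℤ,
      (((dil p (polyT terms)) ^ j * G).coeff c ≠ 0 → ∃ a ∈ F.coeff.support,
        |c.1 - a.1| ≤ C * p ∧ |c.2 - a.2| ≤ C * p) ∧
      (((dil p (polyT terms)) ^ j * G).coeff c).natAbs ≤ C * (n + 1) ^ C := by
    intro n p F G h1 h2 h3 h4 h5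
    refine hq n p F G h1 ?_ h3 h4 h5
    have : n1 ≤ n0 := by rw [hn0]; exact le_max_left _ _
    omega
  obtain ⟨C1, hC1⟩ := size_quot β (polyT terms) j n0 C hq' (4 * c * (n0 + 1))
  obtain ⟨κ, hκ⟩ := size_list_fin (Ins 2)
  have ctL : CT (fun I : List (Ins 2) => 4 * (c * (I.length + n0 + 1)))
      (fun I => (I.length + 1) ^ 2) := by
    have h1 : CT (fun I : List (Ins 2) => 4 * c * (n0 + 1 + I.length))
        (fun I => size I + I.length) := (d04_affine (4 * c) (n0 + 1)).comp ct_length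
    refine (h1.mono (κ + 1) (fun I => d04_size I.length (size I) (hκ I))).congr (fun I => ?_)
    ring
  have ctG := ct_dgrid β terms j c n0
  obtain ⟨C2, hC2⟩ := ctG.size_le
  have ctF : CT (fun I : List (Ins 2) => runM (hdata β (mm v1 * f ^ e) D imax jmax lc)
      (4 * (c * (I.length + n0 + 1))) (dgrid β terms j c n0 I))
      (fun I => size I + (I.length + 1) ^ 2 + (I.length + 1) ^ 2 +
        ((4 * (c * (I.length + n0 + 1)) + (dgrid β terms j c n0 I).length + 1) ^ 2 +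
          size (dgrid β terms j c n0 I) + size (gam (hdata β (mm v1 * f ^ e) D imax jmax lc)
            (4 * (c * (I.length + n0 + 1))) (dgrid β terms j c n0 I)))) :=
    d04_ct _ hfast ctL ctG
  refine quad_of_clock ctF (fun I => ?_)
    (2 * κ + 2 + (2 * (4 * c * (n0 + 1)) + 1) ^ 2 + 2 * C2 + C1) (fun I hI => ?_)
  · obtain ⟨hlen, hrow, s0, hval, hsup⟩ := hc I
    rw [(d04_corr hN _ _ _ s0 _ hrow hval hsup).1, d04_mm_dvd, hT]
    exact hnb (prm (I.length + n0)) e j v2 (spoly I) (hp I)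
  · obtain ⟨hlen, hrow, s0, hval, hsup⟩ := hc I
    have hl2 : (dgrid β terms j c n0 I).length ≤ 4 * c * (n0 + 1) * (I.length + 1) :=
      (hlen.trans (by omega)).trans (d04_len c n0 I.length)
    obtain ⟨G, hG⟩ := hI
    have hG' : spoly I = polyT terms * (mm (-v2) * G) := by
      rw [hT, hG]
      calc f ^ e * G = (mm v2 * mm (-v2)) * (f ^ e * G) := by rw [d04_mm_unit, one_mul]
        _ = mm v2 * f ^ e * (mm (-v2) * G) := by ring
    have hK : (dil (prm (I.length + n0)) (polyT terms)) ^ j * spoly I = (mm v1 * f ^ e) *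
        (mm (v2 - v1) * ((dil (prm (I.length + n0)) (polyT terms)) ^ j * (mm (-v2) * G))) := by
      rw [hG', sub_eq_add_neg, mm_add]
      generalize (dil (prm (I.length + n0)) (polyT terms)) ^ j = W
      rw [hT]
      have h1 := d04_mm_unit v1
      linear_combination (-(W * mm v2 * f ^ e * (mm (-v2) * G))) * h1
    have hgv := (d04_corr hN _ _ _ s0 _ hrow hval hsup).2 _ hK
    obtain ⟨hl3, hl4⟩ := length_gam (hdata β (mm v1 * f ^ e) D imax jmax lc) _
      (dgrid β terms j c n0 I) hrow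
    have hsg := hC1 I (mm (-v2) * G) _
      (((c * (I.length + n0 + 1) : ℕ) : ℤ) + (v2 - v1).1) (-s0 + (v2 - v1).2) _ hG'
      (by rw [hl3]; exact hl2) (d04_len c n0 I.length) hl4 (fun s t _ _ => by
        rw [hgv s t, d04_mm_coeff]
        congr 1
        refine Prod.ext ?_ ?_
        · show (t : ℤ) - ((c * (I.length + n0 + 1) : ℕ) : ℤ) - (v2 - v1).1 = _
          ring
        · show s0 + (s : ℤ) - (v2 - v1).2 = _
          ring)
    exact d04_total I.length (size I) _ _ _ _ C1 C2 κ (4 * c * (n0 + 1)) (hκ I) hl2 (hC2 I) hsg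
      (d04_len c n0 I.length)

end Pool.Agent.WPR
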