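import Pool.Agent.Lib.MP_2da099_lc.Defs
import Mathlib.Algebra.MonoidAlgebra.Basic
import Mathlib.Algebra.MonoidAlgebra.MapDomain
import Mathlib.Algebra.Polynomial.Eval.Defs
import Mathlib.Data.Nat.Digits.Defs
import Mathlib.Data.Nat.Digits.Lemmas

/-!
# Word problems of metabelian groups of torsion-free rank at most 2: definitions
-/

set_option autoImplicit false

namespace Pool.Agent.WPR

open Pool.Agent.Lib.PolyTime Pool.Agent.WPM

/-! ### Quadratic time -/

/-- The predicate `Z` on lists is decided in time `O(n ^ 2)`. -/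
def Quad {ι : Type} [Enc ι] (Z : List ι → Prop) : Prop :=
  ∃ (f : List ι → Bool) (T : List ι → ℕ) (C : ℕ), CT f T ∧ (∀ w, f w = true ↔ Z w) ∧
    ∀ w, T w ≤ C * (w.length + 1) ^ 2

/-- One step of a zipper machine: `dir a = none`: the local state is changed by `f0`;
`dir a = some true`: `out` splits the local state into a cell (pushed on the left list) and a rest, and a
new cell is popped from the right list (`dflt` if it is empty); `some false`: the other direction. -/
def zstep {ι σ ρ γ : Type} (dir : ι → Option Bool) (f0 : ι × σ → σ) (out : ι × σ → γ × ρ)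
    (inn : γ × ρ → σ) (dflt : γ) (a : ι) (x : σ × (List γ × List γ)) : σ × (List γ × List γ) :=
  match dir a with
  | none => (f0 (a, x.1), x.2)
  | some true => (inn (x.2.2.headD dflt, (out (a, x.1)).2),
      ((out (a, x.1)).1 :: x.2.1, x.2.2.tail))
  | some false => (inn (x.2.1.headD dflt, (out (a, x.1)).2),
      (x.2.1.tail, (out (a, x.1)).1 :: x.2.2))

/-- The cost of a step of a zipper machine. -/
def zcost {ι σ ρ γ : Type} [Enc γ] (dir : ι → Option Bool) (out : ι × σ → γ × ρ) (dflt : γ)
    (T0 T1 : ι × σ → ℕ) (T2 : γ × ρ → ℕ) (a : ι) (x : σ × (List γ × List γ)) : ℕ :=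
  match dir a with
  | none => T0 (a, x.1)
  | some true => T1 (a, x.1) + size (out (a, x.1)).1 + size (x.2.2.headD dflt) +
      T2 (x.2.2.headD dflt, (out (a, x.1)).2)
  | some false => T1 (a, x.1) + size (out (a, x.1)).1 + size (x.2.1.headD dflt) +
      T2 (x.2.1.headD dflt, (out (a, x.1)).2)

/-- Scanning a list with a state: the final state and the list of the outputs. -/
def scan {α β σ : Type} (f : σ × α → σ × β) : σ → List α → σ × List β
  | s, [] => (s, [])
  | s, a :: l => ((scan f (f (s, a)).1 l).1, (f (s, a)).2 :: (scan f (f (s, a)).1 l).2)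

/-- The cost of scanning. -/
def scanCost {α β σ : Type} [Enc α] [Enc β] [Enc σ] (T : σ × α → ℕ) (f : σ × α → σ × β) :
    σ → List α → ℕ
  | s, [] => size s
  | s, a :: l => size s + size a + T (s, a) + size (f (s, a)).1 + size (f (s, a)).2 +
      scanCost T f (f (s, a)).1 l

/-! ### Integers in base `β` -/

/-- The integers, to be encoded by their digits in base `β`. -/
def ZB (_ : ℕ) : Type := ℤ

instance instRingZB (β : ℕ) : CommRing (ZB β) := inferInstanceAs (CommRing ℤ)

instance instDecEqZB (β : ℕ) : DecidableEq (ZB β) := inferInstanceAs (DecidableEq ℤ)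

/-- the integer -/
def ZB.val {β : ℕ} (x : ZB β) : ℤ := x

/-- the element of `ZB β` -/
def ZB.mk {β : ℕ} (x : ℤ) : ZB β := x

/-- The digits: sign and digits of `n` for `n` and for `-(n + 1)`. -/
def zdig (β : ℕ) [hβ : Fact (2 ≤ β)] (x : ℤ) : Bool × List (Fin β) :=
  match x with
  | Int.ofNat n => (false, (Nat.digits β n).map
      (fun d => ⟨d % β, Nat.mod_lt _ (lt_of_lt_of_le Nat.two_pos hβ.out)⟩))
  | Int.negSucc n => (true, (Nat.digits β n).map
      (fun d => ⟨d % β, Nat.mod_lt _ (lt_of_lt_of_le Nat.two_pos hβ.out)⟩))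

theorem digits_inj (β : ℕ) [hβ : Fact (2 ≤ β)] (m n : ℕ)
    (h : (Nat.digits β m).map (fun d => (⟨d % β, Nat.mod_lt _ (lt_of_lt_of_le Nat.two_pos hβ.out)⟩ :
      Fin β)) = (Nat.digits β n).map (fun d => ⟨d % β, Nat.mod_lt _ (lt_of_lt_of_le Nat.two_pos hβ.out)⟩)) :
    m = n := by
  have key : ∀ k : ℕ, ((Nat.digits β k).map (fun d => (⟨d % β, Nat.mod_lt _
      (lt_of_lt_of_le Nat.two_pos hβ.out)⟩ : Fin β))).map Fin.val = Nat.digits β k := by
    intro k
    rw [List.map_map]
    conv_rhs => rw [← List.map_id (Nat.digits β k)]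
    refine List.map_congr_left (fun d hd => ?_)
    simp only [Function.comp, id]
    exact Nat.mod_eq_of_lt (Nat.digits_lt_base (lt_of_lt_of_le Nat.one_lt_two hβ.out) hd)
  have h1 := congrArg (List.map Fin.val) h
  rw [key, key] at h1
  rw [← Nat.ofDigits_digits β m, h1, Nat.ofDigits_digits]

theorem zdig_injective (β : ℕ) [hβ : Fact (2 ≤ β)] : Function.Injective (zdig β) := by
  intro x y h
  cases x with
  | ofNat m =>
    cases y with
    | ofNat n =>
      simp only [zdig, Prod.mk.injEq, true_and] at h
      rw [digits_inj β m n h]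
    | negSucc n => simp [zdig] at h
  | negSucc m =>
    cases y with
    | ofNat n => simp [zdig] at h
    | negSucc n =>
      simp only [zdig, Prod.mk.injEq, true_and] at h
      rw [digits_inj β m n h]

noncomputable instance encZB (β : ℕ) [Fact (2 ≤ β)] : Enc (ZB β) where
  enc x := enc (zdig β x)
  inj := fun _ _ h => zdig_injective β (Enc.inj h)

/-- The linear map with the given rows of coefficients. -/
def linMap {β : ℕ} (rows : List (List ℤ)) (x : List (ZB β)) : List (ZB β) :=
  rows.map (fun w => (List.zipWith (fun a y => a • y) w x).sum)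

/-! ### The least prime `p` with `n < p ^ 2` -/

theorem exists_prm (n : ℕ) : ∃ p : ℕ, p.Prime ∧ n < p * p := by
  obtain ⟨p, h1, h2⟩ := Nat.exists_infinite_primes (n + 1)
  exact ⟨p, h2, by nlinarith⟩

open Classical in
/-- The least prime `p` with `n < p ^ 2`. -/
noncomputable def prm (n : ℕ) : ℕ := Nat.find (exists_prm n)

/-! ### Laurent polynomials in two variables -/

/-- Laurent polynomials with integer coefficients in two variables. -/
abbrev L2 : Type := AddMonoidAlgebra ℤ (ℤ × ℤ)

/-- The monomials. -/
noncomputable def mm (v : ℤ × ℤ) : L2 := AddMonoidAlgebra.single v 1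

/-- The substitution `Y ^ v ↦ Y ^ (q v)`. -/
noncomputable def dil (q : ℕ) : L2 →+* L2 :=
  AddMonoidAlgebra.mapDomainRingHom ℤ (q • AddMonoidHom.id (ℤ × ℤ))

/-- Monomial changes of variables. -/
noncomputable def act (A : (ℤ × ℤ) ≃+ (ℤ × ℤ)) : L2 ≃+* L2 :=
  AddMonoidAlgebra.mapDomainRingEquiv ℤ A

/-- Polynomials in the first variable. -/
noncomputable def embX : Polynomial ℤ →+* L2 :=
  Polynomial.eval₂RingHom (Int.castRingHom L2) (mm (1, 0))

/-- Polynomials in the second variable. -/
noncomputable def embY : Polynomial ℤ →+* L2 :=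
  Polynomial.eval₂RingHom (Int.castRingHom L2) (mm (0, 1))

/-- Polynomials in both variables: `Polynomial (Polynomial ℤ)`, the outer variable is the first one,
the coefficients are polynomials in the second one. -/
noncomputable def emb2 : Polynomial (Polynomial ℤ) →+* L2 :=
  Polynomial.eval₂RingHom embY (mm (1, 0))

/-- The sum of the absolute values of the coefficients. -/
def norm1 (F : L2) : ℕ := ∑ c ∈ F.coeff.support, (F.coeff c).natAbs

/-! ### Instructions -/

/-- Instructions: `Sum.inl (i, b)`: move by one along the axis `i` (forward if `b`), `Sum.inr κ`: put a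
token of colour `κ`. -/
abbrev Ins (k : ℕ) : Type := (Fin 2 × Bool) ⊕ Fin k

noncomputable instance encIns (k : ℕ) : Enc (Ins k) := encFintype _

/-- The vector of a move. -/
def mvec (m : Fin 2 × Bool) : ℤ × ℤ :=
  if m.1 = 0 then (if m.2 then (1, 0) else (-1, 0)) else (if m.2 then (0, 1) else (0, -1))

/-- The tokens with their positions. -/
def ipos {k : ℕ} : ℤ × ℤ → List (Ins k) → List ((ℤ × ℤ) × Fin k)
  | _, [] => []
  | c, Sum.inl m :: l => ipos (c + mvec m) l
  | c, Sum.inr κ :: l => (c, κ) :: ipos c l

/-- The final position. -/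
def endp {k : ℕ} : ℤ × ℤ → List (Ins k) → ℤ × ℤ
  | c, [] => c
  | c, Sum.inl m :: l => endp (c + mvec m) l
  | c, Sum.inr _ :: l => endp c l

/-- The vector of Laurent polynomials of a list of instructions. -/
noncomputable def vec {k : ℕ} (I : List (Ins k)) : Fin k → L2 :=
  ((ipos 0 I).map (fun x => (Pi.single x.2 (mm x.1) : Fin k → L2))).sum

/-- The Laurent polynomial of a list of instructions with the colours `+1` and `-1`. -/
noncomputable def spoly (I : List (Ins 2)) : L2 := vec I 0 - vec I 1

/-- The value at the position `c`, if tokens of colour `κ` have the value `u κ`. -/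
def fcoef {k : ℕ} {V : Type} [AddCommMonoid V] (u : Fin k → V) (I : List (Ins k)) (c : ℤ × ℤ) : V :=
  (((ipos 0 I).filter (fun x => x.1 = c)).map (fun x => u x.2)).sum

/-! ### The grid of a list of instructions -/

/-- Insertion in a cell. -/
def insAt {κ : Type} : ℕ → κ → List (List κ) → List (List κ)
  | 0, x, [] => [[x]]
  | 0, x, c :: r => (x :: c) :: r
  | i + 1, x, [] => [] :: insAt i x []
  | i + 1, x, c :: r => c :: insAt i x r

/-- direction of an instruction in the zipper of the rows -/
def gdir {k : ℕ} : Ins k → Option Bool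
  | Sum.inl (i, b) => if i = 0 then none else some b
  | Sum.inr _ => none

/-- local step: the state is the column index and the current row -/
def gf0 {k : ℕ} (x : Ins k × (ℕ × List (List (Fin k)))) : ℕ × List (List (Fin k)) :=
  match x.1 with
  | Sum.inl (i, b) => if i = 0 then (if b then x.2.1 + 1 else x.2.1 - 1, x.2.2) else x.2
  | Sum.inr κ => (x.2.1, insAt x.2.1 κ x.2.2)

/-- the row is the cell of the zipper -/
def gout {k : ℕ} (x : Ins k × (ℕ × List (List (Fin k)))) : List (List (Fin k)) × ℕ :=
  (x.2.2, x.2.1)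

/-- the new row -/
def ginn {k : ℕ} (x : List (List (Fin k)) × ℕ) : ℕ × List (List (Fin k)) := (x.2, x.1)

/-- The grid of a list of instructions: the list of the rows (rows = values of the second coordinate,
from the lowest to the highest one), every row is a list of cells, every cell is a list of tokens.  The
column `t` is the value `t - m` of the first coordinate. -/
def grid {k : ℕ} (m : ℕ) (I : List (Ins k)) : List (List (List (Fin k))) :=
  let z := I.foldl (fun y a => zstep gdir gf0 gout ginn [] a y) ((m, []), ([], []))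
  z.2.1.reverse ++ z.1.2 :: z.2.2

/-- Padding or cutting to the length `L`. -/
def padTo {V : Type} (L : ℕ) (z : V) (r : List V) : List V := (r ++ List.replicate L z).take L

/-- The grid with values, all rows of length `L`. -/
def vgrid {k : ℕ} {V : Type} [AddCommMonoid V] (u : Fin k → V) (m L : ℕ) (I : List (Ins k)) :
    List (List V) :=
  (grid m I).map (fun r => padTo L 0 (r.map (fun cell => (cell.map u).sum)))

/-! ### Grids of integers -/

/-- `x + w y` for rows. -/
def ladd {β : ℕ} (w : ℤ) : List (ZB β) → List (ZB β) → List (ZB β)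
  | [], l => l.map (fun y => w • y)
  | x :: l, [] => x :: l
  | x :: l, y :: l' => (x + w • y) :: ladd w l l'

/-- `x + w y` for grids. -/
def gadd {β : ℕ} (w : ℤ) : List (List (ZB β)) → List (List (ZB β)) → List (List (ZB β))
  | [], g => g.map (fun r => r.map (fun y => w • y))
  | r :: g, [] => r :: g
  | r :: g, r' :: g' => ladd w r r' :: gadd w g g'

/-- Shift of a grid by `x` columns and `y` rows. -/
def gsh {β : ℕ} (x y : ℕ) (g : List (List (ZB β))) : List (List (ZB β)) :=
  List.replicate y [] ++ g.map (fun r => List.replicate x 0 ++ r)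

/-- Multiplication of a grid by the polynomial with the terms `τ.2 Y ^ (p τ.1)`. -/
def gmul {β : ℕ} (terms : List ((ℕ × ℕ) × ℤ)) (p : ℕ) (g : List (List (ZB β))) :
    List (List (ZB β)) :=
  terms.foldl (fun acc τ => gadd τ.2 acc (gsh (τ.1.1 * p) (τ.1.2 * p) g)) []

/-- The value of a grid at the row `s` and the column `t`. -/
def gval {β : ℕ} (g : List (List (ZB β))) (s t : ℕ) : ℤ := (g.getD s []).getD t 0

/-! ### The reduction machine -/

/-- The data of a reduction: the contribution of the symbol `g` to the cell which is `i` rows higher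
and `j` columns to the right is `w i j g`; the symbol of a cell with content `v` is
`dec (class of the row) (class of the column) v`, the classes are the distances to the last row and to
the last column, or `D` if they are larger. -/
structure RData (V Γ : Type) where
  /-- radius of the window -/
  D : ℕ
  /-- contributions -/
  w : ℕ → ℤ → Γ → V
  /-- choice of the symbol -/
  dec : Fin (D + 1) → Fin (D + 1) → V → Option Γ
  /-- zero symbol -/
  g0 : Γ

/-- The class of the distance `n`. -/
def cl (D n : ℕ) : Fin (D + 1) := ⟨min n D, Nat.lt_succ_of_le (Nat.min_le_right n D)⟩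

/-- The classes of the positions in a list of length `L`. -/
def cls (D L : ℕ) : List (Fin (D + 1)) := (List.range L).map (fun t => cl D (L - 1 - t))

/-- The offsets in the previous rows. -/
def offs (D : ℕ) : List (ℕ × ℤ) :=
  (List.range D).flatMap (fun i : ℕ => (List.range (2 * D + 1)).map (fun j : ℕ => (i + 1, (j : ℤ) - D)))

/-- A row shifted by `j` columns. -/
def shiftRow {Γ : Type} (g0 : Γ) (j : ℤ) (l : List Γ) : List Γ :=
  if 0 ≤ j then List.replicate j.toNat g0 ++ l
  else l.drop (-j).toNat ++ List.replicate (-j).toNat g0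

section

variable {V Γ : Type} [AddCommGroup V]

/-- The contributions of the previous rows (`prev`: the last `D` rows of symbols, the last one first). -/
def linRow (R : RData V Γ) (row : List V) (prev : List (List Γ)) : List V :=
  (offs R.D).foldl (fun acc o => List.zipWith (fun x g => x + R.w o.1 o.2 g) acc
    (shiftRow R.g0 o.2 (prev.getD (o.1 - 1) []))) row

/-- One cell: the state is a flag and the last `D` symbols of the row. -/
def cellStep (R : RData V Γ) (b : Fin (R.D + 1)) (x : (Bool × List Γ) × (Fin (R.D + 1) × V)) :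
    (Bool × List Γ) × Γ :=
  match R.dec b x.2.1 (x.2.2 +
    ((List.range R.D).map (fun j : ℕ => R.w 0 ((j : ℤ) + 1) (x.1.2.getD j R.g0))).sum) with
  | some g => ((x.1.1, (g :: x.1.2).take R.D), g)
  | none => ((false, (R.g0 :: x.1.2).take R.D), R.g0)

/-- One row. -/
def rowStep (R : RData V Γ) (L : ℕ) (b : Fin (R.D + 1)) (row : List V) (prev : List (List Γ)) :
    (Bool × List Γ) × List Γ :=
  scan (cellStep R b) (true, List.replicate R.D R.g0) ((cls R.D L).zip (linRow R row prev))

/-- The step of the machine on rows. -/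
def runStep (R : RData V Γ) (L : ℕ) (x : (Bool × List (List Γ)) × (Fin (R.D + 1) × List V)) :
    (Bool × List (List Γ)) × List Γ :=
  ((x.1.1 && (rowStep R L x.2.1 x.2.2 x.1.2).1.1,
    ((rowStep R L x.2.1 x.2.2 x.1.2).2 :: x.1.2).take R.D), (rowStep R L x.2.1 x.2.2 x.1.2).2)

/-- The machine. -/
def runAll (R : RData V Γ) (L : ℕ) (rows : List (List V)) : (Bool × List (List Γ)) × List (List Γ) :=
  scan (runStep R L) (true, List.replicate R.D (List.replicate L R.g0))
    ((cls R.D rows.length).zip rows)

/-- The rows of symbols. -/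
def gam (R : RData V Γ) (L : ℕ) (rows : List (List V)) : List (List Γ) := (runAll R L rows).2

/-- The answer of the machine. -/
def runM (R : RData V Γ) (L : ℕ) (rows : List (List V)) : Bool := (runAll R L rows).1.1

/-- The content of the cell in the row `s` and the column `t`. -/
def cval (R : RData V Γ) (F : ℤ → ℤ → V) (g : ℤ → ℤ → Γ) (s t : ℤ) : V :=
  F s t + ((offs R.D).map (fun o => R.w o.1 o.2 (g (s - o.1) (t - o.2)))).sum +
    ((List.range R.D).map (fun j : ℕ => R.w 0 ((j : ℤ) + 1) (g s (t - ((j : ℤ) + 1))))).sum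

/-- Translation of functions with finite support. -/
noncomputable def sh (v : ℤ × ℤ) (F : (ℤ × ℤ) →₀ V) : (ℤ × ℤ) →₀ V :=
  Finsupp.mapDomain (fun c => c + v) F

/-- The data `R` are correct for the group `N` of functions (first coordinate = column, second
coordinate = row). -/
structure RData.Ok (R : RData V Γ) (N : AddSubgroup ((ℤ × ℤ) →₀ V)) : Prop where
  pos : 1 ≤ R.D
  shift : ∀ v : ℤ × ℤ, ∀ F ∈ N, sh v F ∈ N
  w0 : ∀ i j, R.w i j R.g0 = 0
  dec0 : ∀ b a, R.dec b a 0 = some R.g0
  sound : ∀ (b a : Fin (R.D + 1)) (c : V) (g : Γ), R.dec b a c = some g →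
    ∃ G ∈ N, G (0, 0) = c ∧
      (∀ j i : ℤ, G (j, i) ≠ 0 → 0 ≤ i ∧ i ≤ (b : ℕ) ∧ j ≤ (a : ℕ) ∧ -(R.D : ℤ) ≤ j ∧
        (i = 0 → 0 ≤ j)) ∧
      (∀ (i : ℕ) (j : ℤ), 1 ≤ i → R.w i j g = - G (j, i)) ∧
      ∀ j : ℤ, 1 ≤ j → R.w 0 j g = - G (j, 0)
  complete : ∀ G ∈ N, ∀ b a : ℕ, (∀ j i : ℤ, G (j, i) ≠ 0 → 0 ≤ i ∧ i ≤ b ∧ j ≤ a ∧
    (i = 0 → 0 ≤ j)) → (R.dec (cl R.D b) (cl R.D a) (G (0, 0))).isSome

/-- The data are given by fast functions. -/
def RData.Fast (R : RData V Γ) [Enc V] [Enc Γ] : Prop :=
  (∀ (i : ℕ) (j : ℤ), CT (fun x : V × Γ => x.1 + R.w i j x.2) (fun x => size x.1 + size x.2)) ∧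
    ∀ b a, CT (R.dec b a) (fun x => size x)

end

end Pool.Agent.WPR
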