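import Pool.Agent.Lib.MP_2da099_lc.R2.Z00
import Pool.Agent.Lib.MP_2da099_lc.R2.I01

/-!
# G01: the grid of a list of instructions

HINTS.  `grid m I = zrows (zrun gdir gf0 [] m I)` (rfl up to `funext`; Z00).  Describe
`frun gdir gf0 [] m I = (col, (b, F))` by induction from the left, generalised over the start: after `I`
from the start `(m + c.1, (c.2, F))` the row is `(endp c I).2`, the column is `m + (endp c I).1` (a natural
number, no truncation, because `m ≥ I.length ≥ |...|`; keep `|c.1| + length of the rest ≤ m` in the
induction) and for all rows `b` and columns `t : ℕ` the sum of the `u κ` over the cell `(F b).getD t []` is the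
old one plus the sum over the tokens `x ∈ ipos c I` with `x.1 = (t - m, b)`.  `insAt`: lemma
`(insAt i κ r).getD j [] = if j = i then κ :: r.getD j [] else r.getD j []`.
Row lengths: `(insAt i κ r).length ≤ max (i + 1) r.length`, columns are at most `m + I.length`.
`grid_spec` then follows with `zrows_spec` (`getD` of the list of rows); the last statement: a token `x` lies
in a visited row: otherwise `F x.1.2 = []`; use the sum with `V = ℕ`, `u = 1`.
-/

set_option autoImplicit false

namespace Pool.Agent.WPR

open Pool.Agent.Lib.PolyTime Pool.Agent.WPM Function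

variable {k : ℕ}

theorem g01_insAt_getD {κ : Type} (i : ℕ) (x : κ) (r : List (List κ)) (j : ℕ) :
    (insAt i x r).getD j [] = if j = i then x :: r.getD j [] else r.getD j [] := by
  induction i generalizing r j with
  | zero =>
    cases r with
    | nil =>
      cases j with
      | zero => simp [insAt]
      | succ j => simp [insAt]
    | cons c r =>
      cases j with
      | zero => simp [insAt]
      | succ j => simp [insAt]
  | succ i ih =>
    cases r with
    | nil =>
      cases j with
      | zero => simp [insAt]
      | succ j =>
        have h1 : insAt (i + 1) x ([] : List (List κ)) = [] :: insAt i x [] := by simp [insAt]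
        rw [h1, List.getD_cons_succ, ih]
        simp
    | cons c r =>
      cases j with
      | zero => simp [insAt]
      | succ j =>
        have h1 : insAt (i + 1) x (c :: r) = c :: insAt i x r := by simp [insAt]
        rw [h1, List.getD_cons_succ, ih]
        simp

theorem g01_insAt_length {κ : Type} (i : ℕ) (x : κ) (r : List (List κ)) :
    (insAt i x r).length ≤ max (i + 1) r.length := by
  induction i generalizing r with
  | zero =>
    cases r with
    | nil => simp [insAt]
    | cons c r => simp [insAt]
  | succ i ih =>
    cases r with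
    | nil =>
      have h1 : insAt (i + 1) x ([] : List (List κ)) = [] :: insAt i x [] := by simp [insAt]
      rw [h1, List.length_cons]
      have := ih []
      simp only [List.length_nil] at this ⊢
      omega
    | cons c r =>
      have h1 : insAt (i + 1) x (c :: r) = c :: insAt i x r := by simp [insAt]
      rw [h1, List.length_cons, List.length_cons]
      have := ih r
      omega

theorem g01_insAt_tok {κ : Type} (i : ℕ) (x : κ) (r : List (List κ)) :
    ((insAt i x r).map List.length).sum = (r.map List.length).sum + 1 := by
  induction i generalizing r with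
  | zero =>
    cases r with
    | nil => simp [insAt]
    | cons c r => simp [insAt]; omega
  | succ i ih =>
    cases r with
    | nil =>
      have h1 : insAt (i + 1) x ([] : List (List κ)) = [] :: insAt i x [] := by simp [insAt]
      rw [h1, List.map_cons, List.sum_cons, ih]
      simp
    | cons c r =>
      have h1 : insAt (i + 1) x (c :: r) = c :: insAt i x r := by simp [insAt]
      rw [h1, List.map_cons, List.sum_cons, ih, List.map_cons, List.sum_cons]
      omega

theorem g01_grid_eq (m : ℕ) (I : List (Ins k)) :
    grid m I = zrows (zrun gdir gf0 [] m I) := rfl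

/-- the moves -/
theorem g01_fstep_inl (i : Fin 2) (b : Bool) (y : ℕ × (ℤ × (ℤ → List (List (Fin k))))) :
    fstep gdir gf0 (Sum.inl (i, b) : Ins k) y =
      (if i = 0 then (if b then y.1 + 1 else y.1 - 1) else y.1,
        (if i = 0 then y.2.1 else (if b then y.2.1 + 1 else y.2.1 - 1), y.2.2)) := by
  by_cases hi : i = 0
  · have hd : gdir (Sum.inl (i, b) : Ins k) = none := by simp [gdir, hi]
    unfold fstep
    rw [hd]
    simp only [gf0, hi, if_true]
    rw [Function.update_eq_self]
  · unfold fstep
    cases b
    · have hd : gdir (Sum.inl (i, false) : Ins k) = some false := by simp [gdir, hi]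
      rw [hd]
      simp [hi]
    · have hd : gdir (Sum.inl (i, true) : Ins k) = some true := by simp [gdir, hi]
      rw [hd]
      simp [hi]

/-- the tokens -/
theorem g01_fstep_inr (κ : Fin k) (y : ℕ × (ℤ × (ℤ → List (List (Fin k))))) :
    fstep gdir gf0 (Sum.inr κ : Ins k) y =
      (y.1, (y.2.1, Function.update y.2.2 y.2.1 (insAt y.1 κ (y.2.2 y.2.1)))) := by
  have hd : gdir (Sum.inr κ : Ins k) = none := rfl
  unfold fstep
  rw [hd]
  simp only [gf0]

/-- the position after a move -/
theorem g01_move (m : ℕ) (c : ℤ × ℤ) (i : Fin 2) (b : Bool) (col : ℕ) (hcol : (col : ℤ) = m + c.1)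
    (hm : |c.1| + 1 ≤ m) :
    (((if i = 0 then (if b then col + 1 else col - 1) else col : ℕ) : ℤ) = m + (c + mvec (i, b)).1) ∧
    ((if i = 0 then c.2 else (if b then c.2 + 1 else c.2 - 1)) = (c + mvec (i, b)).2) ∧
    |(c + mvec (i, b)).1| ≤ |c.1| + 1 := by
  have h1 := abs_le.1 (le_refl |c.1|)
  have h2 : 1 ≤ col := by omega
  by_cases hi : i = 0
  · cases b
    · have h3 : mvec (i, false) = (-1, 0) := by simp [mvec, hi]
      rw [h3]
      simp only [hi, if_true, Prod.fst_add, Prod.snd_add]
      refine ⟨?_, by simp, ?_⟩
      · simp only [Bool.false_eq_true, if_false]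
        omega
      · rw [abs_le]
        constructor <;> omega
    · have h3 : mvec (i, true) = (1, 0) := by simp [mvec, hi]
      rw [h3]
      simp only [hi, if_true, Prod.fst_add, Prod.snd_add]
      refine ⟨?_, by simp, ?_⟩
      · push_cast
        omega
      · rw [abs_le]
        constructor <;> omega
  · cases b
    · have h3 : mvec (i, false) = (0, -1) := by simp [mvec, hi]
      rw [h3]
      simp only [hi, if_false, Prod.fst_add, Prod.snd_add]
      refine ⟨by omega, ?_, ?_⟩
      · simp only [Bool.false_eq_true, if_false]
        omega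
      · rw [add_zero]
        omega
    · have h3 : mvec (i, true) = (0, 1) := by simp [mvec, hi]
      rw [h3]
      simp only [hi, if_false, Prod.fst_add, Prod.snd_add]
      refine ⟨by omega, by simp, ?_⟩
      rw [add_zero]
      omega

theorem g01_run (m L : ℕ) (w : List (Ins k)) : ∀ (c : ℤ × ℤ) (col : ℕ)
    (F : ℤ → List (List (Fin k))), (col : ℤ) = m + c.1 → |c.1| + w.length ≤ m →
    (∀ b, (F b).length ≤ L) → (m : ℤ) + |c.1| + w.length + 1 ≤ L →
    (∀ b, ((w.foldl (fun y a => fstep gdir gf0 a y) (col, (c.2, F))).2.2 b).length ≤ L) ∧
    ∀ (V : Type) [AddCommMonoid V] (u : Fin k → V) (b : ℤ) (t : ℕ),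
      ((((w.foldl (fun y a => fstep gdir gf0 a y) (col, (c.2, F))).2.2 b).getD t []).map u).sum =
        (((F b).getD t []).map u).sum +
          (((ipos c w).filter (fun x => x.1 = ((t : ℤ) - m, b))).map (fun x => u x.2)).sum := by
  induction w with
  | nil =>
    intro c col F _ _ hF _
    refine ⟨hF, ?_⟩
    intro V _ u b t
    simp [ipos]
  | cons a w ih =>
    intro c col F hcol hm hF hL
    rw [List.length_cons] at hm hL
    push_cast at hm hL
    rw [List.foldl_cons]
    rcases a with ⟨i, b'⟩ | κ
    · rw [g01_fstep_inl]
      obtain ⟨h1, h2, h3⟩ := g01_move m c i b' col hcol (by omega)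
      have h4 := ih (c + mvec (i, b')) (if i = 0 then (if b' then col + 1 else col - 1) else col) F h1
        (by omega) hF (by omega)
      rw [← h2] at h4
      exact h4
    · rw [g01_fstep_inr]
      have hcolL : col + 1 ≤ L := by
        have := le_abs_self c.1
        omega
      have h4 := ih c col (Function.update F c.2 (insAt col κ (F c.2))) hcol (by omega) (by
        intro b
        by_cases hb : b = c.2
        · rw [hb, Function.update_self]
          refine (g01_insAt_length _ _ _).trans ?_
          exact max_le hcolL (hF _)
        · rw [Function.update_of_ne hb]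
          exact hF b) (by omega)
      refine ⟨h4.1, ?_⟩
      intro V _ u b t
      have h5 := h4.2 V u b t
      simp only at h5 ⊢
      rw [h5]
      have h6 : ipos c (Sum.inr κ :: w) = (c, κ) :: ipos c w := rfl
      rw [h6, List.filter_cons]
      by_cases hb : b = c.2
      · rw [hb, Function.update_self, g01_insAt_getD]
        by_cases ht : t = col
        · have h7 : c = ((t : ℤ) - m, c.2) := by
            apply Prod.ext
            · simp only
              omega
            · rfl
          rw [if_pos ht, if_pos (by simpa using h7), List.map_cons, List.map_cons, List.sum_cons,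
            List.sum_cons]
          simp only
          rw [add_assoc, add_left_comm]
        · have h7 : ¬ c = ((t : ℤ) - m, c.2) := by
            intro h
            have := congrArg Prod.fst h
            simp only at this
            omega
          rw [if_neg ht, if_neg (by simpa using h7)]
      · have h7 : ¬ c = ((t : ℤ) - m, b) := by
          intro h
          exact hb (congrArg Prod.snd h).symm
        rw [Function.update_of_ne hb, if_neg (by simpa using h7)]

theorem length_grid (m : ℕ) (I : List (Ins k)) :
    0 < (grid m I).length ∧ (grid m I).length ≤ I.length + 1 := by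
  rw [g01_grid_eq]
  obtain ⟨s0, _, _, h3, h4, _, _⟩ := zrows_spec gdir gf0 [] m I
  exact ⟨h4, h3⟩

theorem g01_frun (m : ℕ) (I : List (Ins k)) (hm : I.length ≤ m) :
    (∀ b, ((frun gdir gf0 [] m I).2.2 b).length ≤ m + I.length + 1) ∧
    ∀ (V : Type) [AddCommMonoid V] (u : Fin k → V) (b : ℤ) (t : ℕ),
      ((((frun gdir gf0 [] m I).2.2 b).getD t []).map u).sum =
        fcoef u I ((t : ℤ) - m, b) := by
  have h := g01_run (k := k) m (m + I.length + 1) I 0 m (fun _ => []) (by simp) (by simpa using hm)
    (by simp) (by simp)
  refine ⟨h.1, ?_⟩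
  intro V _ u b t
  have h2 := h.2 V u b t
  simp only [List.getD_nil, List.map_nil, List.sum_nil, zero_add] at h2
  exact h2

theorem row_length_grid (m : ℕ) (I : List (Ins k)) (hm : I.length ≤ m) :
    ∀ row ∈ grid m I, row.length ≤ m + I.length + 1 := by
  rw [g01_grid_eq]
  exact (zrows_all gdir gf0 [] m I (fun row => row.length ≤ m + I.length + 1) (by simp)).2
    (g01_frun m I hm).1

/-- number of tokens of a row -/
def g01_tok (row : List (List (Fin k))) : ℕ := (row.map List.length).sum

theorem g01_zrows_tok (z : (ℕ × List (List (Fin k))) × (List (List (List (Fin k))) ×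
    List (List (List (Fin k))))) :
    ((zrows z).map g01_tok).sum = (z.2.1.map g01_tok).sum + g01_tok z.1.2 +
      (z.2.2.map g01_tok).sum := by
  unfold zrows
  rw [List.map_append, List.sum_append, List.map_cons, List.sum_cons, List.map_reverse,
    List.sum_reverse]
  omega

theorem g01_headtail (l : List (List (List (Fin k)))) :
    g01_tok (l.headD []) + (l.tail.map g01_tok).sum = (l.map g01_tok).sum := by
  cases l with
  | nil => simp [g01_tok]
  | cons a l => simp

theorem g01_step_tok (a : Ins k) (z : (ℕ × List (List (Fin k))) × (List (List (List (Fin k))) ×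
    List (List (List (Fin k))))) :
    ((zrows (z00_step gdir gf0 [] a z)).map g01_tok).sum ≤ ((zrows z).map g01_tok).sum + 1 := by
  rw [g01_zrows_tok, g01_zrows_tok]
  rcases hd : gdir a with _ | b
  · rw [z00_step_none gdir gf0 [] a z hd]
    rcases a with ⟨i, b'⟩ | κ
    · have h1 : g01_tok (gf0 (Sum.inl (i, b'), z.1)).2 = g01_tok z.1.2 := by
        simp only [gf0]
        split_ifs <;> rfl
      simp only [h1]
      omega
    · have h1 : g01_tok (gf0 (Sum.inr κ, z.1)).2 = g01_tok z.1.2 + 1 := by
        simp only [gf0]
        exact g01_insAt_tok _ _ _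
      simp only [h1]
      omega
  · cases b
    · rw [z00_step_false gdir gf0 [] a z hd]
      have h1 := g01_headtail z.2.1
      simp only [List.map_cons, List.sum_cons]
      omega
    · rw [z00_step_true gdir gf0 [] a z hd]
      have h1 := g01_headtail z.2.2
      simp only [List.map_cons, List.sum_cons]
      omega

theorem g01_foldl_tok (w : List (Ins k)) : ∀ z : (ℕ × List (List (Fin k))) ×
    (List (List (List (Fin k))) × List (List (List (Fin k)))),
    ((zrows (w.foldl (fun y a => z00_step gdir gf0 [] a y) z)).map g01_tok).sum ≤
      ((zrows z).map g01_tok).sum + w.length := by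
  induction w with
  | nil => intro z; simp
  | cons a w ih =>
    intro z
    rw [List.foldl_cons, List.length_cons]
    have h1 := ih (z00_step gdir gf0 [] a z)
    have h2 := g01_step_tok a z
    omega

/-- The number of tokens in the grid. -/
theorem tokens_grid (m : ℕ) (I : List (Ins k)) :
    ((grid m I).map (fun row => (row.map List.length).sum)).sum ≤ I.length := by
  have h1 := g01_foldl_tok I ((m, []), ([], []))
  have h2 : ((zrows (((m, []), ([], [])) : (ℕ × List (List (Fin k))) × (List (List (List (Fin k))) ×
    List (List (List (Fin k)))))).map g01_tok).sum = 0 := by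
    rw [g01_zrows_tok]
    simp [g01_tok]
  rw [h2, zero_add] at h1
  exact h1

theorem grid_spec (m : ℕ) (I : List (Ins k)) (hm : I.length ≤ m) :
    ∃ s0 : ℤ, s0 ≤ 0 ∧ -(I.length : ℤ) ≤ s0 ∧
      (∀ (V : Type) [AddCommMonoid V] (u : Fin k → V) (s t : ℕ),
        ((((grid m I).getD s []).getD t []).map u).sum =
          fcoef u I ((t : ℤ) - m, s0 + s)) ∧
      ∀ x ∈ ipos 0 I, ∃ s t : ℕ, s < (grid m I).length ∧ t ≤ m + I.length ∧
        x.1 = ((t : ℤ) - m, s0 + s) := by
  obtain ⟨s0, h1, h2, _, _, h5, h6⟩ := zrows_spec gdir gf0 [] m I
  obtain ⟨_, h8⟩ := g01_frun m I hm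
  rw [← g01_grid_eq] at h5 h6
  refine ⟨s0, h1, h2, ?_, ?_⟩
  · intro V _ u s t
    rw [h5 s]
    exact h8 V u _ t
  · intro x hx
    obtain ⟨hb1, hb2⟩ := ipos_bound I x hx
    have hb3 := abs_le.1 hb1
    obtain ⟨t, ht⟩ : ∃ t : ℕ, (t : ℤ) = x.1.1 + m := ⟨(x.1.1 + m).toNat, by omega⟩
    by_cases hr : x.1.2 < s0 ∨ s0 + (grid m I).length ≤ x.1.2
    · exfalso
      have h9 := h8 ℕ (fun _ => 1) x.1.2 t
      rw [h6 _ hr] at h9
      simp only [List.getD_nil, List.map_nil, List.sum_nil] at h9
      unfold fcoef at h9
      have h10 : x ∈ (ipos 0 I).filter (fun x' => x'.1 = ((t : ℤ) - m, x.1.2)) := by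
        rw [List.mem_filter]
        refine ⟨hx, ?_⟩
        have : x.1 = ((t : ℤ) - m, x.1.2) := by
          apply Prod.ext
          · simp only
            omega
          · rfl
        simpa using this
      have h11 : 1 ≤ ((((ipos 0 I).filter (fun x' => x'.1 = ((t : ℤ) - m, x.1.2))).map
          (fun _ => 1)).sum : ℕ) := by
        rw [List.map_const', List.sum_replicate, smul_eq_mul, mul_one]
        exact List.length_pos_of_mem h10
      have h12 : ((((ipos 0 I).filter (fun x' => x'.1 = ((t : ℤ) - m, x.1.2))).map
          (fun _ => 1)).sum : ℕ) = 0 := h9.symm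
      omega
    · push Not at hr
      refine ⟨(x.1.2 - s0).toNat, t, by omega, by omega, ?_⟩
      apply Prod.ext
      · simp only
        omega
      · simp only
        omega

end Pool.Agent.WPR
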