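import Pool.Agent.Lib.MP_2da099_lc.R2.P03
import Pool.Agent.Lib.MP_2da099_lc.C09
import Pool.Agent.Lib.MP_2da099_lc.C10

/-!
# P04: folds over zippers

HINTS.  `ct_afold` with `act (a, s) = match dir a with | none => inl (f0 (a, s)) | some b => inr (b, out (a, s))`.
`CT act (fun x => match dir x.1 with | none => T0 x | some _ => T1 x)`: from `x` to `(dir x.1, x)`:
`(a, s) ↦ ((dir a, a), s)` is `CT.first (CT.fin _)` (cost 0), `CT.assocR` (cost `size (dir a)`, bounded by
`size_fin`), then `CT.ocase` with `f0` and with `(b, x) ↦ (b, out x)` (`CT.second`), each followed by the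
tagging maps `Sum.inl`, `Sum.inr` (a constant prefix: `CT.congr_enc` / `CT.pushConst` or the encoding of sums
in `More.lean` line 250 ff.; they cost O(1)).  Then compare `acost` and `zcost` step by step
(`astep = zstep` by cases on `dir a`), up to a constant per step: `foldCost` with `T ≤ C * (T' + 1)`
stepwise gives total `≤ C * (total' + length)`, and `length ≤ size x.1`.
-/

set_option autoImplicit false

namespace Pool.Agent.WPR

open Pool.Agent.Lib.PolyTime Pool.Agent.WPM Function

theorem p04_inl {α β : Type} [Enc α] [Enc β] : CT (fun a : α => (Sum.inl a : α ⊕ β)) (fun _ => 0) :=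
  (CT.pushConst ()).congr_enc (fun _ => rfl)

theorem p04_inr {α β : Type} [Enc α] [Enc β] : CT (fun b : β => (Sum.inr b : α ⊕ β)) (fun _ => 0) :=
  (CT.pushConst ((), ())).congr_enc (fun _ => rfl)

/-- the action of a zipper machine -/
def p04_act {ι σ ρ γ : Type} (dir : ι → Option Bool) (f0 : ι × σ → σ) (out : ι × σ → γ × ρ)
    (x : ι × σ) : σ ⊕ (Bool × (γ × ρ)) :=
  match dir x.1 with
  | none => Sum.inl (f0 x)
  | some b => Sum.inr (b, out x)

/-- its cost -/
def p04_cost {ι σ : Type} (dir : ι → Option Bool) (T0 T1 : ι × σ → ℕ) (x : ι × σ) : ℕ :=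
  match dir x.1 with
  | none => T0 x
  | some _ => T1 x

theorem p04_ct_act {ι σ ρ γ : Type} [Enc ι] [Finite ι] [Enc σ] [Enc ρ] [Enc γ]
    {dir : ι → Option Bool} {f0 : ι × σ → σ} {out : ι × σ → γ × ρ}
    {T0 T1 : ι × σ → ℕ} (h0 : CT f0 T0) (h1 : CT out T1) :
    CT (p04_act dir f0 out) (p04_cost dir T0 T1) := by
  obtain ⟨κ, hκ⟩ := size_fin (Option Bool)
  obtain ⟨κ2, hκ2⟩ := size_fin Bool
  have s1 : CT (fun x : ι × σ => ((dir x.1, x.1), x.2)) (fun _ => 0) :=
    CT.first (f := fun a : ι => (dir a, a)) (CT.fin _)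
  have s2 : CT (fun x : (Option Bool × ι) × σ => (x.1.1, (x.1.2, x.2))) (fun x => size x.1.1) :=
    CT.assocR
  have g1 : CT (fun x : ι × σ => (Sum.inl (f0 x) : σ ⊕ (Bool × (γ × ρ)))) _ := p04_inl.comp h0
  have g2 : CT (fun y : Bool × (ι × σ) => (Sum.inr (y.1, out y.2) : σ ⊕ (Bool × (γ × ρ)))) _ :=
    p04_inr.comp (CT.second (γ := Bool) h1)
  have s3 := CT.ocase g1 g2
  refine (((s3.comp s2).comp s1).mono (κ + κ2 + κ2 + 1) (fun x => ?_)).congr (fun x => ?_)
  · obtain ⟨a, s⟩ := x
    have k1 := hκ (dir a)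
    unfold p04_cost
    dsimp only
    generalize dir a = d at k1 ⊢
    cases d with
    | none =>
      dsimp only
      nlinarith
    | some b =>
      have k2 := hκ2 b
      dsimp only
      nlinarith
  · obtain ⟨a, s⟩ := x
    unfold p04_act
    rcases hd : dir a with _ | b
    · simp only [hd]
    · simp only [hd]

theorem ct_zfold {ι σ ρ γ : Type} [Enc ι] [Finite ι] [Enc σ] [Enc ρ] [Enc γ]
    {dir : ι → Option Bool} {f0 : ι × σ → σ} {out : ι × σ → γ × ρ} {inn : γ × ρ → σ} (dflt : γ)
    {T0 T1 : ι × σ → ℕ} {T2 : γ × ρ → ℕ} (h0 : CT f0 T0) (h1 : CT out T1) (h2 : CT inn T2) :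
    CT (fun x : List ι × (σ × (List γ × List γ)) =>
        x.1.foldl (fun y a => zstep dir f0 out inn dflt a y) x.2)
      (fun x => size x.1 + size x.2 + foldCost (fun y => zcost dir out dflt T0 T1 T2 y.1 y.2)
        (fun y => zstep dir f0 out inn dflt y.1 y.2) x.1 x.2) := by
  have h := ct_afold dflt (p04_ct_act (dir := dir) h0 h1) h2
  have e1 : ∀ (a : ι) (y : σ × (List γ × List γ)),
      astep (p04_act dir f0 out) inn dflt a y = zstep dir f0 out inn dflt a y := by
    intro a y
    unfold astep zstep p04_act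
    rcases hd : dir a with _ | b
    · simp only [hd]
    · cases b
      · simp only [hd]
      · simp only [hd]
  have e2 : ∀ (a : ι) (y : σ × (List γ × List γ)),
      acost (p04_act dir f0 out) dflt (p04_cost dir T0 T1) T2 a y =
        zcost dir out dflt T0 T1 T2 a y := by
    intro a y
    unfold acost zcost p04_act p04_cost
    rcases hd : dir a with _ | b
    · simp only [hd]
    · cases b
      · simp only [hd]
      · simp only [hd]
  have e3 : (fun (y : σ × (List γ × List γ)) (a : ι) => astep (p04_act dir f0 out) inn dflt a y) =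
      fun y a => zstep dir f0 out inn dflt a y := by
    funext y a; exact e1 a y
  have e4 : (fun y : ι × (σ × (List γ × List γ)) => acost (p04_act dir f0 out) dflt
      (p04_cost dir T0 T1) T2 y.1 y.2) = fun y => zcost dir out dflt T0 T1 T2 y.1 y.2 := by
    funext y; exact e2 y.1 y.2
  have e5 : (fun y : ι × (σ × (List γ × List γ)) => astep (p04_act dir f0 out) inn dflt y.1 y.2) =
      fun y => zstep dir f0 out inn dflt y.1 y.2 := by
    funext y; exact e1 y.1 y.2
  rw [e3, e4, e5] at h
  exact h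

end Pool.Agent.WPR
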