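import Pool.Agent.Lib.MP_2da099_lc.R2.G01
import Pool.Agent.Lib.MP_2da099_lc.R2.P04
import Pool.Agent.Lib.MP_2da099_lc.R2.P07
import Pool.Agent.Lib.MP_2da099_lc.R2.P08
import Pool.Agent.Lib.MP_2da099_lc.C09

/-!
# G02: computing the grid
-/

set_option autoImplicit false

namespace Pool.Agent.WPR

open Pool.Agent.Lib.PolyTime Pool.Agent.WPM Function

variable {k : ℕ}

/-- put a token on the first cell of the rest -/
def g02_put (x : List (List (Fin k)) × Fin k) : List (List (Fin k)) :=
  match x.1 with
  | [] => [[x.2]]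
  | c :: l => (x.2 :: c) :: l

theorem g02_insAt (i : ℕ) (κ : Fin k) (r : List (List (Fin k))) :
    insAt i κ r = (r ++ List.replicate i []).take i ++ g02_put (r.drop i, κ) := by
  induction i generalizing r with
  | zero => cases r <;> simp [insAt, g02_put]
  | succ i ih =>
    cases r with
    | nil =>
      rw [insAt, ih []]
      simp [List.replicate_succ, g02_put]
    | cons c r =>
      rw [insAt, ih r, List.drop_succ_cons, List.cons_append, List.take_succ_cons,
        List.cons_append]
      congr 2
      rw [List.take_append, List.take_append]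
      simp [List.take_replicate]
      omega

theorem g02_ct_put : CT (g02_put (k := k)) (fun x => size x.1) := by
  obtain ⟨κ0, hκ0⟩ := size_fin (Fin k)
  -- nil case: κ ↦ [[κ]]
  have h1 : CT (fun κ : Fin k => [[κ]]) (fun _ => 0) := CT.fin _
  -- cons case: ((c, l), κ) ↦ (κ :: c) :: l
  have h2 : CT (fun x : (List (Fin k) × List (List (Fin k))) × Fin k => (x.2, x.1))
      (fun x => size x.1 + size x.2) := CT.swap
  have h3 : CT (fun x : Fin k × (List (Fin k) × List (List (Fin k))) => ((x.1, x.2.1), x.2.2))
      (fun x => size x.1) := CT.assocL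
  have h4 : CT (fun x : (Fin k × List (Fin k)) × List (List (Fin k)) =>
      (x.1.1 :: x.1.2) :: x.2) (fun _ => 0) := CT.of_enc_eq (fun _ => rfl)
  have h5 := h4.comp (h3.comp h2)
  have h6 := CT.lcase h1 h5
  refine (h6.mono (2 * κ0 + 2) (fun x => ?_)).congr (fun x => ?_)
  · obtain ⟨r, κ⟩ := x
    have hκ := hκ0 κ
    cases r with
    | nil => exact Nat.zero_le _
    | cons c l =>
      show size (c, l) + size κ + (size κ + 0) ≤ (2 * κ0 + 2) * (size (c :: l) + 1)
      rw [size_prod, size_cons]
      dsimp only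
      have e : (2 * κ0 + 2) * (size c + size l + 1 + 1) = 2 * κ0 * (size c + size l + 2) +
          2 * size c + 2 * size l + 4 := by ring
      have e2 : 2 * κ0 * 1 ≤ 2 * κ0 * (size c + size l + 2) := Nat.mul_le_mul_left _ (by omega)
      omega
  · obtain ⟨r, κ⟩ := x
    cases r <;> rfl

theorem g02_lcomp {α β γ : Type} [Enc α] [Enc β] [Enc γ] {f : α → β} {g : β → γ}
    (hg : CT g (fun b => size b)) (hf : CT f (fun a => size a)) :
    CT (fun a => g (f a)) (fun a => size a) := by
  obtain ⟨C, hC⟩ := hf.size_le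
  refine (hg.comp hf).mono (C + 2) (fun a => ?_)
  have h := hC a
  have e : (C + 2) * (size a + 1) = C * (size a + 1) + 2 * size a + 2 := by ring
  show size a + size (f a) ≤ _
  omega

theorem g02_lpair {α β γ : Type} [Enc α] [Enc β] [Enc γ] {f : α → β} {g : α → γ}
    (hf : CT f (fun b => size b)) (hg : CT g (fun a => size a)) :
    CT (fun a => (f a, g a)) (fun a => size a) := by
  refine (CT.pair hf hg).mono 3 (fun a => ?_)
  show size a + size a + size a ≤ 3 * (size a + 1)
  omega

theorem g02_lfst {α β : Type} [Enc α] [Enc β] : CT (fun x : α × β => x.1) (fun x => size x) :=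
  CT.fst.mono 1 (fun x => by rw [size_prod]; omega)

theorem g02_lsnd {α β : Type} [Enc α] [Enc β] : CT (fun x : α × β => x.2) (fun x => size x) :=
  CT.snd.mono 1 (fun x => by rw [size_prod]; omega)

theorem g02_lin_insAt : CT (fun x : Fin k × (ℕ × List (List (Fin k))) => insAt x.2.1 x.1 x.2.2)
    (fun x => size x) := by
  have cκ : CT (fun x : Fin k × (ℕ × List (List (Fin k))) => x.1) (fun x => size x) := g02_lfst
  have cs : CT (fun x : Fin k × (ℕ × List (List (Fin k))) => x.2) (fun x => size x) := g02_lsnd
  have ci : CT (fun x : Fin k × (ℕ × List (List (Fin k))) => x.2.1) (fun x => size x) :=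
    g02_lcomp g02_lfst cs
  have cr : CT (fun x : Fin k × (ℕ × List (List (Fin k))) => x.2.2) (fun x => size x) :=
    g02_lcomp g02_lsnd cs
  have crep0 : CT (fun i : ℕ => List.replicate i ([] : List (Fin k))) (fun i => size i) := by
    have h1 : CT (fun i : ℕ => (([] : List (Fin k)), i)) (fun _ => 0) := CT.pushConst _
    have h2 : CT (fun x : List (Fin k) × ℕ => (x.2, x.1)) _ := CT.swap
    have h3 : CT (fun x : ℕ × List (Fin k) => List.replicate x.1 x.2) _ := ct_replicate
    refine (h3.comp (h2.comp h1)).mono 10 (fun i => ?_)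
    show 0 + (size ([] : List (Fin k)) + size i) + (i + 1) * size ([] : List (Fin k)) ≤ _
    rw [size_nil, size_nat]
    omega
  have crep : CT (fun x : Fin k × (ℕ × List (List (Fin k))) =>
      List.replicate x.2.1 ([] : List (Fin k))) (fun x => size x) := g02_lcomp crep0 ci
  have lapp : CT (fun x : List (List (Fin k)) × List (List (Fin k)) => x.1 ++ x.2)
      (fun x => size x) := CT.append.mono 1 (fun x => by rw [size_prod]; omega)
  have ltake : CT (fun x : ℕ × List (List (Fin k)) => x.2.take x.1) (fun x => size x) :=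
    ct_take.mono 1 (fun x => by rw [size_prod, size_nat]; omega)
  have ldrop : CT (fun x : ℕ × List (List (Fin k)) => x.2.drop x.1) (fun x => size x) :=
    ct_drop.mono 1 (fun x => by rw [size_prod, size_nat]; omega)
  have lput : CT (g02_put (k := k)) (fun x => size x) :=
    g02_ct_put.mono 1 (fun x => by rw [size_prod]; omega)
  have capp := g02_lcomp lapp (g02_lpair cr crep)
  have ctake := g02_lcomp ltake (g02_lpair ci capp)
  have cdrop := g02_lcomp ldrop (g02_lpair ci cr)
  have cput := g02_lcomp lput (g02_lpair cdrop cκ)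
  refine (g02_lcomp lapp (g02_lpair ctake cput)).congr (fun x => ?_)
  exact (g02_insAt x.2.1 x.1 x.2.2).symm

theorem ct_insAt : CT (fun x : Fin k × (ℕ × List (List (Fin k))) => insAt x.2.1 x.1 x.2.2)
    (fun x => x.2.1 + size x.2.2) := by
  obtain ⟨κ0, hκ0⟩ := size_fin (Fin k)
  refine g02_lin_insAt.mono (κ0 + 3) (fun x => ?_)
  have h := hκ0 x.1
  have h2 : 1 ≤ size x.2.2 := by
    cases x.2.2 with
    | nil => rw [size_nil]
    | cons a l => rw [size_cons]; omega
  rw [size_prod, size_prod, size_nat]
  have e : (κ0 + 3) * (x.2.1 + size x.2.2 + 1) = κ0 * (x.2.1 + size x.2.2) + κ0 +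
    3 * (x.2.1 + size x.2.2 + 1) := by ring
  omega

/-! ### The machine -/

theorem g02_ct_pred : CT (fun n : ℕ => n - 1) (fun n => size n) := by
  have h1 : CT (fun i : ℕ => (i, 1)) (fun i => size i) := by
    have a1 : CT (fun i : ℕ => (1, i)) (fun _ => 0) := CT.pushConst _
    have a2 : CT (fun x : ℕ × ℕ => (x.2, x.1)) _ := CT.swap
    refine (a2.comp a1).mono 5 (fun i => ?_)
    show 0 + (size 1 + size i) ≤ _
    rw [size_nat, size_nat]
    omega
  refine (ct_sub.comp h1).mono 2 (fun n => ?_)
  show size n + (n + 1) ≤ _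
  rw [size_nat]
  omega

theorem g02_ct_gf0 : CT (gf0 (k := k)) (fun x => size x.2) := by
  refine (ct_fincase (ι := Ins k) (f := fun i s => gf0 (i, s)) (T := fun _ s => size s)
    (fun i => ?_)).congr (fun _ => rfl)
  rcases i with ⟨i, b⟩ | κ
  · by_cases hi : i = 0
    · subst hi
      cases b with
      | true =>
        refine (CT.first (γ := List (List (Fin k))) ct_succ).mono 1 (fun x => ?_) |>.congr
          (fun x => ?_)
        · exact Nat.zero_le _
        · rfl
      | false =>
        refine (CT.first (γ := List (List (Fin k))) g02_ct_pred).mono 1 (fun x => ?_) |>.congr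
          (fun x => ?_)
        · show size x.1 ≤ 1 * (size x + 1)
          rw [size_prod]
          omega
        · rfl
    · refine (CT.of_enc_eq (f := fun s : ℕ × List (List (Fin k)) => gf0 (Sum.inl (i, b), s))
        (fun s => ?_)).mono 1 (fun x => Nat.zero_le _)
      simp only [gf0, if_neg hi]
  · have h1 : CT (fun s : ℕ × List (List (Fin k)) => (κ, s)) (fun s => size s) :=
      (CT.pushConst κ).mono 1 (fun _ => Nat.zero_le _)
    have h2 := g02_lcomp g02_lin_insAt h1
    exact g02_lpair g02_lfst h2

theorem g02_ct_gout : CT (gout (k := k)) (fun x => size x.1 + size x.2) := by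
  have h1 : CT (fun x : Ins k × (ℕ × List (List (Fin k))) => x.2) _ := CT.snd
  have h2 : CT (fun x : ℕ × List (List (Fin k)) => (x.2, x.1)) _ := CT.swap
  refine ((h2.comp h1).mono 1 (fun x => ?_)).congr (fun _ => rfl)
  show size x.1 + (size x.2.1 + size x.2.2) ≤ 1 * (size x.1 + size x.2 + 1)
  rw [size_prod x.2]
  omega

theorem g02_ct_ginn : CT (ginn (k := k)) (fun x => size x.1 + size x.2) :=
  (CT.swap : CT (fun x : List (List (Fin k)) × ℕ => (x.2, x.1)) _)

/-! ### Sizes -/

theorem g02_length_insAt (i : ℕ) (κ : Fin k) (r : List (List (Fin k))) :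
    (insAt i κ r).length = max r.length (i + 1) := by
  induction i generalizing r with
  | zero => cases r <;> simp [insAt]
  | succ i ih =>
    cases r with
    | nil => simp [insAt, ih]
    | cons c r => simp [insAt, ih]

theorem g02_size_insAt (i : ℕ) (κ : Fin k) (r : List (List (Fin k))) :
    size (insAt i κ r) + 2 * r.length = size r + 2 * (insAt i κ r).length + (size κ + 1) := by
  induction i generalizing r with
  | zero =>
    cases r with
    | nil =>
      simp only [insAt, size_cons, size_nil, List.length_cons, List.length_nil]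
      omega
    | cons c r =>
      simp only [insAt, size_cons, List.length_cons]
      omega
  | succ i ih =>
    cases r with
    | nil =>
      have h := ih []
      simp only [insAt, size_cons, size_nil, List.length_cons, List.length_nil] at h ⊢
      omega
    | cons c r =>
      have h := ih r
      simp only [insAt, size_cons, List.length_cons] at h ⊢
      omega

/-- bounds for a row after `j` instructions -/
def g02_Row (κ0 m j : ℕ) (r : List (List (Fin k))) : Prop :=
  r.length ≤ m + j + 1 ∧ size r ≤ 2 * r.length + 1 + j * (κ0 + 1)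

theorem g02_Row.succ {κ0 m j : ℕ} {r : List (List (Fin k))} (h : g02_Row κ0 m j r) :
    g02_Row κ0 m (j + 1) r := by
  obtain ⟨h1, h2⟩ := h
  refine ⟨by omega, ?_⟩
  have e : (j + 1) * (κ0 + 1) = j * (κ0 + 1) + (κ0 + 1) := by ring
  omega

theorem g02_Row.nil (κ0 m j : ℕ) : g02_Row (k := k) κ0 m j [] := by
  refine ⟨by simp, ?_⟩
  rw [size_nil]
  omega

theorem g02_Row.insAt {κ0 m j i : ℕ} {κ : Fin k} (hκ : size κ ≤ κ0) {r : List (List (Fin k))}
    (h : g02_Row κ0 m j r) (hi : i ≤ m + j) : g02_Row κ0 m (j + 1) (insAt i κ r) := by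
  obtain ⟨h1, h2⟩ := h
  have a1 := g02_length_insAt i κ r
  have a2 := g02_size_insAt i κ r
  refine ⟨by rw [a1]; omega, ?_⟩
  have e : (j + 1) * (κ0 + 1) = j * (κ0 + 1) + (κ0 + 1) := by ring
  omega

/-- the bounds for the state after `j` instructions -/
def g02_Inv (κ0 m j : ℕ) (y : (ℕ × List (List (Fin k))) × (List (List (List (Fin k))) ×
    List (List (List (Fin k))))) : Prop :=
  y.1.1 ≤ m + j ∧ g02_Row κ0 m j y.1.2 ∧ (∀ r ∈ y.2.1, g02_Row κ0 m j r) ∧
    (∀ r ∈ y.2.2, g02_Row κ0 m j r) ∧ y.2.1.length + y.2.2.length ≤ j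

theorem g02_headD {κ0 m j : ℕ} {l : List (List (List (Fin k)))} (h : ∀ r ∈ l, g02_Row κ0 m j r) :
    g02_Row κ0 m j (l.headD []) := by
  cases l with
  | nil => exact g02_Row.nil _ _ _
  | cons a l => exact h a (by simp)

theorem g02_Inv.step {κ0 m j : ℕ} (hκ0 : ∀ κ : Fin k, size κ ≤ κ0) {y : (ℕ × List (List (Fin k))) ×
    (List (List (List (Fin k))) × List (List (List (Fin k))))} (h : g02_Inv κ0 m j y) (a : Ins k) :
    g02_Inv κ0 m (j + 1) (zstep gdir gf0 gout ginn [] a y) := by
  obtain ⟨⟨c, r⟩, ⟨l1, l2⟩⟩ := y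
  obtain ⟨h1, h2, h3, h4, h5⟩ := h
  dsimp only at h1 h2 h3 h4 h5
  rcases a with ⟨i, b⟩ | κ
  · by_cases hi : i = 0
    · subst hi
      refine ⟨?_, ?_, fun r hr => ((h3 r hr).succ), fun r hr => ((h4 r hr).succ), ?_⟩
      · cases b
        · show c - 1 ≤ _
          omega
        · show c + 1 ≤ _
          omega
      · cases b
        · exact h2.succ
        · exact h2.succ
      · show l1.length + l2.length ≤ _
        omega
    · cases b with
      | true =>
        have e : zstep gdir gf0 gout ginn [] (Sum.inl (i, true)) ((c, r), (l1, l2)) =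
            ((c, l2.headD []), (r :: l1, l2.tail)) := by
          simp only [zstep, gdir, if_neg hi, gout, ginn]
        rw [e]
        refine ⟨by show c ≤ _; omega, (g02_headD h4).succ, ?_, ?_, ?_⟩
        · intro r' hr'
          rcases List.mem_cons.mp hr' with h | h
          · subst h
            exact h2.succ
          · exact (h3 r' h).succ
        · intro r' hr'
          exact (h4 r' (List.mem_of_mem_tail hr')).succ
        · simp only [List.length_cons, List.length_tail]
          omega
      | false =>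
        have e : zstep gdir gf0 gout ginn [] (Sum.inl (i, false)) ((c, r), (l1, l2)) =
            ((c, l1.headD []), (l1.tail, r :: l2)) := by
          simp only [zstep, gdir, if_neg hi, gout, ginn]
        rw [e]
        refine ⟨by show c ≤ _; omega, (g02_headD h3).succ, ?_, ?_, ?_⟩
        · intro r' hr'
          exact (h3 r' (List.mem_of_mem_tail hr')).succ
        · intro r' hr'
          rcases List.mem_cons.mp hr' with h | h
          · subst h
            exact h2.succ
          · exact (h4 r' h).succ
        · simp only [List.length_cons, List.length_tail]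
          omega
  · refine ⟨?_, ?_, fun r hr => ((h3 r hr).succ), fun r hr => ((h4 r hr).succ), ?_⟩
    · show c ≤ _
      omega
    · exact h2.insAt (hκ0 κ) h1
    · show l1.length + l2.length ≤ _
      omega

theorem g02_Row.size_le {κ0 m j n : ℕ} {r : List (List (Fin k))} (h : g02_Row κ0 m j r)
    (hj : j ≤ n) : size r ≤ (κ0 + 4) * (m + n + 1) := by
  obtain ⟨h1, h2⟩ := h
  have e : j * (κ0 + 1) ≤ n * (κ0 + 1) := Nat.mul_le_mul_right _ hj
  have e2 : (κ0 + 4) * (m + n + 1) = n * (κ0 + 1) + κ0 * (m + 1) + 4 * m + 3 * n + 4 := by ring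
  omega

theorem g02_zcost {κ0 κ1 m j n : ℕ} (hκ1 : ∀ a : Ins k, size a ≤ κ1)
    {y : (ℕ × List (List (Fin k))) ×
      (List (List (List (Fin k))) × List (List (List (Fin k))))} (h : g02_Inv κ0 m j y)
    (hj : j ≤ n) (a : Ins k) :
    zcost gdir gout [] (fun x : Ins k × (ℕ × List (List (Fin k))) => size x.2)
      (fun x => size x.1 + size x.2) (fun x => size x.1 + size x.2) a y ≤
      (4 * κ0 + κ1 + 40) * (m + n + 1) := by
  obtain ⟨⟨c, r⟩, ⟨l1, l2⟩⟩ := y
  obtain ⟨h1, h2, h3, h4, h5⟩ := h
  dsimp only at h1 h2 h3 h4 h5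
  have a1 := h2.size_le hj
  have a2 := (g02_headD h3).size_le hj
  have a3 := (g02_headD h4).size_le hj
  have a4 := hκ1 a
  have e : (4 * κ0 + κ1 + 40) * (m + n + 1) = 4 * ((κ0 + 4) * (m + n + 1)) + κ1 * (m + n) + κ1 +
    24 * (m + n + 1) := by ring
  rcases a with ⟨i, b⟩ | κ
  · by_cases hi : i = 0
    · subst hi
      show size (c, r) ≤ _
      rw [size_prod, size_nat]
      dsimp only
      omega
    · cases b with
      | true =>
        simp only [zcost, gdir, if_neg hi, gout]
        rw [size_prod, size_nat]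
        dsimp only
        omega
      | false =>
        simp only [zcost, gdir, if_neg hi, gout]
        rw [size_prod, size_nat]
        dsimp only
        omega
  · show size (c, r) ≤ _
    rw [size_prod, size_nat]
    dsimp only
    omega

theorem g02_fold {κ0 κ1 m n : ℕ} (hκ0 : ∀ κ : Fin k, size κ ≤ κ0)
    (hκ1 : ∀ a : Ins k, size a ≤ κ1) (I : List (Ins k)) (j : ℕ) (hj : j + I.length ≤ n)
    (y : (ℕ × List (List (Fin k))) × (List (List (List (Fin k))) × List (List (List (Fin k)))))
    (h : g02_Inv κ0 m j y) :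
    g02_Inv κ0 m (j + I.length) (I.foldl (fun y a => zstep gdir gf0 gout ginn [] a y) y) ∧
    foldCost (fun y => zcost gdir gout [] (fun x : Ins k × (ℕ × List (List (Fin k))) => size x.2)
      (fun x => size x.1 + size x.2) (fun x => size x.1 + size x.2) y.1 y.2)
      (fun y => zstep gdir gf0 gout ginn [] y.1 y.2) I y ≤
      (4 * κ0 + κ1 + 40) * (m + n + 1) * I.length := by
  induction I generalizing j y with
  | nil => exact ⟨h, Nat.zero_le _⟩
  | cons a I ih =>
    have hj' : j + 1 + I.length ≤ n := by
      rw [List.length_cons] at hj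
      omega
    obtain ⟨b1, b2⟩ := ih (j + 1) hj' _ (h.step hκ0 a)
    have b3 := g02_zcost hκ1 h (by omega : j ≤ n) a
    constructor
    · have e : j + (a :: I).length = j + 1 + I.length := by
        rw [List.length_cons]
        omega
      rw [e]
      exact b1
    · have e : (4 * κ0 + κ1 + 40) * (m + n + 1) * (a :: I).length =
          (4 * κ0 + κ1 + 40) * (m + n + 1) + (4 * κ0 + κ1 + 40) * (m + n + 1) * I.length := by
        rw [List.length_cons]
        ring
      rw [e]
      exact Nat.add_le_add b3 b2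

theorem g02_size_list {κ0 m j n : ℕ} (hj : j ≤ n) (l : List (List (List (Fin k))))
    (h : ∀ r ∈ l, g02_Row κ0 m j r) :
    size l ≤ ((κ0 + 4) * (m + n + 1) + 1) * (l.length + 1) :=
  size_list_le_of _ l (fun r hr => (h r hr).size_le hj)

/-- reading the grid from the final state -/
theorem g02_ct_read : CT (fun z : (ℕ × List (List (Fin k))) × (List (List (List (Fin k))) ×
    List (List (List (Fin k)))) => z.2.1.reverse ++ z.1.2 :: z.2.2) (fun z => size z) := by
  have hcons : CT (fun x : List (List (Fin k)) × List (List (List (Fin k))) => x.1 :: x.2)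
      (fun x => size x) := (CT.of_enc_eq (fun _ => rfl)).mono 1 (fun _ => Nat.zero_le _)
  have happ : CT (fun x : List (List (List (Fin k))) × List (List (List (Fin k))) =>
      x.1.reverse ++ x.2) (fun x => size x) :=
    CT.appendRev.mono 1 (fun x => by rw [size_prod]; omega)
  have c1 : CT (fun z : (ℕ × List (List (Fin k))) × (List (List (List (Fin k))) ×
    List (List (List (Fin k)))) => z.1.2) (fun z => size z) := g02_lcomp g02_lsnd g02_lfst
  have c2 : CT (fun z : (ℕ × List (List (Fin k))) × (List (List (List (Fin k))) ×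
    List (List (List (Fin k)))) => z.2.1) (fun z => size z) := g02_lcomp g02_lfst g02_lsnd
  have c3 : CT (fun z : (ℕ × List (List (Fin k))) × (List (List (List (Fin k))) ×
    List (List (List (Fin k)))) => z.2.2) (fun z => size z) := g02_lcomp g02_lsnd g02_lsnd
  exact g02_lcomp happ (g02_lpair c2 (g02_lcomp hcons (g02_lpair c1 c3)))

/-- the start -/
theorem g02_ct_start : CT (fun x : ℕ × List (Ins k) => (x.2, ((x.1, ([] : List (List (Fin k)))),
    (([] : List (List (List (Fin k)))), ([] : List (List (List (Fin k)))))))) (fun x => size x) := by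
  have c0 : CT (fun x : ℕ × List (Ins k) => (x.1, ([] : List (List (Fin k)))))
      (fun x => size x) := g02_lpair g02_lfst (CT.const _)
  exact g02_lpair g02_lsnd (g02_lpair c0 (CT.const _))

theorem ct_grid : CT (fun x : ℕ × List (Ins k) => grid x.1 x.2)
    (fun x => (x.1 + x.2.length + 1) ^ 2) := by
  obtain ⟨κ0, hκ0⟩ := size_fin (Fin k)
  obtain ⟨κ1, hκ1⟩ := size_fin (Ins k)
  have hz := ct_zfold (ι := Ins k) (dir := gdir) (inn := ginn) ([] : List (List (Fin k)))
    (g02_ct_gf0 (k := k)) (g02_ct_gout (k := k)) (g02_ct_ginn (k := k))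
  have hall := g02_ct_read.comp (hz.comp (g02_ct_start (k := k)))
  refine (hall.mono (100 * (κ0 + κ1 + 1)) (fun x => ?_)).congr (fun _ => rfl)
  obtain ⟨m, I⟩ := x
  have hinv0 : g02_Inv (k := k) κ0 m 0 ((m, []), ([], [])) :=
    ⟨le_refl _, g02_Row.nil _ _ _, by simp, by simp, by simp⟩
  obtain ⟨b1, b2⟩ := g02_fold (n := I.length) hκ0 hκ1 I 0 (by omega) _ hinv0
  have b3 := size_list_le_of κ1 I (fun a _ => hκ1 a)
  set z := I.foldl (fun y a => zstep gdir gf0 gout ginn [] a y)
    (((m, []), ([], [])) : (ℕ × List (List (Fin k))) × (List (List (List (Fin k))) ×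
      List (List (List (Fin k))))) with hzdef
  have b4 : size z ≤ 2 * (m + I.length) + 1 + (κ0 + 4) * (m + I.length + 1) + 1 +
      (((κ0 + 4) * (m + I.length + 1) + 1) * (I.length + 2) + 1) + 1 := by
    obtain ⟨⟨c, r⟩, ⟨l1, l2⟩⟩ := z
    obtain ⟨h1, h2, h3, h4, h5⟩ := b1
    dsimp only at h1 h2 h3 h4 h5
    rw [size_prod, size_prod, size_prod, size_nat]
    dsimp only
    have d1 := h2.size_le (by omega : 0 + I.length ≤ I.length)
    have d2 := g02_size_list (by omega : 0 + I.length ≤ I.length) l1 h3
    have d3 := g02_size_list (by omega : 0 + I.length ≤ I.length) l2 h4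
    have d4 : ((κ0 + 4) * (m + I.length + 1) + 1) * (l1.length + 1) +
        ((κ0 + 4) * (m + I.length + 1) + 1) * (l2.length + 1) ≤
        ((κ0 + 4) * (m + I.length + 1) + 1) * (I.length + 2) := by
      rw [← Nat.mul_add]
      exact Nat.mul_le_mul_left _ (by omega)
    omega
  have b5 : size (((m, []), ([], [])) : (ℕ × List (List (Fin k))) × (List (List (List (Fin k))) ×
      List (List (List (Fin k))))) = 2 * m + 7 := by
    rw [size_prod, size_prod, size_prod, size_nat]
    simp only [size_nil]
  have b6 : size ((m, I) : ℕ × List (Ins k)) = 2 * m + 1 + size I + 1 := by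
    rw [size_prod, size_nat]
  show size ((m, I) : ℕ × List (Ins k)) + (size I + size (((m, []), ([], [])) :
    (ℕ × List (List (Fin k))) × (List (List (List (Fin k))) × List (List (List (Fin k))))) +
    foldCost _ _ I _) + size z ≤ _
  refine le_trans (Nat.add_le_add (Nat.add_le_add (le_of_eq b6) (Nat.add_le_add
    (Nat.add_le_add b3 (le_of_eq b5)) b2)) b4) ?_
  refine le_trans (Nat.add_le_add_right (Nat.add_le_add_right (Nat.add_le_add_right
    (Nat.add_le_add_left b3 _) _) _) _) ?_
  show _ ≤ 100 * (κ0 + κ1 + 1) * ((m + I.length + 1) ^ 2 + 1)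
  generalize I.length = n
  nlinarith [Nat.zero_le (κ0 * m * m), Nat.zero_le (κ0 * m * n), Nat.zero_le (κ0 * n * n),
    Nat.zero_le (κ1 * m * m), Nat.zero_le (κ1 * m * n), Nat.zero_le (κ1 * n * n),
    Nat.zero_le (m * m), Nat.zero_le (m * n), Nat.zero_le (n * n), Nat.zero_le (κ0 * m),
    Nat.zero_le (κ0 * n), Nat.zero_le (κ1 * m), Nat.zero_le (κ1 * n)]

end Pool.Agent.WPR
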