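import Pool.Agent.Lib.MP_2da099_lc.R2.G02
import Pool.Agent.Lib.MP_2da099_lc.R2.P05

/-!
# G03: grids of values
-/

set_option autoImplicit false

namespace Pool.Agent.WPR

open Pool.Agent.Lib.PolyTime Pool.Agent.WPM Function

variable {k : ℕ}

theorem g03_length_padTo {V : Type} (L : ℕ) (z : V) (r : List V) : (padTo L z r).length = L := by
  simp [padTo]

theorem g03_getD_padTo {V : Type} (L : ℕ) (z : V) (r : List V) (t : ℕ) (ht : t < L) :
    (padTo L z r).getD t z = r.getD t z := by
  simp only [padTo, List.getD_eq_getElem?_getD, List.getElem?_take, if_pos ht,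
    List.getElem?_append, List.getElem?_replicate]
  by_cases h : t < r.length
  · simp [h]
  · rw [if_neg h, List.getElem?_eq_none (by omega)]
    by_cases h2 : t - r.length < L
    · simp [h2]
    · simp [h2]

theorem length_vgrid {V : Type} [AddCommMonoid V] (u : Fin k → V) (m L : ℕ) (I : List (Ins k)) :
    0 < (vgrid u m L I).length ∧ (vgrid u m L I).length ≤ I.length + 1 ∧
      ∀ row ∈ vgrid u m L I, row.length = L := by
  have h := length_grid m I
  refine ⟨?_, ?_, ?_⟩
  · simp only [vgrid, List.length_map]
    exact h.1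
  · simp only [vgrid, List.length_map]
    exact h.2
  · intro row hrow
    simp only [vgrid, List.mem_map] at hrow
    obtain ⟨r, _, rfl⟩ := hrow
    exact g03_length_padTo _ _ _

theorem vgrid_spec {V : Type} [AddCommMonoid V] (u : Fin k → V) (m L : ℕ) (I : List (Ins k))
    (hm : I.length ≤ m) (hL : m + I.length < L) :
    ∃ s0 : ℤ, s0 ≤ 0 ∧ -(I.length : ℤ) ≤ s0 ∧
      (∀ s t : ℕ, s < (vgrid u m L I).length → t < L →
        ((vgrid u m L I).getD s []).getD t 0 = fcoef u I ((t : ℤ) - m, s0 + s)) ∧
      ∀ x ∈ ipos 0 I, ∃ s t : ℕ, s < (vgrid u m L I).length ∧ t < L ∧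
        x.1 = ((t : ℤ) - m, s0 + s) := by
  obtain ⟨s0, h1, h2, h3, h4⟩ := grid_spec m I hm
  have hlen : (vgrid u m L I).length = (grid m I).length := by
    simp only [vgrid, List.length_map]
  refine ⟨s0, h1, h2, ?_, ?_⟩
  · intro s t hs ht
    rw [← h3 V u s t]
    rw [hlen] at hs
    have e1 : (vgrid u m L I).getD s [] =
        padTo L 0 (((grid m I).getD s []).map (fun cell => (cell.map u).sum)) := by
      simp only [vgrid, List.getD_eq_getElem?_getD, List.getElem?_map,
        List.getElem?_eq_getElem hs, Option.map_some, Option.getD_some]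
    rw [e1, g03_getD_padTo _ _ _ _ ht]
    generalize (grid m I).getD s [] = r
    simp only [List.getD_eq_getElem?_getD, List.getElem?_map]
    cases r[t]? with
    | none => simp
    | some c => simp
  · intro x hx
    obtain ⟨s, t, a1, a2, a3⟩ := h4 x hx
    exact ⟨s, t, by rw [hlen]; exact a1, by omega, a3⟩

/-! ### The computation -/

theorem g03_foldCost {V : Type} [AddCommMonoid V] [Enc V] (u : Fin k → V) (C : ℕ)
    (hsize : ∀ l : List (Fin k), size (l.map u).sum ≤ C * (l.length + 1)) (l q : List (Fin k)) :
    foldCost (fun y : Fin k × V => size y.2) (fun y => u y.1 + y.2) l (q.map u).sum ≤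
      C * (q.length + l.length + 1) * l.length := by
  induction l generalizing q with
  | nil => exact Nat.zero_le _
  | cons a l ih =>
    have h1 := ih (a :: q)
    rw [List.map_cons, List.sum_cons] at h1
    have h2 := hsize q
    show size (q.map u).sum + foldCost _ _ l (u a + (q.map u).sum) ≤ _
    refine (Nat.add_le_add h2 h1).trans ?_
    simp only [List.length_cons]
    have e1 : q.length + 1 + l.length + 1 = q.length + (l.length + 1) + 1 := by omega
    rw [e1]
    have e2 : C * (q.length + 1) ≤ C * (q.length + (l.length + 1) + 1) :=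
      Nat.mul_le_mul_left _ (by omega)
    have e3 : C * (q.length + (l.length + 1) + 1) * (l.length + 1) =
      C * (q.length + (l.length + 1) + 1) + C * (q.length + (l.length + 1) + 1) * l.length := by
      ring
    omega

theorem g03_ct_cell {V : Type} [AddCommMonoid V] [Enc V] (u : Fin k → V)
    (hadd : ∀ κ, CT (fun v : V => u κ + v) (fun v => size v))
    (C : ℕ) (hsize : ∀ l : List (Fin k), size (l.map u).sum ≤ C * (l.length + 1)) :
    CT (fun c : List (Fin k) => (c.map u).sum) (fun c => (c.length + 1) ^ 2) := by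
  obtain ⟨κ, hκ⟩ := size_list_fin (Fin k)
  have hstep : CT (fun y : Fin k × V => u y.1 + y.2) (fun y => size y.2) :=
    ct_fincase (f := fun κ v => u κ + v) (T := fun _ v => size v) hadd
  have hf := CT.foldr hstep
  have h1 : CT (fun c : List (Fin k) => ((0 : V), c)) (fun _ => 0) := CT.pushConst _
  have h2 : CT (fun x : V × List (Fin k) => (x.2, x.1)) _ := CT.swap
  refine ((hf.comp (h2.comp h1)).mono (size (0 : V) + 2 * κ + C + 1) (fun c => ?_)).congr
    (fun c => ?_)
  · show 0 + (size (0 : V) + size c) + (size c + foldCost _ _ c.reverse (0 : V)) ≤ _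
    have a1 := hκ c
    have a2 := g03_foldCost u C hsize c.reverse []
    rw [List.map_nil, List.sum_nil, List.length_nil, List.length_reverse] at a2
    refine (Nat.add_le_add_left (Nat.add_le_add_left a2 _) _).trans ?_
    have e0 : (size (0 : V) + 2 * κ + C + 1) * ((c.length + 1) ^ 2 + 1) =
        size (0 : V) * (c.length + 1) ^ 2 + size (0 : V) + 2 * κ * ((c.length + 1) ^ 2 + 1) +
          C * ((c.length + 1) ^ 2 + 1) + (c.length + 1) ^ 2 + 1 := by ring
    have e1 : 2 * (κ * (c.length + 1)) ≤ 2 * κ * ((c.length + 1) ^ 2 + 1) := by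
      rw [← Nat.mul_assoc]
      exact Nat.mul_le_mul_left _ (by nlinarith)
    have e2 : C * (0 + c.length + 1) * c.length ≤ C * ((c.length + 1) ^ 2 + 1) := by
      rw [Nat.mul_assoc]
      exact Nat.mul_le_mul_left _ (by nlinarith)
    omega
  · show c.foldr (fun a s => u a + s) 0 = (c.map u).sum
    induction c with
    | nil => simp
    | cons a c ih => rw [List.foldr_cons, ih, List.map_cons, List.sum_cons]

theorem g03_ct_pad {V : Type} [Enc V] (z : V) :
    CT (fun x : List V × ℕ => padTo x.2 z x.1) (fun x => size x) := by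
  have crep0 : CT (fun i : ℕ => List.replicate i z) (fun i => size i) := by
    have h1 : CT (fun i : ℕ => (z, i)) (fun _ => 0) := CT.pushConst _
    have h2 : CT (fun x : V × ℕ => (x.2, x.1)) _ := CT.swap
    have h3 : CT (fun x : ℕ × V => List.replicate x.1 x.2) _ := ct_replicate
    refine (h3.comp (h2.comp h1)).mono (size z + 1) (fun i => ?_)
    show 0 + (size z + size i) + (i + 1) * size z ≤ _
    rw [size_nat]
    have e : (size z + 1) * (2 * i + 1 + 1) = 2 * ((i + 1) * size z) + 2 * i + 2 := by ring
    have e2 : (i + 1) * size z = i * size z + size z := by ring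
    omega
  have cr : CT (fun x : List V × ℕ => x.1) (fun x => size x) := g02_lfst
  have cL : CT (fun x : List V × ℕ => x.2) (fun x => size x) := g02_lsnd
  have crep := g02_lcomp crep0 cL
  have lapp : CT (fun x : List V × List V => x.1 ++ x.2)
      (fun x => size x) := CT.append.mono 1 (fun x => by rw [size_prod]; omega)
  have ltake : CT (fun x : ℕ × List V => x.2.take x.1) (fun x => size x) :=
    ct_take.mono 1 (fun x => by rw [size_prod, size_nat]; omega)
  have capp := g02_lcomp lapp (g02_lpair cr crep)
  exact (g02_lcomp ltake (g02_lpair cL capp)).congr (fun _ => rfl)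

/-- cost of a row -/
def g03_cells (r : List (List (Fin k))) : ℕ := (r.map (fun c => (c.length + 1) ^ 2)).sum

theorem g03_ct_row {V : Type} [AddCommMonoid V] [Enc V] (u : Fin k → V)
    (hadd : ∀ κ, CT (fun v : V => u κ + v) (fun v => size v))
    (C : ℕ) (hsize : ∀ l : List (Fin k), size (l.map u).sum ≤ C * (l.length + 1)) :
    CT (fun x : List (List (Fin k)) × ℕ =>
        padTo x.2 0 (x.1.map (fun cell => (cell.map u).sum)))
      (fun x => size x.1 + g03_cells x.1 + size x.2) := by
  have h0 := ct_map (g03_ct_cell u hadd C hsize)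
  obtain ⟨D, hD⟩ := h0.size_le
  have h1 : CT (fun x : List (List (Fin k)) × ℕ =>
    (x.1.map (fun cell => (cell.map u).sum), x.2)) _ := CT.first h0
  refine ((g03_ct_pad (0 : V)).comp h1).mono (D + 3) (fun x => ?_)
  obtain ⟨r, L⟩ := x
  show size r + g03_cells r + size (r.map (fun cell => (cell.map u).sum), L) ≤
    (D + 3) * (size r + g03_cells r + size L + 1)
  rw [size_prod]
  dsimp only
  have a1 : size (r.map (fun cell => (cell.map u).sum)) ≤
    size r + D * (size r + g03_cells r + 1) := hD r
  have e : (D + 3) * (size r + g03_cells r + size L + 1) =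
    D * (size r + g03_cells r + 1) + D * size L + 3 * (size r + g03_cells r + size L + 1) := by
    ring
  omega

theorem g03_cells_le (n : ℕ) (r : List (List (Fin k))) (h : (r.map List.length).sum ≤ n) :
    g03_cells r ≤ size r + (n + 2) * (r.map List.length).sum := by
  induction r with
  | nil => exact Nat.zero_le _
  | cons c r ih =>
    rw [List.map_cons, List.sum_cons] at h
    have h1 := ih (by omega)
    have e1 : g03_cells (c :: r) = (c.length + 1) ^ 2 + g03_cells r := by
      simp only [g03_cells, List.map_cons, List.sum_cons]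
    rw [e1, size_cons, List.map_cons, List.sum_cons, Nat.mul_add]
    have h2 : c.length * c.length ≤ n * c.length := Nat.mul_le_mul_right _ (by omega)
    have e2 : (c.length + 1) ^ 2 = c.length * c.length + 2 * c.length + 1 := by ring
    have e3 : (n + 2) * c.length = n * c.length + 2 * c.length := by ring
    omega

theorem g03_grid_le (n : ℕ) (g : List (List (List (Fin k))))
    (h : (g.map (fun row => (row.map List.length).sum)).sum ≤ n) :
    (g.map g03_cells).sum ≤ size g + (n + 2) *
      (g.map (fun row => (row.map List.length).sum)).sum := by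
  induction g with
  | nil => exact Nat.zero_le _
  | cons r g ih =>
    rw [List.map_cons, List.sum_cons] at h
    have h1 := ih (by omega)
    have h2 := g03_cells_le n r (by omega)
    rw [size_cons, List.map_cons, List.sum_cons, List.map_cons, List.sum_cons, Nat.mul_add]
    omega

theorem g03_sum_size {α : Type} [Enc α] (l : List α) : (l.map (fun a => size a)).sum ≤ size l := by
  induction l with
  | nil => exact Nat.zero_le _
  | cons a l ih =>
    rw [List.map_cons, List.sum_cons, size_cons]
    omega

theorem g03_sum_row (g : List (List (List (Fin k)))) (L : ℕ) :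
    (g.map (fun r => size r + g03_cells r + size L)).sum =
      (g.map (fun r => size r)).sum + (g.map g03_cells).sum + g.length * size L := by
  induction g with
  | nil => simp
  | cons r g ih =>
    simp only [List.map_cons, List.sum_cons, List.length_cons]
    rw [ih]
    ring

theorem ct_vgrid {V : Type} [AddCommMonoid V] [Enc V] (u : Fin k → V)
    (hadd : ∀ κ, CT (fun v : V => u κ + v) (fun v => size v))
    (C : ℕ) (hsize : ∀ l : List (Fin k), size (l.map u).sum ≤ C * (l.length + 1)) :
    CT (fun x : (ℕ × ℕ) × List (Ins k) => vgrid u x.1.1 x.1.2 x.2)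
      (fun x => (x.1.1 + x.1.2 + x.2.length + 1) ^ 2) := by
  obtain ⟨κ, hκ⟩ := size_list_fin (Ins k)
  obtain ⟨D, hD⟩ := (ct_grid (k := k)).size_le
  have c1 : CT (fun x : (ℕ × ℕ) × List (Ins k) => (x.1.1, x.2)) (fun x => size x) :=
    g02_lpair (g02_lcomp g02_lfst g02_lfst) g02_lsnd
  have cL : CT (fun x : (ℕ × ℕ) × List (Ins k) => x.1.2) (fun x => size x) :=
    g02_lcomp g02_lsnd g02_lfst
  have h1 := (ct_grid (k := k)).comp c1
  have h2 := CT.pair h1 cL
  have h3 := (ct_mapEnv (g03_ct_row u hadd C hsize)).comp h2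
  refine (h3.mono (100 * (κ + D + 1)) (fun x => ?_)).congr (fun _ => rfl)
  obtain ⟨⟨m, L⟩, I⟩ := x
  have a1 : size (((m, L), I) : (ℕ × ℕ) × List (Ins k)) =
      2 * m + 1 + (2 * L + 1) + 1 + size I + 1 := by
    rw [size_prod, size_prod, size_nat, size_nat]
  have a2 : size ((m, I) : ℕ × List (Ins k)) = 2 * m + 1 + size I + 1 := by
    rw [size_prod, size_nat]
  have a3 := hD (m, I)
  rw [a2] at a3
  dsimp only at a3
  have a4 := hκ I
  have a5 := tokens_grid m I
  have a6 := g03_grid_le I.length (grid m I) a5
  have a7 := g03_sum_size (grid m I)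
  have a8 := g03_sum_row (grid m I) L
  have a9 := (length_grid m I).2
  show size (((m, L), I) : (ℕ × ℕ) × List (Ins k)) +
    (size (((m, L), I) : (ℕ × ℕ) × List (Ins k)) + (m + I.length + 1) ^ 2) +
    size (((m, L), I) : (ℕ × ℕ) × List (Ins k)) +
    (size (grid m I) + ((grid m I).length + 1) * size L +
      ((grid m I).map (fun r => size r + g03_cells r + size L)).sum) ≤ _
  rw [a8, a1, size_nat]
  have b1 : (I.length + 2) * ((grid m I).map (fun row => (row.map List.length).sum)).sum ≤
    (I.length + 2) * I.length := Nat.mul_le_mul_left _ a5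
  have b2 : ((grid m I).length + 1) * (2 * L + 1) ≤ (I.length + 2) * (2 * L + 1) :=
    Nat.mul_le_mul_right _ (by omega)
  have b3 : (grid m I).length * (2 * L + 1) ≤ (I.length + 1) * (2 * L + 1) :=
    Nat.mul_le_mul_right _ a9
  show _ ≤ 100 * (κ + D + 1) * ((m + L + I.length + 1) ^ 2 + 1)
  have b4 : size (grid m I) ≤ 2 * m + 1 + κ * (I.length + 1) + 1 +
    D * ((m + I.length + 1) ^ 2 + 1) := by omega
  refine le_trans (b := 3 * (2 * m + 1 + (2 * L + 1) + 1 + κ * (I.length + 1) + 1) +
    (m + I.length + 1) ^ 2 + 3 * (2 * m + 1 + κ * (I.length + 1) + 1 +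
    D * ((m + I.length + 1) ^ 2 + 1)) + (I.length + 2) * (2 * L + 1) +
    (I.length + 1) * (2 * L + 1) + (I.length + 2) * I.length) (by omega) ?_
  generalize I.length = n
  nlinarith [Nat.zero_le (κ * m * m), Nat.zero_le (κ * m * n), Nat.zero_le (κ * n * n),
    Nat.zero_le (D * m * m), Nat.zero_le (D * m * n), Nat.zero_le (D * n * n),
    Nat.zero_le (m * m), Nat.zero_le (m * n), Nat.zero_le (n * n), Nat.zero_le (κ * m),
    Nat.zero_le (κ * n), Nat.zero_le (D * m), Nat.zero_le (D * n), Nat.zero_le (κ * L),
    Nat.zero_le (D * L), Nat.zero_le (L * m), Nat.zero_le (L * n), Nat.zero_le (L * L),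
    Nat.zero_le (D * L * L), Nat.zero_le (κ * L * L), Nat.zero_le (D * L * m),
    Nat.zero_le (D * L * n), Nat.zero_le (κ * L * m), Nat.zero_le (κ * L * n)]

end Pool.Agent.WPR
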