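import Pool.Agent.Lib.MP_2da099_lc.R2.M01

/-!
# M02: coefficients of factors, two variables

HINTS.  `bound2`: `F = h * G` in `ℤ[Y][X]` (outer variable `X`).  Let `ℓ ∈ ℤ[Y]` be the leading coefficient of `h`,
`d` its degree.  For `y ∈ ℂ` with `‖y‖ = 1`: `F(X, y) = h(X, y) G(X, y)` in `ℂ[X]`.  If `ℓ(y) ≠ 0` then
`factor_bound` gives `‖ℓ(y)‖ Σ_k ‖G_k(y)‖ ≤ (m + 1) ^ d Σ_i ‖F_i(y)‖ ≤ (m + 1) ^ d * S` with
`S = Σ |coefficients of F|`; if `ℓ(y) = 0` the inequality `‖ℓ(y) G_k(y)‖ ≤ ...` is trivial.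
So `A = ℓ * G_k ∈ ℤ[Y]` is bounded by `(m + 1) ^ d S` on the circle, its coefficients are too (`coeff_le_sup`),
degree `≤ 2 m` say (`natDegree G_k ≤ m`, `natDegree ℓ ≤ m`: hypotheses below), so `Σ |A_j| ≤ (2m + 1) (m+1) ^ d S`.
Again `factor_bound` (over `ℂ`, one variable) for `A = ℓ * G_k`:
`‖lc ℓ‖ Σ_j |G_{k j}| ≤ (2 m + 1) ^ {deg ℓ} * (2 m + 1) (m + 1) ^ d S`, `‖lc ℓ‖ ≥ 1`.
-/

set_option autoImplicit false

namespace Pool.Agent.WPR

open Polynomial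

theorem m02_norm_int (n : ℤ) : ‖(n : ℂ)‖ = (n.natAbs : ℝ) := by
  rw [Complex.norm_intCast, Nat.cast_natAbs, Int.cast_abs]

theorem m02_eval_bound (q : ℤ[X]) (m : ℕ) (hq : q.natDegree ≤ m) (y : ℂ) (hy : ‖y‖ = 1) :
    ‖q.eval₂ (Int.castRingHom ℂ) y‖ ≤ ∑ j ∈ Finset.range (m + 1), ((q.coeff j).natAbs : ℝ) := by
  rw [eval₂_eq_sum_range' (Int.castRingHom ℂ) (n := m + 1) (by omega)]
  refine norm_sum_le_of_le _ fun j _ => ?_
  rw [norm_mul, norm_pow, hy, one_pow, mul_one, eq_intCast, m02_norm_int]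

theorem m02_natDegree_le {R : Type*} [CommRing R] [IsDomain R] (h F G : R[X]) (hh : h ≠ 0)
    (hF : F = h * G) : G.natDegree ≤ F.natDegree := by
  by_cases hG : G = 0
  · rw [hG, natDegree_zero]; exact Nat.zero_le _
  · rw [hF, natDegree_mul hh hG]; exact Nat.le_add_left _ _

theorem m02_step1 (h F G : ℤ[X][X]) (hh : h ≠ 0) (m : ℕ) (hF : F = h * G)
    (hd : F.natDegree ≤ m) (hF2 : ∀ i, (F.coeff i).natDegree ≤ m) (k : ℕ) (y : ℂ) (hy : ‖y‖ = 1) :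
    ‖(h.leadingCoeff * G.coeff k).eval₂ (Int.castRingHom ℂ) y‖ ≤
      ((m : ℝ) + 1) ^ h.natDegree *
        ∑ i ∈ Finset.range (m + 1), ∑ j ∈ Finset.range (m + 1), (((F.coeff i).coeff j).natAbs : ℝ) := by
  have hS : 0 ≤ ∑ i ∈ Finset.range (m + 1), ∑ j ∈ Finset.range (m + 1),
      (((F.coeff i).coeff j).natAbs : ℝ) :=
    Finset.sum_nonneg fun _ _ => Finset.sum_nonneg fun _ _ => Nat.cast_nonneg _
  by_cases hk : m < k
  · have : G.coeff k = 0 := coeff_eq_zero_of_natDegree_lt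
      (lt_of_le_of_lt ((m02_natDegree_le h F G hh hF).trans hd) hk)
    rw [this, mul_zero, eval₂_zero, norm_zero]
    exact mul_nonneg (by positivity) hS
  push Not at hk
  obtain ⟨φ, hφ⟩ : ∃ φ : ℤ[X] →+* ℂ, φ = eval₂RingHom (Int.castRingHom ℂ) y := ⟨_, rfl⟩
  have hφe : ∀ q : ℤ[X], q.eval₂ (Int.castRingHom ℂ) y = φ q := by
    intro q; rw [hφ, coe_eval₂RingHom]
  rw [hφe, map_mul, norm_mul]
  by_cases h0 : φ h.leadingCoeff = 0
  · rw [h0, norm_zero, zero_mul]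
    exact mul_nonneg (by positivity) hS
  have hlc : (h.map φ).leadingCoeff = φ h.leadingCoeff := leadingCoeff_map_of_leadingCoeff_ne_zero φ h0
  have hnd : (h.map φ).natDegree = h.natDegree := natDegree_map_of_leadingCoeff_ne_zero φ h0
  have h1 := factor_bound (F.map φ) (h.map φ) (G.map φ) m (natDegree_map_le.trans hd)
    (by rw [hF, Polynomial.map_mul])
  rw [hlc, hnd] at h1
  have h2 : ‖φ (G.coeff k)‖ ≤ ∑ i ∈ Finset.range (m + 1), ‖(G.map φ).coeff i‖ := by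
    have := Finset.single_le_sum (f := fun i => ‖(G.map φ).coeff i‖) (s := Finset.range (m + 1))
      (fun _ _ => norm_nonneg _) (Finset.mem_range.mpr (Nat.lt_succ_of_le hk))
    simpa only [coeff_map] using this
  refine (mul_le_mul_of_nonneg_left h2 (norm_nonneg _)).trans (h1.trans ?_)
  refine mul_le_mul_of_nonneg_left ?_ (by positivity)
  refine Finset.sum_le_sum fun i _ => ?_
  rw [coeff_map, ← hφe]
  exact m02_eval_bound _ m (hF2 i) y hy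

theorem m02_step2 (ℓ g : ℤ[X]) (hℓ : ℓ ≠ 0) (m : ℕ) (hg : g.natDegree ≤ m) (T : ℝ)
    (hT : ∀ y : ℂ, ‖y‖ = 1 → ‖(ℓ * g).eval₂ (Int.castRingHom ℂ) y‖ ≤ T) (j : ℕ) :
    ((g.coeff j).natAbs : ℝ) ≤ ((m + ℓ.natDegree : ℕ) + 1 : ℝ) ^ (ℓ.natDegree + 1) * T := by
  have hinj : Function.Injective (Int.castRingHom ℂ) := Int.cast_injective
  have hT0 : 0 ≤ T := (norm_nonneg _).trans (hT 1 norm_one)
  by_cases hj : m < j
  · rw [coeff_eq_zero_of_natDegree_lt (lt_of_le_of_lt hg hj)]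
    simp only [Int.natAbs_zero, Nat.cast_zero]
    exact mul_nonneg (by positivity) hT0
  push Not at hj
  have h1 := factor_bound ((ℓ * g).map (Int.castRingHom ℂ)) (ℓ.map (Int.castRingHom ℂ))
    (g.map (Int.castRingHom ℂ)) (m + ℓ.natDegree)
    (natDegree_map_le.trans (natDegree_mul_le.trans (by omega))) (Polynomial.map_mul _)
  rw [natDegree_map_eq_of_injective hinj, leadingCoeff_map_of_injective hinj] at h1
  have h2 : (1 : ℝ) ≤ ‖(Int.castRingHom ℂ) ℓ.leadingCoeff‖ := by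
    rw [eq_intCast, m02_norm_int]
    have : ℓ.leadingCoeff ≠ 0 := leadingCoeff_ne_zero.mpr hℓ
    exact_mod_cast Nat.one_le_iff_ne_zero.mpr (Int.natAbs_ne_zero.mpr this)
  have h3 : ((g.coeff j).natAbs : ℝ) ≤
      ∑ i ∈ Finset.range (m + ℓ.natDegree + 1), ‖(g.map (Int.castRingHom ℂ)).coeff i‖ := by
    have := Finset.single_le_sum (f := fun i => ‖(g.map (Int.castRingHom ℂ)).coeff i‖)
      (s := Finset.range (m + ℓ.natDegree + 1))
      (fun _ _ => norm_nonneg _) (Finset.mem_range.mpr (show j < m + ℓ.natDegree + 1 by omega))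
    simpa only [coeff_map, eq_intCast, m02_norm_int] using this
  have h4 : ∑ i ∈ Finset.range (m + ℓ.natDegree + 1), ‖((ℓ * g).map (Int.castRingHom ℂ)).coeff i‖ ≤
      ((m + ℓ.natDegree : ℕ) + 1 : ℝ) * T := by
    refine (Finset.sum_le_card_nsmul _ _ _ fun i _ =>
      coeff_le_sup ((ℓ * g).map (Int.castRingHom ℂ)) T ?_ i).trans ?_
    · intro z hz
      rw [eval_map]
      exact hT z hz
    · rw [Finset.card_range, nsmul_eq_mul]
      push_cast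
      exact le_rfl
  have hSg : 0 ≤ ∑ i ∈ Finset.range (m + ℓ.natDegree + 1), ‖(g.map (Int.castRingHom ℂ)).coeff i‖ :=
    Finset.sum_nonneg fun _ _ => norm_nonneg _
  calc ((g.coeff j).natAbs : ℝ) ≤
        ∑ i ∈ Finset.range (m + ℓ.natDegree + 1), ‖(g.map (Int.castRingHom ℂ)).coeff i‖ := h3
    _ ≤ ‖(Int.castRingHom ℂ) ℓ.leadingCoeff‖ *
        ∑ i ∈ Finset.range (m + ℓ.natDegree + 1), ‖(g.map (Int.castRingHom ℂ)).coeff i‖ :=
        le_mul_of_one_le_left hSg h2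
    _ ≤ _ := h1
    _ ≤ ((m + ℓ.natDegree : ℕ) + 1 : ℝ) ^ ℓ.natDegree * (((m + ℓ.natDegree : ℕ) + 1 : ℝ) * T) :=
        mul_le_mul_of_nonneg_left h4 (by positivity)
    _ = _ := by ring

theorem bound2 (h : Polynomial (Polynomial ℤ)) (hh : h ≠ 0) :
    ∃ C : ℕ, ∀ (m : ℕ) (F G : Polynomial (Polynomial ℤ)), F = h * G →
      F.natDegree ≤ m → (∀ i, (F.coeff i).natDegree ≤ m) → (∀ i, (G.coeff i).natDegree ≤ m) →
      ∀ i j, ((G.coeff i).coeff j).natAbs ≤ C * (m + 1) ^ C *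
        ∑ i ∈ Finset.range (m + 1), ∑ j ∈ Finset.range (m + 1), ((F.coeff i).coeff j).natAbs := by
  obtain ⟨e, he⟩ : ∃ e, e = h.leadingCoeff.natDegree := ⟨_, rfl⟩
  obtain ⟨d, hd⟩ : ∃ d, d = h.natDegree := ⟨_, rfl⟩
  refine ⟨(e + 1) ^ (e + 1) + (e + 1 + d), fun m F G hF hdF hF2 hG2 i j => ?_⟩
  have hlc : h.leadingCoeff ≠ 0 := leadingCoeff_ne_zero.mpr hh
  have h1 := m02_step2 h.leadingCoeff (G.coeff i) hlc m (hG2 i) _
    (fun y hy => m02_step1 h F G hh m hF hdF hF2 i y hy) j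
  rw [← he, ← hd] at h1
  have h2 : ((G.coeff i).coeff j).natAbs ≤ (m + e + 1) ^ (e + 1) * ((m + 1) ^ d *
      ∑ i ∈ Finset.range (m + 1), ∑ j ∈ Finset.range (m + 1), ((F.coeff i).coeff j).natAbs) := by
    have h1' := h1
    push_cast at h1'
    exact_mod_cast h1'
  refine h2.trans ?_
  rw [← mul_assoc]
  refine Nat.mul_le_mul_right _ ?_
  have h3 : m + e + 1 ≤ (e + 1) * (m + 1) := by nlinarith [Nat.zero_le (e * m)]
  calc (m + e + 1) ^ (e + 1) * (m + 1) ^ d ≤ ((e + 1) * (m + 1)) ^ (e + 1) * (m + 1) ^ d :=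
        Nat.mul_le_mul_right _ (Nat.pow_le_pow_left h3 _)
    _ = (e + 1) ^ (e + 1) * (m + 1) ^ (e + 1 + d) := by rw [mul_pow, pow_add (m + 1) (e + 1) d]; ring
    _ ≤ ((e + 1) ^ (e + 1) + (e + 1 + d)) * (m + 1) ^ ((e + 1) ^ (e + 1) + (e + 1 + d)) :=
        Nat.mul_le_mul (Nat.le_add_right _ _) (Nat.pow_le_pow_right (Nat.succ_pos _) (Nat.le_add_left _ _))

end Pool.Agent.WPR
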