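import Pool.Agent.Lib.MP_2da099_lc.R2.I01
import Mathlib.Algebra.CharP.Lemmas
import Mathlib.Algebra.MonoidAlgebra.Support
import Mathlib.FieldTheory.Finite.Basic

/-!
# M04: the Frobenius congruence

HINTS.  `dil_congr`: the set of `h` with `p ∣ dil p h - h ^ p` contains the monomials with integer coefficients
(`a ^ p ≡ a mod p`: `ZMod.pow_card` or `Int.ModEq.pow_card`...) and is closed under addition (the binomial
coefficients `p.choose i`, `0 < i < p`, are divisible by `p`: `add_pow_le_pow_mul_pow...`; in the quotient ring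
`L2 ⧸ (p)` of characteristic `p` use `add_pow_char`).  `AddMonoidAlgebra` induction.
`rad r F`: all exponents of `F` are at most `r` in absolute value (both coordinates).
`rad_mul`, `rad_add`, `rad_pow`, `rad_dil`: supports of products are in sums of supports.
`dil_eq`: `u = (dil p h - h ^ p) / p`: exponents of `u` are among those of `p • u = dil p h - h ^ p`.
`norm1_mul`, `norm1_pow`, `norm1_dil`: triangle inequality; `dil p` is injective on exponents for `p ≥ 1`.
-/

set_option autoImplicit false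

namespace Pool.Agent.WPR

/-- all exponents are at most `r` in absolute value -/
def rad (r : ℕ) (F : L2) : Prop := ∀ c : ℤ × ℤ, F.coeff c ≠ 0 → |c.1| ≤ r ∧ |c.2| ≤ r

theorem rad_mul {r r' : ℕ} {F G : L2} (hF : rad r F) (hG : rad r' G) : rad (r + r') (F * G) := by
  classical
  intro c hc
  have h1 : c ∈ (F * G).coeff.support := Finsupp.mem_support_iff.2 hc
  have h2 := AddMonoidAlgebra.support_coeff_mul_subset F G h1
  obtain ⟨a, ha, b, hb, rfl⟩ := Finset.mem_add.1 h2
  have h3 := hF a (Finsupp.mem_support_iff.1 ha)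
  have h4 := hG b (Finsupp.mem_support_iff.1 hb)
  refine ⟨?_, ?_⟩
  · have h5 := abs_add_le a.1 b.1
    simp only [Prod.fst_add, Nat.cast_add]
    linarith [h3.1, h4.1]
  · have h5 := abs_add_le a.2 b.2
    simp only [Prod.snd_add, Nat.cast_add]
    linarith [h3.2, h4.2]

theorem rad_pow {r : ℕ} {F : L2} (hF : rad r F) (n : ℕ) : rad (n * r) (F ^ n) := by
  induction n with
  | zero =>
    intro c hc
    rw [pow_zero, AddMonoidAlgebra.one_def, AddMonoidAlgebra.coeff_single, Finsupp.single_apply] at hc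
    have h1 : (0 : ℤ × ℤ) = c := by
      by_contra h
      rw [if_neg h] at hc
      exact hc rfl
    subst h1
    simp
  | succ n ih =>
    rw [pow_succ, Nat.succ_mul]
    exact rad_mul ih hF

theorem m04_coeff_dil (q : ℕ) (F : L2) :
    (dil q F).coeff = Finsupp.mapDomain (fun c : ℤ × ℤ => q • c) F.coeff := rfl

theorem rad_dil {r : ℕ} {F : L2} (hF : rad r F) (q : ℕ) : rad (q * r) (dil q F) := by
  classical
  intro c hc
  rw [m04_coeff_dil] at hc
  have h1 := Finsupp.mapDomain_support (Finsupp.mem_support_iff.2 hc)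
  obtain ⟨a, ha, rfl⟩ := Finset.mem_image.1 h1
  have h3 := hF a (Finsupp.mem_support_iff.1 ha)
  refine ⟨?_, ?_⟩
  · show |(q • a).1| ≤ ((q * r : ℕ) : ℤ)
    rw [Prod.smul_fst, nsmul_eq_mul, abs_mul, Nat.abs_cast, Nat.cast_mul]
    exact mul_le_mul_of_nonneg_left h3.1 (Nat.cast_nonneg q)
  · show |(q • a).2| ≤ ((q * r : ℕ) : ℤ)
    rw [Prod.smul_snd, nsmul_eq_mul, abs_mul, Nat.abs_cast, Nat.cast_mul]
    exact mul_le_mul_of_nonneg_left h3.2 (Nat.cast_nonneg q)

theorem m04_norm1_eq (F : L2) (S : Finset (ℤ × ℤ)) (h : F.coeff.support ⊆ S) :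
    norm1 F = ∑ c ∈ S, (F.coeff c).natAbs := by
  unfold norm1
  refine Finset.sum_subset h (fun c _ hc => ?_)
  rw [Finsupp.notMem_support_iff.1 hc]
  rfl

theorem m04_sum_le (F : L2) (S : Finset (ℤ × ℤ)) : ∑ c ∈ S, (F.coeff c).natAbs ≤ norm1 F := by
  classical
  rw [m04_norm1_eq F (F.coeff.support ∪ S) Finset.subset_union_left]
  exact Finset.sum_le_sum_of_subset Finset.subset_union_right

theorem m04_norm1_add (F G : L2) : norm1 (F + G) ≤ norm1 F + norm1 G := by
  classical
  have hs : (F + G).coeff.support ⊆ F.coeff.support ∪ G.coeff.support := by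
    rw [AddMonoidAlgebra.coeff_add]
    exact Finsupp.support_add
  rw [m04_norm1_eq (F + G) _ hs, m04_norm1_eq F (F.coeff.support ∪ G.coeff.support)
    Finset.subset_union_left, m04_norm1_eq G (F.coeff.support ∪ G.coeff.support)
    Finset.subset_union_right, ← Finset.sum_add_distrib]
  refine Finset.sum_le_sum (fun c _ => ?_)
  rw [AddMonoidAlgebra.coeff_add, Finsupp.add_apply]
  exact Int.natAbs_add_le _ _

theorem m04_norm1_zero : norm1 (0 : L2) = 0 := by
  unfold norm1
  simp

theorem m04_norm1_single (c : ℤ × ℤ) (a : ℤ) :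
    norm1 (AddMonoidAlgebra.single c a : L2) ≤ a.natAbs := by
  classical
  have hs : (AddMonoidAlgebra.single c a : L2).coeff.support ⊆ {c} := by
    rw [AddMonoidAlgebra.coeff_single]
    exact Finsupp.support_single_subset
  rw [m04_norm1_eq _ _ hs, Finset.sum_singleton, AddMonoidAlgebra.coeff_single,
    Finsupp.single_eq_same]

theorem m04_norm1_sum {ι : Type*} (s : Finset ι) (f : ι → L2) :
    norm1 (∑ i ∈ s, f i) ≤ ∑ i ∈ s, norm1 (f i) := by
  classical
  induction s using Finset.induction_on with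
  | empty => simp [m04_norm1_zero]
  | insert a s ha ih =>
    rw [Finset.sum_insert ha, Finset.sum_insert ha]
    exact le_trans (m04_norm1_add _ _) (Nat.add_le_add_left ih _)

theorem m04_coeff_mul (F G : L2) (c : ℤ × ℤ) :
    (F * G).coeff c = ∑ a ∈ F.coeff.support, F.coeff a * G.coeff (-a + c) := by
  rw [AddMonoidAlgebra.coeff_mul_apply_left]
  rfl

theorem norm1_mul (F G : L2) : norm1 (F * G) ≤ norm1 F * norm1 G := by
  classical
  unfold norm1
  rw [Finset.sum_mul]
  calc ∑ c ∈ (F * G).coeff.support, ((F * G).coeff c).natAbs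
      ≤ ∑ c ∈ (F * G).coeff.support, ∑ a ∈ F.coeff.support,
          (F.coeff a).natAbs * (G.coeff (-a + c)).natAbs := by
        refine Finset.sum_le_sum (fun c _ => ?_)
        rw [m04_coeff_mul]
        refine le_trans (Int.natAbs_sum_le _ _) (Finset.sum_le_sum (fun a _ => ?_))
        rw [Int.natAbs_mul]
    _ = ∑ a ∈ F.coeff.support, (F.coeff a).natAbs *
          ∑ c ∈ (F * G).coeff.support, (G.coeff (-a + c)).natAbs := by
        rw [Finset.sum_comm]
        refine Finset.sum_congr rfl (fun a _ => ?_)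
        rw [Finset.mul_sum]
    _ ≤ ∑ a ∈ F.coeff.support, (F.coeff a).natAbs * norm1 G := by
        refine Finset.sum_le_sum (fun a _ => Nat.mul_le_mul_left _ ?_)
        have h1 : ∑ c ∈ (F * G).coeff.support, (G.coeff (-a + c)).natAbs
            = ∑ c ∈ (F * G).coeff.support.image (fun c => -a + c), (G.coeff c).natAbs := by
          rw [Finset.sum_image (fun x _ y _ h => add_left_cancel h)]
        rw [h1]
        exact m04_sum_le G _

theorem norm1_dil (F : L2) (q : ℕ) : norm1 (dil q F) ≤ norm1 F := by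
  have h1 : dil q F = ∑ a ∈ F.coeff.support, (AddMonoidAlgebra.single (q • a) (F.coeff a) : L2) := by
    have h2 : F = ∑ a ∈ F.coeff.support, (AddMonoidAlgebra.single a (F.coeff a) : L2) :=
      (AddMonoidAlgebra.sum_coeff_single F).symm
    conv_lhs => rw [h2]
    rw [map_sum]
    refine Finset.sum_congr rfl (fun a _ => ?_)
    exact AddMonoidAlgebra.mapDomain_single
  rw [h1]
  refine le_trans (m04_norm1_sum _ _) ?_
  unfold norm1
  exact Finset.sum_le_sum (fun a _ => m04_norm1_single _ _)

theorem coeff_le_norm1 (F : L2) (c : ℤ × ℤ) : (F.coeff c).natAbs ≤ norm1 F := by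
  have h := m04_sum_le F {c}
  simpa using h

/-- The coefficients of a product. -/
theorem coeff_mul_le (F G : L2) (B : ℕ) (hB : ∀ c, (G.coeff c).natAbs ≤ B) (c : ℤ × ℤ) :
    ((F * G).coeff c).natAbs ≤ norm1 F * B := by
  rw [m04_coeff_mul]
  refine le_trans (Int.natAbs_sum_le _ _) ?_
  unfold norm1
  rw [Finset.sum_mul]
  refine Finset.sum_le_sum (fun a _ => ?_)
  rw [Int.natAbs_mul]
  exact Nat.mul_le_mul_left _ (hB _)

theorem m04_dil_congr (p : ℕ) (hp : p.Prime) (h : L2) :
    ∃ u : L2, dil p h = h ^ p + (p : L2) * u := by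
  induction h using AddMonoidAlgebra.induction_linear with
  | zero => exact ⟨0, by rw [map_zero, zero_pow hp.ne_zero, mul_zero, add_zero]⟩
  | add f g hf hg =>
    obtain ⟨u, hu⟩ := hf
    obtain ⟨v, hv⟩ := hg
    obtain ⟨w, hw⟩ := exists_add_pow_prime_eq hp f g
    refine ⟨u + v - f * g * w, ?_⟩
    rw [map_add, hu, hv, hw]
    ring
  | single m a =>
    have : Fact p.Prime := ⟨hp⟩
    have h1 : ((a ^ p - a : ℤ) : ZMod p) = 0 := by
      push_cast
      rw [ZMod.pow_card, sub_self]
    have h2 : (p : ℤ) ∣ a ^ p - a := (ZMod.intCast_zmod_eq_zero_iff_dvd _ _).1 h1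
    obtain ⟨b, hb⟩ := h2
    refine ⟨AddMonoidAlgebra.single (p • m) (-b), ?_⟩
    have h3 : dil p (AddMonoidAlgebra.single m a) = AddMonoidAlgebra.single (p • m) a :=
      AddMonoidAlgebra.mapDomain_single
    rw [h3, AddMonoidAlgebra.single_pow, AddMonoidAlgebra.natCast_def,
      AddMonoidAlgebra.single_mul_single, zero_add, ← AddMonoidAlgebra.single_add]
    congr 1
    linarith

theorem dil_eq {r : ℕ} (p : ℕ) (hp : p.Prime) (h : L2) (hr : rad r h) :
    ∃ u : L2, dil p h = h ^ p + (p : L2) * u ∧ rad (p * r) u := by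
  obtain ⟨u, hu⟩ := m04_dil_congr p hp h
  refine ⟨u, hu, ?_⟩
  intro c hc
  have h1 : (dil p h).coeff c = (h ^ p).coeff c + (p : ℤ) * u.coeff c := by
    conv_lhs => rw [hu]
    rw [AddMonoidAlgebra.coeff_add, Finsupp.add_apply, AddMonoidAlgebra.natCast_def,
      AddMonoidAlgebra.coeff_single_zero_mul]
  have h2 : (p : ℤ) * u.coeff c ≠ 0 :=
    mul_ne_zero (by exact_mod_cast hp.ne_zero) hc
  by_cases h3 : (dil p h).coeff c = 0
  · have h4 : (h ^ p).coeff c ≠ 0 := by
      intro h5
      rw [h3, h5, zero_add] at h1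
      exact h2 h1.symm
    exact rad_pow hr p c h4
  · exact rad_dil hr p c h3

end Pool.Agent.WPR
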