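import Pool.Agent.Lib.MP_2da099_lc.R2.M03
import Pool.Agent.Lib.MP_2da099_lc.R2.M04

/-!
# M05: quotients are small after multiplication by `(dil p h) ^ j`

HINTS.  Let `r` be a radius of `h` (`rad r h`), `dil p h = h ^ p + p u`, `F = h G`, `T = (dil p h) ^ j G`.
Binomial theorem: `T = p ^ j u ^ j G + W F` with
`W = Σ_{i < j} choose j i * h ^ (p (j - i) - 1) * (p u) ^ i` (for `p ≥ 1`; `h ^ (p (j-i)) G = h ^ (p(j-i) - 1) F`),
`rad (j p r) W`.  So at a place `c` at distance `> j p r` from `supp F`: `T c = p ^ j (u ^ j G) c` is divisible by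
`p ^ j`.  On the other hand `|T c| ≤ norm1 (dil p h) ^ j * max |G| ≤ (norm1 h) ^ j * C (n + 1) ^ C * n` by
`quot_bound`.  Choose `j` first: `j = 4 * (C + 2)`, then `n0` so large that `p ^ 2 > n + n0` implies
`(norm1 h) ^ j * C * (n + 1) ^ (C + 1) < p ^ j`: since `p ≥ (norm1 h) ^ 2` for large `n0`,
`(p / norm1 h) ^ j ≥ p ^ (j / 2) ≥ (n + n0) ^ (j / 4) = (n + n0) ^ (C + 2) > C * (n + 1) ^ (C + 1)`.
Hence `T c = 0` there.  The second statement is the bound for `|T c|` again, with a larger constant.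
-/

set_option autoImplicit false

namespace Pool.Agent.WPR

theorem M05_mul_ne (W F : L2) (c : ℤ × ℤ) (h : (W * F).coeff c ≠ 0) :
    ∃ a ∈ F.coeff.support, W.coeff (c - a) ≠ 0 := by
  by_contra hcon
  push Not at hcon
  apply h
  rw [AddMonoidAlgebra.coeff_mul_apply_right]
  unfold Finsupp.sum
  apply Finset.sum_eq_zero
  intro a ha
  show W.coeff (c + -a) * F.coeff a = 0
  rw [← sub_eq_add_neg, hcon a ha, zero_mul]

theorem M05_rad_mono {r r' : ℕ} {F : L2} (hr : r ≤ r') (h : rad r F) : rad r' F := by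
  intro c hc
  have h1 := h c hc
  have h2 : (r : ℤ) ≤ r' := by exact_mod_cast hr
  exact ⟨h1.1.trans h2, h1.2.trans h2⟩

theorem M05_rad_add {r : ℕ} {F G : L2} (hF : rad r F) (hG : rad r G) : rad r (F + G) := by
  intro c hc
  rw [AddMonoidAlgebra.coeff_add, Finsupp.add_apply] at hc
  by_cases h1 : F.coeff c = 0
  · apply hG c
    intro h2
    apply hc
    rw [h1, h2, add_zero]
  · exact hF c h1

theorem M05_nat_mul (m : ℕ) (F : L2) (c : ℤ × ℤ) :
    ((m : L2) * F).coeff c = (m : ℤ) * F.coeff c := by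
  rw [AddMonoidAlgebra.natCast_def, AddMonoidAlgebra.coeff_single_mul_apply]
  simp

theorem M05_rad_nat_mul {r : ℕ} {F : L2} (m : ℕ) (hF : rad r F) : rad r ((m : L2) * F) := by
  intro c hc
  rw [M05_nat_mul] at hc
  apply hF c
  intro h1
  apply hc
  rw [h1, mul_zero]

theorem M05_norm_pow (F : L2) (n : ℕ) : norm1 (F ^ n) ≤ norm1 F ^ n := by
  induction n with
  | zero =>
    rw [pow_zero, pow_zero]
    unfold norm1
    rw [AddMonoidAlgebra.one_def, AddMonoidAlgebra.coeff_single]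
    refine (Finset.sum_le_sum_of_subset (Finsupp.support_single_subset)).trans ?_
    simp
  | succ n ih =>
    rw [pow_succ, pow_succ]
    exact (norm1_mul _ _).trans (Nat.mul_le_mul_right _ ih)

theorem M05_binom (h v : L2) (r p : ℕ) (hp : 1 ≤ p) (hr : rad r h) (hv : rad (p * r) v) (j : ℕ) :
    ∃ W : L2, (h ^ p + v) ^ j = v ^ j + h * W ∧ rad (j * (p * r)) W := by
  induction j with
  | zero =>
    refine ⟨0, by simp, ?_⟩
    intro c hc
    simp at hc
  | succ j ih =>
    obtain ⟨W, hW, hWr⟩ := ih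
    refine ⟨W * (h ^ p + v) + v ^ j * h ^ (p - 1), ?_, ?_⟩
    · rw [pow_succ, hW]
      have h1 : h ^ p = h * h ^ (p - 1) := by
        rw [← pow_succ']
        congr 1
        omega
      rw [pow_succ]
      calc (v ^ j + h * W) * (h ^ p + v) = v ^ j * v + (h * (W * (h ^ p + v)) + v ^ j * h ^ p) := by
            ring
        _ = v ^ j * v + h * (W * (h ^ p + v) + v ^ j * h ^ (p - 1)) := by
            conv_lhs => rw [mul_comm (v ^ j) (h ^ p)]
            rw [mul_add]
            congr 2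
            rw [h1]
            have h2 : h * h ^ (p - 1) = h ^ p := h1.symm
            ring
    · apply M05_rad_add
      · have h2 : rad (p * r) (h ^ p + v) := M05_rad_add (rad_pow hr p) hv
        have h3 := rad_mul hWr h2
        exact M05_rad_mono (by nlinarith) h3
      · have h2 := rad_mul (rad_pow hv j) (rad_pow hr (p - 1))
        refine M05_rad_mono ?_ h2
        have h4 : (p - 1) * r ≤ p * r := Nat.mul_le_mul_right _ (by omega)
        nlinarith

theorem quot_small (h : L2) (hh : h ≠ 0) : ∃ j n0 C : ℕ, ∀ (n p : ℕ) (F G : L2), p.Prime →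
    n + n0 < p * p → norm1 F ≤ n → (∀ c ∈ F.coeff.support, |c.1| ≤ n ∧ |c.2| ≤ n) →
    F = h * G → ∀ c : ℤ × ℤ,
      (((dil p h) ^ j * G).coeff c ≠ 0 → ∃ a ∈ F.coeff.support, |c.1 - a.1| ≤ C * p ∧
        |c.2 - a.2| ≤ C * p) ∧
      (((dil p h) ^ j * G).coeff c).natAbs ≤ C * (n + 1) ^ C := by
  obtain ⟨r, hr0⟩ := M03_exp h
  have hr : rad r h := fun c hc => hr0 c (Finsupp.mem_support_iff.2 hc)
  obtain ⟨C1, hC1⟩ := quot_bound h hh
  set M := norm1 h + 1 with hM
  set j := 4 * (C1 + 2) with hj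
  refine ⟨j, M ^ 4 + C1, M ^ j * C1 + C1 + 1 + j * r, ?_⟩
  intro n p F G hp hnp hFn hFs hF
  set C := M ^ j * C1 + C1 + 1 + j * r with hC
  obtain ⟨u, hu, hur⟩ := dil_eq p hp h hr
  have hbound : ∀ c, (((dil p h) ^ j * G).coeff c).natAbs ≤ M ^ j * (C1 * (n + 1) ^ (C1 + 1)) := by
    intro c
    have h1 := coeff_mul_le ((dil p h) ^ j) G (C1 * (n + 1) ^ C1 * norm1 F)
      (fun c => hC1 n F G hF hFs c) c
    refine h1.trans ?_
    refine Nat.mul_le_mul ?_ ?_
    · refine (M05_norm_pow _ _).trans (Nat.pow_le_pow_left ?_ _)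
      exact (norm1_dil h p).trans (by omega)
    · rw [pow_succ, ← mul_assoc]
      exact Nat.mul_le_mul_left _ (by omega)
  have hlt : M ^ j * (C1 * (n + 1) ^ (C1 + 1)) < p ^ j := by
    set Y := n + (M ^ 4 + C1) + 1 with hY
    have h1 : p ^ j = (p * p) ^ (C1 + 2) * (p * p) ^ (C1 + 2) := by
      rw [← pow_add, ← pow_two, ← pow_mul]
      congr 1
      omega
    have h2 : Y ≤ p * p := hnp
    have h3 : M ^ j = (M ^ 4) ^ (C1 + 2) := by rw [← pow_mul]
    have h4 : M ^ j ≤ (p * p) ^ (C1 + 2) := by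
      rw [h3]
      exact Nat.pow_le_pow_left (by omega) _
    have h5 : C1 * (n + 1) ^ (C1 + 1) < (p * p) ^ (C1 + 2) := by
      have h6 : (n + 1) ^ (C1 + 1) ≤ (p * p) ^ (C1 + 1) := Nat.pow_le_pow_left (by omega) _
      have h7 : C1 < p * p := by omega
      have h8 : 0 < (p * p) ^ (C1 + 1) := Nat.pow_pos (Nat.mul_pos hp.pos hp.pos)
      calc C1 * (n + 1) ^ (C1 + 1) ≤ C1 * (p * p) ^ (C1 + 1) := Nat.mul_le_mul_left _ h6
        _ < (p * p) * (p * p) ^ (C1 + 1) := Nat.mul_lt_mul_of_pos_right h7 h8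
        _ = (p * p) ^ (C1 + 2) := by rw [← pow_succ']
    rw [h1]
    have h9 : 0 < (p * p) ^ (C1 + 2) := Nat.pow_pos (Nat.mul_pos hp.pos hp.pos)
    calc M ^ j * (C1 * (n + 1) ^ (C1 + 1)) ≤ (p * p) ^ (C1 + 2) * (C1 * (n + 1) ^ (C1 + 1)) :=
          Nat.mul_le_mul_right _ h4
      _ < (p * p) ^ (C1 + 2) * (p * p) ^ (C1 + 2) := Nat.mul_lt_mul_of_pos_left h5 h9
  intro c
  constructor
  · intro hne
    obtain ⟨W, hW, hWr⟩ := M05_binom h ((p : L2) * u) r p hp.one_lt.le hr
      (M05_rad_nat_mul p hur) j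
    have hT : (dil p h) ^ j * G = ((p ^ j : ℕ) : L2) * (u ^ j * G) + W * F := by
      rw [hu, hW, hF, mul_pow]
      push_cast
      ring
    by_cases hWF : (W * F).coeff c = 0
    · exfalso
      apply hne
      have h1 : ((dil p h) ^ j * G).coeff c = ((p ^ j : ℕ) : ℤ) * (u ^ j * G).coeff c := by
        rw [hT, AddMonoidAlgebra.coeff_add, Finsupp.add_apply, hWF, add_zero, M05_nat_mul]
      have h2 : (((dil p h) ^ j * G).coeff c).natAbs < p ^ j := (hbound c).trans_lt hlt
      rw [h1] at h2 ⊢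
      rw [Int.natAbs_mul, Int.natAbs_natCast] at h2
      by_contra h3
      have h4 : 1 ≤ ((u ^ j * G).coeff c).natAbs := by
        rw [Nat.one_le_iff_ne_zero]
        intro h5
        apply h3
        rw [Int.natAbs_eq_zero.1 h5, mul_zero]
      have h6 : p ^ j * 1 ≤ p ^ j * ((u ^ j * G).coeff c).natAbs := Nat.mul_le_mul_left _ h4
      omega
    · obtain ⟨a, ha, ha2⟩ := M05_mul_ne W F c hWF
      have h1 := hWr _ ha2
      have h2 : ((j * (p * r) : ℕ) : ℤ) ≤ (C : ℤ) * p := by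
        have h3 : j * (p * r) ≤ C * p := by
          rw [hC]
          calc j * (p * r) = (j * r) * p := by ring
            _ ≤ (M ^ j * C1 + C1 + 1 + j * r) * p := Nat.mul_le_mul_right _ (by omega)
        exact_mod_cast h3
      refine ⟨a, ha, ?_, ?_⟩
      · exact h1.1.trans h2
      · exact h1.2.trans h2
  · refine (hbound c).trans ?_
    calc M ^ j * (C1 * (n + 1) ^ (C1 + 1)) = (M ^ j * C1) * (n + 1) ^ (C1 + 1) := by ring
      _ ≤ C * (n + 1) ^ C := by
          refine Nat.mul_le_mul (by omega) (Nat.pow_le_pow_right (by omega) (by omega))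

end Pool.Agent.WPR
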