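import Pool.Agent.Lib.MP_2da099_lc.R2.N01
import Mathlib.Data.List.DropRight

/-!
# N02: `β`-adic digits

The sequence of digits of an integer `x` in the ring of `β`-adic integers: for `x = n ≥ 0` the digits of `n`
followed by zeros, for `x = -(n + 1)` the numbers `β - 1 - d` for the digits `d` of `n`, followed by
`β - 1`.  `sdig β k x` is the list of the first (number of digits of `n`) `+ k` of them.  The converse
`ofSdig β b l`: the integer with the digits `l` (lowest first) and then always `0` (`b = false`) or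
`β - 1` (`b = true`): the value is `ofDigits l - (if b then β ^ length else 0)`.

HINTS.  `sdig_val`: `Nat.ofDigits_digits`, the sum of `(β - 1 - d_i) β ^ i` over `i < L` is
`β ^ L - 1 - n`.  `zdig_ofSdig`: if `b = false`, the digits of `ofDigits l` are `l` without the zeros at the
end (`Nat.digits_ofDigits` after removing them with `List.rdropWhile`); if `b = true`, the value is
`-(m + 1)` with `m` the number with the digits `β - 1 - l_i`.
`sadd_val` (addition with carry): the digit-wise transducer with the carry `c`: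
`t = d + w * e + c`, digit `t % β` (in `0 .. β - 1`), new carry `t / β` (floor); invariant: the value of the
digits so far plus `β ^ i * carry` is the value of the partial sums.  The carry stays in
`[-(|w| + 1), |w| + 1]`.
-/

set_option autoImplicit false

namespace Pool.Agent.WPR

open Pool.Agent.Lib.PolyTime Pool.Agent.WPM Function

variable (β : ℕ) [hβ : Fact (2 ≤ β)]

/-- the digit `β - 1 - d` -/
def flipD (d : Fin β) : Fin β := ⟨β - 1 - d, by have := hβ.out; omega⟩

/-- the digits `0` (for `false`) and `β - 1` (for `true`) -/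
def signD (b : Bool) : Fin β :=
  if b then ⟨β - 1, by have := hβ.out; omega⟩ else ⟨0, by have := hβ.out; omega⟩

/-- the signed digits with `k` more digits -/
def sdig (k : ℕ) (x : ℤ) : List (Fin β) :=
  (if (zdig β x).1 then (zdig β x).2.map (flipD β) else (zdig β x).2) ++
    List.replicate k (signD β (zdig β x).1)

/-- the value of a list of digits -/
def dval (l : List (Fin β)) : ℤ := l.foldr (fun d v => (d : ℤ) + (β : ℤ) * v) 0

/-- the integer with given signed digits -/
def ofSdig (b : Bool) (l : List (Fin β)) : ℤ := dval β l - (if b then (β : ℤ) ^ l.length else 0)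

theorem n02_dval_nil : dval β [] = 0 := rfl

theorem n02_dval_cons (d : Fin β) (l : List (Fin β)) :
    dval β (d :: l) = (d : ℤ) + (β : ℤ) * dval β l := rfl

theorem n02_dval_append (l l' : List (Fin β)) :
    dval β (l ++ l') = dval β l + (β : ℤ) ^ l.length * dval β l' := by
  induction l with
  | nil => simp [n02_dval_nil]
  | cons d l ih =>
    rw [List.cons_append, n02_dval_cons, n02_dval_cons, ih, List.length_cons, pow_succ]
    ring

theorem n02_flip_val (d : Fin β) : ((flipD β d : Fin β) : ℤ) = (β : ℤ) - 1 - (d : ℤ) := by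
  have h1 : ((flipD β d : Fin β) : ℕ) = β - 1 - d := rfl
  have h2 := d.isLt
  rw [h1]
  push_cast [Nat.cast_sub (show (d : ℕ) ≤ β - 1 by omega), Nat.cast_sub (show 1 ≤ β by omega)]
  ring

theorem n02_dval_flip (l : List (Fin β)) :
    dval β (l.map (flipD β)) = (β : ℤ) ^ l.length - 1 - dval β l := by
  induction l with
  | nil => simp [n02_dval_nil]
  | cons d l ih =>
    rw [List.map_cons, n02_dval_cons, n02_dval_cons, ih, List.length_cons, pow_succ, n02_flip_val]
    ring

theorem n02_dval_repl0 (k : ℕ) : dval β (List.replicate k (signD β false)) = 0 := by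
  induction k with
  | zero => rfl
  | succ k ih =>
    rw [List.replicate_succ, n02_dval_cons, ih]
    have : ((signD β false : Fin β) : ℕ) = 0 := rfl
    simp [this]

theorem n02_dval_repl1 (k : ℕ) : dval β (List.replicate k (signD β true)) = (β : ℤ) ^ k - 1 := by
  induction k with
  | zero => simp [n02_dval_nil]
  | succ k ih =>
    rw [List.replicate_succ, n02_dval_cons, ih]
    have h1 : ((signD β true : Fin β) : ℕ) = β - 1 := rfl
    have h2 := hβ.out
    rw [h1, pow_succ]
    push_cast [Nat.cast_sub (show 1 ≤ β by omega)]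
    ring

theorem n02_dval_ofDigits (l : List (Fin β)) :
    dval β l = ((Nat.ofDigits β (l.map Fin.val) : ℕ) : ℤ) := by
  induction l with
  | nil => simp [n02_dval_nil]
  | cons d l ih =>
    rw [n02_dval_cons, List.map_cons, Nat.ofDigits_cons, ih]
    push_cast
    ring

/-- the digits of a natural number -/
def n02_dig (n : ℕ) : List (Fin β) := (Nat.digits β n).map
  (fun d => ⟨d % β, Nat.mod_lt _ (lt_of_lt_of_le Nat.two_pos hβ.out)⟩)

theorem n02_dig_map (n : ℕ) : (n02_dig β n).map Fin.val = Nat.digits β n := by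
  rw [n02_dig, List.map_map]
  conv_rhs => rw [← List.map_id (Nat.digits β n)]
  refine List.map_congr_left (fun d hd => ?_)
  simp only [Function.comp, id]
  exact Nat.mod_eq_of_lt (Nat.digits_lt_base (lt_of_lt_of_le Nat.one_lt_two hβ.out) hd)

theorem n02_dval_dig (n : ℕ) : dval β (n02_dig β n) = n := by
  rw [n02_dval_ofDigits, n02_dig_map, Nat.ofDigits_digits]

theorem n02_zdig_ofNat (n : ℕ) : zdig β (Int.ofNat n) = (false, n02_dig β n) := rfl

theorem n02_zdig_negSucc (n : ℕ) : zdig β (Int.negSucc n) = (true, n02_dig β n) := rfl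

theorem n02_length_sdig (k : ℕ) (x : ℤ) :
    (sdig β k x).length = (zdig β x).2.length + k := by
  rw [sdig, List.length_append, List.length_replicate]
  split_ifs <;> simp

theorem sdig_val (k : ℕ) (x : ℤ) : ofSdig β (zdig β x).1 (sdig β k x) = x := by
  cases x with
  | ofNat n =>
    have h1 : sdig β k (Int.ofNat n) = n02_dig β n ++ List.replicate k (signD β false) := rfl
    rw [n02_zdig_ofNat, h1, ofSdig, n02_dval_append, n02_dval_repl0, n02_dval_dig]
    simp
  | negSucc n =>
    have h1 : sdig β k (Int.negSucc n) =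
      (n02_dig β n).map (flipD β) ++ List.replicate k (signD β true) := rfl
    rw [n02_zdig_negSucc, h1, ofSdig, n02_dval_append, n02_dval_repl1, n02_dval_flip,
      n02_dval_dig, List.length_append, List.length_map, List.length_replicate, if_pos rfl,
      pow_add, Int.negSucc_eq]
    ring

theorem n02_dig_ofDigits (l : List (Fin β)) :
    n02_dig β (Nat.ofDigits β (l.map Fin.val)) =
      l.rdropWhile (fun d : Fin β => decide (d.val = 0)) := by
  induction l using List.reverseRecOn with
  | nil => simp [n02_dig]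
  | append_singleton l x ih =>
    rw [List.rdropWhile_concat]
    by_cases hx : x.val = 0
    · rw [if_pos (by simpa using hx), ← ih, List.map_append, Nat.ofDigits_append]
      simp [hx]
    · rw [if_neg (by simpa using hx)]
      have h1 : Nat.digits β (Nat.ofDigits β ((l ++ [x]).map Fin.val)) = (l ++ [x]).map Fin.val := by
        apply Nat.digits_ofDigits
        · exact lt_of_lt_of_le Nat.one_lt_two hβ.out
        · intro d hd
          obtain ⟨e, _, rfl⟩ := List.mem_map.1 hd
          exact e.isLt
        · intro h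
          simpa using hx
      have h2 := n02_dig_map β (Nat.ofDigits β ((l ++ [x]).map Fin.val))
      rw [h1] at h2
      exact (List.map_injective_iff.2 Fin.val_injective) h2

theorem n02_length_dig (n : ℕ) : (n02_dig β n).length = (Nat.digits β n).length := by
  rw [n02_dig, List.length_map]

/-- `zdig` from signed digits: flip if `b`, then remove the zeros at the end. -/
theorem zdig_ofSdig (b : Bool) (l : List (Fin β)) : zdig β (ofSdig β b l) =
    (b, (if b then l.map (flipD β) else l).rdropWhile (fun d : Fin β => decide (d.val = 0))) := by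
  cases b with
  | false =>
    have h1 : ofSdig β false l = Int.ofNat (Nat.ofDigits β (l.map Fin.val)) := by
      rw [ofSdig, n02_dval_ofDigits]
      simp
    rw [h1, n02_zdig_ofNat, n02_dig_ofDigits]
    rfl
  | true =>
    have h1 : ofSdig β true l =
        Int.negSucc (Nat.ofDigits β ((l.map (flipD β)).map Fin.val)) := by
      rw [ofSdig, Int.negSucc_eq, ← n02_dval_ofDigits, n02_dval_flip, if_pos rfl]
      ring
    rw [h1, n02_zdig_negSucc, n02_dig_ofDigits]
    rfl

/-- Digit-wise combination `x + w y` with carry. -/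
def saddT (w : ℤ) : ℤ → List (Fin β × Fin β) → List (Fin β) × ℤ
  | c, [] => ([], c)
  | c, x :: l => (⟨(((x.1 : ℤ) + w * (x.2 : ℤ) + c) % (β : ℤ)).toNat, by
      have h := hβ.out
      have h1 := Int.emod_lt_of_pos ((x.1 : ℤ) + w * (x.2 : ℤ) + c) (b := (β : ℤ)) (by omega)
      have h2 := Int.emod_nonneg ((x.1 : ℤ) + w * (x.2 : ℤ) + c) (b := (β : ℤ)) (by omega)
      omega⟩ :: (saddT w (((x.1 : ℤ) + w * (x.2 : ℤ) + c) / (β : ℤ)) l).1,
      (saddT w (((x.1 : ℤ) + w * (x.2 : ℤ) + c) / (β : ℤ)) l).2)

theorem saddT_val (w : ℤ) (l : List (Fin β × Fin β)) (c : ℤ) :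
    dval β (saddT β w c l).1 + (β : ℤ) ^ l.length * (saddT β w c l).2 =
      c + dval β (l.map Prod.fst) + w * dval β (l.map Prod.snd) := by
  induction l generalizing c with
  | nil => simp [saddT, n02_dval_nil]
  | cons x l ih =>
    have h1 := ih (((x.1 : ℤ) + w * (x.2 : ℤ) + c) / (β : ℤ))
    have h2 := Int.emod_add_mul_ediv ((x.1 : ℤ) + w * (x.2 : ℤ) + c) (β : ℤ)
    have h3 : (((((x.1 : ℤ) + w * (x.2 : ℤ) + c) % (β : ℤ)).toNat : ℕ) : ℤ) =
        ((x.1 : ℤ) + w * (x.2 : ℤ) + c) % (β : ℤ) := by
      apply Int.toNat_of_nonneg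
      apply Int.emod_nonneg
      have := hβ.out
      omega
    simp only [saddT, n02_dval_cons, List.map_cons, List.length_cons]
    rw [h3, pow_succ]
    linear_combination (β : ℤ) * h1 + h2

theorem saddT_carry (w : ℤ) (l : List (Fin β × Fin β)) (c : ℤ) (hc : |c| ≤ |w| + 1) :
    |(saddT β w c l).2| ≤ |w| + 1 := by
  induction l generalizing c with
  | nil => exact hc
  | cons x l ih =>
    apply ih
    have hb : (2 : ℤ) ≤ β := by exact_mod_cast hβ.out
    have h1 : (x.1 : ℤ) ≤ β - 1 := by have := x.1.isLt; omega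
    have h2 : (x.2 : ℤ) ≤ β - 1 := by have := x.2.isLt; omega
    have h3 : (0 : ℤ) ≤ x.1 := by positivity
    have h4 : (0 : ℤ) ≤ x.2 := by positivity
    have h5 : w * (x.2 : ℤ) ≤ |w| * (β - 1) :=
      (mul_le_mul_of_nonneg_right (le_abs_self w) h4).trans
        (mul_le_mul_of_nonneg_left h2 (abs_nonneg w))
    have h6 : -(|w| * (β - 1)) ≤ w * (x.2 : ℤ) := by
      have a1 : -|w| * (x.2 : ℤ) ≤ w * (x.2 : ℤ) :=
        mul_le_mul_of_nonneg_right (neg_abs_le w) h4
      have a2 : |w| * (x.2 : ℤ) ≤ |w| * (β - 1) := mul_le_mul_of_nonneg_left h2 (abs_nonneg w)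
      linarith
    obtain ⟨h7, h8⟩ := abs_le.1 hc
    rw [abs_le]
    constructor
    · rw [Int.le_ediv_iff_mul_le (by omega)]
      nlinarith [abs_nonneg w]
    · have : ((x.1 : ℤ) + w * (x.2 : ℤ) + c) / (β : ℤ) < |w| + 1 + 1 := by
        rw [Int.ediv_lt_iff_lt_mul (by omega)]
        nlinarith [abs_nonneg w]
      omega

theorem n02_length_saddT (w : ℤ) (l : List (Fin β × Fin β)) (c : ℤ) :
    (saddT β w c l).1.length = l.length := by
  induction l generalizing c with
  | nil => rfl
  | cons x l ih => simp only [saddT, List.length_cons, ih]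

theorem n02_dval_nonneg (l : List (Fin β)) : 0 ≤ dval β l := by
  rw [n02_dval_ofDigits]
  positivity

theorem n02_dval_lt (l : List (Fin β)) : dval β l < (β : ℤ) ^ l.length := by
  have h := n02_dval_flip β l
  have h2 := n02_dval_nonneg β (l.map (flipD β))
  omega

theorem n02_abs (x : ℤ) : |x| ≤ (β : ℤ) ^ (zdig β x).2.length := by
  have hb : 1 < β := lt_of_lt_of_le Nat.one_lt_two hβ.out
  cases x with
  | ofNat n =>
    rw [n02_zdig_ofNat, n02_length_dig]
    have h1 := (Nat.lt_base_pow_length_digits (m := n) hb).le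
    have h2 : |Int.ofNat n| = ((n : ℕ) : ℤ) := abs_of_nonneg (Int.natCast_nonneg n)
    rw [h2]
    exact_mod_cast h1
  | negSucc n =>
    rw [n02_zdig_negSucc, n02_length_dig]
    have h1 := (Nat.lt_base_pow_length_digits (m := n) hb)
    have h2 : |Int.negSucc n| = ((n + 1 : ℕ) : ℤ) := by
      rw [Int.negSucc_eq, abs_neg]
      exact abs_of_nonneg (by positivity)
    rw [h2]
    exact_mod_cast h1

theorem n02_abs_sdig {k i : ℕ} (hki : k ≤ i) (x : ℤ) (l : List (Fin β)) (hl : l = sdig β i x) :
    |x| * (β : ℤ) ^ k ≤ (β : ℤ) ^ l.length := by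
  have hb : (1 : ℤ) ≤ β := by have := hβ.out; omega
  rw [hl, n02_length_sdig, pow_add]
  exact mul_le_mul (n02_abs β x) (pow_le_pow_right₀ hb hki) (by positivity) (by positivity)

/-- With enough extra digits the last carry decides the sign: if `x, y` have at most `L` digits, then for
`k` large (depending on `w` only) the sum `x + w y` is `ofSdig b` of the digits computed, where `b` is true
iff `s - t * w + carry` is negative, `s, t` the sign bits of `x` and `y`. -/
theorem sadd_spec (w : ℤ) : ∃ k0 : ℕ, ∀ k, k0 ≤ k → ∀ (x y : ℤ) (lx ly : List (Fin β)),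
    lx.length = ly.length → (∃ i, k ≤ i ∧ lx = sdig β i x) → (∃ i, k ≤ i ∧ ly = sdig β i y) →
    let c := (saddT β w 0 (lx.zip ly)).2 - (if (zdig β x).1 then 1 else 0) -
      w * (if (zdig β y).1 then 1 else 0)
    (c = 0 ∨ c = -1) ∧ x + w * y = ofSdig β (decide (c = -1)) (saddT β w 0 (lx.zip ly)).1 := by
  refine ⟨w.natAbs + 1, fun k hk x y lx ly hlen hx hy => ?_⟩
  obtain ⟨i, hi, hlx⟩ := hx
  obtain ⟨j, hj, hly⟩ := hy
  intro c
  have hb : (2 : ℤ) ≤ β := by exact_mod_cast hβ.out
  have x1 := sdig_val β i x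
  have y1 := sdig_val β j y
  rw [← hlx, ofSdig] at x1
  rw [← hly, ofSdig, ← hlen] at y1
  have hz : (lx.zip ly).length = lx.length := by
    rw [List.length_zip, ← hlen, Nat.min_self]
  have h1 := saddT_val β w (lx.zip ly) 0
  rw [List.map_fst_zip hlen.le, List.map_snd_zip hlen.ge, hz] at h1
  have h2 : x + w * y = dval β (saddT β w 0 (lx.zip ly)).1 + (β : ℤ) ^ lx.length * c := by
    have e1 : (if (zdig β x).1 = true then (β : ℤ) ^ lx.length else 0) =
        (β : ℤ) ^ lx.length * (if (zdig β x).1 = true then 1 else 0) := by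
      split_ifs <;> simp
    have e2 : (if (zdig β y).1 = true then (β : ℤ) ^ lx.length else 0) =
        (β : ℤ) ^ lx.length * (if (zdig β y).1 = true then 1 else 0) := by
      split_ifs <;> simp
    rw [e1] at x1
    rw [e2] at y1
    show x + w * y = dval β (saddT β w 0 (lx.zip ly)).1 + (β : ℤ) ^ lx.length *
      ((saddT β w 0 (lx.zip ly)).2 - (if (zdig β x).1 = true then 1 else 0) -
      w * (if (zdig β y).1 = true then 1 else 0))
    linear_combination -h1 - x1 - w * y1
  have h3 := n02_dval_nonneg β (saddT β w 0 (lx.zip ly)).1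
  have h4 := n02_dval_lt β (saddT β w 0 (lx.zip ly)).1
  rw [n02_length_saddT, hz] at h4
  have hP : (0 : ℤ) < (β : ℤ) ^ lx.length := by positivity
  have hK : |w| + 1 < (β : ℤ) ^ k := by
    have a1 : k < 2 ^ k := Nat.lt_two_pow_self
    have a2 : (2 : ℤ) ^ k ≤ (β : ℤ) ^ k := pow_le_pow_left₀ (by norm_num) hb k
    have a3 : ((k : ℕ) : ℤ) < (2 : ℤ) ^ k := by exact_mod_cast a1
    have a4 : |w| = (w.natAbs : ℤ) := by simp
    have a5 : ((w.natAbs + 1 : ℕ) : ℤ) ≤ (k : ℤ) := by exact_mod_cast hk
    push_cast at a5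
    rw [a4]
    push_cast
    linarith
  have h5 := n02_abs_sdig β hi x lx hlx
  have h6 := n02_abs_sdig β hj y ly hly
  rw [← hlen] at h6
  have h7 : |x + w * y| < (β : ℤ) ^ lx.length := by
    have a1 : |x + w * y| ≤ |x| + |w| * |y| := by
      rw [← abs_mul]
      exact abs_add_le _ _
    have hKp : (0 : ℤ) < (β : ℤ) ^ k := by positivity
    have a2 : (|x| + |w| * |y|) * (β : ℤ) ^ k ≤ (1 + |w|) * (β : ℤ) ^ lx.length := by
      have := mul_le_mul_of_nonneg_left h6 (abs_nonneg w)
      nlinarith
    have a3 : (1 + |w|) * (β : ℤ) ^ lx.length < (β : ℤ) ^ k * (β : ℤ) ^ lx.length :=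
      mul_lt_mul_of_pos_right (by linarith) hP
    have a4 : (|x| + |w| * |y|) * (β : ℤ) ^ k < (β : ℤ) ^ lx.length * (β : ℤ) ^ k := by
      linarith [mul_comm ((β : ℤ) ^ k) ((β : ℤ) ^ lx.length)]
    exact lt_of_le_of_lt a1 (lt_of_mul_lt_mul_right a4 hKp.le)
  obtain ⟨h8, h9⟩ := abs_lt.1 h7
  have h10 : c < 1 := by
    by_contra hcon
    have : 1 ≤ c := by omega
    nlinarith
  have h11 : -2 < c := by
    by_contra hcon
    have : c ≤ -2 := by omega
    nlinarith
  have h12 : c = 0 ∨ c = -1 := by omega
  refine ⟨h12, ?_⟩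
  rw [ofSdig, n02_length_saddT, hz]
  rcases h12 with h | h
  · rw [h2, h]
    simp
  · rw [h2, h]
    simp
    ring

end Pool.Agent.WPR
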