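import Mathlib.Analysis.Complex.Polynomial.Basic
import Mathlib.RingTheory.Localization.AtPrime.Basic
import Mathlib.RingTheory.Polynomial.UniqueFactorization
import Mathlib.Algebra.Polynomial.Expand
import Mathlib.RingTheory.Ideal.Quotient.Basic
import Mathlib.Analysis.Complex.AbsMax
import Mathlib.Analysis.Calculus.Deriv.Pow
import Mathlib.Topology.Algebra.Polynomial

/-!
# NB01: no divisibility after a dilation, local argument

`ℂ[Y][X]`: `Polynomial (Polynomial ℂ)`, the outer variable is `X`, `f.coeff 0 = f(0, Y)`.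

HINTS.  (1) `f ≠ 0` is a product of irreducibles (UFD); since `f(0, α) = 0`, some irreducible factor `f1` has
`f1(0, α) = 0`.  `f1` does not divide `X` (otherwise `X ∣ f`, `f.coeff 0 = 0`), and `f1 ∤ C (X - C α)`
(i.e. `Y - α`): otherwise they are associated and `Y - α` divides `f`.
(2) `f1(X, α) ≠ 0`: otherwise `C (X - C α) ∣ f1`.  `f1(X, α)` is a nonzero polynomial in `X` which vanishes at `0`:
`f1(X, α) = X ^ c * w(X)`, `c ≥ 1`, `w(0) ≠ 0`.
(3) `A = ℂ[Y][X] ⧸ (f1)`, a domain, `x, u` the classes of `X` and `Y - α`; `𝔪 = (x, u)` (the classes of the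
polynomials with `g(0, α) = 0`) is a prime (maximal) ideal; `O = Localization.AtPrime 𝔪`, a local domain, `A → O`
injective; an element `g` of `A` with `g(0, α) ≠ 0` is a unit of `O`.  `x ≠ 0`.
`f1(X, Y) = f1(X, α) + (Y - α) (...)`, so in `O`: `x ^ c * (unit) ∈ u O`, `x ^ c = u z`.
(4) Suppose `f ∣ dilC N f`.  Then `f(x ^ N, y ^ N) = 0` in `O`.  `f(X^N, Y^N) = f0(Y^N) + X ^ N (...)`, so
`f0(y ^ N) ∈ x ^ N O`, where `f0 = f.coeff 0 ∈ ℂ[Y]`, `f0 ≠ 0`.  The polynomial `f0(Y ^ N)` has at `Y = α` a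
zero of multiplicity `m ≤ μ = deg f0`: (`Y ^ N - γ` has only simple zeros for `γ ≠ 0`, and if `γ = 0` it does not
vanish at `α ≠ 0`; `f0 = const * Π (Y - γ_i)`).  So `f0(y ^ N) = (unit) * u ^ m` and `u ^ μ ∈ x ^ N O`.
(5) `x ^ (c μ) = u ^ μ z ^ μ ∈ x ^ N O`.  If `N > c μ`: `x ^ (c μ) (1 - x ^ (N - c μ) z') = 0`, the second factor is
a unit (`x ∈ 𝔪`), so `x ^ (c μ) = 0`, `x = 0`, a contradiction.  `N0 = c * μ + 1`.
An alternative without localisations: all statements may be multiplied by polynomials not vanishing at `(0, α)`.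
-/

set_option autoImplicit false

namespace Pool.Agent.WPR

open Polynomial

/-- the substitution `X ↦ X ^ N`, `Y ↦ Y ^ N` -/
noncomputable def dilC (R : Type) [CommRing R] (N : ℕ) :
    Polynomial (Polynomial R) →+* Polynomial (Polynomial R) :=
  (Polynomial.expand (Polynomial R) N).toRingHom.comp
    (Polynomial.mapRingHom (Polynomial.expand R N).toRingHom)

open Filter Topology Asymptotics

/-- the value at a point -/
noncomputable def nb01_ev (x y : ℂ) : Polynomial (Polynomial ℂ) →+* ℂ :=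
  eval₂RingHom (evalRingHom y) x

theorem nb01_ev_C (x y : ℂ) (p : ℂ[X]) : nb01_ev x y (C p) = p.eval y := by
  simp [nb01_ev]

theorem nb01_ev_X (x y : ℂ) : nb01_ev x y X = x := by
  simp [nb01_ev]

theorem nb01_ev_dil (N : ℕ) (x y : ℂ) (f : Polynomial (Polynomial ℂ)) :
    nb01_ev x y (dilC ℂ N f) = nb01_ev (x ^ N) (y ^ N) f := by
  have h : (nb01_ev x y).comp (dilC ℂ N) = nb01_ev (x ^ N) (y ^ N) := by
    refine Polynomial.ringHom_ext' ?_ ?_
    · refine Polynomial.ringHom_ext' ?_ ?_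
      · ext a
        simp [nb01_ev, dilC]
      · simp only [nb01_ev, dilC, RingHom.comp_apply, coe_mapRingHom, map_C, AlgHom.toRingHom_eq_coe,
          RingHom.coe_coe, expand_X, expand_C, coe_eval₂RingHom, eval₂_C, coe_evalRingHom, eval_pow,
          eval_X]
    · simp [nb01_ev, dilC]
  rw [← h]
  rfl

theorem nb01_cont (q : Polynomial (Polynomial ℂ)) :
    Continuous (fun z : ℂ × ℂ => nb01_ev z.1 z.2 q) := by
  have h : (fun z : ℂ × ℂ => nb01_ev z.1 z.2 q) = fun z : ℂ × ℂ =>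
      ∑ i ∈ Finset.range (q.natDegree + 1), (q.coeff i).eval z.2 * z.1 ^ i := by
    funext z
    show eval₂ (evalRingHom z.2) z.1 q = _
    rw [eval₂_eq_sum_range]
    rfl
  rw [h]
  refine continuous_finsetSum _ fun i _ => ?_
  exact ((q.coeff i).continuous.comp continuous_snd).mul (continuous_fst.pow i)

theorem nb01_factor {φ : ℂ → ℂ} {φ' t : ℂ} (h : HasDerivAt φ φ' t) (hφ : φ' ≠ 0) (a : ℂ) :
    (fun y => y - t) =O[𝓝 t] (fun y => φ y - a) := by
  by_cases ha : φ t = a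
  · rw [← ha]
    have h9 := (HasDerivAtFilter.isTheta_sub h hφ).2
    have h10 : Tendsto (fun y : ℂ => (y, t)) (𝓝 t) (𝓝 t ×ˢ pure t) :=
      tendsto_id.prodMk tendsto_const_pure
    exact h9.comp_tendsto h10
  · have h1 : Tendsto (fun y => φ y - a) (𝓝 t) (𝓝 (φ t - a)) :=
      (h.continuousAt.tendsto).sub tendsto_const_nhds
    have h2 : φ t - a ≠ 0 := sub_ne_zero.2 ha
    have h3 : (fun _ : ℂ => (1 : ℂ)) =O[𝓝 t] (fun y => φ y - a) := by
      have h4 : Tendsto (fun y => (φ y - a)⁻¹) (𝓝 t) (𝓝 (φ t - a)⁻¹) := h1.inv₀ h2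
      have h5 := h4.isBigO_one ℂ
      have h6 : ∀ᶠ y in 𝓝 t, φ y - a ≠ 0 := h1.eventually_ne h2
      have h7 := h5.mul (isBigO_refl (fun y => φ y - a) (𝓝 t))
      refine (h7.congr' ?_ ?_)
      · filter_upwards [h6] with y hy
        exact inv_mul_cancel₀ hy
      · filter_upwards with y
        rw [one_mul]
    have h8 : (fun y : ℂ => y - t) =O[𝓝 t] (fun _ : ℂ => (1 : ℂ)) := by
      have : Tendsto (fun y : ℂ => y - t) (𝓝 t) (𝓝 (t - t)) :=
        tendsto_id.sub tendsto_const_nhds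
      exact this.isBigO_one ℂ
    exact h8.trans h3

theorem nb01_prod {φ : ℂ → ℂ} {φ' t : ℂ} (h : HasDerivAt φ φ' t) (hφ : φ' ≠ 0) (s : Multiset ℂ) :
    (fun y => (y - t) ^ (Multiset.card s)) =O[𝓝 t]
      (fun y => (s.map (fun a => φ y - a)).prod) := by
  induction s using Multiset.induction_on with
  | empty => simpa using isBigO_refl (fun _ : ℂ => (1 : ℂ)) (𝓝 t)
  | cons a s ih =>
    simp only [Multiset.card_cons, Multiset.map_cons, Multiset.prod_cons, pow_succ']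
    exact (nb01_factor h hφ a).mul ih

theorem nb01_lower {φ : ℂ → ℂ} {φ' t : ℂ} (h : HasDerivAt φ φ' t) (hφ : φ' ≠ 0) (p : ℂ[X])
    (hp : p ≠ 0) : (fun y => (y - t) ^ p.natDegree) =O[𝓝 t] (fun y => p.eval (φ y)) := by
  have hs : Splits p := IsAlgClosed.splits p
  have h1 := nb01_prod h hφ p.roots
  rw [← hs.natDegree_eq_card_roots] at h1
  have h2 : (fun y => p.eval (φ y)) =
      fun y => p.leadingCoeff * (p.roots.map (fun a => φ y - a)).prod := by
    funext y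
    rw [hs.eval_eq_prod_roots]
  rw [h2]
  exact h1.trans ((isBigO_refl _ _).const_mul_right' (leadingCoeff_ne_zero.2 hp).isUnit)

/-- a bound near a point -/
theorem nb01_bound (q : Polynomial (Polynomial ℂ)) (R : ℝ) :
    ∃ B : ℝ, 0 ≤ B ∧ ∀ x y : ℂ, ‖x‖ ≤ R → ‖y‖ ≤ R → ‖nb01_ev x y q‖ ≤ B := by
  have hK : IsCompact (Metric.closedBall (0 : ℂ) R ×ˢ Metric.closedBall (0 : ℂ) R) :=
    (isCompact_closedBall _ _).prod (isCompact_closedBall _ _)
  obtain ⟨B, hB⟩ := hK.exists_bound_of_continuousOn (nb01_cont q).continuousOn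
  refine ⟨max B 0, le_max_right _ _, fun x y hx hy => ?_⟩
  refine (hB (x, y) ⟨?_, ?_⟩).trans (le_max_left _ _)
  · simpa using hx
  · simpa using hy

/-- points on the curve -/
theorem nb01_points (f : Polynomial (Polynomial ℂ)) (α : ℂ) (h0 : f.coeff 0 ≠ 0)
    (hroot : (f.coeff 0).eval α = 0) (ε : ℝ) (hε : 0 < ε) :
    ∃ x y : ℂ, x ≠ 0 ∧ ‖x‖ < ε ∧ ‖y - α‖ < ε ∧ nb01_ev x y f = 0 := by
  -- a small circle without zeros
  have hfin : ∀ᶠ y in 𝓝[≠] α, (f.coeff 0).eval y ≠ 0 := by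
    have h1 : {y | (f.coeff 0).IsRoot y}.Finite := by
      have := (f.coeff 0).roots.toFinset.finite_toSet
      refine this.subset fun y hy => ?_
      simpa using (mem_roots h0).2 hy
    have h2 : ({y | (f.coeff 0).IsRoot y} \ {α})ᶜ ∈ 𝓝 α :=
      (h1.subset Set.sdiff_subset).isClosed.isOpen_compl.mem_nhds (by simp)
    rw [eventually_nhdsWithin_iff]
    filter_upwards [h2] with y hy hne hz
    exact hy ⟨hz, hne⟩
  obtain ⟨δ0, hδ0, hδ⟩ := Metric.mem_nhdsWithin_iff.1 hfin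
  set δ := min (ε / 2) (δ0 / 2) with hδdef
  have hδpos : 0 < δ := lt_min (by linarith) (by linarith)
  have hδε : δ < ε := lt_of_le_of_lt (min_le_left _ _) (by linarith)
  have hδ2 : δ < δ0 := lt_of_le_of_lt (min_le_right _ _) (by linarith)
  have hsph : ∀ y ∈ Metric.sphere α δ, (f.coeff 0).eval y ≠ 0 := by
    intro y hy
    refine hδ ⟨?_, ?_⟩
    · rw [Metric.mem_ball, Metric.mem_sphere.1 hy]; exact hδ2
    · intro h
      rw [Set.mem_singleton_iff] at h
      rw [h] at hy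
      simp at hy
      exact hδpos.ne hy
  obtain ⟨m, hm, hmin⟩ : ∃ m > 0, ∀ y ∈ Metric.sphere α δ, m ≤ ‖(f.coeff 0).eval y‖ := by
    have hc : IsCompact (Metric.sphere α δ) := isCompact_sphere _ _
    have hne : (Metric.sphere α δ).Nonempty := NormedSpace.sphere_nonempty.2 hδpos.le
    obtain ⟨y0, hy0, hy1⟩ := hc.exists_isMinOn hne
      ((f.coeff 0).continuous.norm.continuousOn)
    exact ⟨_, norm_pos_iff.2 (hsph y0 hy0), fun y hy => hy1 hy⟩
  -- f = f0 + X g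
  have hsplit : f = X * f.divX + C (f.coeff 0) := (X_mul_divX_add f).symm
  have hev : ∀ x y : ℂ, nb01_ev x y f = x * nb01_ev x y f.divX + (f.coeff 0).eval y := by
    intro x y
    conv_lhs => rw [hsplit]
    rw [map_add, map_mul, nb01_ev_C, nb01_ev_X]
  obtain ⟨B, hB0, hB⟩ := nb01_bound f.divX (‖α‖ + ε + 1)
  -- the choice of x
  obtain ⟨r, hr0, hrε, hr1, hrB⟩ : ∃ r : ℝ, 0 < r ∧ r < ε ∧ r ≤ 1 ∧ r * B < m / 2 := by
    refine ⟨min (ε / 2) (min 1 (m / (2 * (B + 1)) / 2)), ?_, ?_, ?_, ?_⟩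
    · positivity
    · exact lt_of_le_of_lt (min_le_left _ _) (by linarith)
    · exact (min_le_right _ _).trans (min_le_left _ _)
    · have h1 : min (ε / 2) (min 1 (m / (2 * (B + 1)) / 2)) ≤ m / (2 * (B + 1)) / 2 :=
        (min_le_right _ _).trans (min_le_right _ _)
      calc min (ε / 2) (min 1 (m / (2 * (B + 1)) / 2)) * B ≤ m / (2 * (B + 1)) / 2 * B :=
            mul_le_mul_of_nonneg_right h1 hB0
        _ ≤ m / (2 * (B + 1)) / 2 * (B + 1) :=
            mul_le_mul_of_nonneg_left (by linarith) (by positivity)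
        _ = m / 4 := by field_simp; ring
        _ < m / 2 := by linarith
  have hx0 : ((r : ℝ) : ℂ) ≠ 0 := by exact_mod_cast hr0.ne'
  have hxn : ‖((r : ℝ) : ℂ)‖ = r := by
    rw [Complex.norm_real, Real.norm_eq_abs, abs_of_pos hr0]
  have hxR : ‖((r : ℝ) : ℂ)‖ ≤ ‖α‖ + ε + 1 := by
    rw [hxn]; linarith [norm_nonneg α]
  have hyR : ∀ y ∈ Metric.closedBall α δ, ‖y‖ ≤ ‖α‖ + ε + 1 := by
    intro y hy
    rw [Metric.mem_closedBall, dist_eq_norm] at hy
    have : ‖y‖ ≤ ‖y - α‖ + ‖α‖ := by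
      calc ‖y‖ = ‖(y - α) + α‖ := by rw [sub_add_cancel]
        _ ≤ _ := norm_add_le _ _
    linarith
  have hsmall : ∀ y ∈ Metric.closedBall α δ,
      ‖((r : ℝ) : ℂ) * nb01_ev r y f.divX‖ < m / 2 := by
    intro y hy
    rw [norm_mul, hxn]
    exact lt_of_le_of_lt (mul_le_mul_of_nonneg_left (hB _ _ hxR (hyR y hy)) hr0.le) hrB
  by_contra hcon
  push Not at hcon
  have hnz : ∀ y ∈ Metric.closedBall α δ, nb01_ev r y f ≠ 0 := by
    intro y hy
    refine hcon r y hx0 (by rw [hxn]; exact hrε) ?_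
    rw [Metric.mem_closedBall, dist_eq_norm] at hy
    linarith
  have hdiff : Differentiable ℂ (fun y => nb01_ev r y f) := by
    have h : (fun y : ℂ => nb01_ev r y f) = fun y : ℂ =>
        ∑ i ∈ Finset.range (f.natDegree + 1), (f.coeff i).eval y * (r : ℂ) ^ i := by
      funext z
      show eval₂ (evalRingHom z) _ f = _
      rw [eval₂_eq_sum_range]
      rfl
    rw [h]
    fun_prop
  have hcl : closure (Metric.ball α δ) = Metric.closedBall α δ := closure_ball α hδpos.ne'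
  have hD : DiffContOnCl ℂ (fun y => (nb01_ev r y f)⁻¹) (Metric.ball α δ) := by
    refine ⟨fun y hy => ?_, fun y hy => ?_⟩
    · exact ((hdiff y).inv (hnz y (Metric.ball_subset_closedBall hy))).differentiableWithinAt
    · rw [hcl] at hy
      exact (hdiff.continuous.continuousAt.inv₀ (hnz y hy)).continuousWithinAt
  have hmax := Complex.norm_le_of_forall_mem_frontier_norm_le Metric.isBounded_ball hD
    (C := 2 / m) (fun y hy => by
      rw [frontier_ball α hδpos.ne'] at hy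
      have h1 := hmin y hy
      have h2 := hsmall y (Metric.sphere_subset_closedBall hy)
      have h3 : m / 2 ≤ ‖nb01_ev r y f‖ := by
        rw [hev]
        have h4 : ‖(f.coeff 0).eval y‖ ≤ ‖((r : ℝ) : ℂ) * nb01_ev r y f.divX +
            (f.coeff 0).eval y‖ + ‖((r : ℝ) : ℂ) * nb01_ev r y f.divX‖ := by
          have := norm_sub_le (((r : ℝ) : ℂ) * nb01_ev r y f.divX + (f.coeff 0).eval y)
            (((r : ℝ) : ℂ) * nb01_ev r y f.divX)
          rwa [add_sub_cancel_left] at this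
        linarith
      rw [norm_inv]
      calc ‖nb01_ev r y f‖⁻¹ ≤ (m / 2)⁻¹ := inv_anti₀ (by linarith) h3
        _ = 2 / m := by rw [inv_div]) (z := α)
    (by rw [hcl]; exact Metric.mem_closedBall_self hδpos.le)
  have h5 : ‖nb01_ev r α f‖ < m / 2 := by
    rw [hev, hroot, add_zero]
    exact hsmall α (Metric.mem_closedBall_self hδpos.le)
  have h6 : 0 < ‖nb01_ev r α f‖ :=
    norm_pos_iff.2 (hnz α (Metric.mem_closedBall_self hδpos.le))
  rw [norm_inv] at hmax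
  have h7 : (m / 2)⁻¹ < ‖nb01_ev r α f‖⁻¹ := inv_strictAnti₀ h6 h5
  rw [inv_div] at h7
  linarith

/-- on the curve `|x| ^ c ≤ C |y - α|` -/
theorem nb01_upper (f : Polynomial (Polynomial ℂ)) (α : ℂ) (h1 : ¬ C (X - C α) ∣ f) :
    ∃ (c : ℕ) (K δ : ℝ), 0 ≤ K ∧ 0 < δ ∧ ∀ x y : ℂ, ‖x‖ < δ → ‖y - α‖ < δ →
      nb01_ev x y f = 0 → ‖x‖ ^ c ≤ K * ‖y - α‖ := by
  set p : ℂ[X] := f.map (evalRingHom α) with hp
  have hp0 : p ≠ 0 := by
    intro h
    apply h1
    rw [C_dvd_iff_dvd_coeff]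
    intro i
    rw [dvd_iff_isRoot, IsRoot.def]
    have := congrArg (fun q => q.coeff i) h
    simpa [hp, coeff_map] using this
  have hlow := nb01_lower (hasDerivAt_id (0 : ℂ)) one_ne_zero p hp0
  simp only [sub_zero, id] at hlow
  obtain ⟨K1, hK1, hK1'⟩ := hlow.exists_pos
  rw [isBigOWith_iff] at hK1'
  obtain ⟨δ1, hδ1, hδ1'⟩ := Metric.eventually_nhds_iff.1 hK1'
  -- the difference is divisible by `Y - α`
  have hdvd : C (X - C α) ∣ f - p.map (C : ℂ →+* ℂ[X]) := by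
    rw [C_dvd_iff_dvd_coeff]
    intro i
    rw [coeff_sub, coeff_map, hp, coeff_map]
    exact X_sub_C_dvd_sub_C_eval
  obtain ⟨q, hq⟩ := hdvd
  obtain ⟨B, hB0, hB⟩ := nb01_bound q (‖α‖ + 1)
  refine ⟨p.natDegree, K1 * B, min δ1 1, by positivity, by positivity, ?_⟩
  intro x y hx hy hf
  have hx1 : ‖x‖ < δ1 := lt_of_lt_of_le hx (min_le_left _ _)
  have hx2 : ‖x‖ < 1 := lt_of_lt_of_le hx (min_le_right _ _)
  have hy2 : ‖y - α‖ < 1 := lt_of_lt_of_le hy (min_le_right _ _)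
  have e1 : nb01_ev x y (p.map (C : ℂ →+* ℂ[X])) = p.eval x := by
    show eval₂ (evalRingHom y) x (p.map C) = _
    rw [eval₂_map]
    have : (evalRingHom y).comp (C : ℂ →+* ℂ[X]) = RingHom.id ℂ := by
      ext a
      simp
    rw [this]
    rfl
  have e2 : nb01_ev x y (f - p.map (C : ℂ →+* ℂ[X])) = (y - α) * nb01_ev x y q := by
    rw [hq, map_mul, nb01_ev_C]
    simp
  rw [map_sub, hf, e1, zero_sub] at e2
  have e3 : ‖p.eval x‖ = ‖y - α‖ * ‖nb01_ev x y q‖ := by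
    rw [← norm_neg, e2, norm_mul]
  have hyR : ‖y‖ ≤ ‖α‖ + 1 := by
    have : ‖y‖ ≤ ‖y - α‖ + ‖α‖ := by
      calc ‖y‖ = ‖(y - α) + α‖ := by rw [sub_add_cancel]
        _ ≤ _ := norm_add_le _ _
    linarith
  have hq1 := hB x y (by linarith [norm_nonneg α]) hyR
  have h3 := hδ1' (y := x) (by rw [dist_zero_right]; exact hx1)
  rw [norm_pow] at h3
  calc ‖x‖ ^ p.natDegree ≤ K1 * ‖p.eval x‖ := h3
    _ = K1 * (‖y - α‖ * ‖nb01_ev x y q‖) := by rw [e3]
    _ ≤ K1 * (‖y - α‖ * B) := by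
        exact mul_le_mul_of_nonneg_left (mul_le_mul_of_nonneg_left hq1 (norm_nonneg _)) hK1.le
    _ = K1 * B * ‖y - α‖ := by ring

theorem local_nb (f : Polynomial (Polynomial ℂ)) (α : ℂ) (hα : α ≠ 0) (h0 : f.coeff 0 ≠ 0)
    (hroot : (f.coeff 0).eval α = 0) (h1 : ¬ C (X - C α) ∣ f) :
    ∃ N0 : ℕ, ∀ N, N0 ≤ N → ¬ f ∣ dilC ℂ N f := by
  obtain ⟨c, K, δ, hK, hδ, hup⟩ := nb01_upper f α h1
  set μ := (f.coeff 0).natDegree with hμ
  refine ⟨c * μ + 1, ?_⟩
  intro N hN hdiv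
  have hN0 : N ≠ 0 := by omega
  -- lower bound for `f0(y ^ N)`
  have hder : HasDerivAt (fun y : ℂ => y ^ N) ((N : ℂ) * α ^ (N - 1)) α := hasDerivAt_pow N α
  have hder0 : (N : ℂ) * α ^ (N - 1) ≠ 0 :=
    mul_ne_zero (Nat.cast_ne_zero.2 hN0) (pow_ne_zero _ hα)
  have hlow := nb01_lower hder hder0 (f.coeff 0) h0
  obtain ⟨K2, hK2, hK2'⟩ := hlow.exists_pos
  rw [isBigOWith_iff] at hK2'
  obtain ⟨δ2, hδ2, hδ2'⟩ := Metric.eventually_nhds_iff.1 hK2'
  -- the bound for the other part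
  obtain ⟨B, hB0, hB⟩ := nb01_bound f.divX ((‖α‖ + 1) ^ N)
  have hsplit : f = X * f.divX + C (f.coeff 0) := (X_mul_divX_add f).symm
  have hev : ∀ x y : ℂ, nb01_ev x y f = x * nb01_ev x y f.divX + (f.coeff 0).eval y := by
    intro x y
    conv_lhs => rw [hsplit]
    rw [map_add, map_mul, nb01_ev_C, nb01_ev_X]
  -- the final constant
  set L : ℝ := K ^ μ * (K2 * B) with hL
  have hL0 : 0 ≤ L := by positivity
  set ε : ℝ := min (min δ δ2) (min 1 (1 / (L + 1))) with hε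
  have hεpos : 0 < ε := by positivity
  obtain ⟨x, y, hx0, hx, hy, hf⟩ := nb01_points f α h0 hroot ε hεpos
  have hxδ : ‖x‖ < δ := lt_of_lt_of_le hx ((min_le_left _ _).trans (min_le_left _ _))
  have hyδ : ‖y - α‖ < δ := lt_of_lt_of_le hy ((min_le_left _ _).trans (min_le_left _ _))
  have hyδ2 : ‖y - α‖ < δ2 := lt_of_lt_of_le hy ((min_le_left _ _).trans (min_le_right _ _))
  have hx1 : ‖x‖ < 1 := lt_of_lt_of_le hx ((min_le_right _ _).trans (min_le_left _ _))
  have hy1 : ‖y - α‖ < 1 := lt_of_lt_of_le hy ((min_le_right _ _).trans (min_le_left _ _))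
  have hxL : ‖x‖ < 1 / (L + 1) := lt_of_lt_of_le hx ((min_le_right _ _).trans (min_le_right _ _))
  have hxp : 0 < ‖x‖ := norm_pos_iff.2 hx0
  have hu := hup x y hxδ hyδ hf
  -- the dilated equation
  have hdil : nb01_ev (x ^ N) (y ^ N) f = 0 := by
    obtain ⟨g, hg⟩ := hdiv
    rw [← nb01_ev_dil, hg, map_mul, hf, zero_mul]
  rw [hev] at hdil
  have hyR : ‖y‖ ≤ ‖α‖ + 1 := by
    have : ‖y‖ ≤ ‖y - α‖ + ‖α‖ := by
      calc ‖y‖ = ‖(y - α) + α‖ := by rw [sub_add_cancel]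
        _ ≤ _ := norm_add_le _ _
    linarith
  have hb := hB (x ^ N) (y ^ N) (by
      rw [norm_pow]
      exact pow_le_pow_left₀ (norm_nonneg _) (by linarith [norm_nonneg α]) N) (by
      rw [norm_pow]
      exact pow_le_pow_left₀ (norm_nonneg _) hyR N)
  have h3 : ‖(f.coeff 0).eval (y ^ N)‖ ≤ ‖x‖ ^ N * B := by
    have h4 : (f.coeff 0).eval (y ^ N) = -(x ^ N * nb01_ev (x ^ N) (y ^ N) f.divX) := by
      linear_combination hdil
    rw [h4, norm_neg, norm_mul, norm_pow]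
    exact mul_le_mul_of_nonneg_left hb (by positivity)
  have h5 := hδ2' (y := y) (by rw [dist_eq_norm]; exact hyδ2)
  rw [norm_pow] at h5
  -- combination
  have h6 : ‖x‖ ^ (c * μ) ≤ L * ‖x‖ ^ N := by
    calc ‖x‖ ^ (c * μ) = (‖x‖ ^ c) ^ μ := pow_mul _ _ _
      _ ≤ (K * ‖y - α‖) ^ μ := pow_le_pow_left₀ (by positivity) hu μ
      _ = K ^ μ * ‖y - α‖ ^ μ := mul_pow _ _ _
      _ ≤ K ^ μ * (K2 * (‖x‖ ^ N * B)) := by
          refine mul_le_mul_of_nonneg_left ?_ (by positivity)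
          exact h5.trans (mul_le_mul_of_nonneg_left h3 hK2.le)
      _ = L * ‖x‖ ^ N := by rw [hL]; ring
  have h7 : ‖x‖ ^ N ≤ ‖x‖ ^ (c * μ) * ‖x‖ := by
    rw [← pow_succ]
    exact pow_le_pow_of_le_one hxp.le hx1.le hN
  have h8 : 0 < ‖x‖ ^ (c * μ) := by positivity
  have h9 : ‖x‖ ^ (c * μ) ≤ ‖x‖ ^ (c * μ) * (L * ‖x‖) := by
    calc ‖x‖ ^ (c * μ) ≤ L * ‖x‖ ^ N := h6
      _ ≤ L * (‖x‖ ^ (c * μ) * ‖x‖) := mul_le_mul_of_nonneg_left h7 hL0
      _ = _ := by ring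
  have h10 : 1 ≤ L * ‖x‖ := by
    by_contra hlt
    push Not at hlt
    have := mul_lt_mul_of_pos_left hlt h8
    linarith
  rw [lt_div_iff₀ (by linarith)] at hxL
  nlinarith

end Pool.Agent.WPR
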