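import Pool.Agent.Lib.MP_2da099_lc.R2.Defs
import Pool.Agent.Lib.MP_2da099_lc.C01

/-!
# P01: programs with a clock

The clocked program `clk P` works on the stacks of `P` (`Sum.inl k`), the clock (`Sum.inr false`) and a
stack of flags (`Sum.inr true`).  Every push and pop uses up one symbol of the clock; if the clock is
empty, pushes and pops are skipped and loops are left.

HINTS.
* `run_det`: induction on the first run, `cases` on the second one.
* `clk_ok` (enough fuel): induction on the run (for all `c fl`).  `clkTest k p` pushes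
  `decide (c ≠ [] ∧ p (S k).head?)` on the flags, in at most 3 steps.  For `loopT`: the run of
  `clk (.loop k p P)` from the state after `P` (induction hypothesis) is `.seq test (.seq loop (.pop _))`;
  take it apart with `cases` and put one more round in front.  In the loop the flags are popped before
  `clk P`, so the stack of flags is the old one during `clk P`.  One tick is popped in every round:
  the clock is not empty there because of `t + t' + 1 ≤ c.length`.
* `clk_all` (any fuel): induction on `P`, for all `S c fl`; for `.loop` inside a strong induction on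
  `c.length` (every round pops a tick).  `K_P` = e.g. 2 for `skip`, 5 for push and pop,
  `K_P + K_Q + 5`, ..., `2 * K_P + 20` for the loop.  If the clock is not empty at the end, it was never
  empty before (it gets shorter only), so every tested flag was the true one.
-/

set_option autoImplicit false

namespace Pool.Agent.WPR

open Pool.Agent.Lib.PolyTime Pool.Agent.WPM Function

variable {K : Type} [DecidableEq K]

theorem run_det {P : Prog K} {S S1 S2 : St K} {t1 t2 : ℕ} (h1 : Run P S S1 t1)
    (h2 : Run P S S2 t2) : S1 = S2 := by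
  induction h1 generalizing S2 t2 with
  | skip s => cases h2; rfl
  | push k b s => cases h2; rfl
  | pop k s => cases h2; rfl
  | seq _ _ ih1 ih2 =>
    cases h2 with
    | seq a b =>
      have h := ih1 a
      subst h
      exact ih2 b
  | iteT hp _ ih =>
    cases h2 with
    | iteT hq b => exact ih b
    | iteF hq b => rw [hp] at hq; exact absurd hq (by decide)
  | iteF hp _ ih =>
    cases h2 with
    | iteT hq b => rw [hp] at hq; exact absurd hq (by decide)
    | iteF hq b => exact ih b
  | loopT hp _ _ ih1 ih2 =>
    cases h2 with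
    | loopT hq a b =>
      have h := ih1 a
      subst h
      exact ih2 b
    | loopF hq => rw [hp] at hq; exact absurd hq (by decide)
  | loopF hp =>
    cases h2 with
    | loopT hq a b => rw [hp] at hq; exact absurd hq (by decide)
    | loopF hq => rfl

/-- puts a flag on the stack of flags -/
def clkTest (k : K) (p : Option Bool → Bool) : Prog (K ⊕ Bool) :=
  .ite (Sum.inr false) ne (.ite (Sum.inl k) p (.push (Sum.inr true) true)
    (.push (Sum.inr true) false)) (.push (Sum.inr true) false)

/-- The clocked version of a program. -/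
def clk : Prog K → Prog (K ⊕ Bool)
  | .skip => .skip
  | .push k b => .ite (Sum.inr false) ne (.seq (.pop (Sum.inr false)) (.push (Sum.inl k) b)) .skip
  | .pop k => .ite (Sum.inr false) ne (.seq (.pop (Sum.inr false)) (.pop (Sum.inl k))) .skip
  | .seq P Q => .seq (clk P) (clk Q)
  | .ite k p P Q => .ite (Sum.inl k) p (clk P) (clk Q)
  | .loop k p P => .seq (clkTest k p) (.seq (.loop (Sum.inr true) isT (.seq (.pop (Sum.inr true))
      (.seq (.pop (Sum.inr false)) (.seq (clk P) (clkTest k p))))) (.pop (Sum.inr true)))

/-- the state with a clock and flags -/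
def cst (S : St K) (c fl : List Bool) : St (K ⊕ Bool) := fun k => match k with
  | Sum.inl k => S k
  | Sum.inr false => c
  | Sum.inr true => fl

theorem p01_upc (S : St K) (c fl c' : List Bool) :
    update (cst S c fl) (Sum.inr false) c' = cst S c' fl := by
  funext x
  rcases x with x | x
  · rw [update_of_ne (by simp)]
    rfl
  · cases x
    · rw [update_self]
      rfl
    · rw [update_of_ne (by simp)]
      rfl

theorem p01_upf (S : St K) (c fl fl' : List Bool) :
    update (cst S c fl) (Sum.inr true) fl' = cst S c fl' := by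
  funext x
  rcases x with x | x
  · rw [update_of_ne (by simp)]
    rfl
  · cases x
    · rw [update_of_ne (by simp)]
      rfl
    · rw [update_self]
      rfl

theorem p01_ups (S : St K) (c fl : List Bool) (k : K) (w : List Bool) :
    update (cst S c fl) (Sum.inl k) w = cst (update S k w) c fl := by
  funext x
  rcases x with x | x
  · by_cases hx : x = k
    · subst hx
      rw [update_self]
      show w = update S x w x
      rw [update_self]
    · rw [update_of_ne (by simpa using hx)]
      show S x = update S k w x
      rw [update_of_ne hx]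
  · rw [update_of_ne (by simp)]
    cases x <;> rfl

theorem p01_popc (S : St K) (c fl : List Bool) :
    Run (.pop (Sum.inr false)) (cst S c fl) (cst S c.tail fl) 1 := by
  have h := Run.pop (Sum.inr false) (cst S c fl)
  rw [p01_upc] at h
  exact h

theorem p01_popf (S : St K) (c fl : List Bool) (b : Bool) :
    Run (.pop (Sum.inr true)) (cst S c (b :: fl)) (cst S c fl) 1 := by
  have h := Run.pop (Sum.inr true) (cst S c (b :: fl))
  rw [p01_upf] at h
  exact h

theorem p01_pushf (S : St K) (c fl : List Bool) (b : Bool) :
    Run (.push (Sum.inr true) b) (cst S c fl) (cst S c (b :: fl)) 1 := by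
  have h := Run.push (Sum.inr true) b (cst S c fl)
  rw [p01_upf] at h
  exact h

theorem p01_push (S : St K) (c fl : List Bool) (k : K) (b : Bool) :
    Run (.push (Sum.inl k) b) (cst S c fl) (cst (update S k (b :: S k)) c fl) 1 := by
  have h := Run.push (Sum.inl k) b (cst S c fl)
  rw [p01_ups] at h
  exact h

theorem p01_pop (S : St K) (c fl : List Bool) (k : K) :
    Run (.pop (Sum.inl k)) (cst S c fl) (cst (update S k (S k).tail) c fl) 1 := by
  have h := Run.pop (Sum.inl k) (cst S c fl)
  rw [p01_ups] at h
  exact h

theorem p01_testT (S : St K) (x : Bool) (c fl : List Bool) (k : K) (p : Option Bool → Bool)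
    (hp : p (S k).head? = true) :
    Run (clkTest k p) (cst S (x :: c) fl) (cst S (x :: c) (true :: fl)) 3 :=
  .iteT (k := Sum.inr false) (p := ne) (by rfl)
    (.iteT (k := Sum.inl k) (p := p) hp (p01_pushf S (x :: c) fl true))

theorem p01_testF (S : St K) (x : Bool) (c fl : List Bool) (k : K) (p : Option Bool → Bool)
    (hp : p (S k).head? = false) :
    Run (clkTest k p) (cst S (x :: c) fl) (cst S (x :: c) (false :: fl)) 3 :=
  .iteT (k := Sum.inr false) (p := ne) (by rfl)
    (.iteF (k := Sum.inl k) (p := p) hp (p01_pushf S (x :: c) fl false))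

theorem p01_test0 (S : St K) (fl : List Bool) (k : K) (p : Option Bool → Bool) :
    Run (clkTest k p) (cst S [] fl) (cst S [] (false :: fl)) 2 :=
  .iteF (k := Sum.inr false) (p := ne) (by rfl) (p01_pushf S [] fl false)

theorem p01_loopF (S : St K) (x : Bool) (c fl : List Bool) (k : K) (p : Option Bool → Bool)
    (P : Prog K) (hp : p (S k).head? = false) :
    Run (clk (.loop k p P)) (cst S (x :: c) fl) (cst S (x :: c) fl) 5 := by
  have h := Run.seq (p01_testF S x c fl k p hp) (Run.seq (Run.loopF (k := Sum.inr true) (p := isT)
    (P := .seq (.pop (Sum.inr true))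
      (.seq (.pop (Sum.inr false)) (.seq (clk P) (clkTest k p)))) (by rfl))
    (p01_popf S (x :: c) fl false))
  exact h

theorem p01_loop0 (S : St K) (fl : List Bool) (k : K) (p : Option Bool → Bool)
    (P : Prog K) : Run (clk (.loop k p P)) (cst S [] fl) (cst S [] fl) 4 := by
  have h := Run.seq (p01_test0 S fl k p) (Run.seq (Run.loopF (k := Sum.inr true) (p := isT)
    (P := .seq (.pop (Sum.inr true))
      (.seq (.pop (Sum.inr false)) (.seq (clk P) (clkTest k p)))) (by rfl))
    (p01_popf S [] fl false))
  exact h

theorem p01_loopT {S S1 S2 : St K} {x : Bool} {c c1 c2 fl : List Bool} {k : K}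
    {p : Option Bool → Bool} {P : Prog K} {τ1 τ2 : ℕ} (hp : p (S k).head? = true)
    (h1 : Run (clk P) (cst S c fl) (cst S1 c1 fl) τ1)
    (h2 : Run (clk (.loop k p P)) (cst S1 c1 fl) (cst S2 c2 fl) τ2) :
    Run (clk (.loop k p P)) (cst S (x :: c) fl) (cst S2 c2 fl) (τ1 + τ2 + 6) := by
  have h2' : Run (.seq (clkTest k p) (.seq (.loop (Sum.inr true) isT (.seq (.pop (Sum.inr true))
      (.seq (.pop (Sum.inr false)) (.seq (clk P) (clkTest k p))))) (.pop (Sum.inr true))))
      (cst S1 c1 fl) (cst S2 c2 fl) τ2 := h2
  cases h2' with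
  | @seq _ _ _ s3 _ ta tb hA hB =>
    cases hB with
    | @seq _ _ _ s4 _ tc td hC hD =>
      have h3 := Run.seq (p01_popf S (x :: c) fl true) (Run.seq (p01_popc S (x :: c) fl)
        (Run.seq h1 hA))
      have h4 := Run.loopT (k := Sum.inr true) (p := isT) (by rfl) h3 hC
      have h5 := Run.seq (p01_testT S x c fl k p hp) (Run.seq h4 hD)
      have e : 3 + (1 + (1 + (τ1 + ta)) + tc + 1 + td) = τ1 + (ta + (tc + td)) + 6 := by omega
      rw [e] at h5
      exact h5

theorem clk_ok {P : Prog K} {S S' : St K} {t : ℕ} (h : Run P S S' t) :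
    ∀ c fl : List Bool, t ≤ c.length → ∃ (c' : List Bool) (τ : ℕ), c.length ≤ c'.length + t ∧
      τ ≤ 20 * t ∧ Run (clk P) (cst S c fl) (cst S' c' fl) τ := by
  induction h with
  | skip s =>
    intro c fl _
    exact ⟨c, 1, by omega, by omega, .skip _⟩
  | push k b s =>
    intro c fl hc
    cases c with
    | nil => simp at hc
    | cons x c =>
      refine ⟨c, 3, by simp, by omega, ?_⟩
      exact .iteT (k := Sum.inr false) (p := ne) (by rfl)
        (.seq (p01_popc s (x :: c) fl) (p01_push s c fl k b))
  | pop k s =>
    intro c fl hc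
    cases c with
    | nil => simp at hc
    | cons x c =>
      refine ⟨c, 3, by simp, by omega, ?_⟩
      exact .iteT (k := Sum.inr false) (p := ne) (by rfl)
        (.seq (p01_popc s (x :: c) fl) (p01_pop s c fl k))
  | seq _ _ ih1 ih2 =>
    intro c fl hc
    obtain ⟨c1, τ1, h1, h2, h3⟩ := ih1 c fl (by omega)
    obtain ⟨c2, τ2, h4, h5, h6⟩ := ih2 c1 fl (by omega)
    exact ⟨c2, τ1 + τ2, by omega, by omega, .seq h3 h6⟩
  | @iteT k p P Q s s' t hp _ ih =>
    intro c fl hc
    obtain ⟨c1, τ1, h1, h2, h3⟩ := ih c fl (by omega)
    exact ⟨c1, τ1 + 1, by omega, by omega, .iteT (k := Sum.inl k) (p := p) hp h3⟩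
  | @iteF k p P Q s s' t hp _ ih =>
    intro c fl hc
    obtain ⟨c1, τ1, h1, h2, h3⟩ := ih c fl (by omega)
    exact ⟨c1, τ1 + 1, by omega, by omega, .iteF (k := Sum.inl k) (p := p) hp h3⟩
  | @loopT k p P s s' s'' t t' hp _ _ ih1 ih2 =>
    intro c fl hc
    cases c with
    | nil => simp at hc
    | cons x c =>
      rw [List.length_cons] at hc
      obtain ⟨c1, τ1, h1, h2, h3⟩ := ih1 c fl (by omega)
      obtain ⟨c2, τ2, h4, h5, h6⟩ := ih2 c1 fl (by omega)
      refine ⟨c2, τ1 + τ2 + 6, ?_, by omega, p01_loopT hp h3 h6⟩
      rw [List.length_cons]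
      omega
  | @loopF k p P s hp =>
    intro c fl hc
    cases c with
    | nil => simp at hc
    | cons x c => exact ⟨x :: c, 5, by omega, by omega, p01_loopF s x c fl k p P hp⟩

theorem clk_all (P : Prog K) : ∃ C : ℕ, ∀ (S : St K) (c fl : List Bool),
    ∃ (S' : St K) (c' : List Bool) (τ : ℕ), c'.length ≤ c.length ∧
      τ ≤ C * (c.length - c'.length + 1) ∧
      (∀ k, (S' k).length ≤ (S k).length + (c.length - c'.length)) ∧
      Run (clk P) (cst S c fl) (cst S' c' fl) τ ∧ (c' = [] ∨ ∃ t, Run P S S' t) := by
  induction P with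
  | skip =>
    exact ⟨1, fun S c fl => ⟨S, c, 1, le_refl _, by omega, fun k => by omega, .skip _,
      Or.inr ⟨1, .skip _⟩⟩⟩
  | push k b =>
    refine ⟨3, fun S c fl => ?_⟩
    cases c with
    | nil =>
      exact ⟨S, [], 2, le_refl _, by omega, fun k => by omega,
        .iteF (k := Sum.inr false) (p := ne) (by rfl) (.skip _), Or.inl rfl⟩
    | cons x c =>
      refine ⟨update S k (b :: S k), c, 3, by simp, by omega, fun k' => ?_,
        .iteT (k := Sum.inr false) (p := ne) (by rfl)
        (.seq (p01_popc S (x :: c) fl) (p01_push S c fl k b)), Or.inr ⟨1, .push k b S⟩⟩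
      rw [List.length_cons]
      by_cases hk : k' = k
      · subst hk
        rw [update_self, List.length_cons]
        omega
      · rw [update_of_ne hk]
        omega
  | pop k =>
    refine ⟨3, fun S c fl => ?_⟩
    cases c with
    | nil =>
      exact ⟨S, [], 2, le_refl _, by omega, fun k => by omega,
        .iteF (k := Sum.inr false) (p := ne) (by rfl) (.skip _), Or.inl rfl⟩
    | cons x c =>
      refine ⟨update S k (S k).tail, c, 3, by simp, by omega, fun k' => ?_,
        .iteT (k := Sum.inr false) (p := ne) (by rfl)
        (.seq (p01_popc S (x :: c) fl) (p01_pop S c fl k)), Or.inr ⟨1, .pop k S⟩⟩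
      by_cases hk : k' = k
      · subst hk
        rw [update_self, List.length_tail]
        omega
      · rw [update_of_ne hk]
        omega
  | seq P Q ihP ihQ =>
    obtain ⟨C1, hP⟩ := ihP
    obtain ⟨C2, hQ⟩ := ihQ
    refine ⟨C1 + C2, fun S c fl => ?_⟩
    obtain ⟨S1, c1, τ1, h1, h2, h3, h4, h5⟩ := hP S c fl
    obtain ⟨S2, c2, τ2, k1, k2, k3, k4, k5⟩ := hQ S1 c1 fl
    refine ⟨S2, c2, τ1 + τ2, by omega, ?_, fun k => ?_, .seq h4 k4, ?_⟩
    · have e1 : C1 * (c.length - c1.length + 1) ≤ C1 * (c.length - c2.length + 1) :=
        Nat.mul_le_mul_left _ (by omega)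
      have e2 : C2 * (c1.length - c2.length + 1) ≤ C2 * (c.length - c2.length + 1) :=
        Nat.mul_le_mul_left _ (by omega)
      rw [Nat.add_mul]
      omega
    · have := h3 k
      have := k3 k
      omega
    · rcases k5 with k5 | ⟨t2, k5⟩
      · exact Or.inl k5
      · rcases h5 with h5 | ⟨t1, h5⟩
        · left
          rw [h5, List.length_nil] at k1
          exact List.length_eq_zero_iff.1 (by omega)
        · exact Or.inr ⟨t1 + t2, .seq h5 k5⟩
  | ite k p P Q ihP ihQ =>
    obtain ⟨C1, hP⟩ := ihP
    obtain ⟨C2, hQ⟩ := ihQ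
    refine ⟨C1 + C2 + 1, fun S c fl => ?_⟩
    cases hp : p (S k).head? with
    | true =>
      obtain ⟨S1, c1, τ1, h1, h2, h3, h4, h5⟩ := hP S c fl
      refine ⟨S1, c1, τ1 + 1, h1, ?_, h3, .iteT (k := Sum.inl k) (p := p) hp h4, ?_⟩
      · have e1 : (C1 + C2 + 1) * (c.length - c1.length + 1) = C1 * (c.length - c1.length + 1) +
          C2 * (c.length - c1.length + 1) + (c.length - c1.length + 1) := by ring
        rw [e1]
        omega
      · rcases h5 with h5 | ⟨t1, h5⟩
        · exact Or.inl h5
        · exact Or.inr ⟨t1 + 1, .iteT hp h5⟩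
    | false =>
      obtain ⟨S1, c1, τ1, h1, h2, h3, h4, h5⟩ := hQ S c fl
      refine ⟨S1, c1, τ1 + 1, h1, ?_, h3, .iteF (k := Sum.inl k) (p := p) hp h4, ?_⟩
      · have e1 : (C1 + C2 + 1) * (c.length - c1.length + 1) = C1 * (c.length - c1.length + 1) +
          C2 * (c.length - c1.length + 1) + (c.length - c1.length + 1) := by ring
        rw [e1]
        omega
      · rcases h5 with h5 | ⟨t1, h5⟩
        · exact Or.inl h5
        · exact Or.inr ⟨t1 + 1, .iteF hp h5⟩
  | loop k p P ihP =>
    obtain ⟨C1, hP⟩ := ihP
    refine ⟨C1 + 10, ?_⟩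
    have key : ∀ (m : ℕ) (S : St K) (c fl : List Bool), c.length ≤ m →
        ∃ (S' : St K) (c' : List Bool) (τ : ℕ), c'.length ≤ c.length ∧
        τ ≤ (C1 + 10) * (c.length - c'.length + 1) ∧
        (∀ k, (S' k).length ≤ (S k).length + (c.length - c'.length)) ∧
        Run (clk (.loop k p P)) (cst S c fl) (cst S' c' fl) τ ∧
        (c' = [] ∨ ∃ t, Run (.loop k p P) S S' t) := by
      intro m
      induction m with
      | zero =>
        intro S c fl hc
        have hc0 : c = [] := List.length_eq_zero_iff.1 (by omega)
        subst hc0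
        exact ⟨S, [], 4, le_refl _, by rw [Nat.sub_self]; omega, fun k => by omega, p01_loop0 S fl k p P,
          Or.inl rfl⟩
      | succ m ih =>
        intro S c fl hc
        cases c with
        | nil =>
          exact ⟨S, [], 4, le_refl _, by rw [Nat.sub_self]; omega, fun k => by omega,
            p01_loop0 S fl k p P, Or.inl rfl⟩
        | cons x c =>
          rw [List.length_cons] at hc
          cases hp : p (S k).head? with
          | false =>
            exact ⟨S, x :: c, 5, le_refl _, by rw [Nat.sub_self]; omega, fun k => by omega,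
              p01_loopF S x c fl k p P hp, Or.inr ⟨1, .loopF hp⟩⟩
          | true =>
            obtain ⟨S1, c1, τ1, h1, h2, h3, h4, h5⟩ := hP S c fl
            obtain ⟨S2, c2, τ2, k1, k2, k3, k4, k5⟩ := ih S1 c1 fl (by omega)
            refine ⟨S2, c2, τ1 + τ2 + 6, ?_, ?_, fun k' => ?_, p01_loopT hp h4 k4, ?_⟩
            · rw [List.length_cons]
              omega
            · rw [List.length_cons]
              have e0 : c.length + 1 - c2.length + 1 =
                (c.length - c1.length + 1) + (c1.length - c2.length + 1) := by omega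
              rw [e0, Nat.mul_add]
              have e1 : C1 * (c.length - c1.length + 1) + 10 * (c.length - c1.length + 1) =
                (C1 + 10) * (c.length - c1.length + 1) := by ring
              rw [← e1]
              omega
            · rw [List.length_cons]
              have := h3 k'
              have := k3 k'
              omega
            · rcases k5 with k5 | ⟨t2, k5⟩
              · exact Or.inl k5
              · rcases h5 with h5 | ⟨t1, h5⟩
                · left
                  rw [h5, List.length_nil] at k1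
                  exact List.length_eq_zero_iff.1 (by omega)
                · exact Or.inr ⟨t1 + t2 + 1, .loopT hp h5 k5⟩
    exact fun S c fl => key c.length S c fl (le_refl _)

end Pool.Agent.WPR
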