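import Pool.Agent.Lib.MP_2da099_lc.R2.P01
import Pool.Agent.Lib.MP_2da099_lc.C05

/-!
# P02: functions with a clock

HINTS.  Let `P, k₀, C₁` be the program of `f`.  Stacks of the new program: `K ⊕ Bool` (see P01) plus a
main stack `m` and auxiliary stacks (all as `Sum.inr (i : Fin 4)` over `K ⊕ Bool`, programs are moved
with `Prog.map` and `Run.map`).  The main stack contains `true :: (code clock ++ (code a ++ u))`.  Pop,
`takeTree` the code of the clock and move it to the clock stack (it is used as a list of bits, of length
`size clock ≥ clock.length`), `takeTree` the code of `a` and move it to `k₀` (the other stacks of `K` are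
empty, nothing is below).  Run `clk P`.  Then test the clock (`ne`): if it is not empty then (`clk_all`,
`run_det` and the run of `P`) the state is `single k₀ (code (f a))`: clear the clock, move the code back to
the main stack and push what is needed for `some` (`encOption`, look at `More.lean` lines 215 ff).
If it is empty: clear the clock and ALL stacks of `K` (fold over `Finset.univ.toList`, time `2 * length + 1`
each), push the code of `none`.  `g (l, a)` is defined by classical choice: `some (f a)` if the run of
`clk P` (unique by `run_det`) ends with a nonempty clock, `none` otherwise.  Flags: start with `[]`.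
Success: `clk_ok` with `t ≤ C₁ * (T a + 1) < C * (T a + 1) ≤ clock.length` for `C = C₁ + 1`, so the clock is
not empty at the end.
-/

set_option autoImplicit false

namespace Pool.Agent.WPR

open Pool.Agent.Lib.PolyTime Pool.Agent.WPM Function

section

variable {K : Type} [DecidableEq K]

/-- contents `R`, main stack `m`, auxiliary stack `t` -/
def p02_st (R : St (K ⊕ Bool)) (m t : List Bool) : St ((K ⊕ Bool) ⊕ Fin 3) := fun x => match x with
  | Sum.inl y => R y
  | Sum.inr i => if i = 0 then m else if i = 1 then t else []

theorem p02_upm (R : St (K ⊕ Bool)) (m t m' : List Bool) :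
    update (p02_st R m t) (Sum.inr 0) m' = p02_st R m' t := by
  funext x
  rcases x with x | x
  · rw [update_of_ne (by simp)]
    rfl
  · by_cases h0 : x = 0
    · subst h0
      rw [update_self]
      rfl
    · rw [update_of_ne (by simpa using h0)]
      show (if x = 0 then m else if x = 1 then t else []) =
        (if x = 0 then m' else if x = 1 then t else [])
      rw [if_neg h0, if_neg h0]

theorem p02_upt (R : St (K ⊕ Bool)) (m t t' : List Bool) :
    update (p02_st R m t) (Sum.inr 1) t' = p02_st R m t' := by
  funext x
  rcases x with x | x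
  · rw [update_of_ne (by simp)]
    rfl
  · by_cases h0 : x = 1
    · subst h0
      rw [update_self]
      rfl
    · rw [update_of_ne (by simpa using h0)]
      show (if x = 0 then m else if x = 1 then t else []) =
        (if x = 0 then m else if x = 1 then t' else [])
      rw [if_neg h0, if_neg h0]

theorem p02_upr (R : St (K ⊕ Bool)) (m t : List Bool) (y : K ⊕ Bool) (w : List Bool) :
    update (p02_st R m t) (Sum.inl y) w = p02_st (update R y w) m t := by
  funext x
  rcases x with x | x
  · by_cases h0 : x = y
    · subst h0
      rw [update_self]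
      show w = update R x w x
      rw [update_self]
    · rw [update_of_ne (by simpa using h0)]
      show R x = update R y w x
      rw [update_of_ne h0]
  · rw [update_of_ne (by simp)]
    rfl

theorem p02_single (w : List Bool) :
    single (Sum.inr 0 : (K ⊕ Bool) ⊕ Fin 3) w = p02_st (fun _ => []) w [] := by
  funext x
  rcases x with x | x
  · rw [single_ne (by simp)]
    rfl
  · by_cases h0 : x = 0
    · subst h0
      rw [single_self]
      rfl
    · rw [single_ne (by simpa using h0)]
      show [] = (if x = 0 then w else if x = 1 then [] else [])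
      rw [if_neg h0]
      split_ifs <;> rfl

theorem p02_take {α : Type} [Enc α] (a : α) (R : St (K ⊕ Bool)) (w : List Bool) :
    Run (takeTree (Sum.inr 0) (Sum.inr 1) (Sum.inr 2)) (p02_st R (code a ++ w) [])
      (p02_st R w (code a).reverse) (5 * size a + 2) := by
  have h := run_takeTree (a := (Sum.inr 0 : (K ⊕ Bool) ⊕ Fin 3)) (b := Sum.inr 1)
    (c := Sum.inr 2) (by simp) (by simp) (by simp) (enc a) (p02_st R (code a ++ w) []) w rfl rfl
  rw [p02_upm, p02_upt] at h
  have e : (enc a).ser.reverse ++ p02_st R (code a ++ w) [] (Sum.inr 1) = (code a).reverse := by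
    show (enc a).ser.reverse ++ [] = _
    rw [List.append_nil]
    rfl
  rw [e] at h
  exact h

theorem p02_to (R : St (K ⊕ Bool)) (m v : List Bool) (y : K ⊕ Bool) (hy : R y = []) :
    Run (mv (Sum.inr 1) (Sum.inl y)) (p02_st R m v) (p02_st (update R y v.reverse) m [])
      (4 * v.length + 1) := by
  have h := run_mv (a := (Sum.inr 1 : (K ⊕ Bool) ⊕ Fin 3)) (b := Sum.inl y) (by simp) v
    (p02_st R m v) rfl
  rw [p02_upt, p02_upr] at h
  have e : v.reverse ++ p02_st R m v (Sum.inl y) = v.reverse := by
    show v.reverse ++ R y = _
    rw [hy, List.append_nil]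
  rw [e] at h
  exact h

theorem p02_from (R : St (K ⊕ Bool)) (m : List Bool) (y : K ⊕ Bool) :
    Run (mv (Sum.inl y) (Sum.inr 1)) (p02_st R m []) (p02_st (update R y []) m (R y).reverse)
      (4 * (R y).length + 1) := by
  have h := run_mv (a := (Sum.inl y : (K ⊕ Bool) ⊕ Fin 3)) (b := Sum.inr 1) (by simp) (R y)
    (p02_st R m []) rfl
  rw [p02_upr, p02_upt] at h
  have e : (R y).reverse ++ p02_st R m [] (Sum.inr 1) = (R y).reverse := by
    show (R y).reverse ++ [] = _
    rw [List.append_nil]
  rw [e] at h
  exact h

theorem p02_back (R : St (K ⊕ Bool)) (m v : List Bool) :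
    Run (mv (Sum.inr 1) (Sum.inr 0)) (p02_st R m v) (p02_st R (v.reverse ++ m) [])
      (4 * v.length + 1) := by
  have h := run_mv (a := (Sum.inr 1 : (K ⊕ Bool) ⊕ Fin 3)) (b := Sum.inr 0) (by simp) v
    (p02_st R m v) rfl
  rw [p02_upt, p02_upm] at h
  exact h

theorem p02_clear (R : St (K ⊕ Bool)) (m t : List Bool) (y : K ⊕ Bool) :
    Run (clear (Sum.inl y)) (p02_st R m t) (p02_st (update R y []) m t)
      (2 * (R y).length + 1) := by
  have h := run_clear (Sum.inl y : (K ⊕ Bool) ⊕ Fin 3) (R y) (p02_st R m t) rfl
  rw [p02_upr] at h
  exact h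

theorem p02_push (R : St (K ⊕ Bool)) (m t : List Bool) (b : Bool) :
    Run (.push (Sum.inr 0) b) (p02_st R m t) (p02_st R (b :: m) t) 1 := by
  have h := Run.push (Sum.inr 0) b (p02_st R m t)
  rw [p02_upm] at h
  exact h

theorem p02_pop (R : St (K ⊕ Bool)) (b : Bool) (m t : List Bool) :
    Run (.pop (Sum.inr 0)) (p02_st R (b :: m) t) (p02_st R m t) 1 := by
  have h := Run.pop (Sum.inr 0) (p02_st R (b :: m) t)
  rw [p02_upm] at h
  exact h

theorem p02_map {P : Prog (K ⊕ Bool)} {R R' : St (K ⊕ Bool)} {τ : ℕ} (h : Run P R R' τ)
    (m t : List Bool) :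
    Run (P.map (Sum.inl : K ⊕ Bool → (K ⊕ Bool) ⊕ Fin 3)) (p02_st R m t) (p02_st R' m t) τ := by
  obtain ⟨S', h1, h2, h3⟩ := h.map (e := (Sum.inl : K ⊕ Bool → (K ⊕ Bool) ⊕ Fin 3))
    Sum.inl_injective (p02_st R m t) (fun _ => rfl)
  have e : S' = p02_st R' m t := by
    funext x
    rcases x with x | x
    · exact h2 x
    · exact h3 (Sum.inr x) (fun k => by simp)
  rwa [e] at h1

end

/-- clear all stacks of a list -/
def p02_clr {K : Type} : List K → Prog K
  | [] => .skip
  | k :: ks => .seq (clear k) (p02_clr ks)

theorem p02_run_clr {K : Type} [DecidableEq K] (B : ℕ) : ∀ (ks : List K) (s : St K),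
    (∀ k ∈ ks, (s k).length ≤ B) → ∃ (τ : ℕ) (s' : St K), τ ≤ ks.length * (2 * B + 1) + 1 ∧
      Run (p02_clr ks) s s' τ ∧ (∀ x ∈ ks, s' x = []) ∧ ∀ x, x ∉ ks → s' x = s x := by
  intro ks
  induction ks with
  | nil =>
    intro s _
    exact ⟨1, s, by simp, .skip s, by simp, fun _ _ => rfl⟩
  | cons k ks ih =>
    intro s hs
    obtain ⟨τ, s', h1, h2, h4, h5⟩ := ih (update s k []) (fun x hxk => by
      by_cases hx : x = k
      · subst hx
        rw [update_self]
        simp
      · rw [update_of_ne hx]
        exact hs x (List.mem_cons_of_mem _ hxk))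
    have h3 := run_clear k (s k) s rfl
    refine ⟨(2 * (s k).length + 1) + τ, s', ?_, .seq h3 h2, ?_, ?_⟩
    · rw [List.length_cons, Nat.add_mul]
      have := hs k List.mem_cons_self
      omega
    · intro x hx
      by_cases hxk : x ∈ ks
      · exact h4 x hxk
      · have hx' : x = k := by
          rcases List.mem_cons.1 hx with h | h
          · exact h
          · exact absurd h hxk
        rw [h5 x hxk, hx', update_self]
    · intro x hx
      rw [List.mem_cons, not_or] at hx
      rw [h5 x hx.2, update_of_ne hx.1]

theorem ct_clock {α β : Type} [Enc α] [Enc β] {f : α → β} {T : α → ℕ} (h : CT f T) :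
    ∃ (C : ℕ) (g : List Unit × α → Option β), CT g (fun x => size x.1 + size x.2) ∧
      (∀ x, g x = none ∨ g x = some (f x.2)) ∧
      ∀ x, C * (T x.2 + 1) ≤ x.1.length → g x = some (f x.2) := by
  classical
  obtain ⟨K, _, _, P, k₀, C₁, hP⟩ := h
  obtain ⟨C₂, hall⟩ := clk_all P
  let good : List Unit × α → Prop := fun x => ∃ (S' : St K) (c' : List Bool) (τ : ℕ), c' ≠ [] ∧
    Run (clk P) (cst (single k₀ (code x.2)) (code x.1) []) (cst S' c' []) τ
  let g : List Unit × α → Option β := fun x => if good x then some (f x.2) else none
  have hlen : ∀ l : List Unit, l.length ≤ size l := by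
    intro l
    induction l with
    | nil => simp
    | cons a l ih =>
      rw [size_cons, List.length_cons]
      omega
  refine ⟨C₁ + 1, g, ?_, ?_, ?_⟩
  · let N := (Finset.univ : Finset K).toList.length
    let ks : List ((K ⊕ Bool) ⊕ Fin 3) :=
      (Finset.univ : Finset K).toList.map (fun k => Sum.inl (Sum.inl k))
    let yc : (K ⊕ Bool) ⊕ Fin 3 := Sum.inl (Sum.inr false)
    let y0 : (K ⊕ Bool) ⊕ Fin 3 := Sum.inl (Sum.inl k₀)
    refine ⟨(K ⊕ Bool) ⊕ Fin 3, inferInstance, inferInstance, .seq (.pop (Sum.inr 0))
      (.seq (takeTree (Sum.inr 0) (Sum.inr 1) (Sum.inr 2)) (.seq (mv (Sum.inr 1) yc)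
      (.seq (takeTree (Sum.inr 0) (Sum.inr 1) (Sum.inr 2)) (.seq (mv (Sum.inr 1) y0)
      (.seq ((clk P).map Sum.inl) (.ite yc ne
        (.seq (clear yc) (.seq (.push (Sum.inr 0) false) (.seq (mv y0 (Sum.inr 1))
          (.seq (mv (Sum.inr 1) (Sum.inr 0)) (.push (Sum.inr 0) true)))))
        (.seq (p02_clr ks) (.push (Sum.inr 0) false)))))))), Sum.inr 0,
        C₂ + 2 * N + 60, ?_⟩
    rintro ⟨l, a⟩ u
    obtain ⟨S', c', τ, q1, q2, q3, q4, q5⟩ := hall (single k₀ (code a)) (code l) []
    have r1 := p02_pop (K := K) (fun _ => []) true (code l ++ (code a ++ u)) []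
    have ec : true :: (code l ++ (code a ++ u)) = code (l, a) ++ u := by
      rw [c04_code]
    rw [ec, ← p02_single] at r1
    have r2 := p02_take (K := K) l (fun _ => []) (code a ++ u)
    have r3 := p02_to (K := K) (fun _ => []) (code a ++ u) (code l).reverse (Sum.inr false) rfl
    rw [List.reverse_reverse, List.length_reverse, length_code] at r3
    have r4 := p02_take (K := K) a (update (fun _ => []) (Sum.inr false) (code l)) u
    have r5 := p02_to (K := K) (update (fun _ => []) (Sum.inr false) (code l)) u
      (code a).reverse (Sum.inl k₀) (by rw [update_of_ne (by simp)])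
    rw [List.reverse_reverse, List.length_reverse, length_code] at r5
    have e5 : update (update (fun _ => []) (Sum.inr false) (code l) : St (K ⊕ Bool)) (Sum.inl k₀)
        (code a) = cst (single k₀ (code a)) (code l) [] := by
      funext x
      rcases x with x | x
      · by_cases hx : x = k₀
        · subst hx
          rw [update_self]
          show code a = single x (code a) x
          rw [single_self]
        · rw [update_of_ne (by simpa using hx), update_of_ne (by simp)]
          show [] = single k₀ (code a) x
          rw [single_ne hx]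
      · rw [update_of_ne (by simp)]
        cases x
        · rw [update_self]
          rfl
        · rw [update_of_ne (by simp)]
          rfl
    rw [e5] at r5
    have r6 := p02_map q4 u []
    have hS' : ∀ k, (S' k).length ≤ size a + size l := by
      intro k
      have h1 := q3 k
      have h2 : (single k₀ (code a) k).length ≤ size a := by
        by_cases hk : k = k₀
        · subst hk
          rw [single_self, length_code]
        · rw [single_ne hk]
          simp
      rw [length_code] at h1
      omega
    rw [length_code] at q1 q2
    have hq2 : τ ≤ C₂ * (size l + size a + 1) :=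
      q2.trans (Nat.mul_le_mul_left _ (by omega))
    have hbound : ∀ A B : ℕ, A ≤ C₂ * (size l + size a + 1) →
        B ≤ 2 * N * (size l + size a + 1) + 60 * (size l + size a + 1) →
        A + B ≤ (C₂ + 2 * N + 60) * (size l + size a + 1) := by
      intro A B h1 h2
      have e : (C₂ + 2 * N + 60) * (size l + size a + 1) = C₂ * (size l + size a + 1) +
        (2 * N * (size l + size a + 1) + 60 * (size l + size a + 1)) := by ring
      rw [e]
      omega
    by_cases hc : c' = []
    · -- the clock is empty
      have hg : g (l, a) = none := by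
        apply if_neg
        rintro ⟨S2, c2, τ2, hne, hrun⟩
        have h1 := run_det q4 hrun
        have h2 := congrFun h1 (Sum.inr false)
        apply hne
        have h3 : c' = c2 := h2
        rw [← h3, hc]
      have hks : ∀ x ∈ ks, (p02_st (cst S' [] []) u [] x).length ≤ size a + size l := by
        intro x hx
        obtain ⟨k, _, rfl⟩ := List.mem_map.1 hx
        exact hS' k
      obtain ⟨τc, s7, hτc, r7, e7a, e7b⟩ :=
        p02_run_clr (size a + size l) ks (p02_st (cst S' [] []) u []) hks
      have e7 : s7 = p02_st (K := K) (fun _ => []) u [] := by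
        funext x
        rcases x with (x | x) | x
        · rw [e7a _ (List.mem_map.2 ⟨x, Finset.mem_toList.2 (Finset.mem_univ x), rfl⟩)]
          rfl
        · rw [e7b]
          · cases x <;> rfl
          · intro h1
            obtain ⟨k, _, h2⟩ := List.mem_map.1 h1
            simp at h2
        · rw [e7b]
          · rfl
          · intro h1
            obtain ⟨k, _, h2⟩ := List.mem_map.1 h1
            simp at h2
      rw [e7] at r7
      have r8 := p02_push (K := K) (fun _ => []) u [] false
      have e8 : false :: u = code (g (l, a)) ++ u := by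
        rw [hg]
        rfl
      rw [e8, ← p02_single (code (g (l, a)) ++ u)] at r8
      rw [hc] at r6
      refine ⟨_, ?_, .seq r1 (.seq r2 (.seq r3 (.seq r4 (.seq r5 (.seq r6
        (.iteF (by rfl) (.seq r7 r8)))))))⟩
      show 1 + (5 * size l + 2 + (4 * size l + 1 + (5 * size a + 2 + (4 * size a + 1 +
        (τ + (τc + 1 + 1)))))) ≤ (C₂ + 2 * N + 60) * (size l + size a + 1)
      have hl : ks.length = N := by
        rw [List.length_map]
      have hτc' : τc ≤ 2 * N * (size l + size a + 1) + 1 := by
        refine hτc.trans ?_
        rw [hl]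
        have e9 : 2 * N * (size l + size a + 1) + 1 =
          N * (2 * (size a + size l) + 1) + 1 + N := by ring
        omega
      have := hbound τ (1 + (5 * size l + 2 + (4 * size l + 1 + (5 * size a + 2 + (4 * size a + 1 +
        (τc + 1 + 1)))))) hq2 (by omega)
      omega
    · -- the clock is not empty
      have hg : g (l, a) = some (f a) := if_pos ⟨S', c', τ, hc, q4⟩
      obtain ⟨t1, ht1⟩ := q5.resolve_left hc
      obtain ⟨t2, _, ht2⟩ := hP a []
      rw [List.append_nil, List.append_nil] at ht2
      have hSe : S' = single k₀ (code (f a)) := run_det ht1 ht2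
      subst hSe
      have hfa : size (f a) ≤ size a + size l := by
        have h1 := hS' k₀
        rwa [single_self, length_code] at h1
      have r7 := p02_clear (K := K) (cst (single k₀ (code (f a))) c' []) u [] (Sum.inr false)
      have r8 := p02_push (K := K) (update (cst (single k₀ (code (f a))) c' []) (Sum.inr false) [])
        u [] false
      have r9 := p02_from (K := K) (update (cst (single k₀ (code (f a))) c' []) (Sum.inr false) [])
        (false :: u) (Sum.inl k₀)
      have e9 : update (cst (single k₀ (code (f a))) c' []) (Sum.inr false) [] (Sum.inl k₀) =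
          code (f a) := by
        rw [update_of_ne (by simp)]
        show single k₀ (code (f a)) k₀ = code (f a)
        rw [single_self]
      have e9' : update (update (cst (single k₀ (code (f a))) c' []) (Sum.inr false) [])
          (Sum.inl k₀) [] = (fun _ => []) := by
        rw [p01_upc, p01_ups]
        funext x
        rcases x with x | x
        · show update (single k₀ (code (f a))) k₀ [] x = []
          by_cases hx : x = k₀
          · subst hx
            rw [update_self]
          · rw [update_of_ne hx, single_ne hx]
        · cases x <;> rfl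
      rw [e9, e9', length_code] at r9
      have r10 := p02_back (K := K) (fun _ => []) (false :: u) (code (f a)).reverse
      rw [List.reverse_reverse, List.length_reverse, length_code] at r10
      have r11 := p02_push (K := K) (fun _ => []) (code (f a) ++ false :: u) [] true
      have e11 : true :: (code (f a) ++ false :: u) = code (g (l, a)) ++ u := by
        rw [hg]
        have h1 : code (some (f a)) = true :: (code (f a) ++ [false]) := by
          simp [code, BT.ser]
        rw [h1, List.cons_append, List.append_assoc]
        rfl
      rw [e11, ← p02_single (code (g (l, a)) ++ u)] at r11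
      have hne : ne (p02_st (cst (single k₀ (code (f a))) c' []) u [] yc).head? = true := by
        show ne c'.head? = true
        cases c' with
        | nil => exact absurd rfl hc
        | cons x c' => rfl
      refine ⟨_, ?_, .seq r1 (.seq r2 (.seq r3 (.seq r4 (.seq r5 (.seq r6
        (.iteT hne (.seq r7 (.seq r8 (.seq r9 (.seq r10 r11))))))))))⟩
      show 1 + (5 * size l + 2 + (4 * size l + 1 + (5 * size a + 2 + (4 * size a + 1 +
        (τ + (2 * c'.length + 1 + (1 + (4 * size (f a) + 1 + (4 * size (f a) + 1 + 1))) + 1)))))) ≤
        (C₂ + 2 * N + 60) * (size l + size a + 1)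
      have := hbound τ (1 + (5 * size l + 2 + (4 * size l + 1 + (5 * size a + 2 + (4 * size a + 1 +
        (2 * c'.length + 1 + (1 + (4 * size (f a) + 1 + (4 * size (f a) + 1 + 1))) + 1)))))) hq2
        (by
          have h0 : 0 ≤ 2 * N * (size l + size a + 1) := Nat.zero_le _
          omega)
      omega
  · intro x
    by_cases hx : good x
    · exact Or.inr (if_pos hx)
    · exact Or.inl (if_neg hx)
  · intro x hx
    apply if_pos
    obtain ⟨t, ht, hrun⟩ := hP x.2 []
    rw [List.append_nil, List.append_nil] at hrun
    have h1 := hlen x.1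
    have h2 : (C₁ + 1) * (T x.2 + 1) = C₁ * (T x.2 + 1) + (T x.2 + 1) := by ring
    obtain ⟨c', τ, h3, _, h5⟩ := clk_ok hrun (code x.1) [] (by rw [length_code]; omega)
    refine ⟨_, c', τ, ?_, h5⟩
    rintro rfl
    rw [length_code, List.length_nil] at h3
    omega

end Pool.Agent.WPR
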