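import Pool.Agent.Lib.MP_2da099_lc.R2.Defs
import Pool.Agent.Lib.MP_2da099_lc.C05
import Pool.Agent.Lib.MP_2da099_lc.C06

/-!
# P03: folds over zippers, one action

The cost of one round is the cost of the action and of the two cells, NOT of the whole lists, because
the two lists are kept on stacks of their own.

HINTS.  Model: `C06.lean` (`c06_loop`, `CT.foldl`) and `c05_join` in `C05.lean` (it puts the programs of two
functions on the same stacks with the same main stack).  Stacks: those of the programs, `I` (rest of the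
instructions, `code l`), `L` (`code` of the left list), `R` (`code` of the right list), two auxiliary ones.
Invariant: main `code s ++ u`, `I = code l`, `L = code left`, `R = code right`.  A round (while the top of
`I` is `true`): pop `I`, `takeTree` the code of `a` off `I`, move it to the main stack, push `true`
(main = `code (a, s) ++ u`); run `act`; look at the tag of the sum (`encSum`, `More.lean` line 250 ff.):
`inl`: remove the tag; `inr`: remove the tag, read the Boolean `b` (its code is a fixed list of bits, see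
`encBool` in `Ctrl.lean`), now main = `code (c, r) ++ u`: pop, `takeTree` the code of `c` and move it on top
of `L` (for `b = true`), push `true` there (this is `code (c :: left)`); then if the top of `R` is `true`
pop it and `takeTree` the first cell off `R`, else take `code dflt` (`pushList`); move it to the main stack,
push `true` (main = `code (cell, r) ++ u`), run `inn`.  For `b = false` the same with `L` and `R` exchanged.
Time of a round at most `C * (size a + acost + 1)`.
Induction on `l`.  The end: main `code s'`, `L`, `R` are put together: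
`true :: (code s' ++ true :: (code left ++ code right))`; their lengths are at most `size x.2` plus the time
(`Run.length_le`), so this costs `O(size x + total cost)`.  At the beginning the main stack
`true :: (code l ++ true :: (code s ++ true :: (code left ++ (code right ++ u))))` is distributed.
-/

set_option autoImplicit false

namespace Pool.Agent.WPR

open Pool.Agent.Lib.PolyTime Pool.Agent.WPM Function

/-- One step of a zipper machine with one action. -/
def astep {ι σ ρ γ : Type} (act : ι × σ → σ ⊕ (Bool × (γ × ρ))) (inn : γ × ρ → σ) (dflt : γ) (a : ι)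
    (x : σ × (List γ × List γ)) : σ × (List γ × List γ) :=
  match act (a, x.1) with
  | Sum.inl s => (s, x.2)
  | Sum.inr (true, c) => (inn (x.2.2.headD dflt, c.2), (c.1 :: x.2.1, x.2.2.tail))
  | Sum.inr (false, c) => (inn (x.2.1.headD dflt, c.2), (x.2.1.tail, c.1 :: x.2.2))

/-- Its cost. -/
def acost {ι σ ρ γ : Type} [Enc γ] (act : ι × σ → σ ⊕ (Bool × (γ × ρ))) (dflt : γ)
    (T1 : ι × σ → ℕ) (T2 : γ × ρ → ℕ) (a : ι) (x : σ × (List γ × List γ)) : ℕ :=
  match act (a, x.1) with
  | Sum.inl _ => T1 (a, x.1)
  | Sum.inr (true, c) => T1 (a, x.1) + size c.1 + size (x.2.2.headD dflt) +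
      T2 (x.2.2.headD dflt, c.2)
  | Sum.inr (false, c) => T1 (a, x.1) + size c.1 + size (x.2.1.headD dflt) +
      T2 (x.2.1.headD dflt, c.2)

section

variable {K : Type} [DecidableEq K]

/-- main stack `m`, instructions `I`, left and right list `L`, `R`, auxiliary stacks `t`, `d` -/
def p03_st (k : K) (m I L R t d : List Bool) : St (K ⊕ Fin 6) := fun x => match x with
  | Sum.inl y => if y = k then m else []
  | Sum.inr i => if i = 0 then I else if i = 1 then L else if i = 2 then R else
      if i = 3 then t else if i = 5 then d else []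

theorem p03_um (k : K) (m I L R t d m' : List Bool) :
    update (p03_st k m I L R t d) (Sum.inl k) m' = p03_st k m' I L R t d := by
  funext x
  rcases x with x | x
  · by_cases h : x = k
    · subst h
      rw [update_self]
      show m' = if x = x then m' else []
      rw [if_pos rfl]
    · rw [update_of_ne (by simpa using h)]
      show (if x = k then m else []) = if x = k then m' else []
      rw [if_neg h, if_neg h]
  · rw [update_of_ne (by simp)]
    rfl

theorem p03_uI (k : K) (m I L R t d w : List Bool) :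
    update (p03_st k m I L R t d) (Sum.inr 0) w = p03_st k m w L R t d := by
  funext x
  rcases x with x | x
  · rw [update_of_ne (by simp)]
    rfl
  · fin_cases x <;> rfl

theorem p03_uL (k : K) (m I L R t d w : List Bool) :
    update (p03_st k m I L R t d) (Sum.inr 1) w = p03_st k m I w R t d := by
  funext x
  rcases x with x | x
  · rw [update_of_ne (by simp)]
    rfl
  · fin_cases x <;> rfl

theorem p03_uR (k : K) (m I L R t d w : List Bool) :
    update (p03_st k m I L R t d) (Sum.inr 2) w = p03_st k m I L w t d := by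
  funext x
  rcases x with x | x
  · rw [update_of_ne (by simp)]
    rfl
  · fin_cases x <;> rfl

theorem p03_ut (k : K) (m I L R t d w : List Bool) :
    update (p03_st k m I L R t d) (Sum.inr 3) w = p03_st k m I L R w d := by
  funext x
  rcases x with x | x
  · rw [update_of_ne (by simp)]
    rfl
  · fin_cases x <;> rfl

theorem p03_ud (k : K) (m I L R t d w : List Bool) :
    update (p03_st k m I L R t d) (Sum.inr 5) w = p03_st k m I L R t w := by
  funext x
  rcases x with x | x
  · rw [update_of_ne (by simp)]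
    rfl
  · fin_cases x <;> rfl

theorem p03_m (k : K) (m I L R t d : List Bool) : p03_st k m I L R t d (Sum.inl k) = m :=
  if_pos rfl

theorem p03_single (k : K) (m : List Bool) :
    single (Sum.inl k : K ⊕ Fin 6) m = p03_st k m [] [] [] [] [] := by
  funext x
  rcases x with x | x
  · by_cases h : x = k
    · subst h
      rw [single_self, p03_m]
    · rw [single_ne (by simpa using h)]
      show [] = if x = k then m else []
      rw [if_neg h]
  · rw [single_ne (by simp)]
    fin_cases x <;> rfl

theorem p03_take_m {α : Type} [Enc α] (a : α) (k : K) (w I L R d : List Bool) :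
    Run (takeTree (Sum.inl k) (Sum.inr 3) (Sum.inr 4)) (p03_st k (code a ++ w) I L R [] d)
      (p03_st k w I L R (code a).reverse d) (5 * size a + 2) := by
  have h := run_takeTree (a := (Sum.inl k : K ⊕ Fin 6)) (b := Sum.inr 3) (c := Sum.inr 4)
    (by simp) (by simp) (by simp) (enc a) (p03_st k (code a ++ w) I L R [] d) w
    (p03_m _ _ _ _ _ _ _) rfl
  rw [p03_um, p03_ut] at h
  have e : (enc a).ser.reverse ++ p03_st k (code a ++ w) I L R [] d (Sum.inr 3) =
      (code a).reverse := List.append_nil _
  rw [e] at h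
  exact h

theorem p03_take_I {α : Type} [Enc α] (a : α) (k : K) (w m L R d : List Bool) :
    Run (takeTree (Sum.inr 0) (Sum.inr 3) (Sum.inr 4)) (p03_st k m (code a ++ w) L R [] d)
      (p03_st k m w L R (code a).reverse d) (5 * size a + 2) := by
  have h := run_takeTree (a := (Sum.inr 0 : K ⊕ Fin 6)) (b := Sum.inr 3) (c := Sum.inr 4)
    (by simp) (by simp) (by simp) (enc a) (p03_st k m (code a ++ w) L R [] d) w rfl rfl
  rw [p03_uI, p03_ut] at h
  have e : (enc a).ser.reverse ++ p03_st k m (code a ++ w) L R [] d (Sum.inr 3) =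
      (code a).reverse := List.append_nil _
  rw [e] at h
  exact h

theorem p03_take_L {α : Type} [Enc α] (a : α) (k : K) (w m I R d : List Bool) :
    Run (takeTree (Sum.inr 1) (Sum.inr 3) (Sum.inr 4)) (p03_st k m I (code a ++ w) R [] d)
      (p03_st k m I w R (code a).reverse d) (5 * size a + 2) := by
  have h := run_takeTree (a := (Sum.inr 1 : K ⊕ Fin 6)) (b := Sum.inr 3) (c := Sum.inr 4)
    (by simp) (by simp) (by simp) (enc a) (p03_st k m I (code a ++ w) R [] d) w rfl rfl
  rw [p03_uL, p03_ut] at h
  have e : (enc a).ser.reverse ++ p03_st k m I (code a ++ w) R [] d (Sum.inr 3) =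
      (code a).reverse := List.append_nil _
  rw [e] at h
  exact h

theorem p03_take_R {α : Type} [Enc α] (a : α) (k : K) (w m I L d : List Bool) :
    Run (takeTree (Sum.inr 2) (Sum.inr 3) (Sum.inr 4)) (p03_st k m I L (code a ++ w) [] d)
      (p03_st k m I L w (code a).reverse d) (5 * size a + 2) := by
  have h := run_takeTree (a := (Sum.inr 2 : K ⊕ Fin 6)) (b := Sum.inr 3) (c := Sum.inr 4)
    (by simp) (by simp) (by simp) (enc a) (p03_st k m I L (code a ++ w) [] d) w rfl rfl
  rw [p03_uR, p03_ut] at h
  have e : (enc a).ser.reverse ++ p03_st k m I L (code a ++ w) [] d (Sum.inr 3) =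
      (code a).reverse := List.append_nil _
  rw [e] at h
  exact h

theorem p03_to_m (k : K) (m I L R v d : List Bool) :
    Run (mv (Sum.inr 3) (Sum.inl k)) (p03_st k m I L R v.reverse d)
      (p03_st k (v ++ m) I L R [] d) (4 * v.length + 1) := by
  have h := run_mv (a := (Sum.inr 3 : K ⊕ Fin 6)) (b := Sum.inl k) (by simp) v.reverse
    (p03_st k m I L R v.reverse d) rfl
  rw [p03_ut, p03_um, p03_m, List.reverse_reverse, List.length_reverse] at h
  exact h

theorem p03_to_I (k : K) (m I L R v d : List Bool) :
    Run (mv (Sum.inr 3) (Sum.inr 0)) (p03_st k m I L R v.reverse d)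
      (p03_st k m (v ++ I) L R [] d) (4 * v.length + 1) := by
  have h := run_mv (a := (Sum.inr 3 : K ⊕ Fin 6)) (b := Sum.inr 0) (by simp) v.reverse
    (p03_st k m I L R v.reverse d) rfl
  rw [p03_ut, p03_uI, List.reverse_reverse, List.length_reverse] at h
  exact h

theorem p03_to_L (k : K) (m I L R v d : List Bool) :
    Run (mv (Sum.inr 3) (Sum.inr 1)) (p03_st k m I L R v.reverse d)
      (p03_st k m I (v ++ L) R [] d) (4 * v.length + 1) := by
  have h := run_mv (a := (Sum.inr 3 : K ⊕ Fin 6)) (b := Sum.inr 1) (by simp) v.reverse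
    (p03_st k m I L R v.reverse d) rfl
  rw [p03_ut, p03_uL, List.reverse_reverse, List.length_reverse] at h
  exact h

theorem p03_to_R (k : K) (m I L R v d : List Bool) :
    Run (mv (Sum.inr 3) (Sum.inr 2)) (p03_st k m I L R v.reverse d)
      (p03_st k m I L (v ++ R) [] d) (4 * v.length + 1) := by
  have h := run_mv (a := (Sum.inr 3 : K ⊕ Fin 6)) (b := Sum.inr 2) (by simp) v.reverse
    (p03_st k m I L R v.reverse d) rfl
  rw [p03_ut, p03_uR, List.reverse_reverse, List.length_reverse] at h
  exact h

theorem p03_to_d (k : K) (m I L R v d : List Bool) :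
    Run (mv (Sum.inr 3) (Sum.inr 5)) (p03_st k m I L R v.reverse d)
      (p03_st k m I L R [] (v ++ d)) (4 * v.length + 1) := by
  have h := run_mv (a := (Sum.inr 3 : K ⊕ Fin 6)) (b := Sum.inr 5) (by simp) v.reverse
    (p03_st k m I L R v.reverse d) rfl
  rw [p03_ut, p03_ud, List.reverse_reverse, List.length_reverse] at h
  exact h

theorem p03_from_L (k : K) (m I L R d : List Bool) :
    Run (mv (Sum.inr 1) (Sum.inr 3)) (p03_st k m I L R [] d)
      (p03_st k m I [] R L.reverse d) (4 * L.length + 1) := by
  have h := run_mv (a := (Sum.inr 1 : K ⊕ Fin 6)) (b := Sum.inr 3) (by simp) L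
    (p03_st k m I L R [] d) rfl
  rw [p03_uL, p03_ut] at h
  have e : L.reverse ++ p03_st k m I L R [] d (Sum.inr 3) = L.reverse := List.append_nil _
  rw [e] at h
  exact h

theorem p03_from_R (k : K) (m I L R d : List Bool) :
    Run (mv (Sum.inr 2) (Sum.inr 3)) (p03_st k m I L R [] d)
      (p03_st k m I L [] R.reverse d) (4 * R.length + 1) := by
  have h := run_mv (a := (Sum.inr 2 : K ⊕ Fin 6)) (b := Sum.inr 3) (by simp) R
    (p03_st k m I L R [] d) rfl
  rw [p03_uR, p03_ut] at h
  have e : R.reverse ++ p03_st k m I L R [] d (Sum.inr 3) = R.reverse := List.append_nil _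
  rw [e] at h
  exact h

theorem p03_from_d (k : K) (m I L R d : List Bool) :
    Run (mv (Sum.inr 5) (Sum.inr 3)) (p03_st k m I L R [] d)
      (p03_st k m I L R d.reverse []) (4 * d.length + 1) := by
  have h := run_mv (a := (Sum.inr 5 : K ⊕ Fin 6)) (b := Sum.inr 3) (by simp) d
    (p03_st k m I L R [] d) rfl
  rw [p03_ud, p03_ut] at h
  have e : d.reverse ++ p03_st k m I L R [] d (Sum.inr 3) = d.reverse := List.append_nil _
  rw [e] at h
  exact h

theorem p03_pop_m (k : K) (b : Bool) (m I L R t d : List Bool) :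
    Run (.pop (Sum.inl k)) (p03_st k (b :: m) I L R t d) (p03_st k m I L R t d) 1 := by
  have h := Run.pop (Sum.inl k) (p03_st k (b :: m) I L R t d)
  rw [p03_um, p03_m] at h
  exact h

theorem p03_push_m (k : K) (b : Bool) (m I L R t d : List Bool) :
    Run (.push (Sum.inl k) b) (p03_st k m I L R t d) (p03_st k (b :: m) I L R t d) 1 := by
  have h := Run.push (Sum.inl k) b (p03_st k m I L R t d)
  rw [p03_um, p03_m] at h
  exact h

theorem p03_pop_I (k : K) (b : Bool) (m I L R t d : List Bool) :
    Run (.pop (Sum.inr 0)) (p03_st k m (b :: I) L R t d) (p03_st k m I L R t d) 1 := by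
  have h := Run.pop (Sum.inr 0) (p03_st k m (b :: I) L R t d)
  rw [p03_uI] at h
  exact h

theorem p03_pop_L (k : K) (b : Bool) (m I L R t d : List Bool) :
    Run (.pop (Sum.inr 1)) (p03_st k m I (b :: L) R t d) (p03_st k m I L R t d) 1 := by
  have h := Run.pop (Sum.inr 1) (p03_st k m I (b :: L) R t d)
  rw [p03_uL] at h
  exact h

theorem p03_pop_R (k : K) (b : Bool) (m I L R t d : List Bool) :
    Run (.pop (Sum.inr 2)) (p03_st k m I L (b :: R) t d) (p03_st k m I L R t d) 1 := by
  have h := Run.pop (Sum.inr 2) (p03_st k m I L (b :: R) t d)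
  rw [p03_uR] at h
  exact h

theorem p03_push_L (k : K) (b : Bool) (m I L R t d : List Bool) :
    Run (.push (Sum.inr 1) b) (p03_st k m I L R t d) (p03_st k m I (b :: L) R t d) 1 := by
  have h := Run.push (Sum.inr 1) b (p03_st k m I L R t d)
  rw [p03_uL] at h
  exact h

theorem p03_push_R (k : K) (b : Bool) (m I L R t d : List Bool) :
    Run (.push (Sum.inr 2) b) (p03_st k m I L R t d) (p03_st k m I L (b :: R) t d) 1 := by
  have h := Run.push (Sum.inr 2) b (p03_st k m I L R t d)
  rw [p03_uR] at h
  exact h

theorem p03_list_m (k : K) (w m I L R t d : List Bool) :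
    Run (pushList (Sum.inl k) w) (p03_st k m I L R t d) (p03_st k (w ++ m) I L R t d)
      (w.length + 1) := by
  have h := run_pushList (Sum.inl k : K ⊕ Fin 6) w (p03_st k m I L R t d)
  rw [p03_um, p03_m] at h
  exact h

theorem p03_map {P : Prog K} {k : K} {w w' : List Bool} {τ : ℕ}
    (h : Run P (single k w) (single k w') τ) (I L R t d : List Bool) :
    Run (P.map (Sum.inl : K → K ⊕ Fin 6)) (p03_st k w I L R t d) (p03_st k w' I L R t d) τ := by
  have h1 := embed h (Sum.inl : K → K ⊕ Fin 6) Sum.inl_injective (p03_st k w I L R t d)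
    (p03_m _ _ _ _ _ _ _) (fun y hy => if_neg hy)
  rw [p03_um] at h1
  exact h1

/-- The new cell is put on the stack `X` and a cell is taken from the stack `Y`; the main stack contains
the code of a pair. -/
def p03_move {γ : Type} [Enc γ] (k : K) (dflt : γ) (X Y : Fin 6) (Q : Prog K) : Prog (K ⊕ Fin 6) :=
  .seq (.pop (Sum.inl k)) (.seq (takeTree (Sum.inl k) (Sum.inr 3) (Sum.inr 4))
    (.seq (mv (Sum.inr 3) (Sum.inr X)) (.seq (.push (Sum.inr X) true)
    (.seq (.ite (Sum.inr Y) isT (.seq (.pop (Sum.inr Y)) (.seq (takeTree (Sum.inr Y) (Sum.inr 3)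
      (Sum.inr 4)) (mv (Sum.inr 3) (Sum.inl k)))) (pushList (Sum.inl k) (code dflt)))
    (.seq (.push (Sum.inl k) true) (Q.map Sum.inl))))))

/-- One round. -/
def p03_round {γ : Type} [Enc γ] (k : K) (dflt : γ) (P Q : Prog K) : Prog (K ⊕ Fin 6) :=
  .seq (.pop (Sum.inr 0)) (.seq (takeTree (Sum.inr 0) (Sum.inr 3) (Sum.inr 4))
    (.seq (mv (Sum.inr 3) (Sum.inl k)) (.seq (.push (Sum.inl k) true) (.seq (P.map Sum.inl)
    (.seq (.pop (Sum.inl k)) (.ite (Sum.inl k) isT
      (.seq (.pop (Sum.inl k)) (.seq (.pop (Sum.inl k)) (.seq (.pop (Sum.inl k))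
        (.seq (.pop (Sum.inl k)) (.ite (Sum.inl k) isT
          (.seq (.pop (Sum.inl k)) (.seq (.pop (Sum.inl k)) (.seq (.pop (Sum.inl k))
            (p03_move k dflt 1 2 Q))))
          (.seq (.pop (Sum.inl k)) (p03_move k dflt 2 1 Q)))))))
      (.pop (Sum.inl k))))))))

end

section

variable {ι σ ρ γ : Type} [Enc ι] [Enc σ] [Enc ρ] [Enc γ] {K : Type} [DecidableEq K]

theorem p03_run_moveL {inn : γ × ρ → σ} {T2 : γ × ρ → ℕ} (dflt : γ) {k : K} {Q : Prog K} {C : ℕ}
    (hQ : ∀ (b : γ × ρ) (u : List Bool), ∃ t, t ≤ C * (T2 b + 1) ∧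
        Run Q (single k (code b ++ u)) (single k (code (inn b) ++ u)) t)
    (c : γ × ρ) (u I : List Bool) (lft rgt : List γ) :
    ∃ τ, τ ≤ (C + (code dflt).length + 60) * (size c.1 + size (rgt.headD dflt) +
      T2 (rgt.headD dflt, c.2) + 1) ∧
      Run (p03_move k dflt 1 2 Q) (p03_st k (code c ++ u) I (code lft) (code rgt) [] [])
        (p03_st k (code (inn (rgt.headD dflt, c.2)) ++ u) I (code (c.1 :: lft))
          (code rgt.tail) [] []) τ := by
  obtain ⟨g, r⟩ := c
  obtain ⟨τ, hτ, hrun⟩ := hQ (rgt.headD dflt, r) u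
  have s1 := p03_pop_m k true (code g ++ (code r ++ u)) I (code lft) (code rgt) [] []
  rw [show true :: (code g ++ (code r ++ u)) = code (g, r) ++ u by rw [c04_code]] at s1
  have s2 := p03_take_m g k (code r ++ u) I (code lft) (code rgt) []
  have s3 := p03_to_L k (code r ++ u) I (code lft) (code rgt) (code g) []
  have s4 := p03_push_L k true (code r ++ u) I (code g ++ code lft) (code rgt) [] []
  rw [show true :: (code g ++ code lft) = code (g :: lft) from rfl] at s4
  have s6 := p03_push_m k true (code (rgt.headD dflt) ++ (code r ++ u)) I (code (g :: lft))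
    (code rgt.tail) [] []
  rw [show true :: (code (rgt.headD dflt) ++ (code r ++ u)) = code (rgt.headD dflt, r) ++ u by
    rw [c04_code]] at s6
  have s7 := p03_map hrun I (code (g :: lft)) (code rgt.tail) [] []
  have s5 : ∃ τ5, τ5 ≤ 9 * size (rgt.headD dflt) + (code dflt).length + 5 ∧
      Run (.ite (Sum.inr 2) isT (.seq (.pop (Sum.inr 2)) (.seq (takeTree (Sum.inr 2) (Sum.inr 3)
      (Sum.inr 4)) (mv (Sum.inr 3) (Sum.inl k)))) (pushList (Sum.inl k) (code dflt)))
      (p03_st k (code r ++ u) I (code (g :: lft)) (code rgt) [] [])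
      (p03_st k (code (rgt.headD dflt) ++ (code r ++ u)) I (code (g :: lft))
        (code rgt.tail) [] []) τ5 := by
    cases rgt with
    | nil =>
      exact ⟨(code dflt).length + 1 + 1, by omega, .iteF (by rfl) (p03_list_m k (code dflt) _ _ _ _ _ _)⟩
    | cons b rgt =>
      have a1 := p03_pop_R k true (code r ++ u) I (code (g :: lft)) (code b ++ code rgt) [] []
      rw [show true :: (code b ++ code rgt) = code (b :: rgt) from rfl] at a1
      have a2 := p03_take_R b k (code rgt) (code r ++ u) I (code (g :: lft)) []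
      have a3 := p03_to_m k (code r ++ u) I (code (g :: lft)) (code rgt) (code b) []
      rw [length_code] at a3
      refine ⟨_, ?_, .iteT (by rfl) (.seq a1 (.seq a2 a3))⟩
      show 1 + (5 * size b + 2 + (4 * size b + 1)) + 1 ≤ 9 * size b + (code dflt).length + 5
      omega
  obtain ⟨τ5, hτ5, s5⟩ := s5
  rw [length_code] at s3
  refine ⟨_, ?_, .seq s1 (.seq s2 (.seq s3 (.seq s4 (.seq s5 (.seq s6 s7)))))⟩
  show _ ≤ (C + (code dflt).length + 60) * (size g + size (rgt.headD dflt) +
      T2 (rgt.headD dflt, r) + 1)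
  have e : (C + (code dflt).length + 60) * (size g + size (rgt.headD dflt) +
      T2 (rgt.headD dflt, r) + 1) = C * (T2 (rgt.headD dflt, r) + 1) +
      C * (size g + size (rgt.headD dflt)) +
      (code dflt).length * (size g + size (rgt.headD dflt) + T2 (rgt.headD dflt, r) + 1) +
      60 * (size g + size (rgt.headD dflt) + T2 (rgt.headD dflt, r) + 1) := by ring
  have e2 : (code dflt).length ≤ (code dflt).length *
      (size g + size (rgt.headD dflt) + T2 (rgt.headD dflt, r) + 1) :=
    Nat.le_mul_of_pos_right _ (by omega)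
  rw [e]
  omega

theorem p03_run_moveR {inn : γ × ρ → σ} {T2 : γ × ρ → ℕ} (dflt : γ) {k : K} {Q : Prog K} {C : ℕ}
    (hQ : ∀ (b : γ × ρ) (u : List Bool), ∃ t, t ≤ C * (T2 b + 1) ∧
        Run Q (single k (code b ++ u)) (single k (code (inn b) ++ u)) t)
    (c : γ × ρ) (u I : List Bool) (lft rgt : List γ) :
    ∃ τ, τ ≤ (C + (code dflt).length + 60) * (size c.1 + size (lft.headD dflt) +
      T2 (lft.headD dflt, c.2) + 1) ∧
      Run (p03_move k dflt 2 1 Q) (p03_st k (code c ++ u) I (code lft) (code rgt) [] [])
        (p03_st k (code (inn (lft.headD dflt, c.2)) ++ u) I (code lft.tail)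
          (code (c.1 :: rgt)) [] []) τ := by
  obtain ⟨g, r⟩ := c
  obtain ⟨τ, hτ, hrun⟩ := hQ (lft.headD dflt, r) u
  have s1 := p03_pop_m k true (code g ++ (code r ++ u)) I (code lft) (code rgt) [] []
  rw [show true :: (code g ++ (code r ++ u)) = code (g, r) ++ u by rw [c04_code]] at s1
  have s2 := p03_take_m g k (code r ++ u) I (code lft) (code rgt) []
  have s3 := p03_to_R k (code r ++ u) I (code lft) (code rgt) (code g) []
  have s4 := p03_push_R k true (code r ++ u) I (code lft) (code g ++ code rgt) [] []
  rw [show true :: (code g ++ code rgt) = code (g :: rgt) from rfl] at s4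
  have s6 := p03_push_m k true (code (lft.headD dflt) ++ (code r ++ u)) I (code lft.tail)
    (code (g :: rgt)) [] []
  rw [show true :: (code (lft.headD dflt) ++ (code r ++ u)) = code (lft.headD dflt, r) ++ u by
    rw [c04_code]] at s6
  have s7 := p03_map hrun I (code lft.tail) (code (g :: rgt)) [] []
  have s5 : ∃ τ5, τ5 ≤ 9 * size (lft.headD dflt) + (code dflt).length + 5 ∧
      Run (.ite (Sum.inr 1) isT (.seq (.pop (Sum.inr 1)) (.seq (takeTree (Sum.inr 1) (Sum.inr 3)
      (Sum.inr 4)) (mv (Sum.inr 3) (Sum.inl k)))) (pushList (Sum.inl k) (code dflt)))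
      (p03_st k (code r ++ u) I (code lft) (code (g :: rgt)) [] [])
      (p03_st k (code (lft.headD dflt) ++ (code r ++ u)) I (code lft.tail)
        (code (g :: rgt)) [] []) τ5 := by
    cases lft with
    | nil =>
      exact ⟨(code dflt).length + 1 + 1, by omega, .iteF (by rfl) (p03_list_m k (code dflt) _ _ _ _ _ _)⟩
    | cons b lft =>
      have a1 := p03_pop_L k true (code r ++ u) I (code b ++ code lft) (code (g :: rgt)) [] []
      rw [show true :: (code b ++ code lft) = code (b :: lft) from rfl] at a1
      have a2 := p03_take_L b k (code lft) (code r ++ u) I (code (g :: rgt)) []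
      have a3 := p03_to_m k (code r ++ u) I (code lft) (code (g :: rgt)) (code b) []
      rw [length_code] at a3
      refine ⟨_, ?_, .iteT (by rfl) (.seq a1 (.seq a2 a3))⟩
      show 1 + (5 * size b + 2 + (4 * size b + 1)) + 1 ≤ 9 * size b + (code dflt).length + 5
      omega
  obtain ⟨τ5, hτ5, s5⟩ := s5
  rw [length_code] at s3
  refine ⟨_, ?_, .seq s1 (.seq s2 (.seq s3 (.seq s4 (.seq s5 (.seq s6 s7)))))⟩
  show _ ≤ (C + (code dflt).length + 60) * (size g + size (lft.headD dflt) +
      T2 (lft.headD dflt, r) + 1)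
  have e : (C + (code dflt).length + 60) * (size g + size (lft.headD dflt) +
      T2 (lft.headD dflt, r) + 1) = C * (T2 (lft.headD dflt, r) + 1) +
      C * (size g + size (lft.headD dflt)) +
      (code dflt).length * (size g + size (lft.headD dflt) + T2 (lft.headD dflt, r) + 1) +
      60 * (size g + size (lft.headD dflt) + T2 (lft.headD dflt, r) + 1) := by ring
  have e2 : (code dflt).length ≤ (code dflt).length *
      (size g + size (lft.headD dflt) + T2 (lft.headD dflt, r) + 1) :=
    Nat.le_mul_of_pos_right _ (by omega)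
  rw [e]
  omega

theorem p03_run_round {act : ι × σ → σ ⊕ (Bool × (γ × ρ))} {inn : γ × ρ → σ}
    {T1 : ι × σ → ℕ} {T2 : γ × ρ → ℕ} (dflt : γ) {k : K} {P Q : Prog K} {C : ℕ}
    (hP : ∀ (a : ι × σ) (u : List Bool), ∃ t, t ≤ C * (T1 a + 1) ∧
        Run P (single k (code a ++ u)) (single k (code (act a) ++ u)) t)
    (hQ : ∀ (b : γ × ρ) (u : List Bool), ∃ t, t ≤ C * (T2 b + 1) ∧
        Run Q (single k (code b ++ u)) (single k (code (inn b) ++ u)) t)
    (a : ι) (I u : List Bool) (x : σ × (List γ × List γ)) :
    ∃ τ, τ ≤ (2 * C + (code dflt).length + 100) * (size a + acost act dflt T1 T2 a x + 1) ∧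
      Run (p03_round k dflt P Q)
        (p03_st k (code x.1 ++ u) (true :: (code a ++ I)) (code x.2.1) (code x.2.2) [] [])
        (p03_st k (code (astep act inn dflt a x).1 ++ u) I (code (astep act inn dflt a x).2.1)
          (code (astep act inn dflt a x).2.2) [] []) τ := by
  obtain ⟨s, lft, rgt⟩ := x
  obtain ⟨τ1, hτ1, hrun⟩ := hP (a, s) u
  have s1 := p03_pop_I k true (code s ++ u) (code a ++ I) (code lft) (code rgt) [] []
  have s2 := p03_take_I a k I (code s ++ u) (code lft) (code rgt) []
  have s3 := p03_to_m k (code s ++ u) I (code lft) (code rgt) (code a) []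
  rw [length_code] at s3
  have s4 := p03_push_m k true (code a ++ (code s ++ u)) I (code lft) (code rgt) [] []
  rw [show true :: (code a ++ (code s ++ u)) = code (a, s) ++ u by rw [c04_code]] at s4
  have s5 := p03_map hrun I (code lft) (code rgt) [] []
  have hT : τ1 ≤ C * (T1 (a, s) + 1) := hτ1
  unfold astep acost
  cases hact : act (a, s) with
  | inl s' =>
    have e1 : code (act (a, s)) ++ u = true :: false :: (code s' ++ u) := by
      rw [hact]
      rfl
    rw [e1] at s5
    have s6 := p03_pop_m k true (false :: (code s' ++ u)) I (code lft) (code rgt) [] []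
    have s7 := p03_pop_m k false (code s' ++ u) I (code lft) (code rgt) [] []
    simp only
    refine ⟨_, ?_, .seq s1 (.seq s2 (.seq s3 (.seq s4 (.seq s5 (.seq s6
      (.iteF (by rw [p03_m]; rfl) s7))))))⟩
    have e : (2 * C + (code dflt).length + 100) * (size a + T1 (a, s) + 1) =
        C * (T1 (a, s) + 1) + C * size a + C * (size a + T1 (a, s) + 1) +
        (code dflt).length * (size a + T1 (a, s) + 1) + 100 * (size a + T1 (a, s) + 1) := by ring
    rw [e]
    omega
  | inr bc =>
    obtain ⟨b, c⟩ := bc
    have e1 : code (act (a, s)) ++ u = true :: true :: false :: false :: (code (b, c) ++ u) := by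
      rw [hact]
      rfl
    rw [e1, c04_code (b, c)] at s5
    simp only at s5
    have s6 := p03_pop_m k true (true :: false :: false :: (true :: (code b ++ (code c ++ u)))) I
      (code lft) (code rgt) [] []
    have s7 := p03_pop_m k true (false :: false :: (true :: (code b ++ (code c ++ u)))) I
      (code lft) (code rgt) [] []
    have s8 := p03_pop_m k false (false :: (true :: (code b ++ (code c ++ u)))) I
      (code lft) (code rgt) [] []
    have s9 := p03_pop_m k false (true :: (code b ++ (code c ++ u))) I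
      (code lft) (code rgt) [] []
    have s10 := p03_pop_m k true (code b ++ (code c ++ u)) I (code lft) (code rgt) [] []
    cases b with
    | true =>
      have e2 : code true ++ (code c ++ u) = true :: false :: false :: (code c ++ u) := by
        simp [code, BT.ser]
      rw [e2] at s5 s6 s7 s8 s9 s10
      have s11 := p03_pop_m k true (false :: false :: (code c ++ u)) I (code lft) (code rgt) [] []
      have s12 := p03_pop_m k false (false :: (code c ++ u)) I (code lft) (code rgt) [] []
      have s13 := p03_pop_m k false (code c ++ u) I (code lft) (code rgt) [] []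
      obtain ⟨τ2, hτ2, s14⟩ := p03_run_moveL dflt hQ c u I lft rgt
      simp only
      refine ⟨_, ?_, .seq s1 (.seq s2 (.seq s3 (.seq s4 (.seq s5 (.seq s6
        (.iteT (by rw [p03_m]; rfl) (.seq s7 (.seq s8 (.seq s9 (.seq s10
          (.iteT (by rw [p03_m]; rfl) (.seq s11 (.seq s12 (.seq s13 s14))))))))))))))⟩
      set D := (code dflt).length
      set A := size c.1 + size (rgt.headD dflt) + T2 (rgt.headD dflt, c.2)
      have e : (2 * C + D + 100) * (size a + (T1 (a, s) + size c.1 + size (rgt.headD dflt) +
          T2 (rgt.headD dflt, c.2)) + 1) =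
          C * (T1 (a, s) + 1) + (C + D + 60) * (A + 1) + C * (size a + A) +
          (C + D + 60) * (size a + T1 (a, s)) + 40 * (size a + T1 (a, s) + A + 1) := by
        simp only [A]
        ring
      rw [e]
      omega
    | false =>
      have e2 : code false ++ (code c ++ u) = false :: (code c ++ u) := by
        simp [code, BT.ser]
      rw [e2] at s5 s6 s7 s8 s9 s10
      have s11 := p03_pop_m k false (code c ++ u) I (code lft) (code rgt) [] []
      obtain ⟨τ2, hτ2, s14⟩ := p03_run_moveR dflt hQ c u I lft rgt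
      simp only
      refine ⟨_, ?_, .seq s1 (.seq s2 (.seq s3 (.seq s4 (.seq s5 (.seq s6
        (.iteT (by rw [p03_m]; rfl) (.seq s7 (.seq s8 (.seq s9 (.seq s10
          (.iteF (by rw [p03_m]; rfl) (.seq s11 s14))))))))))))⟩
      set D := (code dflt).length
      set A := size c.1 + size (lft.headD dflt) + T2 (lft.headD dflt, c.2)
      have e : (2 * C + D + 100) * (size a + (T1 (a, s) + size c.1 + size (lft.headD dflt) +
          T2 (lft.headD dflt, c.2)) + 1) =
          C * (T1 (a, s) + 1) + (C + D + 60) * (A + 1) + C * (size a + A) +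
          (C + D + 60) * (size a + T1 (a, s)) + 40 * (size a + T1 (a, s) + A + 1) := by
        simp only [A]
        ring
      rw [e]
      omega

theorem p03_run_loop {act : ι × σ → σ ⊕ (Bool × (γ × ρ))} {inn : γ × ρ → σ}
    {T1 : ι × σ → ℕ} {T2 : γ × ρ → ℕ} (dflt : γ) {k : K} {P Q : Prog K} {C : ℕ}
    (hP : ∀ (a : ι × σ) (u : List Bool), ∃ t, t ≤ C * (T1 a + 1) ∧
        Run P (single k (code a ++ u)) (single k (code (act a) ++ u)) t)
    (hQ : ∀ (b : γ × ρ) (u : List Bool), ∃ t, t ≤ C * (T2 b + 1) ∧
        Run Q (single k (code b ++ u)) (single k (code (inn b) ++ u)) t)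
    (u : List Bool) : ∀ (l : List ι) (x : σ × (List γ × List γ)),
    ∃ τ, τ ≤ (2 * C + (code dflt).length + 101) * (size l +
      foldCost (fun y : ι × (σ × (List γ × List γ)) => acost act dflt T1 T2 y.1 y.2)
        (fun y => astep act inn dflt y.1 y.2) l x) ∧
      Run (.loop (Sum.inr 0) isT (p03_round k dflt P Q))
        (p03_st k (code x.1 ++ u) (code l) (code x.2.1) (code x.2.2) [] [])
        (p03_st k (code (l.foldl (fun y a => astep act inn dflt a y) x).1 ++ u) [false]
          (code (l.foldl (fun y a => astep act inn dflt a y) x).2.1)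
          (code (l.foldl (fun y a => astep act inn dflt a y) x).2.2) [] []) τ := by
  intro l
  induction l with
  | nil =>
    intro x
    refine ⟨1, ?_, .loopF (by rfl)⟩
    rw [size_nil]
    calc 1 ≤ (2 * C + (code dflt).length + 101) * 1 := by omega
      _ ≤ _ := Nat.mul_le_mul_left _ (by omega)
  | cons a l ih =>
    intro x
    obtain ⟨τ1, h1, r1⟩ := p03_run_round dflt hP hQ a (code l) u x
    obtain ⟨τ2, h2, r2⟩ := ih (astep act inn dflt a x)
    refine ⟨τ1 + τ2 + 1, ?_, .loopT (by rfl) r1 r2⟩
    rw [size_cons]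
    show τ1 + τ2 + 1 ≤ (2 * C + (code dflt).length + 101) * (size a + size l + 1 +
      (acost act dflt T1 T2 a x +
      foldCost (fun y : ι × (σ × (List γ × List γ)) => acost act dflt T1 T2 y.1 y.2)
        (fun y => astep act inn dflt y.1 y.2) l (astep act inn dflt a x)))
    set F := foldCost (fun y : ι × (σ × (List γ × List γ)) => acost act dflt T1 T2 y.1 y.2)
        (fun y => astep act inn dflt y.1 y.2) l (astep act inn dflt a x)
    set A := acost act dflt T1 T2 a x
    have e : (2 * C + (code dflt).length + 101) * (size a + size l + 1 + (A + F)) =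
        (2 * C + (code dflt).length + 100) * (size a + A + 1) + (size a + A + 1) +
        (2 * C + (code dflt).length + 101) * (size l + F) := by ring
    rw [e]
    omega

end

theorem p03_join {α β γ δ : Type} [Enc α] [Enc β] [Enc γ] [Enc δ]
    {f : α → γ} {g : β → δ} {T1 : α → ℕ} {T2 : β → ℕ} (hf : CT f T1)
    (hg : CT g T2) : ∃ (K : Type) (_ : Fintype K) (_ : DecidableEq K) (P Q : Prog K) (k₀ : K)
      (C : ℕ), (∀ (a : α) (u : List Bool), ∃ t, t ≤ C * (T1 a + 1) ∧
        Run P (single k₀ (code a ++ u)) (single k₀ (code (f a) ++ u)) t) ∧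
      (∀ (b : β) (u : List Bool), ∃ t, t ≤ C * (T2 b + 1) ∧
        Run Q (single k₀ (code b ++ u)) (single k₀ (code (g b) ++ u)) t) := by
  obtain ⟨K1, _, _, P1, k1, C1, h1⟩ := hf
  obtain ⟨K2, _, _, P2, k2, C2, h2⟩ := hg
  let e1 : K1 → Unit ⊕ (K1 ⊕ K2) := fun k => if k = k1 then Sum.inl () else Sum.inr (Sum.inl k)
  let e2 : K2 → Unit ⊕ (K1 ⊕ K2) := fun k => if k = k2 then Sum.inl () else Sum.inr (Sum.inr k)
  have he1 : Injective e1 := by
    intro a b hab
    by_cases ha : a = k1 <;> by_cases hb : b = k1 <;> simp_all [e1]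
  have he2 : Injective e2 := by
    intro a b hab
    by_cases ha : a = k2 <;> by_cases hb : b = k2 <;> simp_all [e2]
  have h1k : e1 k1 = Sum.inl () := by simp [e1]
  have h2k : e2 k2 = Sum.inl () := by simp [e2]
  refine ⟨Unit ⊕ (K1 ⊕ K2), inferInstance, inferInstance, P1.map e1, P2.map e2,
    Sum.inl (), C1 + C2, fun a u => ?_, fun b u => ?_⟩
  · obtain ⟨t1, ht1, r1⟩ := h1 a u
    have s1 := embed r1 e1 he1 (single (Sum.inl ()) (code a ++ u)) (by rw [h1k, single_self])
      (fun k hk => single_ne (fun h => hk (he1 (h.trans h1k.symm))) _)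
    rw [h1k, update_single] at s1
    exact ⟨t1, ht1.trans (Nat.mul_le_mul_right _ (by omega)), s1⟩
  · obtain ⟨t2, ht2, r2⟩ := h2 b u
    have s2 := embed r2 e2 he2 (single (Sum.inl ()) (code b ++ u)) (by rw [h2k, single_self])
      (fun k hk => single_ne (fun h => hk (he2 (h.trans h2k.symm))) _)
    rw [h2k, update_single] at s2
    exact ⟨t2, ht2.trans (Nat.mul_le_mul_right _ (by omega)), s2⟩

/-- the distribution of the data -/
def p03_init {K : Type} (k : K) : Prog (K ⊕ Fin 6) :=
  .seq (.pop (Sum.inl k)) (.seq (takeTree (Sum.inl k) (Sum.inr 3) (Sum.inr 4))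
    (.seq (mv (Sum.inr 3) (Sum.inr 0))
    (.seq (.pop (Sum.inl k)) (.seq (takeTree (Sum.inl k) (Sum.inr 3) (Sum.inr 4))
    (.seq (mv (Sum.inr 3) (Sum.inr 5))
    (.seq (.pop (Sum.inl k)) (.seq (takeTree (Sum.inl k) (Sum.inr 3) (Sum.inr 4))
    (.seq (mv (Sum.inr 3) (Sum.inr 1))
    (.seq (takeTree (Sum.inl k) (Sum.inr 3) (Sum.inr 4)) (.seq (mv (Sum.inr 3) (Sum.inr 2))
    (.seq (mv (Sum.inr 5) (Sum.inr 3)) (mv (Sum.inr 3) (Sum.inl k)))))))))))))

/-- collecting the data -/
def p03_end {K : Type} (k : K) : Prog (K ⊕ Fin 6) :=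
  .seq (.pop (Sum.inr 0)) (.seq (takeTree (Sum.inl k) (Sum.inr 3) (Sum.inr 4))
    (.seq (mv (Sum.inr 3) (Sum.inr 5))
    (.seq (mv (Sum.inr 2) (Sum.inr 3)) (.seq (mv (Sum.inr 3) (Sum.inl k))
    (.seq (mv (Sum.inr 1) (Sum.inr 3)) (.seq (mv (Sum.inr 3) (Sum.inl k))
    (.seq (.push (Sum.inl k) true) (.seq (mv (Sum.inr 5) (Sum.inr 3))
    (.seq (mv (Sum.inr 3) (Sum.inl k)) (.push (Sum.inl k) true))))))))))

theorem p03_run_init {ι σ γ : Type} [Enc ι] [Enc σ] [Enc γ] {K : Type} [DecidableEq K] (k : K)
    (l : List ι) (s : σ) (lft rgt : List γ) (u : List Bool) :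
    Run (p03_init k) (single (Sum.inl k) (code (l, (s, (lft, rgt))) ++ u))
      (p03_st k (code s ++ u) (code l) (code lft) (code rgt) [] [])
      (9 * size l + 17 * size s + 9 * size lft + 9 * size rgt + 17) := by
  have c1 : true :: (code l ++ (code (s, (lft, rgt)) ++ u)) = code (l, (s, (lft, rgt))) ++ u :=
    (c04_code (l, (s, (lft, rgt))) u).symm
  have c2 : true :: (code s ++ (code (lft, rgt) ++ u)) = code (s, (lft, rgt)) ++ u :=
    (c04_code (s, (lft, rgt)) u).symm
  have c3 : true :: (code lft ++ (code rgt ++ u)) = code (lft, rgt) ++ u :=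
    (c04_code (lft, rgt) u).symm
  have s1 := p03_pop_m k true (code l ++ (code (s, (lft, rgt)) ++ u)) [] [] [] [] []
  rw [c1, ← p03_single] at s1
  have s2 := p03_take_m l k (code (s, (lft, rgt)) ++ u) [] [] [] []
  have s3 := p03_to_I k (code (s, (lft, rgt)) ++ u) [] [] [] (code l) []
  rw [List.append_nil, length_code] at s3
  have s4 := p03_pop_m k true (code s ++ (code (lft, rgt) ++ u)) (code l) [] [] [] []
  rw [c2] at s4
  have s5 := p03_take_m s k (code (lft, rgt) ++ u) (code l) [] [] []
  have s6 := p03_to_d k (code (lft, rgt) ++ u) (code l) [] [] (code s) []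
  rw [List.append_nil, length_code] at s6
  have s7 := p03_pop_m k true (code lft ++ (code rgt ++ u)) (code l) [] [] [] (code s)
  rw [c3] at s7
  have s8 := p03_take_m lft k (code rgt ++ u) (code l) [] [] (code s)
  have s9 := p03_to_L k (code rgt ++ u) (code l) [] [] (code lft) (code s)
  rw [List.append_nil, length_code] at s9
  have s10 := p03_take_m rgt k u (code l) (code lft) [] (code s)
  have s11 := p03_to_R k u (code l) (code lft) [] (code rgt) (code s)
  rw [List.append_nil, length_code] at s11
  have s12 := p03_from_d k u (code l) (code lft) (code rgt) (code s)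
  rw [length_code] at s12
  have s13 := p03_to_m k u (code l) (code lft) (code rgt) (code s) []
  rw [length_code] at s13
  have h := Run.seq s1 (Run.seq s2 (Run.seq s3 (Run.seq s4 (Run.seq s5 (Run.seq s6 (Run.seq s7
    (Run.seq s8 (Run.seq s9 (Run.seq s10 (Run.seq s11 (Run.seq s12 s13)))))))))))
  have e : 1 + (5 * size l + 2 + (4 * size l + 1 + (1 + (5 * size s + 2 + (4 * size s + 1 +
      (1 + (5 * size lft + 2 + (4 * size lft + 1 + (5 * size rgt + 2 + (4 * size rgt + 1 +
      (4 * size s + 1 + (4 * size s + 1)))))))))))) =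
      9 * size l + 17 * size s + 9 * size lft + 9 * size rgt + 17 := by omega
  rw [e] at h
  exact h

theorem p03_run_end {σ γ : Type} [Enc σ] [Enc γ] {K : Type} [DecidableEq K] (k : K)
    (s : σ) (lft rgt : List γ) (u : List Bool) :
    Run (p03_end k) (p03_st k (code s ++ u) [false] (code lft) (code rgt) [] [])
      (single (Sum.inl k) (code (s, (lft, rgt)) ++ u))
      (17 * size s + 8 * size lft + 8 * size rgt + 12) := by
  have c2 : true :: (code s ++ (code (lft, rgt) ++ u)) = code (s, (lft, rgt)) ++ u :=
    (c04_code (s, (lft, rgt)) u).symm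
  have c3 : true :: (code lft ++ (code rgt ++ u)) = code (lft, rgt) ++ u :=
    (c04_code (lft, rgt) u).symm
  have e1 := p03_pop_I k false (code s ++ u) [] (code lft) (code rgt) [] []
  have e2 := p03_take_m s k u [] (code lft) (code rgt) []
  have e3 := p03_to_d k u [] (code lft) (code rgt) (code s) []
  rw [List.append_nil, length_code] at e3
  have e4 := p03_from_R k u [] (code lft) (code rgt) (code s)
  rw [length_code] at e4
  have e5 := p03_to_m k u [] (code lft) [] (code rgt) (code s)
  rw [length_code] at e5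
  have e6 := p03_from_L k (code rgt ++ u) [] (code lft) [] (code s)
  rw [length_code] at e6
  have e7 := p03_to_m k (code rgt ++ u) [] [] [] (code lft) (code s)
  rw [length_code] at e7
  have e8 := p03_push_m k true (code lft ++ (code rgt ++ u)) [] [] [] [] (code s)
  rw [c3] at e8
  have e9 := p03_from_d k (code (lft, rgt) ++ u) [] [] [] (code s)
  rw [length_code] at e9
  have e10 := p03_to_m k (code (lft, rgt) ++ u) [] [] [] (code s) []
  rw [length_code] at e10
  have e11 := p03_push_m k true (code s ++ (code (lft, rgt) ++ u)) [] [] [] [] []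
  rw [c2, ← p03_single k (code (s, (lft, rgt)) ++ u)] at e11
  have h := Run.seq e1 (Run.seq e2 (Run.seq e3 (Run.seq e4 (Run.seq e5 (Run.seq e6 (Run.seq e7
    (Run.seq e8 (Run.seq e9 (Run.seq e10 e11)))))))))
  have e : 1 + (5 * size s + 2 + (4 * size s + 1 + (4 * size rgt + 1 + (4 * size rgt + 1 +
      (4 * size lft + 1 + (4 * size lft + 1 + (1 + (4 * size s + 1 +
      (4 * size s + 1 + 1))))))))) =
      17 * size s + 8 * size lft + 8 * size rgt + 12 := by omega
  rw [e] at h
  exact h

theorem ct_afold {ι σ ρ γ : Type} [Enc ι] [Enc σ] [Enc ρ] [Enc γ]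
    {act : ι × σ → σ ⊕ (Bool × (γ × ρ))} {inn : γ × ρ → σ} (dflt : γ)
    {T1 : ι × σ → ℕ} {T2 : γ × ρ → ℕ} (h1 : CT act T1) (h2 : CT inn T2) :
    CT (fun x : List ι × (σ × (List γ × List γ)) =>
        x.1.foldl (fun y a => astep act inn dflt a y) x.2)
      (fun x => size x.1 + size x.2 + foldCost (fun y => acost act dflt T1 T2 y.1 y.2)
        (fun y => astep act inn dflt y.1 y.2) x.1 x.2) := by
  obtain ⟨K, _, _, P, Q, k, C, hP, hQ⟩ := p03_join h1 h2
  refine ⟨K ⊕ Fin 6, inferInstance, inferInstance, .seq (p03_init k)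
    (.seq (.loop (Sum.inr 0) isT (p03_round k dflt P Q)) (p03_end k)), Sum.inl k,
    100 * (2 * C + (code dflt).length + 101), ?_⟩
  rintro ⟨l, s, lft, rgt⟩ u
  have s1 := p03_run_init k l s lft rgt u
  obtain ⟨τ, hτ, s14⟩ := p03_run_loop dflt hP hQ u l (s, (lft, rgt))
  have s15 := p03_run_end k (l.foldl (fun y a => astep act inn dflt a y) (s, (lft, rgt))).1
    (l.foldl (fun y a => astep act inn dflt a y) (s, (lft, rgt))).2.1
    (l.foldl (fun y a => astep act inn dflt a y) (s, (lft, rgt))).2.2 u
  have bl := s14.length_le (Sum.inl k)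
  rw [p03_m, p03_m, List.length_append, List.length_append, length_code, length_code] at bl
  have bL : size (l.foldl (fun y a => astep act inn dflt a y) (s, (lft, rgt))).2.1 ≤
      size lft + τ := s14.length_le (Sum.inr 1)
  have bR : size (l.foldl (fun y a => astep act inn dflt a y) (s, (lft, rgt))).2.2 ≤
      size rgt + τ := s14.length_le (Sum.inr 2)
  refine ⟨_, ?_, Run.seq s1 (Run.seq s14 s15)⟩
  have hsz : size (s, (lft, rgt)) = size s + (size lft + size rgt + 1) + 1 := by
    rw [size_prod, size_prod]
  show _ ≤ 100 * (2 * C + (code dflt).length + 101) * (size l + size (s, (lft, rgt)) +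
    foldCost (fun y : ι × (σ × (List γ × List γ)) => acost act dflt T1 T2 y.1 y.2)
        (fun y => astep act inn dflt y.1 y.2) l (s, (lft, rgt)) + 1)
  rw [hsz]
  revert hτ bl bL bR
  generalize foldCost (fun y : ι × (σ × (List γ × List γ)) => acost act dflt T1 T2 y.1 y.2)
        (fun y => astep act inn dflt y.1 y.2) l (s, (lft, rgt)) = F
  generalize size (l.foldl (fun y a => astep act inn dflt a y) (s, (lft, rgt))).1 = z1
  generalize size (l.foldl (fun y a => astep act inn dflt a y) (s, (lft, rgt))).2.1 = z2
  generalize size (l.foldl (fun y a => astep act inn dflt a y) (s, (lft, rgt))).2.2 = z3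
  generalize hG : 2 * C + (code dflt).length + 101 = G
  intro hτ bl bL bR
  simp only at bl
  have h0 : τ ≤ G * (size l + (size s + (size lft + size rgt + 1) + 1) + F + 1) :=
    hτ.trans (Nat.mul_le_mul_left _ (by omega))
  have h1 : size l + (size s + (size lft + size rgt + 1) + 1) + F + 1 ≤
      G * (size l + (size s + (size lft + size rgt + 1) + 1) + F + 1) :=
    Nat.le_mul_of_pos_left _ (by omega)
  have h2 : 100 * G * (size l + (size s + (size lft + size rgt + 1) + 1) + F + 1) =
      100 * (G * (size l + (size s + (size lft + size rgt + 1) + 1) + F + 1)) := by ring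
  rw [h2]
  revert h0 h1
  generalize G * (size l + (size s + (size lft + size rgt + 1) + 1) + F + 1) = Z
  intro h0 h1
  omega

end Pool.Agent.WPR
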