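import Pool.Agent.Lib.MP_2da099_lc.R2.Defs

/-!
# R01: correctness of the reduction, abstractly

The rows are numbered by `s` (second coordinate), the columns by `t` (first coordinate); `F` is supported in
the box `0 ≤ s < H`, `D (H + 1) ≤ t < L`.  `g s t` is the symbol chosen in the cell `(s, t)`; the cells are
scanned row by row, from the left to the right; the content of a cell, when it is reached, is `cval`.

HINTS.
(1) `g s t = g0` unless `D (H + 1) - D s ≤ t` : induction on `s` and then on `t` (all cells before have the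
symbol `g0` as far as they matter: the cell `(s - i, t - j)` with `|j| ≤ D`; `cval = 0`, `dec0`, `w0`).
(2) `→`: for every cell of the box choose `G s t ∈ N` from `sound` (for `cval` and `g s t`; if the symbol is
that of a cell with `cval = 0`, then `G = 0` by `w0`).  By (1) and the support conditions in `sound` the
translate `sh (t, s) (G s t)` is supported in the box (rows `≤ s + b ≤ H - 1` where `b` is the class of
`H - 1 - s`, same for the columns; on the left `t - D ≥ 0`).  Claim `F = Σ sh (t, s) (G s t)` (finite sum over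
the box): compare the values at a cell `(s, t)`: the contributions of the cells `(s - i, t - j)` are
`G (j, i)`, nonzero only for `0 ≤ i ≤ D`, `|j| ≤ D` and (`i = 0 → 0 ≤ j`), they are `- w i j (g ..)`, and
`G s t (0, 0) = cval`.  `sh v F c = F (c - v)`.
(3) `←`: by strong induction in the scanning order: suppose all cells before `(s, t)` succeeded, let `F'` be
`F` minus the sum of the translates of their `G`; then `F' ∈ N`, `F'` vanishes in all cells before `(s, t)` and
outside of the box and `F' (t, s) = cval`; `complete` for `sh (-(t, s)) F'` with `b = H - 1 - s`,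
`a = L - 1 - t`.
An efficient way to organise both: let `P n` be the statement for the first `n` cells in the order
`n = s * L + t`.
-/

set_option autoImplicit false

namespace Pool.Agent.WPR

open Pool.Agent.Lib.PolyTime Pool.Agent.WPM Function

variable {V Γ : Type} [AddCommGroup V]

/-- `g` are the symbols for the contents `F`. -/
structure IsGam (R : RData V Γ) (F : ℤ → ℤ → V) (H L : ℕ) (g : ℤ → ℤ → Γ) : Prop where
  out : ∀ s t : ℤ, s < 0 ∨ (H : ℤ) ≤ s ∨ t < 0 ∨ (L : ℤ) ≤ t → g s t = R.g0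
  inn : ∀ s t : ℕ, s < H → t < L → g s t =
    (R.dec (cl R.D (H - 1 - s)) (cl R.D (L - 1 - t)) (cval R F g s t)).getD R.g0

theorem sh_apply (v : ℤ × ℤ) (F : (ℤ × ℤ) →₀ V) (c : ℤ × ℤ) : sh v F c = F (c - v) := by
  have h := Finsupp.mapDomain_apply (f := fun c : ℤ × ℤ => c + v) (add_left_injective v) F (c - v)
  simp only [sub_add_cancel] at h
  exact h

open Classical in
/-- The contribution of a symbol to the cell at the distance `(i, j)` (rows, columns). -/
noncomputable def r01_W (R : RData V Γ) (i j : ℤ) (γ : Γ) : V :=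
  if (1 ≤ i ∧ i ≤ R.D ∧ -(R.D : ℤ) ≤ j ∧ j ≤ R.D) ∨ (i = 0 ∧ 1 ≤ j ∧ j ≤ R.D) then
    R.w i.toNat j γ else 0

theorem r01_W_ne {R : RData V Γ} {i j : ℤ} {γ : Γ} (h : r01_W R i j γ ≠ 0) :
    (1 ≤ i ∧ i ≤ R.D ∧ -(R.D : ℤ) ≤ j ∧ j ≤ R.D) ∨ (i = 0 ∧ 1 ≤ j ∧ j ≤ R.D) := by
  by_contra hc
  exact h (if_neg hc)

theorem r01_W0 {R : RData V Γ} (h : ∀ i j, R.w i j R.g0 = 0) (i j : ℤ) :
    r01_W R i j R.g0 = 0 := by
  unfold r01_W
  split_ifs
  · exact h _ _
  · rfl

theorem r01_list_sum {M : Type} [AddCommMonoid M] (n : ℕ) (f : ℕ → M) :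
    ((List.range n).map f).sum = ∑ i ∈ Finset.range n, f i := by
  rw [Finset.sum_eq_multiset_sum]
  rfl

theorem r01_flatMap_sum {α M : Type} [AddCommMonoid M] (l : List ℕ) (f : ℕ → List α) (h : α → M) :
    ((l.flatMap f).map h).sum = (l.map (fun i => ((f i).map h).sum)).sum := by
  induction l with
  | nil => simp
  | cons a l ih => simp [ih]

/-- The set of the offsets. -/
noncomputable def r01_K (D : ℕ) : Finset (ℤ × ℤ) := Finset.Icc 0 (D : ℤ) ×ˢ Finset.Icc (-(D : ℤ)) D

theorem r01_cval (R : RData V Γ) (F : ℤ → ℤ → V) (g : ℤ → ℤ → Γ) (s t : ℤ) :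
    cval R F g s t = F s t +
      ∑ p ∈ r01_K R.D, r01_W R p.1 p.2 (g (s - p.1) (t - p.2)) := by
  have hK : ∑ p ∈ r01_K R.D, r01_W R p.1 p.2 (g (s - p.1) (t - p.2)) =
      ∑ i ∈ Finset.Icc 0 (R.D : ℤ), ∑ j ∈ Finset.Icc (-(R.D : ℤ)) R.D,
        r01_W R i j (g (s - i) (t - j)) := by
    rw [r01_K, Finset.sum_product]
  have hsplit : Finset.Icc (0 : ℤ) R.D = insert 0 (Finset.Icc 1 (R.D : ℤ)) := by
    ext x
    simp only [Finset.mem_Icc, Finset.mem_insert]
    omega
  have hnot : (0 : ℤ) ∉ Finset.Icc 1 (R.D : ℤ) := by simp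
  rw [hK, hsplit, Finset.sum_insert hnot]
  -- the row itself
  have h1 : ∑ j ∈ Finset.Icc (-(R.D : ℤ)) R.D, r01_W R 0 j (g (s - 0) (t - j)) =
      ∑ j ∈ Finset.range R.D, R.w 0 ((j : ℤ) + 1) (g s (t - ((j : ℤ) + 1))) := by
    symm
    apply Finset.sum_bij_ne_zero (fun (j : ℕ) _ _ => (j : ℤ) + 1)
    · intro a h1 h2
      rw [Finset.mem_range] at h1
      rw [Finset.mem_Icc]
      omega
    · intro a _ _ b _ _ h
      omega
    · intro b hb hne
      rcases r01_W_ne hne with h | h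
      · omega
      · refine ⟨(b - 1).toNat, ?_, ?_, ?_⟩
        · rw [Finset.mem_range]; omega
        · have e : (((b - 1).toNat : ℕ) : ℤ) + 1 = b := by omega
          rw [e]
          intro h0
          apply hne
          rw [r01_W, if_pos (Or.inr h), sub_zero]
          exact h0
        · omega
    · intro a h1 h2
      rw [Finset.mem_range] at h1
      rw [r01_W, if_pos (Or.inr ⟨rfl, by omega, by omega⟩), sub_zero]
      rfl
  have h2 : ∑ i ∈ Finset.Icc 1 (R.D : ℤ), ∑ j ∈ Finset.Icc (-(R.D : ℤ)) R.D,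
      r01_W R i j (g (s - i) (t - j)) =
      ((offs R.D).map (fun o => R.w o.1 o.2 (g (s - o.1) (t - o.2)))).sum := by
    rw [offs, r01_flatMap_sum]
    simp only [List.map_map]
    rw [r01_list_sum]
    symm
    refine Finset.sum_bij (fun (i : ℕ) _ => (i : ℤ) + 1) ?_ ?_ ?_ ?_
    · intro a ha
      rw [Finset.mem_range] at ha
      rw [Finset.mem_Icc]
      omega
    · intro a _ b _ h
      omega
    · intro b hb
      rw [Finset.mem_Icc] at hb
      exact ⟨(b - 1).toNat, by rw [Finset.mem_range]; omega, by omega⟩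
    · intro i hi
      rw [Finset.mem_range] at hi
      rw [r01_list_sum]
      refine Finset.sum_bij (fun (j : ℕ) _ => (j : ℤ) - R.D) ?_ ?_ ?_ ?_
      · intro a ha
        rw [Finset.mem_range] at ha
        rw [Finset.mem_Icc]
        omega
      · intro a _ b _ h
        omega
      · intro b hb
        rw [Finset.mem_Icc] at hb
        exact ⟨(b + R.D).toNat, by rw [Finset.mem_range]; omega, by omega⟩
      · intro j hj
        rw [Finset.mem_range] at hj
        rw [r01_W, if_pos (Or.inl ⟨by omega, by omega, by omega, by omega⟩)]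
        simp only [Function.comp]
        have e : ((i : ℤ) + 1).toNat = i + 1 := by omega
        rw [e]
        push_cast
        rfl
  rw [h1, h2, cval, r01_list_sum]
  abel

/-- The cells of the box before the cell `(s, t)`. -/
def r01_Bef (H L s t : ℕ) : Finset (ℕ × ℕ) :=
  (Finset.range H ×ˢ Finset.range L).filter (fun c => c.1 < s ∨ (c.1 = s ∧ c.2 < t))

theorem r01_mem_Bef {H L s t : ℕ} {c : ℕ × ℕ} :
    c ∈ r01_Bef H L s t ↔ (c.1 < H ∧ c.2 < L) ∧ (c.1 < s ∨ (c.1 = s ∧ c.2 < t)) := by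
  simp [r01_Bef]

/-- The properties of the element chosen for a cell. -/
structure r01_Props (R : RData V Γ) (N : AddSubgroup ((ℤ × ℤ) →₀ V)) (F : ℤ → ℤ → V) (H L : ℕ)
    (g : ℤ → ℤ → Γ) (s t : ℕ) (G : (ℤ × ℤ) →₀ V) : Prop where
  mem : G ∈ N
  zero : G (0, 0) = cval R F g s t
  val : ∀ j i : ℤ, (j, i) ≠ (0, 0) → G (j, i) = -r01_W R i j (g s t)
  supp : ∀ j i : ℤ, G (j, i) ≠ 0 → 0 ≤ i ∧ (s : ℤ) + i < H ∧ (t : ℤ) + j < L ∧ -(R.D : ℤ) ≤ j ∧
    (i = 0 → 0 ≤ j)

theorem r01_exists {R : RData V Γ} {N : AddSubgroup ((ℤ × ℤ) →₀ V)} (hR : R.Ok N)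
    {F : ℤ → ℤ → V} {H L : ℕ} {g : ℤ → ℤ → Γ} (hg : IsGam R F H L g) {s t : ℕ} (hs : s < H)
    (ht : t < L) (hok : (R.dec (cl R.D (H - 1 - s)) (cl R.D (L - 1 - t))
      (cval R F g s t)).isSome) : ∃ G, r01_Props R N F H L g s t G := by
  obtain ⟨γ, hγ⟩ := Option.isSome_iff_exists.1 hok
  have hgst : g s t = γ := by
    rw [hg.inn s t hs ht, hγ]
    rfl
  obtain ⟨G, hGN, hG0, hGs, hGw, hGw0⟩ := hR.sound _ _ _ _ hγ
  have hcb : ((cl R.D (H - 1 - s) : Fin (R.D + 1)) : ℕ) = min (H - 1 - s) R.D := rfl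
  have hca : ((cl R.D (L - 1 - t) : Fin (R.D + 1)) : ℕ) = min (L - 1 - t) R.D := rfl
  rw [hcb, hca] at hGs
  refine ⟨G, hGN, hG0, ?_, ?_⟩
  · intro j i hne
    rw [hgst, r01_W]
    split_ifs with h
    · rcases h with h | h
      · have := hGw i.toNat j (by omega)
        rw [this, neg_neg]
        congr 2
        omega
      · have := hGw0 j h.2.1
        obtain ⟨h0, h1, h2⟩ := h
        subst h0
        simp only [Int.toNat_zero]
        rw [this, neg_neg]
    · rw [neg_zero]
      by_contra hc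
      have h1 := hGs j i hc
      apply h
      have h2 : ¬ (j = 0 ∧ i = 0) := fun h3 => hne (by rw [h3.1, h3.2])
      omega
  · intro j i hne
    have h1 := hGs j i hne
    omega

section

variable {R : RData V Γ} {N : AddSubgroup ((ℤ × ℤ) →₀ V)} {F : (ℤ × ℤ) →₀ V} {H L : ℕ}
  {g : ℤ → ℤ → Γ}

/-- (1) -/
theorem r01_left (hR : R.Ok N)
    (hF : ∀ t s : ℤ, F (t, s) ≠ 0 → 0 ≤ s ∧ s < H ∧ (R.D : ℤ) * (H + 1) ≤ t ∧ t < L)
    (hg : IsGam R (fun s t => F (t, s)) H L g) :
    ∀ (s : ℕ) (t : ℤ), t < R.D * (H + 1) - R.D * s →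
      g s t = R.g0 ∧ cval R (fun s t => F (t, s)) g s t = 0 := by
  intro s
  induction s using Nat.strong_induction_on with
  | _ s ihs =>
    -- the content is zero if the symbols on the left in the same row are zero
    have key : ∀ t : ℤ, t < R.D * (H + 1) - R.D * s →
        (∀ t' : ℤ, t' < t → g s t' = R.g0) → cval R (fun s t => F (t, s)) g s t = 0 := by
      intro t ht hleft
      rw [r01_cval]
      have hF0 : F (t, (s : ℤ)) = 0 := by
        by_contra hne
        have := (hF t s hne).2.2.1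
        nlinarith [(Nat.cast_nonneg s : (0 : ℤ) ≤ s), (Nat.cast_nonneg R.D : (0 : ℤ) ≤ R.D)]
      simp only [hF0, zero_add]
      apply Finset.sum_eq_zero
      intro p _
      by_contra hne
      have hp := r01_W_ne hne
      have hg0 : g (s - p.1) (t - p.2) = R.g0 := by
        rcases hp with hp | hp
        · rcases lt_or_ge ((s : ℤ) - p.1) 0 with hneg | hnn
          · exact hg.out _ _ (Or.inl hneg)
          · obtain ⟨s', hs'⟩ := Int.eq_ofNat_of_zero_le hnn
            have hlt : s' < s := by omega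
            rw [hs']
            refine (ihs s' hlt (t - p.2) ?_).1
            have e : (s' : ℤ) = s - p.1 := hs'.symm
            rw [e]
            nlinarith [(Nat.cast_nonneg R.D : (0 : ℤ) ≤ R.D)]
        · obtain ⟨h0, h1, h2⟩ := hp
          rw [h0, sub_zero]
          exact hleft _ (by omega)
      rw [hg0] at hne
      exact hne (r01_W0 hR.w0 _ _)
    -- the symbols
    have hsym : ∀ n : ℕ, (n : ℤ) < R.D * (H + 1) - R.D * s → g s n = R.g0 := by
      intro n
      induction n using Nat.strong_induction_on with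
      | _ n ihn =>
        intro hn
        rcases Nat.lt_or_ge s H with hsH | hsH
        · rcases Nat.lt_or_ge n L with hnL | hnL
          · rw [hg.inn s n hsH hnL, key n hn, hR.dec0]
            · rfl
            · intro t' ht'
              rcases lt_or_ge t' 0 with hneg | hnn
              · exact hg.out _ _ (Or.inr (Or.inr (Or.inl hneg)))
              · obtain ⟨n', hn'⟩ := Int.eq_ofNat_of_zero_le hnn
                rw [hn']
                exact ihn n' (by omega) (by omega)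
          · exact hg.out _ _ (Or.inr (Or.inr (Or.inr (by exact_mod_cast hnL))))
        · exact hg.out _ _ (Or.inr (Or.inl (by exact_mod_cast hsH)))
    have hsym' : ∀ t : ℤ, t < R.D * (H + 1) - R.D * s → g s t = R.g0 := by
      intro t ht
      rcases lt_or_ge t 0 with hneg | hnn
      · exact hg.out _ _ (Or.inr (Or.inr (Or.inl hneg)))
      · obtain ⟨n, hn⟩ := Int.eq_ofNat_of_zero_le hnn
        rw [hn]
        exact hsym n (by omega)
    intro t ht
    exact ⟨hsym' t ht, key t ht (fun t' ht' => hsym' t' (by omega))⟩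

/-- The remainder after the cells before `(s, t)`. -/
noncomputable def r01_rem (F : (ℤ × ℤ) →₀ V) (H L : ℕ) (E : ℕ → ℕ → (ℤ × ℤ) →₀ V) (s t : ℕ) :
    (ℤ × ℤ) →₀ V :=
  F - ∑ c ∈ r01_Bef H L s t, sh ((c.2 : ℤ), (c.1 : ℤ)) (E c.1 c.2)

theorem r01_rem_apply (E : ℕ → ℕ → (ℤ × ℤ) →₀ V) (s t : ℕ) (x y : ℤ) :
    r01_rem F H L E s t (x, y) =
      F (x, y) - ∑ c ∈ r01_Bef H L s t, E c.1 c.2 (x - c.2, y - c.1) := by
  rw [r01_rem, Finsupp.sub_apply, Finsupp.finsetSum_apply]
  congr 1
  apply Finset.sum_congr rfl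
  intro c _
  rw [sh_apply]
  rfl

/-- (a) -/
theorem r01_at (hR : R.Ok N) (hg : IsGam R (fun s t => F (t, s)) H L g)
    {E : ℕ → ℕ → (ℤ × ℤ) →₀ V} {s t : ℕ}
    (hE : ∀ c ∈ r01_Bef H L s t, r01_Props R N (fun s t => F (t, s)) H L g c.1 c.2 (E c.1 c.2)) :
    r01_rem F H L E s t (t, s) = cval R (fun s t => F (t, s)) g s t := by
  rw [r01_rem_apply, r01_cval, sub_eq_add_neg, ← Finset.sum_neg_distrib]
  congr 1
  apply Finset.sum_bij_ne_zero (fun (c : ℕ × ℕ) _ _ => ((s : ℤ) - c.1, (t : ℤ) - c.2))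
  · intro c hc hne
    have hp := (hE c hc)
    rw [r01_mem_Bef] at hc
    have hne' : ((t : ℤ) - c.2, (s : ℤ) - c.1) ≠ (0, 0) := by
      intro h
      rw [Prod.mk.injEq] at h
      omega
    rw [hp.val _ _ hne', neg_neg] at hne
    have := r01_W_ne hne
    rw [r01_K, Finset.mem_product, Finset.mem_Icc, Finset.mem_Icc]
    dsimp only
    omega
  · intro c _ _ c' _ _ h
    rw [Prod.mk.injEq] at h
    apply Prod.ext <;> omega
  · rintro ⟨i, j⟩ hb hne
    dsimp only at hne
    have hw := r01_W_ne hne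
    have hin : ¬ ((s : ℤ) - i < 0 ∨ (H : ℤ) ≤ s - i ∨ (t : ℤ) - j < 0 ∨ (L : ℤ) ≤ t - j) := by
      intro h
      rw [hg.out _ _ h] at hne
      exact hne (r01_W0 hR.w0 _ _)
    push Not at hin
    obtain ⟨s', hs'⟩ := Int.eq_ofNat_of_zero_le hin.1
    obtain ⟨t', ht'⟩ := Int.eq_ofNat_of_zero_le hin.2.2.1
    have hmem : (s', t') ∈ r01_Bef H L s t := by
      rw [r01_mem_Bef]
      dsimp only
      omega
    have hne' : ((t : ℤ) - t', (s : ℤ) - s') ≠ (0, 0) := by
      intro h
      rw [Prod.mk.injEq] at h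
      omega
    refine ⟨(s', t'), hmem, ?_, ?_⟩
    · dsimp only
      rw [(hE _ hmem).val _ _ hne', neg_neg]
      have e1 : (s : ℤ) - s' = i := by omega
      have e2 : (t : ℤ) - t' = j := by omega
      rw [e1, e2]
      rw [hs', ht'] at hne
      exact hne
    · rw [Prod.mk.injEq]
      dsimp only
      omega
  · intro c hc hne
    dsimp only
    have hp := (hE c hc)
    rw [r01_mem_Bef] at hc
    have hne' : ((t : ℤ) - c.2, (s : ℤ) - c.1) ≠ (0, 0) := by
      intro h
      rw [Prod.mk.injEq] at h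
      omega
    rw [hp.val _ _ hne', neg_neg, sub_sub_cancel, sub_sub_cancel]

/-- (b) -/
theorem r01_before (hR : R.Ok N) (hg : IsGam R (fun s t => F (t, s)) H L g)
    {E : ℕ → ℕ → (ℤ × ℤ) →₀ V} {s t : ℕ}
    (hE : ∀ c ∈ r01_Bef H L s t, r01_Props R N (fun s t => F (t, s)) H L g c.1 c.2 (E c.1 c.2))
    {c : ℕ × ℕ} (hc : c ∈ r01_Bef H L s t) : r01_rem F H L E s t (c.2, c.1) = 0 := by
  have hc' := hc
  rw [r01_mem_Bef] at hc'
  have hsub : r01_Bef H L c.1 c.2 ⊆ r01_Bef H L s t := by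
    intro d hd
    rw [r01_mem_Bef] at hd ⊢
    omega
  have hat := r01_at hR hg (E := E) (s := c.1) (t := c.2) (fun d hd => hE d (hsub hd))
  rw [r01_rem_apply] at hat ⊢
  have hnot : c ∉ r01_Bef H L c.1 c.2 := by
    rw [r01_mem_Bef]
    omega
  have hsub2 : insert c (r01_Bef H L c.1 c.2) ⊆ r01_Bef H L s t :=
    Finset.insert_subset hc hsub
  have hsum : ∑ d ∈ r01_Bef H L s t, E d.1 d.2 ((c.2 : ℤ) - d.2, (c.1 : ℤ) - d.1) =
      ∑ d ∈ insert c (r01_Bef H L c.1 c.2), E d.1 d.2 ((c.2 : ℤ) - d.2, (c.1 : ℤ) - d.1) := by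
    symm
    apply Finset.sum_subset hsub2
    intro d hd hd'
    by_contra hne
    have h1 := (hE d hd).supp _ _ hne
    rw [Finset.mem_insert, not_or, r01_mem_Bef] at hd'
    rw [r01_mem_Bef] at hd
    have hdc : ¬ (d.1 = c.1 ∧ d.2 = c.2) := fun h => hd'.1 (Prod.ext h.1 h.2)
    omega
  rw [hsum, Finset.sum_insert hnot, sub_self, sub_self, (hE c hc).zero]
  rw [← hat]
  abel

/-- (c) -/
theorem r01_outside (hR : R.Ok N)
    (hF : ∀ t s : ℤ, F (t, s) ≠ 0 → 0 ≤ s ∧ s < H ∧ (R.D : ℤ) * (H + 1) ≤ t ∧ t < L)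
    (hg : IsGam R (fun s t => F (t, s)) H L g)
    {E : ℕ → ℕ → (ℤ × ℤ) →₀ V} {s t : ℕ}
    (hE : ∀ c ∈ r01_Bef H L s t, r01_Props R N (fun s t => F (t, s)) H L g c.1 c.2 (E c.1 c.2))
    {x y : ℤ} (hxy : y < 0 ∨ (H : ℤ) ≤ y ∨ x < 0 ∨ (L : ℤ) ≤ x) :
    r01_rem F H L E s t (x, y) = 0 := by
  rw [r01_rem_apply]
  have hF0 : F (x, y) = 0 := by
    by_contra hne
    have h1 := hF x y hne
    have h2 : (0 : ℤ) ≤ (R.D : ℤ) * (H + 1) := by positivity
    omega
  rw [hF0, zero_sub, neg_eq_zero]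
  apply Finset.sum_eq_zero
  intro c hc
  by_contra hne
  have hp := hE c hc
  have h1 := hp.supp _ _ hne
  rw [r01_mem_Bef] at hc
  rcases lt_or_ge (c.2 : ℤ) (R.D * (H + 1) - R.D * c.1) with hlt | hge
  · obtain ⟨g1, g2⟩ := r01_left hR hF hg c.1 c.2 hlt
    apply hne
    by_cases h0 : (x - c.2, y - c.1) = (0, 0)
    · rw [h0, hp.zero, g2]
    · rw [hp.val _ _ h0, g1, r01_W0 hR.w0, neg_zero]
  · have h2 : (R.D : ℤ) ≤ c.2 := by
      have h3 : (c.1 : ℤ) ≤ H := by omega
      nlinarith [(Nat.cast_nonneg R.D : (0 : ℤ) ≤ R.D)]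
    omega

theorem r01_rem_mem (hR : R.Ok N) (hFN : F ∈ N)
    {E : ℕ → ℕ → (ℤ × ℤ) →₀ V} {s t : ℕ}
    (hE : ∀ c ∈ r01_Bef H L s t, r01_Props R N (fun s t => F (t, s)) H L g c.1 c.2 (E c.1 c.2)) :
    r01_rem F H L E s t ∈ N :=
  N.sub_mem hFN (N.sum_mem (fun c hc => hR.shift _ _ (hE c hc).mem))

end

theorem red_iff (R : RData V Γ) (N : AddSubgroup ((ℤ × ℤ) →₀ V)) (hR : R.Ok N)
    (F : (ℤ × ℤ) →₀ V) (H L : ℕ)
    (hF : ∀ t s : ℤ, F (t, s) ≠ 0 → 0 ≤ s ∧ s < H ∧ (R.D : ℤ) * (H + 1) ≤ t ∧ t < L)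
    (g : ℤ → ℤ → Γ) (hg : IsGam R (fun s t => F (t, s)) H L g) :
    (∀ s t : ℕ, s < H → t < L → (R.dec (cl R.D (H - 1 - s)) (cl R.D (L - 1 - t))
      (cval R (fun s t => F (t, s)) g s t)).isSome) ↔ F ∈ N := by
  have hex : ∀ s t : ℕ, ∃ G : (ℤ × ℤ) →₀ V, s < H → t < L →
      (R.dec (cl R.D (H - 1 - s)) (cl R.D (L - 1 - t))
        (cval R (fun s t => F (t, s)) g s t)).isSome →
      r01_Props R N (fun s t => F (t, s)) H L g s t G := by
    intro s t
    by_cases h : s < H ∧ t < L ∧ (R.dec (cl R.D (H - 1 - s)) (cl R.D (L - 1 - t))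
        (cval R (fun s t => F (t, s)) g s t)).isSome
    · obtain ⟨G, hG⟩ := r01_exists hR hg h.1 h.2.1 h.2.2
      exact ⟨G, fun _ _ _ => hG⟩
    · exact ⟨0, fun h1 h2 h3 => absurd ⟨h1, h2, h3⟩ h⟩
  choose E hEp using hex
  constructor
  · intro hall
    have hE : ∀ c ∈ r01_Bef H L H 0,
        r01_Props R N (fun s t => F (t, s)) H L g c.1 c.2 (E c.1 c.2) := by
      intro c hc
      rw [r01_mem_Bef] at hc
      exact hEp _ _ hc.1.1 hc.1.2 (hall _ _ hc.1.1 hc.1.2)
    have hzero : r01_rem F H L E H 0 = 0 := by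
      ext ⟨x, y⟩
      by_cases hxy : y < 0 ∨ (H : ℤ) ≤ y ∨ x < 0 ∨ (L : ℤ) ≤ x
      · exact r01_outside hR hF hg hE hxy
      · push Not at hxy
        obtain ⟨s, hs⟩ := Int.eq_ofNat_of_zero_le hxy.1
        obtain ⟨t, ht⟩ := Int.eq_ofNat_of_zero_le hxy.2.2.1
        have hmem : (s, t) ∈ r01_Bef H L H 0 := by
          rw [r01_mem_Bef]
          dsimp only
          omega
        have := r01_before hR hg hE hmem
        rw [hs, ht]
        exact this
    have hF' : F = ∑ c ∈ r01_Bef H L H 0, sh ((c.2 : ℤ), (c.1 : ℤ)) (E c.1 c.2) := by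
      rw [r01_rem, sub_eq_zero] at hzero
      exact hzero
    rw [hF']
    exact N.sum_mem (fun c hc => hR.shift _ _ (hE c hc).mem)
  · intro hFN s
    induction s using Nat.strong_induction_on with
    | _ s ihs =>
      intro t
      induction t using Nat.strong_induction_on with
      | _ t iht =>
        intro hs ht
        have hE : ∀ c ∈ r01_Bef H L s t,
            r01_Props R N (fun s t => F (t, s)) H L g c.1 c.2 (E c.1 c.2) := by
          intro c hc
          rw [r01_mem_Bef] at hc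
          apply hEp _ _ hc.1.1 hc.1.2
          rcases hc.2 with h | h
          · exact ihs c.1 h c.2 hc.1.1 hc.1.2
          · have := iht c.2 h.2 hs hc.1.2
            rw [← h.1] at this
            exact this
        have hmem := hR.shift (-(t : ℤ), -(s : ℤ)) _ (r01_rem_mem hR hFN hE)
        have hval : ∀ j i : ℤ, sh (-(t : ℤ), -(s : ℤ)) (r01_rem F H L E s t) (j, i) =
            r01_rem F H L E s t (t + j, s + i) := by
          intro j i
          rw [sh_apply]
          congr 1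
          apply Prod.ext
          · show j - -(t : ℤ) = t + j
            ring
          · show i - -(s : ℤ) = s + i
            ring
        have hcomp := hR.complete _ hmem (H - 1 - s) (L - 1 - t) ?_
        · rw [hval, add_zero, add_zero, r01_at hR hg hE] at hcomp
          exact hcomp
        · intro j i hne
          rw [hval] at hne
          have h1 : ¬ ((s : ℤ) + i < 0 ∨ (H : ℤ) ≤ s + i ∨ (t : ℤ) + j < 0 ∨
              (L : ℤ) ≤ t + j) := fun h => hne (r01_outside hR hF hg hE h)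
          push Not at h1
          obtain ⟨s', hs'⟩ := Int.eq_ofNat_of_zero_le h1.1
          obtain ⟨t', ht'⟩ := Int.eq_ofNat_of_zero_le h1.2.2.1
          have h2 : ¬ (s' < s ∨ (s' = s ∧ t' < t)) := by
            intro h
            apply hne
            have hm : (s', t') ∈ r01_Bef H L s t := by
              rw [r01_mem_Bef]
              dsimp only
              omega
            have := r01_before hR hg hE hm
            rw [hs', ht']
            exact this
          omega

end Pool.Agent.WPR
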