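import Pool.Agent.Lib.MP_2da099_lc.R2.R01

/-!
# R02: the machine in one row

HINTS.  `linRow_spec`: `foldl` over the list of offsets (general statement for a list `o :: os` and `acc`), every
`zipWith` keeps the length `L` because the shifted rows have length `≥ L`, and
`(shiftRow g0 j l).getD t g0 = gz l (t - j)` for `t < L`, where `gz l i` is the entry `i` of `l` or `g0`
outside of `0 .. L - 1`.
`rowStep_spec`: induction along the scan, generalised over the start: after the cells `0 .. t - 1` the list in
the state is `[sym (t-1), sym (t-2), ..., sym (t-D)]` (with `g0` for negative indices), the flag is true iff all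
`dec` so far succeeded.  It may help to show first: `scan f s (l ++ l')` splits.
-/

set_option autoImplicit false

namespace Pool.Agent.WPR

open Pool.Agent.Lib.PolyTime Pool.Agent.WPM Function

variable {V Γ : Type} [AddCommGroup V]

/-- the entry of a row at an integer place, `g0` outside -/
def gz (g0 : Γ) (l : List Γ) (i : ℤ) : Γ := if 0 ≤ i then l.getD i.toNat g0 else g0

/-! ### Scans -/

theorem r02_scan_append {α β σ : Type} (f : σ × α → σ × β) (l l' : List α) (s : σ) :
    scan f s (l ++ l') = ((scan f (scan f s l).1 l').1,
      (scan f s l).2 ++ (scan f (scan f s l).1 l').2) := by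
  induction l generalizing s with
  | nil => simp [scan]
  | cons a l ih => simp [scan, ih]

theorem r02_scan_length {α β σ : Type} (f : σ × α → σ × β) (l : List α) (s : σ) :
    (scan f s l).2.length = l.length := by
  induction l generalizing s with
  | nil => simp [scan]
  | cons a l ih => simp [scan, ih]

theorem r02_scan_step {α β σ : Type} (f : σ × α → σ × β) (l : List α) (s : σ) (n : ℕ)
    (hn : n < l.length) :
    (scan f s (l.take (n + 1))).1 = (f ((scan f s (l.take n)).1, l[n])).1 := by
  have h : l.take (n + 1) = l.take n ++ [l[n]] := by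
    rw [List.take_add_one, List.getElem?_eq_getElem hn]
    rfl
  rw [h, r02_scan_append]
  simp [scan]

theorem r02_scan_out {α β σ : Type} (f : σ × α → σ × β) (l : List α) (s : σ) (n : ℕ)
    (hn : n < l.length) :
    (scan f s l).2[n]? = some (f ((scan f s (l.take n)).1, l[n])).2 := by
  have h : l = l.take n ++ (l[n] :: l.drop (n + 1)) := by
    rw [← List.drop_eq_getElem_cons hn, List.take_append_drop]
  have h2 : scan f s l = scan f s (l.take n ++ (l[n] :: l.drop (n + 1))) := by rw [← h]
  rw [h2, r02_scan_append]
  have h3 : (scan f s (l.take n)).2.length = n := by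
    rw [r02_scan_length, List.length_take, Nat.min_eq_left (le_of_lt hn)]
  simp only [scan]
  rw [List.getElem?_append_right (by omega), h3, Nat.sub_self]
  simp

/-! ### Shifted rows -/

theorem r02_shiftRow_length (g0 : Γ) (j : ℤ) (l : List Γ) :
    l.length ≤ (shiftRow g0 j l).length := by
  unfold shiftRow
  split_ifs with h
  · simp
  · simp only [List.length_append, List.length_drop, List.length_replicate]
    omega

theorem r02_shiftRow_getD (g0 : Γ) (j : ℤ) (l : List Γ) (t : ℕ) :
    (shiftRow g0 j l).getD t g0 = gz g0 l (t - j) := by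
  unfold shiftRow gz
  simp only [List.getD_eq_getElem?_getD]
  split_ifs with h h1 h1
  · rw [List.getElem?_append_right (by rw [List.length_replicate]; omega), List.length_replicate]
    congr 2
    omega
  · rw [List.getElem?_append_left (by rw [List.length_replicate]; omega), List.getElem?_replicate]
    rw [if_pos (by omega)]
    rfl
  · have h2 : ((t : ℤ) - j).toNat = (-j).toNat + t := by omega
    rw [h2]
    by_cases h3 : t < (l.drop (-j).toNat).length
    · rw [List.getElem?_append_left h3, List.getElem?_drop]
    · rw [List.getElem?_append_right (by omega), List.getElem?_replicate]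
      rw [List.length_drop] at h3
      have h4 : l[(-j).toNat + t]? = none := by
        rw [List.getElem?_eq_none_iff]
        omega
      rw [h4]
      split_ifs <;> rfl
  · exfalso
    omega

theorem r02_offs_mem (D : ℕ) (o : ℕ × ℤ) (ho : o ∈ offs D) : 1 ≤ o.1 ∧ o.1 ≤ D := by
  unfold offs at ho
  rw [List.mem_flatMap] at ho
  obtain ⟨i, hi, ho⟩ := ho
  rw [List.mem_map] at ho
  obtain ⟨j, hj, rfl⟩ := ho
  rw [List.mem_range] at hi
  exact ⟨by simp, by simpa using hi⟩

theorem r02_fold (R : RData V Γ) (L : ℕ) (prev : List (List Γ))
    (hprev : ∀ i < R.D, (prev.getD i []).length = L) (os : List (ℕ × ℤ))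
    (hos : ∀ o ∈ os, 1 ≤ o.1 ∧ o.1 ≤ R.D) (acc : List V) (hacc : acc.length = L) :
    (os.foldl (fun acc o => List.zipWith (fun x g => x + R.w o.1 o.2 g) acc
      (shiftRow R.g0 o.2 (prev.getD (o.1 - 1) []))) acc).length = L ∧
    ∀ t < L, (os.foldl (fun acc o => List.zipWith (fun x g => x + R.w o.1 o.2 g) acc
      (shiftRow R.g0 o.2 (prev.getD (o.1 - 1) []))) acc).getD t 0 = acc.getD t 0 +
      (os.map (fun o => R.w o.1 o.2 (gz R.g0 (prev.getD (o.1 - 1) []) (t - o.2)))).sum := by
  induction os generalizing acc with
  | nil => simp [hacc]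
  | cons o os ih =>
    have h1 := hos o List.mem_cons_self
    have h2 : (prev.getD (o.1 - 1) []).length = L := hprev (o.1 - 1) (by omega)
    have h3 := r02_shiftRow_length R.g0 o.2 (prev.getD (o.1 - 1) [])
    have h4 : (List.zipWith (fun x g => x + R.w o.1 o.2 g) acc
        (shiftRow R.g0 o.2 (prev.getD (o.1 - 1) []))).length = L := by
      rw [List.length_zipWith]
      omega
    obtain ⟨h5, h6⟩ := ih (fun o' ho' => hos o' (List.mem_cons_of_mem _ ho')) _ h4
    rw [List.foldl_cons]
    refine ⟨h5, fun t ht => ?_⟩
    rw [h6 t ht, List.map_cons, List.sum_cons, ← add_assoc]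
    congr 1
    have h7 : t < acc.length := by omega
    have h8 : t < (shiftRow R.g0 o.2 (prev.getD (o.1 - 1) [])).length := by omega
    rw [← r02_shiftRow_getD]
    simp only [List.getD_eq_getElem?_getD]
    rw [List.getElem?_zipWith, List.getElem?_eq_getElem h7]
    simp only [List.getD_eq_getElem?_getD] at h8
    rw [List.getElem?_eq_getElem h8]
    simp

theorem length_linRow (R : RData V Γ) (L : ℕ) (row : List V) (prev : List (List Γ))
    (hrow : row.length = L) (hprev : prev.length = R.D) (hL : ∀ l ∈ prev, l.length = L) :
    (linRow R row prev).length = L := by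
  refine (r02_fold R L prev (fun i hi => ?_) (offs R.D) (r02_offs_mem R.D) row hrow).1
  have h : i < prev.length := by omega
  rw [List.getD_eq_getElem _ _ h]
  exact hL _ (List.getElem_mem h)

theorem linRow_spec (R : RData V Γ) (L : ℕ) (row : List V) (prev : List (List Γ))
    (hrow : row.length = L) (hprev : prev.length = R.D) (hL : ∀ l ∈ prev, l.length = L)
    (t : ℕ) (ht : t < L) :
    (linRow R row prev).getD t 0 = row.getD t 0 + ((offs R.D).map (fun o =>
      R.w o.1 o.2 (gz R.g0 (prev.getD (o.1 - 1) []) (t - o.2)))).sum := by
  refine (r02_fold R L prev (fun i hi => ?_) (offs R.D) (r02_offs_mem R.D) row hrow).2 t ht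
  have h : i < prev.length := by omega
  rw [List.getD_eq_getElem _ _ h]
  exact hL _ (List.getElem_mem h)

/-- the content of the cell `t` in a row, given the symbols `out` of the row -/
def ccell (R : RData V Γ) (row : List V) (prev : List (List Γ)) (out : List Γ) (t : ℕ) : V :=
  row.getD t 0 + ((offs R.D).map (fun o =>
      R.w o.1 o.2 (gz R.g0 (prev.getD (o.1 - 1) []) (t - o.2)))).sum +
    ((List.range R.D).map (fun j : ℕ => R.w 0 ((j : ℤ) + 1) (gz R.g0 out (t - ((j : ℤ) + 1))))).sum

/-- One step of a row. -/
theorem r02_cellStep (R : RData V Γ) (b a : Fin (R.D + 1)) (x : Bool × List Γ) (v c : V)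
    (hc : v + ((List.range R.D).map (fun j : ℕ => R.w 0 ((j : ℤ) + 1) (x.2.getD j R.g0))).sum = c) :
    (cellStep R b (x, (a, v))).2 = (R.dec b a c).getD R.g0 ∧
    (cellStep R b (x, (a, v))).1.2 = ((cellStep R b (x, (a, v))).2 :: x.2).take R.D ∧
    ((cellStep R b (x, (a, v))).1.1 = true ↔ x.1 = true ∧ (R.dec b a c).isSome) := by
  unfold cellStep
  simp only [hc]
  cases h : R.dec b a c with
  | none => simp
  | some g => simp

theorem rowStep_spec (R : RData V Γ) (L : ℕ) (b : Fin (R.D + 1)) (row : List V)
    (prev : List (List Γ)) (hrow : row.length = L) (hprev : prev.length = R.D)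
    (hL : ∀ l ∈ prev, l.length = L) :
    (rowStep R L b row prev).2.length = L ∧
    (∀ t < L, (rowStep R L b row prev).2.getD t R.g0 = (R.dec b (cl R.D (L - 1 - t))
      (ccell R row prev (rowStep R L b row prev).2 t)).getD R.g0) ∧
    ((rowStep R L b row prev).1.1 = true ↔ ∀ t < L, (R.dec b (cl R.D (L - 1 - t))
      (ccell R row prev (rowStep R L b row prev).2 t)).isSome) := by
  have hlin := length_linRow R L row prev hrow hprev hL
  have hcls : (cls R.D L).length = L := by simp [cls]
  have hlen : ((cls R.D L).zip (linRow R row prev)).length = L := by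
    rw [List.length_zip, hlin, hcls, Nat.min_self]
  set l := (cls R.D L).zip (linRow R row prev) with hl
  set f := cellStep R b with hf
  set s0 : Bool × List Γ := (true, List.replicate R.D R.g0) with hs0
  have hrs : rowStep R L b row prev = scan f s0 l := rfl
  rw [hrs]
  set out := (scan f s0 l).2 with hout
  have hget : ∀ t (ht : t < l.length), l[t] = (cl R.D (L - 1 - t), (linRow R row prev).getD t 0) := by
    intro t ht
    have ht' : t < L := by omega
    simp only [hl, List.getElem_zip]
    have h1 : t < (linRow R row prev).length := by omega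
    rw [List.getD_eq_getElem _ _ h1]
    congr 1
    simp [cls]
  -- the invariant for the list
  have key : ∀ n ≤ L, (∀ j < R.D, (scan f s0 (l.take n)).1.2.getD j R.g0 =
        gz R.g0 out ((n : ℤ) - ((j : ℤ) + 1))) ∧
      (∀ t < n, out.getD t R.g0 = (R.dec b (cl R.D (L - 1 - t)) (ccell R row prev out t)).getD R.g0) ∧
      ((scan f s0 (l.take n)).1.1 = true ↔ ∀ t < n, (R.dec b (cl R.D (L - 1 - t))
        (ccell R row prev out t)).isSome) := by
    intro n
    induction n with
    | zero =>
      intro _
      refine ⟨fun j hj => ?_, fun t ht => absurd ht (Nat.not_lt_zero t), ?_⟩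
      · simp only [List.take_zero, scan, hs0]
        unfold gz
        rw [if_neg (by push_cast; omega), List.getD_eq_getElem?_getD, List.getElem?_replicate,
          if_pos hj]
        rfl
      · simp [scan, hs0]
    | succ n ih =>
      intro hn
      obtain ⟨ih1, ih2, ih3⟩ := ih (by omega)
      have hn' : n < l.length := by omega
      have hc : (linRow R row prev).getD n 0 + ((List.range R.D).map (fun j : ℕ =>
          R.w 0 ((j : ℤ) + 1) ((scan f s0 (l.take n)).1.2.getD j R.g0))).sum =
          ccell R row prev out n := by
        rw [linRow_spec R L row prev hrow hprev hL n (by omega)]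
        unfold ccell
        congr 2
        refine List.map_congr_left (fun j hj => ?_)
        rw [ih1 j (List.mem_range.mp hj)]
      have hstep := r02_cellStep R b (cl R.D (L - 1 - n)) (scan f s0 (l.take n)).1 _ _ hc
      have e1 := r02_scan_step f l s0 n hn'
      have e2 := r02_scan_out f l s0 n hn'
      rw [hget n hn'] at e1 e2
      rw [← hout] at e2
      obtain ⟨q1, q2, q3⟩ := hstep
      have e3 : out.getD n R.g0 = (f ((scan f s0 (l.take n)).1,
          (cl R.D (L - 1 - n), (linRow R row prev).getD n 0))).2 := by
        rw [List.getD_eq_getElem?_getD, e2]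
        rfl
      refine ⟨fun j hj => ?_, fun t ht => ?_, ?_⟩
      · rw [e1]
        rw [q2]
        rw [List.getD_eq_getElem?_getD, List.getElem?_take, if_pos hj]
        cases j with
        | zero =>
          have h0 : ((n + 1 : ℕ) : ℤ) - (((0 : ℕ) : ℤ) + 1) = (n : ℤ) := by push_cast; ring
          rw [h0]
          unfold gz
          rw [if_pos (by omega), Int.toNat_natCast, e3]
          simp [hf]
        | succ j =>
          have h0 : ((n + 1 : ℕ) : ℤ) - (((j + 1 : ℕ) : ℤ) + 1) = (n : ℤ) - ((j : ℤ) + 1) := by
            push_cast; ring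
          rw [h0, ← ih1 j (by omega), List.getElem?_cons_succ, List.getD_eq_getElem?_getD]
      · rcases Nat.lt_succ_iff_lt_or_eq.mp ht with h | h
        · exact ih2 t h
        · subst h
          rw [e3]
          exact q1
      · rw [e1]
        rw [q3, ih3]
        constructor
        · rintro ⟨h1, h2⟩ t ht
          rcases Nat.lt_succ_iff_lt_or_eq.mp ht with h | h
          · exact h1 t h
          · subst h
            exact h2
        · intro h
          exact ⟨fun t ht => h t (by omega), h n (by omega)⟩
  obtain ⟨_, k2, k3⟩ := key L le_rfl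
  refine ⟨?_, k2, ?_⟩
  · rw [hout, r02_scan_length, hlen]
  · have htake : l.take L = l := by
      rw [← hlen]
      exact List.take_length
    rw [htake] at k3
    exact k3

end Pool.Agent.WPR
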