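import Pool.Agent.Lib.MP_2da099_lc.R2.R01
import Mathlib.Order.WellFoundedSet
import Mathlib.Data.Fintype.Pi

/-!
# R06: reduction data for finite coefficient groups

HINTS.  `Reg b a G`: `∀ j i, G (j, i) ≠ 0 → 0 ≤ i ∧ i ≤ b ∧ j ≤ a ∧ (i = 0 → 0 ≤ j)`.  For `v : V` let
`U v = {(b, a) : ℕ × ℕ | ∃ G ∈ N, Reg b a G ∧ G (0, 0) = v}`, closed upwards.  `ℕ × ℕ` is well partially
ordered (`Set.IsPWO`, Dickson), so `U v` is the set of the pairs above finitely many minimal elements; hence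
there is `D0` with: `(b, a) ∈ U v ↔ (min b D0, min a D0) ∈ U v`, for all `v` (finitely many `v`).
(Direct proof of this claim: for a chain-type argument use: for each `b` the set `{a | (b, a) ∈ U v}` is
empty or `[m_b, ∞)`, `m_b ∈ ℕ ∪ {∞}` is nonincreasing in `b`, so eventually constant from `b0` on; take `D0 ≥ b0`
and `D0 ≥` all finite `m_b`, `b ≤ b0`.)
For each `b, a ≤ D0` and `v` with `(b, a) ∈ U v` choose such a `G = W b a v`, with `W b a 0 = 0`.  Let `D ≥ D0 + 1`
be at least all `-j` with `W b a v (j, i) ≠ 0`.  `Γ = Fin (D0 + 1) × Fin (D0 + 1) × V` (a finite type),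
`g0 = (0, 0, 0)`, `w i j (b, a, v) = - W b a v (j, i)` (where `W = 0` if not in `U`), `dec b a v` =
`some (min b D0, min a D0, v)` if in `U v`, `none` otherwise — with `dec b a 0 = some g0` (define it separately
for `v = 0`).  `complete`: `(b, a) ∈ U v` implies the same for the classes: `min (min b D) D0 = min b D0`.
`fast_of_finite`: `CT.fin` on finite types.
-/

set_option autoImplicit false

namespace Pool.Agent.WPR

open Pool.Agent.Lib.PolyTime Pool.Agent.WPM Function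

/-- the support condition -/
def r06_Reg {V : Type} [AddCommGroup V] (b a : ℕ) (G : (ℤ × ℤ) →₀ V) : Prop :=
  ∀ j i : ℤ, G (j, i) ≠ 0 → 0 ≤ i ∧ i ≤ b ∧ j ≤ a ∧ (i = 0 → 0 ≤ j)

/-- the value `v` occurs -/
def r06_P {V : Type} [AddCommGroup V] (N : AddSubgroup ((ℤ × ℤ) →₀ V)) (v : V) (b a : ℕ) : Prop :=
  ∃ G ∈ N, r06_Reg b a G ∧ G (0, 0) = v

theorem r06_mono {V : Type} [AddCommGroup V] {N : AddSubgroup ((ℤ × ℤ) →₀ V)} {v : V}
    {b a b' a' : ℕ} (hb : b ≤ b') (ha : a ≤ a') (h : r06_P N v b a) : r06_P N v b' a' := by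
  obtain ⟨G, h1, h2, h3⟩ := h
  refine ⟨G, h1, fun j i hji => ?_, h3⟩
  obtain ⟨h4, h5, h6, h7⟩ := h2 j i hji
  exact ⟨h4, by omega, by omega, h7⟩

/-- an upward closed set of pairs is determined by finitely many classes -/
theorem r06_thr (U : ℕ → ℕ → Prop) (hU : ∀ b a b' a' : ℕ, b ≤ b' → a ≤ a' → U b a → U b' a') :
    ∃ D : ℕ, ∀ b a, U b a → U (min b D) (min a D) := by
  by_contra hcon
  push Not at hcon
  choose f g hf hg using hcon
  obtain ⟨φ, hφ⟩ := (Set.isPWO_of_wellQuasiOrderedLE (Set.univ : Set (ℕ × ℕ))).exists_monotone_subseq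
    (f := fun n => (f n, g n)) (fun n => Set.mem_univ _)
  set n := max (f (φ 0)) (g (φ 0)) with hn
  have h1 := hφ (Nat.zero_le n)
  have h2 : n ≤ φ n := φ.strictMono.le_apply
  have h3 : f (φ 0) ≤ f (φ n) := h1.1
  have h4 : g (φ 0) ≤ g (φ n) := h1.2
  have h5 : f (φ 0) ≤ n := le_max_left _ _
  have h6 : g (φ 0) ≤ n := le_max_right _ _
  exact hg (φ n) (hU _ _ _ _ (le_min h3 (h5.trans h2)) (le_min h4 (h6.trans h2)) (hf (φ 0)))

theorem r06_D0 {V : Type} [AddCommGroup V] [Finite V] (N : AddSubgroup ((ℤ × ℤ) →₀ V)) :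
    ∃ D : ℕ, ∀ v b a, r06_P N v b a → r06_P N v (min b D) (min a D) := by
  have h1 : ∀ v : V, ∃ D : ℕ, ∀ b a, r06_P N v b a → r06_P N v (min b D) (min a D) := fun v =>
    r06_thr (fun b a => r06_P N v b a) (fun b a b' a' hb ha h => r06_mono hb ha h)
  choose D hD using h1
  obtain ⟨M, hM⟩ := (Set.finite_range D).bddAbove
  refine ⟨M, fun v b a h => ?_⟩
  have h2 : D v ≤ M := hM ⟨v, rfl⟩
  exact r06_mono (min_le_min_left _ h2) (min_le_min_left _ h2) (hD v b a h)

open Classical in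
/-- the chosen function -/
noncomputable def r06_ch {V : Type} [AddCommGroup V] (N : AddSubgroup ((ℤ × ℤ) →₀ V)) (b a : ℕ)
    (v : V) : (ℤ × ℤ) →₀ V := if h : r06_P N v b a then h.choose else 0

theorem r06_ch_spec {V : Type} [AddCommGroup V] {N : AddSubgroup ((ℤ × ℤ) →₀ V)} {b a : ℕ}
    {v : V} (h : r06_P N v b a) : r06_ch N b a v ∈ N ∧ r06_Reg b a (r06_ch N b a v) ∧
      r06_ch N b a v (0, 0) = v := by
  unfold r06_ch
  rw [dif_pos h]
  exact h.choose_spec

/-- the set of the chosen functions -/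
def r06_S {V : Type} [AddCommGroup V] (N : AddSubgroup ((ℤ × ℤ) →₀ V)) (D : ℕ) :
    Set ((ℤ × ℤ) →₀ V) :=
  insert 0 (Set.range (fun x : Fin (D + 1) × Fin (D + 1) × V => r06_ch N x.1 x.2.1 x.2.2))

theorem r06_S_finite {V : Type} [AddCommGroup V] [Finite V] (N : AddSubgroup ((ℤ × ℤ) →₀ V))
    (D : ℕ) : (r06_S N D).Finite := (Set.finite_range _).insert 0

theorem r06_S_mem {V : Type} [AddCommGroup V] (N : AddSubgroup ((ℤ × ℤ) →₀ V)) (D b a : ℕ)
    (v : V) : r06_ch N (min b D) (min a D) v ∈ r06_S N D :=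
  Or.inr ⟨(⟨min b D, Nat.lt_succ_of_le (min_le_right _ _)⟩,
    ⟨min a D, Nat.lt_succ_of_le (min_le_right _ _)⟩, v), rfl⟩

theorem r06_bound {V : Type} [AddCommGroup V] (S : Set ((ℤ × ℤ) →₀ V)) (hS : S.Finite) :
    ∃ D : ℕ, ∀ G ∈ S, ∀ j i : ℤ, G (j, i) ≠ 0 → -(D : ℤ) ≤ j := by
  have h1 : (⋃ G ∈ S, ((G.support : Finset (ℤ × ℤ)) : Set (ℤ × ℤ))).Finite :=
    hS.biUnion (fun G _ => G.support.finite_toSet)
  obtain ⟨M, hM⟩ := (h1.image (fun c : ℤ × ℤ => (-c.1).toNat)).bddAbove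
  refine ⟨M, fun G hG j i hji => ?_⟩
  have h2 : (-j).toNat ≤ M := by
    refine hM ⟨(j, i), ?_, rfl⟩
    refine Set.mem_biUnion hG ?_
    rw [Finset.mem_coe, Finsupp.mem_support_iff]
    exact hji
  omega

theorem exists_rdata {V : Type} [AddCommGroup V] [Finite V] (N : AddSubgroup ((ℤ × ℤ) →₀ V))
    (hN : ∀ v : ℤ × ℤ, ∀ F ∈ N, sh v F ∈ N) :
    ∃ (Γ : Type) (_ : Finite Γ) (R : RData V Γ), R.Ok N := by
  classical
  obtain ⟨D0, hD0⟩ := r06_D0 N
  obtain ⟨D1, hD1⟩ := r06_bound (r06_S N D0) (r06_S_finite N D0)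
  have hfin : Finite (r06_S N D0) := (r06_S_finite N D0).to_subtype
  set D : ℕ := max 1 (max D0 D1) with hD
  have hDD0 : D0 ≤ D := (le_max_left _ _).trans (le_max_right _ _)
  have hDD1 : D1 ≤ D := (le_max_right _ _).trans (le_max_right _ _)
  let R : RData V (r06_S N D0) :=
    { D := D
      w := fun i j g => -(g.1 (j, (i : ℤ)))
      dec := fun b a v => if v = 0 then some ⟨0, Or.inl rfl⟩
        else if r06_P N v b a then some ⟨_, r06_S_mem N D0 b a v⟩ else none
      g0 := ⟨0, Or.inl rfl⟩ }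
  refine ⟨r06_S N D0, hfin, R, ?_⟩
  constructor
  · exact le_max_left _ _
  · exact hN
  · intro i j
    show -((0 : (ℤ × ℤ) →₀ V) (j, (i : ℤ))) = 0
    rw [Finsupp.zero_apply, neg_zero]
  · intro b a
    show (if (0 : V) = 0 then _ else _) = _
    rw [if_pos rfl]
  · intro b a c g hg
    have hg' : (if c = 0 then some (⟨0, Or.inl rfl⟩ : r06_S N D0)
        else if r06_P N c b a then some ⟨_, r06_S_mem N D0 b a c⟩ else none) = some g := hg
    by_cases hc : c = 0
    · rw [if_pos hc, Option.some_inj] at hg'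
      subst hg'
      refine ⟨0, N.zero_mem, ?_, ?_, ?_, ?_⟩
      · rw [Finsupp.zero_apply, hc]
      · intro j i hji
        rw [Finsupp.zero_apply] at hji
        exact absurd rfl hji
      · intro i j _
        rfl
      · intro j _
        rfl
    · rw [if_neg hc] at hg'
      by_cases hP : r06_P N c b a
      · rw [if_pos hP, Option.some_inj] at hg'
        obtain ⟨h1, h2, h3⟩ := r06_ch_spec (hD0 c b a hP)
        subst hg'
        refine ⟨_, h1, h3, ?_, ?_, ?_⟩
        · intro j i hji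
          obtain ⟨h4, h5, h6, h7⟩ := h2 j i hji
          have h8 := hD1 _ (r06_S_mem N D0 b a c) j i hji
          refine ⟨h4, ?_, ?_, ?_, h7⟩
          · have h9 : ((min (b : ℕ) D0 : ℕ) : ℤ) ≤ ((b : ℕ) : ℤ) := by exact_mod_cast min_le_left _ _
            exact h5.trans h9
          · have h9 : ((min (a : ℕ) D0 : ℕ) : ℤ) ≤ ((a : ℕ) : ℤ) := by exact_mod_cast min_le_left _ _
            exact h6.trans h9
          · have h9 : (D1 : ℤ) ≤ ((R.D : ℕ) : ℤ) := by
              show (D1 : ℤ) ≤ (D : ℤ)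
              exact_mod_cast hDD1
            linarith
        · intro i j _
          rfl
        · intro j _
          rfl
      · rw [if_neg hP] at hg'
        exact absurd hg' (by simp)
  · intro G hG b a hreg
    show (if G (0, 0) = 0 then some (⟨0, Or.inl rfl⟩ : r06_S N D0)
        else if r06_P N (G (0, 0)) (cl D b : Fin (D + 1)) (cl D a : Fin (D + 1)) then
          some ⟨_, r06_S_mem N D0 _ _ _⟩ else none).isSome
    by_cases hc : G (0, 0) = 0
    · rw [if_pos hc]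
      rfl
    · rw [if_neg hc, if_pos]
      · rfl
      · have h1 : r06_P N (G (0, 0)) b a := ⟨G, hG, hreg, rfl⟩
        exact r06_mono (min_le_min_left _ hDD0) (min_le_min_left _ hDD0) (hD0 _ _ _ h1)

end Pool.Agent.WPR
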