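import Pool.Agent.Lib.MP_2da099_lc.R2.R05
import Pool.Agent.Lib.MP_2da099_lc.R2.R06
import Pool.Agent.Lib.MP_2da099_lc.R2.G03
import Pool.Agent.Lib.MP_2da099_lc.R2.P10

/-!
# R07: torsion modules

HINTS.  `V = Fin k → ZMod E`, `R` from `exists_rdata`, `Γ` gets the encoding `encFintype`
(`Fintype.ofFinite`), `R.Fast` by `CT.fin` on the finite types (`V × Γ` and `V`; `CT f (fun _ => 0)` and
`CT.mono`).
Machine: `n = I.length`, `m = (D + 1) * (n + 3)`, `L = 3 * m`, rows `= vgrid u m L I` with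
`u κ = Pi.single κ 1`, answer `runM R L rows`.  `H = rows.length ≤ n + 1`.
Correctness: with `s0` from `vgrid_spec` let `F' = sh (m, -s0) (ftok u I)`, that is
`F' (t, s) = ftok u I (t - m, s0 + s)`; it is supported in `0 ≤ s < H`, `m - n ≤ t ≤ m + n`,
`D (H + 1) ≤ m - n`, and `ffun rows s t = F' (t, s)` for all `s t` (outside of the box both are zero).
`run_spec`, `red_iff` (`IsGam` for `fun s t => F' (t, s)`, which equals `ffun rows` as a function), and
`F' ∈ N ↔ ftok u I ∈ N` by translation invariance.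
Cost: all sizes are `O((n + 1) ^ 2)`: `gam` has `H` rows of length `L` (`length_gam`), symbols of bounded size
(`size_fin`, `size_list_le_of` twice).
-/

set_option autoImplicit false

namespace Pool.Agent.WPR

open Pool.Agent.Lib.PolyTime Pool.Agent.WPM Function

/-- The function of the values of the tokens. -/
noncomputable def ftok {k : ℕ} {V : Type} [AddCommGroup V] (u : Fin k → V) (I : List (Ins k)) :
    (ℤ × ℤ) →₀ V := ((ipos 0 I).map (fun x => Finsupp.single x.1 (u x.2))).sum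

theorem r07_single_sum {k : ℕ} {V : Type} [AddCommGroup V] (u : Fin k → V) (c : ℤ × ℤ)
    (L : List ((ℤ × ℤ) × Fin k)) :
    (L.map (fun x => Finsupp.single x.1 (u x.2))).sum c =
      ((L.filter (fun x => x.1 = c)).map (fun x => u x.2)).sum := by
  induction L with
  | nil => simp
  | cons x L ih =>
    rw [List.map_cons, List.sum_cons, Finsupp.add_apply, ih, Finsupp.single_apply]
    by_cases h : x.1 = c
    · rw [List.filter_cons_of_pos (by simpa using h)]
      simp [h]
    · rw [List.filter_cons_of_neg (by simpa using h)]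
      simp [h]

theorem ftok_apply {k : ℕ} {V : Type} [AddCommGroup V] (u : Fin k → V) (I : List (Ins k))
    (c : ℤ × ℤ) : ftok u I c = fcoef u I c :=
  r07_single_sum u c (ipos 0 I)

theorem r07_fcoef_ne {k : ℕ} {V : Type} [AddCommGroup V] (u : Fin k → V) (I : List (Ins k))
    (c : ℤ × ℤ) (h : fcoef u I c ≠ 0) : ∃ x ∈ ipos 0 I, x.1 = c := by
  by_contra hcon
  push Not at hcon
  apply h
  have h1 : (ipos 0 I).filter (fun x => x.1 = c) = [] := by
    rw [List.filter_eq_nil_iff]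
    intro x hx
    simpa using hcon x hx
  rw [fcoef, h1]
  rfl

theorem r07_getD_rows {V : Type} [AddCommGroup V] (rows : List (List V)) (L : ℕ)
    (hL : ∀ r ∈ rows, r.length = L) (s t : ℕ) (h : rows.length ≤ s ∨ L ≤ t) :
    (rows.getD s []).getD t 0 = 0 := by
  by_cases hs : s < rows.length
  · have h1 : rows.getD s [] = rows[s] := by
      rw [List.getD_eq_getElem _ _ hs]
    have h2 := hL rows[s] (List.getElem_mem hs)
    rw [h1]
    apply List.getD_eq_default
    rw [h2]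
    omega
  · have h1 : rows.getD s [] = [] := List.getD_eq_default _ _ (by omega)
    rw [h1]
    rfl

theorem r07_size2 {α : Type} [Enc α] (κ L : ℕ) (hκ : ∀ a : α, size a ≤ κ) (l : List (List α))
    (hl : ∀ r ∈ l, r.length ≤ L) : size l ≤ ((κ + 1) * (L + 1) + 1) * (l.length + 1) := by
  apply size_list_le_of
  intro r hr
  refine (size_list_le_of κ r (fun a _ => hκ a)).trans ?_
  exact Nat.mul_le_mul_left _ (by have := hl r hr; omega)

/-- the correctness of the machine -/
theorem r07_correct {k : ℕ} {V Γ : Type} [AddCommGroup V] (N : AddSubgroup ((ℤ × ℤ) →₀ V))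
    (R : RData V Γ) (hR : R.Ok N) (hN : ∀ v : ℤ × ℤ, ∀ F ∈ N, sh v F ∈ N) (u : Fin k → V)
    (I : List (Ins k)) (m L : ℕ) (hm : (R.D + 1) * (I.length + 3) ≤ m) (hL : L = 3 * m) :
    runM R L (vgrid u m L I) = true ↔ ftok u I ∈ N := by
  have hm1 : R.D * (I.length + 3) + I.length + 3 ≤ m := by
    have e : (R.D + 1) * (I.length + 3) = R.D * (I.length + 3) + (I.length + 3) := by ring
    omega
  obtain ⟨s0, hs0, hs1, hA, hB⟩ := vgrid_spec u m L I (by omega) (by omega)
  obtain ⟨hl1, hl2, hl3⟩ := length_vgrid u m L I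
  set rows := vgrid u m L I with hrows
  set F' := sh (((m : ℕ) : ℤ), -s0) (ftok u I) with hF'
  have hF'a : ∀ t s : ℤ, F' (t, s) = fcoef u I (t - m, s + s0) := by
    intro t s
    rw [hF', sh_apply, ftok_apply]
    congr 1
    ext
    · simp
    · simp
  have hsupp : ∀ t s : ℤ, F' (t, s) ≠ 0 → ∃ s' t' : ℕ, s' < rows.length ∧ t' < L ∧
      t = t' ∧ s = s' ∧ |t - m| ≤ I.length := by
    intro t s h
    rw [hF'a] at h
    obtain ⟨x, hx, hxe⟩ := r07_fcoef_ne u I _ h
    obtain ⟨s', t', h1, h2, h3⟩ := hB x hx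
    have hb := (ipos_bound I x hx).1
    rw [hxe] at h3 hb
    have h4 := congrArg Prod.fst h3
    have h5 := congrArg Prod.snd h3
    simp only at h4 h5 hb
    exact ⟨s', t', h1, h2, by omega, by omega, hb⟩
  have hff : ffun rows = fun s t => F' (t, s) := by
    funext s t
    by_cases hst : 0 ≤ s ∧ 0 ≤ t
    · by_cases hst2 : s.toNat < rows.length ∧ t.toNat < L
      · rw [ffun, if_pos hst, hA _ _ hst2.1 hst2.2, hF'a]
        have e1 : ((t.toNat : ℕ) : ℤ) = t := Int.toNat_of_nonneg hst.2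
        have e2 : ((s.toNat : ℕ) : ℤ) = s := Int.toNat_of_nonneg hst.1
        rw [e1, e2, add_comm s0 s]
      · rw [ffun, if_pos hst, r07_getD_rows rows L hl3 _ _ (by omega)]
        by_contra hcon
        obtain ⟨s', t', h1, h2, h3, h4, _⟩ := hsupp t s (fun h => hcon h.symm)
        omega
    · rw [ffun, if_neg hst]
      by_contra hcon
      obtain ⟨s', t', h1, h2, h3, h4, _⟩ := hsupp t s (fun h => hcon h.symm)
      omega
  obtain ⟨hg, hrun⟩ := run_spec R L rows hl3
  rw [hff] at hg hrun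
  have hbox : ∀ t s : ℤ, F' (t, s) ≠ 0 → 0 ≤ s ∧ s < rows.length ∧
      (R.D : ℤ) * (rows.length + 1) ≤ t ∧ t < L := by
    intro t s h
    obtain ⟨s', t', h1, h2, h3, h4, h5⟩ := hsupp t s h
    refine ⟨by omega, by omega, ?_, by omega⟩
    obtain ⟨h6, _⟩ := abs_le.1 h5
    have h7 : R.D * (rows.length + 1) ≤ R.D * (I.length + 3) :=
      Nat.mul_le_mul_left _ (by omega)
    have h8 : ((R.D * (rows.length + 1) : ℕ) : ℤ) ≤ ((R.D * (I.length + 3) : ℕ) : ℤ) := by
      exact_mod_cast h7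
    have h9 : ((R.D * (I.length + 3) + I.length + 3 : ℕ) : ℤ) ≤ (m : ℤ) := by exact_mod_cast hm1
    push_cast at h8 h9
    linarith
  have hred := red_iff R N hR F' rows.length L hbox _ hg
  rw [hrun, hred, hF']
  constructor
  · intro h
    have h1 := hN (-(((m : ℕ) : ℤ), -s0)) _ h
    have h2 : sh (-(((m : ℕ) : ℤ), -s0)) (sh (((m : ℕ) : ℤ), -s0) (ftok u I)) = ftok u I := by
      ext c
      rw [sh_apply, sh_apply]
      congr 1
      abel
    rwa [h2] at h1
  · exact hN _ _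

theorem quad_torsion {k E : ℕ} [NeZero E] (N : AddSubgroup ((ℤ × ℤ) →₀ (Fin k → ZMod E)))
    (hN : ∀ v : ℤ × ℤ, ∀ F ∈ N, sh v F ∈ N) :
    Quad (fun I : List (Ins k) => ftok (fun κ => (Pi.single κ 1 : Fin k → ZMod E)) I ∈ N) := by
  classical
  obtain ⟨Γ, hΓ, R, hR⟩ := exists_rdata N hN
  letI : Fintype Γ := Fintype.ofFinite Γ
  letI : Enc Γ := encFintype Γ
  have hfast : R.Fast := by
    constructor
    · intro i j
      exact (CT.fin _).mono 1 (fun _ => Nat.zero_le _)
    · intro b a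
      exact (CT.fin _).mono 1 (fun _ => Nat.zero_le _)
  obtain ⟨κ1, hκ1⟩ := size_fin (Fin k → ZMod E)
  obtain ⟨κ2, hκ2⟩ := size_fin Γ
  obtain ⟨κ3, hκ3⟩ := size_list_fin (Ins k)
  have h1 : CT (fun I : List (Ins k) => I.length) (fun I => I.length) := by
    refine (ct_length (α := Ins k)).mono κ3 (fun I => ?_)
    exact hκ3 I
  have hc : ∀ c : ℕ, CT (fun n : ℕ => c * n) (fun n => n) := by
    intro c
    refine ((ct_mul.comp (CT.pushConst (α := ℕ) c)).mono (c + 1) (fun n => ?_))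
    show 0 + (c + 1) * (n + 1) ≤ (c + 1) * (n + 1)
    omega
  have h3s : CT (fun n : ℕ => n + 3) (fun n => n) := by
    refine ((ct_succ.comp (ct_succ.comp ct_succ)).mono 1 (fun n => ?_))
    show 0 + 0 + 0 ≤ 1 * (n + 1)
    omega
  have h2 : CT (fun I : List (Ins k) => (R.D + 1) * (I.length + 3)) (fun I => I.length) := by
    refine (((hc (R.D + 1)).comp (h3s.comp h1)).mono 3 (fun I => ?_))
    show I.length + I.length + (I.length + 3) ≤ 3 * (I.length + 1)
    omega
  have h4 : CT (fun I : List (Ins k) => 3 * ((R.D + 1) * (I.length + 3)))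
      (fun I => I.length) := by
    refine (((hc 3).comp h2).mono (3 * (R.D + 1) + 1) (fun I => ?_))
    show I.length + (R.D + 1) * (I.length + 3) ≤ (3 * (R.D + 1) + 1) * (I.length + 1)
    have e : (3 * (R.D + 1) + 1) * (I.length + 1) = (R.D + 1) * (I.length + 3) +
        2 * (R.D + 1) * I.length + I.length + 1 := by ring
    omega
  have h5 : CT (fun I : List (Ins k) => (((R.D + 1) * (I.length + 3),
      3 * ((R.D + 1) * (I.length + 3))), I)) (fun I => I.length) := by
    have hid : CT (fun I : List (Ins k) => I) (fun _ => 0) := CT.of_enc_eq (fun _ => rfl)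
    refine (CT.pair (CT.pair h2 h4) hid).mono (2 * κ3 + 2) (fun I => ?_)
    have a1 := hκ3 I
    show size I + (size I + I.length + I.length) + 0 ≤ (2 * κ3 + 2) * (I.length + 1)
    have e : (2 * κ3 + 2) * (I.length + 1) = 2 * (κ3 * (I.length + 1)) + 2 * I.length + 2 := by
      ring
    omega
  -- a common bound
  set K : ℕ := 15 * (R.D + 1) with hK
  have hKb : ∀ n : ℕ, (R.D + 1) * (n + 3) + 3 * ((R.D + 1) * (n + 3)) + n + 1 + 1 ≤ K * (n + 1) := by
    intro n
    have e : K * (n + 1) = 4 * ((R.D + 1) * (n + 3)) + 11 * (R.D + 1) * n + 3 * (R.D + 1) := by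
      rw [hK]; ring
    have e2 : n ≤ (R.D + 1) * n := Nat.le_mul_of_pos_left n (by omega)
    have e3 : 11 * (R.D + 1) * n = 11 * ((R.D + 1) * n) := by ring
    omega
  have hsq : ∀ a n : ℕ, a ≤ K * (n + 1) → a ^ 2 ≤ K ^ 2 * (n + 1) ^ 2 := by
    intro a n h
    rw [← mul_pow]
    exact Nat.pow_le_pow_left h 2
  have h6 : CT (fun I : List (Ins k) => vgrid (fun κ => (Pi.single κ 1 : Fin k → ZMod E))
      ((R.D + 1) * (I.length + 3)) (3 * ((R.D + 1) * (I.length + 3))) I)
      (fun I => (I.length + 1) ^ 2) := by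
    have a1 := ct_vgrid (fun κ => (Pi.single κ 1 : Fin k → ZMod E))
      (fun κ => (CT.fin _).mono 1 (fun _ => Nat.zero_le _)) κ1
      (fun l => (hκ1 _).trans (Nat.le_mul_of_pos_right _ (by omega)))
    refine (a1.comp h5).mono (K ^ 2 + 1) (fun I => ?_)
    have a2 := hsq ((R.D + 1) * (I.length + 3) + 3 * ((R.D + 1) * (I.length + 3)) + I.length + 1)
      I.length (by have := hKb I.length; omega)
    show I.length + ((R.D + 1) * (I.length + 3) + 3 * ((R.D + 1) * (I.length + 3)) +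
      I.length + 1) ^ 2 ≤ (K ^ 2 + 1) * ((I.length + 1) ^ 2 + 1)
    have e : (K ^ 2 + 1) * ((I.length + 1) ^ 2 + 1) = K ^ 2 * (I.length + 1) ^ 2 + K ^ 2 +
      (I.length + 1) ^ 2 + 1 := by ring
    have e2 : I.length ≤ (I.length + 1) ^ 2 := by nlinarith
    omega
  have h7 := CT.pair h4 h6
  have h8 := (ct_runM R hfast).comp h7
  have hbound : ∀ {α : Type} [Enc α] (κ : ℕ) (hκ : ∀ a : α, size a ≤ κ) (n : ℕ)
      (l : List (List α)) (hl : ∀ r ∈ l, r.length ≤ 3 * ((R.D + 1) * (n + 3)))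
      (hll : l.length ≤ n + 1), size l ≤ (κ + 2) * K * 2 * (n + 1) ^ 2 := by
    intro α _ κ hκ n l hl hll
    refine (r07_size2 κ _ hκ l hl).trans ?_
    have a1 := hKb n
    have a2 : (κ + 1) * (3 * ((R.D + 1) * (n + 3)) + 1) + 1 ≤ (κ + 2) * (K * (n + 1)) := by
      have a3 : (κ + 1) * (3 * ((R.D + 1) * (n + 3)) + 1) ≤ (κ + 1) * (K * (n + 1)) :=
        Nat.mul_le_mul_left _ (by omega)
      have a4 : (κ + 2) * (K * (n + 1)) = (κ + 1) * (K * (n + 1)) + K * (n + 1) := by ring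
      omega
    calc ((κ + 1) * (3 * ((R.D + 1) * (n + 3)) + 1) + 1) * (l.length + 1)
        ≤ ((κ + 2) * (K * (n + 1))) * (2 * (n + 1)) := Nat.mul_le_mul a2 (by omega)
      _ = (κ + 2) * K * 2 * (n + 1) ^ 2 := by ring
  refine (quad_of_ct h8 (κ3 + 1 + 1 + K ^ 2 + (κ1 + 2) * K * 2 + (κ2 + 2) * K * 2)
    (fun I => ?_)).congr (fun I => ?_)
  · obtain ⟨hl1, hl2, hl3⟩ := length_vgrid (fun κ => (Pi.single κ 1 : Fin k → ZMod E))
      ((R.D + 1) * (I.length + 3)) (3 * ((R.D + 1) * (I.length + 3))) I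
    obtain ⟨hg1, hg2⟩ := length_gam R (3 * ((R.D + 1) * (I.length + 3)))
      (vgrid (fun κ => (Pi.single κ 1 : Fin k → ZMod E))
      ((R.D + 1) * (I.length + 3)) (3 * ((R.D + 1) * (I.length + 3))) I) hl3
    have b1 := hbound κ1 hκ1 I.length _ (fun r hr => (hl3 r hr).le) hl2
    have b2 := hbound κ2 hκ2 I.length _ (fun r hr => (hg2 r hr).le) (hg1.le.trans hl2)
    have b3 := hsq (3 * ((R.D + 1) * (I.length + 3)) + (vgrid (fun κ => (Pi.single κ 1 :
      Fin k → ZMod E)) ((R.D + 1) * (I.length + 3)) (3 * ((R.D + 1) * (I.length + 3))) I).length + 1)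
      I.length (by have := hKb I.length; omega)
    have b4 := hκ3 I
    have b5 : κ3 * (I.length + 1) ≤ κ3 * (I.length + 1) ^ 2 :=
      Nat.mul_le_mul_left _ (by nlinarith)
    have b6 : I.length ≤ (I.length + 1) ^ 2 := by nlinarith
    show size I + I.length + (I.length + 1) ^ 2 + ((3 * ((R.D + 1) * (I.length + 3)) +
      (vgrid (fun κ => (Pi.single κ 1 : Fin k → ZMod E)) ((R.D + 1) * (I.length + 3))
        (3 * ((R.D + 1) * (I.length + 3))) I).length + 1) ^ 2 +
      size (vgrid (fun κ => (Pi.single κ 1 : Fin k → ZMod E)) ((R.D + 1) * (I.length + 3))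
        (3 * ((R.D + 1) * (I.length + 3))) I) +
      size (gam R (3 * ((R.D + 1) * (I.length + 3))) (vgrid (fun κ => (Pi.single κ 1 :
        Fin k → ZMod E)) ((R.D + 1) * (I.length + 3)) (3 * ((R.D + 1) * (I.length + 3))) I))) ≤ _
    have e : (κ3 + 1 + 1 + K ^ 2 + (κ1 + 2) * K * 2 + (κ2 + 2) * K * 2) * (I.length + 1) ^ 2 =
      κ3 * (I.length + 1) ^ 2 + (I.length + 1) ^ 2 + (I.length + 1) ^ 2 +
      K ^ 2 * (I.length + 1) ^ 2 + (κ1 + 2) * K * 2 * (I.length + 1) ^ 2 +
      (κ2 + 2) * K * 2 * (I.length + 1) ^ 2 := by ring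
    rw [e]
    omega
  · exact r07_correct N R hR hN _ I _ _ le_rfl rfl

end Pool.Agent.WPR
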