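import Pool.Agent.Lib.MP_2da099_lc.R2.Defs

/-!
# Z00: what a zipper computes

The state of a zipper whose local state is `(r, c)` (a register and the current cell), compared with a
function `F : ℤ → γ` of all cells and a position `b`.

HINTS.  `zget dflt z i` is the cell `i` steps to the right of the current one.  Show by induction on the
list of instructions, for arbitrary corresponding states `z`, `g` (i.e. `z.1.1 = g.1`,
`∀ i, g.2.2 (g.2.1 + i) = zget dflt z i`), that the correspondence is kept by one step: three cases of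
`dir a`; `List.getD` of `tail`, `cons`, `headD`.  `zlen`: the numbers `lo`, `hi` (number of cells on the left
and on the right): `g.2.1 - z.2.1.length ≤ g.2.1' ...`: the lowest row `b - left.length` only decreases, by
at most one per instruction, and the highest row `b + right.length` only increases.
-/

set_option autoImplicit false

namespace Pool.Agent.WPR

open Pool.Agent.Lib.PolyTime Pool.Agent.WPM Function

variable {ι ρ γ : Type}

/-- the zipper which starts with `r` and empty cells -/
def zrun (dir : ι → Option Bool) (f0 : ι × (ρ × γ) → ρ × γ) (dflt : γ) (r : ρ) (w : List ι) :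
    (ρ × γ) × (List γ × List γ) :=
  w.foldl (fun y a => zstep dir f0 (fun x : ι × (ρ × γ) => (x.2.2, x.2.1))
    (fun x : γ × ρ => (x.2, x.1)) dflt a y) ((r, dflt), ([], []))

/-- one step for functions -/
def fstep (dir : ι → Option Bool) (f0 : ι × (ρ × γ) → ρ × γ) (a : ι) (y : ρ × (ℤ × (ℤ → γ))) :
    ρ × (ℤ × (ℤ → γ)) :=
  match dir a with
  | none => ((f0 (a, (y.1, y.2.2 y.2.1))).1, (y.2.1,
      Function.update y.2.2 y.2.1 (f0 (a, (y.1, y.2.2 y.2.1))).2))
  | some true => (y.1, (y.2.1 + 1, y.2.2))
  | some false => (y.1, (y.2.1 - 1, y.2.2))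

/-- the run for functions -/
def frun (dir : ι → Option Bool) (f0 : ι × (ρ × γ) → ρ × γ) (dflt : γ) (r : ρ) (w : List ι) :
    ρ × (ℤ × (ℤ → γ)) :=
  w.foldl (fun y a => fstep dir f0 a y) (r, (0, fun _ => dflt))

/-- the cell `i` steps to the right -/
def zget (dflt : γ) (z : (ρ × γ) × (List γ × List γ)) (i : ℤ) : γ :=
  if i = 0 then z.1.2 else if 0 < i then z.2.2.getD (i - 1).toNat dflt
    else z.2.1.getD (-i - 1).toNat dflt

/-- one step of the zipper -/
def z00_step (dir : ι → Option Bool) (f0 : ι × (ρ × γ) → ρ × γ) (dflt : γ) (a : ι)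
    (y : (ρ × γ) × (List γ × List γ)) : (ρ × γ) × (List γ × List γ) :=
  zstep dir f0 (fun x : ι × (ρ × γ) => (x.2.2, x.2.1)) (fun x : γ × ρ => (x.2, x.1)) dflt a y

theorem z00_step_none (dir : ι → Option Bool) (f0 : ι × (ρ × γ) → ρ × γ) (dflt : γ) (a : ι)
    (y : (ρ × γ) × (List γ × List γ)) (h : dir a = none) :
    z00_step dir f0 dflt a y = (f0 (a, y.1), y.2) := by
  unfold z00_step zstep
  rw [h]

theorem z00_step_true (dir : ι → Option Bool) (f0 : ι × (ρ × γ) → ρ × γ) (dflt : γ) (a : ι)
    (y : (ρ × γ) × (List γ × List γ)) (h : dir a = some true) :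
    z00_step dir f0 dflt a y = ((y.1.1, y.2.2.headD dflt), (y.1.2 :: y.2.1, y.2.2.tail)) := by
  unfold z00_step zstep
  rw [h]

theorem z00_step_false (dir : ι → Option Bool) (f0 : ι × (ρ × γ) → ρ × γ) (dflt : γ) (a : ι)
    (y : (ρ × γ) × (List γ × List γ)) (h : dir a = some false) :
    z00_step dir f0 dflt a y = ((y.1.1, y.2.1.headD dflt), (y.2.1.tail, y.1.2 :: y.2.2)) := by
  unfold z00_step zstep
  rw [h]

theorem z00_fstep_none (dir : ι → Option Bool) (f0 : ι × (ρ × γ) → ρ × γ) (a : ι)
    (y : ρ × (ℤ × (ℤ → γ))) (h : dir a = none) :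
    fstep dir f0 a y = ((f0 (a, (y.1, y.2.2 y.2.1))).1, (y.2.1,
      Function.update y.2.2 y.2.1 (f0 (a, (y.1, y.2.2 y.2.1))).2)) := by
  unfold fstep
  rw [h]

theorem z00_fstep_true (dir : ι → Option Bool) (f0 : ι × (ρ × γ) → ρ × γ) (a : ι)
    (y : ρ × (ℤ × (ℤ → γ))) (h : dir a = some true) :
    fstep dir f0 a y = (y.1, (y.2.1 + 1, y.2.2)) := by
  unfold fstep
  rw [h]

theorem z00_fstep_false (dir : ι → Option Bool) (f0 : ι × (ρ × γ) → ρ × γ) (a : ι)
    (y : ρ × (ℤ × (ℤ → γ))) (h : dir a = some false) :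
    fstep dir f0 a y = (y.1, (y.2.1 - 1, y.2.2)) := by
  unfold fstep
  rw [h]

theorem z00_zget_zero (dflt : γ) (z : (ρ × γ) × (List γ × List γ)) : zget dflt z 0 = z.1.2 := by
  unfold zget
  rw [if_pos rfl]

theorem z00_zget_pos (dflt : γ) (z : (ρ × γ) × (List γ × List γ)) (j : ℕ) :
    zget dflt z ((j : ℤ) + 1) = z.2.2.getD j dflt := by
  unfold zget
  rw [if_neg (by omega), if_pos (by omega)]
  congr 1
  omega

theorem z00_zget_neg (dflt : γ) (z : (ρ × γ) × (List γ × List γ)) (j : ℕ) :
    zget dflt z (-(j : ℤ) - 1) = z.2.1.getD j dflt := by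
  unfold zget
  rw [if_neg (by omega), if_neg (by omega)]
  congr 1
  omega

theorem z00_int_cases (i : ℤ) : i = 0 ∨ (∃ j : ℕ, i = (j : ℤ) + 1) ∨ ∃ j : ℕ, i = -(j : ℤ) - 1 := by
  rcases lt_trichotomy i 0 with h | h | h
  · exact Or.inr (Or.inr ⟨(-i - 1).toNat, by omega⟩)
  · exact Or.inl h
  · exact Or.inr (Or.inl ⟨(i - 1).toNat, by omega⟩)

theorem z00_headD (dflt : γ) (l : List γ) : l.headD dflt = l.getD 0 dflt := by
  cases l <;> simp

theorem z00_tail (dflt : γ) (l : List γ) (j : ℕ) : l.tail.getD j dflt = l.getD (j + 1) dflt := by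
  cases l <;> simp

theorem z00_cong (F : ℤ → γ) {a b : ℤ} (h : a = b) : F a = F b := by rw [h]

/-- correspondence of the states -/
def Z00R (dflt : γ) (n : ℕ) (z : (ρ × γ) × (List γ × List γ)) (g : ρ × (ℤ × (ℤ → γ))) : Prop :=
  z.1.1 = g.1 ∧ (∀ i : ℤ, g.2.2 (g.2.1 + i) = zget dflt z i) ∧
    g.2.1 - (z.2.1.length : ℤ) ≤ 0 ∧ -(n : ℤ) ≤ g.2.1 - (z.2.1.length : ℤ) ∧
    z.2.1.length + z.2.2.length ≤ n

theorem z00_rel_step (dir : ι → Option Bool) (f0 : ι × (ρ × γ) → ρ × γ) (dflt : γ) (a : ι) (n : ℕ)
    (z : (ρ × γ) × (List γ × List γ)) (g : ρ × (ℤ × (ℤ → γ))) (h : Z00R dflt n z g) :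
    Z00R dflt (n + 1) (z00_step dir f0 dflt a z) (fstep dir f0 a g) := by
  obtain ⟨h1, h2, h3, h4, h5⟩ := h
  have h0 : g.2.2 g.2.1 = z.1.2 := by
    have := h2 0
    rw [add_zero, z00_zget_zero] at this
    exact this
  have hz : z.1 = (g.1, g.2.2 g.2.1) := by
    rw [h0, ← h1]
  rcases hd : dir a with _ | b
  · rw [z00_step_none dir f0 dflt a z hd, z00_fstep_none dir f0 a g hd, ← hz]
    refine ⟨rfl, ?_, h3, by simp only; omega, by simp only; omega⟩
    intro i
    rcases z00_int_cases i with rfl | ⟨j, rfl⟩ | ⟨j, rfl⟩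
    · rw [add_zero, z00_zget_zero]
      simp
    · rw [z00_zget_pos]
      simp only
      rw [Function.update_of_ne (by omega), h2, z00_zget_pos]
    · rw [z00_zget_neg]
      simp only
      rw [Function.update_of_ne (by omega), h2, z00_zget_neg]
  · cases b
    · rw [z00_step_false dir f0 dflt a z hd, z00_fstep_false dir f0 a g hd]
      have hl : z.2.1.tail.length = z.2.1.length - 1 := List.length_tail
      refine ⟨h1, ?_, ?_, ?_, ?_⟩
      · intro i
        simp only
        rcases z00_int_cases i with rfl | ⟨j, rfl⟩ | ⟨j, rfl⟩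
        · rw [z00_zget_zero]
          have := h2 (-((0 : ℕ) : ℤ) - 1)
          rw [z00_zget_neg] at this
          simp only [z00_headD]
          rw [← this]
          exact z00_cong g.2.2 (by push_cast; omega)
        · rw [z00_zget_pos]
          cases j with
          | zero =>
            have := h2 0
            rw [z00_zget_zero] at this
            simp only [List.getD_cons_zero]
            rw [← this]
            exact z00_cong g.2.2 (by push_cast; omega)
          | succ j =>
            have := h2 ((j : ℤ) + 1)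
            rw [z00_zget_pos] at this
            simp only [List.getD_cons_succ]
            rw [← this]
            exact z00_cong g.2.2 (by push_cast; omega)
        · rw [z00_zget_neg]
          have := h2 (-((j + 1 : ℕ) : ℤ) - 1)
          rw [z00_zget_neg] at this
          simp only [z00_tail]
          rw [← this]
          exact z00_cong g.2.2 (by push_cast; omega)
      · simp only [hl]; omega
      · simp only [hl]; omega
      · simp only [hl, List.length_cons]; omega
    · rw [z00_step_true dir f0 dflt a z hd, z00_fstep_true dir f0 a g hd]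
      have hl : z.2.2.tail.length = z.2.2.length - 1 := List.length_tail
      refine ⟨h1, ?_, ?_, ?_, ?_⟩
      · intro i
        simp only
        rcases z00_int_cases i with rfl | ⟨j, rfl⟩ | ⟨j, rfl⟩
        · rw [z00_zget_zero]
          have := h2 (((0 : ℕ) : ℤ) + 1)
          rw [z00_zget_pos] at this
          simp only [z00_headD]
          rw [← this]
          exact z00_cong g.2.2 (by push_cast; omega)
        · rw [z00_zget_pos]
          have := h2 (((j + 1 : ℕ) : ℤ) + 1)
          rw [z00_zget_pos] at this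
          simp only [z00_tail]
          rw [← this]
          exact z00_cong g.2.2 (by push_cast; omega)
        · rw [z00_zget_neg]
          cases j with
          | zero =>
            have := h2 0
            rw [z00_zget_zero] at this
            simp only [List.getD_cons_zero]
            rw [← this]
            exact z00_cong g.2.2 (by push_cast; omega)
          | succ j =>
            have := h2 (-(j : ℤ) - 1)
            rw [z00_zget_neg] at this
            simp only [List.getD_cons_succ]
            rw [← this]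
            exact z00_cong g.2.2 (by push_cast; omega)
      · simp only [List.length_cons]; push_cast; omega
      · simp only [List.length_cons]; push_cast; omega
      · simp only [hl, List.length_cons]; omega

theorem z00_rel_foldl (dir : ι → Option Bool) (f0 : ι × (ρ × γ) → ρ × γ) (dflt : γ) (w : List ι) :
    ∀ (n : ℕ) (z : (ρ × γ) × (List γ × List γ)) (g : ρ × (ℤ × (ℤ → γ))), Z00R dflt n z g →
      Z00R dflt (n + w.length) (w.foldl (fun y a => z00_step dir f0 dflt a y) z)
        (w.foldl (fun y a => fstep dir f0 a y) g) := by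
  induction w with
  | nil => intro n z g h; exact h
  | cons a w ih =>
    intro n z g h
    rw [List.foldl_cons, List.foldl_cons, List.length_cons]
    have h1 := ih (n + 1) _ _ (z00_rel_step dir f0 dflt a n z g h)
    have h2 : n + 1 + w.length = n + (w.length + 1) := by omega
    rw [h2] at h1
    exact h1

theorem z00_rel (dir : ι → Option Bool) (f0 : ι × (ρ × γ) → ρ × γ) (dflt : γ) (r : ρ)
    (w : List ι) : Z00R dflt w.length (zrun dir f0 dflt r w) (frun dir f0 dflt r w) := by
  have h1 := z00_rel_foldl dir f0 dflt w 0 ((r, dflt), ([], [])) (r, (0, fun _ => dflt)) (by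
    refine ⟨rfl, ?_, by simp, by simp, by simp⟩
    intro i
    rcases z00_int_cases i with rfl | ⟨j, rfl⟩ | ⟨j, rfl⟩
    · rw [z00_zget_zero]
    · rw [z00_zget_pos]; simp
    · rw [z00_zget_neg]; simp)
  rw [zero_add] at h1
  exact h1

theorem zrun_spec (dir : ι → Option Bool) (f0 : ι × (ρ × γ) → ρ × γ) (dflt : γ) (r : ρ)
    (w : List ι) : (zrun dir f0 dflt r w).1.1 = (frun dir f0 dflt r w).1 ∧
    ∀ i : ℤ, (frun dir f0 dflt r w).2.2 ((frun dir f0 dflt r w).2.1 + i) =
      zget dflt (zrun dir f0 dflt r w) i :=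
  ⟨(z00_rel dir f0 dflt r w).1, (z00_rel dir f0 dflt r w).2.1⟩

/-- All cells of the zipper, from the left to the right. -/
def zrows (z : (ρ × γ) × (List γ × List γ)) : List γ := z.2.1.reverse ++ z.1.2 :: z.2.2

/-- The list of the cells is the restriction of the function to the visited interval. -/
theorem zrows_spec (dir : ι → Option Bool) (f0 : ι × (ρ × γ) → ρ × γ) (dflt : γ) (r : ρ)
    (w : List ι) : ∃ s0 : ℤ, s0 ≤ 0 ∧ -(w.length : ℤ) ≤ s0 ∧
      (zrows (zrun dir f0 dflt r w)).length ≤ w.length + 1 ∧
      0 < (zrows (zrun dir f0 dflt r w)).length ∧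
      (∀ s : ℕ, (zrows (zrun dir f0 dflt r w)).getD s dflt =
        (frun dir f0 dflt r w).2.2 (s0 + s)) ∧
      ∀ i : ℤ, (i < s0 ∨ s0 + (zrows (zrun dir f0 dflt r w)).length ≤ i) →
        (frun dir f0 dflt r w).2.2 i = dflt := by
  obtain ⟨h1, h2, h3, h4, h5⟩ := z00_rel dir f0 dflt r w
  set z := zrun dir f0 dflt r w with hz
  set g := frun dir f0 dflt r w with hg
  have hlen : (zrows z).length = z.2.1.length + z.2.2.length + 1 := by
    unfold zrows
    rw [List.length_append, List.length_reverse, List.length_cons]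
    omega
  refine ⟨g.2.1 - (z.2.1.length : ℤ), h3, h4, by omega, by omega, ?_, ?_⟩
  · intro s
    have h6 := h2 ((s : ℤ) - z.2.1.length)
    have h7 : g.2.1 + ((s : ℤ) - z.2.1.length) = g.2.1 - (z.2.1.length : ℤ) + s := by ring
    rw [h7] at h6
    rw [h6]
    unfold zrows
    rcases lt_trichotomy s z.2.1.length with h | h | h
    · obtain ⟨j, hj⟩ : ∃ j : ℕ, (s : ℤ) - z.2.1.length = -(j : ℤ) - 1 :=
        ⟨z.2.1.length - s - 1, by omega⟩
      rw [hj, z00_zget_neg, List.getD_append _ _ _ _ (by rw [List.length_reverse]; exact h)]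
      rw [List.getD_eq_getElem _ _ (by rw [List.length_reverse]; exact h), List.getElem_reverse,
        List.getD_eq_getElem _ _ (by omega)]
      congr 1
      omega
    · have hj : (s : ℤ) - z.2.1.length = 0 := by omega
      rw [hj, z00_zget_zero, List.getD_append_right _ _ _ _ (by rw [List.length_reverse]; omega),
        List.length_reverse, h, Nat.sub_self, List.getD_cons_zero]
    · obtain ⟨j, hj⟩ : ∃ j : ℕ, s = z.2.1.length + j + 1 := ⟨s - z.2.1.length - 1, by omega⟩
      have hj' : (s : ℤ) - z.2.1.length = (j : ℤ) + 1 := by omega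
      have hj2 : s - z.2.1.length = j + 1 := by omega
      rw [hj', z00_zget_pos, List.getD_append_right _ _ _ _ (by rw [List.length_reverse]; omega),
        List.length_reverse, hj2, List.getD_cons_succ]
  · intro i hi
    have h6 := h2 (i - g.2.1)
    have h7 : g.2.1 + (i - g.2.1) = i := by ring
    rw [h7] at h6
    rw [h6]
    rw [hlen] at hi
    rcases hi with hi | hi
    · obtain ⟨j, hj⟩ : ∃ j : ℕ, i - g.2.1 = -(j : ℤ) - 1 := ⟨(g.2.1 - i - 1).toNat, by omega⟩
      rw [hj, z00_zget_neg]
      exact List.getD_eq_default _ _ (by omega)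
    · obtain ⟨j, hj⟩ : ∃ j : ℕ, i - g.2.1 = (j : ℤ) + 1 := ⟨(i - g.2.1 - 1).toNat, by omega⟩
      rw [hj, z00_zget_pos]
      exact List.getD_eq_default _ _ (by push_cast at hi; omega)

/-- The positions that were visited are in the interval. -/
theorem zrows_all (dir : ι → Option Bool) (f0 : ι × (ρ × γ) → ρ × γ) (dflt : γ) (r : ρ)
    (w : List ι) (P : γ → Prop) (hP : P dflt) :
    (∀ c ∈ zrows (zrun dir f0 dflt r w), P c) ↔ ∀ i, P ((frun dir f0 dflt r w).2.2 i) := by
  obtain ⟨s0, _, _, _, _, h5, h6⟩ := zrows_spec dir f0 dflt r w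
  set L := zrows (zrun dir f0 dflt r w) with hL
  constructor
  · intro h i
    by_cases hi : i < s0 ∨ s0 + L.length ≤ i
    · rw [h6 i hi]
      exact hP
    · push Not at hi
      obtain ⟨s, hs⟩ : ∃ s : ℕ, i = s0 + s := ⟨(i - s0).toNat, by omega⟩
      rw [hs, ← h5 s]
      rw [List.getD_eq_getElem _ _ (by omega)]
      exact h _ (List.getElem_mem _)
  · intro h c hc
    obtain ⟨s, hs, rfl⟩ := List.getElem_of_mem hc
    have := h5 s
    rw [List.getD_eq_getElem _ _ hs] at this
    rw [this]
    exact h _

end Pool.Agent.WPR
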