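import Pool.Agent.Lib.MP_2da099_lc.R2.Z01
import Pool.Agent.Lib.MP_2da099_lc.R2.I01
import Mathlib.LinearAlgebra.FiniteDimensional.Basic

/-!
# Z02: finite-dimensional modules

HINTS.  `N = δ + 1`, `δ = finrank V`.  Let `b` be a basis, `D > 0` an integer such that `D • T (-mvec m)` has
an integer matrix for the four moves `m`, and the vectors `D • u κ` have integer coordinates.
State `(S, c) ∈ ℤ ^ δ × ℤ`, start `(0, 1)`.  Move `m`: `(D T(-mvec m) S, D c)`; token `κ`:
`(S + c * (D u κ), c)`.  These are integer matrices.  Invariant after the instructions `I` with `t` moves and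
the end `e`: `c = D ^ t` and `S = D ^ (t + 1) • T (-e) (sum of T x.1 (u x.2) over ipos 0 I)`.
`T (-e)` is invertible (`T (-e) * T e = T 0 = 1`).  So `S = 0` iff the sum is zero.
Induction with `List.foldl` from the right end (`List.reverseRecOn`) or with a general start state: for all
`S, c`, starting at the position `p`.  Use `quad_matrix` with `S = ` the first `δ` coordinates (index types:
`Fin (δ + 1)` with `Fin.castSucc`, `Fin.last`).
-/

set_option autoImplicit false

namespace Pool.Agent.WPR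

open Pool.Agent.Lib.PolyTime Pool.Agent.WPM Function

/-- common denominator -/
theorem z02_den {ι : Type} [Fintype ι] (q : ι → ℚ) :
    ∃ D : ℕ, 0 < D ∧ ∀ l, ∃ z : ℤ, (z : ℚ) = (D : ℚ) * q l := by
  classical
  refine ⟨∏ l, (q l).den, Finset.prod_pos fun l _ => (q l).den_pos, fun l => ?_⟩
  refine ⟨(∏ l' ∈ Finset.univ.erase l, ((q l').den : ℤ)) * (q l).num, ?_⟩
  rw [← Finset.mul_prod_erase Finset.univ (fun l => (q l).den) (Finset.mem_univ l)]
  have h1 : ((q l).den : ℚ) * q l = (q l).num := by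
    rw [mul_comm]
    exact Rat.mul_den_eq_num _
  push_cast
  rw [mul_comm ((q l).den : ℚ), mul_assoc, h1]

section

variable {k : ℕ} {V : Type} [AddCommGroup V] [Module ℚ V]

/-- step of the rational machine -/
def z02_vs (D : ℕ) (T : ℤ × ℤ → Module.End ℚ V) (u : Fin k → V) (y : V × ℚ) (a : Ins k) : V × ℚ :=
  match a with
  | Sum.inl m => ((D : ℚ) • T (-mvec m) y.1, (D : ℚ) * y.2)
  | Sum.inr κ => (y.1 + y.2 • ((D : ℚ) • u κ), y.2)

theorem z02_shift (T : ℤ × ℤ → Module.End ℚ V) (hadd : ∀ v w, T (v + w) = T v * T w)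
    (u : Fin k → V) (m : ℤ × ℤ) (l : List ((ℤ × ℤ) × Fin k)) :
    ((l.map (fun x => (x.1 + m, x.2))).map (fun x => T x.1 (u x.2))).sum =
      T m ((l.map (fun x => T x.1 (u x.2))).sum) := by
  induction l with
  | nil => simp
  | cons x l ih =>
    simp only [List.map_cons, List.sum_cons]
    rw [ih, map_add, add_comm x.1 m, hadd]
    rfl

/-- the invariant of the rational machine -/
theorem z02_inv (D : ℕ) (T : ℤ × ℤ → Module.End ℚ V) (h0 : T 0 = 1)
    (hadd : ∀ v w, T (v + w) = T v * T w) (u : Fin k → V) (I : List (Ins k)) :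
    ∀ (s : V) (c : ℚ), ∃ t : ℕ, (I.foldl (z02_vs D T u) (s, c)).1 =
      ((D : ℚ) ^ t) • T (-endp 0 I)
        (s + (c * (D : ℚ)) • ((ipos 0 I).map (fun x => T x.1 (u x.2))).sum) := by
  induction I with
  | nil =>
    intro s c
    refine ⟨0, ?_⟩
    have h1 : T (-endp 0 ([] : List (Ins k))) = 1 := by
      show T (-0) = 1
      rw [neg_zero, h0]
    rw [h1]
    simp [ipos]
  | cons a I ih =>
    intro s c
    cases a with
    | inl m =>
      obtain ⟨t, ht⟩ := ih ((D : ℚ) • T (-mvec m) s) ((D : ℚ) * c)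
      refine ⟨t + 1, ?_⟩
      show (I.foldl (z02_vs D T u) ((D : ℚ) • T (-mvec m) s, (D : ℚ) * c)).1 = _
      rw [ht]
      have e1 : endp 0 (Sum.inl m :: I) = endp 0 I + mvec m := by
        show endp (0 + mvec m) I = _
        rw [endp_add]
      have e2 : ipos 0 (Sum.inl m :: I) = (ipos 0 I).map (fun x => (x.1 + mvec m, x.2)) := by
        show ipos (0 + mvec m) I = _
        rw [ipos_add]
      rw [e1, e2, z02_shift T hadd u]
      set X := ((ipos 0 I).map (fun x => T x.1 (u x.2))).sum with hX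
      have e3 : T (-(endp 0 I + mvec m)) = T (-endp 0 I) * T (-mvec m) := by
        rw [← hadd, neg_add]
      have e4 : T (-mvec m) (T (mvec m) X) = X := by
        have h1 : T (-mvec m) * T (mvec m) = 1 := by
          rw [← hadd, neg_add_cancel, h0]
        have h2 := congrArg (fun f : Module.End ℚ V => f X) h1
        exact h2
      rw [e3]
      show (D : ℚ) ^ t • T (-endp 0 I) ((D : ℚ) • T (-mvec m) s + ((D : ℚ) * c * (D : ℚ)) • X) =
        (D : ℚ) ^ (t + 1) • T (-endp 0 I) (T (-mvec m) (s + (c * (D : ℚ)) • T (mvec m) X))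
      have e5 : (D : ℚ) • T (-mvec m) s + ((D : ℚ) * c * (D : ℚ)) • X =
          (D : ℚ) • (T (-mvec m) s + (c * (D : ℚ)) • X) := by
        rw [smul_add, smul_smul, mul_assoc]
      rw [map_add (T (-mvec m)), map_smul (T (-mvec m)), e4, e5, map_smul (T (-endp 0 I)),
        smul_smul, ← pow_succ]
    | inr κ =>
      obtain ⟨t, ht⟩ := ih (s + c • ((D : ℚ) • u κ)) c
      refine ⟨t, ?_⟩
      show (I.foldl (z02_vs D T u) (s + c • ((D : ℚ) • u κ), c)).1 = _
      rw [ht]
      have e1 : endp 0 (Sum.inr κ :: I) = endp 0 I := rfl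
      have e2 : ((ipos 0 (Sum.inr κ :: I)).map (fun x => T x.1 (u x.2))).sum =
          u κ + ((ipos 0 I).map (fun x => T x.1 (u x.2))).sum := by
        show T 0 (u κ) + _ = _
        rw [h0]
        rfl
      rw [e1, e2, smul_add, smul_smul, add_assoc]

variable {δ : ℕ}

/-- the vector of a state -/
noncomputable def z02_phi (b : Module.Basis (Fin δ) ℚ V) (x : Fin (δ + 1) → ℤ) : V :=
  ∑ i, ((x (Fin.succ i) : ℤ) : ℚ) • b i

theorem z02_phi_zero (b : Module.Basis (Fin δ) ℚ V) (x : Fin (δ + 1) → ℤ) :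
    z02_phi b x = 0 ↔ ∀ i : Fin δ, x (Fin.succ i) = 0 := by
  constructor
  · intro h i
    have h1 := Fintype.linearIndependent_iff.1 b.linearIndependent
      (fun i => ((x (Fin.succ i) : ℤ) : ℚ)) h i
    exact_mod_cast h1
  · intro h
    unfold z02_phi
    refine Finset.sum_eq_zero fun i _ => ?_
    rw [h i, Int.cast_zero, zero_smul]

/-- the integer matrices -/
def z02_A (D : ℕ) (Q : Fin 2 × Bool → Fin δ → Fin δ → ℤ) (U : Fin k → Fin δ → ℤ) (a : Ins k) :
    Matrix (Fin (δ + 1)) (Fin (δ + 1)) ℤ :=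
  match a with
  | Sum.inl m => Matrix.of (Fin.cons (Fin.cons (D : ℤ) (fun _ => 0))
      (fun i => Fin.cons 0 (fun j => Q m i j)))
  | Sum.inr κ => Matrix.of (Fin.cons (Fin.cons 1 (fun _ => 0))
      (fun i => Fin.cons (U κ i) (fun j => if i = j then 1 else 0)))

theorem z02_step (b : Module.Basis (Fin δ) ℚ V) (D : ℕ) (T : ℤ × ℤ → Module.End ℚ V) (u : Fin k → V)
    (Q : Fin 2 × Bool → Fin δ → Fin δ → ℤ) (U : Fin k → Fin δ → ℤ)
    (hQ : ∀ m i j, ((Q m i j : ℤ) : ℚ) = (D : ℚ) * b.repr (T (-mvec m) (b j)) i)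
    (hU : ∀ κ i, ((U κ i : ℤ) : ℚ) = (D : ℚ) * b.repr (u κ) i) (a : Ins k)
    (x : Fin (δ + 1) → ℤ) :
    (z02_phi b ((z02_A D Q U a).mulVec x), ((((z02_A D Q U a).mulVec x) 0 : ℤ) : ℚ)) =
      z02_vs D T u (z02_phi b x, ((x 0 : ℤ) : ℚ)) a := by
  cases a with
  | inl m =>
    have h1 : ((z02_A (k := k) D Q U (Sum.inl m)).mulVec x) 0 = D * x 0 := by
      unfold Matrix.mulVec dotProduct
      rw [Fin.sum_univ_succ]
      simp [z02_A]
    have h2 : ∀ i : Fin δ, ((z02_A (k := k) D Q U (Sum.inl m)).mulVec x) (Fin.succ i) =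
        ∑ j, Q m i j * x (Fin.succ j) := by
      intro i
      unfold Matrix.mulVec dotProduct
      rw [Fin.sum_univ_succ]
      simp [z02_A]
    refine Prod.ext ?_ ?_
    · show z02_phi b ((z02_A D Q U (Sum.inl m)).mulVec x) = (D : ℚ) • T (-mvec m) (z02_phi b x)
      unfold z02_phi
      rw [map_sum, Finset.smul_sum]
      have h3 : ∀ j : Fin δ, (D : ℚ) • T (-mvec m) (((x (Fin.succ j) : ℤ) : ℚ) • b j) =
          ∑ i, (((Q m i j : ℤ) : ℚ) * ((x (Fin.succ j) : ℤ) : ℚ)) • b i := by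
        intro j
        rw [map_smul, ← b.sum_repr (T (-mvec m) (b j)), Finset.smul_sum, Finset.smul_sum]
        refine Finset.sum_congr rfl fun i _ => ?_
        rw [smul_smul, smul_smul, hQ]
        congr 1
        ring
      simp only [h3]
      rw [Finset.sum_comm]
      refine Finset.sum_congr rfl fun i _ => ?_
      rw [h2, ← Finset.sum_smul]
      push_cast
      rfl
    · show ((((z02_A D Q U (Sum.inl m)).mulVec x) 0 : ℤ) : ℚ) = (D : ℚ) * ((x 0 : ℤ) : ℚ)
      rw [h1]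
      push_cast
      rfl
  | inr κ =>
    have h1 : ((z02_A D Q U (Sum.inr κ : Ins k)).mulVec x) 0 = x 0 := by
      unfold Matrix.mulVec dotProduct
      rw [Fin.sum_univ_succ]
      simp [z02_A]
    have h2 : ∀ i : Fin δ, ((z02_A D Q U (Sum.inr κ : Ins k)).mulVec x) (Fin.succ i) =
        U κ i * x 0 + x (Fin.succ i) := by
      intro i
      unfold Matrix.mulVec dotProduct
      rw [Fin.sum_univ_succ]
      simp [z02_A]
    refine Prod.ext ?_ ?_
    · show z02_phi b ((z02_A D Q U (Sum.inr κ)).mulVec x) =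
        z02_phi b x + ((x 0 : ℤ) : ℚ) • ((D : ℚ) • u κ)
      unfold z02_phi
      have h3 : ((x 0 : ℤ) : ℚ) • ((D : ℚ) • u κ) =
          ∑ i, (((U κ i : ℤ) : ℚ) * ((x 0 : ℤ) : ℚ)) • b i := by
        conv_lhs => rw [← b.sum_repr (u κ)]
        rw [Finset.smul_sum, Finset.smul_sum]
        refine Finset.sum_congr rfl fun i _ => ?_
        rw [smul_smul, smul_smul, hU]
        congr 1
        ring
      rw [h3, ← Finset.sum_add_distrib]
      refine Finset.sum_congr rfl fun i _ => ?_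
      rw [h2, ← add_smul, Int.cast_add, Int.cast_mul, add_comm]
    · show ((((z02_A D Q U (Sum.inr κ)).mulVec x) 0 : ℤ) : ℚ) = ((x 0 : ℤ) : ℚ)
      rw [h1]

theorem z02_fold (b : Module.Basis (Fin δ) ℚ V) (D : ℕ) (T : ℤ × ℤ → Module.End ℚ V) (u : Fin k → V)
    (Q : Fin 2 × Bool → Fin δ → Fin δ → ℤ) (U : Fin k → Fin δ → ℤ)
    (hQ : ∀ m i j, ((Q m i j : ℤ) : ℚ) = (D : ℚ) * b.repr (T (-mvec m) (b j)) i)
    (hU : ∀ κ i, ((U κ i : ℤ) : ℚ) = (D : ℚ) * b.repr (u κ) i) (I : List (Ins k)) :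
    ∀ (x : Fin (δ + 1) → ℤ),
      (z02_phi b (I.foldl (fun x a => (z02_A D Q U a).mulVec x) x),
        (((I.foldl (fun x a => (z02_A D Q U a).mulVec x) x) 0 : ℤ) : ℚ)) =
      I.foldl (z02_vs D T u) (z02_phi b x, ((x 0 : ℤ) : ℚ)) := by
  induction I with
  | nil => intro x; rfl
  | cons a I ih =>
    intro x
    rw [List.foldl_cons, List.foldl_cons, ih, z02_step b D T u Q U hQ hU]

end

theorem quad_fin {k : ℕ} (V : Type) [AddCommGroup V] [Module ℚ V] [FiniteDimensional ℚ V]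
    (T : ℤ × ℤ → Module.End ℚ V) (h0 : T 0 = 1) (hadd : ∀ v w, T (v + w) = T v * T w)
    (u : Fin k → V) :
    Quad (fun I : List (Ins k) => ((ipos 0 I).map (fun x => T x.1 (u x.2))).sum = 0) := by
  set δ := Module.finrank ℚ V with hδ
  let b : Module.Basis (Fin δ) ℚ V := Module.finBasis ℚ V
  obtain ⟨D, hD, hz⟩ := z02_den (ι := ((Fin 2 × Bool) × (Fin δ × Fin δ)) ⊕ (Fin k × Fin δ))
    (fun l => match l with
      | Sum.inl l => b.repr (T (-mvec l.1) (b l.2.2)) l.2.1
      | Sum.inr l => b.repr (u l.1) l.2)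
  choose z hz using hz
  let Q : Fin 2 × Bool → Fin δ → Fin δ → ℤ := fun m i j => z (Sum.inl (m, (i, j)))
  let U : Fin k → Fin δ → ℤ := fun κ i => z (Sum.inr (κ, i))
  have hQ : ∀ m i j, ((Q m i j : ℤ) : ℚ) = (D : ℚ) * b.repr (T (-mvec m) (b j)) i :=
    fun m i j => hz (Sum.inl (m, (i, j)))
  have hU : ∀ κ i, ((U κ i : ℤ) : ℚ) = (D : ℚ) * b.repr (u κ) i :=
    fun κ i => hz (Sum.inr (κ, i))
  let x0 : Fin (δ + 1) → ℤ := Fin.cons 1 (fun _ => 0)
  refine (quad_matrix (z02_A (k := k) D Q U) x0 {i | i ≠ 0}).congr fun I => ?_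
  have h1 := congrArg Prod.fst (z02_fold b D T u Q U hQ hU I x0)
  have hphi : z02_phi b x0 = 0 := by
    rw [z02_phi_zero]
    intro i
    rfl
  have hx0 : (((x0 0 : ℤ)) : ℚ) = 1 := by
    show (((1 : ℤ)) : ℚ) = 1
    norm_num
  rw [hphi, hx0] at h1
  obtain ⟨t, ht⟩ := z02_inv D T h0 hadd u I 0 1
  rw [ht, zero_add, one_mul] at h1
  have h1' : z02_phi b (I.foldl (fun x a => (z02_A D Q U a).mulVec x) x0) =
      (D : ℚ) ^ t • T (-endp 0 I)
        ((D : ℚ) • ((ipos 0 I).map (fun x => T x.1 (u x.2))).sum) := h1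
  have hDq : (D : ℚ) ≠ 0 := by exact_mod_cast hD.ne'
  constructor
  · intro h
    have h2 : z02_phi b (I.foldl (fun x a => (z02_A D Q U a).mulVec x) x0) = 0 := by
      rw [z02_phi_zero]
      intro i
      exact h (Fin.succ i) (Fin.succ_ne_zero i)
    rw [h1', smul_eq_zero] at h2
    have h3 := h2.resolve_left (pow_ne_zero t hDq)
    have h4 : T (endp 0 I) * T (-endp 0 I) = 1 := by
      rw [← hadd, add_neg_cancel, h0]
    have h5 := congrArg (fun f : Module.End ℚ V =>
      f ((D : ℚ) • ((ipos 0 I).map (fun x => T x.1 (u x.2))).sum)) h4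
    have h6 : (D : ℚ) • ((ipos 0 I).map (fun x => T x.1 (u x.2))).sum = 0 := by
      have h7 : T (endp 0 I) (T (-endp 0 I)
          ((D : ℚ) • ((ipos 0 I).map (fun x => T x.1 (u x.2))).sum)) =
          (D : ℚ) • ((ipos 0 I).map (fun x => T x.1 (u x.2))).sum := h5
      rw [← h7, h3, map_zero]
    exact (smul_eq_zero.1 h6).resolve_left hDq
  · intro h i hi
    rw [h, smul_zero, map_zero, smul_zero, z02_phi_zero] at h1'
    obtain ⟨j, rfl⟩ := Fin.exists_succ_eq.2 (show i ≠ 0 from hi)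
    exact h1' j

end Pool.Agent.WPR
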