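import Pool.Agent.Lib.MP_2da099_lc.R2.Z00
import Pool.Agent.Lib.MP_2da099_lc.R2.P04
import Pool.Agent.Lib.MP_2da099_lc.R2.P08
import Pool.Agent.Lib.MP_2da099_lc.R2.P10
import Pool.Agent.Lib.MP_2da099_lc.R2.N04
import Pool.Agent.Lib.MP_2da099_lc.R2.N05
import Mathlib.Data.Matrix.Mul

/-!
# Z03: the zipper machine with registers

The registers `reg κ : Fin N → ℤ` are changed by the moves in the direction `0` only; a token of colour `κ`
is the current value of the register `κ` in the current row.  `zlist` is the list of the (row, value).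

HINTS.  Zipper (`ct_zfold`, Z00) over the rows: `ρ = List (List (ZB β))` (the `k` registers, each a list of
length `N`), `γ = List (ZB β)` (the sum of the tokens of the row), `dflt = List.replicate N 0`,
`dir (inl (1, b)) = some b`, otherwise `none`.
`f0 (inl (0, b), (r, v)) = (r.map (fun y => (linMap rows_b y).map (· / β)), v)` (`ct_map`, `ct_linMap`,
`ct_map_zbdiv`), `f0 (inr κ, (r, v)) = (r, v + r[κ])` (`ct_map_zblin 1`; taking the `κ`-th element of `r` for
the constant `κ` is `CT.lcase` `κ` times, or keep the registers and use `ct_drop` with a constant), all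
together `ct_fincase` over the finite type `Ins k`.
Start: `β ^ n • u κ` (`ct_length`, `ct_zbpow`, then for each `κ` and each coordinate `ct_zbsmul (u κ i)`,
`CT.mapConst`).  Sizes: all numbers are at most `C ^ (n + 1)` in absolute value (after `t` moves
`|reg| ≤ β ^ n * |u| * (M + 1) ^ t` because `|x / β| ≤ |x| + 1`, say; sums of at most `n` of them), so
all states and cells have size `O(n + 1)` (`size_zblist_le`), each step costs `O(n + 1)`.
At the end all cells are tested (`zrows_all`; the left list, the current cell, the right list; `ct_all`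
with `ct_all ct_zbzero`): total size `O((n + 1) ^ 2)`.
Correctness: by induction on `I` the function `F` of `frun` satisfies: `F b` = (old `F b`) + the sum of the
entries of `zlist` in the row `b`.
-/

set_option autoImplicit false

namespace Pool.Agent.WPR

open Pool.Agent.Lib.PolyTime Pool.Agent.WPM Function

/-- The list of the tokens with their rows and values. -/
def zlist {k N : ℕ} (β : ℕ) (A B : Matrix (Fin N) (Fin N) ℤ) :
    ℤ → (Fin k → Fin N → ℤ) → List (Ins k) → List (ℤ × (Fin N → ℤ))
  | _, _, [] => []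
  | b, r, Sum.inl m :: l => if m.1 = 0 then
      zlist β A B b (fun κ i => ((if m.2 then A else B).mulVec (r κ)) i / (β : ℤ)) l
      else zlist β A B (b + (mvec m).2) r l
  | b, r, Sum.inr κ :: l => (b, r κ) :: zlist β A B b r l

section

variable {β : ℕ}

/-- the list of a vector -/
def z03_c (β N : ℕ) (v : Fin N → ℤ) : List (ZB β) :=
  (List.finRange N).map (fun i => (ZB.mk (v i) : ZB β))

/-- the list of the registers -/
def z03_r (β k N : ℕ) (r : Fin k → Fin N → ℤ) : List (List (ZB β)) :=
  (List.finRange k).map (fun κ => z03_c β N (r κ))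

/-- the rows of a matrix -/
def z03_rows {N : ℕ} (A : Matrix (Fin N) (Fin N) ℤ) : List (List ℤ) :=
  (List.finRange N).map (fun i => (List.finRange N).map (fun j => A i j))

/-- the local step -/
def z03_f {k N : ℕ} (β : ℕ) (A B : Matrix (Fin N) (Fin N) ℤ) (a : Ins k)
    (x : List (List (ZB β)) × List (ZB β)) : List (List (ZB β)) × List (ZB β) :=
  match a with
  | Sum.inl m => (x.1.map (fun y => (linMap (z03_rows (if m.2 then A else B)) y).map
      (fun y => (ZB.mk (y.val / (β : ℤ)) : ZB β))), x.2)
  | Sum.inr κ => (x.1, List.zipWith (fun a b => a + (1 : ℤ) • b) x.2 (x.1.getD κ []))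

theorem z03_zip {α γ δ : Type} (f : α → γ → δ) {ι : Type} (g : ι → α) (h : ι → γ) (L : List ι) :
    List.zipWith f (L.map g) (L.map h) = L.map (fun i => f (g i) (h i)) := by
  induction L with
  | nil => rfl
  | cons a L ih => rw [List.map_cons, List.map_cons, List.zipWith_cons_cons, ih, List.map_cons]

theorem z03_linMap {N : ℕ} (A : Matrix (Fin N) (Fin N) ℤ) (v : Fin N → ℤ) :
    linMap (z03_rows A) (z03_c β N v) = z03_c β N (A.mulVec v) := by
  unfold linMap z03_rows z03_c
  rw [List.map_map]
  refine List.map_congr_left (fun i _ => ?_)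
  simp only [Function.comp]
  rw [z03_zip]
  change ((List.finRange N).map (fun j => A i j * v j)).sum = A.mulVec v i
  rw [← Fin.sum_univ_def]
  rfl

theorem z03_div {N : ℕ} (v : Fin N → ℤ) : (z03_c β N v).map
    (fun y => (ZB.mk (y.val / (β : ℤ)) : ZB β)) = z03_c β N (fun i => v i / (β : ℤ)) := by
  unfold z03_c
  rw [List.map_map]
  rfl

theorem z03_add {N : ℕ} (v w : Fin N → ℤ) : List.zipWith (fun a b : ZB β => a + (1 : ℤ) • b)
    (z03_c β N v) (z03_c β N w) = z03_c β N (v + w) := by
  unfold z03_c
  rw [z03_zip]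
  refine List.map_congr_left (fun i _ => ?_)
  rw [one_smul]
  rfl

theorem z03_getD {k N : ℕ} (r : Fin k → Fin N → ℤ) (κ : Fin k) :
    (z03_r β k N r).getD κ [] = z03_c β N (r κ) := by
  unfold z03_r
  rw [List.getD_eq_getElem _ _ (by rw [List.length_map, List.length_finRange]; exact κ.isLt),
    List.getElem_map]
  congr 2
  simp

theorem z03_regs {k N : ℕ} (A : Matrix (Fin N) (Fin N) ℤ) (r : Fin k → Fin N → ℤ) :
    (z03_r β k N r).map (fun y => (linMap (z03_rows A) y).map
      (fun y => (ZB.mk (y.val / (β : ℤ)) : ZB β))) =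
      z03_r β k N (fun κ i => (A.mulVec (r κ)) i / (β : ℤ)) := by
  unfold z03_r
  rw [List.map_map]
  refine List.map_congr_left (fun κ _ => ?_)
  simp only [Function.comp]
  rw [z03_linMap, z03_div]

theorem z03_c_inj {N : ℕ} (v w : Fin N → ℤ) (h : z03_c β N v = z03_c β N w) : v = w := by
  funext i
  unfold z03_c at h
  have h1 := List.map_inj_left.1 h i (List.mem_finRange i)
  exact h1

/-- the step -/
def z03_g {k N : ℕ} (β : ℕ) (A B : Matrix (Fin N) (Fin N) ℤ)
    (x : Ins k × (List (List (ZB β)) × List (ZB β))) : List (List (ZB β)) × List (ZB β) :=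
  z03_f β A B x.1 x.2

theorem z03_run {k N : ℕ} (A B : Matrix (Fin N) (Fin N) ℤ) (I : List (Ins k)) :
    ∀ (b : ℤ) (r : Fin k → Fin N → ℤ) (V : ℤ → Fin N → ℤ),
    ∃ (r' : List (List (ZB β))) (b' : ℤ),
      I.foldl (fun y a => fstep gdir (z03_g β A B) a y)
        (z03_r β k N r, (b, fun i => z03_c β N (V i))) =
      (r', (b', fun i => z03_c β N (V i + (((zlist β A B b r I).filter
        (fun x => x.1 = i)).map Prod.snd).sum))) := by
  induction I with
  | nil =>
    intro b r V
    refine ⟨z03_r β k N r, b, ?_⟩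
    simp [zlist]
  | cons a I ih =>
    intro b r V
    rw [List.foldl_cons]
    rcases a with m | κ
    · by_cases hm : m.1 = 0
      · have hd : gdir (Sum.inl m : Ins k) = none := by
          unfold gdir
          simp only
          rw [if_pos hm]
        obtain ⟨r', b', h⟩ := ih b (fun κ i => ((if m.2 then A else B).mulVec (r κ)) i / (β : ℤ)) V
        refine ⟨r', b', ?_⟩
        have h1 : zlist β A B b r (Sum.inl m :: I) = zlist β A B b
            (fun κ i => ((if m.2 then A else B).mulVec (r κ)) i / (β : ℤ)) I := by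
          rw [zlist, if_pos hm]
        rw [h1, ← h, z00_fstep_none _ _ _ _ hd]
        have h2 : z03_g β A B ((Sum.inl m : Ins k), (z03_r β k N r, z03_c β N (V b))) =
            (z03_r β k N (fun κ i => ((if m.2 then A else B).mulVec (r κ)) i / (β : ℤ)),
              z03_c β N (V b)) := by
          unfold z03_g z03_f
          simp only
          rw [z03_regs]
        simp only
        rw [h2]
        simp only
        congr 3
        exact Function.update_eq_self b (fun i => z03_c β N (V i))
      · obtain ⟨r', b', h⟩ := ih (b + (mvec m).2) r V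
        refine ⟨r', b', ?_⟩
        have h1 : zlist β A B b r (Sum.inl m :: I) = zlist β A B (b + (mvec m).2) r I := by
          rw [zlist, if_neg hm]
        rw [h1, ← h]
        have hd : gdir (Sum.inl m : Ins k) = some m.2 := by
          unfold gdir
          simp only
          rw [if_neg hm]
        congr 1
        cases h2 : m.2 with
        | true =>
          rw [h2] at hd
          rw [z00_fstep_true _ _ _ _ hd]
          have h3 : (mvec m).2 = 1 := by
            unfold mvec
            rw [if_neg hm, h2]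
            rfl
          rw [h3]
        | false =>
          rw [h2] at hd
          rw [z00_fstep_false _ _ _ _ hd]
          have h3 : (mvec m).2 = -1 := by
            unfold mvec
            rw [if_neg hm, h2]
            rfl
          rw [h3]
          rfl
    · have hd : gdir (Sum.inr κ : Ins k) = none := rfl
      obtain ⟨r', b', h⟩ := ih b r (Function.update V b (V b + r κ))
      refine ⟨r', b', ?_⟩
      rw [z00_fstep_none _ _ _ _ hd]
      have h2 : z03_g β A B ((Sum.inr κ : Ins k), (z03_r β k N r, z03_c β N (V b))) =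
            (z03_r β k N r, z03_c β N (V b + r κ)) := by
        unfold z03_g z03_f
        simp only
        rw [z03_getD, z03_add]
      simp only
      rw [h2]
      have h3 : Function.update (fun i => z03_c β N (V i)) b (z03_c β N (V b + r κ)) =
          fun i => z03_c β N (Function.update V b (V b + r κ) i) := by
        funext i
        by_cases hi : i = b
        · subst hi
          rw [Function.update_self, Function.update_self]
        · rw [Function.update_of_ne hi, Function.update_of_ne hi]
      simp only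
      rw [h3, h]
      congr 2
      funext i
      congr 1
      have h4 : zlist β A B b r (Sum.inr κ :: I) = (b, r κ) :: zlist β A B b r I := rfl
      rw [h4]
      by_cases hi : b = i
      · subst hi
        rw [Function.update_self, List.filter_cons_of_pos (by simp), List.map_cons,
          List.sum_cons, add_assoc]
      · rw [Function.update_of_ne (Ne.symm hi), List.filter_cons_of_neg (by simpa using hi)]

/-! ### Sizes -/

/-- the bound for a cell -/
def z03_cell (N S : ℕ) (c : List (ZB β)) : Prop := c.length ≤ N ∧ ∀ y ∈ c, y.val.natAbs ≤ S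

/-- the invariant -/
def z03_ok (k N R S : ℕ) (z : (List (List (ZB β)) × List (ZB β)) ×
    (List (List (ZB β)) × List (List (ZB β)))) : Prop :=
  (z.1.1.length ≤ k ∧ ∀ l ∈ z.1.1, z03_cell N R l) ∧ z03_cell N S z.1.2 ∧
    (∀ c ∈ z.2.1, z03_cell N S c) ∧ ∀ c ∈ z.2.2, z03_cell N S c

theorem z03_cell_mono {N S S' : ℕ} (h : S ≤ S') {c : List (ZB β)} (hc : z03_cell N S c) :
    z03_cell N S' c := ⟨hc.1, fun y hy => (hc.2 y hy).trans h⟩

theorem z03_ok_mono {k N R S R' S' : ℕ} (h : R ≤ R') (h' : S ≤ S')
    {z : (List (List (ZB β)) × List (ZB β)) × (List (List (ZB β)) × List (List (ZB β)))}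
    (hz : z03_ok k N R S z) : z03_ok k N R' S' z :=
  ⟨⟨hz.1.1, fun l hl => z03_cell_mono h (hz.1.2 l hl)⟩, z03_cell_mono h' hz.2.1,
    fun c hc => z03_cell_mono h' (hz.2.2.1 c hc), fun c hc => z03_cell_mono h' (hz.2.2.2 c hc)⟩

theorem z03_head {N S : ℕ} {L : List (List (ZB β))} {d : List (ZB β)}
    (h : ∀ c ∈ L, z03_cell N S c) (hd : z03_cell N S d) : z03_cell N S (L.headD d) := by
  cases L with
  | nil => exact hd
  | cons c L => exact h c (List.mem_cons_self ..)

theorem z03_linlen {N : ℕ} (A : Matrix (Fin N) (Fin N) ℤ) (y : List (ZB β)) :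
    (linMap (z03_rows A) y).length = N := by
  unfold linMap z03_rows
  rw [List.length_map, List.length_map, List.length_finRange]

/-- the default cell -/
def z03_d (β N : ℕ) : List (ZB β) := z03_c β N (fun _ => 0)

theorem z03_cell_d (N S : ℕ) : z03_cell N S (z03_d β N) := by
  unfold z03_d z03_c
  refine ⟨by rw [List.length_map, List.length_finRange], ?_⟩
  intro y hy
  obtain ⟨i, _, rfl⟩ := List.mem_map.1 hy
  exact Nat.zero_le _

theorem z03_ok_f {k N R S M : ℕ} {A B : Matrix (Fin N) (Fin N) ℤ}
    (hA : ∀ (x : List (ZB β)) (D : ℕ), (∀ y ∈ x, y.val.natAbs ≤ D) →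
      ∀ y ∈ linMap (z03_rows A) x, y.val.natAbs ≤ M * D)
    (hB : ∀ (x : List (ZB β)) (D : ℕ), (∀ y ∈ x, y.val.natAbs ≤ D) →
      ∀ y ∈ linMap (z03_rows B) x, y.val.natAbs ≤ M * D) (hM : 1 ≤ M)
    (a : Ins k) (x : List (List (ZB β)) × List (ZB β))
    (h1 : x.1.length ≤ k ∧ ∀ l ∈ x.1, z03_cell N R l) (h2 : z03_cell N S x.2) :
    ((z03_f β A B a x).1.length ≤ k ∧ ∀ l ∈ (z03_f β A B a x).1, z03_cell N (M * R) l) ∧
      z03_cell N (S + R) (z03_f β A B a x).2 := by
  have hR : R ≤ M * R := Nat.le_mul_of_pos_left R hM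
  rcases a with m | κ
  · unfold z03_f
    simp only
    refine ⟨⟨by rw [List.length_map]; exact h1.1, ?_⟩, z03_cell_mono (Nat.le_add_right _ _) h2⟩
    intro l hl
    obtain ⟨y, hy, rfl⟩ := List.mem_map.1 hl
    have h3 : ∀ z ∈ linMap (z03_rows (if m.2 then A else B)) y, z.val.natAbs ≤ M * R := by
      cases m.2
      · exact hB y R (h1.2 y hy).2
      · exact hA y R (h1.2 y hy).2
    refine ⟨by rw [List.length_map, z03_linlen], ?_⟩
    intro z hz
    obtain ⟨w, hw, rfl⟩ := List.mem_map.1 hz
    exact (Int.natAbs_ediv_le_natAbs _ _).trans (h3 w hw)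
  · unfold z03_f
    simp only
    refine ⟨⟨h1.1, fun l hl => z03_cell_mono hR (h1.2 l hl)⟩, ?_, ?_⟩
    · rw [List.length_zipWith]
      exact (Nat.min_le_left _ _).trans h2.1
    · have hc : ∀ b ∈ (x.1.getD κ []), b.val.natAbs ≤ R := by
        intro b hb
        by_cases hk : (κ : ℕ) < x.1.length
        · rw [List.getD_eq_getElem _ _ hk] at hb
          exact (h1.2 _ (List.getElem_mem _)).2 b hb
        · rw [List.getD_eq_default _ _ (not_lt.1 hk)] at hb
          exact absurd hb (List.not_mem_nil)
      have key : ∀ (l l' : List (ZB β)), (∀ y ∈ l, y.val.natAbs ≤ S) →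
          (∀ y ∈ l', y.val.natAbs ≤ R) →
          ∀ y ∈ List.zipWith (fun a b : ZB β => a + (1 : ℤ) • b) l l', y.val.natAbs ≤ S + R := by
        intro l
        induction l with
        | nil => intro l' _ _ y hy; simp at hy
        | cons a l ih =>
          intro l' h h' y hy
          cases l' with
          | nil => simp at hy
          | cons b l' =>
            rw [List.zipWith_cons_cons, List.mem_cons] at hy
            rcases hy with rfl | hy
            · rw [one_smul]
              refine (Int.natAbs_add_le a.val b.val).trans ?_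
              exact Nat.add_le_add (h a (List.mem_cons_self ..)) (h' b (List.mem_cons_self ..))
            · exact ih l' (fun y hy => h y (List.mem_cons_of_mem _ hy))
                (fun y hy => h' y (List.mem_cons_of_mem _ hy)) y hy
      exact key _ _ h2.2 hc

theorem z03_ok_step {k N R S M : ℕ} {A B : Matrix (Fin N) (Fin N) ℤ}
    (hA : ∀ (x : List (ZB β)) (D : ℕ), (∀ y ∈ x, y.val.natAbs ≤ D) →
      ∀ y ∈ linMap (z03_rows A) x, y.val.natAbs ≤ M * D)
    (hB : ∀ (x : List (ZB β)) (D : ℕ), (∀ y ∈ x, y.val.natAbs ≤ D) →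
      ∀ y ∈ linMap (z03_rows B) x, y.val.natAbs ≤ M * D) (hM : 1 ≤ M)
    (a : Ins k) (z : (List (List (ZB β)) × List (ZB β)) ×
      (List (List (ZB β)) × List (List (ZB β)))) (h : z03_ok k N R S z) :
    z03_ok k N (M * R) (S + R) (z00_step gdir (z03_g β A B) (z03_d β N) a z) := by
  have hR : R ≤ M * R := Nat.le_mul_of_pos_left R hM
  have hS : S ≤ S + R := Nat.le_add_right _ _
  obtain ⟨h1, h2, h3, h4⟩ := h
  rcases hd : gdir a with _ | b
  · rw [z00_step_none _ _ _ _ _ hd]
    obtain ⟨h5, h6⟩ := z03_ok_f hA hB hM a z.1 h1 h2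
    exact ⟨h5, h6, fun c hc => z03_cell_mono hS (h3 c hc), fun c hc => z03_cell_mono hS (h4 c hc)⟩
  · cases b
    · rw [z00_step_false _ _ _ _ _ hd]
      refine ⟨⟨h1.1, fun l hl => z03_cell_mono hR (h1.2 l hl)⟩,
        z03_cell_mono hS (z03_head h3 (z03_cell_d N S)),
        fun c hc => z03_cell_mono hS (h3 c (List.mem_of_mem_tail hc)), ?_⟩
      intro c hc
      rcases List.mem_cons.1 hc with rfl | hc
      · exact z03_cell_mono hS h2
      · exact z03_cell_mono hS (h4 c hc)
    · rw [z00_step_true _ _ _ _ _ hd]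
      refine ⟨⟨h1.1, fun l hl => z03_cell_mono hR (h1.2 l hl)⟩,
        z03_cell_mono hS (z03_head h4 (z03_cell_d N S)), ?_,
        fun c hc => z03_cell_mono hS (h4 c (List.mem_of_mem_tail hc))⟩
      intro c hc
      rcases List.mem_cons.1 hc with rfl | hc
      · exact z03_cell_mono hS h2
      · exact z03_cell_mono hS (h3 c hc)

theorem z03_foldCost {ι σ : Type} (T : ι × σ → ℕ) (step : ι × σ → σ) (P : ℕ → σ → Prop)
    (n D : ℕ) (hstep : ∀ t a s, P t s → P (t + 1) (step (a, s)))
    (hT : ∀ t a s, t ≤ n → P t s → T (a, s) ≤ D) :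
    ∀ (l : List ι) (t : ℕ) (s : σ), t + l.length ≤ n → P t s →
      foldCost T step l s ≤ D * l.length ∧
        P (t + l.length) (l.foldl (fun s a => step (a, s)) s) := by
  intro l
  induction l with
  | nil =>
    intro t s _ h
    exact ⟨Nat.zero_le _, h⟩
  | cons a l ih =>
    intro t s ht h
    rw [List.length_cons] at ht ⊢
    obtain ⟨h1, h2⟩ := ih (t + 1) (step (a, s)) (by omega) (hstep t a s h)
    have h3 := hT t a s (by omega) h
    refine ⟨?_, ?_⟩
    · change T (a, s) + foldCost T step l (step (a, s)) ≤ _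
      rw [Nat.mul_succ]
      omega
    · rw [List.foldl_cons]
      have e : t + 1 + l.length = t + (l.length + 1) := by omega
      rw [← e]
      exact h2

end

/-! ### Time -/

theorem z03_ct_getD {α : Type} [Enc α] (d : α) (n : ℕ) :
    CT (fun l : List α => l.getD n d) (fun l => size l) := by
  have key : ∀ n : ℕ, CT (fun x : List α × Unit => x.1.getD n d) (fun x => size x.1) := by
    intro n
    induction n with
    | zero =>
      have h1 : CT (fun _ : Unit => d) (fun _ => 0) := CT.mono (size () + 1) (CT.const d)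
        (fun x => by
          have : size x = size () := rfl
          rw [this]
          omega)
      have h2 : CT (fun y : (α × List α) × Unit => y.1.1) (fun y => size y.1) :=
        CT.mono (size () + 4) (CT.fst.comp CT.fst) (fun y => by
          obtain ⟨⟨a, l⟩, u⟩ := y
          cases u
          simp only [size_prod]
          nlinarith)
      refine (CT.mono 1 (CT.lcase h1 h2) (fun x => ?_)).congr (fun x => ?_)
      · obtain ⟨l, u⟩ := x
        cases l with
        | nil => simp
        | cons a l =>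
          simp only [size_prod, size_cons]
          omega
      · obtain ⟨l, u⟩ := x
        cases l with
        | nil => rfl
        | cons a l => rfl
    | succ n ih =>
      have h1 : CT (fun _ : Unit => d) (fun _ => 0) := CT.mono (size () + 1) (CT.const d)
        (fun x => by
          have : size x = size () := rfl
          rw [this]
          omega)
      have h3 : CT (fun y : (α × List α) × Unit => (y.1.2, y.2)) (fun y => size y.1) :=
        CT.mono 1 CT.snd.first (fun y => by
          obtain ⟨⟨a, l⟩, u⟩ := y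
          simp only [size_prod]
          omega)
      have h2 : CT (fun y : (α × List α) × Unit => y.1.2.getD n d) (fun y => size y.1) :=
        CT.mono 2 (ih.comp h3) (fun y => by
          obtain ⟨⟨a, l⟩, u⟩ := y
          simp only [size_prod]
          omega)
      refine (CT.mono 1 (CT.lcase h1 h2) (fun x => ?_)).congr (fun x => ?_)
      · obtain ⟨l, u⟩ := x
        cases l with
        | nil => simp
        | cons a l =>
          simp only [size_prod, size_cons]
          omega
      · obtain ⟨l, u⟩ := x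
        cases l with
        | nil => rfl
        | cons a l => rfl
  exact CT.mono 4 ((key n).comp (CT.pair (CT.of_enc_eq (f := fun l : List α => l)
    (fun _ => rfl)) (CT.const ()))) (fun l => by dsimp only; omega)

theorem z03_sum_le {α : Type} [Enc α] (l : List α) : (l.map (fun a => size a)).sum ≤ size l := by
  induction l with
  | nil => simp
  | cons a l ih =>
    rw [List.map_cons, List.sum_cons, size_cons]
    omega

theorem z03_sum_map_le {α : Type} [Enc α] (l : List α) (T : α → ℕ) (C : ℕ)
    (h : ∀ a, T a ≤ C * size a) : (l.map T).sum ≤ C * size l := by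
  induction l with
  | nil => simp
  | cons a l ih =>
    rw [List.map_cons, List.sum_cons, size_cons]
    have := h a
    rw [Nat.mul_add, Nat.mul_add]
    omega

section

variable (β : ℕ) [Fact (2 ≤ β)]

theorem z03_ct_f {k N : ℕ} (A B : Matrix (Fin N) (Fin N) ℤ) (a : Ins k) :
    CT (z03_f β A B a) (fun x => size x.1 + size x.2) := by
  rcases a with m | κ
  · have h1 : CT (fun y : List (ZB β) => (linMap (z03_rows (if m.2 then A else B)) y).map
        (fun y => (ZB.mk (y.val / (β : ℤ)) : ZB β))) (fun y => size y) := by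
      have h0 := ct_linMap β (z03_rows (if m.2 then A else B))
      obtain ⟨C, hC⟩ := h0.size_le
      refine CT.mono (C + 2) ((ct_map_zbdiv β).comp h0) (fun y => ?_)
      have := hC y
      have e : (C + 2) * (size y + 1) = C * (size y + 1) + 2 * (size y + 1) := by ring
      omega
    have h2 := (ct_map h1).first (γ := List (ZB β))
    refine CT.mono 2 h2 (fun x => ?_)
    have := z03_sum_le x.1
    omega
  · have h1 : CT (fun x : List (List (ZB β)) × List (ZB β) => x.1.getD κ [])
        (fun x => size x.1 + size x.2) :=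
      CT.mono 2 ((z03_ct_getD ([] : List (ZB β)) κ).comp CT.fst) (fun x => by
        omega)
    have h2 : CT (fun x : List (List (ZB β)) × List (ZB β) => x.2)
        (fun x => size x.1 + size x.2) := CT.mono 1 CT.snd (fun x => by omega)
    have h3 : CT (fun x : List (List (ZB β)) × List (ZB β) => x.1)
        (fun x => size x.1 + size x.2) := CT.fst
    obtain ⟨C, hC⟩ := h1.size_le
    have h4 : CT (fun x : List (List (ZB β)) × List (ZB β) =>
        List.zipWith (fun a b => a + (1 : ℤ) • b) x.2 (x.1.getD κ []))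
        (fun x => size x.1 + size x.2) := by
      refine CT.mono (C + 6) ((ct_map_zblin β 1).comp (h2.pair h1)) (fun x => ?_)
      have := hC x
      rw [size_prod] at this ⊢
      have e : (C + 6) * (size x.1 + size x.2 + 1) = C * (size x.1 + size x.2 + 1) +
        6 * (size x.1 + size x.2 + 1) := by ring
      dsimp only
      omega
    refine CT.mono 4 (h3.pair h4) (fun x => ?_)
    rw [size_prod]
    omega

theorem z03_ct_g {k N : ℕ} (A B : Matrix (Fin N) (Fin N) ℤ) :
    CT (z03_g (k := k) β A B) (fun x => size x.2.1 + size x.2.2) :=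
  ct_fincase (f := z03_f (k := k) β A B) (T := fun _ x => size x.1 + size x.2)
    (fun i => z03_ct_f β A B i)

theorem z03_ct_out {k : ℕ} : CT (fun x : Ins k × (List (List (ZB β)) × List (ZB β)) =>
    (x.2.2, x.2.1)) (fun x => size x.2.1 + size x.2.2) := by
  obtain ⟨c, hc⟩ := size_fin (Ins k)
  refine CT.mono (c + 2) (CT.swap.comp CT.snd) (fun x => ?_)
  have := hc x.1
  nlinarith

/-- the test at the end -/
def z03_test (z : (List (List (ZB β)) × List (ZB β)) ×
    (List (List (ZB β)) × List (List (ZB β)))) : Bool :=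
  (zrows z).all (fun c => c.all (fun x => decide (x = 0)))

theorem z03_ct_test : CT (z03_test β) (fun z => size z) := by
  have t1 := ct_all (ct_all (ct_zbzero β))
  have t2 : CT (fun l : List (List (ZB β)) => l.all (fun c => c.all (fun x => decide (x = 0))))
      (fun l => size l) := by
    refine CT.mono 3 t1 (fun l => ?_)
    have := z03_sum_map_le l (fun c => size c + (c.map (fun x => size x)).sum) 2
      (fun c => by have := z03_sum_le c; omega)
    omega
  have a1 : CT (fun z : (List (List (ZB β)) × List (ZB β)) ×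
      (List (List (ZB β)) × List (List (ZB β))) => z.1.2) (fun z => size z) :=
    CT.mono 3 (CT.snd.comp CT.fst) (fun z => by
      obtain ⟨⟨a, b⟩, c⟩ := z
      simp only [size_prod]
      omega)
  have a2 : CT (fun z : (List (List (ZB β)) × List (ZB β)) ×
      (List (List (ZB β)) × List (List (ZB β))) => z.2.2) (fun z => size z) :=
    CT.mono 3 (CT.snd.comp CT.snd) (fun z => by
      obtain ⟨a, ⟨b, c⟩⟩ := z
      simp only [size_prod]
      omega)
  have a3 : CT (fun z : (List (List (ZB β)) × List (ZB β)) ×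
      (List (List (ZB β)) × List (List (ZB β))) => z.2.1) (fun z => size z) :=
    CT.mono 3 (CT.fst.comp CT.snd) (fun z => by
      obtain ⟨a, ⟨b, c⟩⟩ := z
      simp only [size_prod]
      omega)
  have a4 : CT (fun z : (List (List (ZB β)) × List (ZB β)) ×
      (List (List (ZB β)) × List (List (ZB β))) => z.1.2 :: z.2.2) (fun z => size z) := by
    have c1 : CT (fun p : List (ZB β) × List (List (ZB β)) => p.1 :: p.2) (fun _ => 0) :=
      CT.of_enc_eq (fun _ => rfl)
    exact CT.mono 3 (c1.comp (a1.pair a2)) (fun z => by omega)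
  have a5 : CT (fun z : (List (List (ZB β)) × List (ZB β)) ×
      (List (List (ZB β)) × List (List (ZB β))) => zrows z) (fun z => size z) := by
    refine (CT.mono 4 (CT.appendRev.comp (a3.pair a4)) (fun z => ?_)).congr (fun z => rfl)
    obtain ⟨a, ⟨b, c⟩⟩ := z
    simp only [size_prod]
    omega
  obtain ⟨C, hC⟩ := a5.size_le
  refine CT.mono (C + 2) (t2.comp a5) (fun z => ?_)
  have := hC z
  have e : (C + 2) * (size z + 1) = C * (size z + 1) + 2 * (size z + 1) := by ring
  omega

/-- the start -/
def z03_start {k N : ℕ} (u : Fin k → Fin N → ℤ) (w : List (Ins k)) :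
    (List (List (ZB β)) × List (ZB β)) × (List (List (ZB β)) × List (List (ZB β))) :=
  ((z03_r β k N (fun κ i => (β : ℤ) ^ w.length * u κ i), z03_d β N), ([], []))

theorem z03_ct_start {k N : ℕ} (u : Fin k → Fin N → ℤ) :
    CT (z03_start β u) (fun w => w.length) := by
  obtain ⟨c, hc⟩ := size_list_fin (Ins k)
  have l1 : CT (fun w : List (Ins k) => w.length) (fun w => w.length) :=
    CT.mono c ct_length hc
  have l2 : CT (fun w : List (Ins k) => (ZB.mk ((β : ℤ) ^ w.length) : ZB β))
      (fun w => w.length) :=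
    CT.mono 2 ((ct_zbpow β).comp l1) (fun w => by omega)
  obtain ⟨C, hC⟩ := l2.size_le
  have l3 : ∀ a : ℤ, CT (fun w : List (Ins k) => a • (ZB.mk ((β : ℤ) ^ w.length) : ZB β))
      (fun w => w.length) := by
    intro a
    refine CT.mono (C + c + 1) ((ct_zbsmul β a).comp l2) (fun w => ?_)
    have h1 := hC w
    have h2 := hc w
    have e : (C + c + 1) * (w.length + 1) = C * (w.length + 1) + c * (w.length + 1) +
      (w.length + 1) := by ring
    omega
  have l4 : ∀ κ : Fin k, CT (fun w : List (Ins k) => (List.finRange N).map (fun i =>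
      u κ i • (ZB.mk ((β : ℤ) ^ w.length) : ZB β))) (fun w => w.length) := by
    intro κ
    refine CT.mono (c + 1) (CT.mapConst (List.finRange N) (f := fun i w => u κ i •
      (ZB.mk ((β : ℤ) ^ w.length) : ZB β)) (T := fun w : List (Ins k) => w.length)
      (fun i _ => l3 (u κ i))) (fun w => ?_)
    have h2 := hc w
    have e : (c + 1) * (w.length + 1) = c * (w.length + 1) + (w.length + 1) := by ring
    omega
  have l5 : CT (fun w : List (Ins k) => z03_r β k N (fun κ i => (β : ℤ) ^ w.length * u κ i))
      (fun w => w.length) := by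
    refine (CT.mono (c + 1) (CT.mapConst (List.finRange k) (f := fun κ w =>
      (List.finRange N).map (fun i => u κ i • (ZB.mk ((β : ℤ) ^ w.length) : ZB β)))
      (T := fun w : List (Ins k) => w.length) (fun κ _ => l4 κ)) (fun w => ?_)).congr
      (fun w => ?_)
    · have h2 := hc w
      have e : (c + 1) * (w.length + 1) = c * (w.length + 1) + (w.length + 1) := by ring
      omega
    · unfold z03_r z03_c
      refine List.map_congr_left (fun κ _ => List.map_congr_left (fun i _ => ?_))
      change u κ i * (β : ℤ) ^ w.length = (β : ℤ) ^ w.length * u κ i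
      exact mul_comm _ _
  have l6 : CT (fun _ : List (Ins k) => z03_d β N) (fun w => w.length) :=
    CT.mono c (CT.const _) hc
  have l7 : CT (fun _ : List (Ins k) => (([], []) :
      List (List (ZB β)) × List (List (ZB β)))) (fun w => w.length) :=
    CT.mono c (CT.const _) hc
  refine (CT.mono (2 * c + 4) ((l5.pair l6).pair l7) (fun w => ?_)).congr (fun w => rfl)
  have h2 := hc w
  have e : (2 * c + 4) * (w.length + 1) = 2 * (c * (w.length + 1)) + 4 * (w.length + 1) := by
    ring
  omega

theorem z03_pow_le (m : ℕ) : m ≤ β ^ m :=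
  (Nat.lt_pow_self (lt_of_lt_of_le Nat.one_lt_two (Fact.out (p := 2 ≤ β)))).le

/-- sizes of the parts of a state -/
theorem z03_sizes (k N : ℕ) : ∃ D : ℕ, ∀ (e : ℕ) (z : (List (List (ZB β)) × List (ZB β)) ×
    (List (List (ZB β)) × List (List (ZB β)))), z03_ok k N (β ^ e) (β ^ e) z →
    size z.1.1 ≤ D * (e + 1) ∧ size z.1.2 ≤ D * (e + 1) ∧
    (∀ c ∈ z.2.1, size c ≤ D * (e + 1)) ∧ (∀ c ∈ z.2.2, size c ≤ D * (e + 1)) ∧
    size (z03_d β N) ≤ D * (e + 1) := by
  obtain ⟨C, hC⟩ := size_zblist_le β
  refine ⟨(C * (N + 1) + 1) * (k + 1), fun e z hz => ?_⟩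
  have h0 : ∀ c : List (ZB β), z03_cell N (β ^ e) c → size c ≤ C * (N + 1) * (e + 1) :=
    fun c hc => (hC c e hc.2).trans (Nat.mul_le_mul_right _ (Nat.mul_le_mul_left _
      (Nat.succ_le_succ hc.1)))
  have h1 : C * (N + 1) * (e + 1) ≤ (C * (N + 1) + 1) * (k + 1) * (e + 1) := by
    refine Nat.mul_le_mul_right _ ?_
    calc C * (N + 1) ≤ C * (N + 1) + 1 := Nat.le_succ _
      _ ≤ (C * (N + 1) + 1) * (k + 1) := Nat.le_mul_of_pos_right _ (Nat.succ_pos _)
  refine ⟨?_, (h0 _ hz.2.1).trans h1, fun c hc => (h0 _ (hz.2.2.1 c hc)).trans h1,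
    fun c hc => (h0 _ (hz.2.2.2 c hc)).trans h1, (h0 _ (z03_cell_d N _)).trans h1⟩
  refine (size_list_le_of (C * (N + 1) * (e + 1)) z.1.1
    (fun a ha => h0 a (hz.1.2 a ha))).trans ?_
  calc (C * (N + 1) * (e + 1) + 1) * (z.1.1.length + 1) ≤
      ((C * (N + 1) + 1) * (e + 1)) * (k + 1) :=
        Nat.mul_le_mul (by nlinarith) (Nat.succ_le_succ hz.1.1)
    _ = _ := by ring

theorem z03_headsize {N e D : ℕ} {L : List (List (ZB β))}
    (h : ∀ c ∈ L, size c ≤ D * (e + 1)) (hd : size (z03_d β N) ≤ D * (e + 1)) :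
    size (L.headD (z03_d β N)) ≤ D * (e + 1) := by
  cases L with
  | nil => exact hd
  | cons c L => exact h c (List.mem_cons_self ..)

/-- the final state -/
noncomputable def z03_fin {k N : ℕ} (A B : Matrix (Fin N) (Fin N) ℤ) (u : Fin k → Fin N → ℤ)
    (w : List (Ins k)) : (List (List (ZB β)) × List (ZB β)) ×
    (List (List (ZB β)) × List (List (ZB β))) :=
  w.foldl (fun y a => zstep gdir (z03_g β A B) (fun x => (x.2.2, x.2.1)) (fun x => (x.2, x.1))
    (z03_d β N) a y) (z03_start β u w)

/-- the cost of the fold -/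
noncomputable def z03_cost {k N : ℕ} (A B : Matrix (Fin N) (Fin N) ℤ)
    (u : Fin k → Fin N → ℤ) (w : List (Ins k)) : ℕ :=
  foldCost (fun y => zcost gdir (fun x : Ins k × (List (List (ZB β)) × List (ZB β)) =>
      (x.2.2, x.2.1)) (z03_d β N) (fun x => size x.2.1 + size x.2.2)
      (fun x => size x.2.1 + size x.2.2) (fun x => size x.1 + size x.2) y.1 y.2)
    (fun y => zstep gdir (z03_g β A B) (fun x => (x.2.2, x.2.1)) (fun x => (x.2, x.1))
    (z03_d β N) y.1 y.2) w (z03_start β u w)

theorem z03_bounds {k N : ℕ} (A B : Matrix (Fin N) (Fin N) ℤ) (u : Fin k → Fin N → ℤ) :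
    ∃ C : ℕ, ∀ w : List (Ins k), z03_cost β A B u w ≤ C * (w.length + 1) ^ 2 ∧
      size (z03_fin β A B u w) ≤ C * (w.length + 1) ^ 2 := by
  obtain ⟨MA, hMA⟩ := linMap_bound β (z03_rows A)
  obtain ⟨MB, hMB⟩ := linMap_bound β (z03_rows B)
  obtain ⟨D, hD⟩ := z03_sizes β k N
  set M := MA + MB + 1 with hM
  have hA : ∀ (x : List (ZB β)) (D : ℕ), (∀ y ∈ x, y.val.natAbs ≤ D) →
      ∀ y ∈ linMap (z03_rows A) x, y.val.natAbs ≤ M * D := fun x D h y hy =>
    (hMA x D h y hy).trans (Nat.mul_le_mul_right _ (by omega))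
  have hB : ∀ (x : List (ZB β)) (D : ℕ), (∀ y ∈ x, y.val.natAbs ≤ D) →
      ∀ y ∈ linMap (z03_rows B) x, y.val.natAbs ≤ M * D := fun x D h y hy =>
    (hMB x D h y hy).trans (Nat.mul_le_mul_right _ (by omega))
  have hM1 : 1 ≤ M := by omega
  set U := ∑ κ, ∑ i, (u κ i).natAbs with hU
  have hUle : ∀ κ i, (u κ i).natAbs ≤ U := fun κ i =>
    (Finset.single_le_sum (f := fun i => (u κ i).natAbs) (fun _ _ => Nat.zero_le _)
      (Finset.mem_univ i)).trans (Finset.single_le_sum (f := fun κ => ∑ i, (u κ i).natAbs)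
        (fun _ _ => Nat.zero_le _) (Finset.mem_univ κ))
  set q := M + U with hq
  have hβ1 : 1 ≤ β := le_trans (by norm_num) (Fact.out (p := 2 ≤ β))
  have hMq : M ≤ β ^ q := (z03_pow_le β M).trans (Nat.pow_le_pow_right hβ1 (by omega))
  have hUq : U ≤ β ^ q := (z03_pow_le β U).trans (Nat.pow_le_pow_right hβ1 (by omega))
  refine ⟨12 * D * (q + 3) + 12, fun w => ?_⟩
  set n := w.length with hn
  set R0 := β ^ n * U with hR0
  set e := (q + 2) * (n + 1) with he
  have hpow : ∀ t ≤ n, M ^ t * R0 ≤ β ^ (q * n + n + q) := by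
    intro t ht
    calc M ^ t * R0 ≤ (β ^ q) ^ n * (β ^ n * β ^ q) := by
          refine Nat.mul_le_mul ?_ (Nat.mul_le_mul_left _ hUq)
          exact (Nat.pow_le_pow_left hMq t).trans (Nat.pow_le_pow_right
            (Nat.one_le_pow _ _ hβ1) ht)
      _ = β ^ (q * n + n + q) := by
          rw [← pow_mul, ← pow_add, ← pow_add]
          congr 1
          ring
  have hRt : ∀ t ≤ n, M ^ t * R0 ≤ β ^ e := fun t ht =>
    (hpow t ht).trans (Nat.pow_le_pow_right hβ1 (by rw [he]; nlinarith))
  have hSt : ∀ t ≤ n, t * (M ^ t * R0) ≤ β ^ e := by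
    intro t ht
    calc t * (M ^ t * R0) ≤ β ^ n * β ^ (q * n + n + q) :=
          Nat.mul_le_mul (ht.trans (z03_pow_le β n)) (hpow t ht)
      _ = β ^ (n + (q * n + n + q)) := (pow_add _ _ _).symm
      _ ≤ β ^ e := Nat.pow_le_pow_right hβ1 (by rw [he]; nlinarith)
  set P : ℕ → (List (List (ZB β)) × List (ZB β)) × (List (List (ZB β)) × List (List (ZB β))) →
    Prop := fun t z => z03_ok k N (M ^ t * R0) (t * (M ^ t * R0)) z with hP
  have hPe : ∀ t z, t ≤ n → P t z → z03_ok k N (β ^ e) (β ^ e) z := fun t z ht hz =>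
    z03_ok_mono (hRt t ht) (hSt t ht) hz
  have hP0 : P 0 (z03_start β u w) := by
    refine ⟨⟨?_, ?_⟩, z03_cell_d N _, ?_, ?_⟩
    · change (z03_r β k N _).length ≤ k
      unfold z03_r
      rw [List.length_map, List.length_finRange]
    · intro l hl
      change l ∈ z03_r β k N _ at hl
      unfold z03_r at hl
      obtain ⟨κ, _, rfl⟩ := List.mem_map.1 hl
      refine ⟨by unfold z03_c; rw [List.length_map, List.length_finRange], ?_⟩
      intro y hy
      unfold z03_c at hy
      obtain ⟨i, _, rfl⟩ := List.mem_map.1 hy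
      change ((β : ℤ) ^ w.length * u κ i).natAbs ≤ _
      rw [Int.natAbs_mul, Int.natAbs_pow, Int.natAbs_natCast, pow_zero, one_mul, hR0, ← hn]
      exact Nat.mul_le_mul_left _ (hUle κ i)
    · intro c hc
      exact absurd hc List.not_mem_nil
    · intro c hc
      exact absurd hc List.not_mem_nil
  have hstep : ∀ (t : ℕ) (a : Ins k) (s : (List (List (ZB β)) × List (ZB β)) ×
      (List (List (ZB β)) × List (List (ZB β)))), P t s → P (t + 1)
      (zstep gdir (z03_g β A B) (fun x => (x.2.2, x.2.1)) (fun x => (x.2, x.1))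
        (z03_d β N) a s) := by
    intro t a s h
    refine z03_ok_mono ?_ ?_ (z03_ok_step hA hB hM1 a s h)
    · rw [pow_succ]
      apply le_of_eq
      ring
    · calc t * (M ^ t * R0) + M ^ t * R0 = (t + 1) * (M ^ t * R0) := by ring
        _ ≤ (t + 1) * (M ^ (t + 1) * R0) := Nat.mul_le_mul_left _ (Nat.mul_le_mul_right _
            (Nat.pow_le_pow_right hM1 (Nat.le_succ t)))
  have hcost : ∀ (t : ℕ) (a : Ins k) (s : (List (List (ZB β)) × List (ZB β)) ×
      (List (List (ZB β)) × List (List (ZB β)))), t ≤ n → P t s →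
      zcost gdir (fun x : Ins k × (List (List (ZB β)) × List (ZB β)) => (x.2.2, x.2.1))
        (z03_d β N) (fun x => size x.2.1 + size x.2.2) (fun x => size x.2.1 + size x.2.2)
        (fun x => size x.1 + size x.2) a s ≤ 6 * (D * (e + 1)) := by
    intro t a s ht h
    obtain ⟨d1, d2, d3, d4, d5⟩ := hD e s (hPe t s ht h)
    have d6 := z03_headsize β d3 d5
    have d7 := z03_headsize β d4 d5
    unfold zcost
    rcases gdir a with _ | b
    · simp only
      omega
    · cases b
      · simp only
        omega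
      · simp only
        omega
  obtain ⟨f1, f2⟩ := z03_foldCost (fun y : Ins k × _ => zcost gdir
    (fun x : Ins k × (List (List (ZB β)) × List (ZB β)) => (x.2.2, x.2.1)) (z03_d β N)
    (fun x => size x.2.1 + size x.2.2) (fun x => size x.2.1 + size x.2.2)
    (fun x => size x.1 + size x.2) y.1 y.2) (fun y => zstep gdir (z03_g β A B)
    (fun x => (x.2.2, x.2.1)) (fun x => (x.2, x.1)) (z03_d β N) y.1 y.2) P n
    (6 * (D * (e + 1))) hstep hcost w 0 (z03_start β u w) (by omega) hP0
  have he1 : e + 1 ≤ (q + 3) * (n + 1) := by rw [he]; nlinarith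
  have hDe : D * (e + 1) ≤ D * (q + 3) * (n + 1) := by
    calc D * (e + 1) ≤ D * ((q + 3) * (n + 1)) := Nat.mul_le_mul_left _ he1
      _ = _ := by ring
  constructor
  · refine f1.trans ?_
    calc 6 * (D * (e + 1)) * w.length ≤ 6 * (D * (q + 3) * (n + 1)) * (n + 1) :=
          Nat.mul_le_mul (Nat.mul_le_mul_left _ hDe) (by omega)
      _ = 6 * (D * (q + 3)) * (n + 1) ^ 2 := by ring
      _ ≤ _ := Nat.mul_le_mul_right _ (by rw [Nat.mul_assoc]; omega)
  · have h3 : P (0 + w.length) (z03_fin β A B u w) := f2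
    have h4 := hPe _ _ (by omega) h3
    obtain ⟨d1, d2, d3, d4, d5⟩ := hD e _ h4
    obtain ⟨s0, _, _, hlen, _, _, _⟩ := zrows_spec gdir (z03_g β A B) (z03_d β N)
      (z03_r β k N (fun κ i => (β : ℤ) ^ w.length * u κ i)) w
    have hz : zrun gdir (z03_g β A B) (z03_d β N)
      (z03_r β k N (fun κ i => (β : ℤ) ^ w.length * u κ i)) w = z03_fin β A B u w := rfl
    rw [hz] at hlen
    set z := z03_fin β A B u w with hzz
    have hlen2 : z.2.1.length + z.2.2.length ≤ n := by
      unfold zrows at hlen
      rw [List.length_append, List.length_reverse, List.length_cons] at hlen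
      omega
    have s1 := size_list_le_of (D * (e + 1)) z.2.1 d3
    have s2 := size_list_le_of (D * (e + 1)) z.2.2 d4
    have s3 : size z = size z.1.1 + size z.1.2 + 1 + (size z.2.1 + size z.2.2 + 1) + 1 := by
      rw [size_prod, size_prod, size_prod]
    rw [s3]
    have s4 : (D * (e + 1) + 1) * (z.2.1.length + 1) + (D * (e + 1) + 1) * (z.2.2.length + 1) ≤
        (D * (e + 1) + 1) * (n + 2) := by
      rw [← Nat.mul_add]
      exact Nat.mul_le_mul_left _ (by omega)
    have s5 : size z.1.1 + size z.1.2 + 1 + (size z.2.1 + size z.2.2 + 1) + 1 ≤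
        2 * (D * (e + 1)) + 3 + (D * (e + 1) + 1) * (n + 2) := by omega
    refine s5.trans ?_
    set E := D * (q + 3) with hE
    have s6 : 2 * (D * (e + 1)) + 3 + (D * (e + 1) + 1) * (n + 2) ≤
        2 * (E * (n + 1)) + 3 + (E * (n + 1) + 1) * (n + 2) := by
      have h7 : (D * (e + 1) + 1) * (n + 2) ≤ (E * (n + 1) + 1) * (n + 2) :=
        Nat.mul_le_mul_right (n + 2) (Nat.succ_le_succ hDe)
      omega
    refine s6.trans ?_
    have e12 : 12 * D * (q + 3) = 12 * E := by rw [hE]; ring
    rw [e12]
    nlinarith [Nat.zero_le (E * n), Nat.zero_le (E * n * n), Nat.zero_le (n * n)]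

end

theorem z03_all_iff {N : ℕ} (β : ℕ) (v : Fin N → ℤ) :
    (z03_c β N v).all (fun x => decide (x = 0)) = true ↔ v = 0 := by
  rw [List.all_eq_true]
  unfold z03_c
  constructor
  · intro h
    funext i
    have h1 := of_decide_eq_true (h _ (List.mem_map.2 ⟨i, List.mem_finRange i, rfl⟩))
    exact h1
  · rintro rfl x hx
    obtain ⟨i, _, rfl⟩ := List.mem_map.1 hx
    exact decide_eq_true rfl

theorem quad_zlist {k N : ℕ} (β : ℕ) [Fact (2 ≤ β)] (A B : Matrix (Fin N) (Fin N) ℤ)
    (u : Fin k → Fin N → ℤ) :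
    Quad (fun I : List (Ins k) => ∀ b : ℤ, (((zlist β A B 0
      (fun κ i => (β : ℤ) ^ I.length * u κ i) I).filter (fun x => x.1 = b)).map
        Prod.snd).sum = 0) := by
  obtain ⟨C, hC⟩ := z03_bounds β A B u
  obtain ⟨c, hc⟩ := size_list_fin (Ins k)
  have h1 := ct_zfold (dir := gdir (k := k)) (z03_d β N) (z03_ct_g (k := k) β A B)
    (z03_ct_out (k := k) β) (CT.swap (α := List (ZB β)) (β := List (List (ZB β))))
  have h2 := z03_ct_start (k := k) (N := N) β u
  have hid : CT (fun w : List (Ins k) => w) (fun w => w.length) :=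
    CT.mono 1 (CT.of_enc_eq (f := fun w : List (Ins k) => w) (fun _ => rfl))
      (fun w => by omega)
  obtain ⟨C2, hC2⟩ := h2.size_le
  have h3 := (h1.comp (hid.pair h2))
  have h4 := (z03_ct_test β).comp h3
  have h5 : CT (fun w : List (Ins k) => z03_test β (z03_fin β A B u w))
      (fun w => (w.length + 1) ^ 2) := by
    refine (CT.mono (3 * c + C2 + 2 * C + 2) h4 (fun w => ?_)).congr
      (fun w => rfl)
    have b1 := (hC w).1
    have b2 := (hC w).2
    have b3 := hc w
    have b4 := hC2 w
    change (size w + w.length + w.length + (size w + size (z03_start β u w) +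
      z03_cost β A B u w)) + size (z03_fin β A B u w) ≤ _
    have b5 : w.length + 1 ≤ (w.length + 1) ^ 2 := by nlinarith
    have b6 : c * (w.length + 1) ≤ c * (w.length + 1) ^ 2 := Nat.mul_le_mul_left _ b5
    have b7 : C2 * (w.length + 1) ≤ C2 * (w.length + 1) ^ 2 := Nat.mul_le_mul_left _ b5
    have b8 : (3 * c + C2 + 2 * C + 2) * ((w.length + 1) ^ 2 + 1) =
      3 * (c * (w.length + 1) ^ 2) + C2 * (w.length + 1) ^ 2 + 2 * (C * (w.length + 1) ^ 2) +
        2 * (w.length + 1) ^ 2 + (3 * c + C2 + 2 * C + 2) := by ring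
    rw [b8]
    omega
  refine (quad_of_ct h5 1 (fun w => by omega)).congr (fun w => ?_)
  obtain ⟨r', b', hr⟩ := z03_run (β := β) A B w 0
    (fun κ i => (β : ℤ) ^ w.length * u κ i) (fun _ => 0)
  have e1 := zrows_all gdir (z03_g β A B) (z03_d β N)
    (z03_r β k N (fun κ i => (β : ℤ) ^ w.length * u κ i)) w
    (fun c => c.all (fun x => decide (x = 0)) = true) ((z03_all_iff β _).2 rfl)
  have hf : frun gdir (z03_g β A B) (z03_d β N)
      (z03_r β k N (fun κ i => (β : ℤ) ^ w.length * u κ i)) w =
      (r', (b', fun i => z03_c β N ((0 : Fin N → ℤ) + (((zlist β A B 0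
        (fun κ i => (β : ℤ) ^ w.length * u κ i) w).filter
        (fun x => x.1 = i)).map Prod.snd).sum))) := hr
  rw [hf] at e1
  have e2 : z03_test β (z03_fin β A B u w) = true ↔
      ∀ c ∈ zrows (zrun gdir (z03_g β A B) (z03_d β N)
        (z03_r β k N (fun κ i => (β : ℤ) ^ w.length * u κ i)) w),
        c.all (fun x => decide (x = 0)) = true := by
    unfold z03_test
    rw [List.all_eq_true]
    exact Iff.rfl
  rw [e2, e1]
  refine forall_congr' (fun b => ?_)
  simp only
  rw [z03_all_iff, zero_add]

end Pool.Agent.WPR
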