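import Pool.Agent.Lib.MP_2da099_lc.R2.Z03
import Pool.Agent.Lib.MP_2da099_lc.R2.I01
import Mathlib.LinearAlgebra.FiniteDimensional.Basic
import Mathlib.LinearAlgebra.Matrix.ToLin

/-!
# Z04: rows in a finite-dimensional space with an invertible map

HINTS.  Choose a basis of `V` (`N = finrank`), `β ≥ 2` such that `β • X` and `β • X⁻¹` have integer matrices
`A, B` (common denominator), `D > 0` such that `D • u κ` has integer coordinates `û κ`.  Claim: in `zlist`
started with `β ^ n û`, `n ≥` number of moves in `I`, every register is `β ^ n • X ^ a (D • u κ)`, where `a` is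
the first coordinate of the position (in coordinates): for the induction: `r κ = β ^ m • (X ^ a (D u κ))` with
`X ^ a (D u κ) ∈ β ^ (-|a|) ℤ ^ N`, and the division by `β` is exact because `|a| + 1 ≤ n`: write the
induction as: for all `a`, `|a| + (number of remaining instructions) ≤ n`, the register is
`β ^ n • coords (X ^ a (D u κ))`, an integer vector since `β ^ |a| X ^ a` is an integer matrix
(a product of `|a|` matrices `A` resp. `B`).  The sum over the row `b` in `zlist` is `β ^ n D` times the sum in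
`V` (coordinates), so one is zero iff the other is.  Row numbers: `(mvec m).2`, columns `(mvec m).1`.
-/

set_option autoImplicit false

namespace Pool.Agent.WPR

open Pool.Agent.Lib.PolyTime Pool.Agent.WPM Function

theorem z04_den {ι : Type} [Fintype ι] (q : ι → ℚ) :
    ∃ D : ℕ, 0 < D ∧ ∀ i, ∃ z : ℤ, (z : ℚ) = (D : ℚ) * q i := by
  classical
  refine ⟨∏ i, (q i).den, Finset.prod_pos fun i _ => (q i).pos, fun i => ?_⟩
  obtain ⟨e, he⟩ := Finset.dvd_prod_of_mem (fun i => (q i).den) (Finset.mem_univ i)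
  refine ⟨(e : ℤ) * (q i).num, ?_⟩
  rw [he]
  push_cast
  rw [← Rat.mul_den_eq_num (q i)]
  ring

/-- the rational coordinates of the tokens -/
theorem z04_zlist {k N : ℕ} (β : ℕ) (hβ : 2 ≤ β) (A B : Matrix (Fin N) (Fin N) ℤ)
    (c : ℤ → Fin k → Fin N → ℚ) (n : ℕ)
    (hA : ∀ a κ i, ∑ j, (A i j : ℚ) * c a κ j = (β : ℚ) * c (a + 1) κ i)
    (hB : ∀ a κ i, ∑ j, (B i j : ℚ) * c a κ j = (β : ℚ) * c (a - 1) κ i)
    (hint : ∀ (a : ℤ) κ i, |a| ≤ n → ∃ z : ℤ, (z : ℚ) = (β : ℚ) ^ n * c a κ i) :
    ∀ (l : List (Ins k)) (a b : ℤ) (r : Fin k → Fin N → ℤ), |a| + l.length ≤ n →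
      (∀ κ i, (r κ i : ℚ) = (β : ℚ) ^ n * c a κ i) →
      (zlist β A B b r l).map (fun x => (x.1, fun i => (x.2 i : ℚ))) =
        (ipos (a, b) l).map (fun x => (x.1.2, fun i => (β : ℚ) ^ n * c x.1.1 x.2 i)) := by
  have hβ0 : (β : ℤ) ≠ 0 := by
    have : 0 < β := by omega
    exact_mod_cast this.ne'
  have hβ1 : (β : ℚ) ≠ 0 := by exact_mod_cast hβ0
  have hstep : ∀ (M : Matrix (Fin N) (Fin N) ℤ) (a a' : ℤ) (r : Fin k → Fin N → ℤ),
      (∀ κ i, ∑ j, (M i j : ℚ) * c a κ j = (β : ℚ) * c a' κ i) → |a'| ≤ n →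
      (∀ κ i, (r κ i : ℚ) = (β : ℚ) ^ n * c a κ i) →
      ∀ κ i, (((M.mulVec (r κ)) i / (β : ℤ) : ℤ) : ℚ) = (β : ℚ) ^ n * c a' κ i := by
    intro M a a' r hM ha' hr κ i
    obtain ⟨z, hz⟩ := hint a' κ i ha'
    have h1 : (((M.mulVec (r κ)) i : ℤ) : ℚ) = ((β * z : ℤ) : ℚ) := by
      simp only [Matrix.mulVec, dotProduct]
      push_cast
      rw [hz]
      have h2 : ∀ j, (M i j : ℚ) * (r κ j : ℚ) = (β : ℚ) ^ n * ((M i j : ℚ) * c a κ j) := by
        intro j
        rw [hr κ j]
        ring
      rw [Finset.sum_congr rfl fun j _ => h2 j, ← Finset.mul_sum, hM κ i]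
      ring
    have h2 : (M.mulVec (r κ)) i = β * z := by exact_mod_cast h1
    rw [h2, Int.mul_ediv_cancel_left _ hβ0, hz]
  intro l
  induction l with
  | nil => intro a b r _ _; rfl
  | cons x l ih =>
    intro a b r hlen hr
    rw [List.length_cons] at hlen
    push_cast at hlen
    cases x with
    | inr κ =>
      simp only [zlist, ipos, List.map_cons]
      rw [ih a b r (by omega) hr]
      congr 1
      refine Prod.ext rfl ?_
      funext i
      exact hr κ i
    | inl m =>
      obtain ⟨m1, m2⟩ := m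
      by_cases hm : m1 = 0
      · subst hm
        cases m2 with
        | true =>
          simp only [zlist, ipos, if_true]
          have e : (a, b) + mvec (0, true) = (a + 1, b) := by
            simp [mvec]
          have ha : |a + 1| + l.length ≤ n := by
            have := abs_add_le a 1
            rw [abs_one] at this
            omega
          rw [e]
          exact ih (a + 1) b _ ha (hstep A a (a + 1) r (hA a) (by omega) hr)
        | false =>
          simp only [zlist, ipos, if_true]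
          have e : (a, b) + mvec (0, false) = (a - 1, b) := by
            simp [mvec, sub_eq_add_neg]
          have ha : |a - 1| + l.length ≤ n := by
            have := abs_sub a 1
            rw [abs_one] at this
            omega
          rw [e]
          exact ih (a - 1) b _ ha (hstep B a (a - 1) r (hB a) (by omega) hr)
      · have e : (a, b) + mvec (m1, m2) = (a, b + (mvec (m1, m2)).2) := by
          have h1 : (mvec (m1, m2)).1 = 0 := by
            simp only [mvec, if_neg hm]
            split_ifs <;> rfl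
          refine Prod.ext ?_ rfl
          show a + (mvec (m1, m2)).1 = a
          rw [h1, add_zero]
        simp only [zlist, ipos, if_neg hm]
        rw [e]
        exact ih a _ r (by omega) hr

theorem z04_sum {N : ℕ} (b : ℤ) {α : Type} (L : List α) (p : α → ℤ) {E : Type} [AddCommMonoid E]
    (f : α → E) (g : α → Fin N → ℚ) (h : E →+ (Fin N → ℚ)) (hg : ∀ x, g x = h (f x)) :
    (((L.map (fun x => (p x, g x))).filter (fun y => y.1 = b)).map Prod.snd).sum =
      h (((L.filter (fun x => p x = b)).map f).sum) := by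
  induction L with
  | nil => simp
  | cons x L ih =>
    rw [List.map_cons, List.filter_cons, List.filter_cons]
    by_cases hx : p x = b
    · simp only [hx, decide_true, if_true, List.map_cons, List.sum_cons, map_add]
      rw [ih, hg]
    · simp only [hx, decide_false, Bool.false_eq_true, if_false]
      exact ih

theorem quad_zip {k : ℕ} (V : Type) [AddCommGroup V] [Module ℚ V] [FiniteDimensional ℚ V]
    (X : V ≃ₗ[ℚ] V) (u : Fin k → V) :
    Quad (fun I : List (Ins k) => ∀ b : ℤ, (((ipos 0 I).filter (fun x => x.1.2 = b)).map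
      (fun x => (X ^ x.1.1) (u x.2))).sum = 0) := by
  classical
  set N := Module.finrank ℚ V with hN
  let bs : Module.Basis (Fin N) ℚ V := Module.finBasis ℚ V
  set MA := LinearMap.toMatrix bs bs (X : V →ₗ[ℚ] V) with hMA
  set MB := LinearMap.toMatrix bs bs (X.symm : V →ₗ[ℚ] V) with hMB
  obtain ⟨D1, hD1, hz1⟩ := z04_den (fun x : Bool × (Fin N × Fin N) =>
    if x.1 then MA x.2.1 x.2.2 else MB x.2.1 x.2.2)
  obtain ⟨D, hD, hz2⟩ := z04_den (fun x : Fin k × Fin N => bs.repr (u x.1) x.2)
  choose z1 hz1 using hz1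
  choose z2 hz2 using hz2
  set β := 2 * D1 with hβ
  have hβ2 : 2 ≤ β := by omega
  have hfact : Fact (2 ≤ β) := ⟨hβ2⟩
  set A : Matrix (Fin N) (Fin N) ℤ := fun i j => 2 * z1 (true, (i, j)) with hA
  set B : Matrix (Fin N) (Fin N) ℤ := fun i j => 2 * z1 (false, (i, j)) with hB
  have hAq : ∀ i j, (A i j : ℚ) = (β : ℚ) * MA i j := by
    intro i j
    have h1 := hz1 (true, (i, j))
    simp only [if_true] at h1
    simp only [hA, hβ]
    push_cast
    rw [h1]
    ring
  have hBq : ∀ i j, (B i j : ℚ) = (β : ℚ) * MB i j := by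
    intro i j
    have h1 := hz1 (false, (i, j))
    simp only [Bool.false_eq_true, if_false] at h1
    simp only [hB, hβ]
    push_cast
    rw [h1]
    ring
  set uh : Fin k → Fin N → ℤ := fun κ i => z2 (κ, i) with huh
  set c : ℤ → Fin k → Fin N → ℚ := fun a κ i => (D : ℚ) * bs.repr ((X ^ a) (u κ)) i with hc
  have hcA : ∀ a κ i, ∑ j, (A i j : ℚ) * c a κ j = (β : ℚ) * c (a + 1) κ i := by
    intro a κ i
    have h1 := congrFun (LinearMap.toMatrix_mulVec_repr bs bs (X : V →ₗ[ℚ] V) ((X ^ a) (u κ))) i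
    have h2 : (X ^ (a + 1)) (u κ) = X ((X ^ a) (u κ)) := by
      rw [add_comm, zpow_one_add]
      rfl
    simp only [hc]
    rw [h2]
    have h3 : bs.repr (X ((X ^ a) (u κ))) i = ∑ j, MA i j * bs.repr ((X ^ a) (u κ)) j := by
      rw [← hMA] at h1
      exact h1.symm
    rw [h3, Finset.mul_sum, Finset.mul_sum]
    refine Finset.sum_congr rfl fun j _ => ?_
    rw [hAq]
    ring
  have hcB : ∀ a κ i, ∑ j, (B i j : ℚ) * c a κ j = (β : ℚ) * c (a - 1) κ i := by
    intro a κ i
    have h1 := congrFun (LinearMap.toMatrix_mulVec_repr bs bs (X.symm : V →ₗ[ℚ] V)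
      ((X ^ a) (u κ))) i
    have h2 : (X ^ (a - 1)) (u κ) = X.symm ((X ^ a) (u κ)) := by
      rw [sub_eq_neg_add, zpow_add, zpow_neg_one]
      rfl
    simp only [hc]
    rw [h2]
    have h3 : bs.repr (X.symm ((X ^ a) (u κ))) i = ∑ j, MB i j * bs.repr ((X ^ a) (u κ)) j := by
      rw [← hMB] at h1
      exact h1.symm
    rw [h3, Finset.mul_sum, Finset.mul_sum]
    refine Finset.sum_congr rfl fun j _ => ?_
    rw [hBq]
    ring
  have hβ1 : (β : ℚ) ≠ 0 := by
    have : β ≠ 0 := by omega
    exact_mod_cast this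
  -- integrality
  have hpos : ∀ (m : ℕ) κ, ∃ y : Fin N → ℤ, ∀ i, (y i : ℚ) = (β : ℚ) ^ m * c m κ i := by
    intro m κ
    induction m with
    | zero =>
      refine ⟨uh κ, fun i => ?_⟩
      have h1 := hz2 (κ, i)
      simp only [huh, hc, pow_zero, one_mul, Nat.cast_zero, zpow_zero]
      exact h1
    | succ m ih =>
      obtain ⟨y, hy⟩ := ih
      refine ⟨A.mulVec y, fun i => ?_⟩
      simp only [Matrix.mulVec, dotProduct]
      push_cast
      have h2 : ∀ j, (A i j : ℚ) * (y j : ℚ) = (β : ℚ) ^ m * ((A i j : ℚ) * c m κ j) := by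
        intro j
        rw [hy j]
        ring
      rw [Finset.sum_congr rfl fun j _ => h2 j, ← Finset.mul_sum, hcA]
      ring
  have hneg : ∀ (m : ℕ) κ, ∃ y : Fin N → ℤ, ∀ i, (y i : ℚ) = (β : ℚ) ^ m * c (-(m : ℤ)) κ i := by
    intro m κ
    induction m with
    | zero =>
      refine ⟨uh κ, fun i => ?_⟩
      have h1 := hz2 (κ, i)
      simp only [huh, hc, pow_zero, one_mul, Nat.cast_zero, neg_zero, zpow_zero]
      exact h1
    | succ m ih =>
      obtain ⟨y, hy⟩ := ih
      refine ⟨B.mulVec y, fun i => ?_⟩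
      simp only [Matrix.mulVec, dotProduct]
      push_cast
      have h2 : ∀ j, (B i j : ℚ) * (y j : ℚ) =
          (β : ℚ) ^ m * ((B i j : ℚ) * c (-(m : ℤ)) κ j) := by
        intro j
        rw [hy j]
        ring
      rw [Finset.sum_congr rfl fun j _ => h2 j, ← Finset.mul_sum, hcB]
      have h3 : -(m : ℤ) - 1 = -1 + -(m : ℤ) := by ring
      have h4 : -((m : ℤ) + 1) = -1 + -(m : ℤ) := by ring
      rw [h3, h4]
      ring
  have hint : ∀ (n : ℕ) (a : ℤ) κ i, |a| ≤ n → ∃ z : ℤ, (z : ℚ) = (β : ℚ) ^ n * c a κ i := by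
    intro n a κ i ha
    have h1 : ∃ m : ℕ, m ≤ n ∧ ∃ y : ℤ, (y : ℚ) = (β : ℚ) ^ m * c a κ i := by
      rcases Int.eq_nat_or_neg a with ⟨m, rfl | rfl⟩
      · obtain ⟨y, hy⟩ := hpos m κ
        refine ⟨m, ?_, y i, hy i⟩
        rw [Nat.abs_cast] at ha
        exact_mod_cast ha
      · obtain ⟨y, hy⟩ := hneg m κ
        refine ⟨m, ?_, y i, hy i⟩
        rw [abs_neg, Nat.abs_cast] at ha
        exact_mod_cast ha
    obtain ⟨m, hm, y, hy⟩ := h1
    refine ⟨(β : ℤ) ^ (n - m) * y, ?_⟩
    push_cast
    rw [hy, ← mul_assoc, ← pow_add, Nat.sub_add_cancel hm]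
  obtain ⟨f, T, C, hf1, hf2, hf3⟩ := quad_zlist β A B uh
  refine ⟨f, T, C, hf1, fun I => (hf2 I).trans ?_, hf3⟩
  have hL := z04_zlist β hβ2 A B c I.length hcA hcB (hint I.length) I 0 0
    (fun κ i => (β : ℤ) ^ I.length * uh κ i) (by rw [abs_zero, zero_add]) (by
      intro κ i
      have h1 := hz2 (κ, i)
      simp only [huh, hc, zpow_zero]
      push_cast
      rw [h1]
      rfl)
  refine forall_congr' fun b => ?_
  set L := zlist β A B 0 (fun κ i => (β : ℤ) ^ I.length * uh κ i) I with hLdef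
  -- the two sums
  let cast : (Fin N → ℤ) →+ (Fin N → ℚ) :=
    { toFun := fun y i => (y i : ℚ)
      map_zero' := by
        funext i
        simp
      map_add' := fun x y => by
        funext i
        simp }
  let co : V →+ (Fin N → ℚ) :=
    { toFun := fun v i => (β : ℚ) ^ I.length * ((D : ℚ) * bs.repr v i)
      map_zero' := by
        funext i
        simp
      map_add' := fun x y => by
        funext i
        simp [mul_add] }
  have e1 := z04_sum b L (fun x => x.1) (fun x => x.2) (fun x i => (x.2 i : ℚ)) cast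
    (fun x => rfl)
  have e2 := z04_sum b (ipos (0, 0) I) (fun x => x.1.2) (fun x => (X ^ x.1.1) (u x.2))
    (fun x i => (β : ℚ) ^ I.length * c x.1.1 x.2 i) co (fun x => rfl)
  rw [hL, e2] at e1
  have hco : ∀ v : V, co v = 0 ↔ v = 0 := by
    intro v
    constructor
    · intro h
      refine bs.ext_elem fun i => ?_
      have h1 := congrFun h i
      have h2 : (β : ℚ) ^ I.length * ((D : ℚ) * bs.repr v i) = 0 := h1
      have h3 : (D : ℚ) ≠ 0 := by exact_mod_cast hD.ne'
      rw [mul_eq_zero, mul_eq_zero] at h2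
      rw [map_zero, Finsupp.zero_apply]
      rcases h2 with h2 | h2 | h2
      · exact absurd h2 (pow_ne_zero _ hβ1)
      · exact absurd h2 h3
      · exact h2
    · rintro rfl
      exact map_zero _
  have hcast : ∀ y : Fin N → ℤ, cast y = 0 ↔ y = 0 := by
    intro y
    constructor
    · intro h
      funext i
      have h1 : (y i : ℚ) = 0 := congrFun h i
      exact_mod_cast h1
    · rintro rfl
      exact map_zero _
  have e3 : (ipos (0 : ℤ × ℤ) I) = ipos (0, 0) I := rfl
  rw [e3, ← hcast, ← e1, hco]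

end Pool.Agent.WPR
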